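import Mathlib

set_option autoImplicit false

namespace Pool.Agent.Helper933.HC

open Module

/-- `u` is semilinear over the division ring `K` (for some automorphism of `K`). -/
def Semi (K : Type) {M : Type} [DivisionRing K] [AddCommGroup M] [Module K M] (u : M ≃+ M) : Prop :=
  ∃ σ : K ≃+* K, ∀ (k : K) (x : M), u (k • x) = σ k • u x

/-- the subspace `V` is `u`-stable, i.e. `u V = V`. -/
def Stable {K M : Type} [DivisionRing K] [AddCommGroup M] [Module K M] (u : M ≃+ M)
    (V : Submodule K M) : Prop := ∀ x, u x ∈ V ↔ x ∈ V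

/-- intersection of all `u`-stable subspaces of `W` of codimension at most `d` in `W`
(used for finite dimensional `W` only). -/
def rad {K M : Type} [DivisionRing K] [AddCommGroup M] [Module K M] (u : M ≃+ M) (d : ℕ)
    (W : Submodule K M) : Submodule K M :=
  sInf {V | V ≤ W ∧ Stable u V ∧ finrank K W ≤ finrank K V + d}

/-- the `l`-th iterated `d`-radical of `W` vanishes. -/
def Bdd {K M : Type} [DivisionRing K] [AddCommGroup M] [Module K M] (u : M ≃+ M) (l d : ℕ)
    (W : Submodule K M) : Prop := (rad u d)^[l] W = ⊥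

/-- the additive automorphism given by a group element. -/
abbrev ac {G A : Type} [Group G] [AddCommGroup A] [DistribMulAction G A] (g : G) : A ≃+ A :=
  DistribMulAction.toAddEquiv A g

/-- the subspace `B` is stable under the subgroup `H`. -/
def St {K G A : Type} [DivisionRing K] [Group G] [AddCommGroup A] [Module K A]
    [DistribMulAction G A] (H : Subgroup G) (B : Submodule K A) : Prop :=
  ∀ g ∈ H, ∀ x ∈ B, g • x ∈ B

/-- uniform bound for the finite dimensional subspaces of `B` stable under an element of `H`. -/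
def TOn {K G A : Type} [DivisionRing K] [Group G] [AddCommGroup A] [Module K A]
    [DistribMulAction G A] (H : Subgroup G) (B : Submodule K A) : Prop :=
  ∃ l d : ℕ, ∀ g ∈ H, ∀ W : Submodule K A, W ≤ B → FiniteDimensional K W →
    Stable (ac g) W → Bdd (ac g : A ≃+ A) l d W

/-- the uniform bound for the whole of `A`. -/
def TProp (K G A : Type) [DivisionRing K] [Group G] [AddCommGroup A] [Module K A]
    [DistribMulAction G A] : Prop :=
  ∃ l d : ℕ, ∀ (g : G) (W : Submodule K A), FiniteDimensional K W →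
    Stable (ac g) W → Bdd (ac g : A ≃+ A) l d W

/-- a system: `G` acts semilinearly on the `K`-space `A`, elements of the kernel of `ρ : G →* Q`
act as scalars, and `A` is finitely generated over `K` and `G`. -/
structure Sys (K G A Q : Type) [DivisionRing K] [Group G] [AddCommGroup A] [Module K A]
    [DistribMulAction G A] [Group Q] (ρ : G →* Q) : Prop where
  semi : ∀ g : G, Semi K (ac g : A ≃+ A)
  scal : ∀ g : G, ρ g = 1 → ∃ c : K, ∀ a : A, g • a = c • a
  fg : ∃ S : Finset A, Submodule.span K {x : A | ∃ g : G, ∃ s ∈ S, x = g • s} = ⊤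

/-- polycyclic: solvable with all subgroups finitely generated. -/
def PC (Q : Type) [Group Q] : Prop := IsSolvable Q ∧ ∀ H : Subgroup Q, H.FG

/-- every increasing chain of subgroups has at most `n` infinite jumps (Hirsch length at most `n`). -/
def HL (Q : Type) [Group Q] (n : ℕ) : Prop :=
  ∀ H : ℕ → Subgroup Q, Monotone H → ∀ s : Finset ℕ,
    (∀ i ∈ s, (H i).relIndex (H (i + 1)) = 0) → s.card ≤ n

/-- the main property for all systems with quotient group `Q`. -/
def MainFor (Q : Type) [Group Q] : Prop :=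
  ∀ (K G A : Type) [DivisionRing K] [Group G] [AddCommGroup A] [Module K A]
    [DistribMulAction G A] (ρ : G →* Q), Sys K G A Q ρ → TProp K G A

/-- ascending chain condition for the `T`-stable subspaces of `M₀`. -/
def NoethFor {K G A : Type} [DivisionRing K] [Group G] [AddCommGroup A] [Module K A]
    [DistribMulAction G A] (T : Set G) (M₀ : Submodule K A) : Prop :=
  ∀ f : ℕ → Submodule K A, Monotone f →
    (∀ n, f n ≤ M₀ ∧ ∀ g ∈ T, ∀ x ∈ f n, g • x ∈ f n) → ∃ n, ∀ m, n ≤ m → f m = f n

/-- a plinth of `Q`, given as an embedding of `ℤ^r`. -/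
structure Plinth (Q : Type) [Group Q] (r : ℕ) (ε : Multiplicative (Fin r → ℤ) →* Q) : Prop where
  pos : 0 < r
  inj : Function.Injective ε
  normal : ε.range.Normal
  irr : ∀ H : Subgroup Q, H.index ≠ 0 → ∀ F : AddSubgroup (Fin r → ℤ), F ≠ ⊥ →
    (∀ g ∈ H, ∀ v ∈ F, ∃ w ∈ F,
      g * ε (Multiplicative.ofAdd v) * g⁻¹ = ε (Multiplicative.ofAdd w)) →
    ∀ v, ∃ n : ℕ, 0 < n ∧ n • v ∈ F

/-- `∑ ι(a_v) x_v`. -/
def comb {K K' E : Type} [DivisionRing K] [DivisionRing K'] (ι : K →+* K') (x : E → K')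
    (a : E →₀ K) : K' := a.sum fun v k => ι k * x v

/-- `K'` is the division ring of left fractions of the crossed product `K * E`. -/
structure Cross {K K' E : Type} [DivisionRing K] [DivisionRing K'] [AddCommGroup E]
    (ι : K →+* K') (x : E → K') : Prop where
  ne : ∀ v, x v ≠ 0
  norm : ∀ v, ∃ τ : K ≃+* K, ∀ k, x v * ι k = ι (τ k) * x v
  mul : ∀ v w, ∃ c : K, x v * x w = ι c * x (v + w)
  indep : ∀ a : E →₀ K, comb ι x a = 0 → a = 0
  frac : ∀ y : K', ∃ a b : E →₀ K, comb ι x a ≠ 0 ∧ comb ι x a * y = comb ι x b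

/-- `σ` extends `τ` and acts on the `x v` through `M` up to scalars. -/
structure Compat {K K' E : Type} [DivisionRing K] [DivisionRing K'] [AddCommGroup E]
    (ι : K →+* K') (x : E → K') (τ : K ≃+* K) (σ : K' ≃+* K') (M : E ≃+ E) : Prop where
  base : ∀ k, σ (ι k) = ι (τ k)
  gen : ∀ v, ∃ c : K, σ (x v) = ι c * x (M v)

/-- descent of boundedness from `K'` to `K`. -/
def Desc {K K' : Type} [DivisionRing K] [DivisionRing K'] (ι : K →+* K') (σ : K' ≃+* K')
    (l d : ℕ) : Prop :=
  ∀ (X : Type) [AddCommGroup X] [Module K' X] [Module K X],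
    (∀ (k : K) (ξ : X), k • ξ = ι k • ξ) → FiniteDimensional K' X → finrank K' X ≤ d →
    ∀ u : X ≃+ X, (∀ (κ : K') (ξ : X), u (κ • ξ) = σ κ • u ξ) →
    ∀ W : Submodule K X, FiniteDimensional K W → Stable u W → Bdd u l d W

/-- `φ` is injective and every finite set of signs recurs under the powers of `M`. -/
def Rec {E : Type} [AddCommGroup E] (φ : E →+ ℝ) (M : E ≃+ E) : Prop :=
  Function.Injective φ ∧ ∀ (Φ : Finset E) (j₁ : ℕ), 0 < j₁ →
    ∃ j, 0 < j ∧ j₁ ∣ j ∧ ∀ v ∈ Φ, (0 < φ v ↔ 0 < φ ((⇑M)^[j] v))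

/-- the absolute value of `K'` attached to `φ`. -/
structure Val {K K' E : Type} [DivisionRing K] [DivisionRing K'] [AddCommGroup E]
    (ι : K →+* K') (x : E → K') (φ : E →+ ℝ) (w : K' → ℝ) : Prop where
  nonneg : ∀ κ, 0 ≤ w κ
  zero : ∀ κ, w κ = 0 ↔ κ = 0
  mul : ∀ κ κ', w (κ * κ') = w κ * w κ'
  add : ∀ κ κ', w (κ + κ') ≤ max (w κ) (w κ')
  gen : ∀ v, w (x v) = Real.exp (φ v)
  base : ∀ k, k ≠ 0 → w (ι k) = 1
  range : ∀ κ, κ ≠ 0 → ∃ v, w κ = Real.exp (φ v)
  resid : ∀ κ, w κ ≤ 1 → ∃ k, w (κ - ι k) < 1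

/-- `f` is equivariant for `N` (where this makes sense). -/
def Equi {K G A : Type} [DivisionRing K] [Group G] [AddCommGroup A] [Module K A]
    [DistribMulAction G A] (N : Subgroup G) {V : Submodule K A} (f : V →ₗ[K] A) : Prop :=
  ∀ g ∈ N, ∀ x y : V, (y : A) = g • (x : A) → f y = g • f x

/-- critical `N`-stable subspaces: every nonzero equivariant map from an `N`-stable subspace
of `U` to `A` is injective. -/
def Crit {K G A : Type} [DivisionRing K] [Group G] [AddCommGroup A] [Module K A]
    [DistribMulAction G A] (N : Subgroup G) (U : Submodule K A) : Prop :=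
  U ≠ ⊥ ∧ St N U ∧ ∀ V ≤ U, St N V → ∀ f : V →ₗ[K] A, Equi N f → f ≠ 0 →
    Function.Injective f

/-- similarity: some `N`-stable subspace of `U` has a nonzero equivariant map into `V`. -/
def Sim {K G A : Type} [DivisionRing K] [Group G] [AddCommGroup A] [Module K A]
    [DistribMulAction G A] (N : Subgroup G) (U V : Submodule K A) : Prop :=
  ∃ U₁ ≤ U, St N U₁ ∧ ∃ f : U₁ →ₗ[K] A, Equi N f ∧ f ≠ 0 ∧ ∀ x, f x ∈ V

/-- the sum of the critical subspaces similar to `U` and with property `P`. -/
def MS {K G A : Type} [DivisionRing K] [Group G] [AddCommGroup A] [Module K A]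
    [DistribMulAction G A] (N : Subgroup G) (P : Submodule K A → Prop) (U : Submodule K A) :
    Submodule K A :=
  sSup {V | P V ∧ Crit N V ∧ Sim N U V}

/-- no proper nonzero `N`-stable subspaces. -/
def Simp {K G A : Type} [DivisionRing K] [Group G] [AddCommGroup A] [Module K A]
    [DistribMulAction G A] (N : Subgroup G) (U : Submodule K A) : Prop :=
  ∀ V ≤ U, St N V → V = ⊥ ∨ V = U

/-- the translate `g V` (a subspace when the action is semilinear). -/
def gm {K G A : Type} [DivisionRing K] [Group G] [AddCommGroup A] [Module K A]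
    [DistribMulAction G A] (g : G) (V : Submodule K A) : Submodule K A :=
  Submodule.span K {y | ∃ x ∈ V, y = g • x}

/-- the subspace generated by the translates of `w` by elements over the set `F`. -/
def tr {K G A Q : Type} [DivisionRing K] [Group G] [AddCommGroup A] [Module K A]
    [DistribMulAction G A] [Group Q] (ρ : G →* Q) {r : ℕ} (ε : Multiplicative (Fin r → ℤ) →* Q)
    (F : Set (Fin r → ℤ)) (w : A) : Submodule K A :=
  Submodule.span K {y | ∃ g : G, ∃ f ∈ F, ρ g = ε (Multiplicative.ofAdd f) ∧ y = g • w}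

/-- `w` is a torsion element: a nontrivial relation between its translates. -/
def Tors {K G A Q : Type} [DivisionRing K] [Group G] [AddCommGroup A] [Module K A]
    [DistribMulAction G A] [Group Q] (ρ : G →* Q) {r : ℕ} (ε : Multiplicative (Fin r → ℤ) →* Q)
    (w : A) : Prop :=
  ∃ F : Finset (Fin r → ℤ), ∃ v ∉ F, ∃ g : G, ρ g = ε (Multiplicative.ofAdd v) ∧
    g • w ∈ (tr ρ ε (F : Set (Fin r → ℤ)) w : Submodule K A)

/-- the condition of Bieri and Strebel type at a real character `φ`. -/
def Good {K G A Q : Type} [DivisionRing K] [Group G] [AddCommGroup A] [Module K A]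
    [DistribMulAction G A] [Group Q] (ρ : G →* Q) {r : ℕ} (ε : Multiplicative (Fin r → ℤ) →* Q)
    (φ : (Fin r → ℤ) →+ ℝ) (V : Submodule K A) : Prop :=
  ∀ w ∈ V, ∃ F : Finset (Fin r → ℤ), (∀ f ∈ F, 0 < φ f) ∧
    w ∈ (tr ρ ε (F : Set (Fin r → ℤ)) w : Submodule K A)

/-- the main property for systems with surjective `ρ`. -/
def MainS (Q : Type) [Group Q] : Prop :=
  ∀ (K G A : Type) [DivisionRing K] [Group G] [AddCommGroup A] [Module K A]
    [DistribMulAction G A] (ρ : G →* Q), Function.Surjective ρ → Sys K G A Q ρ → TProp K G A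

/-- local version: a nonzero stable subspace with the uniform bound. -/
def LocS (Q : Type) [Group Q] : Prop :=
  ∀ (K G A : Type) [DivisionRing K] [Group G] [AddCommGroup A] [Module K A]
    [DistribMulAction G A] (ρ : G →* Q), Function.Surjective ρ → Sys K G A Q ρ → Nontrivial A →
    ∃ B : Submodule K A, B ≠ ⊥ ∧ St (⊤ : Subgroup G) B ∧ TOn (⊤ : Subgroup G) B

/-- the box `[0,n)^r`. -/
def box (r n : ℕ) : Set (Fin r → ℤ) := {v | ∀ i, 0 ≤ v i ∧ v i < n}

/-- `V` is covered by the finite family `𝓕` of rational subspaces: every nonzero character which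
is bad for `V` vanishes on the integral points of some member. -/
def Cov {K G A Q : Type} [DivisionRing K] [Group G] [AddCommGroup A] [Module K A]
    [DistribMulAction G A] [Group Q] (ρ : G →* Q) {r : ℕ} (ε : Multiplicative (Fin r → ℤ) →* Q)
    (𝓕 : Finset (Submodule ℚ (Fin r → ℚ))) (V : Submodule K A) : Prop :=
  ∀ φ : (Fin r → ℤ) →+ ℝ, φ ≠ 0 → ¬ Good ρ ε φ V →
    ∃ P ∈ 𝓕, ∀ v : Fin r → ℤ, (fun i => (v i : ℚ)) ∈ P → φ v = 0

/-- uniform bounds for heights and for periods of single group elements. -/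
def SEt (Γ A : Type) [Group Γ] [AddCommGroup A] [DistribMulAction Γ A] : Prop :=
  (∃ h : ℕ, ∀ (x : Γ) (a : A) (n : ℕ), (fun y : A => x • y - y)^[n] a = 0 →
      (fun y : A => x • y - y)^[h] a = 0) ∧
    ∃ e : ℕ, 0 < e ∧ ∀ (x : Γ) (n : ℕ) (a : A), 0 < n → x ^ n • a = a → x ^ e • a = a

/-- finitely generated as a module for `Γ`. -/
def FGm (Γ A : Type) [Group Γ] [AddCommGroup A] [DistribMulAction Γ A] : Prop :=
  ∃ S : Finset A, AddSubgroup.closure {a : A | ∃ g : Γ, ∃ s ∈ S, a = g • s} = ⊤

/-- ascending chain condition for the `T`-stable additive subgroups of `M₀`. -/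
def NoethZ {G A : Type} [Group G] [AddCommGroup A] [DistribMulAction G A] (T : Set G)
    (M₀ : AddSubgroup A) : Prop :=
  ∀ f : ℕ → AddSubgroup A, Monotone f →
    (∀ n, f n ≤ M₀ ∧ ∀ g ∈ T, ∀ x ∈ f n, g • x ∈ f n) → ∃ n, ∀ m, n ≤ m → f m = f n

/-- `K`-linear endomorphisms of `U` which are `N`-equivariant. -/
def EqE {K G A : Type} [DivisionRing K] [Group G] [AddCommGroup A] [Module K A]
    [DistribMulAction G A] (N : Subgroup G) (U : Submodule K A) (β : U →ₗ[K] U) : Prop :=
  ∀ g ∈ N, ∀ x y : U, (y : A) = g • (x : A) → ((β y : U) : A) = g • ((β x : U) : A)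

/-- `T` (a space over the division ring `D`) is the space of equivariant maps `U → M`, with
evaluation `ev`, and `D` is the opposite of the ring of equivariant endomorphisms of `U`. -/
structure Cliff {K G A : Type} [DivisionRing K] [Group G] [AddCommGroup A] [Module K A]
    [DistribMulAction G A] (N : Subgroup G) (U M : Submodule K A) (D T : Type) [DivisionRing D]
    [AddCommGroup T] [Module D T] (ev : T → U → A) : Prop where
  add : ∀ t t' u, ev (t + t') u = ev t u + ev t' u
  lin : ∀ t u u', ev t (u + u') = ev t u + ev t u'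
  smul : ∀ t (k : K) u, ev t (k • u) = k • ev t u
  eqv : ∀ t, ∀ g ∈ N, ∀ x y : U, (y : A) = g • (x : A) → ev t y = g • ev t x
  mem : ∀ t u, ev t u ∈ M
  inj : ∀ t, (∀ u, ev t u = 0) → t = 0
  full : ∀ f : U →ₗ[K] A, Equi N f → (∀ x, f x ∈ M) → ∃ t, ∀ u, ev t u = f u
  dsmul : ∀ δ : D, ∃ β : U →ₗ[K] U, EqE N U β ∧ ∀ t u, ev (δ • t) u = ev t (β u)
  dfull : ∀ β : U →ₗ[K] U, EqE N U β → ∃ δ : D, ∀ t u, ev (δ • t) u = ev t (β u)

/-- the subspace generated by the images of the maps in `T₁`. -/
def TU {K A : Type} [DivisionRing K] [AddCommGroup A] [Module K A] {U : Submodule K A}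
    {D T : Type} [DivisionRing D] [AddCommGroup T] [Module D T] (ev : T → U → A)
    (T₁ : Submodule D T) : Submodule K A := Submodule.span K {y | ∃ t ∈ T₁, ∃ u, y = ev t u}

end Pool.Agent.Helper933.HC
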