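import Pool.Agent.Helper933.HC.Defs

set_option autoImplicit false

namespace Pool.Agent.Helper933.HC
open Module


namespace KFG

open Subgroup

variable {G : Type*} [Group G]

/-- `K` is finitely generated modulo `N`. -/
def FGmod (N K : Subgroup G) : Prop :=
  ∃ S : Set G, S.Finite ∧ S ⊆ K ∧ K ≤ N ⊔ closure S

theorem fg_closure {S : Set G} (hS : S.Finite) : (closure S).FG :=
  (Subgroup.fg_iff _).2 ⟨S, rfl, hS⟩

theorem fg_map {G' : Type*} [Group G'] (f : G →* G') {K : Subgroup G} (h : K.FG) :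
    (K.map f).FG := by
  obtain ⟨S, rfl, hS⟩ := (Subgroup.fg_iff _).1 h
  rw [MonoidHom.map_closure]
  exact fg_closure (hS.image _)

theorem fg_type_comm {C : Type*} [CommGroup C] [h1 : Group.FG C] (K : Subgroup C) : K.FG := by
  have h2 : AddGroup.FG (Additive C) := (GroupFG.iff_add_fg).1 h1
  have h3 : Module.Finite ℤ (Additive C) := Module.Finite.iff_addGroup_fg.2 h2
  have h4 : IsNoetherian ℤ (Additive C) := inferInstance
  rw [Subgroup.fg_iff_add_fg]
  have h5 := (IsNoetherian.noetherian (AddSubgroup.toIntSubmodule (toAddSubgroup K)))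
  rw [Submodule.fg_iff_addSubgroup_fg] at h5
  exact h5

/-- subgroups of finitely generated commutative subgroups are finitely generated -/
theorem comm_sub_fg {Y : Subgroup G} (hY : Y.FG) (hc : ∀ x ∈ Y, ∀ y ∈ Y, x * y = y * x)
    {K : Subgroup G} (hK : K ≤ Y) : K.FG := by
  letI : CommGroup Y := { (inferInstance : Group Y) with
    mul_comm := fun a b => Subtype.ext (hc a a.2 b b.2) }
  haveI h1 : Group.FG Y := (Group.fg_iff_subgroup_fg Y).2 hY
  have h2 : (K.subgroupOf Y).FG := fg_type_comm _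
  have h3 := fg_map Y.subtype h2
  rwa [map_subgroupOf_eq_of_le hK] at h3

theorem closure_comm {S : Set G} (hc : ∀ x ∈ S, ∀ y ∈ S, x * y = y * x) :
    ∀ x ∈ closure S, ∀ y ∈ closure S, x * y = y * x := by
  have h := Subgroup.isMulCommutative_closure hc
  intro x hx y hy
  have := h.is_comm.comm ⟨x, hx⟩ ⟨y, hy⟩
  exact congrArg Subtype.val this

theorem fgmod_iff (N K : Subgroup G) [N.Normal] :
    FGmod N K ↔ (K.map (QuotientGroup.mk' N)).FG := by
  constructor
  · rintro ⟨S, hS, hSK, hK⟩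
    have : K.map (QuotientGroup.mk' N) = (closure S).map (QuotientGroup.mk' N) := by
      apply le_antisymm
      · refine (Subgroup.map_mono hK).trans ?_
        rw [Subgroup.map_sup]
        simp
      · exact Subgroup.map_mono ((closure_le _).2 hSK)
    rw [this]
    exact fg_map _ (fg_closure hS)
  · intro h
    obtain ⟨T, hT, hTf⟩ := (Subgroup.fg_iff _).1 h
    have hex : ∃ T ⊆ (QuotientGroup.mk' N) '' (K : Set G), T.Finite ∧
        closure T = K.map (QuotientGroup.mk' N) := by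
      refine ⟨T, ?_, hTf, hT⟩
      intro t ht
      have : t ∈ K.map (QuotientGroup.mk' N) := hT ▸ subset_closure ht
      exact this
    obtain ⟨S, hSK, hSf, hS⟩ := Set.exists_subset_image_finite_and.1 hex
    refine ⟨S, hSf, hSK, ?_⟩
    intro x hx
    have h1 : QuotientGroup.mk' N x ∈ (closure S).map (QuotientGroup.mk' N) := by
      rw [MonoidHom.map_closure, hS]
      exact ⟨x, hx, rfl⟩
    obtain ⟨c, hc, hcx⟩ := h1
    rw [mem_sup_of_normal_left]
    refine ⟨x * c⁻¹, ?_, c, hc, by group⟩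
    have : (QuotientGroup.mk' N) (x * c⁻¹) = 1 := by
      rw [map_mul, map_inv, hcx]; group
    rwa [QuotientGroup.mk'_apply, QuotientGroup.eq_one_iff] at this

theorem mk_comm (N : Subgroup G) [N.Normal] {x y : G} (h : x * y * x⁻¹ * y⁻¹ ∈ N) :
    (QuotientGroup.mk' N x) * (QuotientGroup.mk' N y)
      = (QuotientGroup.mk' N y) * (QuotientGroup.mk' N x) := by
  have : (QuotientGroup.mk' N) (x * y * x⁻¹ * y⁻¹) = 1 := by
    rwa [QuotientGroup.mk'_apply, QuotientGroup.eq_one_iff]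
  simp only [map_mul, map_inv] at this
  rw [mul_inv_eq_one, mul_inv_eq_iff_eq_mul] at this
  exact this

/-- a subgroup that is generated, modulo `N`, by finitely many elements commuting modulo `N`
has all its subgroups finitely generated modulo `N`. -/
theorem fgmod_of_comm (N : Subgroup G) [N.Normal] {Y : Set G} (hY : Y.Finite)
    (hc : ∀ x ∈ Y, ∀ y ∈ Y, x * y * x⁻¹ * y⁻¹ ∈ N) {K : Subgroup G}
    (hK : K ≤ N ⊔ closure Y) : FGmod N K := by
  rw [fgmod_iff]
  have h1 : K.map (QuotientGroup.mk' N) ≤ closure ((QuotientGroup.mk' N) '' Y) := by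
    refine (Subgroup.map_mono hK).trans ?_
    rw [Subgroup.map_sup, MonoidHom.map_closure]
    simp
  refine comm_sub_fg (fg_closure (hY.image _)) (closure_comm ?_) h1
  rintro _ ⟨x, hx, rfl⟩ _ ⟨y, hy, rfl⟩
  exact mk_comm N (hc x hx y hy)

theorem fp_ext {Γ : Type*} [Group Γ] [hΓ : Group.FG Γ] (N M : Subgroup Γ) [N.Normal] [M.Normal]
    (hNM : N ≤ M) {Y : Set Γ} (hY : Y.Finite) (hYM : Y ⊆ M)
    (hcomm : ∀ x ∈ M, ∀ y ∈ M, x * y * x⁻¹ * y⁻¹ ∈ N) (hfg : M ≤ N ⊔ closure Y)
    (hM : M.IsFinitelyNormallyGenerated) : N.IsFinitelyNormallyGenerated := by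
  obtain ⟨S, hS, hSM⟩ := hM
  obtain ⟨T, hT, hTf⟩ := Group.fg_iff.1 hΓ
  have hSM' : S ⊆ M := hSM ▸ subset_normalClosure
  have hY'M : Y ∪ S ⊆ M := Set.union_subset hYM hSM'
  have hw : ∀ t : Γ, ∀ y ∈ M, ∃ w ∈ closure (Y ∪ S), t * y * t⁻¹ * w⁻¹ ∈ N := by
    intro t y hy
    have h1 : t * y * t⁻¹ ∈ M := Subgroup.Normal.conj_mem inferInstance y hy t
    obtain ⟨n, hn, c, hc, h2⟩ := mem_sup_of_normal_left.1 (hfg h1)
    refine ⟨c, Subgroup.closure_mono Set.subset_union_left hc, ?_⟩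
    rw [← h2]
    simpa using hn
  choose! w hw1 hw2 using hw
  set R : Set Γ := Set.image2 (fun t y => t * y * t⁻¹ * (w t y)⁻¹) (T ∪ (fun x => x⁻¹) '' T) (Y ∪ S) ∪
    Set.image2 (fun x y => x * y * x⁻¹ * y⁻¹) (Y ∪ S) (Y ∪ S) with hR
  have hRf : R.Finite :=
    ((hTf.union (hTf.image _)).image2 _ (hY.union hS)).union
      ((hY.union hS).image2 _ (hY.union hS))
  have hRN : R ⊆ N := by
    rintro x (⟨t, ht, y, hy, rfl⟩ | ⟨y, hy, z, hz, rfl⟩)
    · exact hw2 t y (hY'M hy)
    · exact hcomm y (hY'M hy) z (hY'M hz)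
  set J : Subgroup Γ := normalClosure R with hJ
  have hJN : J ≤ N := normalClosure_le_normal hRN
  set P : Subgroup Γ := J ⊔ closure (Y ∪ S) with hP
  have hPconj : ∀ t ∈ T ∪ (fun x => x⁻¹) '' T, ∀ p ∈ P, t * p * t⁻¹ ∈ P := by
    intro t ht
    have : P ≤ P.comap (MulAut.conj t).toMonoidHom := by
      rw [hP]
      refine sup_le ?_ ((closure_le _).2 ?_)
      · intro x hx
        exact mem_sup_left (Subgroup.Normal.conj_mem inferInstance x hx t)
      · intro y hy
        have h1 : t * y * t⁻¹ * (w t y)⁻¹ ∈ J :=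
          subset_normalClosure (Or.inl ⟨t, ht, y, hy, rfl⟩)
        have h2 := mul_mem (mem_sup_left (T := closure (Y ∪ S)) h1)
          (mem_sup_right (S := J) (hw1 t y (hY'M hy)))
        have h3 : t * y * t⁻¹ * (w t y)⁻¹ * w t y = t * y * t⁻¹ := by group
        rw [h3] at h2
        exact h2
    intro p hp
    exact this hp
  have hnorm : ∀ x : Γ, (∀ p ∈ P, x * p * x⁻¹ ∈ P) ∧ (∀ p ∈ P, x⁻¹ * p * x⁻¹⁻¹ ∈ P) := by
    intro x
    have hx : x ∈ closure T := hT ▸ Subgroup.mem_top x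
    induction hx using closure_induction with
    | mem x hx =>
      exact ⟨hPconj x (Or.inl hx), hPconj x⁻¹ (Or.inr ⟨x, hx, rfl⟩)⟩
    | one => exact ⟨fun p hp => by simpa using hp, fun p hp => by simpa using hp⟩
    | mul x y _ _ ih1 ih2 =>
      refine ⟨fun p hp => ?_, fun p hp => ?_⟩
      · have := ih1.1 _ (ih2.1 p hp)
        have h : x * (y * p * y⁻¹) * x⁻¹ = x * y * p * (x * y)⁻¹ := by group
        rwa [h] at this
      · have := ih2.2 _ (ih1.2 p hp)
        have h : y⁻¹ * (x⁻¹ * p * x⁻¹⁻¹) * y⁻¹⁻¹ = (x * y)⁻¹ * p * (x * y)⁻¹⁻¹ := by group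
        rwa [h] at this
    | inv x _ ih =>
      exact ⟨ih.2, fun p hp => by rw [inv_inv]; exact ih.1 p hp⟩
  haveI hPn : P.Normal := ⟨fun p hp x => (hnorm x).1 p hp⟩
  have hMP : M ≤ P := by
    rw [← hSM]
    exact normalClosure_le_normal (fun s hs => mem_sup_right (subset_closure (Or.inr hs)))
  obtain ⟨R', hR', hR'N, hNR'⟩ := fgmod_of_comm J (hY.union hS)
    (fun x hx y hy => subset_normalClosure (Or.inr ⟨x, hx, y, hy, rfl⟩)) (hNM.trans hMP)
  refine ⟨R ∪ R', hRf.union hR', le_antisymm (normalClosure_le_normal (Set.union_subset hRN hR'N)) ?_⟩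
  refine hNR'.trans (sup_le (normalClosure_mono Set.subset_union_left) ?_)
  exact (Subgroup.closure_mono Set.subset_union_right).trans closure_le_normalClosure

end KFG

theorem kfg_step {G Q : Type} [Group G] [Group Q] (hG : Group.FG G) (f : G →* Q)
    (hf : Function.Surjective f) (hQ : ∀ H : Subgroup Q, H.FG) (A B : Subgroup Q) [A.Normal] [B.Normal]
    (hBA : B ≤ A) (hAB : ∀ x ∈ A, ∀ y ∈ A, x * y * x⁻¹ * y⁻¹ ∈ B)
    (hM : (A.comap f).IsFinitelyNormallyGenerated) : (B.comap f).IsFinitelyNormallyGenerated := by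
  haveI := hG
  obtain ⟨Z, hZ, hZf⟩ := (Subgroup.fg_iff _).1 (hQ A)
  have hex : ∃ T ⊆ f '' (Set.univ : Set G), T.Finite ∧ Subgroup.closure T = A :=
    ⟨Z, by rw [Set.image_univ, hf.range_eq]; exact Set.subset_univ _, hZf, hZ⟩
  obtain ⟨Y, _, hYf, hY⟩ := Set.exists_subset_image_finite_and.1 hex
  have hYA : ∀ y ∈ Y, f y ∈ A := by
    intro y hy
    rw [← hY]
    exact Subgroup.subset_closure ⟨y, hy, rfl⟩
  refine KFG.fp_ext (B.comap f) (A.comap f) (Subgroup.comap_mono hBA) hYf ?_ ?_ ?_ hM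
  · intro y hy
    exact hYA y hy
  · intro x hx y hy
    rw [Subgroup.mem_comap, map_mul, map_mul, map_mul, map_inv, map_inv]
    exact hAB _ hx _ hy
  · intro x hx
    have h1 : f x ∈ (Subgroup.closure Y).map f := by
      rw [MonoidHom.map_closure, hY]
      exact hx
    obtain ⟨c, hc, hcx⟩ := h1
    rw [Subgroup.mem_sup_of_normal_left]
    refine ⟨x * c⁻¹, ?_, c, hc, by group⟩
    rw [Subgroup.mem_comap, map_mul, map_inv, hcx, mul_inv_cancel]
    exact B.one_mem

theorem ker_fg {G Q : Type} [Group G] [Group Q] (hG : Group.FG G) (f : G →* Q)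
    (hf : Function.Surjective f) (hQ : PC Q) :
    ∃ S : Finset G, Subgroup.normalClosure (S : Set G) = f.ker := by
  obtain ⟨hsol, hfg⟩ := hQ
  have key : ∀ i : ℕ, ((derivedSeries Q i).comap f).IsFinitelyNormallyGenerated := by
    intro i
    induction i with
    | zero =>
      obtain ⟨S, hS, hSf⟩ := Group.fg_iff.1 hG
      refine ⟨S, hSf, ?_⟩
      rw [derivedSeries_zero, Subgroup.comap_top, eq_top_iff, ← hS]
      exact Subgroup.closure_le_normalClosure
    | succ i ih =>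
      refine kfg_step hG f hf hfg (derivedSeries Q i) (derivedSeries Q (i + 1)) ?_ ?_ ih
      · exact derivedSeries_antitone Q (Nat.le_succ i)
      · intro x hx y hy
        rw [derivedSeries_succ]
        exact Subgroup.commutator_mem_commutator hx hy
  obtain ⟨n, hn⟩ := hsol.solvable
  have h1 := key n
  rw [hn] at h1
  obtain ⟨S, hS, hS2⟩ := h1
  refine ⟨hS.toFinset, ?_⟩
  rw [Set.Finite.coe_toFinset, hS2]
  rfl

end Pool.Agent.Helper933.HC
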