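import Pool.Agent.Helper933.HC.Defs
import Pool.Agent.Helper933.HC.P_ker_fg

set_option autoImplicit false

namespace Pool.Agent.Helper933.HC
open Module


/-- generation part of `ab_module` -/
theorem ab_module_fg {G Q M : Type} [Group G] [Group Q] [AddCommGroup M] [DistribMulAction Q M]
    (f : G →* Q) (j : M → G) (hj : Function.Injective j)
    (hker : ∀ g, g ∈ f.ker ↔ ∃ m, j m = g) (hadd : ∀ a b, j (a + b) = j a * j b)
    (hact : ∀ g m, j (f g • m) = g * j m * g⁻¹)
    (S : Finset G) (hS : Subgroup.normalClosure (S : Set G) = f.ker) : FGm Q M := by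
  classical
  have hS1 : ∀ s ∈ S, ∃ m, j m = s := by
    intro s hs
    rw [← hker, ← hS]
    exact Subgroup.subset_normalClosure (Finset.mem_coe.2 hs)
  have hj0 : j 0 = 1 := by
    have h1 := hadd 0 0
    rw [add_zero] at h1
    exact (left_eq_mul.1 h1)
  have hneg : ∀ a, j (-a) = (j a)⁻¹ := by
    intro a
    have h1 := hadd a (-a)
    rw [add_neg_cancel, hj0] at h1
    exact (inv_eq_of_mul_eq_one_right h1.symm).symm
  refine ⟨S.attach.image (fun s => (hS1 s.1 s.2).choose), ?_⟩
  set T : Set M := {a : M | ∃ g : Q, ∃ s ∈ S.attach.image (fun s => (hS1 s.1 s.2).choose),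
    a = g • s} with hT
  let N : Subgroup G :=
    { carrier := {g | ∃ m ∈ AddSubgroup.closure T, j m = g}
      mul_mem' := by
        rintro _ _ ⟨a, ha, rfl⟩ ⟨b, hb, rfl⟩
        exact ⟨a + b, add_mem ha hb, hadd a b⟩
      one_mem' := ⟨0, zero_mem _, hj0⟩
      inv_mem' := by
        rintro _ ⟨a, ha, rfl⟩
        exact ⟨-a, neg_mem ha, hneg a⟩ }
  have hle : Subgroup.normalClosure (S : Set G) ≤ N := by
    unfold Subgroup.normalClosure
    rw [Subgroup.closure_le]
    intro x hx
    obtain ⟨s, hs, hsx⟩ := Group.mem_conjugatesOfSet_iff.1 hx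
    obtain ⟨g, hg⟩ := isConj_iff.1 hsx
    have hsS : s ∈ S := Finset.mem_coe.1 hs
    refine ⟨f g • (hS1 s hsS).choose, AddSubgroup.subset_closure ?_, ?_⟩
    · exact ⟨f g, (hS1 s hsS).choose,
        Finset.mem_image.2 ⟨⟨s, hsS⟩, Finset.mem_attach _ _, rfl⟩, rfl⟩
    · rw [hact, (hS1 s hsS).choose_spec, hg]
  rw [eq_top_iff]
  intro m _
  have h1 : j m ∈ f.ker := (hker _).2 ⟨m, rfl⟩
  rw [← hS] at h1
  obtain ⟨m', hm', he⟩ := hle h1
  rw [← hj he]
  exact hm'

/-- the abelian kernel as a finitely generated module. -/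
theorem ab_module {G Q : Type} [Group G] [Group Q] (hG : Group.FG G) (f : G →* Q)
    (hf : Function.Surjective f) (hQ : PC Q) (hab : ∀ x ∈ f.ker, ∀ y ∈ f.ker, x * y = y * x) :
    ∃ (M : Type) (_ : AddCommGroup M) (_ : DistribMulAction Q M) (j : M → G),
      Function.Injective j ∧ (∀ g, g ∈ f.ker ↔ ∃ m, j m = g) ∧
      (∀ a b, j (a + b) = j a * j b) ∧ (∀ g m, j (f g • m) = g * j m * g⁻¹) ∧ FGm Q M := by
  obtain ⟨S, hS⟩ := ker_fg hG f hf hQ
  letI iG : CommGroup f.ker :=
    { (inferInstance : Group f.ker) with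
      mul_comm := fun x y => Subtype.ext (hab x.1 x.2 y.1 y.2) }
  obtain ⟨act, hact⟩ : ∃ act : Q → (f.ker ≃* f.ker), ∀ (g : G) (x : f.ker),
      ((act (f g) x : f.ker) : G) = g * x * g⁻¹ := by
    refine ⟨fun q => MulAut.conjNormal (Function.surjInv hf q), fun g x => ?_⟩
    show ((MulAut.conjNormal (Function.surjInv hf (f g)) x : f.ker) : G) = g * x * g⁻¹
    rw [MulAut.conjNormal_apply]
    set g' := Function.surjInv hf (f g) with hg'
    have h1 : f g' = f g := Function.surjInv_eq hf (f g)
    have h2 : g⁻¹ * g' ∈ f.ker := by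
      rw [MonoidHom.mem_ker, map_mul, map_inv, h1, inv_mul_cancel]
    have h3 := hab _ h2 x.1 x.2
    have h4 : g' * (x : G) = g * x * (g⁻¹ * g') := by
      rw [mul_assoc g, ← h3]
      group
    rw [h4]
    group
  have hact1 : ∀ x, act 1 x = x := by
    intro x
    apply Subtype.ext
    have h1 := hact 1 x
    rw [map_one] at h1
    rw [h1]
    group
  have hactm : ∀ q q' x, act (q * q') x = act q (act q' x) := by
    intro q q' x
    obtain ⟨g, rfl⟩ := hf q
    obtain ⟨g', rfl⟩ := hf q'
    apply Subtype.ext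
    rw [← map_mul, hact, hact, hact]
    group
  letI iA : DistribMulAction Q (Additive f.ker) :=
    { smul := fun q m => Additive.ofMul (act q (Additive.toMul m))
      one_smul := fun m => by
        show Additive.ofMul (act 1 (Additive.toMul m)) = m
        rw [hact1]
        rfl
      mul_smul := fun q q' m => by
        show Additive.ofMul (act (q * q') (Additive.toMul m)) = _
        rw [hactm]
        rfl
      smul_zero := fun q => by
        show Additive.ofMul (act q (Additive.toMul 0)) = 0
        rw [toMul_zero, map_one]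
        rfl
      smul_add := fun q m m' => by
        show Additive.ofMul (act q (Additive.toMul (m + m'))) = _
        rw [toMul_add, map_mul]
        rfl }
  have hj1 : Function.Injective (fun m : Additive f.ker => ((Additive.toMul m : f.ker) : G)) :=
    fun a b h => Additive.toMul.injective (Subtype.ext h)
  have hj2 : ∀ g, g ∈ f.ker ↔
      ∃ m : Additive f.ker, (fun m : Additive f.ker => ((Additive.toMul m : f.ker) : G)) m = g := by
    intro g
    constructor
    · intro h
      exact ⟨Additive.ofMul ⟨g, h⟩, rfl⟩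
    · rintro ⟨m, rfl⟩
      exact (Additive.toMul m).2
  have hj4 : ∀ (g : G) (m : Additive f.ker),
      (fun m : Additive f.ker => ((Additive.toMul m : f.ker) : G)) (f g • m) =
      g * (fun m : Additive f.ker => ((Additive.toMul m : f.ker) : G)) m * g⁻¹ :=
    fun g m => hact g (Additive.toMul m)
  exact ⟨Additive f.ker, inferInstance, iA, fun m => ((Additive.toMul m : f.ker) : G), hj1, hj2,
    fun a b => rfl, hj4, ab_module_fg f _ hj1 hj2 (fun a b => rfl) hj4 S hS⟩

end Pool.Agent.Helper933.HC
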