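import Pool.Agent.Helper933.HC.Defs

set_option autoImplicit false

namespace Pool.Agent.Helper933.HC
open Module


theorem acc_max {K G A : Type} [DivisionRing K] [Group G] [AddCommGroup A] [Module K A]
    [DistribMulAction G A] (T : Set G) (M₀ : Submodule K A) (hN : NoethFor T M₀)
    (𝒞 : Set (Submodule K A)) (hne : 𝒞.Nonempty)
    (h𝒞 : ∀ V ∈ 𝒞, V ≤ M₀ ∧ ∀ g ∈ T, ∀ x ∈ V, g • x ∈ V) :
    ∃ V ∈ 𝒞, ∀ V' ∈ 𝒞, V ≤ V' → V' = V := by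
  by_contra hc
  push Not at hc
  have h1 : ∀ V : 𝒞, ∃ V' : 𝒞, V.1 ≤ V'.1 ∧ V'.1 ≠ V.1 := fun V => by
    obtain ⟨V', hV', h, h'⟩ := hc V.1 V.2
    exact ⟨⟨V', hV'⟩, h, h'⟩
  choose nxt hn1 hn2 using h1
  obtain ⟨V0, hV0⟩ := hne
  let f : ℕ → 𝒞 := fun n => nxt^[n] ⟨V0, hV0⟩
  have hf : ∀ n, f (n + 1) = nxt (f n) := fun n => Function.iterate_succ_apply' _ _ _
  have hmono : Monotone fun n => (f n).1 := monotone_nat_of_le_succ fun n => by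
    show (f n).1 ≤ (f (n + 1)).1
    rw [hf]
    exact hn1 _
  obtain ⟨n, hn⟩ := hN (fun n => (f n).1) hmono (fun n => h𝒞 _ (f n).2)
  have h2 : (f (n + 1)).1 = (f n).1 := hn (n + 1) (Nat.le_succ n)
  rw [hf] at h2
  exact hn2 _ h2

end Pool.Agent.Helper933.HC
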