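import Pool.Agent.Helper933.HC.Defs
import Pool.Agent.Helper933.HC.P_acc_max

set_option autoImplicit false

namespace Pool.Agent.Helper933.HC
open Module


theorem acc_fg {K G A : Type} [DivisionRing K] [Group G] [AddCommGroup A] [Module K A]
    [DistribMulAction G A] (hsemi : ∀ g : G, Semi K (ac g : A ≃+ A)) (H : Subgroup G)
    (M₀ : Submodule K A) (hN : NoethFor (H : Set G) M₀)
    (B : Submodule K A) (hB : B ≤ M₀) (hBs : St H B) :
    ∃ S : Finset A, Submodule.span K {y : A | ∃ g ∈ H, ∃ s ∈ S, y = g • s} = B := by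
  classical
  obtain ⟨sp, hsp⟩ : ∃ sp : Finset A → Submodule K A, ∀ S, sp S =
      Submodule.span K {y : A | ∃ g ∈ H, ∃ s ∈ S, y = g • s} := ⟨_, fun _ => rfl⟩
  have hle : ∀ S : Finset A, (∀ s ∈ S, s ∈ B) → sp S ≤ B := by
    intro S hS
    rw [hsp, Submodule.span_le]
    rintro y ⟨g, hg, s, hs, rfl⟩
    exact hBs g hg s (hS s hs)
  have hst : ∀ S : Finset A, ∀ g ∈ H, ∀ x ∈ sp S, g • x ∈ sp S := by
    intro S g hg x hx
    rw [hsp] at hx ⊢
    induction hx using Submodule.span_induction with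
    | mem x hx =>
      obtain ⟨h, hh, s, hs, rfl⟩ := hx
      exact Submodule.subset_span ⟨g * h, H.mul_mem hg hh, s, hs, by rw [mul_smul]⟩
    | zero =>
      rw [smul_zero]
      exact Submodule.zero_mem _
    | add x y _ _ hx hy =>
      rw [smul_add]
      exact Submodule.add_mem _ hx hy
    | smul k x _ hx =>
      obtain ⟨σ, hσ⟩ := hsemi g
      have h1 : g • (k • x) = σ k • (g • x) := hσ k x
      rw [h1]
      exact Submodule.smul_mem _ _ hx
  obtain ⟨V, ⟨S, hS, rfl⟩, hmax⟩ := acc_max (H : Set G) M₀ hN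
    {V | ∃ S : Finset A, (∀ s ∈ S, s ∈ B) ∧ V = sp S}
    ⟨sp ∅, ∅, by simp, rfl⟩ (by
      rintro V ⟨S, hS, rfl⟩
      exact ⟨(hle S hS).trans hB, fun g hg x hx => hst S g hg x hx⟩)
  refine ⟨S, ?_⟩
  rw [← hsp]
  refine le_antisymm (hle S hS) fun b hb => ?_
  have h1 : sp S ≤ sp (insert b S) := by
    rw [hsp, hsp]
    refine Submodule.span_mono ?_
    rintro y ⟨g, hg, s, hs, rfl⟩
    exact ⟨g, hg, s, Finset.mem_insert_of_mem hs, rfl⟩
  have h2 := hmax (sp (insert b S)) ⟨insert b S, by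
    intro s hs
    rcases Finset.mem_insert.1 hs with rfl | hs
    · exact hb
    · exact hS s hs, rfl⟩ h1
  rw [← h2, hsp]
  exact Submodule.subset_span ⟨1, H.one_mem, b, Finset.mem_insert_self _ _, by rw [one_smul]⟩

end Pool.Agent.Helper933.HC
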