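import Pool.Agent.Helper933.HC.Defs

set_option autoImplicit false

namespace Pool.Agent.Helper933.HC
open Module


theorem rad_le {K M : Type} [DivisionRing K] [AddCommGroup M] [Module K M]
    {u : M ≃+ M} (d : ℕ) {W : Submodule K M} (h : Stable u W) : rad u d W ≤ W ∧ Stable u (rad u d W) := by
  constructor
  · exact sInf_le ⟨le_rfl, h, Nat.le_add_right _ _⟩
  · intro x
    unfold rad
    rw [Submodule.mem_sInf, Submodule.mem_sInf]
    exact ⟨fun hx V hV => (hV.2.1 x).1 (hx V hV), fun hx V hV => (hV.2.1 x).2 (hx V hV)⟩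

end Pool.Agent.Helper933.HC
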