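import Pool.Agent.Helper933.HC.Defs
import Pool.Agent.Helper933.HC.P_rad_le

set_option autoImplicit false

namespace Pool.Agent.Helper933.HC
open Module


theorem radi_le {K M : Type} [DivisionRing K] [AddCommGroup M] [Module K M]
    {u : M ≃+ M} (l d : ℕ) {W : Submodule K M} (h : Stable u W) :
    (rad u d)^[l] W ≤ W ∧ Stable u ((rad u d)^[l] W) := by
  induction l with
  | zero => exact ⟨le_refl _, h⟩
  | succ l ih =>
    rw [Function.iterate_succ_apply']
    obtain ⟨h1, h2⟩ := rad_le d ih.2
    exact ⟨h1.trans ih.1, h2⟩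

end Pool.Agent.Helper933.HC
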