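import Pool.Agent.Helper933.HC.Defs

set_option autoImplicit false

namespace Pool.Agent.Helper933.HC
open Module


theorem rad_mono {K M : Type} [DivisionRing K] [AddCommGroup M] [Module K M]
    {u : M ≃+ M} {d d' : ℕ} (hd : d ≤ d') {V W : Submodule K M} (hVW : V ≤ W)
    [FiniteDimensional K W] (hV : Stable u V) :
    rad u d' V ≤ rad u d W := by
  unfold rad
  refine le_sInf ?_
  rintro V1 ⟨h1, h2, h3⟩
  refine (sInf_le ?_).trans (inf_le_right : V ⊓ V1 ≤ V1)
  refine ⟨inf_le_left, ?_, ?_⟩
  · intro x
    have := hV x
    have := h2 x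
    simp only [Submodule.mem_inf]
    tauto
  · haveI : FiniteDimensional K V := Submodule.finiteDimensional_of_le hVW
    haveI : FiniteDimensional K V1 := Submodule.finiteDimensional_of_le h1
    have h4 := Submodule.finrank_sup_add_finrank_inf_eq V V1
    have h5 : finrank K (V ⊔ V1 : Submodule K M) ≤ finrank K W :=
      Submodule.finrank_mono (sup_le hVW h1)
    omega

end Pool.Agent.Helper933.HC
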