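import Pool.Agent.Helper933.HC.Defs
import Pool.Agent.Helper933.HC.P_rad_le
import Pool.Agent.Helper933.HC.P_rad_mono
import Pool.Agent.Helper933.HC.P_radi_le

set_option autoImplicit false

namespace Pool.Agent.Helper933.HC
open Module


theorem radi_mono {K M : Type} [DivisionRing K] [AddCommGroup M] [Module K M]
    {u : M ≃+ M} {l l' d d' : ℕ} (hl : l ≤ l') (hd : d ≤ d') {V W : Submodule K M} (hVW : V ≤ W)
    [FiniteDimensional K W] (hV : Stable u V) (hW : Stable u W) :
    (rad u d')^[l'] V ≤ (rad u d)^[l] W := by
  have h1 : ∀ l : ℕ, (rad u d')^[l] V ≤ (rad u d)^[l] W := by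
    intro l
    induction l with
    | zero => exact hVW
    | succ l ih =>
      rw [Function.iterate_succ_apply', Function.iterate_succ_apply']
      haveI : FiniteDimensional K ((rad u d)^[l] W : Submodule K M) :=
        Submodule.finiteDimensional_of_le (radi_le l d hW).1
      exact rad_mono hd ih (radi_le l d' hV).2
  have h2 : (rad u d')^[l'] V ≤ (rad u d')^[l] V := by
    obtain ⟨k, rfl⟩ := Nat.exists_eq_add_of_le hl
    rw [add_comm, Function.iterate_add_apply]
    exact (radi_le k d' (radi_le l d' hV).2).1
  exact h2.trans (h1 l)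

end Pool.Agent.Helper933.HC
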