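import Pool.Agent.Helper933.HC.Defs
import Pool.Agent.Helper933.HC.P_rad_le
import Pool.Agent.Helper933.HC.P_rad_mono
import Pool.Agent.Helper933.HC.P_radi_le
import Pool.Agent.Helper933.HC.P_radi_mono

set_option autoImplicit false

namespace Pool.Agent.Helper933.HC
open Module


theorem radi_map_key {K K₂ M M₂ : Type} [DivisionRing K] [DivisionRing K₂] [AddCommGroup M]
    [AddCommGroup M₂] [Module K M] [Module K₂ M₂] (τ : K ≃+* K₂) (φ : M →+ M₂)
    {u : M ≃+ M} {u₂ : M₂ ≃+ M₂} {W : Submodule K M} [FiniteDimensional K W] (hW : Stable u W)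
    (hφ : ∀ (k : K), ∀ x ∈ W, φ (k • x) = τ k • φ x)
    (hu : ∀ x ∈ W, ∃ c : K₂, c ≠ 0 ∧ φ (u x) = c • u₂ (φ x))
    (W₂ : Submodule K₂ M₂) (hW₂ : ∀ y, y ∈ W₂ ↔ ∃ x ∈ W, φ x = y) (d : ℕ) :
    (∀ x ∈ rad u d W, φ x ∈ rad u₂ d W₂) ∧ FiniteDimensional K₂ W₂ := by
  letI : Module K M₂ := Module.compHom M₂ (τ : K →+* K₂)
  let tr : Submodule K₂ M₂ → Submodule K M₂ := fun U =>
    { carrier := U
      add_mem' := U.add_mem
      zero_mem' := U.zero_mem
      smul_mem' := fun k y hy => U.smul_mem (τ k) hy }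
  have htrm : ∀ (U : Submodule K₂ M₂) (y : M₂), y ∈ tr U ↔ y ∈ U := fun U y => Iff.rfl
  have hrk : ∀ U : Submodule K₂ M₂, Module.rank K (tr U) = Module.rank K₂ U := by
    intro U
    let j : (tr U) ≃+ U :=
      { toFun := fun y => ⟨y.1, y.2⟩
        invFun := fun y => ⟨y.1, y.2⟩
        left_inv := fun y => rfl
        right_inv := fun y => rfl
        map_add' := fun y z => rfl }
    exact rank_eq_of_equiv_equiv τ j τ.bijective (fun r m => rfl)
  have htr : ∀ U : Submodule K₂ M₂, finrank K (tr U) = finrank K₂ U := by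
    intro U
    unfold finrank
    rw [hrk U]
  let f : W →ₗ[K] M₂ :=
    { toFun := fun w => φ w.1
      map_add' := fun a b => by
        show φ (a.1 + b.1) = _
        rw [map_add]
      map_smul' := fun k w => by
        show φ (k • w.1) = τ k • φ w.1
        exact hφ k w.1 w.2 }
  have hrf : LinearMap.range f = tr W₂ := by
    ext y
    rw [LinearMap.mem_range, htrm, hW₂]
    constructor
    · rintro ⟨w, rfl⟩; exact ⟨w.1, w.2, rfl⟩
    · rintro ⟨x, hx, rfl⟩; exact ⟨⟨x, hx⟩, rfl⟩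
  haveI hfdt : FiniteDimensional K (tr W₂) := by
    rw [← hrf]; infer_instance
  have hfd2 : FiniteDimensional K₂ W₂ := by
    have h1 : Module.rank K (tr W₂) < Cardinal.aleph0 := Module.rank_lt_aleph0 K _
    rw [hrk W₂] at h1
    exact Module.rank_lt_aleph0_iff.1 h1
  refine ⟨?_, hfd2⟩
  intro x hx
  unfold rad
  rw [Submodule.mem_sInf]
  rintro V₂ ⟨hV₂W₂, hst, hdim⟩
  let g : W →ₗ[K] (M₂ ⧸ tr V₂) := (tr V₂).mkQ ∘ₗ f
  let h : (tr W₂) →ₗ[K] (M₂ ⧸ tr V₂) := (tr V₂).mkQ ∘ₗ (tr W₂).subtype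
  have hrange : LinearMap.range h = LinearMap.range g := by
    show LinearMap.range ((tr V₂).mkQ ∘ₗ (tr W₂).subtype) = LinearMap.range ((tr V₂).mkQ ∘ₗ f)
    rw [LinearMap.range_comp, LinearMap.range_comp, hrf, Submodule.range_subtype]
  have hkerh : (LinearMap.ker h).map (tr W₂).subtype = tr V₂ := by
    ext y
    rw [Submodule.mem_map]
    constructor
    · rintro ⟨w, hw, rfl⟩
      rw [LinearMap.mem_ker] at hw
      exact (Submodule.Quotient.mk_eq_zero _).1 hw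
    · intro hy
      refine ⟨⟨y, hV₂W₂ hy⟩, ?_, rfl⟩
      rw [LinearMap.mem_ker]
      exact (Submodule.Quotient.mk_eq_zero _).2 hy
  let V : Submodule K M := (LinearMap.ker g).map W.subtype
  have hVm : ∀ y, y ∈ V ↔ y ∈ W ∧ φ y ∈ V₂ := by
    intro y
    rw [Submodule.mem_map]
    constructor
    · rintro ⟨w, hw, rfl⟩
      rw [LinearMap.mem_ker] at hw
      exact ⟨w.2, (Submodule.Quotient.mk_eq_zero _).1 hw⟩
    · rintro ⟨hy, hy2⟩
      refine ⟨⟨y, hy⟩, ?_, rfl⟩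
      rw [LinearMap.mem_ker]
      exact (Submodule.Quotient.mk_eq_zero _).2 hy2
  have e1 := LinearMap.finrank_range_add_finrank_ker g
  have e2 := LinearMap.finrank_range_add_finrank_ker h
  have e3 : finrank K V = finrank K (LinearMap.ker g) := Submodule.finrank_map_subtype_eq W _
  have e4 : finrank K (tr V₂) = finrank K (LinearMap.ker h) := by
    have e7 := Submodule.finrank_map_subtype_eq (tr W₂) (LinearMap.ker h)
    rwa [hkerh] at e7
  rw [hrange] at e2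
  have e5 := htr W₂
  have e6 := htr V₂
  have hVmem : V ∈ {V | V ≤ W ∧ Stable u V ∧ finrank K W ≤ finrank K V + d} := by
    refine ⟨fun y hy => ((hVm y).1 hy).1, ?_, by omega⟩
    intro y
    rw [hVm, hVm]
    constructor
    · rintro ⟨h1, h2⟩
      have hy : y ∈ W := (hW y).1 h1
      obtain ⟨c, hc, hc2⟩ := hu y hy
      refine ⟨hy, (hst _).1 ?_⟩
      rw [hc2] at h2
      exact (Submodule.smul_mem_iff _ hc).1 h2
    · rintro ⟨h1, h2⟩
      obtain ⟨c, hc, hc2⟩ := hu y h1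
      refine ⟨(hW y).2 h1, ?_⟩
      rw [hc2]
      exact V₂.smul_mem c ((hst _).2 h2)
  have hxV : x ∈ V := by
    unfold rad at hx
    rw [Submodule.mem_sInf] at hx
    exact hx V hVmem
  exact ((hVm x).1 hxV).2

theorem radi_map_st {K K₂ M M₂ : Type} [DivisionRing K] [DivisionRing K₂] [AddCommGroup M]
    [AddCommGroup M₂] [Module K M] [Module K₂ M₂] (φ : M →+ M₂)
    {u : M ≃+ M} {u₂ : M₂ ≃+ M₂} (hs : Semi K₂ u₂) {W : Submodule K M} (hW : Stable u W)
    (hu : ∀ x ∈ W, ∃ c : K₂, c ≠ 0 ∧ φ (u x) = c • u₂ (φ x))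
    (W₂ : Submodule K₂ M₂) (hW₂ : ∀ y, y ∈ W₂ ↔ ∃ x ∈ W, φ x = y) : Stable u₂ W₂ := by
  intro y
  constructor
  · intro hy
    obtain ⟨z, hz, hzy⟩ := (hW₂ _).1 hy
    have hz' : u.symm z ∈ W := by
      rw [← hW, AddEquiv.apply_symm_apply]; exact hz
    obtain ⟨c, hc, hc2⟩ := hu _ hz'
    rw [AddEquiv.apply_symm_apply, hzy] at hc2
    obtain ⟨σ, hσ⟩ := hs
    have h1 : u₂ y = u₂ (σ.symm c • φ (u.symm z)) := by
      rw [hσ, RingEquiv.apply_symm_apply]; exact hc2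
    rw [u₂.injective h1]
    exact W₂.smul_mem _ ((hW₂ _).2 ⟨_, hz', rfl⟩)
  · intro hy
    obtain ⟨z, hz, hzy⟩ := (hW₂ _).1 hy
    obtain ⟨c, hc, hc2⟩ := hu _ hz
    have h1 : c • u₂ (φ z) ∈ W₂ := by
      rw [← hc2]; exact (hW₂ _).2 ⟨_, (hW z).2 hz, rfl⟩
    rw [← hzy]
    exact (Submodule.smul_mem_iff _ hc).1 h1

/-- functoriality of the radical series. -/
theorem radi_map {K K₂ M M₂ : Type} [DivisionRing K] [DivisionRing K₂] [AddCommGroup M]
    [AddCommGroup M₂] [Module K M] [Module K₂ M₂] (τ : K ≃+* K₂) (φ : M →+ M₂)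
    {u : M ≃+ M} {u₂ : M₂ ≃+ M₂} (hs : Semi K₂ u₂)
    {W : Submodule K M} [FiniteDimensional K W] (hW : Stable u W)
    (hφ : ∀ (k : K), ∀ x ∈ W, φ (k • x) = τ k • φ x)
    (hu : ∀ x ∈ W, ∃ c : K₂, c ≠ 0 ∧ φ (u x) = c • u₂ (φ x))
    (W₂ : Submodule K₂ M₂) (hW₂ : ∀ y, y ∈ W₂ ↔ ∃ x ∈ W, φ x = y) (l d : ℕ) :
    ∀ x ∈ (rad u d)^[l] W, φ x ∈ (rad u₂ d)^[l] W₂ := by
  induction l generalizing W W₂ with
  | zero =>
    intro x hx
    exact (hW₂ _).2 ⟨x, hx, rfl⟩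
  | succ l ih =>
    intro x hx
    rw [Function.iterate_succ_apply] at hx ⊢
    obtain ⟨hkey, hfd2⟩ := radi_map_key τ φ hW hφ hu W₂ hW₂ d
    have hr := rad_le d hW
    have hst2 : Stable u₂ W₂ := radi_map_st φ hs hW hu W₂ hW₂
    have hr2 := rad_le d hst2
    -- the image of the radical
    let W₃ : Submodule K₂ M₂ :=
      { carrier := {y | ∃ x ∈ rad u d W, φ x = y}
        add_mem' := by
          rintro a b ⟨x, hx, rfl⟩ ⟨y, hy, rfl⟩
          exact ⟨x + y, Submodule.add_mem _ hx hy, map_add _ _ _⟩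
        zero_mem' := ⟨0, Submodule.zero_mem _, map_zero _⟩
        smul_mem' := by
          rintro c a ⟨x, hx, rfl⟩
          refine ⟨τ.symm c • x, Submodule.smul_mem _ _ hx, ?_⟩
          rw [hφ _ _ (hr.1 hx), RingEquiv.apply_symm_apply] }
    have hW₃ : ∀ y, y ∈ W₃ ↔ ∃ x ∈ rad u d W, φ x = y := fun y => Iff.rfl
    haveI : FiniteDimensional K (rad u d W) := Submodule.finiteDimensional_of_le hr.1
    haveI : FiniteDimensional K₂ (rad u₂ d W₂) := Submodule.finiteDimensional_of_le hr2.1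
    have hst3 : Stable u₂ W₃ := radi_map_st φ hs hr.2 (fun x hx => hu x (hr.1 hx)) W₃ hW₃
    have h1 := ih hr.2 (fun k x hx => hφ k x (hr.1 hx)) (fun x hx => hu x (hr.1 hx)) W₃ hW₃ x hx
    have hle : W₃ ≤ rad u₂ d W₂ := by
      rintro y ⟨x, hx, rfl⟩
      exact hkey x hx
    exact radi_mono le_rfl le_rfl hle hst3 hr2.2 h1

end Pool.Agent.Helper933.HC
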