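import Pool.Agent.Helper933.HC.Defs
import Pool.Agent.Helper933.HC.P_radi_le
import Pool.Agent.Helper933.HC.P_radi_mono
import Pool.Agent.Helper933.HC.P_radi_map

set_option autoImplicit false

namespace Pool.Agent.Helper933.HC
open Module


/-- extensions. -/
theorem bdd_ext {K K₂ M M₂ : Type} [DivisionRing K] [DivisionRing K₂] [AddCommGroup M]
    [AddCommGroup M₂] [Module K M] [Module K₂ M₂] (τ : K ≃+* K₂) (φ : M →+ M₂)
    {u : M ≃+ M} {u₂ : M₂ ≃+ M₂} (hs : Semi K₂ u₂)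
    {W : Submodule K M} [FiniteDimensional K W] (hW : Stable u W)
    (hφ : ∀ (k : K), ∀ x ∈ W, φ (k • x) = τ k • φ x)
    (hu : ∀ x ∈ W, ∃ c : K₂, c ≠ 0 ∧ φ (u x) = c • u₂ (φ x))
    (W₂ : Submodule K₂ M₂) (hW₂ : ∀ y, y ∈ W₂ ↔ ∃ x ∈ W, φ x = y) (l₂ d : ℕ)
    (hb : Bdd u₂ l₂ d W₂) (W₁ : Submodule K M) (hW₁ : ∀ x, x ∈ W₁ ↔ x ∈ W ∧ φ x = 0) (l₁ : ℕ)
    (hb₁ : Bdd u l₁ d W₁) : Bdd u (l₂ + l₁) d W := by
  have hle : W₁ ≤ W := fun x hx => ((hW₁ x).1 hx).1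
  haveI : FiniteDimensional K W₁ := Submodule.finiteDimensional_of_le hle
  have hst : Stable u W₁ := by
    intro x
    rw [hW₁, hW₁, hW x]
    constructor
    · rintro ⟨hx, h0⟩
      refine ⟨hx, ?_⟩
      obtain ⟨c, hc, hc'⟩ := hu x hx
      rw [hc'] at h0
      have h1 : u₂ (φ x) = 0 := by
        rcases smul_eq_zero.1 h0 with h | h
        · exact absurd h hc
        · exact h
      exact (map_eq_zero_iff u₂ u₂.injective).1 h1
    · rintro ⟨hx, h0⟩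
      refine ⟨hx, ?_⟩
      obtain ⟨c, hc, hc'⟩ := hu x hx
      rw [hc', h0, map_zero, smul_zero]
  obtain ⟨hV1, hV2⟩ := radi_le l₂ d hW
  have hV3 : (rad u d)^[l₂] W ≤ W₁ := by
    intro x hx
    rw [hW₁]
    refine ⟨hV1 hx, ?_⟩
    have h1 := radi_map τ φ hs hW hφ hu W₂ hW₂ l₂ d x hx
    have h2 : (rad u₂ d)^[l₂] W₂ = ⊥ := hb
    rw [h2] at h1
    exact (Submodule.mem_bot K₂).1 h1
  unfold Bdd
  rw [add_comm, Function.iterate_add_apply, eq_bot_iff]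
  have h3 := radi_mono (le_refl l₁) (le_refl d) hV3 hV2 hst
  have h4 : (rad u d)^[l₁] W₁ = ⊥ := hb₁
  rwa [h4] at h3

end Pool.Agent.Helper933.HC
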