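import Pool.Agent.Helper933.HC.Defs
import Pool.Agent.Helper933.HC.P_radi_mono

set_option autoImplicit false

namespace Pool.Agent.Helper933.HC
open Module


theorem bdd_mono {K M : Type} [DivisionRing K] [AddCommGroup M] [Module K M]
    {u : M ≃+ M} {l l' d d' : ℕ} (hl : l ≤ l') (hd : d ≤ d') {V W : Submodule K M} (hVW : V ≤ W)
    [FiniteDimensional K W] (hV : Stable u V) (hW : Stable u W) (h : Bdd u l d W) :
    Bdd u l' d' V := by
  unfold Bdd at h ⊢
  rw [eq_bot_iff, ← h]
  exact radi_mono hl hd hVW hV hW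

end Pool.Agent.Helper933.HC
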