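import Pool.Agent.Helper933.HC.Defs
import Pool.Agent.Helper933.HC.P_radi_le
import Pool.Agent.Helper933.HC.P_radi_map

set_option autoImplicit false

namespace Pool.Agent.Helper933.HC
open Module


/-- jointly injective families of maps into bounded spaces. -/
theorem bdd_of_maps {K M : Type} [DivisionRing K] [AddCommGroup M]
    [Module K M] {u : M ≃+ M} {W : Submodule K M} [FiniteDimensional K W]
    (hW : Stable u W) (l d : ℕ)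
    (h : ∀ x ∈ W, x ≠ 0 → ∃ (K₂ M₂ : Type) (_ : DivisionRing K₂) (_ : AddCommGroup M₂)
      (_ : Module K₂ M₂) (τ : K ≃+* K₂) (φ : M →+ M₂) (u₂ : M₂ ≃+ M₂) (W₂ : Submodule K₂ M₂),
      Semi K₂ u₂ ∧ (∀ (k : K), ∀ x ∈ W, φ (k • x) = τ k • φ x) ∧
      (∀ x ∈ W, ∃ c : K₂, c ≠ 0 ∧ φ (u x) = c • u₂ (φ x)) ∧
      (∀ y, y ∈ W₂ ↔ ∃ x ∈ W, φ x = y) ∧ Bdd u₂ l d W₂ ∧ φ x ≠ 0) :
    Bdd u l d W := by
  unfold Bdd
  by_contra hcon
  obtain ⟨x, hx, hx0⟩ := (Submodule.ne_bot_iff _).1 hcon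
  obtain ⟨K₂, M₂, _, _, _, τ, φ, u₂, W₂, h0, h1, h2, h3, h4, h5⟩ :=
    h x ((radi_le l d hW).1 hx) hx0
  have h6 := radi_map τ φ h0 hW h1 h2 W₂ h3 l d x hx
  unfold Bdd at h4
  rw [h4] at h6
  exact h5 ((Submodule.mem_bot K₂).1 h6)

end Pool.Agent.Helper933.HC
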