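import Pool.Agent.Helper933.HC.Defs
import Pool.Agent.Helper933.HC.P_rad_le
import Pool.Agent.Helper933.HC.P_radi_le

set_option autoImplicit false

namespace Pool.Agent.Helper933.HC
open Module


theorem bdd_perP_key {p : ℕ} [Fact p.Prime] {M : Type} [AddCommGroup M] [Module (ZMod p) M]
    {u : M ≃+ M} {V : Submodule (ZMod p) M} (hVs : Stable u V) (x : M) {i j : ℕ} (hij : i < j)
    (h : (⇑u)^[j] x - (⇑u)^[i] x ∈ V) (N : ℕ) (hN : (j - i) ∣ N) : (⇑u)^[N] x - x ∈ V := by
  have hVi : ∀ i y, (⇑u)^[i] y ∈ V ↔ y ∈ V := by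
    intro i
    induction i with
    | zero => intro y; rfl
    | succ i ih =>
      intro y
      rw [Function.iterate_succ_apply', hVs, ih]
  have hsub : ∀ i a b, (⇑u)^[i] (a - b) = (⇑u)^[i] a - (⇑u)^[i] b := by
    intro i
    induction i with
    | zero => intro a b; rfl
    | succ i ih =>
      intro a b
      rw [Function.iterate_succ_apply, Function.iterate_succ_apply, Function.iterate_succ_apply,
        map_sub, ih]
  have hk : (⇑u)^[j - i] x - x ∈ V := by
    rw [← hVi i, hsub, ← Function.iterate_add_apply, Nat.add_sub_cancel' hij.le]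
    exact h
  obtain ⟨m, rfl⟩ := hN
  induction m with
  | zero => simp
  | succ m ih =>
    have h1 : (⇑u)^[(j - i) * (m + 1)] x - x =
        (⇑u)^[(j - i) * m] ((⇑u)^[j - i] x - x) + ((⇑u)^[(j - i) * m] x - x) := by
      rw [hsub, ← Function.iterate_add_apply, Nat.mul_succ]
      abel
    rw [h1]
    exact V.add_mem ((hVi _ _).2 hk) ih

theorem bdd_perP_step {p : ℕ} [Fact p.Prime] {M : Type} [AddCommGroup M] [Module (ZMod p) M]
    {u : M ≃+ M} {W : Submodule (ZMod p) M}
    [FiniteDimensional (ZMod p) W] (hW : Stable u W) (d : ℕ) (x : M) (hx : x ∈ W) :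
    (⇑u)^[(p ^ d).factorial] x - x ∈ rad u d W := by
  unfold rad
  rw [Submodule.mem_sInf]
  rintro V ⟨hVW, hVs, hVd⟩
  have hWi : ∀ i, (⇑u)^[i] x ∈ W := by
    intro i
    induction i with
    | zero => exact hx
    | succ i ih => rw [Function.iterate_succ_apply']; exact (hW _).2 ih
  let V' : Submodule (ZMod p) W := V.comap W.subtype
  have hfin : Finite (W ⧸ V') := Module.finite_of_finite (ZMod p)
  have hcard : Nat.card (W ⧸ V') ≤ p ^ d := by
    rw [Module.natCard_eq_pow_finrank (K := ZMod p), Nat.card_zmod]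
    apply Nat.pow_le_pow_right (Fact.out : p.Prime).pos
    have h1 := Submodule.finrank_quotient_add_finrank V'
    have h2 : finrank (ZMod p) V' = finrank (ZMod p) V :=
      (Submodule.comapSubtypeEquivOfLe hVW).finrank_eq
    omega
  let f : Fin (p ^ d + 1) → W ⧸ V' := fun i => V'.mkQ ⟨_, hWi i⟩
  have hpig : ∃ i j, i ≠ j ∧ f i = f j := by
    haveI := Fintype.ofFinite (W ⧸ V')
    apply Fintype.exists_ne_map_eq_of_card_lt
    rw [Fintype.card_fin, ← Nat.card_eq_fintype_card]
    omega
  obtain ⟨i, j, hij, hf⟩ := hpig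
  have hmem : ∀ i j : Fin (p ^ d + 1), f i = f j →
      (⇑u)^[(j : ℕ)] x - (⇑u)^[(i : ℕ)] x ∈ V := by
    intro i j h
    have h2 := (Submodule.Quotient.eq V').1 h.symm
    exact h2
  rcases lt_or_gt_of_ne hij with h | h
  · refine bdd_perP_key hVs x (i := i) (j := j) h (hmem i j hf) _ ?_
    refine Nat.dvd_factorial ?_ ?_
    · have : (i : ℕ) < j := h
      omega
    · have := j.isLt
      omega
  · refine bdd_perP_key hVs x (i := j) (j := i) h (hmem j i hf.symm) _ ?_
    refine Nat.dvd_factorial ?_ ?_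
    · have : (j : ℕ) < i := h
      omega
    · have := i.isLt
      omega

theorem bdd_perP {p : ℕ} [Fact p.Prime] {M : Type} [AddCommGroup M] [Module (ZMod p) M]
    {u : M ≃+ M} {W : Submodule (ZMod p) M}
    [FiniteDimensional (ZMod p) W] (hW : Stable u W) {l d : ℕ} (hb : Bdd u l d W) (n : ℕ)
    (hn : 0 < n) (hu : ∀ x ∈ W, (⇑u)^[n] x = x) :
    ∀ x ∈ W, (⇑u)^[(p ^ d).factorial * p ^ l] x = x := by
  intro x hx
  let U : Module.End (ZMod p) M := (u : M →+ M).toZModLinearMap p
  have hU : ∀ (k : ℕ) (y : M), (U ^ k) y = (⇑u)^[k] y := by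
    intro k y
    rw [Module.End.pow_apply]
    rfl
  set N := (p ^ d).factorial with hN
  have hit : ∀ j : ℕ, ((U ^ N - 1) ^ j) x ∈ (rad u d)^[j] W := by
    intro j
    induction j with
    | zero => simpa using hx
    | succ j ih =>
      obtain ⟨h1, h2⟩ := radi_le j d hW
      haveI : FiniteDimensional (ZMod p) ((rad u d)^[j] W : Submodule (ZMod p) M) :=
        Submodule.finiteDimensional_of_le h1
      have h3 := bdd_perP_step h2 d _ ih
      rw [Function.iterate_succ_apply', pow_succ', Module.End.mul_apply]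
      rw [LinearMap.sub_apply, hU]
      exact h3
  have hl : ((U ^ N - 1) ^ l) x = 0 := by
    have h := hit l
    have hb' : (rad u d)^[l] W = ⊥ := hb
    rw [hb'] at h
    exact (Submodule.mem_bot (ZMod p)).1 h
  have hlp : l ≤ p ^ l := (Nat.lt_pow_self (Fact.out : p.Prime).one_lt).le
  have hlp2 : ((U ^ N - 1) ^ (p ^ l)) x = 0 := by
    rw [← Nat.sub_add_cancel hlp, pow_add, Module.End.mul_apply, hl, map_zero]
  have hfrob : (U ^ N - 1) ^ (p ^ l) = (U ^ N) ^ (p ^ l) - 1 := by
    have h := sub_pow_char_pow (Polynomial.X : Polynomial (ZMod p)) (1 : Polynomial (ZMod p))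
      (p := p) (n := l)
    have h2 := congrArg (Polynomial.aeval (U ^ N)) h
    simpa using h2
  rw [hfrob, LinearMap.sub_apply, ← pow_mul, hU] at hlp2
  exact sub_eq_zero.1 hlp2

end Pool.Agent.Helper933.HC
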