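import Pool.Agent.Helper933.HC.Defs

set_option autoImplicit false

namespace Pool.Agent.Helper933.HC
open Module


theorem iter_mod3 {E : Type} [AddCommGroup E] (M : E →+ E) (hM : ∀ v, ∃ w, M v = v + 3 • w) (i : ℕ)
    (v : E) : ∃ w, (⇑M)^[i] v = v + 3 • w := by
  induction i with
  | zero => exact ⟨0, by simp⟩
  | succ i ih =>
    obtain ⟨w, hw⟩ := ih
    obtain ⟨w', hw'⟩ := hM ((⇑M)^[i] v)
    refine ⟨w + w', ?_⟩
    rw [Function.iterate_succ_apply', hw', hw, smul_add, add_assoc]

theorem iter_nsmul {E : Type} [AddCommGroup E] (M : E →+ E) (i k : ℕ) (v : E) :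
    (⇑M)^[i] (k • v) = k • (⇑M)^[i] v := by
  induction i with
  | zero => rfl
  | succ i ih => rw [Function.iterate_succ_apply', Function.iterate_succ_apply', ih, map_nsmul]

theorem mink_prime {E : Type} [AddCommGroup E] (htf : ∀ (n : ℕ) (v : E), 0 < n → n • v = 0 → v = 0)
    (hres : ∀ v : E, (∀ k : ℕ, ∃ w : E, v = (3 ^ k : ℕ) • w) → v = 0)
    (M : E →+ E) (hM : ∀ v, ∃ w, M v = v + 3 • w) (q : ℕ) (hq : q.Prime) (v : E)
    (hv : (⇑M)^[q] v = v) : M v = v := by
  -- divisibility step
  have step : ∀ d : E, ∑ i ∈ Finset.range q, (⇑M)^[i] d = 0 → ∃ d' : E, d = 3 • d' := by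
    intro d hd
    by_cases h3 : q = 3
    · subst h3
      rw [Finset.sum_range_succ, Finset.sum_range_succ, Finset.sum_range_succ, Finset.sum_range_zero,
        zero_add] at hd
      obtain ⟨e, he⟩ := hM d
      obtain ⟨f, hf⟩ := hM e
      have h1 : (⇑M)^[0] d = d := rfl
      have h2 : (⇑M)^[1] d = d + 3 • e := he
      have h4 : (⇑M)^[2] d = d + 3 • e + 3 • (e + 3 • f) := by
        show M (M d) = _
        rw [he, map_add, map_nsmul, he, hf]
      rw [h1, h2, h4] at hd
      refine ⟨-(e + f), ?_⟩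
      have h5 : 3 • (d - 3 • (-(e + f))) = 0 := by
        rw [← hd]
        module
      exact sub_eq_zero.1 (htf 3 _ (by norm_num) h5)
    · have hco : Nat.Coprime q 3 := (Nat.coprime_primes hq Nat.prime_three).2 h3
      choose e he using fun i => iter_mod3 M hM i d
      have h1 : ∑ i ∈ Finset.range q, (⇑M)^[i] d = q • d + 3 • ∑ i ∈ Finset.range q, e i := by
        rw [Finset.sum_congr rfl (fun i _ => he i), Finset.sum_add_distrib, Finset.sum_const,
          Finset.card_range, Finset.smul_sum]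
      rw [h1] at hd
      have h2 : (q : ℤ) * q.gcdA 3 + (3 : ℕ) * q.gcdB 3 = 1 := by
        rw [← Nat.gcd_eq_gcd_ab, hco]; rfl
      set S := ∑ i ∈ Finset.range q, e i
      refine ⟨(- q.gcdA 3) • S + q.gcdB 3 • d, ?_⟩
      have h3' : (q : ℤ) • d = - ((3 : ℤ) • S) := by
        have : (q : ℤ) • d + (3 : ℤ) • S = 0 := by
          rw [← hd]
          push_cast [← natCast_zsmul]
          rfl
        exact eq_neg_of_add_eq_zero_left this
      have h4 : d = ((q : ℤ) * q.gcdA 3 + (3 : ℕ) * q.gcdB 3) • d := by rw [h2, one_smul]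
      calc d = ((q : ℤ) * q.gcdA 3 + (3 : ℕ) * q.gcdB 3) • d := h4
        _ = (q.gcdA 3) • ((q : ℤ) • d) + (3 : ℤ) • ((q.gcdB 3) • d) := by push_cast; module
        _ = _ := by rw [h3']; module
  have hall : ∀ k : ℕ, ∃ w : E, M v - v = (3 ^ k : ℕ) • w ∧ ∑ i ∈ Finset.range q, (⇑M)^[i] w = 0 := by
    intro k
    induction k with
    | zero =>
      refine ⟨M v - v, by simp, ?_⟩
      have h1 : ∀ i, (⇑M)^[i] (M v - v) = (⇑M)^[i + 1] v - (⇑M)^[i] v := by
        intro i
        rw [iterate_map_sub, Function.iterate_succ_apply]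
      rw [Finset.sum_congr rfl (fun i _ => h1 i), Finset.sum_range_sub (fun i => (⇑M)^[i] v), hv]
      simp
    | succ k ih =>
      obtain ⟨w, hw, hs⟩ := ih
      obtain ⟨w', hw'⟩ := step w hs
      refine ⟨w', ?_, ?_⟩
      · rw [hw, hw', smul_smul, pow_succ]
      · apply htf 3 _ (by norm_num)
        rw [← hs, Finset.smul_sum]
        apply Finset.sum_congr rfl
        intro i _
        rw [hw', iter_nsmul]
  have := hres (M v - v) (fun k => by
    obtain ⟨w, hw, -⟩ := hall k
    exact ⟨w, hw⟩)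
  exact sub_eq_zero.1 this

/-- Minkowski: periodic points of a map congruent to the identity mod 3 are fixed. -/
theorem mink {E : Type} [AddCommGroup E] (htf : ∀ (n : ℕ) (v : E), 0 < n → n • v = 0 → v = 0)
    (hres : ∀ v : E, (∀ k : ℕ, ∃ w : E, v = (3 ^ k : ℕ) • w) → v = 0)
    (M : E →+ E) (hM : ∀ v, ∃ w, M v = v + 3 • w) (n : ℕ) (hn : 0 < n) (v : E)
    (hv : (⇑M)^[n] v = v) : M v = v := by
  revert v
  induction n using Nat.strong_induction_on with
  | _ n ih =>
    intro v hv
    by_cases h1 : n = 1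
    · subst h1
      exact hv
    · have hq : (n.minFac).Prime := Nat.minFac_prime h1
      obtain ⟨m, hm⟩ := Nat.minFac_dvd n
      have hm0 : 0 < m := by
        rcases Nat.eq_zero_or_pos m with h | h
        · rw [h, mul_zero] at hm; omega
        · exact h
      have hmn : m < n := by
        have := hq.two_le
        calc m < 2 * m := by omega
          _ ≤ n.minFac * m := Nat.mul_le_mul_right _ this
          _ = n := hm.symm
      let M' : E →+ E := AddMonoidHom.mk' ((⇑M)^[m]) (iterate_map_add M m)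
      have hM' : ∀ v, ∃ w, M' v = v + 3 • w := fun v => iter_mod3 M hM m v
      have h2 : (⇑M')^[n.minFac] v = v := by
        show ((⇑M)^[m])^[n.minFac] v = v
        rw [← Function.iterate_mul, mul_comm, ← hm]
        exact hv
      have h3 : (⇑M)^[m] v = v := mink_prime htf hres M' hM' n.minFac hq v h2
      exact ih m hmn hm0 v h3

end Pool.Agent.Helper933.HC
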