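import Pool.Agent.Helper933.HC.Defs

set_option autoImplicit false

namespace Pool.Agent.Helper933.HC
open Module


theorem mod3_map {r : ℕ} (M : (Fin r → ℤ) ≃+ (Fin r → ℤ)) {v w : Fin r → ℤ}
    (h : ∃ u, w = v + 3 • u) : ∃ u, M w = M v + 3 • u := by
  obtain ⟨u, rfl⟩ := h
  exact ⟨M u, by rw [map_add, map_nsmul]⟩

theorem mod3_map_iter {r : ℕ} (M : (Fin r → ℤ) ≃+ (Fin r → ℤ)) (a : ℕ) {v w : Fin r → ℤ}
    (h : ∃ u, w = v + 3 • u) : ∃ u, (⇑M)^[a] w = (⇑M)^[a] v + 3 • u := by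
  induction a with
  | zero => exact h
  | succ a ih =>
    rw [Function.iterate_succ_apply', Function.iterate_succ_apply']
    exact mod3_map M ih

theorem mod3_cancel {r : ℕ} (M : (Fin r → ℤ) ≃+ (Fin r → ℤ)) (a : ℕ) {v w : Fin r → ℤ}
    (h : ∃ u, (⇑M)^[a] w = (⇑M)^[a] v + 3 • u) : ∃ u, w = v + 3 • u := by
  induction a with
  | zero => exact h
  | succ a ih =>
    rw [Function.iterate_succ_apply', Function.iterate_succ_apply'] at h
    apply ih
    have h1 := mod3_map M.symm h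
    rwa [AddEquiv.symm_apply_apply, AddEquiv.symm_apply_apply] at h1

/-- a fixed power of any automorphism of `ℤ^r` is the identity mod 3. -/
theorem mod3 (r : ℕ) (M : (Fin r → ℤ) ≃+ (Fin r → ℤ)) (v : Fin r → ℤ) :
    ∃ w, (⇑M)^[(3 ^ r).factorial] v = v + 3 • w := by
  have hpig : ∃ a b : ℕ, a < b ∧ b ≤ 3 ^ r ∧
      (fun i => (((⇑M)^[a] v i : ℤ) : ZMod 3)) = fun i => (((⇑M)^[b] v i : ℤ) : ZMod 3) := by
    have hcard : Fintype.card (Fin r → ZMod 3) < Fintype.card (Fin (3 ^ r + 1)) := by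
      rw [Fintype.card_fun, ZMod.card, Fintype.card_fin, Fintype.card_fin]
      exact Nat.lt_succ_self _
    obtain ⟨x, y, hxy, hf⟩ := Fintype.exists_ne_map_eq_of_card_lt
      (fun (j : Fin (3 ^ r + 1)) (i : Fin r) => (((⇑M)^[(j : ℕ)] v i : ℤ) : ZMod 3)) hcard
    rcases lt_or_gt_of_ne hxy with h | h
    · exact ⟨x, y, h, Nat.lt_succ_iff.mp y.2, hf⟩
    · exact ⟨y, x, h, Nat.lt_succ_iff.mp x.2, hf.symm⟩
  obtain ⟨a, b, hab, hb, hf⟩ := hpig
  have h1 : ∃ u, (⇑M)^[b] v = (⇑M)^[a] v + 3 • u := by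
    have h2 : ∀ i, ∃ c : ℤ, (⇑M)^[b] v i = (⇑M)^[a] v i + 3 * c := by
      intro i
      have h3 := congrFun hf i
      have h4 := (ZMod.intCast_eq_intCast_iff_dvd_sub _ _ 3).mp h3
      obtain ⟨c, hc⟩ := h4
      exact ⟨c, by push_cast at hc; linarith⟩
    choose c hc using h2
    refine ⟨c, ?_⟩
    funext i
    rw [hc i, Pi.add_apply, Pi.smul_apply, nsmul_eq_mul]
    rfl
  obtain ⟨d, rfl⟩ := Nat.exists_eq_add_of_lt hab
  have h2 : ∃ u, (⇑M)^[d + 1] v = v + 3 • u := by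
    apply mod3_cancel M a
    rw [← Function.iterate_add_apply, ← add_assoc]
    exact h1
  have h3 : d + 1 ∣ (3 ^ r).factorial := Nat.dvd_factorial (Nat.succ_pos d) (by omega)
  obtain ⟨k, hk⟩ := h3
  rw [hk, Function.iterate_mul]
  clear hk
  induction k with
  | zero => exact ⟨0, by simp⟩
  | succ k ih =>
    rw [Function.iterate_succ_apply']
    obtain ⟨u, hu⟩ := mod3_map_iter M (d + 1) ih
    obtain ⟨u', hu'⟩ := h2
    refine ⟨u' + u, ?_⟩
    rw [hu, hu', smul_add, add_assoc]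

end Pool.Agent.Helper933.HC
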