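import Pool.Agent.Helper933.HC.Defs
import Pool.Agent.Helper933.HC.P_mink
import Pool.Agent.Helper933.HC.P_mod3

set_option autoImplicit false

namespace Pool.Agent.Helper933.HC
open Module


theorem perQ_small_hres (r : ℕ) (v : Fin r → ℤ)
    (h : ∀ k : ℕ, ∃ w : Fin r → ℤ, v = (3 ^ k : ℕ) • w) : v = 0 := by
  funext i
  by_contra hne
  have hne' : v i ≠ 0 := hne
  obtain ⟨w, hw⟩ := h (v i).natAbs
  have h1 : v i = (3 ^ (v i).natAbs : ℕ) * w i := by
    conv_lhs => rw [hw]
    simp
  have h2 : (3 ^ (v i).natAbs : ℕ) ∣ (v i).natAbs := Int.natCast_dvd.1 ⟨w i, h1⟩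
  have h3 := Nat.le_of_dvd (Int.natAbs_pos.2 hne') h2
  exact absurd h3 (not_le.2 (Nat.lt_pow_self (by norm_num)))

/-- elements of finite order on a rational space of dimension at most `d`. -/
theorem perQ_small {V : Type} [AddCommGroup V] [Module ℚ V] [FiniteDimensional ℚ V] (d : ℕ)
    (hd : finrank ℚ V ≤ d) (u : V ≃+ V) (n : ℕ) (hn : 0 < n) (hu : ∀ x, (⇑u)^[n] x = x) :
    ∀ x, (⇑u)^[(3 ^ d).factorial] x = x := by
  classical
  let b := Module.finBasis ℚ V
  let S : Set V := Set.range fun q : Fin n × Fin (finrank ℚ V) => (⇑u)^[(q.1 : ℕ)] (b q.2)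
  have hSf : S.Finite := Set.finite_range _
  let L : Submodule ℤ V := Submodule.span ℤ S
  have hSmem : ∀ k j, (⇑u)^[k] (b j) ∈ S := by
    intro k j
    refine ⟨(⟨k % n, Nat.mod_lt _ hn⟩, j), ?_⟩
    have hper : Function.IsPeriodicPt u n (b j) := hu _
    exact hper.iterate_mod_apply k
  have hL : ∀ x ∈ L, u x ∈ L := by
    intro x hx
    induction hx using Submodule.span_induction with
    | mem x hx =>
      obtain ⟨q, rfl⟩ := hx
      refine Submodule.subset_span ?_
      have := hSmem ((q.1 : ℕ) + 1) q.2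
      rwa [Function.iterate_succ_apply'] at this
    | zero => rw [map_zero]; exact L.zero_mem
    | add x y _ _ hx hy => rw [map_add]; exact L.add_mem hx hy
    | smul a x _ hx => rw [map_zsmul]; exact L.smul_mem a hx
  have hLk : ∀ k, ∀ x ∈ L, (⇑u)^[k] x ∈ L := by
    intro k
    induction k with
    | zero => intro x hx; exact hx
    | succ k ih => intro x hx; rw [Function.iterate_succ_apply']; exact hL _ (ih x hx)
  have hL' : ∀ x ∈ L, u.symm x ∈ L := by
    intro x hx
    have h1 : u.symm x = (⇑u)^[n - 1] x := by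
      rw [AddEquiv.symm_apply_eq, ← Function.iterate_succ_apply' (⇑u), Nat.succ_eq_add_one,
        Nat.sub_add_cancel hn]
      exact (hu x).symm
    rw [h1]
    exact hLk _ x hx
  let uL : L ≃+ L :=
    { toFun := fun x => ⟨u x, hL _ x.2⟩
      invFun := fun x => ⟨u.symm x, hL' _ x.2⟩
      left_inv := fun x => Subtype.ext (u.symm_apply_apply _)
      right_inv := fun x => Subtype.ext (u.apply_symm_apply _)
      map_add' := fun x y => Subtype.ext (map_add u _ _) }
  have hfin : Module.Finite ℤ L := Module.Finite.iff_fg.2 (Submodule.fg_span hSf)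
  have htfV : ∀ (m : ℤ) (x : V), m • x = 0 → m = 0 ∨ x = 0 := by
    intro m x h
    have h' : (m : ℚ) • x = 0 := by rw [Int.cast_smul_eq_zsmul]; exact h
    rcases smul_eq_zero.1 h' with h1 | h1
    · left; exact_mod_cast h1
    · right; exact h1
  have htf : Module.IsTorsionFree ℤ L := by
    refine Module.IsTorsionFree.of_smul_eq_zero fun m x h => ?_
    rcases htfV m x (by rw [← Submodule.coe_smul, h, Submodule.coe_zero]) with h1 | h1
    · exact Or.inl h1
    · exact Or.inr (Subtype.ext h1)
  have hfree : Module.Free ℤ L := inferInstance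
  let c := Module.finBasis ℤ L
  set r := finrank ℤ L with hr
  have hli : LinearIndependent ℚ (fun i => (c i : V)) := by
    have h1 : LinearIndependent ℤ (fun i => (c i : V)) :=
      c.linearIndependent.map' L.subtype L.ker_subtype
    exact (LinearIndependent.iff_fractionRing ℤ ℚ).1 h1
  have hrd : r ≤ d := by
    have := hli.fintype_card_le_finrank
    rw [Fintype.card_fin] at this
    omega
  let e : L ≃+ (Fin r → ℤ) := c.equivFun.toAddEquiv
  let M : (Fin r → ℤ) ≃+ (Fin r → ℤ) := e.symm.trans (uL.trans e)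
  have hM : Function.Semiconj (⇑e) (⇑uL) (⇑M) := by
    intro y
    show e (uL y) = e (uL (e.symm (e y)))
    rw [e.symm_apply_apply]
  have huL : Function.Semiconj (Subtype.val : L → V) (⇑uL) (⇑u) := fun y => rfl
  have hMn : ∀ v, (⇑M)^[n] v = v := by
    intro v
    obtain ⟨y, rfl⟩ := e.surjective v
    rw [← (hM.iterate_right n) y]
    congr 1
    apply Subtype.ext
    rw [(huL.iterate_right n) y, hu]
  set N := (3 ^ r).factorial with hN
  let MN : (Fin r → ℤ) →+ (Fin r → ℤ) :=
    { toFun := (⇑M)^[N]
      map_zero' := Function.iterate_fixed (map_zero M) N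
      map_add' := fun x y => by
        have : ∀ k, (⇑M)^[k] (x + y) = (⇑M)^[k] x + (⇑M)^[k] y := by
          intro k
          induction k with
          | zero => rfl
          | succ k ih => rw [Function.iterate_succ_apply', ih, map_add,
              ← Function.iterate_succ_apply' (⇑M), ← Function.iterate_succ_apply' (⇑M)]
        exact this N }
  have hfix : ∀ v, (⇑M)^[N] v = v := by
    intro v
    refine mink (E := Fin r → ℤ) ?_ (perQ_small_hres r) MN (fun v => mod3 r M v) n hn v ?_
    · intro m v hm hv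
      rcases smul_eq_zero.1 hv with h | h
      · omega
      · exact h
    · show ((⇑M)^[N])^[n] v = v
      rw [← Function.iterate_mul, mul_comm, Function.iterate_mul]
      exact Function.iterate_fixed (hMn v) N
  have hfixL : ∀ y : L, (⇑u)^[N] (y : V) = y := by
    intro y
    rw [← (huL.iterate_right N) y]
    congr 1
    apply e.injective
    rw [(hM.iterate_right N) y]
    exact hfix _
  let U : V →ₗ[ℚ] V := (u : V →+ V).toRatLinearMap
  have hU : ∀ k x, (U ^ k) x = (⇑u)^[k] x := by
    intro k x
    rw [Module.End.pow_apply]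
    rfl
  have hUN : U ^ N = LinearMap.id := by
    refine b.ext fun j => ?_
    rw [hU]
    have hb : b j ∈ L := Submodule.subset_span (hSmem 0 j)
    exact hfixL ⟨b j, hb⟩
  have hdvd : N ∣ (3 ^ d).factorial :=
    Nat.factorial_dvd_factorial (Nat.pow_le_pow_right (by norm_num) hrd)
  obtain ⟨q, hq⟩ := hdvd
  intro x
  rw [hq, Function.iterate_mul]
  refine Function.iterate_fixed ?_ q
  rw [← hU, hUN]
  rfl

end Pool.Agent.Helper933.HC
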