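import Pool.Agent.Helper933.HC.Defs
import Pool.Agent.Helper933.HC.P_rad_le
import Pool.Agent.Helper933.HC.P_radi_le
import Pool.Agent.Helper933.HC.P_perQ_small

set_option autoImplicit false

namespace Pool.Agent.Helper933.HC
open Module


theorem bdd_perQ_quot {M : Type} [AddCommGroup M] [Module ℚ M] {u : M ≃+ M} {W V : Submodule ℚ M}
    [FiniteDimensional ℚ W] (hW : Stable u W) (hVW : V ≤ W) (hV : Stable u V) {d : ℕ}
    (hd : finrank ℚ W ≤ finrank ℚ V + d) (n : ℕ) (hn : 0 < n)
    (hu : ∀ x ∈ W, (⇑u)^[n] x = x) : ∀ x ∈ W, (⇑u)^[(3 ^ d).factorial] x - x ∈ V := by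
  let U : M →ₗ[ℚ] M := u.toAddMonoidHom.toRatLinearMap
  have hU : ∀ x, U x = u x := fun x => rfl
  have hWU : ∀ x ∈ W, U x ∈ W := fun x hx => (hW x).2 hx
  let R : W →ₗ[ℚ] W := U.restrict hWU
  let V' : Submodule ℚ W := V.comap W.subtype
  have hV' : V' ≤ V'.comap R := by
    intro x hx
    show (R x : M) ∈ V
    exact (hV (x : M)).2 hx
  let T : (W ⧸ V') →ₗ[ℚ] (W ⧸ V') := V'.mapQ V' R hV'
  have hT : ∀ x : W, T (V'.mkQ x) = V'.mkQ (R x) := fun x => rfl
  have hR : ∀ (k : ℕ) (x : W), (((⇑R)^[k] x : W) : M) = (⇑u)^[k] (x : M) := by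
    intro k
    induction k with
    | zero => intro x; rfl
    | succ k ih => intro x; rw [Function.iterate_succ_apply, Function.iterate_succ_apply, ih]; rfl
  have hTk : ∀ (k : ℕ) (x : W), (⇑T)^[k] (V'.mkQ x) = V'.mkQ ((⇑R)^[k] x) := by
    intro k
    induction k with
    | zero => intro x; rfl
    | succ k ih => intro x; rw [Function.iterate_succ_apply, Function.iterate_succ_apply, hT, ih]
  have hTn : ∀ y, (⇑T)^[n] y = y := by
    intro y
    obtain ⟨x, rfl⟩ := V'.mkQ_surjective y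
    rw [hTk]
    congr 1
    apply Subtype.ext
    rw [hR, hu x x.2]
  obtain ⟨m, rfl⟩ : ∃ m, n = m + 1 := ⟨n - 1, by omega⟩
  let Te : (W ⧸ V') ≃+ (W ⧸ V') :=
    { toFun := T
      invFun := (⇑T)^[m]
      left_inv := fun y => by
        have := hTn y
        rwa [Function.iterate_succ_apply] at this
      right_inv := fun y => by
        have := hTn y
        rwa [Function.iterate_succ_apply'] at this
      map_add' := T.map_add }
  have hfin : finrank ℚ (W ⧸ V') ≤ d := by
    have h1 := Submodule.finrank_quotient_add_finrank V'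
    have h2 : finrank ℚ V' = finrank ℚ V := (Submodule.comapSubtypeEquivOfLe hVW).finrank_eq
    omega
  have hper := perQ_small d hfin Te (m + 1) hn hTn
  intro x hx
  have h3 : (⇑T)^[(3 ^ d).factorial] (V'.mkQ ⟨x, hx⟩) = V'.mkQ ⟨x, hx⟩ := hper _
  rw [hTk] at h3
  have h4 := (Submodule.Quotient.eq V').1 h3
  have h5 : (((⇑R)^[(3 ^ d).factorial] ⟨x, hx⟩ - ⟨x, hx⟩ : W) : M) ∈ V := h4
  rw [Submodule.coe_sub, hR] at h5
  exact h5

theorem bdd_perQ_rad {M : Type} [AddCommGroup M] [Module ℚ M] {u : M ≃+ M} {W : Submodule ℚ M}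
    [FiniteDimensional ℚ W] (hW : Stable u W) {d : ℕ} (n : ℕ) (hn : 0 < n)
    (hu : ∀ x ∈ W, (⇑u)^[n] x = x) :
    ∀ x ∈ W, (⇑u)^[(3 ^ d).factorial] x - x ∈ rad u d W := by
  intro x hx
  unfold rad
  rw [Submodule.mem_sInf]
  rintro V ⟨hVW, hV, hd⟩
  exact bdd_perQ_quot hW hVW hV hd n hn hu x hx

theorem bdd_perQ {M : Type} [AddCommGroup M] [Module ℚ M] {u : M ≃+ M} {W : Submodule ℚ M}
    [FiniteDimensional ℚ W] (hW : Stable u W) {l d : ℕ} (hb : Bdd u l d W) (n : ℕ) (hn : 0 < n)
    (hu : ∀ x ∈ W, (⇑u)^[n] x = x) : ∀ x ∈ W, (⇑u)^[(3 ^ d).factorial] x = x := by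
  let U : Module.End ℚ M := u.toAddMonoidHom.toRatLinearMap
  have hU : ∀ k x, (U ^ k) x = (⇑u)^[k] x := fun k x => by
    rw [Module.End.pow_apply]; rfl
  obtain ⟨F, hF⟩ : ∃ F : Module.End ℚ M, ∀ x, F x = (⇑u)^[(3 ^ d).factorial] x - x :=
    ⟨U ^ (3 ^ d).factorial - 1, fun x => by rw [LinearMap.sub_apply, hU]; rfl⟩
  have hit : ∀ k x, x ∈ W → (⇑F)^[k] x ∈ (rad u d)^[k] W := by
    intro k
    induction k with
    | zero => intro x hx; exact hx
    | succ k ih =>
      intro x hx
      rw [Function.iterate_succ_apply', Function.iterate_succ_apply', hF]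
      obtain ⟨h1, h2⟩ := radi_le k d hW
      haveI : FiniteDimensional ℚ ((rad u d)^[k] W : Submodule ℚ M) :=
        Submodule.finiteDimensional_of_le h1
      exact bdd_perQ_rad h2 n hn (fun y hy => hu y (h1 hy)) _ (ih x hx)
  have hWi : ∀ k x, x ∈ W → (⇑u)^[k] x ∈ W := by
    intro k
    induction k with
    | zero => intro x hx; exact hx
    | succ k ih =>
      intro x hx
      rw [Function.iterate_succ_apply']
      exact (hW _).2 (ih x hx)
  have hFW : ∀ x ∈ W, F x ∈ W := fun x hx => by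
    rw [hF]; exact W.sub_mem (hWi _ x hx) hx
  -- the `n`-th power of `g = u ^ N`
  have hgn : ∀ x ∈ W, (⇑(U ^ (3 ^ d).factorial))^[n] x = x := by
    intro x hx
    have h1 : (⇑(U ^ (3 ^ d).factorial))^[n] x = (⇑u)^[(3 ^ d).factorial * n] x := by
      rw [← Module.End.pow_apply, ← pow_mul, hU]
    rw [h1, mul_comm, Function.iterate_mul]
    have h2 : ∀ k, ((⇑u)^[n])^[k] x = x := by
      intro k
      induction k with
      | zero => rfl
      | succ k ih => rw [Function.iterate_succ_apply, hu x hx, ih]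
    exact h2 _
  have hg : ∀ x, (U ^ (3 ^ d).factorial) x = x + F x := fun x => by
    rw [hU, hF]; abel
  have hkey : ∀ x ∈ W, F (F x) = 0 → F x = 0 := by
    intro x hx hFF
    have h1 : ∀ j : ℕ, (⇑(U ^ (3 ^ d).factorial))^[j] x = x + j • F x := by
      intro j
      induction j with
      | zero => simp
      | succ j ih =>
        rw [Function.iterate_succ_apply', ih, map_add, map_nsmul, hg x, hg (F x), hFF, add_zero,
          succ_nsmul]
        abel
    have h2 := hgn x hx
    rw [h1 n] at h2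
    have h3 : n • F x = 0 := by
      have := h2
      simpa using this
    rw [← Nat.cast_smul_eq_nsmul ℚ] at h3
    rcases smul_eq_zero.1 h3 with h4 | h4
    · exact absurd (Nat.cast_eq_zero.1 h4) (by omega)
    · exact h4
  have hind : ∀ k x, x ∈ W → (⇑F)^[k] x = 0 → F x = 0 := by
    intro k
    induction k with
    | zero =>
      intro x hx h
      have h' : x = 0 := h
      rw [h', map_zero]
    | succ k ih =>
      intro x hx h
      rw [Function.iterate_succ_apply] at h
      exact hkey x hx (ih (F x) (hFW x hx) h)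
  intro x hx
  have h1 := hit l x hx
  unfold Bdd at hb
  rw [hb, Submodule.mem_bot] at h1
  have h2 := hind l x hx h1
  rw [hF] at h2
  exact sub_eq_zero.1 h2

end Pool.Agent.Helper933.HC
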