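import Pool.Agent.Helper933.HC.Defs

set_option autoImplicit false

namespace Pool.Agent.Helper933.HC
open Module


theorem stable_pow {K M : Type} [DivisionRing K] [AddCommGroup M] [Module K M]
    {u u' : M ≃+ M} {V : Submodule K M} (h : Stable u V) (n : ℕ)
    (hu' : ∀ x, u' x = (⇑u)^[n] x) : Stable u' V := by
  have key : ∀ (m : ℕ) (x : M), (⇑u)^[m] x ∈ V ↔ x ∈ V := by
    intro m
    induction m with
    | zero => intro x; exact Iff.rfl
    | succ m ih =>
      intro x
      rw [Function.iterate_succ_apply']
      exact (h _).trans (ih x)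
  intro x
  rw [hu' x]
  exact key n x

end Pool.Agent.Helper933.HC
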