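import Pool.Agent.Helper933.HC.Defs
import Pool.Agent.Helper933.HC.P_stable_pow
import Pool.Agent.Helper933.HC.P_rad_le
import Pool.Agent.Helper933.HC.P_rad_mono
import Pool.Agent.Helper933.HC.P_radi_le
import Pool.Agent.Helper933.HC.P_radi_mono

set_option autoImplicit false

namespace Pool.Agent.Helper933.HC
open Module


/-- pull back of a subspace along a semilinear automorphism. -/
def bpB {K M : Type} [DivisionRing K] [AddCommGroup M] [Module K M]
    {u : M ≃+ M} (hu : Semi K u) (V : Submodule K M) : Submodule K M where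
  carrier := {x | u x ∈ V}
  add_mem' := by
    intro a b ha hb
    show u (a + b) ∈ V
    rw [map_add]
    exact V.add_mem ha hb
  zero_mem' := by
    show u 0 ∈ V
    rw [map_zero]
    exact V.zero_mem
  smul_mem' := by
    intro c x hx
    obtain ⟨σ, hσ⟩ := hu
    show u (c • x) ∈ V
    rw [hσ]
    exact V.smul_mem _ hx

theorem bpB_rank {K M : Type} [DivisionRing K] [AddCommGroup M] [Module K M]
    {u : M ≃+ M} (hu : Semi K u) (V : Submodule K M) :
    finrank K (bpB hu V) = finrank K V := by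
  obtain ⟨σ, hσ⟩ := id hu
  let j : bpB hu V ≃+ V :=
    { toFun := fun x => ⟨u x.1, x.2⟩
      invFun := fun y => ⟨u.symm y.1, by
        show u (u.symm y.1) ∈ V
        rw [u.apply_symm_apply]
        exact y.2⟩
      left_inv := fun x => Subtype.ext (u.symm_apply_apply x.1)
      right_inv := fun y => Subtype.ext (u.apply_symm_apply y.1)
      map_add' := fun a b => Subtype.ext (map_add u a.1 b.1) }
  unfold finrank
  rw [rank_eq_of_equiv_equiv (σ : K → K) j σ.bijective (fun r m => Subtype.ext (hσ r m.1))]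

theorem bpB_iter {K M : Type} [DivisionRing K] [AddCommGroup M] [Module K M]
    {u : M ≃+ M} (hu : Semi K u) (V : Submodule K M) (n : ℕ) :
    (∀ x, x ∈ (bpB hu)^[n] V ↔ (⇑u)^[n] x ∈ V) ∧ finrank K ((bpB hu)^[n] V : Submodule K M) = finrank K V := by
  induction n with
  | zero => exact ⟨fun x => Iff.rfl, rfl⟩
  | succ n ih =>
    rw [Function.iterate_succ_apply']
    refine ⟨fun x => ?_, ?_⟩
    · rw [Function.iterate_succ_apply]
      exact ih.1 (u x)
    · rw [bpB_rank]
      exact ih.2

theorem bp_step {K M : Type} [DivisionRing K] [AddCommGroup M] [Module K M]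
    {u : M ≃+ M} (hu : Semi K u) {W V : Submodule K M} [FiniteDimensional K W] (hW : Stable u W)
    (hV : V ≤ W) {d : ℕ} (hd : finrank K W ≤ finrank K V + d) (n : ℕ) :
    ∃ A : Submodule K M, (∀ x, x ∈ A ↔ x ∈ W ∧ ∀ i < n, (⇑u)^[i] x ∈ V) ∧
      finrank K W ≤ finrank K A + n * d := by
  have hWi : ∀ i : ℕ, ∀ x, (⇑u)^[i] x ∈ W ↔ x ∈ W := by
    intro i
    induction i with
    | zero => exact fun x => Iff.rfl
    | succ i ih =>
      intro x
      rw [Function.iterate_succ_apply, ih, hW]
  induction n with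
  | zero =>
    exact ⟨W, fun x => ⟨fun h => ⟨h, fun i hi => absurd hi (Nat.not_lt_zero i)⟩, fun h => h.1⟩,
      by omega⟩
  | succ n ih =>
    obtain ⟨A, hA, hAd⟩ := ih
    obtain ⟨B, hB⟩ : ∃ B, B = (bpB hu)^[n] V := ⟨_, rfl⟩
    have hB1 : ∀ x, x ∈ B ↔ (⇑u)^[n] x ∈ V := by rw [hB]; exact (bpB_iter hu V n).1
    have hB2 : finrank K B = finrank K V := by rw [hB]; exact (bpB_iter hu V n).2
    have hBW : B ≤ W := fun x hx => (hWi n x).1 (hV ((hB1 x).1 hx))
    have hAW : A ≤ W := fun x hx => ((hA x).1 hx).1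
    have : FiniteDimensional K A := Submodule.finiteDimensional_of_le hAW
    have : FiniteDimensional K B := Submodule.finiteDimensional_of_le hBW
    have h1 := Submodule.finrank_sup_add_finrank_inf_eq A B
    have h2 : finrank K (A ⊔ B : Submodule K M) ≤ finrank K W :=
      Submodule.finrank_mono (sup_le hAW hBW)
    refine ⟨A ⊓ B, ?_, ?_⟩
    · intro x
      rw [Submodule.mem_inf, hA, hB1]
      constructor
      · rintro ⟨⟨h3, h4⟩, h5⟩
        refine ⟨h3, fun i hi => ?_⟩
        rcases Nat.lt_succ_iff_lt_or_eq.1 hi with h6 | h6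
        · exact h4 i h6
        · rw [h6]; exact h5
      · rintro ⟨h3, h4⟩
        exact ⟨⟨h3, fun i hi => h4 i (by omega)⟩, h4 n (by omega)⟩
    · rw [Nat.succ_mul]
      omega

theorem bp_rad {K M : Type} [DivisionRing K] [AddCommGroup M] [Module K M]
    {u u' : M ≃+ M} (hu : Semi K u) {W : Submodule K M} [FiniteDimensional K W] (hW : Stable u W)
    {d m : ℕ} (hm : 0 < m) (hu' : ∀ x, u' x = (⇑u)^[m] x) :
    rad u (m * d) W ≤ rad u' d W := by
  apply le_sInf
  rintro V ⟨hVW, hVs, hVd⟩
  obtain ⟨A, hA, hAd⟩ := bp_step hu hW hVW hVd m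
  have hAV : A ≤ V := fun x hx => ((hA x).1 hx).2 0 hm
  refine le_trans (sInf_le ?_) hAV
  refine ⟨fun x hx => ((hA x).1 hx).1, ?_, hAd⟩
  intro x
  have hVs' : (⇑u)^[m] x ∈ V ↔ x ∈ V := by
    rw [← hu']
    exact hVs x
  rw [hA, hA, hW]
  constructor
  · rintro ⟨h1, h2⟩
    refine ⟨h1, fun i hi => ?_⟩
    rcases Nat.eq_zero_or_pos i with h3 | h3
    · rw [h3]
      have h4 := h2 (m - 1) (by omega)
      rw [← Function.iterate_succ_apply, Nat.succ_eq_add_one, Nat.sub_add_cancel hm] at h4
      exact hVs'.1 h4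
    · have h4 := h2 (i - 1) (by omega)
      rw [← Function.iterate_succ_apply, Nat.succ_eq_add_one, Nat.sub_add_cancel h3] at h4
      exact h4
  · rintro ⟨h1, h2⟩
    refine ⟨h1, fun i hi => ?_⟩
    rw [← Function.iterate_succ_apply]
    rcases Nat.lt_or_ge (i + 1) m with h3 | h3
    · exact h2 _ h3
    · have h4 : i.succ = m := by omega
      rw [h4]
      exact hVs'.2 (h2 0 hm)

theorem bp_iter {K M : Type} [DivisionRing K] [AddCommGroup M] [Module K M]
    {u u' : M ≃+ M} (hu : Semi K u) {d m : ℕ} (hm : 0 < m) (hu' : ∀ x, u' x = (⇑u)^[m] x) (l : ℕ) :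
    ∀ (W : Submodule K M) [FiniteDimensional K W], Stable u W →
    (rad u (m * d))^[l] W ≤ (rad u' d)^[l] W := by
  induction l with
  | zero =>
    intro W _ hW
    exact le_rfl
  | succ l ih =>
    intro W _ hW
    rw [Function.iterate_succ_apply, Function.iterate_succ_apply]
    have h1 := rad_le (m * d) hW
    have h2 := rad_le d (stable_pow hW m hu')
    have : FiniteDimensional K (rad u (m * d) W) := Submodule.finiteDimensional_of_le h1.1
    have : FiniteDimensional K (rad u' d W) := Submodule.finiteDimensional_of_le h2.1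
    exact le_trans (ih _ h1.2) (radi_mono le_rfl le_rfl (bp_rad hu hW hm hu')
      (stable_pow h1.2 m hu') h2.2)

/-- from `u ^ m` to `u`. -/
theorem bdd_pow {K M : Type} [DivisionRing K] [AddCommGroup M] [Module K M]
    {u u' : M ≃+ M} (hu : Semi K u) {W : Submodule K M} [FiniteDimensional K W] (hW : Stable u W)
    {l d m : ℕ} (hm : 0 < m) (hu' : ∀ x, u' x = (⇑u)^[m] x) (h : Bdd u' l d W) :
    Bdd u l (m * d) W := by
  have h1 := bp_iter hu (d := d) hm hu' l W hW
  rw [show (rad u' d)^[l] W = ⊥ from h] at h1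
  exact le_bot_iff.1 h1

end Pool.Agent.Helper933.HC
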