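import Pool.Agent.Helper933.HC.Defs

set_option autoImplicit false

namespace Pool.Agent.Helper933.HC
open Module


theorem bdd_small {K M : Type} [DivisionRing K] [AddCommGroup M] [Module K M]
    {u : M ≃+ M} {d : ℕ} {W : Submodule K M} [FiniteDimensional K W] (h : finrank K W ≤ d) :
    Bdd u 1 d W := by
  show rad u d W = ⊥
  rw [eq_bot_iff]
  refine sInf_le ⟨bot_le, ?_, ?_⟩
  · intro x
    rw [Submodule.mem_bot, Submodule.mem_bot]
    exact map_eq_zero_iff u u.injective
  · rw [finrank_bot, Nat.zero_add]
    exact h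

end Pool.Agent.Helper933.HC
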