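import Pool.Agent.Helper933.HC.Defs
import Pool.Agent.Helper933.HC.P_rad_le
import Pool.Agent.Helper933.HC.P_radi_le

set_option autoImplicit false

namespace Pool.Agent.Helper933.HC
open Module


theorem bdd_unip_aux {K M : Type} [DivisionRing K] [AddCommGroup M] [Module K M]
    (D : Module.End K M) {W' V : Submodule K M} [FiniteDimensional K W'] (hV : V ≤ W')
    (hDW : ∀ x ∈ W', D x ∈ W') (hDV : ∀ x ∈ V, D x ∈ V) {d : ℕ}
    (hd : finrank K W' ≤ finrank K V + d) (n : ℕ) (hn : ∀ x ∈ W', (D ^ n) x = 0) :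
    ∀ x ∈ W', (D ^ d) x ∈ V := by
  let D' : Module.End K W' := D.restrict hDW
  have hD' : ∀ (k : ℕ) (x : W'), ((D' ^ k) x : M) = (D ^ k) (x : M) := by
    intro k
    induction k with
    | zero => intro x; rfl
    | succ k ih =>
      intro x
      rw [pow_succ, pow_succ, Module.End.mul_apply, Module.End.mul_apply, ih]
      rfl
  let V' : Submodule K W' := V.comap W'.subtype
  have hV' : V' ≤ V'.comap D' := by
    intro x hx
    exact hDV _ hx
  let Db : Module.End K (↥W' ⧸ V') := V'.mapQ V' D' hV'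
  have hDb : ∀ (k : ℕ) (x : W'), (Db ^ k) (V'.mkQ x) = V'.mkQ ((D' ^ k) x) := by
    intro k
    induction k with
    | zero => intro x; rfl
    | succ k ih =>
      intro x
      rw [pow_succ, pow_succ, Module.End.mul_apply, Module.End.mul_apply, ← ih]
      rfl
  have hfr : finrank K (↥W' ⧸ V') ≤ d := by
    have h1 := Submodule.finrank_quotient_add_finrank V'
    have h2 : finrank K V' = finrank K V := (Submodule.comapSubtypeEquivOfLe hV).finrank_eq
    omega
  intro x hx
  have h1 : V'.mkQ ⟨x, hx⟩ ∈ LinearMap.ker (Db ^ n) := by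
    rw [LinearMap.mem_ker, hDb]
    have : (D' ^ n) ⟨x, hx⟩ = 0 := by
      apply Subtype.ext
      rw [hD']
      exact hn x hx
    rw [this, map_zero]
  have h2 := Module.End.ker_pow_le_ker_pow_finrank Db n h1
  rw [LinearMap.mem_ker] at h2
  have h3 : (Db ^ d) (V'.mkQ ⟨x, hx⟩) = 0 := by
    obtain ⟨e, he⟩ := Nat.exists_eq_add_of_le hfr
    rw [he, add_comm, pow_add, Module.End.mul_apply, h2, map_zero]
  rw [hDb, Submodule.mkQ_apply, Submodule.Quotient.mk_eq_zero] at h3
  have h4 : ((D' ^ d) ⟨x, hx⟩ : M) ∈ V := h3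
  rw [hD'] at h4
  exact h4

theorem bdd_unip {K M : Type} [DivisionRing K] [AddCommGroup M] [Module K M] {u : M ≃+ M}
    (hlin : ∀ (k : K) (x : M), u (k • x) = k • u x) {W : Submodule K M}
    [FiniteDimensional K W] (hW : Stable u W) {l d : ℕ} (hb : Bdd u l d W) (n : ℕ)
    (hn : ∀ x ∈ W, (fun y : M => u y - y)^[n] x = 0) :
    ∀ x ∈ W, (fun y : M => u y - y)^[d * l] x = 0 := by
  let D : Module.End K M :=
    { toFun := fun y => u y - y
      map_add' := by
        intro x y
        rw [map_add]; abel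
      map_smul' := by
        intro k x
        rw [hlin, RingHom.id_apply, smul_sub] }
  have hD : ∀ (k : ℕ) (x : M), (fun y : M => u y - y)^[k] x = (D ^ k) x := by
    intro k x
    rw [Module.End.pow_apply]
    rfl
  have hDS : ∀ {V : Submodule K M}, Stable u V → ∀ x ∈ V, D x ∈ V := by
    intro V hV x hx
    exact V.sub_mem ((hV x).2 hx) hx
  have key : ∀ i : ℕ, ∀ x ∈ W, (D ^ (d * i)) x ∈ (rad u d)^[i] W := by
    intro i
    induction i with
    | zero =>
      intro x hx
      simpa using hx
    | succ i ih =>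
      intro x hx
      obtain ⟨hle, hst⟩ := radi_le i d hW
      rw [Function.iterate_succ_apply']
      have h1 : (D ^ (d * (i + 1))) x = (D ^ d) ((D ^ (d * i)) x) := by
        rw [← Module.End.mul_apply, ← pow_add]
        congr 2
        ring
      rw [h1]
      refine (Submodule.mem_sInf (S := {V | V ≤ (rad u d)^[i] W ∧ Stable u V ∧
        finrank K ↥((rad u d)^[i] W) ≤ finrank K V + d})).2 ?_
      rintro V ⟨hV1, hV2, hV3⟩
      have : FiniteDimensional K ↥((rad u d)^[i] W) := Submodule.finiteDimensional_of_le hle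
      refine bdd_unip_aux D hV1 (hDS hst) (hDS hV2) hV3 n ?_ _ (ih x hx)
      intro y hy
      rw [← hD]
      exact hn y (hle hy)
  intro x hx
  have h1 := key l x hx
  rw [show (rad u d)^[l] W = ⊥ from hb, Submodule.mem_bot] at h1
  rw [hD]
  exact h1

end Pool.Agent.Helper933.HC
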