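import Pool.Agent.Helper933.HC.Defs

set_option autoImplicit false

namespace Pool.Agent.Helper933.HC
open Module


theorem box_card (r n : ℕ) : (box r n).Finite ∧ (box r n).ncard = n ^ r := by
  have h : box r n = ((Fintype.piFinset (fun _ : Fin r => Finset.Ico (0 : ℤ) (n : ℤ)) :
      Finset (Fin r → ℤ)) : Set (Fin r → ℤ)) := by
    ext v
    rw [Finset.mem_coe, Fintype.mem_piFinset]
    simp only [Finset.mem_Ico]
    rfl
  rw [h]
  refine ⟨Finset.finite_toSet _, ?_⟩
  rw [Set.ncard_coe_finset, Fintype.card_piFinset]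
  simp

end Pool.Agent.Helper933.HC
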