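import Pool.Agent.Helper933.HC.Defs

set_option autoImplicit false

namespace Pool.Agent.Helper933.HC
open Module


/-- the action of `Q` on a normal `ℤ^r` by conjugation. -/
theorem conj_mat {Q : Type} [Group Q] {r : ℕ} (ε : Multiplicative (Fin r → ℤ) →* Q)
    (hinj : Function.Injective ε) (hn : ε.range.Normal) (g : Q) :
    ∃ M : (Fin r → ℤ) ≃+ (Fin r → ℤ), ∀ v,
      g * ε (Multiplicative.ofAdd v) * g⁻¹ = ε (Multiplicative.ofAdd (M v)) := by
  have hex : ∀ (h : Q) (v : Fin r → ℤ), ∃ w : Fin r → ℤ,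
      h * ε (Multiplicative.ofAdd v) * h⁻¹ = ε (Multiplicative.ofAdd w) := by
    intro h v
    have h1 : h * ε (Multiplicative.ofAdd v) * h⁻¹ ∈ ε.range :=
      hn.conj_mem _ ⟨_, rfl⟩ h
    obtain ⟨w, hw⟩ := h1
    exact ⟨Multiplicative.toAdd w, hw.symm⟩
  choose f hf using hex
  have hinj' : ∀ v w : Fin r → ℤ,
      ε (Multiplicative.ofAdd v) = ε (Multiplicative.ofAdd w) → v = w := by
    intro v w h
    exact Multiplicative.ofAdd.injective (hinj h)
  have hinv : ∀ (h k : Q), k * h = 1 → ∀ v, f k (f h v) = v := by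
    intro h k hk v
    apply hinj'
    rw [← hf k, ← hf h]
    have h2 : k * (h * ε (Multiplicative.ofAdd v) * h⁻¹) * k⁻¹
        = (k * h) * ε (Multiplicative.ofAdd v) * (k * h)⁻¹ := by group
    rw [h2, hk]
    simp
  refine ⟨{ toFun := f g, invFun := f g⁻¹, left_inv := hinv g g⁻¹ (by group),
            right_inv := hinv g⁻¹ g (by group), map_add' := ?_ }, fun v => hf g v⟩
  intro v w
  apply hinj'
  rw [← hf g, ofAdd_add, map_mul, ofAdd_add, map_mul, ← hf g, ← hf g]
  group

end Pool.Agent.Helper933.HC
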