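import Pool.Agent.Helper933.HC.Defs
import Pool.Agent.Helper933.HC.P_conj_mat

set_option autoImplicit false

namespace Pool.Agent.Helper933.HC
open Module


theorem case1_compat {K G A Q K' A' : Type} [DivisionRing K] [Group G] [AddCommGroup A]
    [Module K A] [DistribMulAction G A] [Group Q] (ρ : G →* Q) {r : ℕ}
    (ε : Multiplicative (Fin r → ℤ) →* Q) (hinj : Function.Injective ε)
    (hn : ε.range.Normal) (hsemi : ∀ g : G, Semi K (ac g : A ≃+ A))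
    (hscal : ∀ g : G, ρ g = 1 → ∃ c : K, ∀ a : A, g • a = c • a) [Nontrivial A]
    (Y : (Fin r → ℤ) → G) (hY : ∀ v, ρ (Y v) = ε (Multiplicative.ofAdd v))
    [DivisionRing K'] [AddCommGroup A'] [Module K' A'] [DistribMulAction G A'] (ι : K →+* K')
    (x : (Fin r → ℤ) → K') (j : A →+ A') (hx : Cross ι x) (hj : Function.Injective j)
    (hjk : ∀ (k : K) a, j (k • a) = ι k • j a) (hjx : ∀ v a, j (Y v • a) = x v • j a)
    (hjg : ∀ (g : G) a, j (g • a) = g • j a) (hsemi' : ∀ g : G, Semi K' (ac g : A' ≃+ A'))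
    (g : G) :
    ∃ (τ : K ≃+* K) (σ : K' ≃+* K') (M : (Fin r → ℤ) ≃+ (Fin r → ℤ)),
      Compat ι x τ σ M ∧ (∀ (κ : K') (ξ : A'), g • (κ • ξ) = σ κ • (g • ξ)) ∧
      (∀ (k : K) (a : A), g • (k • a) = τ k • (g • a)) ∧
      ∀ v, ρ g * ε (Multiplicative.ofAdd v) * (ρ g)⁻¹ = ε (Multiplicative.ofAdd (M v)) := by
  obtain ⟨τ, hτ⟩ := hsemi g
  obtain ⟨σ, hσ⟩ := hsemi' g
  obtain ⟨M, hM⟩ := conj_mat ε hinj hn (ρ g)
  have hτ' : ∀ (k : K) (a : A), g • (k • a) = τ k • (g • a) := hτ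
  have hσ' : ∀ (κ : K') (ξ : A'), g • (κ • ξ) = σ κ • (g • ξ) := hσ
  obtain ⟨a, ha⟩ := exists_ne (0 : A)
  have hja : g • j a ≠ 0 := by
    intro h
    apply ha
    apply hj
    rw [map_zero]
    have h1 : g⁻¹ • (g • j a) = g⁻¹ • (0 : A') := by rw [h]
    rwa [inv_smul_smul, smul_zero] at h1
  have hinj' := smul_left_injective K' hja
  refine ⟨τ, σ, M, ⟨?_, ?_⟩, hσ', hτ', hM⟩
  · intro k
    apply hinj'
    change σ (ι k) • (g • j a) = ι (τ k) • (g • j a)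
    rw [← hσ', ← hjk, ← hjg, hτ', hjk, hjg]
  · intro v
    have h1 : ρ ((Y (M v))⁻¹ * (g * Y v * g⁻¹)) = 1 := by
      rw [map_mul, map_inv, map_mul, map_mul, map_inv, hY, hY, hM]
      simp
    obtain ⟨c0, hc0⟩ := hscal _ h1
    obtain ⟨τ', hτn⟩ := hx.norm (M v)
    refine ⟨τ' c0, ?_⟩
    apply hinj'
    change σ (x v) • (g • j a) = (ι (τ' c0) * x (M v)) • (g • j a)
    rw [← hσ', ← hjx, ← hjg, ← hτn, mul_smul, ← hjg, ← hjk, ← hjx]
    congr 1
    rw [← hc0, ← mul_smul, ← mul_smul, ← mul_smul]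
    congr 1
    group

end Pool.Agent.Helper933.HC
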