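import Pool.Agent.Helper933.HC.Defs

set_option autoImplicit false

namespace Pool.Agent.Helper933.HC
open Module


theorem case1_scal {K G A Q K' A' : Type} [DivisionRing K] [Group G] [AddCommGroup A]
    [Module K A] [DistribMulAction G A] [Group Q] (ρ : G →* Q) {r : ℕ}
    (ε : Multiplicative (Fin r → ℤ) →* Q) (hsemi : ∀ g : G, Semi K (ac g : A ≃+ A))
    (hscal : ∀ g : G, ρ g = 1 → ∃ c : K, ∀ a : A, g • a = c • a) [Nontrivial A]
    (Y : (Fin r → ℤ) → G) (hY : ∀ v, ρ (Y v) = ε (Multiplicative.ofAdd v))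
    [DivisionRing K'] [AddCommGroup A'] [Module K' A'] [DistribMulAction G A'] (ι : K →+* K')
    (x : (Fin r → ℤ) → K') (j : A →+ A') (hx : Cross ι x) (hj : Function.Injective j)
    (hjk : ∀ (k : K) a, j (k • a) = ι k • j a) (hjx : ∀ v a, j (Y v • a) = x v • j a)
    (hjg : ∀ (g : G) a, j (g • a) = g • j a) (hsemi' : ∀ g : G, Semi K' (ac g : A' ≃+ A'))
    (hsp : Submodule.span K' (Set.range j) = ⊤) (g : G) (hg : ρ g ∈ ε.range) :
    ∃ c : K', ∀ ξ : A', g • ξ = c • ξ := by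
  obtain ⟨m, hm⟩ := hg
  set v : Fin r → ℤ := Multiplicative.toAdd m with hv
  have hYv : ρ (Y v) = ρ g := by
    rw [hY v, ← hm]; rfl
  obtain ⟨c, hc⟩ := hscal ((Y v)⁻¹ * g) (by rw [map_mul, map_inv, hYv, inv_mul_cancel])
  obtain ⟨σ, hσ⟩ := hsemi (Y v)
  obtain ⟨σ', hσ'⟩ := hsemi' g
  have hσ1 : ∀ (k : K) (a : A), Y v • (k • a) = σ k • (Y v • a) := hσ
  have hσ2 : ∀ (k : K') (ξ : A'), g • (k • ξ) = σ' k • (g • ξ) := hσ'
  have hga : ∀ a : A, g • j a = (ι (σ c) * x v) • j a := by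
    intro a
    have h1 : g • a = σ c • (Y v • a) := by
      rw [← hσ1, ← hc a, smul_smul, mul_inv_cancel_left]
    rw [← hjg, h1, hjk, hjx, smul_smul]
  set c' : K' := ι (σ c) * x v with hc'
  have hcomb : ∀ (b : (Fin r → ℤ) →₀ K) (a : A),
      comb ι x b • j a = j (b.sum fun w k => k • (Y w • a)) := by
    intro b a
    unfold comb Finsupp.sum
    rw [Finset.sum_smul, map_sum]
    refine Finset.sum_congr rfl fun w _ => ?_
    rw [hjk, hjx, smul_smul]
  obtain ⟨a0, ha0⟩ := exists_ne (0 : A)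
  have hja0 : j a0 ≠ 0 := by
    intro h
    apply ha0
    apply hj
    rw [h, map_zero]
  have h1 : ∀ b : (Fin r → ℤ) →₀ K, σ' (comb ι x b) * c' = c' * comb ι x b := by
    intro b
    have e1 : g • (comb ι x b • j a0) = (σ' (comb ι x b) * c') • j a0 := by
      rw [hσ2, hga, smul_smul]
    have e2 : g • (comb ι x b • j a0) = (c' * comb ι x b) • j a0 := by
      rw [hcomb, hga, ← hcomb, smul_smul]
    have e3 : (σ' (comb ι x b) * c' - c' * comb ι x b) • j a0 = 0 := by
      rw [sub_smul, ← e1, ← e2, sub_self]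
    rcases smul_eq_zero.1 e3 with h | h
    · exact sub_eq_zero.1 h
    · exact absurd h hja0
  have h2 : ∀ κ : K', σ' κ * c' = c' * κ := by
    intro κ
    obtain ⟨a, b, hab, hκ⟩ := hx.frac κ
    have hne : σ' (comb ι x a) ≠ 0 := by
      intro h
      exact hab ((map_eq_zero_iff σ' σ'.injective).1 h)
    apply mul_left_cancel₀ hne
    calc σ' (comb ι x a) * (σ' κ * c') = σ' (comb ι x a * κ) * c' := by
          rw [map_mul, mul_assoc]
      _ = c' * comb ι x b := by rw [hκ, h1]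
      _ = c' * (comb ι x a * κ) := by rw [hκ]
      _ = (c' * comb ι x a) * κ := (mul_assoc _ _ _).symm
      _ = σ' (comb ι x a) * (c' * κ) := by rw [← h1, mul_assoc]
  refine ⟨c', fun ξ => ?_⟩
  have hξ : ξ ∈ Submodule.span K' (Set.range j) := by rw [hsp]; trivial
  induction hξ using Submodule.span_induction with
  | mem ξ hξ =>
    obtain ⟨a, rfl⟩ := hξ
    exact hga a
  | zero => rw [smul_zero, smul_zero]
  | add ξ η _ _ hξ hη => rw [smul_add, smul_add, hξ, hη]
  | smul κ ξ _ hξ => rw [hσ2, hξ, smul_smul, h2, smul_smul]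

end Pool.Agent.Helper933.HC
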