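import Pool.Agent.Helper933.HC.Defs

set_option autoImplicit false

namespace Pool.Agent.Helper933.HC
open Module


theorem comb_map352 {K K' E F : Type} [DivisionRing K] [DivisionRing K'] [AddCommGroup E]
    [AddCommGroup F] (ι : K →+* K') (x : E → K') (θ : F ≃+ E) (a : F →₀ K) :
    comb ι (fun v => x (θ v)) a = comb ι x (a.mapDomain θ) := by
  unfold comb
  rw [Finsupp.sum_mapDomain_index]
  · intro b
    rw [map_zero, zero_mul]
  · intro b m₁ m₂
    rw [map_add, add_mul]

theorem comb_map352' {K K' E F : Type} [DivisionRing K] [DivisionRing K'] [AddCommGroup E]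
    [AddCommGroup F] (ι : K →+* K') (x : E → K') (θ : F ≃+ E) (a : E →₀ K) :
    comb ι (fun v => x (θ v)) (a.mapDomain θ.symm) = comb ι x a := by
  rw [comb_map352, ← Finsupp.mapDomain_comp]
  congr 1
  have : (⇑θ ∘ ⇑θ.symm) = id := by
    funext y
    simp
  rw [this, Finsupp.mapDomain_id]

theorem cross_congr {K K' E F : Type} [DivisionRing K] [DivisionRing K'] [AddCommGroup E]
    [AddCommGroup F] {ι : K →+* K'} {x : E → K'} (h : Cross ι x)
    {τ : K ≃+* K} {σ : K' ≃+* K'} {M : E ≃+ E} (hc : Compat ι x τ σ M) (θ : F ≃+ E) :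
    Cross ι (fun v => x (θ v)) ∧
      Compat ι (fun v => x (θ v)) τ σ ((θ.trans M).trans θ.symm) := by
  refine ⟨⟨fun v => h.ne (θ v), fun v => h.norm (θ v), ?_, ?_, ?_⟩, ⟨hc.base, ?_⟩⟩
  · intro v w
    obtain ⟨c, hcc⟩ := h.mul (θ v) (θ w)
    refine ⟨c, ?_⟩
    show x (θ v) * x (θ w) = ι c * x (θ (v + w))
    rw [hcc, map_add]
  · intro a ha
    rw [comb_map352] at ha
    have h1 := h.indep _ ha
    have h2 : a.mapDomain θ = (0 : F →₀ K).mapDomain θ := by
      rw [h1, Finsupp.mapDomain_zero]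
    exact Finsupp.mapDomain_injective θ.injective h2
  · intro y
    obtain ⟨a, b, hab, hab'⟩ := h.frac y
    refine ⟨a.mapDomain θ.symm, b.mapDomain θ.symm, ?_, ?_⟩
    · rw [comb_map352']
      exact hab
    · rw [comb_map352', comb_map352']
      exact hab'
  · intro v
    obtain ⟨c, hcc⟩ := hc.gen (θ v)
    refine ⟨c, ?_⟩
    show σ (x (θ v)) = ι c * x (θ (θ.symm (M (θ v))))
    rw [hcc, AddEquiv.apply_symm_apply]

end Pool.Agent.Helper933.HC
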