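import Pool.Agent.Helper933.HC.Defs

set_option autoImplicit false

namespace Pool.Agent.Helper933.HC
open Module


/-- common left denominators. -/
theorem comb_common {K K' E : Type} [DivisionRing K] [DivisionRing K'] [AddCommGroup E]
    {ι : K →+* K'} {x : E → K'} (h : Cross ι x) (a b : E →₀ K) (ha : a ≠ 0) (hb : b ≠ 0) :
    ∃ p q : E →₀ K, p ≠ 0 ∧ q ≠ 0 ∧ comb ι x p * comb ι x a = comb ι x q * comb ι x b := by
  have hca : comb ι x a ≠ 0 := fun h0 => ha (h.indep a h0)
  have hcb : comb ι x b ≠ 0 := fun h0 => hb (h.indep b h0)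
  have h0 : comb ι x (0 : E →₀ K) = 0 := Finsupp.sum_zero_index
  obtain ⟨p, q, hp, hpq⟩ := h.frac (comb ι x a * (comb ι x b)⁻¹)
  have h1 : comb ι x p * comb ι x a = comb ι x q * comb ι x b := by
    rw [← hpq, mul_assoc, mul_assoc, inv_mul_cancel₀ hcb, mul_one]
  refine ⟨p, q, ?_, ?_, h1⟩
  · rintro rfl
    exact hp h0
  · rintro rfl
    rw [h0, zero_mul] at h1
    exact (mul_ne_zero hp hca) h1

end Pool.Agent.Helper933.HC
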