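import Pool.Agent.Helper933.HC.Defs

set_option autoImplicit false

namespace Pool.Agent.Helper933.HC
open Module


lemma cm_add {K K' E : Type} [DivisionRing K] [DivisionRing K'] (ι : K →+* K') (x : E → K')
    (a b : E →₀ K) : comb ι x (a + b) = comb ι x a + comb ι x b := by
  unfold comb
  exact Finsupp.sum_add_index' (fun v => by simp) (fun v k l => by rw [map_add, add_mul])

lemma cm_single {K K' E : Type} [DivisionRing K] [DivisionRing K'] (ι : K →+* K') (x : E → K')
    (v : E) (k : K) : comb ι x (Finsupp.single v k) = ι k * x v := by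
  unfold comb
  rw [Finsupp.sum_single_index (by simp)]

lemma cm_zero {K K' E : Type} [DivisionRing K] [DivisionRing K'] (ι : K →+* K') (x : E → K') :
    comb ι x 0 = 0 := by
  unfold comb
  exact Finsupp.sum_zero_index

lemma cm_sum {K K' E S : Type} [DivisionRing K] [DivisionRing K'] (ι : K →+* K') (x : E → K')
    (s : Finset S) (f : S → E →₀ K) :
    comb ι x (∑ i ∈ s, f i) = ∑ i ∈ s, comb ι x (f i) := by
  classical
  induction s using Finset.induction_on with
  | empty => rw [Finset.sum_empty, Finset.sum_empty, cm_zero]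
  | insert i s hi ih => rw [Finset.sum_insert hi, Finset.sum_insert hi, cm_add, ih]

/-- products of combinations; leading exponents add (`φ` injective). -/
theorem comb_mul {K K' E : Type} [DivisionRing K] [DivisionRing K'] [AddCommGroup E]
    {ι : K →+* K'} {x : E → K'} (h : Cross ι x) (φ : E →+ ℝ) (hφ : Function.Injective φ)
    (a b : E →₀ K) (ha : a ≠ 0) (hb : b ≠ 0) :
    ∃ c : E →₀ K, c ≠ 0 ∧ comb ι x a * comb ι x b = comb ι x c ∧
      ∀ v₁ ∈ a.support, (∀ v ∈ a.support, φ v ≤ φ v₁) → ∀ v₂ ∈ b.support,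
        (∀ v ∈ b.support, φ v ≤ φ v₂) →
        v₁ + v₂ ∈ c.support ∧ ∀ v ∈ c.support, φ v ≤ φ (v₁ + v₂) := by
  classical
  choose τ hτ using h.norm
  choose γ hγ using h.mul
  have hγ0 : ∀ v w, γ v w ≠ 0 := by
    intro v w h0
    have h1 := hγ v w
    rw [h0, map_zero, zero_mul] at h1
    exact mul_ne_zero (h.ne v) (h.ne w) h1
  obtain ⟨cf, hcf⟩ : ∃ cf : E → E → K, cf = fun v w => a v * τ v (b w) * γ v w := ⟨_, rfl⟩
  obtain ⟨c, hc⟩ : ∃ c : E →₀ K, c = ∑ v ∈ a.support, ∑ w ∈ b.support,
    Finsupp.single (v + w) (cf v w) := ⟨_, rfl⟩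
  have hcf0 : ∀ v ∈ a.support, ∀ w ∈ b.support, cf v w ≠ 0 := by
    intro v hv w hw
    rw [hcf]
    refine mul_ne_zero (mul_ne_zero (Finsupp.mem_support_iff.1 hv) ?_) (hγ0 v w)
    exact fun h0 => (Finsupp.mem_support_iff.1 hw) ((map_eq_zero (τ v)).1 h0)
  have hcapp : ∀ u, c u = ∑ v ∈ a.support, ∑ w ∈ b.support, if v + w = u then cf v w else 0 := by
    intro u
    rw [hc, Finsupp.finset_sum_apply]
    refine Finset.sum_congr rfl (fun v _ => ?_)
    rw [Finsupp.finset_sum_apply]
    refine Finset.sum_congr rfl (fun w _ => ?_)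
    rw [Finsupp.single_apply]
  have hprod : comb ι x a * comb ι x b = comb ι x c := by
    rw [hc, cm_sum]
    have e1 : comb ι x a = ∑ v ∈ a.support, ι (a v) * x v := rfl
    have e2 : comb ι x b = ∑ w ∈ b.support, ι (b w) * x w := rfl
    rw [e1, e2, Finset.sum_mul]
    refine Finset.sum_congr rfl (fun v _ => ?_)
    rw [cm_sum, Finset.mul_sum]
    refine Finset.sum_congr rfl (fun w _ => ?_)
    rw [cm_single, hcf]
    show ι (a v) * x v * (ι (b w) * x w) = ι (a v * τ v (b w) * γ v w) * x (v + w)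
    rw [map_mul, map_mul]
    calc ι (a v) * x v * (ι (b w) * x w) = ι (a v) * (x v * ι (b w)) * x w := by
          simp only [mul_assoc]
      _ = ι (a v) * (ι (τ v (b w)) * x v) * x w := by rw [hτ]
      _ = ι (a v) * ι (τ v (b w)) * (x v * x w) := by simp only [mul_assoc]
      _ = ι (a v) * ι (τ v (b w)) * (ι (γ v w) * x (v + w)) := by rw [hγ]
      _ = _ := by simp only [mul_assoc]
  have hlead : ∀ v₁ ∈ a.support, (∀ v ∈ a.support, φ v ≤ φ v₁) → ∀ v₂ ∈ b.support,
        (∀ v ∈ b.support, φ v ≤ φ v₂) →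
        v₁ + v₂ ∈ c.support ∧ ∀ v ∈ c.support, φ v ≤ φ (v₁ + v₂) := by
    intro v₁ hv₁ hm₁ v₂ hv₂ hm₂
    constructor
    · rw [Finsupp.mem_support_iff, hcapp, Finset.sum_eq_single v₁]
      · rw [Finset.sum_eq_single v₂]
        · rw [if_pos rfl]
          exact hcf0 v₁ hv₁ v₂ hv₂
        · intro w _ hne
          rw [if_neg]
          intro h5
          exact hne (add_left_cancel h5)
        · intro h5
          exact absurd hv₂ h5
      · intro v hv hne
        refine Finset.sum_eq_zero (fun w hw => ?_)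
        rw [if_neg]
        intro h5
        have h6 : φ v + φ w = φ v₁ + φ v₂ := by rw [← map_add, ← map_add, h5]
        have h7 := hm₁ v hv
        have h8 := hm₂ w hw
        have h9 : φ v = φ v₁ := by linarith
        exact hne (hφ h9)
      · intro h5
        exact absurd hv₁ h5
    · intro u hu
      rw [Finsupp.mem_support_iff, hcapp] at hu
      obtain ⟨v, hv, hv2⟩ := Finset.exists_ne_zero_of_sum_ne_zero hu
      obtain ⟨w, hw, hw2⟩ := Finset.exists_ne_zero_of_sum_ne_zero hv2
      have h5 : v + w = u := by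
        by_contra hne
        exact hw2 (if_neg hne)
      rw [← h5, map_add, map_add]
      exact add_le_add (hm₁ v hv) (hm₂ w hw)
  refine ⟨c, ?_, hprod, hlead⟩
  obtain ⟨v₁, hv₁, hm₁⟩ := Finset.exists_max_image a.support φ
    (Finsupp.support_nonempty_iff.2 ha)
  obtain ⟨v₂, hv₂, hm₂⟩ := Finset.exists_max_image b.support φ
    (Finsupp.support_nonempty_iff.2 hb)
  have h5 := (hlead v₁ hv₁ hm₁ v₂ hv₂ hm₂).1
  intro h0
  rw [h0] at h5
  simp at h5

end Pool.Agent.Helper933.HC
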