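import Pool.Agent.Helper933.HC.Defs
import Pool.Agent.Helper933.HC.P_comb_mul
import Pool.Agent.Helper933.HC.P_comb_common

set_option autoImplicit false

namespace Pool.Agent.Helper933.HC
open Module


/-- combinations supported in a set -/
def CInC {K K' E : Type} [DivisionRing K] [DivisionRing K'] [AddCommGroup E]
    (ι : K →+* K') (x : E → K') (S : Set E) (y : K') : Prop :=
  ∃ a : E →₀ K, (∀ v ∈ a.support, v ∈ S) ∧ y = comb ι x a

theorem cs_comb_add {K K' E : Type} [DivisionRing K] [DivisionRing K'] [AddCommGroup E]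
    (ι : K →+* K') (x : E → K') (a b : E →₀ K) :
    comb ι x (a + b) = comb ι x a + comb ι x b := by
  unfold comb
  apply Finsupp.sum_add_index'
  · intro v; rw [map_zero, zero_mul]
  · intro v k l; rw [map_add, add_mul]

theorem cs_comb_neg {K K' E : Type} [DivisionRing K] [DivisionRing K'] [AddCommGroup E]
    (ι : K →+* K') (x : E → K') (a : E →₀ K) :
    comb ι x (-a) = - comb ι x a := by
  have h := cs_comb_add ι x a (-a)
  rw [add_neg_cancel] at h
  have h0 : comb ι x (0 : E →₀ K) = 0 := by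
    unfold comb
    exact Finsupp.sum_zero_index
  rw [h0] at h
  exact (neg_eq_of_add_eq_zero_right h.symm).symm

theorem cs_comb_single {K K' E : Type} [DivisionRing K] [DivisionRing K'] [AddCommGroup E]
    (ι : K →+* K') (x : E → K') (v : E) (k : K) :
    comb ι x (Finsupp.single v k) = ι k * x v := by
  unfold comb
  rw [Finsupp.sum_single_index]
  rw [map_zero, zero_mul]

theorem cs_zero {K K' E : Type} [DivisionRing K] [DivisionRing K'] [AddCommGroup E]
    (ι : K →+* K') (x : E → K') (S : Set E) : CInC ι x S 0 :=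
  ⟨0, by simp, by unfold comb; rw [Finsupp.sum_zero_index]⟩

theorem cs_add {K K' E : Type} [DivisionRing K] [DivisionRing K'] [AddCommGroup E]
    (ι : K →+* K') (x : E → K') (S : Set E) (y z : K') (hy : CInC ι x S y)
    (hz : CInC ι x S z) : CInC ι x S (y + z) := by
  classical
  obtain ⟨a, ha, rfl⟩ := hy
  obtain ⟨b, hb, rfl⟩ := hz
  refine ⟨a + b, ?_, (cs_comb_add ι x a b).symm⟩
  intro v hv
  rcases Finset.mem_union.1 (Finsupp.support_add hv) with h | h
  · exact ha v h
  · exact hb v h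

theorem cs_neg {K K' E : Type} [DivisionRing K] [DivisionRing K'] [AddCommGroup E]
    (ι : K →+* K') (x : E → K') (S : Set E) (y : K') (hy : CInC ι x S y) :
    CInC ι x S (-y) := by
  obtain ⟨a, ha, rfl⟩ := hy
  refine ⟨-a, ?_, (cs_comb_neg ι x a).symm⟩
  intro v hv
  rw [Finsupp.support_neg] at hv
  exact ha v hv

theorem cs_sum {K K' E I : Type} [DivisionRing K] [DivisionRing K'] [AddCommGroup E]
    (ι : K →+* K') (x : E → K') (S : Set E) (s : Finset I) (f : I → K')
    (h : ∀ i ∈ s, CInC ι x S (f i)) : CInC ι x S (∑ i ∈ s, f i) :=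
  Finset.sum_induction f (fun y => CInC ι x S y) (fun y z hy hz => cs_add ι x S y z hy hz)
    (cs_zero ι x S) h

theorem cs_mul {K K' E : Type} [DivisionRing K] [DivisionRing K'] [AddCommGroup E]
    {ι : K →+* K'} {x : E → K'} (h : Cross ι x) (S T U : Set E)
    (hU : ∀ s ∈ S, ∀ t ∈ T, s + t ∈ U) (y z : K') (hy : CInC ι x S y)
    (hz : CInC ι x T z) : CInC ι x U (y * z) := by
  obtain ⟨a, ha, rfl⟩ := hy
  obtain ⟨b, hb, rfl⟩ := hz
  have e : comb ι x a * comb ι x b =
      ∑ v ∈ a.support, ∑ w ∈ b.support, (ι (a v) * x v) * (ι (b w) * x w) := by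
    unfold comb Finsupp.sum
    rw [Finset.sum_mul_sum]
  rw [e]
  apply cs_sum
  intro v hv
  apply cs_sum
  intro w hw
  obtain ⟨τ, hτ⟩ := h.norm v
  obtain ⟨c, hc⟩ := h.mul v w
  refine ⟨Finsupp.single (v + w) (a v * τ (b w) * c), ?_, ?_⟩
  · intro u hu
    have := Finsupp.support_single_subset hu
    rw [Finset.mem_singleton] at this
    rw [this]
    exact hU v (ha v hv) w (hb w hw)
  · rw [cs_comb_single, map_mul, map_mul]
    calc (ι (a v) * x v) * (ι (b w) * x w) = ι (a v) * (x v * ι (b w)) * x w := by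
          simp only [mul_assoc]
      _ = ι (a v) * ι (τ (b w)) * (x v * x w) := by rw [hτ]; simp only [mul_assoc]
      _ = ι (a v) * ι (τ (b w)) * ι c * x (v + w) := by rw [hc]; simp only [mul_assoc]

/-- common left multiples inside the crossed product of a subgroup. -/
theorem common_sub {K K' E : Type} [DivisionRing K] [DivisionRing K'] [AddCommGroup E]
    {ι : K →+* K'} {x : E → K'} (h : Cross ι x) (E₁ : AddSubgroup E) (a b : E →₀ K)
    (ha : a ≠ 0) (hb : b ≠ 0) (ha₁ : ∀ v ∈ a.support, v ∈ E₁) (hb₁ : ∀ v ∈ b.support, v ∈ E₁) :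
    ∃ p q : E →₀ K, p ≠ 0 ∧ q ≠ 0 ∧ (∀ v ∈ p.support, v ∈ E₁) ∧ (∀ v ∈ q.support, v ∈ E₁) ∧
      comb ι x p * comb ι x a = comb ι x q * comb ι x b := by
  classical
  obtain ⟨p, q, hp, hq, hpq⟩ := comb_common h a b ha hb
  obtain ⟨e, he⟩ := Finsupp.support_nonempty_iff.2 hp
  let C : Set E := {v | v - e ∈ E₁}
  have hsplit : ∀ r : E →₀ K, comb ι x r =
      comb ι x (r.filter (fun v => v ∈ C)) + comb ι x (r.filter (fun v => ¬ v ∈ C)) := by
    intro r
    rw [← cs_comb_add, Finsupp.filter_add_filter_not]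
  have hC1 : ∀ r : E →₀ K, CInC ι x C (comb ι x (r.filter (fun v => v ∈ C))) := by
    intro r
    refine ⟨_, ?_, rfl⟩
    intro v hv
    rw [Finsupp.support_filter, Finset.mem_filter] at hv
    exact hv.2
  have hC2 : ∀ r : E →₀ K, CInC ι x Cᶜ (comb ι x (r.filter (fun v => ¬ v ∈ C))) := by
    intro r
    refine ⟨_, ?_, rfl⟩
    intro v hv
    rw [Finsupp.support_filter, Finset.mem_filter] at hv
    exact hv.2
  have hA1 : CInC ι x (E₁ : Set E) (comb ι x a) := ⟨a, ha₁, rfl⟩
  have hB1 : CInC ι x (E₁ : Set E) (comb ι x b) := ⟨b, hb₁, rfl⟩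
  have hCE : ∀ s ∈ C, ∀ t ∈ (E₁ : Set E), s + t ∈ C := by
    intro s hs t ht
    show s + t - e ∈ E₁
    have : s + t - e = (s - e) + t := by abel
    rw [this]
    exact E₁.add_mem hs ht
  have hCE' : ∀ s ∈ Cᶜ, ∀ t ∈ (E₁ : Set E), s + t ∈ Cᶜ := by
    intro s hs t ht hst
    apply hs
    show s - e ∈ E₁
    have : s - e = (s + t - e) - t := by abel
    rw [this]
    exact E₁.sub_mem hst ht
  have hX1 := cs_mul h C (E₁ : Set E) C hCE _ _ (hC1 p) hA1
  have hX2 := cs_mul h Cᶜ (E₁ : Set E) Cᶜ hCE' _ _ (hC2 p) hA1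
  have hY1 := cs_mul h C (E₁ : Set E) C hCE _ _ (hC1 q) hB1
  have hY2 := cs_mul h Cᶜ (E₁ : Set E) Cᶜ hCE' _ _ (hC2 q) hB1
  have hsum : comb ι x (p.filter (fun v => v ∈ C)) * comb ι x a
        + -(comb ι x (q.filter (fun v => v ∈ C)) * comb ι x b) =
      comb ι x (q.filter (fun v => ¬ v ∈ C)) * comb ι x b
        + -(comb ι x (p.filter (fun v => ¬ v ∈ C)) * comb ι x a) := by
    rw [hsplit p, hsplit q, add_mul, add_mul] at hpq
    rw [← sub_eq_add_neg, ← sub_eq_add_neg, sub_eq_sub_iff_add_eq_add, hpq, add_comm]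
  have hL := cs_add ι x C _ _ hX1 (cs_neg ι x C _ hY1)
  have hR := cs_add ι x Cᶜ _ _ hY2 (cs_neg ι x Cᶜ _ hX2)
  rw [← hsum] at hR
  obtain ⟨u, hu, hu'⟩ := hL
  obtain ⟨v, hv, hv'⟩ := hR
  have huv : u + -v = 0 := by
    apply h.indep
    rw [cs_comb_add, cs_comb_neg, ← hu', ← hv', add_neg_cancel]
  have huv' : u = v := by
    rw [← sub_eq_add_neg] at huv
    exact sub_eq_zero.1 huv
  have hu0 : u = 0 := by
    rw [← Finsupp.support_eq_empty, Finset.eq_empty_iff_forall_notMem]
    intro w hw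
    have h1 := hu w hw
    rw [huv'] at hw
    exact hv w hw h1
  have hmain : comb ι x (p.filter (fun v => v ∈ C)) * comb ι x a =
      comb ι x (q.filter (fun v => v ∈ C)) * comb ι x b := by
    have h0 : comb ι x (0 : E →₀ K) = 0 := by
      unfold comb
      exact Finsupp.sum_zero_index
    rw [hu0, h0, ← sub_eq_add_neg] at hu'
    exact sub_eq_zero.1 hu'
  -- translate back
  have hxs : CInC ι x ({-e} : Set E) (x (-e)) := by
    refine ⟨Finsupp.single (-e) 1, ?_, ?_⟩
    · intro w hw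
      have := Finsupp.support_single_subset hw
      rw [Finset.mem_singleton] at this
      exact this
    · rw [cs_comb_single, map_one, one_mul]
  have hEC : ∀ s ∈ ({-e} : Set E), ∀ t ∈ C, s + t ∈ (E₁ : Set E) := by
    intro s hs t ht
    rw [Set.mem_singleton_iff] at hs
    rw [hs, neg_add_eq_sub]
    exact ht
  obtain ⟨p', hp', hp''⟩ := cs_mul h _ _ _ hEC _ _ hxs (hC1 p)
  obtain ⟨q', hq', hq''⟩ := cs_mul h _ _ _ hEC _ _ hxs (hC1 q)
  have hne : ∀ r : E →₀ K, r ≠ 0 → comb ι x r ≠ 0 := fun r hr h0 => hr (h.indep r h0)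
  have h00 : comb ι x (0 : E →₀ K) = 0 := by
    unfold comb
    exact Finsupp.sum_zero_index
  have hpf : p.filter (fun v => v ∈ C) ≠ 0 := by
    intro h0
    have h1 : (p.filter (fun v => v ∈ C)) e = p e := Finsupp.filter_apply_pos _ _ (by
      show e - e ∈ E₁
      rw [sub_self]
      exact E₁.zero_mem)
    rw [h0] at h1
    exact (Finsupp.mem_support_iff.1 he) h1.symm
  have hp0 : p' ≠ 0 := by
    intro h0
    rw [h0, h00] at hp''
    rcases mul_eq_zero.1 hp'' with h1 | h1
    · exact h.ne _ h1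
    · exact hne _ hpf h1
  have hfin : comb ι x p' * comb ι x a = comb ι x q' * comb ι x b := by
    rw [← hp'', ← hq'', mul_assoc, mul_assoc, hmain]
  have hq0 : q' ≠ 0 := by
    intro h0
    rw [h0, h00, zero_mul] at hfin
    rcases mul_eq_zero.1 hfin with h1 | h1
    · exact hne _ hp0 h1
    · exact hne _ ha h1
  exact ⟨p', q', hp0, hq0, hp', hq', hfin⟩

end Pool.Agent.Helper933.HC
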