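import Pool.Agent.Helper933.HC.Defs
import Pool.Agent.Helper933.HC.P_common_sub

set_option autoImplicit false

namespace Pool.Agent.Helper933.HC
open Module


section aux303
variable {K K' E : Type} [DivisionRing K] [DivisionRing K'] [AddCommGroup E]
  {ι : K →+* K'} {x : E → K'}

theorem comb_zero303 : comb ι x (0 : E →₀ K) = 0 := by
  unfold comb
  rw [Finsupp.sum_zero_index]

theorem comb_add303 (a b : E →₀ K) : comb ι x (a + b) = comb ι x a + comb ι x b := by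
  unfold comb
  classical
  refine Finsupp.sum_add_index' (fun v => ?_) (fun v k k' => ?_)
  · rw [map_zero, zero_mul]
  · rw [map_add, add_mul]

theorem comb_neg303 (a : E →₀ K) : comb ι x (-a) = -comb ι x a := by
  have h := comb_add303 (ι := ι) (x := x) (-a) a
  rw [neg_add_cancel, comb_zero303] at h
  exact eq_neg_of_add_eq_zero_left h.symm

theorem comb_single303 (v : E) (k : K) : comb ι x (Finsupp.single v k) = ι k * x v := by
  unfold comb
  rw [Finsupp.sum_single_index]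
  rw [map_zero, zero_mul]

/-- combinations supported in `E₁` -/
def CC303 (ι : K →+* K') (x : E → K') (E₁ : AddSubgroup E) : AddSubgroup K' where
  carrier := {y | ∃ a : E →₀ K, (∀ v ∈ a.support, v ∈ E₁) ∧ y = comb ι x a}
  zero_mem' := ⟨0, by simp, comb_zero303.symm⟩
  add_mem' := by
    classical
    rintro y z ⟨a, ha, rfl⟩ ⟨b, hb, rfl⟩
    refine ⟨a + b, fun v hv => ?_, (comb_add303 a b).symm⟩
    rcases Finset.mem_union.1 (Finsupp.support_add hv) with h | h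
    · exact ha v h
    · exact hb v h
  neg_mem' := by
    rintro y ⟨a, ha, rfl⟩
    refine ⟨-a, fun v hv => ha v ?_, (comb_neg303 a).symm⟩
    rwa [Finsupp.support_neg] at hv

theorem mul_mem303 (h : Cross ι x) (E₁ : AddSubgroup E) {y z : K'} (hy : y ∈ CC303 ι x E₁)
    (hz : z ∈ CC303 ι x E₁) : y * z ∈ CC303 ι x E₁ := by
  obtain ⟨a, ha, rfl⟩ := hy
  obtain ⟨b, hb, rfl⟩ := hz
  unfold comb Finsupp.sum
  rw [Finset.sum_mul_sum]
  refine sum_mem fun v hv => sum_mem fun w hw => ?_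
  obtain ⟨τ, hτ⟩ := h.norm v
  obtain ⟨c, hc⟩ := h.mul v w
  classical
  refine ⟨Finsupp.single (v + w) (a v * τ (b w) * c), fun u hu => ?_, ?_⟩
  · have h1 := Finsupp.support_single_subset hu
    rw [Finset.mem_singleton] at h1
    rw [h1]
    exact E₁.add_mem (ha v hv) (hb w hw)
  · rw [comb_single303]
    calc ι (a v) * x v * (ι (b w) * x w) = ι (a v) * (x v * ι (b w)) * x w := by
          simp only [mul_assoc]
      _ = ι (a v) * ι (τ (b w)) * (x v * x w) := by rw [hτ]; simp only [mul_assoc]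
      _ = ι (a v * τ (b w) * c) * x (v + w) := by rw [hc]; simp only [map_mul, mul_assoc]

theorem common303 (h : Cross ι x) (E₁ : AddSubgroup E) {y z : K'} (hy : y ∈ CC303 ι x E₁)
    (hz : z ∈ CC303 ι x E₁) (hy0 : y ≠ 0) (hz0 : z ≠ 0) :
    ∃ P ∈ CC303 ι x E₁, ∃ Q ∈ CC303 ι x E₁, P ≠ 0 ∧ Q ≠ 0 ∧ P * y = Q * z := by
  obtain ⟨a, ha, rfl⟩ := hy
  obtain ⟨b, hb, rfl⟩ := hz
  have ha0 : a ≠ 0 := by rintro rfl; exact hy0 comb_zero303
  have hb0 : b ≠ 0 := by rintro rfl; exact hz0 comb_zero303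
  obtain ⟨p, q, hp0, hq0, hp, hq, he⟩ := common_sub h E₁ a b ha0 hb0 ha hb
  exact ⟨comb ι x p, ⟨p, hp, rfl⟩, comb ι x q, ⟨q, hq, rfl⟩, fun h1 => hp0 (h.indep p h1),
    fun h1 => hq0 (h.indep q h1), he⟩

theorem mem_iff303 (E₁ : AddSubgroup E) (κ : K') :
    (∃ A ∈ CC303 ι x E₁, ∃ B ∈ CC303 ι x E₁, A ≠ 0 ∧ A * κ = B) ↔
    ∃ a b : E →₀ K, (∀ v ∈ a.support, v ∈ E₁) ∧
      (∀ v ∈ b.support, v ∈ E₁) ∧ comb ι x a ≠ 0 ∧ comb ι x a * κ = comb ι x b := by
  constructor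
  · rintro ⟨A, ⟨a, ha, rfl⟩, B, ⟨b, hb, rfl⟩, h1, h2⟩
    exact ⟨a, b, ha, hb, h1, h2⟩
  · rintro ⟨a, b, ha, hb, h1, h2⟩
    exact ⟨_, ⟨a, ha, rfl⟩, _, ⟨b, hb, rfl⟩, h1, h2⟩

end aux303

/-- the division ring of fractions of the crossed product of a subgroup. -/
theorem subfield_exists {K K' E : Type} [DivisionRing K] [DivisionRing K'] [AddCommGroup E]
    {ι : K →+* K'} {x : E → K'} (h : Cross ι x) (E₁ : AddSubgroup E) :
    ∃ S : Subfield K', ∀ κ, κ ∈ S ↔ ∃ a b : E →₀ K, (∀ v ∈ a.support, v ∈ E₁) ∧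
      (∀ v ∈ b.support, v ∈ E₁) ∧ comb ι x a ≠ 0 ∧ comb ι x a * κ = comb ι x b := by
  have hx0 : x 0 ∈ CC303 ι x E₁ := by
    classical
    refine ⟨Finsupp.single 0 1, fun v hv => ?_, by rw [comb_single303, map_one, one_mul]⟩
    have h1 := Finsupp.support_single_subset hv
    rw [Finset.mem_singleton] at h1
    rw [h1]
    exact E₁.zero_mem
  refine ⟨{ carrier := {κ | ∃ A ∈ CC303 ι x E₁, ∃ B ∈ CC303 ι x E₁, A ≠ 0 ∧ A * κ = B}
            one_mem' := ⟨x 0, hx0, x 0, hx0, h.ne 0, mul_one _⟩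
            zero_mem' := ⟨x 0, hx0, 0, zero_mem _, h.ne 0, mul_zero _⟩
            mul_mem' := ?_
            add_mem' := ?_
            neg_mem' := ?_
            inv_mem' := ?_ }, fun κ => ?_⟩
  · rintro κ κ' ⟨A, hA, B, hB, hA0, he⟩ ⟨A', hA', B', hB', hA0', he'⟩
    by_cases hB0 : B = 0
    · rw [hB0] at he
      have h1 : κ = 0 := (mul_eq_zero.1 he).resolve_left hA0
      rw [h1, zero_mul]
      exact ⟨A, hA, 0, zero_mem _, hA0, mul_zero _⟩
    · obtain ⟨P, hP, Q, hQ, hP0, hQ0, hPQ⟩ := common303 h E₁ hB hA' hB0 hA0'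
      refine ⟨P * A, mul_mem303 h E₁ hP hA, Q * B', mul_mem303 h E₁ hQ hB',
        mul_ne_zero hP0 hA0, ?_⟩
      calc P * A * (κ * κ') = P * (A * κ) * κ' := by simp only [mul_assoc]
        _ = Q * A' * κ' := by rw [he, hPQ]
        _ = Q * B' := by rw [mul_assoc, he']
  · rintro κ κ' ⟨A, hA, B, hB, hA0, he⟩ ⟨A', hA', B', hB', hA0', he'⟩
    obtain ⟨P, hP, Q, hQ, hP0, hQ0, hPQ⟩ := common303 h E₁ hA hA' hA0 hA0'
    refine ⟨P * A, mul_mem303 h E₁ hP hA, P * B + Q * B',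
      add_mem (mul_mem303 h E₁ hP hB) (mul_mem303 h E₁ hQ hB'), mul_ne_zero hP0 hA0, ?_⟩
    rw [mul_add, mul_assoc, he, hPQ, mul_assoc, he']
  · rintro κ ⟨A, hA, B, hB, hA0, he⟩
    exact ⟨A, hA, -B, neg_mem hB, hA0, by rw [mul_neg, he]⟩
  · rintro κ ⟨A, hA, B, hB, hA0, he⟩
    by_cases hκ : κ = 0
    · rw [hκ, inv_zero]
      exact ⟨x 0, hx0, 0, zero_mem _, h.ne 0, mul_zero _⟩
    · refine ⟨B, hB, A, hA, ?_, ?_⟩
      · rw [← he]
        exact mul_ne_zero hA0 hκ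
      · rw [← he, mul_assoc, mul_inv_cancel₀ hκ, mul_one]
  · exact mem_iff303 E₁ κ

end Pool.Agent.Helper933.HC
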