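import Pool.Agent.Helper933.HC.Defs
import Pool.Agent.Helper933.HC.P_common_sub
import Pool.Agent.Helper933.HC.P_subfield_exists

set_option autoImplicit false

namespace Pool.Agent.Helper933.HC
open Module


section XS
variable {K K' E : Type} [DivisionRing K] [DivisionRing K'] [AddCommGroup E]

theorem xs_comb_add (ι : K →+* K') (x : E → K') (a b : E →₀ K) :
    comb ι x (a + b) = comb ι x a + comb ι x b := by
  unfold comb
  rw [Finsupp.sum_add_index']
  · intro v; simp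
  · intro v k k'; simp [add_mul]

theorem xs_comb_single (ι : K →+* K') (x : E → K') (v : E) (k : K) :
    comb ι x (Finsupp.single v k) = ι k * x v := by
  unfold comb
  rw [Finsupp.sum_single_index]; simp

/-- `comb` as an additive map. -/
def xsC (ι : K →+* K') (x : E → K') : (E →₀ K) →+ K' where
  toFun := comb ι x
  map_zero' := by simp [comb]
  map_add' := xs_comb_add ι x

theorem xsC_apply (ι : K →+* K') (x : E → K') (a : E →₀ K) : xsC ι x a = comb ι x a := rfl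

/-- combinations supported in `F`. -/
def xsL (ι : K →+* K') (x : E → K') (F : Set E) : AddSubmonoid K' :=
  AddSubmonoid.closure {y | ∃ k, ∃ v ∈ F, y = ι k * x v}

theorem xsL_gen {ι : K →+* K'} {x : E → K'} {F : Set E} (k : K) {v : E} (hv : v ∈ F) :
    ι k * x v ∈ xsL ι x F := AddSubmonoid.subset_closure ⟨k, v, hv, rfl⟩

theorem xsL_of_comb {ι : K →+* K'} {x : E → K'} {F : Set E} (a : E →₀ K)
    (ha : ∀ v ∈ a.support, v ∈ F) : comb ι x a ∈ xsL ι x F := by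
  unfold comb Finsupp.sum
  exact AddSubmonoid.sum_mem _ (fun v hv => xsL_gen _ (ha v hv))

theorem xsL_comb {ι : K →+* K'} {x : E → K'} {F : Set E} {y : K'} (hy : y ∈ xsL ι x F) :
    ∃ a : E →₀ K, (∀ v ∈ a.support, v ∈ F) ∧ comb ι x a = y := by
  classical
  unfold xsL at hy
  induction hy using AddSubmonoid.closure_induction with
  | mem y hy => 
    obtain ⟨k, v, hv, rfl⟩ := hy
    refine ⟨Finsupp.single v k, ?_, xs_comb_single ι x v k⟩
    intro w hw
    have := Finsupp.support_single_subset hw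
    rw [Finset.mem_singleton] at this
    subst this; exact hv
  | zero => exact ⟨0, by simp, by simp [comb]⟩
  | add y z _ _ hy hz => 
    obtain ⟨a, ha, rfl⟩ := hy
    obtain ⟨b, hb, rfl⟩ := hz
    refine ⟨a + b, ?_, xs_comb_add ι x a b⟩
    intro v hv
    rcases Finset.mem_union.1 (Finsupp.support_add hv) with h | h
    · exact ha v h
    · exact hb v h

theorem xsL_map {ι : K →+* K'} {x : E → K'} {F F' : Set E} (f : K' →+ K')
    (hf : ∀ k, ∀ v ∈ F, f (ι k * x v) ∈ xsL ι x F') {y : K'} (hy : y ∈ xsL ι x F) :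
    f y ∈ xsL ι x F' := by
  unfold xsL at hy
  induction hy using AddSubmonoid.closure_induction with
  | mem y hy => obtain ⟨k, v, hv, rfl⟩ := hy; exact hf k v hv
  | zero => rw [map_zero]; exact zero_mem _
  | add y z _ _ hy hz => rw [map_add]; exact add_mem hy hz

theorem xsL_smul {ι : K →+* K'} {x : E → K'} {F : Set E} (c : K) {y : K'}
    (hy : y ∈ xsL ι x F) : ι c * y ∈ xsL ι x F := by
  refine xsL_map (AddMonoidHom.mulLeft (ι c)) ?_ hy
  intro k v hv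
  rw [AddMonoidHom.coe_mulLeft, ← mul_assoc, ← map_mul]
  exact xsL_gen _ hv

theorem xsL_mul {ι : K →+* K'} {x : E → K'} (h : Cross ι x) {F F' F'' : Set E}
    (hF : ∀ v ∈ F, ∀ w ∈ F', v + w ∈ F'') {y z : K'}
    (hy : y ∈ xsL ι x F) (hz : z ∈ xsL ι x F') : y * z ∈ xsL ι x F'' := by
  refine xsL_map (AddMonoidHom.mulLeft y) ?_ hz
  intro k' w hw
  rw [AddMonoidHom.coe_mulLeft]
  refine xsL_map (AddMonoidHom.mulRight (ι k' * x w)) ?_ hy
  intro k v hv
  obtain ⟨τ, hτ⟩ := h.norm v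
  obtain ⟨c, hc⟩ := h.mul v w
  have e : (AddMonoidHom.mulRight (ι k' * x w)) (ι k * x v) = ι (k * τ k' * c) * x (v + w) := by
    rw [AddMonoidHom.mulRight_apply]
    calc ι k * x v * (ι k' * x w) = ι k * (x v * ι k') * x w := by simp only [mul_assoc]
      _ = ι k * (ι (τ k') * x v) * x w := by rw [hτ]
      _ = ι k * ι (τ k') * (x v * x w) := by simp only [mul_assoc]
      _ = ι k * ι (τ k') * (ι c * x (v + w)) := by rw [hc]
      _ = _ := by simp only [map_mul, mul_assoc]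
  rw [e]
  exact xsL_gen _ (hF v hv w hw)

theorem xs_zero {ι : K →+* K'} {x : E → K'} (h : Cross ι x) : ∃ c : K, c ≠ 0 ∧ x 0 = ι c := by
  obtain ⟨c, hc⟩ := h.mul 0 0
  rw [add_zero] at hc
  have h0 := h.ne 0
  have e : x 0 = ι c := mul_right_cancel₀ h0 hc
  refine ⟨c, ?_, e⟩
  rintro rfl
  exact h0 (by rw [e, map_zero])

/-- splitting off. -/
theorem xs_split {ι : K →+* K'} {x : E → K'} (h : Cross ι x) (e f : E) :
    ∃ c : K, c ≠ 0 ∧ x (e + f) = ι c * x e * x f := by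
  obtain ⟨c, hc⟩ := h.mul e f
  have hc0 : c ≠ 0 := by
    rintro rfl
    rw [map_zero, zero_mul] at hc
    exact mul_ne_zero (h.ne e) (h.ne f) hc
  refine ⟨c⁻¹, inv_ne_zero hc0, ?_⟩
  rw [mul_assoc, hc, ← mul_assoc, ← map_mul, inv_mul_cancel₀ hc0, map_one, one_mul]

theorem xs_conj {ι : K →+* K'} {x : E → K'} (h : Cross ι x) (w v : E) :
    ∃ d : K, d ≠ 0 ∧ x w * x v = ι d * x v * x w := by
  obtain ⟨c, hc⟩ := h.mul w v
  obtain ⟨c', hc', e⟩ := xs_split h v w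
  have hc0 : c ≠ 0 := by
    rintro rfl
    rw [map_zero, zero_mul] at hc
    exact mul_ne_zero (h.ne w) (h.ne v) hc
  refine ⟨c * c', mul_ne_zero hc0 hc', ?_⟩
  rw [hc, add_comm w v, e, map_mul]
  simp only [mul_assoc]

/-- conjugation in a division ring. -/
def xsConj (u : K') (hu : u ≠ 0) : K' ≃+* K' where
  toFun y := u * y * u⁻¹
  invFun y := u⁻¹ * y * u
  left_inv y := by
    show u⁻¹ * (u * y * u⁻¹) * u = y
    rw [mul_assoc u, inv_mul_cancel_left₀ hu, mul_assoc, inv_mul_cancel₀ hu, mul_one]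
  right_inv y := by
    show u * (u⁻¹ * y * u) * u⁻¹ = y
    rw [mul_assoc u⁻¹, mul_inv_cancel_left₀ hu, mul_assoc, mul_inv_cancel₀ hu, mul_one]
  map_mul' y z := by
    show u * (y * z) * u⁻¹ = u * y * u⁻¹ * (u * z * u⁻¹)
    simp only [mul_assoc]
    rw [inv_mul_cancel_left₀ hu]
  map_add' y z := by
    show u * (y + z) * u⁻¹ = u * y * u⁻¹ + u * z * u⁻¹
    rw [mul_add, add_mul]

theorem xsConj_apply (u : K') (hu : u ≠ 0) (y : K') : xsConj u hu y = u * y * u⁻¹ := rfl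

theorem xsConj_symm (u : K') (hu : u ≠ 0) (y : K') : (xsConj u hu).symm y = u⁻¹ * y * u := rfl

theorem xs_restr (f : K' ≃+* K') (S : Subfield K') (h1 : ∀ κ ∈ S, f κ ∈ S)
    (h2 : ∀ κ ∈ S, f.symm κ ∈ S) : ∃ g : S ≃+* S, ∀ κ : S, ((g κ : S) : K') = f κ :=
  ⟨{ toFun := fun κ => ⟨f κ, h1 κ κ.2⟩
     invFun := fun κ => ⟨f.symm κ, h2 κ κ.2⟩
     left_inv := fun κ => Subtype.ext (by simp)
     right_inv := fun κ => Subtype.ext (by simp)
     map_mul' := fun κ κ' => Subtype.ext (by simp)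
     map_add' := fun κ κ' => Subtype.ext (by simp) }, fun κ => rfl⟩

theorem xs_Smap {ι : K →+* K'} {x : E → K'} {E₁ : AddSubgroup E} {S : Subfield K'}
    (hS : ∀ κ, κ ∈ S ↔ ∃ a b : E →₀ K, (∀ v ∈ a.support, v ∈ E₁) ∧
      (∀ v ∈ b.support, v ∈ E₁) ∧ comb ι x a ≠ 0 ∧ comb ι x a * κ = comb ι x b)
    (f : K' ≃+* K') (hf : ∀ k, ∀ v ∈ E₁, f (ι k * x v) ∈ xsL ι x (E₁ : Set E)) :
    ∀ κ ∈ S, f κ ∈ S := by
  have hf' : ∀ y ∈ xsL ι x (E₁ : Set E), f y ∈ xsL ι x (E₁ : Set E) := by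
    intro y hy
    exact xsL_map (f : K' →+* K').toAddMonoidHom hf hy
  intro κ hκ
  obtain ⟨a, b, ha, hb, h0, he⟩ := (hS κ).1 hκ
  obtain ⟨a', ha', ea⟩ := xsL_comb (hf' _ (xsL_of_comb a ha))
  obtain ⟨b', hb', eb⟩ := xsL_comb (hf' _ (xsL_of_comb b hb))
  refine (hS _).2 ⟨a', b', ha', hb', ?_, ?_⟩
  · rw [ea]
    exact (map_ne_zero f).2 h0
  · rw [ea, eb, ← map_mul, he]

theorem xs_conjS {ι : K →+* K'} {x : E → K'} (h : Cross ι x) {E₁ : AddSubgroup E} {S : Subfield K'}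
    (hS : ∀ κ, κ ∈ S ↔ ∃ a b : E →₀ K, (∀ v ∈ a.support, v ∈ E₁) ∧
      (∀ v ∈ b.support, v ∈ E₁) ∧ comb ι x a ≠ 0 ∧ comb ι x a * κ = comb ι x b) (w : E) :
    ∃ g : S ≃+* S, ∀ κ : S, x w * κ = ((g κ : S) : K') * x w := by
  have hw := h.ne w
  obtain ⟨τ, hτ⟩ := h.norm w
  obtain ⟨g, hg⟩ := xs_restr (xsConj (x w) hw) S
    (by
      refine xs_Smap hS _ ?_
      intro k v hv
      obtain ⟨d, -, hd⟩ := xs_conj h w v
      have e : xsConj (x w) hw (ι k * x v) = ι (τ k * d) * x v := by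
        rw [xsConj_apply]
        calc x w * (ι k * x v) * (x w)⁻¹ = (x w * ι k) * x v * (x w)⁻¹ := by
              simp only [mul_assoc]
          _ = ι (τ k) * (x w * x v) * (x w)⁻¹ := by rw [hτ]; simp only [mul_assoc]
          _ = ι (τ k) * ι d * x v * (x w * (x w)⁻¹) := by rw [hd]; simp only [mul_assoc]
          _ = _ := by rw [mul_inv_cancel₀ hw, mul_one, map_mul]
      rw [e]; exact xsL_gen _ hv)
    (by
      refine xs_Smap hS _ ?_
      intro k v hv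
      obtain ⟨d, hd0, hd⟩ := xs_conj h w v
      have e : (xsConj (x w) hw).symm (ι k * x v) = ι (τ.symm (k * d⁻¹)) * x v := by
        rw [RingEquiv.symm_apply_eq, xsConj_apply, ← mul_assoc (x w), hτ, RingEquiv.apply_symm_apply,
          mul_assoc (ι (k * d⁻¹)), hd, map_mul]
        calc ι k * x v = ι k * (ι d⁻¹ * ι d) * x v * (x w * (x w)⁻¹) := by
              rw [← map_mul, inv_mul_cancel₀ hd0, map_one, mul_one, mul_inv_cancel₀ hw, mul_one]
          _ = _ := by simp only [mul_assoc]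
      rw [e]; exact xsL_gen _ hv)
  refine ⟨g, fun κ => ?_⟩
  rw [hg, xsConj_apply, mul_assoc, mul_assoc, inv_mul_cancel₀ hw, mul_one]

theorem xs_LS {ι : K →+* K'} {x : E → K'} (h : Cross ι x) {E₁ : AddSubgroup E} {S : Subfield K'}
    (hS : ∀ κ, κ ∈ S ↔ ∃ a b : E →₀ K, (∀ v ∈ a.support, v ∈ E₁) ∧
      (∀ v ∈ b.support, v ∈ E₁) ∧ comb ι x a ≠ 0 ∧ comb ι x a * κ = comb ι x b) {y : K'}
    (hy : y ∈ xsL ι x (E₁ : Set E)) : y ∈ S := by
  obtain ⟨c, hc0, hc⟩ := xs_zero h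
  have h1 : ι 1 * x 0 ∈ xsL ι x (E₁ : Set E) := xsL_gen 1 E₁.zero_mem
  obtain ⟨a, ha, ea⟩ := xsL_comb h1
  have h2 : ι c * y ∈ xsL ι x (E₁ : Set E) := xsL_smul c hy
  obtain ⟨b, hb, eb⟩ := xsL_comb h2
  refine (hS y).2 ⟨a, b, ha, hb, ?_, ?_⟩
  · rw [ea, map_one, one_mul]; exact h.ne 0
  · rw [ea, eb, map_one, one_mul, hc]

theorem xs_ιS {ι : K →+* K'} {x : E → K'} (h : Cross ι x) {E₁ : AddSubgroup E} (k : K) :
    ι k ∈ xsL ι x (E₁ : Set E) := by
  obtain ⟨c, hc0, hc⟩ := xs_zero h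
  have e : ι k = ι (k * c⁻¹) * x 0 := by
    rw [hc, ← map_mul, mul_assoc, inv_mul_cancel₀ hc0, mul_one]
  rw [e]
  exact xsL_gen _ E₁.zero_mem

/-- common denominators. -/
theorem xs_den {ι : K →+* K'} {x : E → K'} (h : Cross ι x) {E₁ : AddSubgroup E} {S : Subfield K'}
    (hS : ∀ κ, κ ∈ S ↔ ∃ a b : E →₀ K, (∀ v ∈ a.support, v ∈ E₁) ∧
      (∀ v ∈ b.support, v ∈ E₁) ∧ comb ι x a ≠ 0 ∧ comb ι x a * κ = comb ι x b)
    {J : Type} (T : Finset J) (κ : J → K') (hκ : ∀ j, κ j ∈ S) :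
    ∃ D : K', D ≠ 0 ∧ D ∈ xsL ι x (E₁ : Set E) ∧
      ∀ j ∈ T, D * κ j ∈ xsL ι x (E₁ : Set E) := by
  classical
  have hmul : ∀ y ∈ xsL ι x (E₁ : Set E), ∀ z ∈ xsL ι x (E₁ : Set E),
      y * z ∈ xsL ι x (E₁ : Set E) := fun y hy z hz =>
    xsL_mul h (fun v hv w hw => E₁.add_mem hv hw) hy hz
  induction T using Finset.induction_on with
  | empty =>
    exact ⟨ι 1, by rw [map_one]; exact one_ne_zero, xs_ιS h 1, by simp⟩
  | insert j T hj ih =>
    obtain ⟨D, hD0, hD, hT⟩ := ih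
    obtain ⟨d, hd, ed⟩ := xsL_comb hD
    obtain ⟨a, b, ha, hb, ha0, hab⟩ := (hS (κ j)).1 (hκ j)
    obtain ⟨p, q, hp0, hq0, hp, hq, hpq⟩ := common_sub h E₁ d a
      (by rintro rfl; exact hD0 (by rw [← ed]; simp [comb]))
      (by rintro rfl; exact ha0 (by simp [comb])) hd ha
    have hp' : comb ι x p ≠ 0 := fun hh => hp0 (h.indep p hh)
    refine ⟨comb ι x p * D, mul_ne_zero hp' hD0, hmul _ (xsL_of_comb p hp) _ hD, ?_⟩
    intro i hi
    rcases Finset.mem_insert.1 hi with rfl | hi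
    · rw [← ed, hpq, mul_assoc, hab]
      exact hmul _ (xsL_of_comb q hq) _ (xsL_of_comb b hb)
    · rw [mul_assoc]
      exact hmul _ (xsL_of_comb p hp) _ (hT i hi)

/-- independence of the pieces over the cosets. -/
theorem xs_ind {ι : K →+* K'} {x : E → K'} (h : Cross ι x) {E₁ : AddSubgroup E}
    (T : Finset (E ⧸ E₁)) (z : (E ⧸ E₁) → K')
    (hz : ∀ q ∈ T, z q ∈ xsL ι x {v | (v : E ⧸ E₁) = q}) (h0 : ∑ q ∈ T, z q = 0) :
    ∀ q ∈ T, z q = 0 := by
  classical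
  have hb : ∀ q, ∃ b : E →₀ K, q ∈ T → ((∀ v ∈ b.support, (v : E ⧸ E₁) = q) ∧
      comb ι x b = z q) := by
    intro q
    by_cases hq : q ∈ T
    · obtain ⟨b, hb, e⟩ := xsL_comb (hz q hq)
      exact ⟨b, fun _ => ⟨hb, e⟩⟩
    · exact ⟨0, fun hh => absurd hh hq⟩
  choose b hb using hb
  have hs : ∑ q ∈ T, b q = 0 := by
    apply h.indep
    rw [← xsC_apply, map_sum, ← h0]
    apply Finset.sum_congr rfl
    intro q hq
    rw [xsC_apply]; exact (hb q hq).2
  intro q hq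
  rw [← (hb q hq).2]
  have : b q = 0 := by
    ext v
    rw [Finsupp.zero_apply]
    by_contra hv
    have hvq : (v : E ⧸ E₁) = q := (hb q hq).1 v (Finsupp.mem_support_iff.2 hv)
    have h1 := DFunLike.congr_fun hs v
    rw [Finsupp.finsetSum_apply, Finset.sum_eq_single q, Finsupp.zero_apply] at h1
    · exact hv h1
    · intro q' hq' hne
      by_contra hv'
      exact hne (((hb q' hq').1 v (Finsupp.mem_support_iff.2 hv')).symm.trans hvq)
    · intro hh; exact absurd hq hh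
  rw [this]; simp [comb]

theorem xs_out {ι : K →+* K'} {x : E → K'} (h : Cross ι x) {E₁ : AddSubgroup E} {S : Subfield K'}
    (hS : ∀ κ, κ ∈ S ↔ ∃ a b : E →₀ K, (∀ v ∈ a.support, v ∈ E₁) ∧
      (∀ v ∈ b.support, v ∈ E₁) ∧ comb ι x a ≠ 0 ∧ comb ι x a * κ = comb ι x b) (v : E)
    (q : E ⧸ E₁) (hq : (v : E ⧸ E₁) = q) :
    ∃ s : S, x v = (s : K') * x q.out := by
  have he : v - q.out ∈ E₁ := by
    have : ((q.out : E) : E ⧸ E₁) = (v : E ⧸ E₁) := by rw [hq]; exact Quotient.out_eq' q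
    have h2 := QuotientAddGroup.eq.1 this
    rwa [neg_add_eq_sub] at h2
  obtain ⟨c, -, hc⟩ := xs_split h (v - q.out) q.out
  rw [sub_add_cancel] at hc
  refine ⟨⟨ι c * x (v - q.out), xs_LS h hS (xsL_gen _ he)⟩, hc⟩

end XS

/-- splitting a crossed product along a subgroup `E₁` of `E`. -/
theorem cross_split {K K' E : Type} [DivisionRing K] [DivisionRing K'] [AddCommGroup E]
    {ι : K →+* K'} {x : E → K'} (h : Cross ι x) (E₁ : AddSubgroup E)
    {τ : K ≃+* K} {σ : K' ≃+* K'} {M : E ≃+ E} (hc : Compat ι x τ σ M)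
    (hM : ∀ v, M v ∈ E₁ ↔ v ∈ E₁) :
    ∃ (K₁ : Type) (_ : DivisionRing K₁) (ι₁ : K →+* K₁) (ι₂ : K₁ →+* K') (x₁ : E₁ → K₁)
      (σ₁ : K₁ ≃+* K₁) (M₁ : E₁ ≃+ E₁) (x₂ : (E ⧸ E₁) → K') (M₂ : (E ⧸ E₁) ≃+ (E ⧸ E₁)),
      (∀ k, ι₂ (ι₁ k) = ι k) ∧ (∀ v, ι₂ (x₁ v) = x v) ∧ (∀ κ, σ (ι₂ κ) = ι₂ (σ₁ κ)) ∧
      (∀ v : E₁, (M₁ v : E) = M v) ∧ (∀ v : E, M₂ (v : E ⧸ E₁) = ((M v : E) : E ⧸ E₁)) ∧
      Cross ι₁ x₁ ∧ Cross ι₂ x₂ ∧ Compat ι₁ x₁ τ σ₁ M₁ ∧ Compat ι₂ x₂ σ₁ σ M₂ := by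
  classical
  obtain ⟨S, hS⟩ := subfield_exists h E₁
  have hLS : ∀ y ∈ xsL ι x (E₁ : Set E), y ∈ S := fun y hy => xs_LS h hS hy
  have hιS : ∀ k, ι k ∈ S := fun k => hLS _ (xs_ιS h k)
  have hxS : ∀ v : E₁, x v ∈ S := fun v => by
    have := hLS _ (xsL_gen (ι := ι) (x := x) 1 v.2)
    rwa [map_one, one_mul] at this
  have hcne : ∀ v c, σ (x v) = ι c * x (M v) → c ≠ 0 := by
    rintro v c e rfl
    rw [map_zero, zero_mul] at e
    exact h.ne v ((map_eq_zero σ).1 e)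
  obtain ⟨σ₁, hσ₁⟩ := xs_restr σ S
    (by
      refine xs_Smap hS _ ?_
      intro k v hv
      obtain ⟨c, e⟩ := hc.gen v
      rw [map_mul, hc.base, e, ← mul_assoc, ← map_mul]
      exact xsL_gen _ ((hM v).2 hv))
    (by
      refine xs_Smap hS _ ?_
      intro k v hv
      obtain ⟨c, e⟩ := hc.gen (M.symm v)
      rw [AddEquiv.apply_symm_apply] at e
      have hc0 : c ≠ 0 := hcne _ c (by rw [AddEquiv.apply_symm_apply]; exact e)
      have e2 : σ.symm (ι k * x v) = ι (τ.symm (k * c⁻¹)) * x (M.symm v) := by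
        rw [RingEquiv.symm_apply_eq, map_mul, hc.base, RingEquiv.apply_symm_apply, e, ← mul_assoc,
          ← map_mul, mul_assoc k, inv_mul_cancel₀ hc0, mul_one]
      rw [e2]
      refine xsL_gen _ ?_
      have := hM (M.symm v)
      rw [AddEquiv.apply_symm_apply] at this
      exact this.1 hv)
  have hM' : ∀ v, M.symm v ∈ E₁ ↔ v ∈ E₁ := by
    intro v
    have := hM (M.symm v)
    rw [AddEquiv.apply_symm_apply] at this
    exact this.symm
  let M₁ : E₁ ≃+ E₁ :=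
    { toFun := fun v => ⟨M v, (hM v).2 v.2⟩
      invFun := fun v => ⟨M.symm v, (hM' v).2 v.2⟩
      left_inv := fun v => Subtype.ext (by simp)
      right_inv := fun v => Subtype.ext (by simp)
      map_add' := fun v w => Subtype.ext (by simp) }
  have hmap : E₁.map (M : E →+ E) = E₁ := by
    ext v
    constructor
    · rintro ⟨w, hw, rfl⟩
      exact (hM w).2 hw
    · intro hv
      exact ⟨M.symm v, (hM' v).2 hv, by simp⟩
  let M₂ : (E ⧸ E₁) ≃+ (E ⧸ E₁) := QuotientAddGroup.congr E₁ E₁ M hmap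
  have hM₂ : ∀ v : E, M₂ (v : E ⧸ E₁) = ((M v : E) : E ⧸ E₁) := fun v => rfl
  have hcomb1 : ∀ a : E₁ →₀ K,
      ((comb (ι.codRestrict S hιS) (fun v : E₁ => (⟨x v, hxS v⟩ : S)) a : S) : K') =
        comb ι x (a.mapDomain Subtype.val) := by
    intro a
    unfold comb
    rw [Finsupp.sum_mapDomain_index (by intro v; simp) (by intro v k k'; simp [add_mul])]
    unfold Finsupp.sum
    push_cast
    rfl
  have hL1 : ∀ y ∈ xsL ι x (E₁ : Set E), ∃ a : E₁ →₀ K,
      ((comb (ι.codRestrict S hιS) (fun v : E₁ => (⟨x v, hxS v⟩ : S)) a : S) : K') = y := by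
    intro y hy
    obtain ⟨a, ha, e⟩ := xsL_comb hy
    refine ⟨a.comapDomain Subtype.val Subtype.val_injective.injOn, ?_⟩
    rw [hcomb1, Finsupp.mapDomain_comapDomain _ Subtype.val_injective, e]
    intro v hv
    exact ⟨⟨v, ha v hv⟩, rfl⟩
  have hL2 : ∀ a : E →₀ K, ∃ a' : (E ⧸ E₁) →₀ S,
      comb S.subtype (fun q : E ⧸ E₁ => x q.out) a' = comb ι x a := by
    intro a
    induction a using Finsupp.induction_linear with
    | zero => exact ⟨0, by simp [comb]⟩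
    | add a b ha hb =>
      obtain ⟨a', ha⟩ := ha
      obtain ⟨b', hb⟩ := hb
      exact ⟨a' + b', by rw [xs_comb_add, xs_comb_add, ha, hb]⟩
    | single v k =>
      obtain ⟨s, hs⟩ := xs_out h hS v (v : E ⧸ E₁) rfl
      refine ⟨Finsupp.single (v : E ⧸ E₁) (⟨ι k, hιS k⟩ * s), ?_⟩
      rw [xs_comb_single, xs_comb_single, hs, map_mul, mul_assoc]
      rfl
  refine ⟨S, inferInstance, ι.codRestrict S hιS, S.subtype, fun v => ⟨x v, hxS v⟩, σ₁, M₁,
    fun q => x q.out, M₂, fun k => rfl, fun v => rfl, fun κ => (hσ₁ κ).symm, fun v => rfl, hM₂,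
    ?_, ?_, ?_, ?_⟩
  · refine ⟨?_, ?_, ?_, ?_, ?_⟩
    · intro v hv
      exact h.ne v (congrArg Subtype.val hv)
    · intro v
      obtain ⟨τ', hτ'⟩ := h.norm v
      exact ⟨τ', fun k => Subtype.ext (hτ' k)⟩
    · intro v w
      obtain ⟨c, e⟩ := h.mul v w
      exact ⟨c, Subtype.ext e⟩
    · intro a ha
      have h1 : comb ι x (a.mapDomain Subtype.val) = 0 := by
        rw [← hcomb1, ha]; rfl
      have h2 := h.indep _ h1
      exact Finsupp.mapDomain_injective Subtype.val_injective (by rw [h2, Finsupp.mapDomain_zero])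
    · intro y
      obtain ⟨a, b, ha, hb, ha0, e⟩ := (hS y).1 y.2
      obtain ⟨a', ea⟩ := hL1 _ (xsL_of_comb a ha)
      obtain ⟨b', eb⟩ := hL1 _ (xsL_of_comb b hb)
      refine ⟨a', b', ?_, ?_⟩
      · intro hh
        apply ha0
        rw [← ea, hh]; rfl
      · apply Subtype.ext
        rw [eb, ← e, ← ea]; rfl
  · refine ⟨fun q => h.ne _, ?_, ?_, ?_, ?_⟩
    · intro q
      obtain ⟨g, hg⟩ := xs_conjS h hS q.out
      exact ⟨g, fun κ => hg κ⟩
    · intro q q'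
      obtain ⟨c, e⟩ := h.mul q.out q'.out
      obtain ⟨s, hs⟩ := xs_out h hS (q.out + q'.out) (q + q')
        (by
          have h1 : ((q.out : E) : E ⧸ E₁) = q := Quotient.out_eq' q
          have h2 : ((q'.out : E) : E ⧸ E₁) = q' := Quotient.out_eq' q'
          rw [QuotientAddGroup.mk_add, h1, h2])
      refine ⟨⟨ι c, hιS c⟩ * s, ?_⟩
      show x q.out * x q'.out = _
      rw [e, hs, map_mul, mul_assoc]
      rfl
    · intro a ha
      obtain ⟨D, hD0, hD, hT⟩ := xs_den h hS a.support (fun q => ((a q : S) : K'))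
        (fun q => (a q).2)
      have h0 : ∑ q ∈ a.support, D * ((a q : S) : K') * x q.out = 0 := by
        have h1 : D * comb S.subtype (fun q : E ⧸ E₁ => x q.out) a = 0 := by rw [ha, mul_zero]
        unfold comb Finsupp.sum at h1
        rw [Finset.mul_sum] at h1
        rw [← h1]
        apply Finset.sum_congr rfl
        intro q _
        rw [mul_assoc]; rfl
      have h2 := xs_ind h a.support (fun q => D * ((a q : S) : K') * x q.out) (by
        intro q hq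
        have h3 : ι 1 * x q.out ∈ xsL ι x {v | (v : E ⧸ E₁) = q} :=
          xsL_gen 1 (Quotient.out_eq' q)
        rw [map_one, one_mul] at h3
        refine xsL_mul h ?_ (hT q hq) h3
        intro v hv w hw
        have hv' : (v : E ⧸ E₁) = 0 := (QuotientAddGroup.eq_zero_iff v).2 hv
        have hw' : (w : E ⧸ E₁) = q := hw
        show ((v + w : E) : E ⧸ E₁) = q
        rw [QuotientAddGroup.mk_add, hv', hw', zero_add]) h0
      ext q
      by_contra hq
      have hq0 : a q ≠ 0 := fun hh => hq (by rw [hh]; rfl)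
      have h4 := h2 q (Finsupp.mem_support_iff.2 hq0)
      have h5 : ((a q : S) : K') ≠ 0 := fun hh => hq0 (Subtype.ext hh)
      exact mul_ne_zero (mul_ne_zero hD0 h5) (h.ne _) h4
    · intro y
      obtain ⟨a, b, ha0, e⟩ := h.frac y
      obtain ⟨a', ea⟩ := hL2 a
      obtain ⟨b', eb⟩ := hL2 b
      exact ⟨a', b', by rw [ea]; exact ha0, by rw [ea, eb]; exact e⟩
  · refine ⟨fun k => Subtype.ext ?_, fun v => ?_⟩
    · rw [hσ₁]; exact hc.base k
    · obtain ⟨c, e⟩ := hc.gen v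
      refine ⟨c, Subtype.ext ?_⟩
      rw [hσ₁]; exact e
  · refine ⟨fun κ => (hσ₁ κ).symm, fun q => ?_⟩
    obtain ⟨c, e⟩ := hc.gen q.out
    obtain ⟨s, hs⟩ := xs_out h hS (M q.out) (M₂ q)
      (by
        rw [← hM₂]
        congr 1
        exact Quotient.out_eq' q)
    refine ⟨⟨ι c, hιS c⟩ * s, ?_⟩
    show σ (x q.out) = _
    rw [e, hs, map_mul, mul_assoc]
    rfl

end Pool.Agent.Helper933.HC
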