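import Pool.Agent.Helper933.HC.Defs

set_option autoImplicit false

namespace Pool.Agent.Helper933.HC
open Module


theorem eig_exists {E : Type} [AddCommGroup E] [Module.Finite ℤ E] [Module.Free ℤ E]
    [Nontrivial E] (M : E ≃+ E)
    (hmin : ∀ F : AddSubgroup E, F ≠ ⊥ → (∀ v, M v ∈ F ↔ v ∈ F) →
        (∀ (n : ℕ) (v : E), 0 < n → n • v ∈ F → v ∈ F) → F = ⊤) :
    ∃ (π : E →+ ℂ) (lam : ℂ), Function.Injective π ∧ ∀ v, π (M v) = lam * π v := by
  classical
  let L := E →ₗ[ℤ] ℂ
  have hne : Nontrivial L := by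
    let b := Module.Free.chooseBasis ℤ E
    have hn : Nonempty (Module.Free.ChooseBasisIndex ℤ E) := b.index_nonempty
    obtain ⟨i⟩ := hn
    let f : E →ₗ[ℤ] ℂ := b.constr ℤ (fun _ => (1 : ℂ))
    refine ⟨f, 0, ?_⟩
    intro h
    have h1 : f (b i) = 1 := b.constr_basis ℤ _ i
    rw [h] at h1
    simp at h1
  let T : L →ₗ[ℂ] L :=
    { toFun := fun π => π.comp M.toIntLinearEquiv.toLinearMap
      map_add' := by intro a b; rfl
      map_smul' := by intro a b; rfl }
  obtain ⟨lam, hlam⟩ := Module.End.exists_eigenvalue T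
  obtain ⟨π, hπ⟩ := hlam.exists_hasEigenvector
  have h1 : ∀ v, π (M v) = lam * π v := by
    intro v
    have h2 := hπ.apply_eq_smul
    have h3 : (T π) v = (lam • π) v := by rw [h2]
    exact h3
  have hπ0 : π ≠ 0 := hπ.2
  have hl0 : lam ≠ 0 := by
    intro h
    apply hπ0
    ext v
    have := h1 (M.symm v)
    rw [h, zero_mul, M.apply_symm_apply] at this
    exact this
  let F : AddSubgroup E := π.toAddMonoidHom.ker
  have hF : ∀ v, v ∈ F ↔ π v = 0 := fun v => Iff.rfl
  refine ⟨π.toAddMonoidHom, lam, ?_, h1⟩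
  rw [injective_iff_map_eq_zero]
  by_contra hcon
  push Not at hcon
  obtain ⟨a, ha, ha0⟩ := hcon
  have hFtop : F = ⊤ := by
    apply hmin F
    · intro h
      apply ha0
      have : a ∈ F := ha
      rw [h] at this
      exact this
    · intro v
      rw [hF, hF, h1]
      constructor
      · intro h
        exact (mul_eq_zero.1 h).resolve_left hl0
      · intro h
        rw [h, mul_zero]
    · intro n v hn h
      rw [hF] at h ⊢
      rw [map_nsmul, nsmul_eq_mul] at h
      exact (mul_eq_zero.1 h).resolve_left (Nat.cast_ne_zero.2 hn.ne')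
  apply hπ0
  ext v
  have : v ∈ F := by rw [hFtop]; exact AddSubgroup.mem_top v
  exact this

end Pool.Agent.Helper933.HC
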