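import Pool.Agent.Helper933.HC.Defs

set_option autoImplicit false

namespace Pool.Agent.Helper933.HC
open Module


theorem min_inv {E : Type} [AddCommGroup E] [Module.Finite ℤ E] [Module.Free ℤ E]
    [Nontrivial E] (M : E ≃+ E) :
    ∃ E₁ : AddSubgroup E, E₁ ≠ ⊥ ∧ (∀ v, M v ∈ E₁ ↔ v ∈ E₁) ∧
      (∀ (n : ℕ) (v : E), 0 < n → n • v ∈ E₁ → v ∈ E₁) ∧
      ∀ F ≤ E₁, F ≠ ⊥ → (∀ v, M v ∈ F ↔ v ∈ F) →
        (∀ (n : ℕ) (v : E), 0 < n → n • v ∈ F → v ∈ F) → F = E₁ := by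
  classical
  set P : AddSubgroup E → Prop := fun F => F ≠ ⊥ ∧ (∀ v, M v ∈ F ↔ v ∈ F) ∧
    (∀ (n : ℕ) (v : E), 0 < n → n • v ∈ F → v ∈ F) with hP
  set rk : AddSubgroup E → ℕ := fun F => finrank ℤ (AddSubgroup.toIntSubmodule F) with hrk
  have hex : ∃ k : ℕ, ∃ F : AddSubgroup E, P F ∧ rk F = k := by
    refine ⟨_, ⊤, ⟨?_, fun v => by simp, fun n v _ _ => AddSubgroup.mem_top v⟩, rfl⟩
    exact top_ne_bot
  obtain ⟨E₁, hE₁, hk⟩ := Nat.find_spec hex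
  refine ⟨E₁, hE₁.1, hE₁.2.1, hE₁.2.2, ?_⟩
  intro F hF hF0 hFi hFt
  have hmin : rk E₁ ≤ rk F := by
    rw [hk]
    exact Nat.find_min' hex ⟨F, ⟨hF0, hFi, hFt⟩, rfl⟩
  refine le_antisymm hF ?_
  intro v hv
  set A : Submodule ℤ E := AddSubgroup.toIntSubmodule E₁ with hA
  set B : Submodule ℤ E := AddSubgroup.toIntSubmodule F with hB
  have hBA : B ≤ A := hF
  have h1 := Submodule.finrank_quotient_add_finrank (B.submoduleOf A)
  have h2 : finrank ℤ (B.submoduleOf A) = finrank ℤ B :=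
    (Submodule.submoduleOfEquivOfLe hBA).finrank_eq
  have h3 : finrank ℤ (A ⧸ B.submoduleOf A) = 0 := by
    have : finrank ℤ A ≤ finrank ℤ B := hmin
    omega
  rw [Module.finrank_eq_zero_iff] at h3
  obtain ⟨a, ha0, ha⟩ := h3 (Submodule.Quotient.mk ⟨v, hv⟩)
  rw [← Submodule.Quotient.mk_smul, Submodule.Quotient.mk_eq_zero] at ha
  have h4 : a • v ∈ F := ha
  apply hFt a.natAbs v (Int.natAbs_pos.mpr ha0)
  rcases Int.natAbs_eq a with h5 | h5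
  · rw [h5, natCast_zsmul] at h4
    exact h4
  · rw [h5, neg_smul, natCast_zsmul] at h4
    exact (neg_mem_iff).1 h4

end Pool.Agent.Helper933.HC
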