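import Pool.Agent.Helper933.HC.Defs

set_option autoImplicit false

namespace Pool.Agent.Helper933.HC
open Module


theorem compat_iter {K K' E : Type} [DivisionRing K] [DivisionRing K'] [AddCommGroup E]
    {ι : K →+* K'} {x : E → K'} (h : Cross ι x)
    {τ : K ≃+* K} {σ : K' ≃+* K'} {M : E ≃+ E} (hc : Compat ι x τ σ M) (j : ℕ) :
    ∃ (τj : K ≃+* K) (σj : K' ≃+* K') (Mj : E ≃+ E), (∀ k, τj k = (⇑τ)^[j] k) ∧
      (∀ κ, σj κ = (⇑σ)^[j] κ) ∧ (∀ v, Mj v = (⇑M)^[j] v) ∧ Compat ι x τj σj Mj := by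
  induction j with
  | zero =>
    refine ⟨RingEquiv.refl K, RingEquiv.refl K', AddEquiv.refl E, fun k => rfl, fun κ => rfl,
      fun v => rfl, ⟨fun k => rfl, fun v => ⟨1, ?_⟩⟩⟩
    simp
  | succ j ih =>
    obtain ⟨τj, σj, Mj, h1, h2, h3, h4⟩ := ih
    refine ⟨τj.trans τ, σj.trans σ, Mj.trans M, fun k => ?_, fun κ => ?_, fun v => ?_,
      ⟨fun k => ?_, fun v => ?_⟩⟩
    · rw [Function.iterate_succ_apply', ← h1 k]; rfl
    · rw [Function.iterate_succ_apply', ← h2 κ]; rfl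
    · rw [Function.iterate_succ_apply', ← h3 v]; rfl
    · show σ (σj (ι k)) = ι (τ (τj k))
      rw [h4.base, hc.base]
    · obtain ⟨c, hcv⟩ := h4.gen v
      obtain ⟨c', hcv'⟩ := hc.gen (Mj v)
      refine ⟨τ c * c', ?_⟩
      show σ (σj (x v)) = ι (τ c * c') * x (M (Mj v))
      rw [hcv, map_mul, hc.base, hcv', map_mul, mul_assoc]

end Pool.Agent.Helper933.HC
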