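import Pool.Agent.Helper933.HC.Defs

set_option autoImplicit false

namespace Pool.Agent.Helper933.HC
open Module


theorem val_compat {K K' E : Type} [DivisionRing K] [DivisionRing K'] [AddCommGroup E]
    {ι : K →+* K'} {x : E → K'} (h : Cross ι x) {φ : E →+ ℝ} {w : K' → ℝ} (hw : Val ι x φ w)
    {τ : K ≃+* K} {σ : K' ≃+* K'} {M : E ≃+ E} (hc : Compat ι x τ σ M) :
    Val ι x (φ.comp M.toAddMonoidHom) (fun κ => w (σ κ)) := by
  constructor
  · intro κ; exact hw.nonneg _
  · intro κ
    rw [hw.zero]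
    exact map_eq_zero_iff σ σ.injective
  · intro κ κ'
    rw [map_mul, hw.mul]
  · intro κ κ'
    rw [map_add]; exact hw.add _ _
  · intro v
    obtain ⟨c, hcv⟩ := hc.gen v
    have hc0 : c ≠ 0 := by
      rintro rfl
      rw [map_zero, zero_mul] at hcv
      exact h.ne v ((map_eq_zero_iff σ σ.injective).1 hcv)
    rw [hcv, hw.mul, hw.base c hc0, hw.gen, one_mul]
    rfl
  · intro k hk
    rw [hc.base]
    exact hw.base _ (by
      intro h0
      exact hk ((map_eq_zero_iff τ τ.injective).1 h0))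
  · intro κ hκ
    obtain ⟨v, hv⟩ := hw.range (σ κ) (by
      intro h0
      exact hκ ((map_eq_zero_iff σ σ.injective).1 h0))
    refine ⟨M.symm v, ?_⟩
    rw [hv]
    simp
  · intro κ hκ
    obtain ⟨k, hk⟩ := hw.resid (σ κ) hκ
    refine ⟨τ.symm k, ?_⟩
    rw [map_sub, hc.base]
    simpa using hk

end Pool.Agent.Helper933.HC
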