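import Pool.Agent.Helper933.HC.Defs

set_option autoImplicit false

namespace Pool.Agent.Helper933.HC
open Module


theorem val_comb {K K' E : Type} [DivisionRing K] [DivisionRing K'] [AddCommGroup E]
    {ι : K →+* K'} {x : E → K'} (h : Cross ι x) {φ : E →+ ℝ} (hφ : Function.Injective φ)
    {w : K' → ℝ} (hw : Val ι x φ w) (a : E →₀ K) (v₀ : E) (hv₀ : v₀ ∈ a.support)
    (hmax : ∀ v ∈ a.support, φ v ≤ φ v₀) : w (comb ι x a) = Real.exp (φ v₀) := by
  classical
  have hneg : ∀ κ, w (-κ) = w κ := by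
    intro κ
    have h1 : -κ = ι (-1) * κ := by simp
    rw [h1, hw.mul, hw.base (-1) (neg_ne_zero.2 one_ne_zero), one_mul]
  have hterm : ∀ v ∈ a.support, w (ι (a v) * x v) = Real.exp (φ v) := by
    intro v hv
    rw [hw.mul, hw.gen, hw.base _ (Finsupp.mem_support_iff.1 hv), one_mul]
  have hsum : ∀ (s : Finset E) (f : E → K') (B : ℝ), 0 < B → (∀ v ∈ s, w (f v) < B) →
      w (∑ v ∈ s, f v) < B := by
    intro s f B hB
    induction s using Finset.induction_on with
    | empty =>
      intro _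
      rw [Finset.sum_empty, (hw.zero 0).2 rfl]
      exact hB
    | insert v s hv ih =>
      intro hs
      rw [Finset.sum_insert hv]
      exact lt_of_le_of_lt (hw.add _ _) (max_lt (hs v (Finset.mem_insert_self _ _))
        (ih fun u hu => hs u (Finset.mem_insert_of_mem hu)))
  have hcomb : comb ι x a = ι (a v₀) * x v₀ + ∑ v ∈ a.support.erase v₀, ι (a v) * x v := by
    unfold comb Finsupp.sum
    rw [← Finset.add_sum_erase _ _ hv₀]
  set t := ι (a v₀) * x v₀ with ht
  set r := ∑ v ∈ a.support.erase v₀, ι (a v) * x v with hr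
  have hwt : w t = Real.exp (φ v₀) := hterm v₀ hv₀
  have hwr : w r < Real.exp (φ v₀) := by
    refine hsum _ _ _ (Real.exp_pos _) ?_
    intro v hv
    rw [Finset.mem_erase] at hv
    rw [hterm v hv.2]
    refine Real.exp_lt_exp.2 (lt_of_le_of_ne (hmax v hv.2) ?_)
    intro he
    exact hv.1 (hφ he)
  rw [hcomb]
  refine le_antisymm ?_ ?_
  · refine le_trans (hw.add _ _) (max_le hwt.le hwr.le)
  · have h1 : t = (t + r) + -r := by abel
    have h2 := hw.add (t + r) (-r)
    rw [← h1, hneg, hwt] at h2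
    rcases le_max_iff.1 h2 with h3 | h3
    · exact h3
    · exact absurd h3 (not_le.2 hwr)

end Pool.Agent.Helper933.HC
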