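import Pool.Agent.Helper933.HC.Defs
import Pool.Agent.Helper933.HC.P_val_comb

set_option autoImplicit false

namespace Pool.Agent.Helper933.HC
open Module


/-- local constancy of leading exponents. -/
theorem val_loc {K K' E : Type} [DivisionRing K] [DivisionRing K'] [AddCommGroup E]
    {ι : K →+* K'} {x : E → K'} (h : Cross ι x) (φ : E →+ ℝ) (hφ : Function.Injective φ)
    (κ : K') (hκ : κ ≠ 0) :
    ∃ (v : E) (Φ : Finset E), ∀ (φ' : E →+ ℝ) (w' : K' → ℝ), Function.Injective φ' →
      Val ι x φ' w' → (∀ e ∈ Φ, (0 < φ e ↔ 0 < φ' e)) →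
      w' κ = Real.exp (φ' v) ∧ (0 < φ v ↔ 0 < φ' v) := by
  classical
  obtain ⟨a, b, ha, hab⟩ := h.frac κ
  have hb : comb ι x b ≠ 0 := by
    rw [← hab]; exact mul_ne_zero ha hκ
  have hne : ∀ c : E →₀ K, comb ι x c ≠ 0 → c.support.Nonempty := by
    intro c hc
    rw [Finset.nonempty_iff_ne_empty]
    intro h0
    apply hc
    rw [Finsupp.support_eq_empty.1 h0]
    simp [comb]
  obtain ⟨va, hva, hvam⟩ := Finset.exists_max_image a.support φ (hne a ha)
  obtain ⟨vb, hvb, hvbm⟩ := Finset.exists_max_image b.support φ (hne b hb)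
  refine ⟨vb - va, insert (vb - va) (((a.support ∪ b.support) ×ˢ (a.support ∪ b.support)).image
    (fun p => p.1 - p.2)), ?_⟩
  intro φ' w' hφ' hw' hΦ
  have hmax : ∀ u ∈ a.support ∪ b.support, ∀ t ∈ a.support ∪ b.support, φ u ≤ φ t →
      φ' u ≤ φ' t := by
    intro u hu t ht hle
    have h1 := hΦ (u - t) (Finset.mem_insert_of_mem (Finset.mem_image.2
      ⟨(u, t), Finset.mem_product.2 ⟨hu, ht⟩, rfl⟩))
    rw [map_sub, map_sub] at h1
    by_contra hcon
    push Not at hcon
    have h2 := h1.2 (by linarith)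
    linarith
  have h1 := val_comb h hφ' hw' a va hva (fun u hu => hmax u (Finset.mem_union_left _ hu) va
    (Finset.mem_union_left _ hva) (hvam u hu))
  have h2 := val_comb h hφ' hw' b vb hvb (fun u hu => hmax u (Finset.mem_union_right _ hu) vb
    (Finset.mem_union_right _ hvb) (hvbm u hu))
  rw [← hab, hw'.mul, h1] at h2
  refine ⟨?_, hΦ _ (Finset.mem_insert_self _ _)⟩
  rw [map_sub, Real.exp_sub, ← h2]
  field_simp

end Pool.Agent.Helper933.HC
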