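import Pool.Agent.Helper933.HC.Defs
import Pool.Agent.Helper933.HC.P_val_loc
import Pool.Agent.Helper933.HC.P_val_compat
import Pool.Agent.Helper933.HC.P_compat_iter

set_option autoImplicit false

namespace Pool.Agent.Helper933.HC
open Module


/-- the maximum of `w` on the coordinates of elements of `W` is `t`. -/
def h400_MaxIs {K K' X : Type} [DivisionRing K] [DivisionRing K'] [AddCommGroup X] [Module K' X]
    [Module K X] {k : ℕ} (n : Fin k → X) (W : Submodule K X) (w : K' → ℝ) (t : ℝ) : Prop :=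
  (∀ κ : Fin k → K', ∑ i, κ i • n i ∈ W → ∀ i, w (κ i) ≤ t) ∧
    ∃ κ : Fin k → K', ∑ i, κ i • n i ∈ W ∧ ∃ i, w (κ i) = t

theorem h400_MaxIs_unique {K K' X : Type} [DivisionRing K] [DivisionRing K'] [AddCommGroup X]
    [Module K' X] [Module K X] {k : ℕ} (n : Fin k → X) (W : Submodule K X) (w : K' → ℝ) (t t' : ℝ)
    (h : h400_MaxIs n W w t) (h' : h400_MaxIs n W w t') : t = t' := by
  obtain ⟨h1, κ, hκ, i, hi⟩ := h
  obtain ⟨h1', κ', hκ', i', hi'⟩ := h'
  apply le_antisymm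
  · rw [← hi]; exact h1' κ hκ i
  · rw [← hi']; exact h1 κ' hκ' i'

theorem h400_sum_le {K K' E : Type} [DivisionRing K] [DivisionRing K'] [AddCommGroup E]
    {ι : K →+* K'} {x : E → K'} {φ : E →+ ℝ} {w : K' → ℝ} (hw : Val ι x φ w) {α : Type}
    (s : Finset α) (f : α → K') (t : ℝ) (ht : 0 ≤ t) (h : ∀ a ∈ s, w (f a) ≤ t) :
    w (∑ a ∈ s, f a) ≤ t := by
  classical
  induction s using Finset.induction_on with
  | empty =>
    rw [Finset.sum_empty, (hw.zero 0).mpr rfl]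
    exact ht
  | insert a s ha ih =>
    rw [Finset.sum_insert ha]
    refine (hw.add _ _).trans (max_le (h a (Finset.mem_insert_self a s)) (ih ?_))
    intro b hb
    exact h b (Finset.mem_insert_of_mem hb)

theorem h400_sum_lt {K K' E : Type} [DivisionRing K] [DivisionRing K'] [AddCommGroup E]
    {ι : K →+* K'} {x : E → K'} {φ : E →+ ℝ} {w : K' → ℝ} (hw : Val ι x φ w) {α : Type}
    (s : Finset α) (f : α → K') (t : ℝ) (ht : 0 < t) (h : ∀ a ∈ s, w (f a) < t) :
    w (∑ a ∈ s, f a) < t := by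
  classical
  induction s using Finset.induction_on with
  | empty =>
    rw [Finset.sum_empty, (hw.zero 0).mpr rfl]
    exact ht
  | insert a s ha ih =>
    rw [Finset.sum_insert ha]
    refine (hw.add _ _).trans_lt (max_lt (h a (Finset.mem_insert_self a s)) (ih ?_))
    intro b hb
    exact h b (Finset.mem_insert_of_mem hb)

theorem h400_base_le {K K' E : Type} [DivisionRing K] [DivisionRing K'] [AddCommGroup E]
    {ι : K →+* K'} {x : E → K'} {φ : E →+ ℝ} {w : K' → ℝ} (hw : Val ι x φ w) (c : K) :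
    w (ι c) ≤ 1 := by
  by_cases hc : c = 0
  · rw [hc, map_zero, (hw.zero 0).mpr rfl]
    exact zero_le_one
  · rw [hw.base c hc]

theorem h400_coord {K' X : Type} [DivisionRing K'] [AddCommGroup X] [Module K' X] {k : ℕ}
    (n : Fin k → X) (hn : LinearIndependent K' n) (κ κ' : Fin k → K')
    (h : ∑ i, κ i • n i = ∑ i, κ' i • n i) : κ = κ' := by
  rw [Fintype.linearIndependent_iff] at hn
  have h2 := hn (fun i => κ i - κ' i) (by
    simp_rw [sub_smul]
    rw [Finset.sum_sub_distrib, h, sub_self])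
  funext i
  exact sub_eq_zero.mp (h2 i)

theorem h400_inv {K K' E X : Type} [DivisionRing K] [DivisionRing K'] [AddCommGroup E]
    {ι : K →+* K'} {x : E → K'} {φ : E →+ ℝ} {w : K' → ℝ} (hw : Val ι x φ w)
    (τ : K ≃+* K) (σ : K' ≃+* K') (hb : ∀ k, σ (ι k) = ι (τ k))
    [AddCommGroup X] [Module K' X] [Module K X] (hι : ∀ (k : K) (ξ : X), k • ξ = ι k • ξ)
    (u : X ≃+ X) (hu : ∀ (κ : K') (ξ : X), u (κ • ξ) = σ κ • u ξ) (k : ℕ) (n : Fin k → X)
    (hn : LinearIndependent K' n)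
    (hst : ∀ ξ, u ξ ∈ Submodule.span K (Set.range n) ↔ ξ ∈ Submodule.span K (Set.range n))
    (W : Submodule K X) (hWs : ∀ ξ, u ξ ∈ W ↔ ξ ∈ W) (t : ℝ) (ht : 0 < t)
    (hmax : h400_MaxIs n W w t) : h400_MaxIs n W (fun κ => w (σ κ)) t := by
  have hB : ∀ i, ∃ b : Fin k → K, ∑ l, b l • n l = u (n i) := by
    intro i
    exact (Submodule.mem_span_range_iff_exists_fun K).mp
      ((hst _).mpr (Submodule.subset_span ⟨i, rfl⟩))
  have hC : ∀ i, ∃ c : Fin k → K, u (∑ l, c l • n l) = n i := by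
    intro i
    obtain ⟨y, hy⟩ := u.surjective (n i)
    have hy2 : y ∈ Submodule.span K (Set.range n) :=
      (hst y).mp (by rw [hy]; exact Submodule.subset_span ⟨i, rfl⟩)
    obtain ⟨c, hc⟩ := (Submodule.mem_span_range_iff_exists_fun K).mp hy2
    exact ⟨c, by rw [hc, hy]⟩
  choose b hb' using hB
  choose c hc' using hC
  have hfwd : ∀ κ : Fin k → K', u (∑ i, κ i • n i) =
      ∑ l, (∑ i, σ (κ i) * ι (b i l)) • n l := by
    intro κ
    rw [map_sum]
    simp_rw [hu, ← hb', Finset.smul_sum, hι, smul_smul, Finset.sum_smul]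
    rw [Finset.sum_comm]
  have hbwd : ∀ μ : Fin k → K', u (∑ i, (∑ l, σ.symm (μ l) * ι (c l i)) • n i) =
      ∑ l, μ l • n l := by
    intro μ
    have h1 : ∑ i, (∑ l, σ.symm (μ l) * ι (c l i)) • n i =
        ∑ l, σ.symm (μ l) • ∑ i, c l i • n i := by
      simp_rw [Finset.sum_smul, Finset.smul_sum, hι, smul_smul]
      rw [Finset.sum_comm]
    rw [h1, map_sum]
    apply Finset.sum_congr rfl
    intro l _
    rw [hu, hc', RingEquiv.apply_symm_apply]
  have hfirst : ∀ κ : Fin k → K', ∑ i, κ i • n i ∈ W → ∀ i, w (σ (κ i)) ≤ t := by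
    intro κ hκ i
    have h1 : ∑ l, (∑ i, σ (κ i) * ι (b i l)) • n l ∈ W := by
      rw [← hfwd]
      exact (hWs _).mpr hκ
    have h2 := hmax.1 _ h1
    have h3 := hbwd (fun l => ∑ i, σ (κ i) * ι (b i l))
    rw [← hfwd] at h3
    have h4 := h400_coord n hn _ _ (u.injective h3)
    have h5 := congrFun h4 i
    rw [← h5, map_sum]
    apply h400_sum_le hw _ _ t ht.le
    intro l _
    rw [map_mul, RingEquiv.apply_symm_apply, hb, hw.mul]
    calc w (∑ i, σ (κ i) * ι (b i l)) * w (ι (τ (c l i))) ≤ t * 1 :=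
          mul_le_mul (h2 l) (h400_base_le hw _) (hw.nonneg _) ht.le
      _ = t := mul_one t
  refine ⟨hfirst, ?_⟩
  obtain ⟨μ, hμ, l0, hl0⟩ := hmax.2
  refine ⟨fun i => ∑ l, σ.symm (μ l) * ι (c l i), ?_, ?_⟩
  · rw [← hWs, hbwd]
    exact hμ
  · by_contra hcon
    push Not at hcon
    have hmem : ∑ i, (∑ l, σ.symm (μ l) * ι (c l i)) • n i ∈ W := by
      rw [← hWs, hbwd]
      exact hμ
    have hlt : ∀ i, w (σ (∑ l, σ.symm (μ l) * ι (c l i))) < t := by
      intro i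
      exact lt_of_le_of_ne (hfirst _ hmem i) (hcon i)
    have h3 := hfwd (fun i => ∑ l, σ.symm (μ l) * ι (c l i))
    rw [hbwd] at h3
    have h4 := congrFun (h400_coord n hn _ _ h3) l0
    have h5 : w (μ l0) < t := by
      rw [h4]
      apply h400_sum_lt hw _ _ t ht
      intro i _
      rw [hw.mul]
      calc w (σ (∑ l, σ.symm (μ l) * ι (c l i))) * w (ι (b i l0))
          ≤ w (σ (∑ l, σ.symm (μ l) * ι (c l i))) * 1 :=
            mul_le_mul_of_nonneg_left (h400_base_le hw _) (hw.nonneg _)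
        _ < t := by rw [mul_one]; exact hlt i
    exact absurd hl0 (ne_of_lt h5)

theorem h400_loc {K K' E X : Type} [DivisionRing K] [DivisionRing K'] [AddCommGroup E]
    {ι : K →+* K'} {x : E → K'} (h : Cross ι x)
    (φ : E →+ ℝ) (hφ : Function.Injective φ)
    [AddCommGroup X] [Module K' X] [Module K X] (hι : ∀ (k : K) (ξ : X), k • ξ = ι k • ξ)
    (k : ℕ) (n : Fin k → X)
    (hn : LinearIndependent K' n)
    (W : Submodule K X) (hWf : FiniteDimensional K W) (hW0 : W ≠ ⊥)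
    (hWn : ∀ ξ ∈ W, ξ ∈ Submodule.span K' (Set.range n)) :
    ∃ (p : E) (Φ : Finset E), ∀ (φ' : E →+ ℝ) (w' : K' → ℝ), Function.Injective φ' →
      Val ι x φ' w' → (∀ e ∈ Φ, (0 < φ e ↔ 0 < φ' e)) →
      h400_MaxIs n W w' (Real.exp (φ' p)) := by
  classical
  obtain ⟨m, ⟨B⟩⟩ : ∃ m : ℕ, Nonempty (Basis (Fin m) K W) := ⟨_, ⟨Module.finBasis K W⟩⟩
  have hκ : ∀ a : Fin m, ∃ κ : Fin k → K', ∑ i, κ i • n i = (B a : X) := by
    intro a
    exact (Submodule.mem_span_range_iff_exists_fun K').mp (hWn _ (B a).2)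
  choose κ hκ using hκ
  have hloc : ∀ q : Fin m × Fin k, ∃ (v : E) (Φ : Finset E), κ q.1 q.2 ≠ 0 →
      ∀ (φ' : E →+ ℝ) (w' : K' → ℝ), Function.Injective φ' →
      Val ι x φ' w' → (∀ e ∈ Φ, (0 < φ e ↔ 0 < φ' e)) →
      w' (κ q.1 q.2) = Real.exp (φ' v) := by
    intro q
    by_cases hq : κ q.1 q.2 = 0
    · exact ⟨0, ∅, fun h => absurd hq h⟩
    · obtain ⟨v, Φ, hv⟩ := val_loc h φ hφ (κ q.1 q.2) hq
      exact ⟨v, Φ, fun _ φ' w' h1 h2 h3 => (hv φ' w' h1 h2 h3).1⟩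
  choose V Ψ hV using hloc
  have hne : ((Finset.univ : Finset (Fin m × Fin k)).filter (fun q => κ q.1 q.2 ≠ 0)).Nonempty := by
    by_contra hcon
    rw [Finset.not_nonempty_iff_eq_empty, Finset.filter_eq_empty_iff] at hcon
    push Not at hcon
    apply hW0
    rw [Submodule.eq_bot_iff]
    intro ξ hξ
    have hB0 : ∀ a, B a = 0 := by
      intro a
      apply Subtype.ext
      rw [← hκ a]
      show ∑ i, κ a i • n i = 0
      apply Finset.sum_eq_zero
      intro i _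
      rw [hcon (Finset.mem_univ (a, i)), zero_smul]
    have h1 := B.sum_repr (⟨ξ, hξ⟩ : W)
    have h2 : (⟨ξ, hξ⟩ : W) = 0 := by
      rw [← h1]
      apply Finset.sum_eq_zero
      intro a _
      rw [hB0 a, smul_zero]
    exact congrArg Subtype.val h2
  obtain ⟨q0, hq0, hmax⟩ := Finset.exists_max_image _ (fun q => φ (V q)) hne
  rw [Finset.mem_filter] at hq0
  refine ⟨V q0, (Finset.univ.biUnion Ψ) ∪ (Finset.univ.image (fun q => V q - V q0)), ?_⟩
  intro φ' w' hinj hw' hsig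
  have hsig1 : ∀ q, ∀ e ∈ Ψ q, (0 < φ e ↔ 0 < φ' e) := by
    intro q e he
    apply hsig
    rw [Finset.mem_union, Finset.mem_biUnion]
    exact Or.inl ⟨q, Finset.mem_univ q, he⟩
  have hval : ∀ q : Fin m × Fin k, w' (κ q.1 q.2) ≤ Real.exp (φ' (V q0)) := by
    intro q
    by_cases hq : κ q.1 q.2 = 0
    · rw [hq, (hw'.zero 0).mpr rfl]
      exact (Real.exp_pos _).le
    · rw [hV q hq φ' w' hinj hw' (hsig1 q), Real.exp_le_exp]
      have h1 : φ (V q) ≤ φ (V q0) := hmax q (Finset.mem_filter.mpr ⟨Finset.mem_univ q, hq⟩)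
      have h2 := hsig (V q - V q0) (by
        rw [Finset.mem_union, Finset.mem_image]
        exact Or.inr ⟨q, Finset.mem_univ q, rfl⟩)
      rw [map_sub, map_sub] at h2
      by_contra hcon
      push Not at hcon
      have h3 := h2.mpr (by linarith)
      linarith
  constructor
  · intro κ' hκ' i
    obtain ⟨z, hz⟩ : ∃ z : W, (z : X) = ∑ i, κ' i • n i := ⟨⟨_, hκ'⟩, rfl⟩
    have h1 := B.sum_repr z
    have h2 : ∑ i, κ' i • n i = ∑ i, (∑ a, ι (B.repr z a) * κ a i) • n i := by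
      rw [← hz]
      conv_lhs => rw [← h1]
      rw [AddSubmonoidClass.coe_finset_sum]
      simp_rw [Submodule.coe_smul, ← hκ, hι, Finset.smul_sum, smul_smul, Finset.sum_smul]
      rw [Finset.sum_comm]
    have h4 := congrFun (h400_coord n hn _ _ h2) i
    rw [h4]
    apply h400_sum_le hw' _ _ _ (Real.exp_pos _).le
    intro a _
    rw [hw'.mul]
    calc w' (ι (B.repr z a)) * w' (κ a i) ≤ 1 * Real.exp (φ' (V q0)) :=
          mul_le_mul (h400_base_le hw' _) (hval (a, i)) (hw'.nonneg _) zero_le_one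
      _ = _ := one_mul _
  · refine ⟨κ q0.1, ?_, q0.2, ?_⟩
    · rw [hκ]
      exact (B q0.1).2
    · exact hV q0 hq0.2 φ' w' hinj hw' (hsig1 q0)

/-- without periodic vectors the leading exponent of a power-stable subspace is `0`. -/
theorem h_top {K K' E X : Type} [DivisionRing K] [DivisionRing K'] [AddCommGroup E]
    {ι : K →+* K'} {x : E → K'} (h : Cross ι x)
    {τ : K ≃+* K} {σ : K' ≃+* K'} {M : E ≃+ E} (hc : Compat ι x τ σ M)
    (φ : E →+ ℝ) (hφ : Rec φ M) (hper : ∀ v : E, ∀ j : ℕ, 0 < j → (⇑M)^[j] v = v → v = 0)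
    {w : K' → ℝ} (hw : Val ι x φ w)
    [AddCommGroup X] [Module K' X] [Module K X] (hι : ∀ (k : K) (ξ : X), k • ξ = ι k • ξ)
    (u : X ≃+ X) (hu : ∀ (κ : K') (ξ : X), u (κ • ξ) = σ κ • u ξ) (k : ℕ) (n : Fin k → X)
    (hn : LinearIndependent K' n) (hst : Stable u (Submodule.span K (Set.range n)))
    (W : Submodule K X) (hWf : FiniteDimensional K W) (hW0 : W ≠ ⊥)
    (hWn : ∀ ξ ∈ W, ξ ∈ Submodule.span K' (Set.range n))
    (j₁ : ℕ) (hj₁ : 0 < j₁) (hWs : ∀ ξ, (⇑u)^[j₁] ξ ∈ W ↔ ξ ∈ W) :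
    (∀ κ : Fin k → K', ∑ i, κ i • n i ∈ W → ∀ i, w (κ i) ≤ 1) ∧
      ∃ κ : Fin k → K', ∑ i, κ i • n i ∈ W ∧ ∃ i, w (κ i) = 1 := by
  obtain ⟨p, Φ, hp⟩ := h400_loc h φ hφ.1 hι k n hn W hWf hW0 hWn
  obtain ⟨j, hj, hdvd, hjΦ⟩ := hφ.2 Φ j₁ hj₁
  obtain ⟨τj, σj, Mj, hτj, hσj, hMj, hcj⟩ := compat_iter h hc j
  have hwj := val_compat h hw hcj
  have hinjj : Function.Injective (φ.comp Mj.toAddMonoidHom) := by
    intro a b hab
    exact Mj.injective (hφ.1 hab)
  have hM1 := hp φ w hφ.1 hw (fun _ _ => Iff.rfl)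
  have hM2 := hp (φ.comp Mj.toAddMonoidHom) (fun κ => w (σj κ)) hinjj hwj (by
    intro e he
    have h1 : (φ.comp Mj.toAddMonoidHom) e = φ ((⇑M)^[j] e) := by
      rw [← hMj]
      rfl
    rw [h1]
    exact hjΦ e he)
  -- the power of `u`
  have hpow : ∀ j : ℕ, ∃ uj : X ≃+ X, (∀ ξ, uj ξ = (⇑u)^[j] ξ) ∧
      (∀ (κ : K') (ξ : X), uj (κ • ξ) = (⇑σ)^[j] κ • uj ξ) ∧
      (∀ ξ, uj ξ ∈ Submodule.span K (Set.range n) ↔ ξ ∈ Submodule.span K (Set.range n)) := by
    intro j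
    induction j with
    | zero => exact ⟨AddEquiv.refl X, fun _ => rfl, fun _ _ => rfl, fun _ => Iff.rfl⟩
    | succ j ih =>
      obtain ⟨uj, h1, h2, h3⟩ := ih
      refine ⟨uj.trans u, ?_, ?_, ?_⟩
      · intro ξ
        rw [Function.iterate_succ_apply', AddEquiv.trans_apply, h1]
      · intro κ ξ
        rw [Function.iterate_succ_apply', AddEquiv.trans_apply, h2, hu, AddEquiv.trans_apply]
      · intro ξ
        rw [AddEquiv.trans_apply]
        exact (hst _).trans (h3 ξ)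
  obtain ⟨uj, hu1, hu2, hu3⟩ := hpow j
  have hWj : ∀ ξ, uj ξ ∈ W ↔ ξ ∈ W := by
    intro ξ
    rw [hu1]
    obtain ⟨q, rfl⟩ := hdvd
    rw [Function.iterate_mul]
    clear hj hjΦ hu1 hu2 hu3 hM2 hwj hinjj hcj hMj hσj hτj uj
    induction q generalizing ξ with
    | zero => exact Iff.rfl
    | succ q ih =>
      rw [Function.iterate_succ_apply']
      exact (hWs _).trans (ih ξ)
  have hM3 := h400_inv hw τj σj hcj.base hι uj (fun κ ξ => by rw [hu2, hσj]) k n hn hu3 W hWj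
    _ (Real.exp_pos _) hM1
  have heq := h400_MaxIs_unique n W _ _ _ hM3 hM2
  have hp0 : p = 0 := by
    have h1 : φ p = φ (Mj p) := Real.exp_injective heq
    have h2 := hφ.1 h1
    rw [hMj] at h2
    exact hper p j hj h2.symm
  rw [hp0, map_zero, Real.exp_zero] at hM1
  exact hM1

end Pool.Agent.Helper933.HC
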