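import Pool.Agent.Helper933.HC.Defs
import Pool.Agent.Helper933.HC.P_comb_mul
import Pool.Agent.Helper933.HC.P_comb_common

set_option autoImplicit false

namespace Pool.Agent.Helper933.HC
open Module


namespace VE

section basic

variable {K K' E : Type} [DivisionRing K] [DivisionRing K'] [AddCommGroup E]

theorem comb_zero (ι : K →+* K') (x : E → K') : comb ι x 0 = 0 := by
  simp [comb]

theorem comb_add (ι : K →+* K') (x : E → K') (a b : E →₀ K) :
    comb ι x (a + b) = comb ι x a + comb ι x b := by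
  unfold comb
  apply Finsupp.sum_add_index'
  · intro v; simp
  · intro v k k'; rw [map_add, add_mul]

theorem comb_sub (ι : K →+* K') (x : E → K') (a b : E →₀ K) :
    comb ι x (a - b) = comb ι x a - comb ι x b := by
  have h := comb_add ι x (a - b) b
  rw [sub_add_cancel] at h
  rw [h, add_sub_cancel_right]

theorem comb_single (ι : K →+* K') (x : E → K') (v : E) (k : K) :
    comb ι x (Finsupp.single v k) = ι k * x v := by
  unfold comb
  rw [Finsupp.sum_single_index]
  simp

theorem comb_inj {ι : K →+* K'} {x : E → K'} (h : Cross ι x) {a b : E →₀ K}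
    (hab : comb ι x a = comb ι x b) : a = b := by
  apply sub_eq_zero.1
  apply h.indep
  rw [comb_sub, hab, sub_self]

theorem ne_of_comb {ι : K →+* K'} {x : E → K'} {a : E →₀ K} (ha : comb ι x a ≠ 0) : a ≠ 0 := by
  rintro rfl
  exact ha (comb_zero ι x)

theorem comb_ne {ι : K →+* K'} {x : E → K'} (h : Cross ι x) {a : E →₀ K} (ha : a ≠ 0) :
    comb ι x a ≠ 0 := fun h0 => ha (h.indep a h0)

open Classical in
/-- the leading value -/
noncomputable def L (φ : E →+ ℝ) (a : E →₀ K) : ℝ :=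
  if h : a.support.Nonempty then Real.exp (a.support.sup' h φ) else 0

theorem L_eq (φ : E →+ ℝ) {a : E →₀ K} {v : E} (hv : v ∈ a.support)
    (hm : ∀ u ∈ a.support, φ u ≤ φ v) : L φ a = Real.exp (φ v) := by
  have hne : a.support.Nonempty := ⟨v, hv⟩
  unfold L
  rw [dif_pos hne]
  congr 1
  exact le_antisymm (Finset.sup'_le _ _ hm) (Finset.le_sup' (fun u => φ u) hv)

theorem L_zero (φ : E →+ ℝ) : L φ (0 : E →₀ K) = 0 := by
  unfold L
  simp

theorem exists_max (φ : E →+ ℝ) {a : E →₀ K} (ha : a ≠ 0) :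
    ∃ v ∈ a.support, ∀ u ∈ a.support, φ u ≤ φ v :=
  Finset.exists_max_image a.support φ (Finsupp.support_nonempty_iff.2 ha)

theorem L_pos (φ : E →+ ℝ) {a : E →₀ K} (ha : a ≠ 0) : 0 < L φ a := by
  obtain ⟨v, hv, hm⟩ := exists_max φ ha
  rw [L_eq φ hv hm]
  exact Real.exp_pos _

theorem L_nonneg (φ : E →+ ℝ) (a : E →₀ K) : 0 ≤ L φ a := by
  by_cases ha : a = 0
  · rw [ha, L_zero]
  · exact (L_pos φ ha).le

theorem le_L (φ : E →+ ℝ) {a : E →₀ K} {v : E} (hv : v ∈ a.support) :
    Real.exp (φ v) ≤ L φ a := by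
  have ha : a ≠ 0 := by
    rintro rfl
    simp at hv
  obtain ⟨u, hu, hm⟩ := exists_max φ ha
  rw [L_eq φ hu hm]
  exact Real.exp_le_exp.2 (hm v hv)

theorem L_add (φ : E →+ ℝ) (a b : E →₀ K) : L φ (a + b) ≤ max (L φ a) (L φ b) := by
  classical
  by_cases hab : a + b = 0
  · rw [hab, L_zero]
    exact le_max_of_le_left (L_nonneg φ a)
  · obtain ⟨v, hv, hm⟩ := exists_max φ hab
    rw [L_eq φ hv hm]
    have hv' := Finsupp.support_add hv
    rw [Finset.mem_union] at hv'
    rcases hv' with h | h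
    · exact le_max_of_le_left (le_L φ h)
    · exact le_max_of_le_right (le_L φ h)

theorem exists_c {ι : K →+* K'} {x : E → K'} (h : Cross ι x) (φ : E →+ ℝ)
    (hφ : Function.Injective φ) (a b : E →₀ K) :
    ∃ c : E →₀ K, comb ι x a * comb ι x b = comb ι x c ∧ L φ c = L φ a * L φ b := by
  by_cases ha : a = 0
  · refine ⟨0, ?_, ?_⟩
    · rw [ha, comb_zero, zero_mul]
    · rw [ha, L_zero, zero_mul]
  by_cases hb : b = 0
  · refine ⟨0, ?_, ?_⟩
    · rw [hb, comb_zero, mul_zero]
    · rw [hb, L_zero, mul_zero]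
  obtain ⟨c, hc, hcc, hlead⟩ := comb_mul h φ hφ a b ha hb
  refine ⟨c, hcc, ?_⟩
  obtain ⟨v₁, hv₁, hm₁⟩ := exists_max φ ha
  obtain ⟨v₂, hv₂, hm₂⟩ := exists_max φ hb
  obtain ⟨h1, h2⟩ := hlead v₁ hv₁ hm₁ v₂ hv₂ hm₂
  rw [L_eq φ h1 h2, L_eq φ hv₁ hm₁, L_eq φ hv₂ hm₂, map_add, Real.exp_add]

theorem L_mul {ι : K →+* K'} {x : E → K'} (h : Cross ι x) (φ : E →+ ℝ)
    (hφ : Function.Injective φ) {a b c d : E →₀ K}
    (he : comb ι x a * comb ι x b = comb ι x c * comb ι x d) :
    L φ a * L φ b = L φ c * L φ d := by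
  obtain ⟨e, he1, he2⟩ := exists_c h φ hφ a b
  obtain ⟨f, hf1, hf2⟩ := exists_c h φ hφ c d
  have : e = f := comb_inj h (by rw [← he1, ← hf1, he])
  rw [← he2, ← hf2, this]

/-- the value -/
noncomputable def w {ι : K →+* K'} {x : E → K'} (h : Cross ι x) (φ : E →+ ℝ) (κ : K') : ℝ :=
  L φ (h.frac κ).choose_spec.choose / L φ (h.frac κ).choose

theorem w_eq {ι : K →+* K'} {x : E → K'} (h : Cross ι x) (φ : E →+ ℝ)
    (hφ : Function.Injective φ) {κ : K'} {a b : E →₀ K} (ha : comb ι x a ≠ 0)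
    (hab : comb ι x a * κ = comb ι x b) : w h φ κ = L φ b / L φ a := by
  unfold w
  have hs := (h.frac κ).choose_spec.choose_spec
  generalize (h.frac κ).choose_spec.choose = b0 at hs
  generalize (h.frac κ).choose = a0 at hs
  obtain ⟨ha0, hab0⟩ := hs
  obtain ⟨p, q, hp, hq, hpq⟩ := comb_common h a a0 (ne_of_comb ha) (ne_of_comb ha0)
  have h2 : comb ι x p * comb ι x b = comb ι x q * comb ι x b0 := by
    rw [← hab, ← hab0, ← mul_assoc, ← mul_assoc, hpq]
  have e1 := L_mul h φ hφ hpq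
  have e2 := L_mul h φ hφ h2
  have p1 := L_pos φ hp
  have p2 := L_pos φ hq
  have p3 := L_pos φ (ne_of_comb ha)
  have p4 := L_pos φ (ne_of_comb ha0)
  rw [div_eq_div_iff p4.ne' p3.ne']
  have : (L φ p * L φ q) * (L φ b0 * L φ a) = (L φ p * L φ q) * (L φ b * L φ a0) := by
    calc (L φ p * L φ q) * (L φ b0 * L φ a) = (L φ q * L φ b0) * (L φ p * L φ a) := by ring
      _ = (L φ p * L φ b) * (L φ q * L φ a0) := by rw [e1, e2]
      _ = (L φ p * L φ q) * (L φ b * L φ a0) := by ring
  exact mul_left_cancel₀ (by positivity) this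

end basic

end VE

open VE in
theorem val_exists {K K' E : Type} [DivisionRing K] [DivisionRing K'] [AddCommGroup E]
    {ι : K →+* K'} {x : E → K'} (h : Cross ι x) (φ : E →+ ℝ) (hφ : Function.Injective φ) :
    ∃ w : K' → ℝ, Val ι x φ w := by
  have w0 : VE.w h φ 0 = 0 := by
    obtain ⟨a, b, ha, hab⟩ := h.frac 0
    have hb : b = 0 := by
      apply h.indep
      rw [← hab, mul_zero]
    rw [w_eq h φ hφ ha hab, hb, L_zero, zero_div]
  have hx0 : comb ι x (Finsupp.single 0 1) = x 0 := by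
    rw [comb_single, map_one, one_mul]
  have hL0 : L φ (Finsupp.single (0 : E) (1 : K)) = 1 := by
    rw [L_eq φ (v := 0) (by simp) (by
      intro u hu
      rw [Finsupp.support_single_ne_zero _ one_ne_zero, Finset.mem_singleton] at hu
      rw [hu]), map_zero, Real.exp_zero]
  have hLs : ∀ (v : E) (c : K), c ≠ 0 → L φ (Finsupp.single v c) = Real.exp (φ v) := by
    intro v c hc
    apply L_eq φ
    · rw [Finsupp.support_single_ne_zero _ hc]
      simp
    · intro u hu
      rw [Finsupp.support_single_ne_zero _ hc, Finset.mem_singleton] at hu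
      rw [hu]
  refine ⟨VE.w h φ, ?_, ?_, ?_, ?_, ?_, ?_, ?_, ?_⟩
  · intro κ
    exact div_nonneg (L_nonneg φ _) (L_nonneg φ _)
  · intro κ
    constructor
    · intro hw
      obtain ⟨a, b, ha, hab⟩ := h.frac κ
      rw [w_eq h φ hφ ha hab] at hw
      have hLa := L_pos φ (ne_of_comb ha)
      have hb : b = 0 := by
        by_contra hb
        have := div_pos (L_pos φ hb) hLa
        linarith
      rw [hb, comb_zero] at hab
      exact (mul_eq_zero.1 hab).resolve_left ha
    · rintro rfl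
      exact w0
  · intro κ κ'
    obtain ⟨a, b, ha, hab⟩ := h.frac κ
    obtain ⟨a', b', ha', hab'⟩ := h.frac κ'
    by_cases hb : b = 0
    · have hκ : κ = 0 := by
        rw [hb, comb_zero] at hab
        exact (mul_eq_zero.1 hab).resolve_left ha
      rw [hκ, zero_mul, w0, zero_mul]
    obtain ⟨p, q, hp, hq, hpq⟩ := comb_common h b a' hb (ne_of_comb ha')
    obtain ⟨c, hc1, hc2⟩ := exists_c h φ hφ p a
    obtain ⟨c', hc1', hc2'⟩ := exists_c h φ hφ q b'
    have hc0 : comb ι x c ≠ 0 := by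
      rw [← hc1]
      exact mul_ne_zero (comb_ne h hp) ha
    have hcc : comb ι x c * (κ * κ') = comb ι x c' := by
      rw [← hc1, ← hc1', ← hab', ← mul_assoc (comb ι x q), ← hpq, ← hab]
      simp only [mul_assoc]
    rw [w_eq h φ hφ hc0 hcc, w_eq h φ hφ ha hab, w_eq h φ hφ ha' hab', hc2, hc2']
    have e1 := L_mul h φ hφ hpq
    have p1 := L_pos φ hp
    have p3 := L_pos φ (ne_of_comb ha)
    have p4 := L_pos φ (ne_of_comb ha')
    rw [div_mul_div_comm, div_eq_div_iff (by positivity) (by positivity)]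
    calc L φ q * L φ b' * (L φ a * L φ a') = (L φ q * L φ a') * (L φ b' * L φ a) := by ring
      _ = (L φ p * L φ b) * (L φ b' * L φ a) := by rw [e1]
      _ = L φ b * L φ b' * (L φ p * L φ a) := by ring
  · intro κ κ'
    obtain ⟨a, b, ha, hab⟩ := h.frac κ
    obtain ⟨a', b', ha', hab'⟩ := h.frac κ'
    obtain ⟨p, q, hp, hq, hpq⟩ := comb_common h a a' (ne_of_comb ha) (ne_of_comb ha')
    obtain ⟨d, hd1, hd2⟩ := exists_c h φ hφ p a
    obtain ⟨e, he1, he2⟩ := exists_c h φ hφ p b
    obtain ⟨e', he1', he2'⟩ := exists_c h φ hφ q b'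
    have hd0 : comb ι x d ≠ 0 := by
      rw [← hd1]
      exact mul_ne_zero (comb_ne h hp) ha
    have h1 : comb ι x d * κ = comb ι x e := by
      rw [← hd1, ← he1, ← hab, mul_assoc]
    have h2 : comb ι x d * κ' = comb ι x e' := by
      rw [← hd1, ← he1', ← hab', hpq, mul_assoc]
    have h3 : comb ι x d * (κ + κ') = comb ι x (e + e') := by
      rw [mul_add, h1, h2, comb_add]
    rw [w_eq h φ hφ hd0 h3, w_eq h φ hφ hd0 h1, w_eq h φ hφ hd0 h2]
    have p3 := L_pos φ (ne_of_comb hd0)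
    refine (div_le_div_of_nonneg_right (L_add φ e e') p3.le).trans ?_
    rcases le_total (L φ e) (L φ e') with h5 | h5
    · rw [max_eq_right h5]
      exact le_max_right _ _
    · rw [max_eq_left h5]
      exact le_max_left _ _
  · intro v
    obtain ⟨c, hc⟩ := h.mul 0 v
    rw [zero_add] at hc
    have hc0 : c ≠ 0 := by
      rintro rfl
      rw [map_zero, zero_mul] at hc
      exact mul_ne_zero (h.ne 0) (h.ne v) hc
    have hab : comb ι x (Finsupp.single 0 1) * x v = comb ι x (Finsupp.single v c) := by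
      rw [hx0, comb_single, hc]
    rw [w_eq h φ hφ (by rw [hx0]; exact h.ne 0) hab, hL0, div_one, hLs v c hc0]
  · intro k hk
    obtain ⟨τ, hτ⟩ := h.norm 0
    have hab : comb ι x (Finsupp.single 0 1) * ι k = comb ι x (Finsupp.single 0 (τ k)) := by
      rw [hx0, comb_single, hτ]
    have hτ0 : τ k ≠ 0 := by
      intro h0
      exact hk (τ.injective (by rw [h0, map_zero]))
    rw [w_eq h φ hφ (by rw [hx0]; exact h.ne 0) hab, hL0, div_one, hLs 0 _ hτ0, map_zero,
      Real.exp_zero]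
  · intro κ hκ
    obtain ⟨a, b, ha, hab⟩ := h.frac κ
    have hb : b ≠ 0 := by
      rintro rfl
      rw [comb_zero] at hab
      exact hκ ((mul_eq_zero.1 hab).resolve_left ha)
    obtain ⟨v₁, hv₁, hm₁⟩ := exists_max φ (ne_of_comb ha)
    obtain ⟨v₂, hv₂, hm₂⟩ := exists_max φ hb
    refine ⟨v₂ - v₁, ?_⟩
    rw [w_eq h φ hφ ha hab, L_eq φ hv₁ hm₁, L_eq φ hv₂ hm₂, map_sub, Real.exp_sub]
  · intro κ hκ
    obtain ⟨a, b, ha, hab⟩ := h.frac κ
    choose τ hτ using h.norm
    obtain ⟨v₀, hv₀, hm₀⟩ := exists_max φ (ne_of_comb ha)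
    have ha0 : a v₀ ≠ 0 := Finsupp.mem_support_iff.1 hv₀
    set k : K := (τ v₀).symm ((a v₀)⁻¹ * b v₀) with hk
    refine ⟨k, ?_⟩
    set a' : E →₀ K := Finsupp.onFinset a.support (fun v => a v * τ v k) (by
      intro v hv
      exact Finsupp.mem_support_iff.2 (left_ne_zero_of_mul hv)) with ha'
    have hcomb : comb ι x a * ι k = comb ι x a' := by
      rw [ha']
      unfold comb
      rw [Finsupp.onFinset_sum _ (by intro v; simp), Finsupp.sum, Finset.sum_mul]
      apply Finset.sum_congr rfl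
      intro v _
      rw [mul_assoc, hτ, map_mul, mul_assoc]
    have hdiff : comb ι x a * (κ - ι k) = comb ι x (b - a') := by
      rw [mul_sub, hab, hcomb, comb_sub]
    rw [w_eq h φ hφ ha hdiff]
    have hLa := L_pos φ (ne_of_comb ha)
    rw [div_lt_one hLa]
    by_cases hd : b - a' = 0
    · rw [hd, L_zero]
      exact hLa
    obtain ⟨v, hv, hm⟩ := exists_max φ hd
    rw [L_eq φ hv hm, L_eq φ hv₀ hm₀]
    apply Real.exp_lt_exp.2
    have hvne : v ≠ v₀ := by
      rintro rfl
      apply Finsupp.mem_support_iff.1 hv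
      rw [Finsupp.sub_apply, ha', Finsupp.onFinset_apply, hk, RingEquiv.apply_symm_apply,
        ← mul_assoc, mul_inv_cancel₀ ha0, one_mul, sub_self]
    have hle : φ v ≤ φ v₀ := by
      by_cases hbv : v ∈ b.support
      · have h1 : Real.exp (φ v) ≤ L φ b := le_L φ hbv
        have h2 : L φ b ≤ L φ a := by
          have := hκ
          rw [w_eq h φ hφ ha hab, div_le_one hLa] at this
          exact this
        have h3 : L φ a = Real.exp (φ v₀) := L_eq φ hv₀ hm₀
        exact Real.exp_le_exp.1 (h1.trans (h2.trans h3.le))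
      · apply hm₀
        rw [Finsupp.notMem_support_iff] at hbv
        have h4 := Finsupp.mem_support_iff.1 hv
        rw [Finsupp.sub_apply, hbv, zero_sub, neg_ne_zero, ha', Finsupp.onFinset_apply] at h4
        exact Finsupp.mem_support_iff.2 (left_ne_zero_of_mul h4)
    exact lt_of_le_of_ne hle (fun he => hvne (hφ he))

end Pool.Agent.Helper933.HC
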