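import Pool.Agent.Helper933.HC.Defs
import Pool.Agent.Helper933.HC.P_val_exists
import Pool.Agent.Helper933.HC.P_val_loc
import Pool.Agent.Helper933.HC.P_val_compat
import Pool.Agent.Helper933.HC.P_compat_iter
import Pool.Agent.Helper933.HC.P_h_top

set_option autoImplicit false

namespace Pool.Agent.Helper933.HC
open Module


/-! helper lemmas for h_bound -/

/-- the properties of absolute values that are needed. -/
def HbV {K K' : Type} [DivisionRing K] [DivisionRing K'] (ι : K →+* K') (w : K' → ℝ) : Prop :=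
  (∀ κ, 0 ≤ w κ) ∧ (w 0 = 0) ∧ (∀ κ κ', w (κ * κ') = w κ * w κ') ∧
    (∀ κ κ', w (κ + κ') ≤ max (w κ) (w κ')) ∧ (∀ k, w (ι k) ≤ 1)

theorem hbV_of_val {K K' E : Type} [DivisionRing K] [DivisionRing K'] [AddCommGroup E]
    {ι : K →+* K'} {x : E → K'} {φ : E →+ ℝ} {w : K' → ℝ} (hw : Val ι x φ w) : HbV ι w := by
  refine ⟨hw.nonneg, (hw.zero 0).mpr rfl, hw.mul, hw.add, fun k => ?_⟩
  by_cases hk : k = 0
  · subst hk
    rw [map_zero, (hw.zero 0).mpr rfl]
    exact zero_le_one
  · exact (hw.base k hk).le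

theorem hb_sum_lt {K K' : Type} [DivisionRing K] [DivisionRing K'] {ι : K →+* K'} {w : K' → ℝ}
    (hw : HbV ι w) {α : Type} (s : Finset α) (f : α → K') (hf : ∀ i ∈ s, w (f i) < 1) :
    w (∑ i ∈ s, f i) < 1 := by
  classical
  induction s using Finset.induction_on with
  | empty => rw [Finset.sum_empty, hw.2.1]; exact zero_lt_one
  | insert a s ha ih =>
    rw [Finset.sum_insert ha]
    refine lt_of_le_of_lt (hw.2.2.2.1 _ _) (max_lt (hf a (Finset.mem_insert_self a s)) ?_)
    exact ih (fun i hi => hf i (Finset.mem_insert_of_mem hi))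

/-- coordinates of small absolute value -/
def HbS {K' X : Type} [DivisionRing K'] [AddCommGroup X] [Module K' X] {k : ℕ} (n : Fin k → X)
    (w : K' → ℝ) (ξ : X) : Prop :=
  ∃ κ : Fin k → K', ξ = ∑ i, κ i • n i ∧ ∀ i, w (κ i) < 1

theorem hb_small_of {K K' X : Type} [DivisionRing K] [DivisionRing K']
    {ι : K →+* K'} [AddCommGroup X] [Module K' X] [Module K X]
    (hι : ∀ (k : K) (ξ : X), k • ξ = ι k • ξ) {k : ℕ} (n : Fin k → X)
    {w : K' → ℝ} (hw : HbV ι w) (m : Fin k → X) (hm : ∀ i, m i ∈ Submodule.span K (Set.range n))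
    (c : Fin k → K') (hc : ∀ i, w (c i) < 1) : HbS n w (∑ i, c i • m i) := by
  have h1 : ∀ i, ∃ a : Fin k → K, ∑ l, a l • n l = m i := by
    intro i
    exact (Submodule.mem_span_range_iff_exists_fun K).mp (hm i)
  choose a ha using h1
  refine ⟨fun l => ∑ i, c i * ι (a i l), ?_, ?_⟩
  · simp_rw [← ha, hι, Finset.smul_sum, Finset.sum_smul, smul_smul]
    exact Finset.sum_comm
  · intro l
    apply hb_sum_lt hw
    intro i _
    rw [hw.2.2.1]
    calc w (c i) * w (ι (a i l)) ≤ w (c i) * 1 :=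
          mul_le_mul_of_nonneg_left (hw.2.2.2.2 _) (hw.1 _)
      _ < 1 := by rw [mul_one]; exact hc i

theorem hb_u_iff {K K' X : Type} [DivisionRing K] [DivisionRing K']
    {ι : K →+* K'} [AddCommGroup X] [Module K' X] [Module K X]
    (hι : ∀ (k : K) (ξ : X), k • ξ = ι k • ξ) {k : ℕ} (n : Fin k → X)
    (σ : K' ≃+* K') (u : X ≃+ X) (hu : ∀ (κ : K') (ξ : X), u (κ • ξ) = σ κ • u ξ)
    (hst : Stable u (Submodule.span K (Set.range n)))
    {w : K' → ℝ} (hw : HbV ι w) (hw' : HbV ι (fun κ => w (σ κ))) (ξ : X) :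
    HbS n w (u ξ) ↔ HbS n (fun κ => w (σ κ)) ξ := by
  constructor
  · rintro ⟨κ, h1, h2⟩
    have h3 : ξ = ∑ i, (σ.symm (κ i)) • (u.symm (n i)) := by
      apply u.injective
      rw [h1, map_sum]
      refine Finset.sum_congr rfl fun i _ => ?_
      rw [hu, RingEquiv.apply_symm_apply, AddEquiv.apply_symm_apply]
    rw [h3]
    apply hb_small_of hι n hw'
    · intro i
      have := hst (u.symm (n i))
      rw [AddEquiv.apply_symm_apply] at this
      exact this.mp (Submodule.subset_span ⟨i, rfl⟩)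
    · intro i
      simp only [RingEquiv.apply_symm_apply]
      exact h2 i
  · rintro ⟨κ, h1, h2⟩
    have h3 : u ξ = ∑ i, (σ (κ i)) • (u (n i)) := by
      rw [h1, map_sum]
      exact Finset.sum_congr rfl fun i _ => hu _ _
    rw [h3]
    apply hb_small_of hι n hw
    · intro i
      exact (hst (n i)).mpr (Submodule.subset_span ⟨i, rfl⟩)
    · exact h2

theorem hb_exists_sub {K K' X : Type} [DivisionRing K] [DivisionRing K']
    {ι : K →+* K'} [AddCommGroup X] [Module K' X] [Module K X]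
    (hι : ∀ (k : K) (ξ : X), k • ξ = ι k • ξ) {k : ℕ} (n : Fin k → X)
    {w : K' → ℝ} (hw : HbV ι w) (W : Submodule K X) :
    ∃ V : Submodule K X, ∀ ξ, ξ ∈ V ↔ ξ ∈ W ∧ HbS n w ξ := by
  refine ⟨{ carrier := {ξ | ξ ∈ W ∧ HbS n w ξ}, add_mem' := ?_, zero_mem' := ?_, smul_mem' := ?_ },
    fun ξ => Iff.rfl⟩
  · rintro a b ⟨ha, κ, h1, h2⟩ ⟨hb, κ', h1', h2'⟩
    refine ⟨add_mem ha hb, fun i => κ i + κ' i, ?_, ?_⟩
    · rw [h1, h1', ← Finset.sum_add_distrib]
      exact Finset.sum_congr rfl fun i _ => (add_smul _ _ _).symm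
    · intro i
      exact lt_of_le_of_lt (hw.2.2.2.1 _ _) (max_lt (h2 i) (h2' i))
  · refine ⟨zero_mem W, fun _ => 0, ?_, ?_⟩
    · simp
    · intro i
      simp only [hw.2.1]
      exact zero_lt_one
  · rintro a ξ ⟨ha, κ, h1, h2⟩
    refine ⟨W.smul_mem a ha, fun i => ι a * κ i, ?_, ?_⟩
    · rw [hι, h1, Finset.smul_sum]
      exact Finset.sum_congr rfl fun i _ => smul_smul _ _ _
    · intro i
      simp only [hw.2.2.1]
      calc w (ι a) * w (κ i) ≤ 1 * w (κ i) :=
            mul_le_mul_of_nonneg_right (hw.2.2.2.2 _) (hw.1 _)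
        _ < 1 := by rw [one_mul]; exact h2 i

theorem hb_iter {K X : Type} [DivisionRing K] [AddCommGroup X] [Module K X]
    (u : X ≃+ X) (j : ℕ) : ∃ uj : X ≃+ X, ∀ ξ, uj ξ = (⇑u)^[j] ξ := by
  induction j with
  | zero => exact ⟨AddEquiv.refl X, fun ξ => rfl⟩
  | succ j ih =>
    obtain ⟨uj, h⟩ := ih
    refine ⟨uj.trans u, fun ξ => ?_⟩
    rw [Function.iterate_succ_apply', ← h]
    rfl

theorem hb_iter_smul {K' X : Type} [DivisionRing K'] [AddCommGroup X] [Module K' X]
    (σ : K' ≃+* K') (u : X ≃+ X) (hu : ∀ (κ : K') (ξ : X), u (κ • ξ) = σ κ • u ξ) (j : ℕ)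
    (κ : K') (ξ : X) : (⇑u)^[j] (κ • ξ) = (⇑σ)^[j] κ • (⇑u)^[j] ξ := by
  induction j with
  | zero => rfl
  | succ j ih => rw [Function.iterate_succ_apply', Function.iterate_succ_apply', Function.iterate_succ_apply', ih, hu]

theorem hb_iter_stable {K X : Type} [DivisionRing K] [AddCommGroup X] [Module K X]
    (u : X ≃+ X) (V : Submodule K X) (j₁ : ℕ) (h : ∀ ξ, (⇑u)^[j₁] ξ ∈ V ↔ ξ ∈ V) (m : ℕ) (ξ : X) :
    (⇑u)^[j₁ * m] ξ ∈ V ↔ ξ ∈ V := by
  induction m with
  | zero => rfl
  | succ m ih =>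
    rw [Nat.mul_succ, Nat.add_comm, Function.iterate_add_apply, h, ih]

theorem h_bound {K K' E X : Type} [DivisionRing K] [DivisionRing K'] [AddCommGroup E]
    {ι : K →+* K'} {x : E → K'} (h : Cross ι x)
    {τ : K ≃+* K} {σ : K' ≃+* K'} {M : E ≃+ E} (hc : Compat ι x τ σ M)
    (φ : E →+ ℝ) (hφ : Rec φ M) (hper : ∀ v : E, ∀ j : ℕ, 0 < j → (⇑M)^[j] v = v → v = 0)
    [AddCommGroup X] [Module K' X] [Module K X] (hι : ∀ (k : K) (ξ : X), k • ξ = ι k • ξ)
    (u : X ≃+ X) (hu : ∀ (κ : K') (ξ : X), u (κ • ξ) = σ κ • u ξ) (k : ℕ) (n : Fin k → X)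
    (hn : LinearIndependent K' n) (hst : Stable u (Submodule.span K (Set.range n)))
    (W : Submodule K X) (hWf : FiniteDimensional K W)
    (hWn : ∀ ξ ∈ W, ξ ∈ Submodule.span K' (Set.range n))
    (j₁ : ℕ) (hj₁ : 0 < j₁) (hWs : ∀ ξ, (⇑u)^[j₁] ξ ∈ W ↔ ξ ∈ W) :
    finrank K W ≤ k := by
  classical
  by_cases hW0 : W = ⊥
  · subst hW0
    simp
  obtain ⟨w, hw⟩ := val_exists h φ hφ.1
  have hV : HbV ι w := hbV_of_val hw
  have huniq : ∀ κ κ' : Fin k → K', ∑ i, κ i • n i = ∑ i, κ' i • n i → κ = κ' := by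
    intro κ κ' hκ
    have h1 : ∑ i, (κ i - κ' i) • n i = 0 := by
      simp_rw [sub_smul]
      rw [Finset.sum_sub_distrib, hκ, sub_self]
    have h2 := Fintype.linearIndependent_iff.mp hn _ h1
    funext i
    exact sub_eq_zero.mp (h2 i)
  have htop := h_top h hc φ hφ hper hw hι u hu k n hn hst W hWf hW0 hWn j₁ hj₁ hWs
  obtain ⟨Wm, hWm⟩ := hb_exists_sub hι n hV W
  have hWmW : Wm ≤ W := fun ξ hξ => ((hWm ξ).mp hξ).1
  have hWmf : FiniteDimensional K Wm := Submodule.finiteDimensional_of_le hWmW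
  -- the key claim
  have hkey : Wm = ⊥ := by
    by_contra hne
    -- a basis of Wm
    let b := Module.finBasis K Wm
    have hb : ∀ i, ∃ κ : Fin k → K', ((b i : Wm) : X) = ∑ l, κ l • n l ∧ ∀ l, w (κ l) < 1 :=
      fun i => ((hWm _).mp (b i).2).2
    choose κ hκ1 hκ2 using hb
    have hloc : ∀ i l, ∃ Φ : Finset E, ∀ (φ' : E →+ ℝ) (w' : K' → ℝ), Function.Injective φ' →
        Val ι x φ' w' → (∀ e ∈ Φ, (0 < φ e ↔ 0 < φ' e)) → w' (κ i l) < 1 := by
      intro i l
      by_cases h0 : κ i l = 0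
      · refine ⟨∅, fun φ' w' _ hw' _ => ?_⟩
        rw [h0, (hw'.zero 0).mpr rfl]
        exact zero_lt_one
      · obtain ⟨v, Φ, hΦ⟩ := val_loc h φ hφ.1 (κ i l) h0
        refine ⟨Φ, fun φ' w' hφ' hw' hs => ?_⟩
        have h1 := (hΦ φ w hφ.1 hw (fun _ _ => Iff.rfl)).1
        obtain ⟨h2, h3⟩ := hΦ φ' w' hφ' hw' hs
        have h4 : φ v < 0 := by
          have h5 := hκ2 i l
          rw [h1, Real.exp_lt_one_iff] at h5
          exact h5
        have hv0 : v ≠ 0 := by
          rintro rfl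
          rw [map_zero] at h4
          exact lt_irrefl _ h4
        have h5 : ¬ 0 < φ' v := fun hh => absurd (h3.mpr hh) (not_lt.mpr h4.le)
        have h6 : φ' v ≠ 0 := by
          intro hh
          apply hv0
          apply hφ'
          rw [hh, map_zero]
        rw [h2, Real.exp_lt_one_iff]
        exact lt_of_le_of_ne (not_lt.mp h5) h6
    choose Φ hΦ using hloc
    obtain ⟨j, hj0, ⟨m, hm⟩, hjs⟩ := hφ.2 (Finset.univ.biUnion fun i => Finset.univ.biUnion fun l => Φ i l) j₁ hj₁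
    obtain ⟨τj, σj, Mj, hτj, hσj, hMj, hcj⟩ := compat_iter h hc j
    obtain ⟨uj, huj⟩ := hb_iter (K := K) u j
    have hw' := val_compat h hw hcj
    have hV' : HbV ι (fun κ => w (σj κ)) := hbV_of_val hw'
    have huj' : ∀ (κ : K') (ξ : X), uj (κ • ξ) = σj κ • uj ξ := by
      intro κ ξ
      rw [huj, huj, hσj, hb_iter_smul σ u hu]
    have hstj : Stable uj (Submodule.span K (Set.range n)) := by
      intro ξ
      rw [huj]
      have := hb_iter_stable u (Submodule.span K (Set.range n)) 1 (fun ξ => hst ξ) j ξ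
      rwa [one_mul] at this
    have hWj : ∀ ξ, uj ξ ∈ W ↔ ξ ∈ W := by
      intro ξ
      rw [huj, hm]
      exact hb_iter_stable u W j₁ hWs m ξ
    obtain ⟨Wm', hWm'⟩ := hb_exists_sub hι n hV' W
    have hWmW' : Wm' ≤ W := fun ξ hξ => ((hWm' ξ).mp hξ).1
    have hWmf' : FiniteDimensional K Wm' := Submodule.finiteDimensional_of_le hWmW'
    have hiff : ∀ ξ, uj ξ ∈ Wm ↔ ξ ∈ Wm' := by
      intro ξ
      rw [hWm, hWm', hWj, hb_u_iff hι n σj uj huj' hstj hV hV']
    have hinj' : Function.Injective (φ.comp Mj.toAddMonoidHom) :=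
      hφ.1.comp Mj.injective
    have hle : Wm ≤ Wm' := by
      have hb1 : ∀ i, ((b i : Wm) : X) ∈ Wm' := by
        intro i
        rw [hWm']
        refine ⟨hWmW (b i).2, κ i, hκ1 i, fun l => ?_⟩
        apply hΦ i l (φ.comp Mj.toAddMonoidHom) (fun κ => w (σj κ)) hinj' hw'
        intro e he
        have := hjs e (by
          simp only [Finset.mem_biUnion, Finset.mem_univ, true_and]
          exact ⟨i, l, he⟩)
        rw [this]
        have : (φ.comp Mj.toAddMonoidHom) e = φ ((⇑M)^[j] e) := by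
          rw [← hMj]; rfl
        rw [this]
      intro ξ hξ
      have h1 := b.sum_repr ⟨ξ, hξ⟩
      have h2 : ξ = ∑ i, (b.repr ⟨ξ, hξ⟩ i) • ((b i : Wm) : X) := by
        have := congrArg (fun z : Wm => (z : X)) h1
        simp only [Submodule.coe_sum, Submodule.coe_smul] at this
        exact this.symm
      rw [h2]
      exact sum_mem fun i _ => Wm'.smul_mem _ (hb1 i)
    have hfr : finrank K Wm' ≤ finrank K Wm := by
      let b' := Module.finBasis K Wm'
      have hli : LinearIndependent K (fun i => ((b' i : Wm') : X)) :=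
        b'.linearIndependent.map' Wm'.subtype (Submodule.ker_subtype _)
      have hli2 : LinearIndependent K (fun i => uj ((b' i : Wm') : X)) := by
        have := hli.map_of_injective_injective (R' := K) (M' := X) (fun r => τj.symm r) (uj : X →+ X)
          (fun r hr => by simpa using hr)
          (fun m hm => by simpa using hm)
          (fun r m => by
            change uj (τj.symm r • m) = r • uj m
            rw [hι, huj', hcj.base, RingEquiv.apply_symm_apply, ← hι])
        exact this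
      let g : Fin (finrank K Wm') → Wm := fun i => ⟨uj ((b' i : Wm') : X), (hiff _).mpr (b' i).2⟩
      have hli3 : LinearIndependent K g := by
        apply LinearIndependent.of_comp Wm.subtype
        exact hli2
      have := hli3.fintype_card_le_finrank
      simpa using this
    have heq : Wm = Wm' := Submodule.eq_of_le_of_finrank_le hle hfr
    have hst' : ∀ ξ, (⇑u)^[j] ξ ∈ Wm ↔ ξ ∈ Wm := by
      intro ξ
      rw [← huj, hiff, heq]
    obtain ⟨κ', hκ', i, hi⟩ := (h_top h hc φ hφ hper hw hι u hu k n hn hst Wm hWmf hne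
      (fun ξ hξ => hWn ξ (hWmW hξ)) j hj0 hst').2
    obtain ⟨_, κ'', h1, h2⟩ := (hWm _).mp hκ'
    have h3 := huniq _ _ h1
    have h4 := h2 i
    rw [← h3, hi] at h4
    exact lt_irrefl _ h4
  -- the residue map
  have hres : ∀ ξ : W, ∃ a : Fin k → K, ∃ κ : Fin k → K', (ξ : X) = ∑ i, κ i • n i ∧
      ∀ i, w (κ i - ι (a i)) < 1 := by
    intro ξ
    obtain ⟨κ, hκ⟩ := (Submodule.mem_span_range_iff_exists_fun K').mp (hWn ξ ξ.2)
    have h1 : ∀ i, w (κ i) ≤ 1 := htop.1 κ (by rw [hκ]; exact ξ.2)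
    choose a ha using fun i => hw.resid (κ i) (h1 i)
    exact ⟨a, κ, hκ.symm, ha⟩
  choose f κ hκ hf using hres
  have hwneg : ∀ z, w (-z) = w z := by
    intro z
    have h1 : w (-1) = 1 := by
      have h0 : w 1 = 1 := by
        have := hw.base 1 one_ne_zero
        rwa [map_one] at this
      have h2 : w (-1) * w (-1) = 1 := by
        rw [← hw.mul]; simpa using h0
      have h3 := hw.nonneg (-1)
      nlinarith [h2, h3]
    have : -z = (-1) * z := by simp
    rw [this, hw.mul, h1, one_mul]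
  have huniq2 : ∀ (c : K') (a a' : K), w (c - ι a) < 1 → w (c - ι a') < 1 → a = a' := by
    intro c a a' h1 h2
    by_contra hne
    have h3 : w (ι (a - a')) = 1 := hw.base _ (sub_ne_zero.mpr hne)
    have h4 : ι (a - a') = (c - ι a') + (-(c - ι a)) := by
      rw [map_sub]; abel
    have h5 := hw.add (c - ι a') (-(c - ι a))
    rw [← h4, h3, hwneg] at h5
    exact absurd h5 (not_le.mpr (max_lt h2 h1))
  have hfadd : ∀ ξ η : W, f (ξ + η) = f ξ + f η := by
    intro ξ η
    have h1 : κ (ξ + η) = κ ξ + κ η := by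
      apply huniq
      rw [← hκ]
      simp only [Pi.add_apply, add_smul, Finset.sum_add_distrib]
      rw [← hκ, ← hκ]
      rfl
    funext i
    apply huniq2 (κ (ξ + η) i) _ _ (hf _ i)
    rw [h1]
    simp only [Pi.add_apply, map_add]
    have : κ ξ i + κ η i - (ι (f ξ i) + ι (f η i)) = (κ ξ i - ι (f ξ i)) + (κ η i - ι (f η i)) := by
      abel
    rw [this]
    exact lt_of_le_of_lt (hw.add _ _) (max_lt (hf ξ i) (hf η i))
  have hfsmul : ∀ (c : K) (ξ : W), f (c • ξ) = c • f ξ := by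
    intro c ξ
    have h1 : κ (c • ξ) = fun i => ι c * κ ξ i := by
      apply huniq
      rw [← hκ]
      rw [Submodule.coe_smul, hι, hκ ξ, Finset.smul_sum]
      exact Finset.sum_congr rfl fun i _ => smul_smul _ _ _
    funext i
    apply huniq2 (κ (c • ξ) i) _ _ (hf _ i)
    rw [h1]
    simp only [Pi.smul_apply, smul_eq_mul, map_mul]
    rw [← mul_sub, hw.mul]
    calc w (ι c) * w (κ ξ i - ι (f ξ i)) ≤ 1 * w (κ ξ i - ι (f ξ i)) :=
          mul_le_mul_of_nonneg_right (hV.2.2.2.2 _) (hw.nonneg _)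
      _ < 1 := by rw [one_mul]; exact hf ξ i
  let F : W →ₗ[K] (Fin k → K) := { toFun := f, map_add' := hfadd, map_smul' := hfsmul }
  have hFinj : Function.Injective F := by
    rw [← LinearMap.ker_eq_bot, LinearMap.ker_eq_bot']
    intro ξ hξ
    have h0 : f ξ = 0 := hξ
    have h1 : (ξ : X) ∈ Wm := by
      rw [hWm]
      refine ⟨ξ.2, κ ξ, hκ ξ, fun i => ?_⟩
      have := hf ξ i
      rw [h0] at this
      simpa using this
    rw [hkey, Submodule.mem_bot] at h1
    exact Subtype.ext h1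
  have := LinearMap.finrank_le_finrank_of_injective hFinj
  simpa using this

end Pool.Agent.Helper933.HC
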