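import Pool.Agent.Helper933.HC.Defs

set_option autoImplicit false

namespace Pool.Agent.Helper933.HC
open Module


/-- leading coefficients of a `K'`-subspace of `K'^k`. -/
theorem zphi {K K' E : Type} [DivisionRing K] [DivisionRing K'] [AddCommGroup E]
    {ι : K →+* K'} {x : E → K'} (h : Cross ι x) {φ : E →+ ℝ} (hφ : Function.Injective φ)
    {w : K' → ℝ} (hw : Val ι x φ w) {k : ℕ} (Z : Submodule K' (Fin k → K')) :
    ∃ Z₀ : Submodule K (Fin k → K),
      (∀ a, a ∈ Z₀ ↔ ∃ κ ∈ Z, ∀ i, w (κ i - ι (a i)) < 1) ∧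
      finrank K Z₀ ≤ finrank K' Z ∧ (Z ≠ ⊥ → Z₀ ≠ ⊥) := by
  classical
  have hw0 : w 0 = 0 := (hw.zero 0).mpr rfl
  have hw1 : w 1 = 1 := by
    have := hw.base 1 one_ne_zero
    rwa [map_one] at this
  have hwι : ∀ (c : K) (y : K'), w (ι c * y) ≤ w y := by
    intro c y
    rw [hw.mul]
    by_cases hk : c = 0
    · rw [hk, map_zero, hw0, zero_mul]; exact hw.nonneg y
    · rw [hw.base c hk, one_mul]
  have hwι1 : ∀ c : K, w (ι c) ≤ 1 := by
    intro c
    by_cases hk : c = 0
    · rw [hk, map_zero, hw0]; exact zero_le_one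
    · rw [hw.base c hk]
  have hpos : ∀ y, y ≠ 0 → 0 < w y := fun y hy =>
    lt_of_le_of_ne (hw.nonneg y) (fun h => hy ((hw.zero y).mp h.symm))
  have hinv : ∀ y z, y ≠ 0 → w z ≤ w y → w (y⁻¹ * z) ≤ 1 := by
    intro y z hy hz
    have h1 : w y⁻¹ * w y = 1 := by rw [← hw.mul, inv_mul_cancel₀ hy, hw1]
    rw [hw.mul]
    calc w y⁻¹ * w z ≤ w y⁻¹ * w y := mul_le_mul_of_nonneg_left hz (hw.nonneg _)
      _ = 1 := h1
  have hadd : ∀ a b, w a < 1 → w b < 1 → w (a + b) < 1 := fun a b ha hb =>
    lt_of_le_of_lt (hw.add a b) (max_lt ha hb)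
  have hneg : ∀ y, w (-y) = w y := by
    intro y
    have h1 : w (-1) = 1 := by
      have := hw.base (-1) (neg_ne_zero.mpr one_ne_zero)
      rwa [map_neg, map_one] at this
    rw [← neg_one_mul, hw.mul, h1, one_mul]
  have hsum : ∀ {n : ℕ} (f : Fin n → K'), (∀ j, w (f j) < 1) → w (∑ j, f j) < 1 := by
    intro n f hf
    exact Finset.sum_induction f (fun y => w y < 1) hadd
      (by rw [hw0]; exact zero_lt_one) (fun j _ => hf j)
  let Z₀ : Submodule K (Fin k → K) :=
    { carrier := {a | ∃ κ ∈ Z, ∀ i, w (κ i - ι (a i)) < 1}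
      zero_mem' := ⟨0, Z.zero_mem, fun i => by simp [hw0]⟩
      add_mem' := by
        rintro a b ⟨κ, hκ, h1⟩ ⟨κ', hκ', h2⟩
        refine ⟨κ + κ', Z.add_mem hκ hκ', fun i => ?_⟩
        have h3 : (κ + κ') i - ι ((a + b) i) = (κ i - ι (a i)) + (κ' i - ι (b i)) := by
          rw [Pi.add_apply, Pi.add_apply, map_add]; abel
        rw [h3]
        exact hadd _ _ (h1 i) (h2 i)
      smul_mem' := by
        rintro c a ⟨κ, hκ, h1⟩
        refine ⟨ι c • κ, Z.smul_mem _ hκ, fun i => ?_⟩
        have h3 : (ι c • κ) i - ι ((c • a) i) = ι c * (κ i - ι (a i)) := by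
          rw [Pi.smul_apply, Pi.smul_apply, smul_eq_mul, smul_eq_mul, map_mul, mul_sub]
        rw [h3]
        exact lt_of_le_of_lt (hwι _ _) (h1 i) }
  refine ⟨Z₀, fun a => Iff.rfl, ?_, ?_⟩
  · have hfin : Module.Finite K Z₀ := inferInstance
    have hfin' : Module.Finite K' Z := inferInstance
    let b := Module.finBasis K Z₀
    have hmem : ∀ j, ∃ κ ∈ Z, ∀ i, w (κ i - ι ((b j : Fin k → K) i)) < 1 := fun j => (b j).2
    choose κ hκ hκ2 using hmem
    have hli : LinearIndependent K' (fun j => (⟨κ j, hκ j⟩ : Z)) := by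
      rw [Fintype.linearIndependent_iff]
      intro l hl j1
      by_contra hne
      obtain ⟨j0, -, hj0⟩ := Finset.exists_max_image Finset.univ (fun j => w (l j))
        ⟨j1, Finset.mem_univ _⟩
      have hl0 : l j0 ≠ 0 := by
        intro h0
        have h1 := hj0 j1 (Finset.mem_univ _)
        rw [h0, hw0] at h1
        exact absurd (hpos _ hne) (not_lt.mpr h1)
      have hμ : ∀ j, w ((l j0)⁻¹ * l j) ≤ 1 := fun j => hinv _ _ hl0 (hj0 j (Finset.mem_univ _))
      have hres : ∀ j, ∃ c : K, w ((l j0)⁻¹ * l j - ι c) < 1 := fun j => hw.resid _ (hμ j)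
      choose c hc using hres
      have hc0 : c j0 ≠ 0 := by
        intro h0
        have h1 := hc j0
        rw [h0, map_zero, sub_zero, inv_mul_cancel₀ hl0, hw1] at h1
        exact lt_irrefl _ h1
      have hrel : ∀ i, ∑ j, ((l j0)⁻¹ * l j) * κ j i = 0 := by
        intro i
        have h1 := congrArg (fun z : Z => (z : Fin k → K') i) hl
        simp only [Submodule.coe_sum, Submodule.coe_smul, Finset.sum_apply, Pi.smul_apply,
          smul_eq_mul, Submodule.coe_zero, Pi.zero_apply] at h1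
        simp only [mul_assoc]
        rw [← Finset.mul_sum, h1, mul_zero]
      have hκ1 : ∀ j i, w (κ j i) ≤ 1 := by
        intro j i
        have h1 : κ j i = (κ j i - ι ((b j : Fin k → K) i)) + ι ((b j : Fin k → K) i) := by abel
        rw [h1]
        exact (hw.add _ _).trans (max_le (hκ2 j i).le (hwι1 _))
      have hz : ∀ i, ∑ j, c j * (b j : Fin k → K) i = 0 := by
        intro i
        by_contra hne2
        have h1 := hw.base _ hne2
        have h2 : w (ι (∑ j, c j * (b j : Fin k → K) i)) < 1 := by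
          have h3 : ι (∑ j, c j * (b j : Fin k → K) i) =
              ∑ j, (ι (c j) * ι ((b j : Fin k → K) i) - ((l j0)⁻¹ * l j) * κ j i) := by
            rw [Finset.sum_sub_distrib, hrel, sub_zero, map_sum]
            refine Finset.sum_congr rfl fun j _ => ?_
            rw [map_mul]
          rw [h3]
          refine hsum _ fun j => ?_
          have h4 : ι (c j) * ι ((b j : Fin k → K) i) - ((l j0)⁻¹ * l j) * κ j i =
              -(ι (c j) * (κ j i - ι ((b j : Fin k → K) i))) +
              -(((l j0)⁻¹ * l j - ι (c j)) * κ j i) := by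
            rw [mul_sub, sub_mul]; abel
          rw [h4]
          refine hadd _ _ ?_ ?_
          · rw [hneg]
            exact lt_of_le_of_lt (hwι _ _) (hκ2 j i)
          · rw [hneg, hw.mul]
            calc w ((l j0)⁻¹ * l j - ι (c j)) * w (κ j i) ≤
                w ((l j0)⁻¹ * l j - ι (c j)) * 1 :=
                  mul_le_mul_of_nonneg_left (hκ1 j i) (hw.nonneg _)
              _ < 1 := by rw [mul_one]; exact hc j
        rw [h1] at h2
        exact lt_irrefl _ h2
      have hz2 : ∑ j, c j • b j = 0 := by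
        apply Subtype.ext
        funext i
        simp only [Submodule.coe_sum, Submodule.coe_smul, Finset.sum_apply, Pi.smul_apply,
          smul_eq_mul, Submodule.coe_zero, Pi.zero_apply]
        exact hz i
      exact hc0 (Fintype.linearIndependent_iff.mp b.linearIndependent c hz2 j0)
    have h5 := hli.fintype_card_le_finrank
    rwa [Fintype.card_fin] at h5
  · intro hZ
    obtain ⟨κ, hκ, hκ0⟩ := Submodule.exists_mem_ne_zero_of_ne_bot hZ
    obtain ⟨i1, hi1⟩ : ∃ i, κ i ≠ 0 := by
      by_contra hcon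
      push Not at hcon
      exact hκ0 (funext hcon)
    obtain ⟨i0, -, hi0⟩ := Finset.exists_max_image Finset.univ (fun i => w (κ i))
      ⟨i1, Finset.mem_univ _⟩
    have hκi0 : κ i0 ≠ 0 := by
      intro h0
      have h1 := hi0 i1 (Finset.mem_univ _)
      rw [h0, hw0] at h1
      exact absurd (hpos _ hi1) (not_lt.mpr h1)
    have hres : ∀ i, ∃ c : K, w ((κ i0)⁻¹ * κ i - ι c) < 1 := fun i =>
      hw.resid _ (hinv _ _ hκi0 (hi0 i (Finset.mem_univ _)))
    choose a ha using hres
    have hac : a ∈ Z₀ := ⟨(κ i0)⁻¹ • κ, Z.smul_mem _ hκ, ha⟩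
    have ha0 : a i0 ≠ 0 := by
      intro h0
      have h1 := ha i0
      rw [h0, map_zero, sub_zero, inv_mul_cancel₀ hκi0, hw1] at h1
      exact lt_irrefl _ h1
    intro hbot
    rw [hbot, Submodule.mem_bot] at hac
    exact ha0 (congrFun hac i0)

end Pool.Agent.Helper933.HC
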