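import Pool.Agent.Helper933.HC.Defs
import Pool.Agent.Helper933.HC.P_val_exists
import Pool.Agent.Helper933.HC.P_val_loc
import Pool.Agent.Helper933.HC.P_val_compat
import Pool.Agent.Helper933.HC.P_compat_iter
import Pool.Agent.Helper933.HC.P_zphi

set_option autoImplicit false

namespace Pool.Agent.Helper933.HC
open Module


theorem ios_loc {K K' E : Type} [DivisionRing K] [DivisionRing K'] [AddCommGroup E]
    {ι : K →+* K'} {x : E → K'} (h : Cross ι x) (φ : E →+ ℝ) (hφ : Function.Injective φ)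
    {w : K' → ℝ} (hw : Val ι x φ w) (y : K') (hy : w y < 1) :
    ∃ Φ : Finset E, ∀ (φ' : E →+ ℝ) (w' : K' → ℝ), Function.Injective φ' →
      Val ι x φ' w' → (∀ e ∈ Φ, (0 < φ e ↔ 0 < φ' e)) → w' y < 1 := by
  by_cases h0 : y = 0
  · refine ⟨∅, fun φ' w' _ hw' _ => ?_⟩
    rw [(hw'.zero y).2 h0]; exact one_pos
  · obtain ⟨v, Φ, hΦ⟩ := val_loc h φ hφ y h0
    refine ⟨Φ, fun φ' w' hφ' hw' hs => ?_⟩
    obtain ⟨h1, -⟩ := hΦ φ w hφ hw (fun e _ => Iff.rfl)
    obtain ⟨h2, h3⟩ := hΦ φ' w' hφ' hw' hs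
    have h4 : φ v < 0 := by
      rw [h1] at hy
      by_contra hc
      exact absurd (Real.one_le_exp (not_lt.1 hc)) (not_le.2 hy)
    have h5 : φ' v ≠ 0 := by
      intro h6
      have h7 : v = 0 := hφ' (by rw [h6, map_zero])
      rw [h7, map_zero] at h4; exact lt_irrefl _ h4
    have h8 : ¬ 0 < φ' v := fun h9 => absurd (h3.2 h9) (not_lt.2 h4.le)
    have h10 : φ' v < 0 := lt_of_le_of_ne (not_lt.1 h8) h5
    rw [h2]
    have h11 := Real.exp_lt_exp.2 h10
    rwa [Real.exp_zero] at h11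

theorem ios_iter {X : Type} [AddCommGroup X] (u : X ≃+ X) (j : ℕ) :
    ∃ U : X ≃+ X, ∀ ξ, U ξ = (⇑u)^[j] ξ := by
  induction j with
  | zero => exact ⟨AddEquiv.refl X, fun ξ => rfl⟩
  | succ j ih =>
    obtain ⟨U, hU⟩ := ih
    refine ⟨u.trans U, fun ξ => ?_⟩
    rw [AddEquiv.trans_apply, hU, Function.iterate_succ_apply]

theorem ios_semi {K' X : Type} [DivisionRing K'] [AddCommGroup X] [Module K' X] (u : X ≃+ X)
    (σ : K' ≃+* K') (hu : ∀ (κ : K') (ξ : X), u (κ • ξ) = σ κ • u ξ) (j : ℕ) (κ : K') (ξ : X) :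
    (⇑u)^[j] (κ • ξ) = (⇑σ)^[j] κ • (⇑u)^[j] ξ := by
  induction j generalizing κ ξ with
  | zero => rfl
  | succ j ih =>
    rw [Function.iterate_succ_apply, hu, ih, Function.iterate_succ_apply,
      Function.iterate_succ_apply]

theorem ios_image {K X : Type} [DivisionRing K] [AddCommGroup X] [Module K X] (U : X ≃+ X)
    (τ : K ≃+* K) (hU : ∀ (k : K) (ξ : X), U (k • ξ) = τ k • U ξ) (P : Submodule K X) :
    ∃ Q : Submodule K X, (∀ ξ, U ξ ∈ Q ↔ ξ ∈ P) ∧ finrank K Q = finrank K P := by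
  have hs : ∀ (k : K) (ξ : X), U.symm (k • ξ) = τ.symm k • U.symm ξ := by
    intro k ξ
    apply U.injective
    rw [hU]; simp
  let Q : Submodule K X :=
    { carrier := {y | U.symm y ∈ P}
      add_mem' := by
        intro a b ha hb
        show U.symm (a + b) ∈ P
        rw [map_add]
        exact P.add_mem ha hb
      zero_mem' := by
        show U.symm 0 ∈ P
        rw [map_zero]
        exact P.zero_mem
      smul_mem' := by
        intro c a ha
        show U.symm (c • a) ∈ P
        rw [hs]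
        exact P.smul_mem _ ha }
  have hQ : ∀ ξ, U ξ ∈ Q ↔ ξ ∈ P := by
    intro ξ
    show U.symm (U ξ) ∈ P ↔ _
    rw [U.symm_apply_apply]
  refine ⟨Q, hQ, ?_⟩
  let e : P ≃+ Q :=
    { toFun := fun p => ⟨U p, (hQ _).2 p.2⟩
      invFun := fun q => ⟨U.symm q, q.2⟩
      left_inv := fun p => by ext; simp
      right_inv := fun q => by ext; simp
      map_add' := fun a b => by ext; simp }
  have h1 : Module.rank K P = Module.rank K Q :=
    rank_eq_of_equiv_equiv (τ : K → K) e τ.bijective (fun r m => by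
      apply Subtype.ext
      show U (r • (m : X)) = τ r • U (m : X)
      exact hU r m)
  unfold finrank
  rw [h1]

theorem ios_sum {K K' E : Type} [DivisionRing K] [DivisionRing K'] [AddCommGroup E]
    {ι : K →+* K'} {x : E → K'} {φ : E →+ ℝ} {w : K' → ℝ} (hw : Val ι x φ w) {k : ℕ}
    (s : Finset (Fin k)) (f : Fin k → K') (hf : ∀ i, w (f i) < 1) : w (∑ i ∈ s, f i) < 1 := by
  classical
  induction s using Finset.induction_on with
  | empty => rw [Finset.sum_empty, (hw.zero 0).2 rfl]; exact one_pos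
  | insert a s ha ih =>
    rw [Finset.sum_insert ha]
    exact (hw.add _ _).trans_lt (max_lt (hf a) ih)

theorem ios_base {K K' E : Type} [DivisionRing K] [DivisionRing K'] [AddCommGroup E]
    {ι : K →+* K'} {x : E → K'} {φ : E →+ ℝ} {w : K' → ℝ} (hw : Val ι x φ w) (y : K') (b : K)
    (hy : w y < 1) : w (y * ι b) < 1 := by
  rw [hw.mul]
  by_cases hb : b = 0
  · rw [hb, map_zero, (hw.zero 0).2 rfl, mul_zero]; exact one_pos
  · rw [hw.base b hb, mul_one]; exact hy

theorem indep_or_smaller {K K' E X : Type} [DivisionRing K] [DivisionRing K'] [AddCommGroup E]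
    {ι : K →+* K'} {x : E → K'} (h : Cross ι x)
    {τ : K ≃+* K} {σ : K' ≃+* K'} {M : E ≃+ E} (hc : Compat ι x τ σ M)
    (φ : E →+ ℝ) (hφ : Function.Injective φ) (J : Set ℕ)
    (hJ : ∀ Φ : Finset E, ∃ j ∈ J, 0 < j ∧ ∀ v ∈ Φ, (0 < φ v ↔ 0 < φ ((⇑M)^[j] v)))
    [AddCommGroup X] [Module K' X] [Module K X] (hι : ∀ (k : K) (ξ : X), k • ξ = ι k • ξ)
    (u : X ≃+ X) (hu : ∀ (κ : K') (ξ : X), u (κ • ξ) = σ κ • u ξ) (k : ℕ) (n : Fin k → X)
    (hn : LinearIndependent K n) (hst : Stable u (Submodule.span K (Set.range n))) :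
    LinearIndependent K' n ∨ ∃ N' ≤ Submodule.span K (Set.range n), N' ≠ ⊥ ∧
      N' ≠ Submodule.span K (Set.range n) ∧ ∃ j ∈ J, 0 < j ∧
        ∀ ξ, (⇑u)^[j] ξ ∈ N' ↔ ξ ∈ N' := by
  classical
  -- the relations
  let Z : Submodule K' (Fin k → K') := LinearMap.ker (Fintype.linearCombination K' n)
  have hZ : ∀ κ : Fin k → K', κ ∈ Z ↔ ∑ i, κ i • n i = 0 := by
    intro κ
    show κ ∈ LinearMap.ker (Fintype.linearCombination K' n) ↔ _
    rw [LinearMap.mem_ker, Fintype.linearCombination_apply]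
  by_cases hZb : Z = ⊥
  · left
    rw [Fintype.linearIndependent_iff]
    intro g hg i
    have h1 : g ∈ Z := (hZ g).2 hg
    rw [hZb, Submodule.mem_bot] at h1
    rw [h1]; rfl
  right
  obtain ⟨w, hw⟩ := val_exists h φ hφ
  obtain ⟨Z₀, hZ₀, hZ₀f, hZ₀b⟩ := zphi h hφ hw Z
  let T : (Fin k → K) →ₗ[K] X := Fintype.linearCombination K n
  have hTa : ∀ a, T a = ∑ i, a i • n i := fun a => Fintype.linearCombination_apply K n a
  have hTi : Function.Injective T := by
    rw [← LinearMap.ker_eq_bot, LinearMap.ker_eq_bot']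
    intro a ha
    rw [hTa] at ha
    have := Fintype.linearIndependent_iff.1 hn a ha
    ext i
    exact this i
  have hTr : LinearMap.range T = Submodule.span K (Set.range n) :=
    Fintype.range_linearCombination K n
  have hNle : ∀ W : Submodule K (Fin k → K), W.map T ≤ Submodule.span K (Set.range n) := by
    intro W
    rw [← hTr]
    exact LinearMap.map_le_range
  have hkpos : 0 < k := by
    rcases Nat.eq_zero_or_pos k with hk | hk
    · exfalso
      apply hZb
      subst hk
      exact Subsingleton.elim _ _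
    · exact hk
  refine ⟨Z₀.map T, hNle Z₀, ?_, ?_, ?_⟩
  · intro hbot
    apply hZ₀b hZb
    rw [eq_bot_iff]
    intro a ha
    have h2 : T a ∈ Z₀.map T := ⟨a, ha, rfl⟩
    rw [hbot, Submodule.mem_bot] at h2
    rw [Submodule.mem_bot]
    exact hTi (by rw [h2, map_zero])
  · intro htop
    have h1 : Z₀ = ⊤ := by
      rw [eq_top_iff]
      intro a _
      have h2 : T a ∈ Z₀.map T := by
        rw [htop, ← hTr]
        exact ⟨a, rfl⟩
      obtain ⟨b, hb, hab⟩ := h2
      rwa [← hTi hab]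
    have h2 : k ≤ finrank K' Z := by
      have := hZ₀f
      rw [h1, finrank_top, Module.finrank_fin_fun] at this
      exact this
    have h3 : Z = ⊤ := by
      apply Submodule.eq_top_of_finrank_eq
      apply le_antisymm (Submodule.finrank_le Z)
      rw [Module.finrank_fin_fun]
      exact h2
    have h4 : n ⟨0, hkpos⟩ = 0 := by
      have h5 : (Pi.single ⟨0, hkpos⟩ (1 : K') : Fin k → K') ∈ Z := by rw [h3]; trivial
      rw [hZ] at h5
      rw [Finset.sum_eq_single ⟨0, hkpos⟩] at h5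
      · simpa using h5
      · intro b _ hb
        rw [Pi.single_eq_of_ne hb, zero_smul]
      · intro hh
        exact absurd (Finset.mem_univ _) hh
    exact hn.ne_zero _ h4
  · -- stability
    have hfl : ∀ a : Z₀, ∃ Φ : Finset E, ∀ (φ' : E →+ ℝ) (w' : K' → ℝ),
        Function.Injective φ' → Val ι x φ' w' → (∀ e ∈ Φ, (0 < φ e ↔ 0 < φ' e)) →
        ∃ κ ∈ Z, ∀ i, w' (κ i - ι ((a : Fin k → K) i)) < 1 := by
      intro a
      obtain ⟨κ, hκ, hκa⟩ := (hZ₀ a).1 a.2
      choose Φ hΦ using fun i => ios_loc h φ hφ hw _ (hκa i)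
      refine ⟨Finset.univ.biUnion Φ, fun φ' w' hφ' hw' hs => ⟨κ, hκ, fun i => ?_⟩⟩
      exact hΦ i φ' w' hφ' hw' (fun e he => hs e
        (Finset.mem_biUnion.2 ⟨i, Finset.mem_univ _, he⟩))
    choose Ψ hΨ using hfl
    let bs := Module.finBasis K Z₀
    obtain ⟨j, hjJ, hj0, hjs⟩ := hJ (Finset.univ.biUnion fun l => Ψ (bs l))
    refine ⟨j, hjJ, hj0, ?_⟩
    obtain ⟨τj, σj, Mj, hτj, hσj, hMj, hcj⟩ := compat_iter h hc j
    have hw' := val_compat h hw hcj
    have hφ' : Function.Injective (φ.comp Mj.toAddMonoidHom) := hφ.comp Mj.injective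
    obtain ⟨Z₁, hZ₁, hZ₁f, hZ₁b⟩ := zphi h hφ' hw' Z
    have hle : Z₀ ≤ Z₁ := by
      have h1 : ∀ l, ((bs l : Z₀) : Fin k → K) ∈ Z₁ := by
        intro l
        rw [hZ₁]
        apply hΨ (bs l) _ _ hφ' hw'
        intro e he
        have := hjs e (Finset.mem_biUnion.2 ⟨l, Finset.mem_univ _, he⟩)
        rw [this, ← hMj]
        rfl
      have h2 : (⊤ : Submodule K Z₀) ≤ Z₁.comap Z₀.subtype := by
        rw [← bs.span_eq, Submodule.span_le]
        rintro _ ⟨l, rfl⟩
        exact h1 l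
      intro a ha
      exact h2 (Submodule.mem_top (x := (⟨a, ha⟩ : Z₀)))
    obtain ⟨U, hU⟩ := ios_iter u j
    have hUσ : ∀ (κ : K') (ξ : X), U (κ • ξ) = σj κ • U ξ := by
      intro κ ξ
      rw [hU, hU, hσj]
      exact ios_semi u σ hu j κ ξ
    have hUτ : ∀ (c : K) (ξ : X), U (c • ξ) = τj c • U ξ := by
      intro c ξ
      rw [hι, hUσ, hcj.base, ← hι]
    have hUn : ∀ i, U (n i) ∈ Submodule.span K (Set.range n) := by
      intro i
      rw [hU]
      have : ∀ (m : ℕ) (ξ : X), ξ ∈ Submodule.span K (Set.range n) →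
          (⇑u)^[m] ξ ∈ Submodule.span K (Set.range n) := by
        intro m
        induction m with
        | zero => intro ξ hξ; exact hξ
        | succ m ih =>
          intro ξ hξ
          rw [Function.iterate_succ_apply]
          exact ih _ ((hst ξ).2 hξ)
      exact this j _ (Submodule.subset_span ⟨i, rfl⟩)
    choose b hb using fun i => (Submodule.mem_span_range_iff_exists_fun K).1 (hUn i)
    have hmaps : ∀ ξ ∈ Z₁.map T, U ξ ∈ Z₀.map T := by
      rintro ξ ⟨a, ha, rfl⟩
      obtain ⟨κ, hκ, hκa⟩ := (hZ₁ a).1 ha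
      refine ⟨fun l => ∑ i, τj (a i) * b i l, ?_, ?_⟩
      · show _ ∈ Z₀
        rw [hZ₀]
        refine ⟨fun l => ∑ i, σj (κ i) * ι (b i l), ?_, ?_⟩
        · rw [hZ]
          have h1 : ∑ l, (∑ i, σj (κ i) * ι (b i l)) • n l = U (∑ i, κ i • n i) := by
            rw [map_sum]
            calc ∑ l, (∑ i, σj (κ i) * ι (b i l)) • n l
                = ∑ l, ∑ i, σj (κ i) • (b i l • n l) := by
                  refine Finset.sum_congr rfl fun l _ => ?_
                  rw [Finset.sum_smul]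
                  refine Finset.sum_congr rfl fun i _ => ?_
                  rw [mul_smul, ← hι]
              _ = ∑ i, ∑ l, σj (κ i) • (b i l • n l) := Finset.sum_comm
              _ = ∑ i, U (κ i • n i) := by
                  refine Finset.sum_congr rfl fun i _ => ?_
                  rw [hUσ, ← hb i, Finset.smul_sum]
          rw [h1, (hZ κ).1 hκ, map_zero]
        · intro l
          have h1 : (∑ i, σj (κ i) * ι (b i l)) - ι (∑ i, τj (a i) * b i l) =
              ∑ i, σj (κ i - ι (a i)) * ι (b i l) := by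
            rw [map_sum, ← Finset.sum_sub_distrib]
            refine Finset.sum_congr rfl fun i _ => ?_
            rw [map_sub, sub_mul, map_mul, hcj.base]
          rw [h1]
          exact ios_sum hw _ _ (fun i => ios_base hw _ _ (hκa i))
      · rw [hTa, hTa, map_sum]
        calc ∑ l, (∑ i, τj (a i) * b i l) • n l
            = ∑ l, ∑ i, τj (a i) • (b i l • n l) := by
              refine Finset.sum_congr rfl fun l _ => ?_
              rw [Finset.sum_smul]
              refine Finset.sum_congr rfl fun i _ => ?_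
              rw [mul_smul]
          _ = ∑ i, ∑ l, τj (a i) • (b i l • n l) := Finset.sum_comm
          _ = ∑ i, U (a i • n i) := by
              refine Finset.sum_congr rfl fun i _ => ?_
              rw [hUτ, ← hb i, Finset.smul_sum]
    obtain ⟨Q₁, hQ₁, hQ₁f⟩ := ios_image U τj hUτ (Z₁.map T)
    have hQ₁le : Q₁ ≤ Z₀.map T := by
      intro y hy
      obtain ⟨ξ, rfl⟩ := U.surjective y
      exact hmaps ξ ((hQ₁ ξ).1 hy)
    have hle' : Z₀.map T ≤ Z₁.map T := Submodule.map_mono hle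
    have hf1 : finrank K (Z₁.map T) ≤ finrank K (Z₀.map T) := by
      rw [← hQ₁f]
      exact Submodule.finrank_mono hQ₁le
    have heq : Z₀.map T = Z₁.map T := Submodule.eq_of_le_of_finrank_le hle' hf1
    have hQeq : Q₁ = Z₀.map T := by
      apply Submodule.eq_of_le_of_finrank_le hQ₁le
      rw [hQ₁f, ← heq]
    intro ξ
    rw [← hU]
    constructor
    · intro hξ
      rw [← hQeq, hQ₁, ← heq] at hξ
      exact hξ
    · intro hξ
      rw [← hQeq, hQ₁, ← heq]
      exact hξ

end Pool.Agent.Helper933.HC
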