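import Pool.Agent.Helper933.HC.Defs
import Pool.Agent.Helper933.HC.P_compat_iter
import Pool.Agent.Helper933.HC.P_indep_or_smaller
import Pool.Agent.Helper933.HC.P_h_bound

set_option autoImplicit false

namespace Pool.Agent.Helper933.HC
open Module


theorem iter_equiv {X : Type} [AddCommGroup X] (u : X ≃+ X) (m : ℕ) :
    ∃ u' : X ≃+ X, ∀ ξ, u' ξ = (⇑u)^[m] ξ := by
  induction m with
  | zero => exact ⟨AddEquiv.refl X, fun ξ => rfl⟩
  | succ m ih =>
    obtain ⟨v, hv⟩ := ih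
    exact ⟨u.trans v, fun ξ => by rw [Function.iterate_succ_apply, ← hv]; rfl⟩

theorem iter_semi {K' X : Type} [DivisionRing K'] [AddCommGroup X] [Module K' X]
    (f : K' → K') (u : X → X) (hu : ∀ (κ : K') (ξ : X), u (κ • ξ) = f κ • u ξ) (m : ℕ) (κ : K')
    (ξ : X) : u^[m] (κ • ξ) = f^[m] κ • u^[m] ξ := by
  induction m generalizing κ ξ with
  | zero => rfl
  | succ m ih =>
    rw [Function.iterate_succ_apply, Function.iterate_succ_apply, Function.iterate_succ_apply,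
      hu, ih]

theorem iter_stab {X : Type} (f : X → X) (S : X → Prop) (h : ∀ ξ, S (f ξ) ↔ S ξ) (m : ℕ)
    (ξ : X) : S (f^[m] ξ) ↔ S ξ := by
  induction m generalizing ξ with
  | zero => rfl
  | succ m ih => rw [Function.iterate_succ_apply, ih, h]

theorem rec_iter {E : Type} [AddCommGroup E] {φ : E →+ ℝ} {M M' : E ≃+ E} (hφ : Rec φ M) (m : ℕ)
    (hm : 0 < m) (hM : ∀ v, M' v = (⇑M)^[m] v) : Rec φ M' := by
  refine ⟨hφ.1, ?_⟩
  intro Φ j1 hj1
  obtain ⟨j, hj, ⟨t, ht⟩, h⟩ := hφ.2 Φ (m * j1) (Nat.mul_pos hm hj1)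
  have hM' : ⇑M' = (⇑M)^[m] := funext hM
  refine ⟨j1 * t, ?_, Dvd.intro _ rfl, ?_⟩
  · rcases Nat.eq_zero_or_pos t with h0 | h0
    · subst h0; simp at ht; omega
    · exact Nat.mul_pos hj1 h0
  · intro v hv
    rw [h v hv, hM', ← Function.iterate_mul, ht, mul_assoc]

theorem stable_span {K' X : Type} [DivisionRing K'] [AddCommGroup X] [Module K' X]
    (u : X ≃+ X) (σ : K' ≃+* K') (hu : ∀ (κ : K') (ξ : X), u (κ • ξ) = σ κ • u ξ) (S : Set X)
    (h1 : ∀ ξ ∈ S, u ξ ∈ Submodule.span K' S) (h2 : ∀ ξ ∈ S, u.symm ξ ∈ Submodule.span K' S) :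
    ∀ ξ, u ξ ∈ Submodule.span K' S ↔ ξ ∈ Submodule.span K' S := by
  have hu' : ∀ (κ : K') (ξ : X), u.symm (κ • ξ) = σ.symm κ • u.symm ξ := by
    intro κ ξ
    apply u.injective
    rw [hu, AddEquiv.apply_symm_apply, AddEquiv.apply_symm_apply, RingEquiv.apply_symm_apply]
  have a1 : ∀ ξ ∈ Submodule.span K' S, u ξ ∈ Submodule.span K' S := by
    intro ξ hξ
    induction hξ using Submodule.span_induction with
    | mem x hx => exact h1 x hx
    | zero => rw [map_zero]; exact Submodule.zero_mem _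
    | add x y _ _ hx hy => rw [map_add]; exact Submodule.add_mem _ hx hy
    | smul a x _ hx => rw [hu]; exact Submodule.smul_mem _ _ hx
  have a2 : ∀ ξ ∈ Submodule.span K' S, u.symm ξ ∈ Submodule.span K' S := by
    intro ξ hξ
    induction hξ using Submodule.span_induction with
    | mem x hx => exact h2 x hx
    | zero => rw [map_zero]; exact Submodule.zero_mem _
    | add x y _ _ hx hy => rw [map_add]; exact Submodule.add_mem _ hx hy
    | smul a x _ hx => rw [hu']; exact Submodule.smul_mem _ _ hx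
  intro ξ
  constructor
  · intro h
    have := a2 _ h
    rwa [AddEquiv.symm_apply_apply] at this
  · exact a1 ξ

theorem exists_ubar {K' X : Type} [DivisionRing K'] [AddCommGroup X] [Module K' X]
    (Y : Submodule K' X) (u : X ≃+ X) (hY : ∀ ξ, u ξ ∈ Y ↔ ξ ∈ Y) :
    ∃ ub : (X ⧸ Y) ≃+ (X ⧸ Y), ∀ ξ, ub (Y.mkQ ξ) = Y.mkQ (u ξ) := by
  refine ⟨QuotientAddGroup.congr Y.toAddSubgroup Y.toAddSubgroup u ?_, fun ξ => rfl⟩
  ext ξ
  rw [AddSubgroup.mem_map]
  constructor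
  · rintro ⟨y, hy, rfl⟩
    exact (hY y).2 hy
  · intro hξ
    refine ⟨u.symm ξ, ?_, ?_⟩
    · have : u (u.symm ξ) ∈ Y := by rw [AddEquiv.apply_symm_apply]; exact hξ
      exact (hY _).1 this
    · exact u.apply_symm_apply ξ

theorem rank_split {K X X' : Type} [DivisionRing K] [AddCommGroup X] [AddCommGroup X']
    [Module K X] [Module K X'] (π : X →ₗ[K] X') (W : Submodule K X) [FiniteDimensional K W] :
    finrank K W = finrank K (W ⊓ LinearMap.ker π : Submodule K X) + finrank K (W.map π) := by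
  have h := (π.domRestrict W).finrank_range_add_finrank_ker
  rw [LinearMap.range_domRestrict] at h
  have e : LinearMap.ker (π.domRestrict W) = (LinearMap.ker π).comap W.subtype := by
    ext x
    simp
  rw [e, ← Submodule.finrank_map_subtype_eq, Submodule.map_comap_subtype] at h
  rw [← h, add_comm]

theorem one_step_aux {K K' E : Type} [DivisionRing K] [DivisionRing K'] [AddCommGroup E]
    {ι : K →+* K'} {x : E → K'} (h : Cross ι x)
    {τ : K ≃+* K} {σ : K' ≃+* K'} {M : E ≃+ E} (hc : Compat ι x τ σ M)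
    (φ : E →+ ℝ) (hφ : Rec φ M) (hper : ∀ v : E, ∀ j : ℕ, 0 < j → (⇑M)^[j] v = v → v = 0)
    (d : ℕ) : ∀ (X : Type) [AddCommGroup X] [Module K' X] [Module K X]
    (_ : ∀ (k : K) (ξ : X), k • ξ = ι k • ξ) (_ : FiniteDimensional K' X)
    (_ : finrank K' X ≤ d)
    (u : X ≃+ X) (j₀ : ℕ) (_ : 0 < j₀) (_ : ∀ (κ : K') (ξ : X), u (κ • ξ) = (⇑σ)^[j₀] κ • u ξ)
    (W : Submodule K X) (_ : FiniteDimensional K W)
    (j₁ : ℕ) (_ : 0 < j₁) (_ : ∀ ξ, (⇑u)^[j₁] ξ ∈ W ↔ ξ ∈ W),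
    finrank K W ≤ d := by
  classical
  induction d using Nat.strong_induction_on with
  | _ d ih =>
  intro X _ _ _ hι hX hd u j₀ hj₀ hu W hWf j₁ hj₁ hWs
  by_cases hW : W = ⊥
  · subst hW
    simp
  -- minimal stable subspace
  have hex : ∃ m : ℕ, ∃ N : Submodule K X, N ≤ W ∧ N ≠ ⊥ ∧
      (∃ j, 0 < j ∧ ∀ ξ, (⇑u)^[j] ξ ∈ N ↔ ξ ∈ N) ∧ finrank K N = m :=
    ⟨_, W, le_rfl, hW, ⟨j₁, hj₁, hWs⟩, rfl⟩
  obtain ⟨N, hNW, hN0, ⟨j₂, hj₂, hNs⟩, hNr⟩ := Nat.find_spec hex
  have hmin : ∀ N' : Submodule K X, N' ≤ W → N' ≠ ⊥ →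
      (∃ j, 0 < j ∧ ∀ ξ, (⇑u)^[j] ξ ∈ N' ↔ ξ ∈ N') → finrank K N ≤ finrank K N' := by
    intro N' a b c
    rw [hNr]
    exact Nat.find_min' hex ⟨N', a, b, c, rfl⟩
  have hNf : FiniteDimensional K N := Submodule.finiteDimensional_of_le hNW
  -- the power
  obtain ⟨u', hu'⟩ := iter_equiv u (j₁ * j₂)
  have hj12 : 0 < j₁ * j₂ := Nat.mul_pos hj₁ hj₂
  have hu'f : ⇑u' = (⇑u)^[j₁ * j₂] := funext hu'
  have hW' : ∀ ξ, u' ξ ∈ W ↔ ξ ∈ W := by
    intro ξ
    rw [hu', Function.iterate_mul]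
    exact iter_stab _ (· ∈ W) hWs _ _
  have hN' : ∀ ξ, u' ξ ∈ N ↔ ξ ∈ N := by
    intro ξ
    rw [hu', mul_comm, Function.iterate_mul]
    exact iter_stab _ (· ∈ N) hNs _ _
  have hm : 0 < j₀ * (j₁ * j₂) := Nat.mul_pos hj₀ hj12
  obtain ⟨τ', σ', M', hτ', hσ', hM', hc'⟩ := compat_iter h hc (j₀ * (j₁ * j₂))
  have hsemi0 : ∀ (κ : K') (ξ : X), u' (κ • ξ) = (⇑σ)^[j₀ * (j₁ * j₂)] κ • u' ξ := by
    intro κ ξ
    rw [hu', hu', Function.iterate_mul (⇑σ) j₀ (j₁ * j₂)]
    exact iter_semi _ _ hu _ _ _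
  have hsemi : ∀ (κ : K') (ξ : X), u' (κ • ξ) = σ' κ • u' ξ := by
    intro κ ξ
    rw [hσ', hsemi0]
  have hφ' : Rec φ M' := rec_iter hφ _ hm hM'
  have hper' : ∀ v : E, ∀ j : ℕ, 0 < j → (⇑M')^[j] v = v → v = 0 := by
    intro v j hj hv
    have hMf : ⇑M' = (⇑M)^[j₀ * (j₁ * j₂)] := funext hM'
    rw [hMf, ← Function.iterate_mul] at hv
    exact hper v _ (Nat.mul_pos hm hj) hv
  -- basis
  let b := Module.finBasis K N
  let n : Fin (finrank K N) → X := fun i => (b i : X)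
  have hn : LinearIndependent K n := b.linearIndependent.map' N.subtype N.ker_subtype
  have hspan : Submodule.span K (Set.range n) = N := by
    have e1 : Set.range n = N.subtype '' Set.range b := by
      rw [← Set.range_comp]; rfl
    rw [e1, Submodule.span_image, b.span_eq, Submodule.map_subtype_top]
  have hst : Stable u' (Submodule.span K (Set.range n)) := by
    rw [hspan]; exact hN'
  have hind : LinearIndependent K' n := by
    rcases indep_or_smaller h hc' φ hφ'.1 Set.univ (by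
      intro Φ
      obtain ⟨j, hj, _, hh⟩ := hφ'.2 Φ 1 one_pos
      exact ⟨j, trivial, hj, hh⟩) hι u' hsemi _ n hn hst with h1 | ⟨N', a, b', c, j, _, hj, hh⟩
    · exact h1
    · exfalso
      rw [hspan] at a c
      have h2 := hmin N' (a.trans hNW) b' ⟨j₁ * j₂ * j, Nat.mul_pos hj12 hj, by
        intro ξ
        rw [Function.iterate_mul, ← hu'f]
        exact hh ξ⟩
      have h3 := Submodule.finrank_lt_finrank_of_lt (lt_of_le_of_ne a c)
      omega
  have hk : 0 < finrank K N := by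
    rcases Nat.eq_zero_or_pos (finrank K N) with h0 | h0
    · exfalso
      exact hN0 (Submodule.finrank_eq_zero.1 h0)
    · exact h0
  -- the K'-subspace
  have hsub : ∀ ξ ∈ N, ξ ∈ Submodule.span K' (Set.range n) := by
    intro ξ hξ
    rw [← hspan] at hξ
    induction hξ using Submodule.span_induction with
    | mem x hx => exact Submodule.subset_span hx
    | zero => exact Submodule.zero_mem _
    | add x y _ _ hx hy => exact Submodule.add_mem _ hx hy
    | smul a x _ hx => rw [hι]; exact Submodule.smul_mem _ _ hx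
  have hnN : ∀ ξ ∈ Set.range n, ξ ∈ N := by
    rintro _ ⟨i, rfl⟩
    exact (b i).2
  set Y : Submodule K' X := Submodule.span K' (Set.range n) with hYdef
  have hYs : ∀ ξ, u' ξ ∈ Y ↔ ξ ∈ Y := by
    apply stable_span u' σ' hsemi
    · intro ξ hξ
      exact hsub _ ((hN' ξ).2 (hnN ξ hξ))
    · intro ξ hξ
      apply hsub
      rw [← hN', AddEquiv.apply_symm_apply]
      exact hnN ξ hξ
  have hYr : finrank K' Y = finrank K N := by
    rw [hYdef, finrank_span_eq_card hind, Fintype.card_fin]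
  have hquot : finrank K' (X ⧸ Y) + finrank K' Y = finrank K' X :=
    Submodule.finrank_quotient_add_finrank Y
  obtain ⟨ub, hub⟩ := exists_ubar Y u' hYs
  letI : Module K (X ⧸ Y) := Module.compHom (X ⧸ Y) ι
  have hιq : ∀ (k : K) (ξ : X ⧸ Y), k • ξ = ι k • ξ := fun _ _ => rfl
  let π : X →ₗ[K] (X ⧸ Y) :=
    { toFun := fun ξ => Y.mkQ ξ
      map_add' := fun a b => map_add _ _ _
      map_smul' := fun k ξ => by
        rw [hι, map_smul]
        rfl }
  have hπ : ∀ ξ, π ξ = Y.mkQ ξ := fun _ => rfl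
  have hker : ∀ ξ, ξ ∈ LinearMap.ker π ↔ ξ ∈ Y := by
    intro ξ
    rw [LinearMap.mem_ker, hπ, Submodule.mkQ_apply, Submodule.Quotient.mk_eq_zero]
  have hsplit := rank_split π W
  -- first part
  have hW1f : FiniteDimensional K (W ⊓ LinearMap.ker π : Submodule K X) :=
    Submodule.finiteDimensional_of_le inf_le_left
  have h1 : finrank K (W ⊓ LinearMap.ker π : Submodule K X) ≤ finrank K N := by
    refine h_bound h hc' φ hφ' hper' hι u' hsemi _ n hind hst _ hW1f ?_ 1 one_pos ?_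
    · intro ξ hξ
      exact (hker ξ).1 hξ.2
    · intro ξ
      rw [Function.iterate_one, Submodule.mem_inf, Submodule.mem_inf, hW', hker, hker, hYs]
  -- second part
  have h2 : finrank K (W.map π) ≤ finrank K' (X ⧸ Y) := by
    refine ih (finrank K' (X ⧸ Y)) (by omega) (X ⧸ Y) hιq inferInstance le_rfl ub
      (j₀ * (j₁ * j₂)) hm ?_ (W.map π) inferInstance 1 one_pos ?_
    · intro κ ξ
      obtain ⟨y, rfl⟩ := Submodule.mkQ_surjective Y ξ
      rw [← map_smul, hub, hub, hsemi0, map_smul]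
    · intro ξ
      rw [Function.iterate_one]
      constructor
      · rintro ⟨w, hw, hwe⟩
        refine ⟨u'.symm w, ?_, ?_⟩
        · have : u' (u'.symm w) ∈ W := by rw [AddEquiv.apply_symm_apply]; exact hw
          exact (hW' _).1 this
        · apply ub.injective
          rw [hπ, hub, AddEquiv.apply_symm_apply, ← hwe]
          rfl
      · rintro ⟨w, hw, rfl⟩
        refine ⟨u' w, (hW' w).2 hw, ?_⟩
        rw [hπ, hπ, hub]
  omega

theorem one_step_H {K K' E : Type} [DivisionRing K] [DivisionRing K'] [AddCommGroup E]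
    {ι : K →+* K'} {x : E → K'} (h : Cross ι x)
    {τ : K ≃+* K} {σ : K' ≃+* K'} {M : E ≃+ E} (hc : Compat ι x τ σ M)
    (φ : E →+ ℝ) (hφ : Rec φ M) (hper : ∀ v : E, ∀ j : ℕ, 0 < j → (⇑M)^[j] v = v → v = 0)
    (d : ℕ) (X : Type) [AddCommGroup X] [Module K' X] [Module K X]
    (hι : ∀ (k : K) (ξ : X), k • ξ = ι k • ξ) (hX : FiniteDimensional K' X)
    (hd : finrank K' X ≤ d)
    (u : X ≃+ X) (j₀ : ℕ) (hj₀ : 0 < j₀) (hu : ∀ (κ : K') (ξ : X), u (κ • ξ) = (⇑σ)^[j₀] κ • u ξ)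
    (W : Submodule K X) (hWf : FiniteDimensional K W)
    (j₁ : ℕ) (hj₁ : 0 < j₁) (hWs : ∀ ξ, (⇑u)^[j₁] ξ ∈ W ↔ ξ ∈ W) :
    finrank K W ≤ d :=
  one_step_aux h hc φ hφ hper d X hι hX hd u j₀ hj₀ hu W hWf j₁ hj₁ hWs

end Pool.Agent.Helper933.HC
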