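import Pool.Agent.Helper933.HC.Defs
import Pool.Agent.Helper933.HC.P_val_loc
import Pool.Agent.Helper933.HC.P_val_compat

set_option autoImplicit false

namespace Pool.Agent.Helper933.HC
open Module


theorem ce_wneg {K K' E : Type} [DivisionRing K] [DivisionRing K'] [AddCommGroup E]
    {ι : K →+* K'} {x : E → K'} {φ : E →+ ℝ} {w : K' → ℝ} (hw : Val ι x φ w) (b : K') :
    w (-b) = w b := by
  have h1 : -b = ι (-1) * b := by simp
  rw [h1, hw.mul, hw.base (-1) (by simp), one_mul]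

theorem ce_wsub {K K' E : Type} [DivisionRing K] [DivisionRing K'] [AddCommGroup E]
    {ι : K →+* K'} {x : E → K'} {φ : E →+ ℝ} {w : K' → ℝ} (hw : Val ι x φ w) (a b : K') :
    w (a - b) ≤ max (w a) (w b) := by
  rw [sub_eq_add_neg]
  refine (hw.add a (-b)).trans ?_
  rw [ce_wneg hw]

theorem ce_uniq {K K' E : Type} [DivisionRing K] [DivisionRing K'] [AddCommGroup E]
    {ι : K →+* K'} {x : E → K'} {φ : E →+ ℝ} {w : K' → ℝ} (hw : Val ι x φ w) (κ : K') (k k' : K)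
    (h : w (κ - ι k) < 1) (h' : w (κ - ι k') < 1) : k = k' := by
  by_contra hne
  have h1 : w (ι (k - k')) = 1 := hw.base _ (sub_ne_zero.mpr hne)
  have h2 : ι (k - k') = (κ - ι k') - (κ - ι k) := by rw [map_sub]; abel
  have h3 := ce_wsub hw (κ - ι k') (κ - ι k)
  rw [← h2, h1] at h3
  have : max (w (κ - ι k')) (w (κ - ι k)) < 1 := max_lt h' h
  linarith

theorem ce_inv {K K' : Type} [DivisionRing K] [DivisionRing K']
    {ι : K →+* K'} {x : ℤ → K'} (h : Cross ι x)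
    {τ : K ≃+* K} {σ : K' ≃+* K'} (hc : Compat ι x τ σ (AddEquiv.refl ℤ))
    {w : K' → ℝ} (hw : Val ι x (Int.castAddHom ℝ) w) (κ : K') : w (σ κ) = w κ := by
  by_cases hκ : κ = 0
  · rw [hκ, map_zero]
  have hinj : Function.Injective (Int.castAddHom ℝ) := Int.cast_injective
  obtain ⟨v, Φ, hv⟩ := val_loc h (Int.castAddHom ℝ) hinj κ hκ
  have h1 := (hv (Int.castAddHom ℝ) w hinj hw (fun e _ => Iff.rfl)).1
  have hw2 := val_compat h hw hc
  have he : (Int.castAddHom ℝ).comp (AddEquiv.refl ℤ).toAddMonoidHom = Int.castAddHom ℝ := by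
    ext; simp
  rw [he] at hw2
  have h2 := (hv (Int.castAddHom ℝ) (fun κ => w (σ κ)) hinj hw2 (fun e _ => Iff.rfl)).1
  rw [h2, h1]

/-- expansion coefficients over `E = ℤ` with trivial action. -/
theorem coef_exists {K K' : Type} [DivisionRing K] [DivisionRing K']
    {ι : K →+* K'} {x : ℤ → K'} (h : Cross ι x)
    {τ : K ≃+* K} {σ : K' ≃+* K'} (hc : Compat ι x τ σ (AddEquiv.refl ℤ))
    {w : K' → ℝ} (hw : Val ι x (Int.castAddHom ℝ) w) :
    ∃ c : ℕ → K' → K,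
      (∀ i κ κ', w κ ≤ 1 → w κ' ≤ 1 → c i (κ + κ') = c i κ + c i κ') ∧
      (∀ i, ∃ θ : K ≃+* K, ∀ k κ, w κ ≤ 1 → c i (ι k * κ) = θ k * c i κ) ∧
      (∀ i k κ, w κ ≤ 1 → c i (κ * ι k) = c i κ * k) ∧
      (∀ κ, w κ ≤ 1 → (∀ i, c i κ = 0) → κ = 0) ∧
      (∀ i, ∃ g : K, g ≠ 0 ∧ ∀ κ, w κ ≤ 1 → c i (σ κ) = g * τ (c i κ)) := by
  classical
  have hinv := ce_inv h hc hw
  have hw0 : w 0 = 0 := (hw.zero 0).mpr rfl
  -- residue
  have hr : ∃ r : K' → K, ∀ κ, w κ ≤ 1 → w (κ - ι (r κ)) < 1 := by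
    refine ⟨fun κ => if hk : w κ ≤ 1 then (hw.resid κ hk).choose else 0, fun κ hk => ?_⟩
    have h1 : (if hk : w κ ≤ 1 then (hw.resid κ hk).choose else 0) = (hw.resid κ hk).choose :=
      dif_pos hk
    show w (κ - ι (if hk : w κ ≤ 1 then (hw.resid κ hk).choose else 0)) < 1
    rw [h1]
    exact (hw.resid κ hk).choose_spec
  obtain ⟨r, hr⟩ := hr
  have hru : ∀ κ k, w κ ≤ 1 → w (κ - ι k) < 1 → r κ = k := fun κ k h1 h2 =>
    ce_uniq hw κ _ _ (hr κ h1) h2
  set s : K' → K' := fun κ => x 1 * (κ - ι (r κ)) with hs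
  have hx1 : w (x 1) = Real.exp 1 := by
    have := hw.gen 1
    simpa using this
  have hlt : ∀ κ, w κ < 1 → w (x 1 * κ) ≤ 1 := by
    intro κ hk
    rw [hw.mul, hx1]
    by_cases h0 : κ = 0
    · rw [h0, hw0]; simp
    obtain ⟨n, hn⟩ := hw.range κ h0
    rw [hn] at hk ⊢
    have h1 : ((Int.castAddHom ℝ) n : ℝ) = (n : ℝ) := rfl
    rw [h1] at hk ⊢
    rw [Real.exp_lt_one_iff] at hk
    have h2 : n < 0 := by exact_mod_cast hk
    have h3 : (n : ℝ) ≤ -1 := by exact_mod_cast (by omega : n ≤ -1)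
    rw [← Real.exp_add, Real.exp_le_one_iff]
    linarith
  have hsO : ∀ κ, w κ ≤ 1 → w (s κ) ≤ 1 := fun κ hk => hlt _ (hr κ hk)
  have hradd : ∀ κ κ', w κ ≤ 1 → w κ' ≤ 1 → r (κ + κ') = r κ + r κ' := by
    intro κ κ' h1 h2
    refine hru _ _ ((hw.add _ _).trans (max_le h1 h2)) ?_
    have : κ + κ' - ι (r κ + r κ') = (κ - ι (r κ)) + (κ' - ι (r κ')) := by
      rw [map_add]; abel
    rw [this]
    exact lt_of_le_of_lt (hw.add _ _) (max_lt (hr _ h1) (hr _ h2))
  have hwl : ∀ k κ, w κ ≤ 1 → w (ι k * κ) ≤ 1 := by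
    intro k κ hk
    rw [hw.mul]
    by_cases h0 : k = 0
    · rw [h0, map_zero, hw0]; simp
    · rw [hw.base k h0, one_mul]; exact hk
  have hwr : ∀ k κ, w κ ≤ 1 → w (κ * ι k) ≤ 1 := by
    intro k κ hk
    rw [hw.mul]
    by_cases h0 : k = 0
    · rw [h0, map_zero, hw0]; simp
    · rw [hw.base k h0, mul_one]; exact hk
  have hrl : ∀ k κ, w κ ≤ 1 → r (ι k * κ) = k * r κ := by
    intro k κ hk
    refine hru _ _ (hwl k κ hk) ?_
    have : ι k * κ - ι (k * r κ) = ι k * (κ - ι (r κ)) := by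
      rw [map_mul, mul_sub]
    rw [this, hw.mul]
    by_cases h0 : k = 0
    · rw [h0, map_zero, hw0]; simp
    · rw [hw.base k h0, one_mul]; exact hr κ hk
  have hrr : ∀ k κ, w κ ≤ 1 → r (κ * ι k) = r κ * k := by
    intro k κ hk
    refine hru _ _ (hwr k κ hk) ?_
    have : κ * ι k - ι (r κ * k) = (κ - ι (r κ)) * ι k := by
      rw [map_mul, sub_mul]
    rw [this, hw.mul]
    by_cases h0 : k = 0
    · rw [h0, map_zero, hw0]; simp
    · rw [hw.base k h0, mul_one]; exact hr κ hk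
  have hrσ : ∀ κ, w κ ≤ 1 → r (σ κ) = τ (r κ) := by
    intro κ hk
    refine hru _ _ (by rw [hinv]; exact hk) ?_
    have : σ κ - ι (τ (r κ)) = σ (κ - ι (r κ)) := by
      rw [map_sub, hc.base]
    rw [this, hinv]
    exact hr κ hk
  obtain ⟨τ₁, hτ₁⟩ := h.norm 1
  have hsadd : ∀ κ κ', w κ ≤ 1 → w κ' ≤ 1 → s (κ + κ') = s κ + s κ' := by
    intro κ κ' h1 h2
    simp only [hs]
    rw [hradd κ κ' h1 h2, map_add, ← mul_add]
    congr 1
    abel
  have hsl : ∀ k κ, w κ ≤ 1 → s (ι k * κ) = ι (τ₁ k) * s κ := by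
    intro k κ hk
    simp only [hs]
    rw [hrl k κ hk, map_mul, ← mul_sub, ← mul_assoc, hτ₁, mul_assoc]
  have hsr : ∀ k κ, w κ ≤ 1 → s (κ * ι k) = s κ * ι k := by
    intro k κ hk
    simp only [hs]
    rw [hrr k κ hk, map_mul, ← sub_mul, mul_assoc]
  obtain ⟨c₁, hc₁⟩ := hc.gen 1
  have hc₁' : σ (x 1) = ι c₁ * x 1 := by simpa using hc₁
  have hc0 : c₁ ≠ 0 := by
    intro h0
    rw [h0, map_zero, zero_mul] at hc₁'
    have : x 1 = 0 := by
      have := congrArg σ.symm hc₁'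
      simpa using this
    exact h.ne 1 this
  have hι0 : ι c₁ ≠ 0 := by
    intro h0
    exact hc0 ((map_eq_zero ι).mp h0)
  have hsσ : ∀ κ, w κ ≤ 1 → s (σ κ) = ι (c₁⁻¹) * σ (s κ) := by
    intro κ hk
    simp only [hs]
    rw [hrσ κ hk, map_mul, hc₁', map_sub, hc.base, map_inv₀, ← mul_assoc, ← mul_assoc,
      inv_mul_cancel₀ hι0, one_mul]
  -- the coefficients
  let c : ℕ → K' → K := fun i κ => r (s^[i] κ)
  have hcs : ∀ i κ, c (i + 1) κ = c i (s κ) := fun i κ => by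
    simp only [c, Function.iterate_succ, Function.comp_apply]
  have hc00 : ∀ κ, c 0 κ = r κ := fun κ => rfl
  have hcl : ∀ i, ∃ θ : K ≃+* K, ∀ k κ, w κ ≤ 1 → c i (ι k * κ) = θ k * c i κ := by
    intro i
    induction i with
    | zero => exact ⟨RingEquiv.refl K, fun k κ hk => by rw [hc00, hc00, hrl k κ hk]; rfl⟩
    | succ i ih =>
      obtain ⟨θ, hθ⟩ := ih
      refine ⟨τ₁.trans θ, fun k κ hk => ?_⟩
      rw [hcs, hcs, hsl k κ hk, hθ _ _ (hsO κ hk)]
      rfl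
  refine ⟨c, ?_, hcl, ?_, ?_, ?_⟩
  · intro i
    induction i with
    | zero => exact fun κ κ' h1 h2 => hradd κ κ' h1 h2
    | succ i ih =>
      intro κ κ' h1 h2
      rw [hcs, hcs, hcs, hsadd κ κ' h1 h2, ih _ _ (hsO κ h1) (hsO κ' h2)]
  · intro i
    induction i with
    | zero => exact fun k κ hk => hrr k κ hk
    | succ i ih =>
      intro k κ hk
      rw [hcs, hcs, hsr k κ hk, ih k _ (hsO κ hk)]
  · have key : ∀ m : ℕ, ∀ κ, w κ ≤ 1 → (∀ i, c i κ = 0) → w κ ≤ Real.exp (-(m : ℝ)) := by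
      intro m
      induction m with
      | zero => intro κ hk _; simpa using hk
      | succ m ih =>
        intro κ hk h0
        have hr0 : r κ = 0 := h0 0
        have h1 := ih (s κ) (hsO κ hk) (fun i => by rw [← hcs]; exact h0 (i + 1))
        have h2 : s κ = x 1 * κ := by simp only [hs]; rw [hr0, map_zero, sub_zero]
        rw [h2, hw.mul, hx1] at h1
        have h3 : Real.exp (-((m + 1 : ℕ) : ℝ)) = Real.exp (-1) * Real.exp (-(m : ℝ)) := by
          rw [← Real.exp_add]; congr 1; push_cast; ring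
        rw [h3]
        have h4 : w κ = Real.exp (-1) * (Real.exp 1 * w κ) := by
          rw [← mul_assoc, ← Real.exp_add]; simp
        rw [h4]
        exact mul_le_mul_of_nonneg_left h1 (Real.exp_pos _).le
    intro κ hk h0
    by_contra hne
    obtain ⟨n, hn⟩ := hw.range κ hne
    have hn' : w κ = Real.exp (n : ℝ) := hn
    have h1 := key (n.natAbs + 1) κ hk h0
    rw [hn', Real.exp_le_exp] at h1
    have h2 : (n : ℤ) ≤ -((n.natAbs : ℤ) + 1) := by exact_mod_cast h1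
    omega
  · intro i
    induction i with
    | zero => exact ⟨1, one_ne_zero, fun κ hk => by rw [hc00, hc00, hrσ κ hk, one_mul]⟩
    | succ i ih =>
      obtain ⟨g, hg, hgs⟩ := ih
      obtain ⟨θ, hθ⟩ := hcl i
      refine ⟨θ (c₁⁻¹) * g, mul_ne_zero ?_ hg, fun κ hk => ?_⟩
      · intro h0
        have : c₁⁻¹ = 0 := by
          have := congrArg θ.symm h0
          simpa using this
        exact inv_ne_zero hc0 this
      · rw [hcs, hcs, hsσ κ hk, hθ _ _ (by rw [hinv]; exact hsO κ hk), hgs _ (hsO κ hk), mul_assoc]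

end Pool.Agent.Helper933.HC
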