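import Pool.Agent.Helper933.HC.Defs
import Pool.Agent.Helper933.HC.P_bdd_small
import Pool.Agent.Helper933.HC.P_val_exists
import Pool.Agent.Helper933.HC.P_coef_exists

set_option autoImplicit false

namespace Pool.Agent.Helper933.HC
open Module


theorem val_le_one_of_base {K K' E : Type} [DivisionRing K] [DivisionRing K'] [AddCommGroup E]
    {ι : K →+* K'} {x : E → K'} {φ : E →+ ℝ} {w : K' → ℝ} (hw : Val ι x φ w) (k : K) :
    w (ι k) ≤ 1 := by
  by_cases hk : k = 0
  · rw [hk, map_zero, (hw.zero 0).2 rfl]; exact zero_le_one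
  · exact (hw.base k hk).le

theorem val_sum_le {K K' E : Type} [DivisionRing K] [DivisionRing K'] [AddCommGroup E]
    {ι : K →+* K'} {x : E → K'} {φ : E →+ ℝ} {w : K' → ℝ} (hw : Val ι x φ w)
    {α : Type} (s : Finset α) (f : α → K') (C : ℝ) (hC : 0 ≤ C) (hf : ∀ i ∈ s, w (f i) ≤ C) :
    w (∑ i ∈ s, f i) ≤ C := by
  classical
  induction s using Finset.induction_on with
  | empty => rw [Finset.sum_empty, (hw.zero 0).2 rfl]; exact hC
  | insert a s ha ih =>
    rw [Finset.sum_insert ha]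
    refine (hw.add _ _).trans (max_le (hf a (Finset.mem_insert_self _ _)) ?_)
    exact ih fun i hi => hf i (Finset.mem_insert_of_mem hi)

theorem coef_sum {K K' E : Type} [DivisionRing K] [DivisionRing K'] [AddCommGroup E]
    {ι : K →+* K'} {x : E → K'} {φ : E →+ ℝ} {w : K' → ℝ} (hw : Val ι x φ w)
    (c : K' → K) (hc : ∀ κ κ', w κ ≤ 1 → w κ' ≤ 1 → c (κ + κ') = c κ + c κ')
    {α : Type} (s : Finset α) (f : α → K') (hf : ∀ i ∈ s, w (f i) ≤ 1) :
    c (∑ i ∈ s, f i) = ∑ i ∈ s, c (f i) := by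
  classical
  have hw0 : w 0 ≤ 1 := by rw [(hw.zero 0).2 rfl]; exact zero_le_one
  induction s using Finset.induction_on with
  | empty =>
    rw [Finset.sum_empty, Finset.sum_empty]
    have := hc 0 0 hw0 hw0
    rw [add_zero] at this
    exact left_eq_add.1 this
  | insert a s ha ih =>
    rw [Finset.sum_insert ha, Finset.sum_insert ha, hc _ _ (hf a (Finset.mem_insert_self _ _))
      (val_sum_le hw s f 1 zero_le_one fun i hi => hf i (Finset.mem_insert_of_mem hi)),
      ih fun i hi => hf i (Finset.mem_insert_of_mem hi)]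

/-- the subspace of the vectors with coordinates of value at most `C`. -/
def TC {K K' X : Type} [DivisionRing K] [DivisionRing K']
    {ι : K →+* K'} {x : ℤ → K'} {w : K' → ℝ} {φ : ℤ →+ ℝ} (hw : Val ι x φ w)
    [AddCommGroup X] [Module K' X] [Module K X] (hι : ∀ (k : K) (ξ : X), k • ξ = ι k • ξ)
    {k : ℕ} (n : Fin k → X) (C : ℝ) (hC : 0 ≤ C) : Submodule K X where
  carrier := {ξ | ∃ f : Fin k → K', ∑ i, f i • n i = ξ ∧ ∀ i, w (f i) ≤ C}
  add_mem' := by
    rintro a b ⟨f, rfl, hf⟩ ⟨g, rfl, hg⟩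
    refine ⟨f + g, ?_, fun i => (hw.add _ _).trans (max_le (hf i) (hg i))⟩
    simp only [Pi.add_apply, add_smul, Finset.sum_add_distrib]
  zero_mem' := ⟨0, by simp, fun i => by
    rw [Pi.zero_apply, (hw.zero 0).2 rfl]; exact hC⟩
  smul_mem' := by
    rintro c a ⟨f, rfl, hf⟩
    refine ⟨fun i => ι c * f i, ?_, fun i => ?_⟩
    · rw [hι, Finset.smul_sum]
      simp only [mul_smul]
    · rw [hw.mul]
      have h1 := val_le_one_of_base hw c
      have h2 := hw.nonneg (f i)
      calc w (ι c) * w (f i) ≤ 1 * w (f i) := mul_le_mul_of_nonneg_right h1 h2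
        _ ≤ C := by rw [one_mul]; exact hf i

theorem exists_TC {K K' X : Type} [DivisionRing K] [DivisionRing K']
    {ι : K →+* K'} {x : ℤ → K'} {w : K' → ℝ} {φ : ℤ →+ ℝ} (hw : Val ι x φ w)
    [AddCommGroup X] [Module K' X] [Module K X] (hι : ∀ (k : K) (ξ : X), k • ξ = ι k • ξ)
    {k : ℕ} (n : Fin k → X) (W : Submodule K X) (hWf : FiniteDimensional K W)
    (hWn : ∀ ξ ∈ W, ξ ∈ Submodule.span K' (Set.range n)) :
    ∃ C : ℝ, ∃ hC : 0 ≤ C, W ≤ TC hw hι n C hC := by
  classical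
  have hfg : W.FG := (Submodule.fg_iff_finiteDimensional W).2 hWf
  obtain ⟨S, hS⟩ := hfg
  have hSW : ∀ s ∈ S, s ∈ W := fun s hs => hS ▸ Submodule.subset_span hs
  have h1 : ∀ s : X, ∃ f : Fin k → K', s ∈ S → ∑ i, f i • n i = s := by
    intro s
    by_cases hs : s ∈ S
    · obtain ⟨f, hf⟩ := (Submodule.mem_span_range_iff_exists_fun K').1 (hWn s (hSW s hs))
      exact ⟨f, fun _ => hf⟩
    · exact ⟨0, fun h => absurd h hs⟩
  choose f hf using h1
  refine ⟨∑ s ∈ S, ∑ i, w (f s i), Finset.sum_nonneg fun s _ => Finset.sum_nonneg fun i _ =>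
    hw.nonneg _, ?_⟩
  rw [← hS, Submodule.span_le]
  intro s hs
  refine ⟨f s, hf s hs, fun i => ?_⟩
  calc w (f s i) ≤ ∑ i, w (f s i) :=
        Finset.single_le_sum (f := fun i => w (f s i)) (fun i _ => hw.nonneg _) (Finset.mem_univ i)
    _ ≤ ∑ s ∈ S, ∑ i, w (f s i) :=
        Finset.single_le_sum (f := fun s => ∑ i, w (f s i))
          (fun s _ => Finset.sum_nonneg fun i _ => hw.nonneg _) hs

theorem t_layer {K K' X : Type} [DivisionRing K] [DivisionRing K']
    {ι : K →+* K'} {x : ℤ → K'} (h : Cross ι x)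
    {τ : K ≃+* K} {σ : K' ≃+* K'} (hc : Compat ι x τ σ (AddEquiv.refl ℤ))
    [AddCommGroup X] [Module K' X] [Module K X] (hι : ∀ (k : K) (ξ : X), k • ξ = ι k • ξ)
    (u : X ≃+ X) (hu : ∀ (κ : K') (ξ : X), u (κ • ξ) = σ κ • u ξ) (k : ℕ) (n : Fin k → X)
    (hn : LinearIndependent K' n) (hst : Stable u (Submodule.span K (Set.range n)))
    (W : Submodule K X) (hWf : FiniteDimensional K W)
    (hWn : ∀ ξ ∈ W, ξ ∈ Submodule.span K' (Set.range n)) (hWs : Stable u W) :
    Bdd u 1 k W := by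
  classical
  obtain ⟨w, hw⟩ := val_exists h (Int.castAddHom ℝ) (fun a b hab => by
    simpa using hab)
  obtain ⟨c, cadd, cleft, cright, cinj, csig⟩ := coef_exists h hc hw
  obtain ⟨C, hC, hWC⟩ := exists_TC hw hι n W hWf hWn
  obtain ⟨m, hm⟩ := exists_nat_ge C
  have hm' : C ≤ Real.exp m := hm.trans (by
    have := Real.add_one_le_exp (m : ℝ); linarith)
  -- uniqueness of coordinates
  have hun : ∀ f g : Fin k → K', ∑ i, f i • n i = ∑ i, g i • n i → f = g := by
    intro f g hfg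
    funext i
    have h0 : ∑ i, (f i - g i) • n i = 0 := by
      simp only [sub_smul, Finset.sum_sub_distrib, hfg, sub_self]
    exact sub_eq_zero.1 (Fintype.linearIndependent_iff.1 hn _ h0 i)
  have hex : ∀ ξ : W, ∃ f : Fin k → K', ∑ i, f i • n i = (ξ : X) ∧ ∀ i, w (f i) ≤ C :=
    fun ξ => hWC ξ.2
  choose κ hκ hκC using hex
  have κadd : ∀ ξ η : W, κ (ξ + η) = κ ξ + κ η := by
    intro ξ η
    apply hun
    rw [hκ]
    simp only [Pi.add_apply, add_smul, Finset.sum_add_distrib, hκ]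
    rfl
  have κsmul : ∀ (a : K) (ξ : W), κ (a • ξ) = fun i => ι a * κ ξ i := by
    intro a ξ
    apply hun
    rw [hκ]
    simp only [mul_smul]
    rw [← Finset.smul_sum, hκ, ← hι]
    rfl
  set xm := x (-(m : ℤ)) with hxm
  have hxm0 : xm ≠ 0 := h.ne _
  have hwxm : w xm = Real.exp (-(m : ℝ)) := by
    rw [hxm, hw.gen]; simp
  obtain ⟨τm, hτm⟩ := h.norm (-(m : ℤ))
  have ha1 : ∀ (ξ : W) i, w (xm * κ ξ i) ≤ 1 := by
    intro ξ i
    rw [hw.mul, hwxm]
    have h1 := (hκC ξ i).trans hm'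
    have h2 : Real.exp (-(m : ℝ)) * Real.exp m = 1 := by
      rw [← Real.exp_add]; simp
    calc Real.exp (-(m : ℝ)) * w (κ ξ i) ≤ Real.exp (-(m : ℝ)) * Real.exp m :=
          mul_le_mul_of_nonneg_left h1 (Real.exp_pos _).le
      _ = 1 := h2
  -- matrix of u
  have hnmem : ∀ i, n i ∈ Submodule.span K (Set.range n) := fun i =>
    Submodule.subset_span ⟨i, rfl⟩
  have hb : ∀ i, ∃ b : Fin k → K, ∑ l, b l • n l = u (n i) := fun i =>
    (Submodule.mem_span_range_iff_exists_fun K).1 ((hst (n i)).2 (hnmem i))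
  choose b hb using hb
  have hb' : ∀ l, ∃ b' : Fin k → K, ∑ i, b' i • n i = u.symm (n l) := fun l =>
    (Submodule.mem_span_range_iff_exists_fun K).1 ((hst (u.symm (n l))).1 (by
      rw [AddEquiv.apply_symm_apply]; exact hnmem l))
  choose b' hb' using hb'
  have uW : ∀ ξ : W, u (ξ : X) ∈ W := fun ξ => (hWs _).2 ξ.2
  have hu1 : ∀ ξ : W, κ ⟨u ξ, uW ξ⟩ = fun l => ∑ i, σ (κ ξ i) * ι (b i l) := by
    intro ξ
    apply hun
    rw [hκ]
    show u (ξ : X) = _
    rw [← hκ ξ, map_sum]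
    simp only [hu, ← hb, hι, Finset.smul_sum, ← mul_smul, Finset.sum_smul]
    rw [Finset.sum_comm]
  have hu2 : ∀ (ξ : W), (fun i => σ (κ ξ i)) =
      fun i => ∑ l, κ ⟨u ξ, uW ξ⟩ l * ι (τ (b' l i)) := by
    intro ξ
    have hsig : Function.Injective σ := σ.injective
    have e1 : ∑ i, (σ.symm (∑ l, κ ⟨u ξ, uW ξ⟩ l * ι (τ (b' l i)))) • n i = (ξ : X) := by
      apply u.injective
      rw [map_sum]
      simp only [hu, RingEquiv.apply_symm_apply]
      have e2 : u (ξ : X) = ∑ l, κ ⟨u ξ, uW ξ⟩ l • n l := (hκ ⟨u ξ, uW ξ⟩).symm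
      refine Eq.trans ?_ e2.symm
      have e3 : ∀ l, n l = ∑ i, (ι (τ (b' l i))) • u (n i) := by
        intro l
        have := congrArg u (hb' l)
        rw [AddEquiv.apply_symm_apply, map_sum] at this
        rw [← this]
        refine Finset.sum_congr rfl fun i _ => ?_
        rw [hι, hu, hc.base]
      have e4 : ∑ l, κ ⟨u ξ, uW ξ⟩ l • n l =
          ∑ l, κ ⟨u ξ, uW ξ⟩ l • ∑ i, (ι (τ (b' l i))) • u (n i) :=
        Finset.sum_congr rfl fun l _ => by rw [← e3 l]
      rw [e4]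
      simp only [Finset.smul_sum, ← mul_smul, Finset.sum_smul]
      rw [Finset.sum_comm]
    have e5 := hun _ _ (e1.trans (hκ ξ).symm)
    funext i
    have e6 := congrFun e5 i
    rw [← e6, RingEquiv.apply_symm_apply]
  obtain ⟨c', hc'⟩ := hc.gen (-(m : ℤ))
  have hc'0 : c' ≠ 0 := by
    intro h0
    rw [h0, map_zero, zero_mul] at hc'
    exact h.ne _ ((map_eq_zero σ).1 hc')
  have hsa : ∀ (ξ : W) i, σ (xm * κ ξ i) = ι c' * (xm * σ (κ ξ i)) := by
    intro ξ i
    rw [map_mul]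
    have : σ xm = ι c' * xm := hc'
    rw [this, mul_assoc]
  have hy1 : ∀ (ξ : W) i, xm * σ (κ ξ i) =
      ∑ l, (xm * κ ⟨u ξ, uW ξ⟩ l) * ι (τ (b' l i)) := by
    intro ξ i
    rw [congrFun (hu2 ξ) i, Finset.mul_sum]
    simp only [mul_assoc]
  have hwt : ∀ (z : K') (a : K), w z ≤ 1 → w (z * ι a) ≤ 1 := by
    intro z a hz
    rw [hw.mul]
    calc w z * w (ι a) ≤ 1 * 1 :=
          mul_le_mul hz (val_le_one_of_base hw a) (hw.nonneg _) zero_le_one
      _ = 1 := one_mul 1
  have hyw : ∀ (ξ : W) i, w (xm * σ (κ ξ i)) ≤ 1 := by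
    intro ξ i
    rw [hy1]
    exact val_sum_le hw _ _ 1 zero_le_one fun l _ => hwt _ _ (ha1 _ _)
  have hy2 : ∀ (ξ : W) l, xm * κ ⟨u ξ, uW ξ⟩ l =
      ∑ i, (xm * σ (κ ξ i)) * ι (b i l) := by
    intro ξ l
    rw [congrFun (hu1 ξ) l, Finset.mul_sum]
    simp only [mul_assoc]
  -- the linear maps
  have key : ∀ j : ℕ, ∃ L : W →ₗ[K] (Fin k → K),
      ∀ ξ : W, L ξ = 0 ↔ ∀ i, c j (xm * κ ξ i) = 0 := by
    intro j
    obtain ⟨θ, hθ⟩ := cleft j
    refine ⟨{ toFun := fun ξ i => τm.symm (θ.symm (c j (xm * κ ξ i)))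
              map_add' := ?_
              map_smul' := ?_ }, ?_⟩
    · intro ξ η
      funext i
      rw [κadd]
      simp only [Pi.add_apply]
      rw [mul_add, cadd j _ _ (ha1 ξ i) (ha1 η i), map_add, map_add]
    · intro a ξ
      funext i
      rw [κsmul]
      simp only [Pi.smul_apply, RingHom.id_apply, smul_eq_mul]
      have e1 : xm * (ι a * κ ξ i) = ι (τm a) * (xm * κ ξ i) := by
        rw [← mul_assoc, hτm a, mul_assoc]
      rw [e1, hθ _ _ (ha1 ξ i), map_mul, map_mul, RingEquiv.symm_apply_apply,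
        RingEquiv.symm_apply_apply]
    · intro ξ
      constructor
      · intro h0 i
        have h1 := congrFun h0 i
        have h2 : τm.symm (θ.symm (c j (xm * κ ξ i))) = 0 := h1
        exact (map_eq_zero θ.symm).1 ((map_eq_zero τm.symm).1 h2)
      · intro h0
        funext i
        show τm.symm (θ.symm (c j (xm * κ ξ i))) = 0
        rw [h0 i, map_zero, map_zero]
  choose L hL using key
  let V : ℕ → Submodule K X := fun j => (LinearMap.ker (L j)).map W.subtype
  have hVW : ∀ j, V j ≤ W := fun j => Submodule.map_subtype_le _ _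
  have hmem : ∀ j (ξ : W), (ξ : X) ∈ V j ↔ ∀ i, c j (xm * κ ξ i) = 0 := by
    intro j ξ
    rw [← hL j ξ]
    constructor
    · rintro ⟨η, hη, hη2⟩
      have : η = ξ := Subtype.ext hη2
      rw [← this]; exact hη
    · intro h0
      exact ⟨ξ, h0, rfl⟩
  have hdim : ∀ j, finrank K W ≤ finrank K (V j) + k := by
    intro j
    have h1 : finrank K (V j) = finrank K (LinearMap.ker (L j)) :=
      (Submodule.equivMapOfInjective W.subtype W.injective_subtype (LinearMap.ker (L j))).finrank_eq.symm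
    have h2 := (L j).finrank_range_add_finrank_ker
    have h3 : finrank K (LinearMap.range (L j)) ≤ k := by
      refine (Submodule.finrank_le _).trans ?_
      simp
    omega
  have hstab : ∀ j, Stable u (V j) := by
    intro j
    obtain ⟨θ, hθ⟩ := cleft j
    obtain ⟨g, hg0, hg⟩ := csig j
    have hzero : ∀ (ξ : W) i, c j (xm * σ (κ ξ i)) = 0 ↔ c j (xm * κ ξ i) = 0 := by
      intro ξ i
      have h1 := hg (xm * κ ξ i) (ha1 ξ i)
      rw [hsa, hθ _ _ (hyw ξ i)] at h1
      constructor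
      · intro h0
        rw [h0, mul_zero] at h1
        rcases mul_eq_zero.1 h1.symm with h2 | h2
        · exact absurd h2 hg0
        · exact (map_eq_zero τ).1 h2
      · intro h0
        rw [h0, map_zero, mul_zero] at h1
        rcases mul_eq_zero.1 h1 with h2 | h2
        · exact absurd ((map_eq_zero θ).1 h2) hc'0
        · exact h2
    have hmain : ∀ ξ : W, u (ξ : X) ∈ V j ↔ (ξ : X) ∈ V j := by
      intro ξ
      rw [hmem j ξ]
      have h1 := hmem j ⟨u ξ, uW ξ⟩
      rw [h1]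
      constructor
      · intro h0 i
        rw [← hzero ξ i, hy1, coef_sum hw (c j) (cadd j) _ _ (fun l _ => hwt _ _ (ha1 _ _))]
        refine Finset.sum_eq_zero fun l _ => ?_
        rw [cright j _ _ (ha1 _ _), h0 l, zero_mul]
      · intro h0 l
        rw [hy2, coef_sum hw (c j) (cadd j) _ _ (fun i _ => hwt _ _ (hyw _ _))]
        refine Finset.sum_eq_zero fun i _ => ?_
        rw [cright j _ _ (hyw _ _), (hzero ξ i).2 (h0 i), zero_mul]
    intro y
    constructor
    · intro hy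
      have hyW : y ∈ W := (hWs y).1 (hVW j hy)
      exact (hmain ⟨y, hyW⟩).1 hy
    · intro hy
      exact (hmain ⟨y, hVW j hy⟩).2 hy
  show (rad u k)^[1] W = ⊥
  rw [Function.iterate_one, eq_bot_iff]
  intro y hy
  have hyW : y ∈ W := by
    have : rad u k W ≤ W := sInf_le ⟨le_rfl, hWs, Nat.le_add_right _ _⟩
    exact this hy
  have hyV : ∀ j, y ∈ V j := by
    intro j
    have : rad u k W ≤ V j := sInf_le ⟨hVW j, hstab j, hdim j⟩
    exact this hy
  have hz : ∀ i, κ ⟨y, hyW⟩ i = 0 := by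
    intro i
    have h1 : xm * κ ⟨y, hyW⟩ i = 0 :=
      cinj _ (ha1 _ _) fun j => (hmem j ⟨y, hyW⟩).1 (hyV j) i
    exact (mul_eq_zero.1 h1).resolve_left hxm0
  have := hκ ⟨y, hyW⟩
  simp only [hz, zero_smul, Finset.sum_const_zero] at this
  rw [Submodule.mem_bot]
  exact this.symm

end Pool.Agent.Helper933.HC
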