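import Pool.Agent.Helper933.HC.Defs
import Pool.Agent.Helper933.HC.P_radi_le
import Pool.Agent.Helper933.HC.P_bdd_mono
import Pool.Agent.Helper933.HC.P_bdd_ext
import Pool.Agent.Helper933.HC.P_indep_or_smaller
import Pool.Agent.Helper933.HC.P_t_layer

set_option autoImplicit false

namespace Pool.Agent.Helper933.HC
open Module


theorem one_step_T {K K' : Type} [DivisionRing K] [DivisionRing K']
    {ι : K →+* K'} {x : ℤ → K'} (h : Cross ι x)
    {τ : K ≃+* K} {σ : K' ≃+* K'} (hc : Compat ι x τ σ (AddEquiv.refl ℤ)) (d : ℕ) :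
    Desc ι σ d d := by
  induction d with
  | zero =>
    intro X _ _ _ hι hfin hrank u hu W hWf hWs
    have hsub : Subsingleton X := Module.finrank_zero_iff.1 (Nat.le_zero.1 hrank)
    show W = ⊥
    exact (Submodule.eq_bot_iff W).2 fun x _ => Subsingleton.elim _ _
  | succ d ih =>
    intro X _ _ _ hι hfin hrank u hu W hWf hWs
    by_cases hW0 : W = ⊥
    · subst hW0
      exact le_bot_iff.1 (radi_le (d + 1) (d + 1) hWs).1
    · obtain ⟨N, ⟨hNW, hN0, hNs⟩, hNmin⟩ : ∃ N : Submodule K X,
          (N ≤ W ∧ N ≠ ⊥ ∧ Stable u N) ∧ ∀ N' : Submodule K X, N' ≤ W → N' ≠ ⊥ → Stable u N' →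
            finrank K N ≤ finrank K N' := by
        have hne : ∃ r, ∃ N : Submodule K X, N ≤ W ∧ N ≠ ⊥ ∧ Stable u N ∧ finrank K N = r :=
          ⟨_, W, le_rfl, hW0, hWs, rfl⟩
        classical
        obtain ⟨N, h1, h2, h3, h4⟩ := Nat.find_spec hne
        refine ⟨N, ⟨h1, h2, h3⟩, fun N' k1 k2 k3 => ?_⟩
        rw [h4]
        exact Nat.find_min' hne ⟨N', k1, k2, k3, rfl⟩
      haveI hNf : FiniteDimensional K N := Submodule.finiteDimensional_of_le hNW
      obtain ⟨n, hn, hspan⟩ : ∃ n : Fin (finrank K N) → X, LinearIndependent K n ∧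
          Submodule.span K (Set.range n) = N := by
        have b := Module.finBasis K N
        refine ⟨fun i => (b i : X), b.linearIndependent.map' N.subtype N.ker_subtype, ?_⟩
        have h1 : Set.range (fun i => (b i : X)) = N.subtype '' Set.range b := by
          rw [← Set.range_comp]
          rfl
        rw [h1, Submodule.span_image, b.span_eq, Submodule.map_top, Submodule.range_subtype]
      have hst : Stable u (Submodule.span K (Set.range n)) := by
        rw [hspan]
        exact hNs
      have hind : LinearIndependent K' n := by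
        rcases indep_or_smaller h hc (Int.castAddHom ℝ) Int.cast_injective {1}
          (fun Φ => ⟨1, rfl, one_pos, fun v _ => Iff.rfl⟩) hι u hu _ n hn hst with
          h1 | ⟨N', hle, hne, hne2, j, hj, hj0, hjs⟩
        · exact h1
        · exfalso
          rw [hspan] at hle hne2
          rw [Set.mem_singleton_iff] at hj
          subst hj
          have hs' : Stable u N' := fun ξ => hjs ξ
          have h1 := hNmin N' (hle.trans hNW) hne hs'
          have h2 := Submodule.finrank_lt_finrank_of_lt (lt_of_le_of_ne hle hne2)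
          omega
      have hkd : finrank K N ≤ d + 1 := by
        have h1 := hind.fintype_card_le_finrank
        rw [Fintype.card_fin] at h1
        omega
      obtain ⟨Y, hY⟩ : ∃ Y : Submodule K' X, Y = Submodule.span K' (Set.range n) := ⟨_, rfl⟩
      have hNY : ∀ x ∈ N, x ∈ Y := by
        intro x hx
        rw [← hspan] at hx
        rw [hY]
        refine Submodule.span_induction (p := fun x _ => x ∈ Submodule.span K' (Set.range n))
          (fun y hy => Submodule.subset_span hy) (zero_mem _)
          (fun _ _ _ _ ha hb => add_mem ha hb) (fun k y _ hy => ?_) hx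
        rw [hι]
        exact Submodule.smul_mem _ _ hy
      have hnN : ∀ i, n i ∈ N := fun i => by
        rw [← hspan]
        exact Submodule.subset_span ⟨i, rfl⟩
      have hYs : Stable u Y := by
        have h1 : ∀ y ∈ Y, u.symm y ∈ Y := by
          intro y hy
          rw [hY] at hy
          refine Submodule.span_induction (p := fun y _ => u.symm y ∈ Y) ?_ ?_ ?_ ?_ hy
          · rintro _ ⟨i, rfl⟩
            apply hNY
            rw [← hNs, u.apply_symm_apply]
            exact hnN i
          · rw [map_zero]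
            exact zero_mem _
          · intro a b _ _ ha hb
            rw [map_add]
            exact add_mem ha hb
          · intro κ a _ ha
            have h2 : u.symm (κ • a) = σ.symm κ • u.symm a := by
              apply u.injective
              rw [u.apply_symm_apply, hu, σ.apply_symm_apply, u.apply_symm_apply]
            rw [h2]
            exact Submodule.smul_mem _ _ ha
        have h3 : ∀ y ∈ Y, u y ∈ Y := by
          intro y hy
          rw [hY] at hy
          refine Submodule.span_induction (p := fun y _ => u y ∈ Y) ?_ ?_ ?_ ?_ hy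
          · rintro _ ⟨i, rfl⟩
            exact hNY _ ((hNs _).2 (hnN i))
          · rw [map_zero]
            exact zero_mem _
          · intro a b _ _ ha hb
            rw [map_add]
            exact add_mem ha hb
          · intro κ a _ ha
            rw [hu]
            exact Submodule.smul_mem _ _ ha
        intro x
        refine ⟨fun hx => ?_, h3 x⟩
        have h4 := h1 _ hx
        rwa [u.symm_apply_apply] at h4
      obtain ⟨W₁, hW₁⟩ : ∃ W₁ : Submodule K X, ∀ x, x ∈ W₁ ↔ x ∈ W ∧ x ∈ Y :=
        ⟨{ carrier := {x | x ∈ W ∧ x ∈ Y}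
           zero_mem' := ⟨W.zero_mem, Y.zero_mem⟩
           add_mem' := fun ha hb => ⟨W.add_mem ha.1 hb.1, Y.add_mem ha.2 hb.2⟩
           smul_mem' := fun k x hx => ⟨W.smul_mem k hx.1, by
             rw [hι]; exact Y.smul_mem _ hx.2⟩ }, fun x => Iff.rfl⟩
      have hW₁s : Stable u W₁ := fun x => by
        rw [hW₁, hW₁, hWs x, hYs x]
      have hW₁W : W₁ ≤ W := fun x hx => ((hW₁ x).1 hx).1
      haveI hW₁f : FiniteDimensional K W₁ := Submodule.finiteDimensional_of_le hW₁W
      have hb₁ : Bdd u 1 (finrank K N) W₁ :=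
        t_layer h hc hι u hu _ n hind hst W₁ hW₁f
          (fun ξ hξ => by rw [← hY]; exact ((hW₁ ξ).1 hξ).2) hW₁s
      have hb₁' : Bdd u 1 (d + 1) W₁ := bdd_mono le_rfl hkd le_rfl hW₁s hW₁s hb₁
      letI : Module K (X ⧸ Y) := Module.compHom (X ⧸ Y) ι
      have hι' : ∀ (k : K) (q : X ⧸ Y), k • q = ι k • q := fun k q => rfl
      obtain ⟨ub, hub⟩ : ∃ ub : (X ⧸ Y) ≃+ (X ⧸ Y), ∀ x,
          ub (Submodule.Quotient.mk x) = Submodule.Quotient.mk (u x) := by
        refine ⟨QuotientAddGroup.congr Y.toAddSubgroup Y.toAddSubgroup u ?_, fun x => rfl⟩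
        ext y
        constructor
        · rintro ⟨x, hx, rfl⟩
          exact (hYs x).2 hx
        · intro hy
          refine ⟨u.symm y, (hYs _).1 ?_, u.apply_symm_apply y⟩
          rw [u.apply_symm_apply]
          exact hy
      have hubs : ∀ (κ : K') (q : X ⧸ Y), ub (κ • q) = σ κ • ub q := by
        intro κ q
        obtain ⟨x, rfl⟩ := Submodule.Quotient.mk_surjective Y q
        rw [← Submodule.Quotient.mk_smul, hub, hu, Submodule.Quotient.mk_smul, hub]
      have hY0 : Y ≠ ⊥ := by
        intro h0
        apply hN0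
        rw [Submodule.eq_bot_iff]
        intro x hx
        have := hNY x hx
        rwa [h0, Submodule.mem_bot] at this
      have hrankq : finrank K' (X ⧸ Y) ≤ d := by
        have h1 := Submodule.finrank_quotient_add_finrank Y
        have h2 : 1 ≤ finrank K' Y := Submodule.one_le_finrank_iff.2 hY0
        omega
      obtain ⟨lin, hlin⟩ : ∃ lin : X →ₗ[K] (X ⧸ Y), ∀ x, lin x = Submodule.Quotient.mk x :=
        ⟨{ toFun := Submodule.Quotient.mk
           map_add' := fun a b => rfl
           map_smul' := fun k x => by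
             show (Submodule.Quotient.mk (p := Y) (k • x) : X ⧸ Y) =
               ι k • (Submodule.Quotient.mk (p := Y) x : X ⧸ Y)
             rw [hι]
             rfl }, fun x => rfl⟩
      have hW₂s : Stable ub (W.map lin) := by
        intro q
        constructor
        · rintro ⟨w, hw, hwq⟩
          refine ⟨u.symm w, ?_, ?_⟩
          · have h6 : u (u.symm w) ∈ W := by
              rw [u.apply_symm_apply]
              exact hw
            exact (hWs (u.symm w)).1 h6
          · apply ub.injective
            rw [hlin, hub, u.apply_symm_apply, ← hlin, hwq]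
        · rintro ⟨w, hw, hwq⟩
          refine ⟨u w, (hWs w).2 hw, ?_⟩
          rw [← hwq, hlin, hlin, hub]
      have hb₂ : Bdd ub d d (W.map lin) :=
        ih (X ⧸ Y) hι' inferInstance hrankq ub hubs (W.map lin) inferInstance hW₂s
      have hb₂' : Bdd ub d (d + 1) (W.map lin) :=
        bdd_mono le_rfl (Nat.le_succ d) le_rfl hW₂s hW₂s hb₂
      obtain ⟨φ, hφ⟩ : ∃ φ : X →+ (X ⧸ Y), ∀ x, φ x = lin x := ⟨lin.toAddMonoidHom, fun x => rfl⟩
      have q1 : ∀ (k : K), ∀ x ∈ W, φ (k • x) = (RingEquiv.refl K) k • φ x := by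
        intro k x _
        rw [hφ, hφ, map_smul]
        rfl
      have q2 : ∀ x ∈ W, ∃ c : K, c ≠ 0 ∧ φ (u x) = c • ub (φ x) := by
        intro x _
        refine ⟨1, one_ne_zero, ?_⟩
        rw [one_smul, hφ, hφ, hlin, hlin, hub]
      have q3 : ∀ y, y ∈ W.map lin ↔ ∃ x ∈ W, φ x = y := by
        intro y
        rw [Submodule.mem_map]
        simp only [hφ]
      have q4 : ∀ x, x ∈ W₁ ↔ x ∈ W ∧ φ x = 0 := by
        intro x
        rw [hW₁, hφ, hlin, Submodule.Quotient.mk_eq_zero]
      have hfin1 := bdd_ext (K := K) (K₂ := K) (M := X) (M₂ := X ⧸ Y) (RingEquiv.refl K) φ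
        (⟨τ, fun k q => by rw [hι', hι', hubs, hc.base]⟩ : Semi K ub) hWs q1
        q2 (W.map lin) q3 d (d + 1) hb₂' W₁ q4 1 hb₁'
      exact hfin1

end Pool.Agent.Helper933.HC
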