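import Pool.Agent.Helper933.HC.Defs

set_option autoImplicit false

namespace Pool.Agent.Helper933.HC
open Module


theorem rec_exists_rec (u : ℂ) (hu : ‖u‖ = 1) (δ : ℝ) (hδ : 0 < δ) (j₁ : ℕ) (hj₁ : 0 < j₁) :
    ∃ j, 0 < j ∧ j₁ ∣ j ∧ ‖u ^ j - 1‖ < δ := by
  set w : ℂ := u ^ j₁ with hw
  have hwn : ‖w‖ = 1 := by rw [hw, norm_pow, hu, one_pow]
  have hmem : ∀ n : ℕ, w ^ n ∈ Metric.closedBall (0 : ℂ) 1 := by
    intro n
    rw [mem_closedBall_zero_iff, norm_pow, hwn, one_pow]
  obtain ⟨a, -, f, hf, hlim⟩ := (isCompact_closedBall (0 : ℂ) 1).tendsto_subseq hmem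
  have hc := hlim.cauchySeq
  rw [Metric.cauchySeq_iff'] at hc
  obtain ⟨N, hN⟩ := hc δ hδ
  have h1 := hN (N + 1) (Nat.le_succ N)
  have hlt : f N < f (N + 1) := hf (Nat.lt_succ_self N)
  refine ⟨j₁ * (f (N + 1) - f N), Nat.mul_pos hj₁ (by omega), Dvd.intro _ rfl, ?_⟩
  have h2 : w ^ (f (N + 1)) - w ^ (f N) = w ^ (f N) * (w ^ (f (N + 1) - f N) - 1) := by
    rw [mul_sub, ← pow_add, mul_one, show f N + (f (N + 1) - f N) = f (N + 1) by omega]
  have h3 : ‖w ^ (f (N + 1)) - w ^ (f N)‖ = ‖w ^ (f (N + 1) - f N) - 1‖ := by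
    rw [h2, norm_mul, norm_pow, hwn, one_pow, one_mul]
  rw [pow_mul, ← hw, ← h3]
  rw [dist_eq_norm] at h1
  exact h1

theorem rec_exists {E : Type} [AddCommGroup E] [Countable E] (M : E ≃+ E) (π : E →+ ℂ)
    (hπ : Function.Injective π) (lam : ℂ) (hlam : ∀ v, π (M v) = lam * π v) :
    ∃ φ : E →+ ℝ, Rec φ M := by
  -- choice of the direction
  obtain ⟨t, ht⟩ : ∃ t : ℝ, t ∉ Set.range (fun v : E => (π v).re / (π v).im) := by
    by_contra hcon
    push Not at hcon
    have h1 : (Set.univ : Set ℝ).Countable :=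
      (Set.countable_range (fun v : E => (π v).re / (π v).im)).mono (fun t _ => hcon t)
    exact Cardinal.not_countable_real h1
  set c : ℂ := ⟨1, t⟩ with hc
  let φ : E →+ ℝ := Complex.reAddGroupHom.comp ((AddMonoidHom.mulLeft c).comp π)
  have hφ : ∀ v, φ v = (c * π v).re := fun v => rfl
  have hne : ∀ v, v ≠ 0 → φ v ≠ 0 := by
    intro v hv h0
    rw [hφ, Complex.mul_re] at h0
    simp only [hc, one_mul] at h0
    by_cases him : (π v).im = 0
    · rw [him, mul_zero, sub_zero] at h0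
      apply hv
      apply hπ
      rw [map_zero]
      exact Complex.ext h0 him
    · apply ht
      refine ⟨v, ?_⟩
      show (π v).re / (π v).im = t
      rw [div_eq_iff him]
      linarith
  refine ⟨φ, (injective_iff_map_eq_zero φ).mpr (fun v hv => by
    by_contra h
    exact hne v h hv), ?_⟩
  have hit : ∀ (j : ℕ) (v : E), π ((⇑M)^[j] v) = lam ^ j * π v := by
    intro j v
    induction j with
    | zero => simp
    | succ j ih =>
      rw [Function.iterate_succ_apply', hlam, ih]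
      ring
  intro Φ j₁ hj₁
  by_cases hl0 : lam = 0
  · have hall : ∀ v : E, v = 0 := by
      intro v
      have h1 := hlam v
      rw [hl0, zero_mul] at h1
      have h2 : M v = 0 := by
        apply hπ
        rw [h1, map_zero]
      exact (map_eq_zero_iff M M.injective).mp h2
    refine ⟨j₁, hj₁, dvd_rfl, fun v _ => ?_⟩
    rw [hall v, hall ((⇑M)^[j₁] 0)]
  have hlpos : 0 < ‖lam‖ := norm_pos_iff.mpr hl0
  set u : ℂ := lam / ‖lam‖ with hu
  have hun : ‖u‖ = 1 := by
    rw [hu, norm_div, Complex.norm_real, norm_norm, div_self hlpos.ne']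
  have hlu : lam = ‖lam‖ * u := by
    rw [hu]
    have : (‖lam‖ : ℂ) ≠ 0 := by exact_mod_cast hlpos.ne'
    field_simp
  have hδ : ∃ δ : ℝ, 0 < δ ∧ ∀ v ∈ Φ, v ≠ 0 → δ * ‖c * π v‖ < |φ v| := by
    have h1 : ∀ᶠ δ : ℝ in nhdsWithin 0 (Set.Ioi 0), ∀ v ∈ Φ, v ≠ 0 → δ * ‖c * π v‖ < |φ v| := by
      rw [Filter.eventually_all_finset]
      intro v _
      by_cases hv : v = 0
      · exact Filter.Eventually.of_forall (fun δ h => absurd hv h)
      · have h2 : Filter.Tendsto (fun δ : ℝ => δ * ‖c * π v‖) (nhds 0) (nhds (0 * ‖c * π v‖)) :=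
          (continuous_id.mul continuous_const).tendsto 0
        rw [zero_mul] at h2
        have h3 := h2.eventually (gt_mem_nhds (abs_pos.mpr (hne v hv)))
        filter_upwards [nhdsWithin_le_nhds h3] with δ hδ _
        exact hδ
    obtain ⟨δ, hδ1, hδ2⟩ := (h1.and self_mem_nhdsWithin).exists
    exact ⟨δ, hδ2, hδ1⟩
  obtain ⟨δ, hδ0, hδ⟩ := hδ
  obtain ⟨j, hj0, hjd, hj⟩ := rec_exists_rec u hun δ hδ0 j₁ hj₁
  refine ⟨j, hj0, hjd, fun v hv => ?_⟩
  by_cases hv0 : v = 0
  · have h1 : φ v = 0 := by rw [hv0, map_zero]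
    have h2 : φ ((⇑M)^[j] v) = 0 := by
      rw [hφ, hit, hv0, map_zero, mul_zero, mul_zero, Complex.zero_re]
    rw [h1, h2]
  · have h1 : φ ((⇑M)^[j] v) = ‖lam‖ ^ j * (u ^ j * (c * π v)).re := by
      rw [hφ, hit]
      have h2 : c * (lam ^ j * π v) = ((‖lam‖ ^ j : ℝ) : ℂ) * (u ^ j * (c * π v)) := by
        conv_lhs => rw [hlu]
        push_cast
        rw [mul_pow]
        ring
      rw [h2, Complex.re_ofReal_mul]
    have h3 : |(u ^ j * (c * π v)).re - φ v| < |φ v| := by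
      rw [hφ v, ← Complex.sub_re]
      refine lt_of_le_of_lt (Complex.abs_re_le_norm _) ?_
      have h4 : u ^ j * (c * π v) - c * π v = (u ^ j - 1) * (c * π v) := by ring
      rw [h4, norm_mul]
      refine lt_of_le_of_lt (mul_le_mul_of_nonneg_right hj.le (norm_nonneg _)) ?_
      have h5 := hδ v hv hv0
      rw [hφ v] at h5
      exact h5
    have h6 : 0 < ‖lam‖ ^ j := by positivity
    rw [h1]
    constructor
    · intro hpos
      rw [abs_of_pos hpos] at h3
      have := (abs_lt.mp h3).1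
      apply mul_pos h6
      linarith
    · intro hpos
      have h7 : 0 < (u ^ j * (c * π v)).re := (mul_pos_iff_of_pos_left h6).mp hpos
      by_contra hneg
      have h8 : φ v < 0 := lt_of_le_of_ne (not_lt.mp hneg) (hne v hv0)
      rw [abs_of_neg h8] at h3
      have := (abs_lt.mp h3).2
      linarith

end Pool.Agent.Helper933.HC
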