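import Pool.Agent.Helper933.HC.Defs
import Pool.Agent.Helper933.HC.P_bdd_mono
import Pool.Agent.Helper933.HC.P_bdd_small
import Pool.Agent.Helper933.HC.P_mink
import Pool.Agent.Helper933.HC.P_one_step_H
import Pool.Agent.Helper933.HC.P_one_step_T
import Pool.Agent.Helper933.HC.P_rec_exists
import Pool.Agent.Helper933.HC.P_min_inv
import Pool.Agent.Helper933.HC.P_eig_exists
import Pool.Agent.Helper933.HC.P_cross_split
import Pool.Agent.Helper933.HC.P_cross_congr
import Pool.Agent.Helper933.HC.P_desc_comp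

set_option autoImplicit false

namespace Pool.Agent.Helper933.HC
open Module


theorem ch_tf {E : Type} [AddCommGroup E] [Module.IsTorsionFree ℤ E] (n : ℕ) (v : E) (hn : 0 < n)
    (h : n • v = 0) : v = 0 := by
  have h1 : (n : ℤ) • v = 0 := by rw [natCast_zsmul]; exact h
  rcases smul_eq_zero.mp h1 with h2 | h2
  · exact absurd h2 (by exact_mod_cast hn.ne')
  · exact h2

theorem ch_hres {E : Type} [AddCommGroup E] [Module.Finite ℤ E] [Module.Free ℤ E] (v : E)
    (h : ∀ k : ℕ, ∃ w : E, v = (3 ^ k : ℕ) • w) : v = 0 := by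
  apply (Module.Free.chooseBasis ℤ E).ext_elem
  intro i
  rw [map_zero, Finsupp.zero_apply]
  obtain ⟨z, hz⟩ : ∃ z, z = (Module.Free.chooseBasis ℤ E).repr v i := ⟨_, rfl⟩
  rw [← hz]
  have h0 : ∀ k : ℕ, ((3 ^ k : ℕ) : ℤ) ∣ z := by
    intro k
    obtain ⟨w, hw⟩ := h k
    rw [hz, hw, ← natCast_zsmul, map_smul, Finsupp.smul_apply, smul_eq_mul]
    exact dvd_mul_right _ _
  apply Int.eq_zero_of_abs_lt_dvd (h0 z.natAbs)
  rw [Int.abs_eq_natAbs]
  exact_mod_cast Nat.lt_pow_self (by norm_num)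

theorem ch_triv {K K' E : Type} [DivisionRing K] [DivisionRing K'] [AddCommGroup E]
    [Subsingleton E] {ι : K →+* K'} {x : E → K'} (h : Cross ι x) : Function.Surjective ι := by
  intro y
  obtain ⟨c, hc⟩ := h.mul 0 0
  rw [add_zero] at hc
  have hx : x 0 = ι c := mul_right_cancel₀ (h.ne 0) hc
  have hcomb : ∀ a : E →₀ K, comb ι x a = ι (a 0 * c) := by
    intro a
    have ha : a = Finsupp.single 0 (a 0) := by
      ext v
      rw [Subsingleton.elim v 0]
      simp
    unfold comb
    conv_lhs => rw [ha]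
    rw [Finsupp.sum_single_index (by simp), hx, map_mul]
  obtain ⟨a, b, hab, hy⟩ := h.frac y
  rw [hcomb] at hab
  rw [hcomb, hcomb] at hy
  refine ⟨(a 0 * c)⁻¹ * (b 0 * c), ?_⟩
  rw [map_mul, map_inv₀, ← hy, ← mul_assoc, inv_mul_cancel₀ hab, one_mul]

theorem ch_rank {K K' X : Type} [DivisionRing K] [DivisionRing K'] [AddCommGroup X] [Module K' X]
    [Module K X] {ι : K →+* K'} (hs : Function.Surjective ι)
    (hι : ∀ (k : K) (ξ : X), k • ξ = ι k • ξ) [FiniteDimensional K' X] (W : Submodule K X)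
    [FiniteDimensional K W] : finrank K W ≤ finrank K' X := by
  have hli : LinearIndependent K' (fun i => ((Module.finBasis K W) i : X)) := by
    rw [Fintype.linearIndependent_iff]
    intro g hg i
    choose k hk using fun i => hs (g i)
    have h1 : ∑ i, k i • ((Module.finBasis K W) i : X) = 0 := by
      rw [← hg]
      apply Finset.sum_congr rfl
      intro i _
      rw [hι, hk]
    have h2 : ∑ i, k i • (Module.finBasis K W) i = 0 := by
      apply Subtype.ext
      rw [Submodule.coe_sum]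
      exact h1
    have h3 := Fintype.linearIndependent_iff.mp (Module.finBasis K W).linearIndependent k h2 i
    rw [← hk, h3, map_zero]
  have h4 := hli.fintype_card_le_finrank
  rwa [Fintype.card_fin] at h4

theorem ch_mono {K K' : Type} [DivisionRing K] [DivisionRing K'] {ι : K →+* K'} {σ : K' ≃+* K'}
    {l l' d : ℕ} (hl : l ≤ l') (h : Desc ι σ l d) : Desc ι σ l' d := by
  intro X _ _ _ hι hX hd u hu W hW hWs
  haveI := hW
  exact bdd_mono hl le_rfl le_rfl hWs hWs (h X hι hX hd u hu W hW hWs)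

theorem ch_desc_triv {K K' E : Type} [DivisionRing K] [DivisionRing K'] [AddCommGroup E]
    [Subsingleton E] {ι : K →+* K'} {x : E → K'} (h : Cross ι x) (σ : K' ≃+* K') (d : ℕ) :
    Desc ι σ 1 d := by
  intro X _ _ _ hι hX hd u hu W hW hWs
  haveI := hW
  haveI := hX
  exact bdd_small ((ch_rank (ch_triv h) hι W).trans hd)

theorem ch_E1 {K K₁ E₁ : Type} [DivisionRing K] [DivisionRing K₁] [AddCommGroup E₁]
    [Module.Finite ℤ E₁] [Module.Free ℤ E₁] [Nontrivial E₁]
    {ι₁ : K →+* K₁} {x₁ : E₁ → K₁} (h : Cross ι₁ x₁) {τ : K ≃+* K} {σ₁ : K₁ ≃+* K₁}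
    {M₁ : E₁ ≃+ E₁} (hc : Compat ι₁ x₁ τ σ₁ M₁) (hM : ∀ v, ∃ w, M₁ v = v + 3 • w)
    (hmin : ∀ F : AddSubgroup E₁, F ≠ ⊥ → (∀ v, M₁ v ∈ F ↔ v ∈ F) →
        (∀ (n : ℕ) (v : E₁), 0 < n → n • v ∈ F → v ∈ F) → F = ⊤) (d : ℕ) :
    Desc ι₁ σ₁ (d + 1) d := by
  by_cases hper : ∃ v : E₁, v ≠ 0 ∧ ∃ j : ℕ, 0 < j ∧ (⇑M₁)^[j] v = v
  · obtain ⟨v, hv0, j, hj, hvj⟩ := hper
    have hfix : M₁ v = v :=
      mink (E := E₁) (fun n v hn hv => ch_tf n v hn hv) ch_hres M₁.toAddMonoidHom hM j hj v hvj
    have hF : AddMonoidHom.eqLocus M₁.toAddMonoidHom (AddMonoidHom.id E₁) = ⊤ := by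
      apply hmin
      · intro hb
        have h1 : v ∈ AddMonoidHom.eqLocus M₁.toAddMonoidHom (AddMonoidHom.id E₁) := hfix
        rw [hb, AddSubgroup.mem_bot] at h1
        exact hv0 h1
      · intro u
        constructor
        · intro hu
          have h1 : M₁ (M₁ u) = M₁ u := hu
          exact M₁.injective h1
        · intro hu
          have h1 : M₁ u = u := hu
          exact congrArg M₁ h1
      · intro n u hn hu
        have h1 : M₁ (n • u) = n • u := hu
        rw [map_nsmul] at h1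
        show M₁ u = u
        have h2 : n • (M₁ u - u) = 0 := by rw [nsmul_sub, h1, sub_self]
        exact sub_eq_zero.mp (ch_tf n _ hn h2)
    have hid : ∀ u, M₁ u = u := by
      intro u
      have h1 : u ∈ AddMonoidHom.eqLocus M₁.toAddMonoidHom (AddMonoidHom.id E₁) := by
        rw [hF]
        exact AddSubgroup.mem_top u
      exact h1
    -- rank one
    obtain ⟨i0⟩ : Nonempty (Module.Free.ChooseBasisIndex ℤ E₁) :=
      (Module.Free.chooseBasis ℤ E₁).index_nonempty
    obtain ⟨b, hb⟩ : ∃ b, b = Module.Free.chooseBasis ℤ E₁ := ⟨_, rfl⟩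
    have hb0 : b i0 ≠ 0 := b.ne_zero i0
    have hZ : AddSubgroup.zmultiples (b i0) = ⊤ := by
      apply hmin
      · intro hbot
        have h1 : b i0 ∈ AddSubgroup.zmultiples (b i0) := AddSubgroup.mem_zmultiples _
        rw [hbot, AddSubgroup.mem_bot] at h1
        exact hb0 h1
      · intro u
        rw [hid]
      · intro n u hn hu
        obtain ⟨m, hm⟩ := AddSubgroup.mem_zmultiples_iff.mp hu
        rw [AddSubgroup.mem_zmultiples_iff]
        refine ⟨b.repr u i0, ?_⟩
        apply b.ext_elem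
        intro i
        rw [map_smul, Finsupp.smul_apply, smul_eq_mul, b.repr_self]
        by_cases hi : i = i0
        · rw [hi, Finsupp.single_eq_same, mul_one]
        · rw [Finsupp.single_eq_of_ne hi, mul_zero]
          have h1 := congrArg (fun y => b.repr y i) hm
          simp only [map_zsmul, map_nsmul, Finsupp.smul_apply, b.repr_self,
            Finsupp.single_eq_of_ne hi, smul_zero] at h1
          have h2 : (n : ℤ) * b.repr u i = 0 := by
            rw [← nsmul_eq_mul]
            exact h1.symm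
          rcases mul_eq_zero.mp h2 with h3 | h3
          · exact absurd h3 (by exact_mod_cast hn.ne')
          · exact h3.symm
    have hbij : Function.Bijective (zmultiplesHom E₁ (b i0)) := by
      constructor
      · rw [injective_iff_map_eq_zero]
        intro m hm
        rw [zmultiplesHom_apply] at hm
        rcases smul_eq_zero.mp hm with h1 | h1
        · exact h1
        · exact absurd h1 hb0
      · intro u
        have h1 : u ∈ AddSubgroup.zmultiples (b i0) := by
          rw [hZ]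
          exact AddSubgroup.mem_top u
        exact AddSubgroup.mem_zmultiples_iff.mp h1
    obtain ⟨hC, hCo⟩ := cross_congr h hc (AddEquiv.ofBijective (zmultiplesHom E₁ (b i0)) hbij)
    have e : ((AddEquiv.ofBijective (zmultiplesHom E₁ (b i0)) hbij).trans M₁).trans
        (AddEquiv.ofBijective (zmultiplesHom E₁ (b i0)) hbij).symm = AddEquiv.refl ℤ := by
      apply AddEquiv.ext
      intro m
      rw [AddEquiv.trans_apply, AddEquiv.trans_apply, hid, AddEquiv.symm_apply_apply]
      rfl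
    rw [e] at hCo
    exact ch_mono (Nat.le_succ d) (one_step_T hC hCo d)
  · push Not at hper
    obtain ⟨π, lam, hπ, hlam⟩ := eig_exists M₁ hmin
    haveI : Countable E₁ :=
      (Module.Free.chooseBasis ℤ E₁).repr.toEquiv.injective.countable
    obtain ⟨φ, hφ⟩ := rec_exists M₁ π hπ lam hlam
    have hD : Desc ι₁ σ₁ 1 d := by
      intro X _ _ _ hι hX hd u hu W hW hWs
      haveI := hW
      apply bdd_small
      refine one_step_H h hc φ hφ ?_ d X hι hX hd u 1 one_pos hu W hW 1 one_pos hWs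
      intro v j hj hvj
      by_contra hv0
      exact hper v hv0 j hj hvj
    exact ch_mono (Nat.le_add_left 1 d) hD

theorem ch_step {K K' E : Type} [DivisionRing K] [DivisionRing K'] [AddCommGroup E]
    [Module.Finite ℤ E] [Module.Free ℤ E] [Nontrivial E] {ι : K →+* K'} {x : E → K'}
    (h : Cross ι x) {τ : K ≃+* K} {σ : K' ≃+* K'} {M : E ≃+ E} (hc : Compat ι x τ σ M)
    (hM3 : ∀ v, ∃ w, M v = v + 3 • w) (r : ℕ) (hr : finrank ℤ E ≤ r + 1) (d : ℕ)
    (ih : ∀ (K K' E : Type) [DivisionRing K] [DivisionRing K'] [AddCommGroup E]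
    [Module.Finite ℤ E] [Module.Free ℤ E] (ι : K →+* K') (x : E → K'), Cross ι x →
    ∀ (τ : K ≃+* K) (σ : K' ≃+* K') (M : E ≃+ E), Compat ι x τ σ M →
    (∀ v, ∃ w, M v = v + 3 • w) → finrank ℤ E ≤ r → ∀ d, Desc ι σ ((d + 1) ^ r) d) :
    Desc ι σ ((d + 1) ^ (r + 1)) d := by
  obtain ⟨E₁, hE₁, hMinv, hiso, hmin⟩ := min_inv M
  obtain ⟨K₁, iK₁, ι₁, ι₂, x₁, σ₁, M₁, x₂, M₂, c1, c2, c3, c4, c5, c6, c7, c8, c9⟩ :=
    cross_split h E₁ hc hMinv
  haveI fE₁ : Module.Finite ℤ E₁ :=
    Module.Finite.of_injective E₁.subtype.toIntLinearMap Subtype.val_injective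
  haveI tE₁ : Module.IsTorsionFree ℤ E₁ := by
    apply Module.IsTorsionFree.of_smul_eq_zero
    intro m v hv
    have h1 : m • (v : E) = 0 := by
      have h2 := congrArg (Subtype.val) hv
      simpa using h2
    rcases smul_eq_zero.mp h1 with h3 | h3
    · exact Or.inl h3
    · exact Or.inr (Subtype.ext h3)
  haveI frE₁ : Module.Free ℤ E₁ := inferInstance
  haveI nE₁ : Nontrivial E₁ := (AddSubgroup.nontrivial_iff_ne_bot E₁).mpr hE₁
  have hqs : Function.Surjective (QuotientAddGroup.mk' E₁).toIntLinearMap :=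
    QuotientAddGroup.mk'_surjective E₁
  haveI fQ : Module.Finite ℤ (E ⧸ E₁) := Module.Finite.of_surjective _ hqs
  haveI tQ : Module.IsTorsionFree ℤ (E ⧸ E₁) := by
    apply Module.IsTorsionFree.of_smul_eq_zero
    intro m v hv
    by_cases hm : m = 0
    · exact Or.inl hm
    · right
      obtain ⟨v, rfl⟩ := QuotientAddGroup.mk_surjective v
      have h1 : m • v ∈ E₁ := by
        rw [← QuotientAddGroup.eq_zero_iff]
        exact hv
      rw [QuotientAddGroup.eq_zero_iff]
      apply hiso m.natAbs v (Int.natAbs_pos.mpr hm)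
      rcases Int.natAbs_eq m with h2 | h2
      · rw [h2, natCast_zsmul] at h1
        exact h1
      · rw [h2, neg_smul, natCast_zsmul, neg_mem_iff] at h1
        exact h1
  haveI frQ : Module.Free ℤ (E ⧸ E₁) := inferInstance
  -- rank of the quotient
  have hrk : finrank ℤ (E ⧸ E₁) ≤ r := by
    have h1 := Module.finrank_quotient_add_finrank_le
      (LinearMap.ker (QuotientAddGroup.mk' E₁).toIntLinearMap)
    have h2 := (LinearMap.quotKerEquivOfSurjective _ hqs).finrank_eq
    rw [h2] at h1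
    have h3 : 0 < finrank ℤ (LinearMap.ker (QuotientAddGroup.mk' E₁).toIntLinearMap) := by
      haveI : Nontrivial (LinearMap.ker (QuotientAddGroup.mk' E₁).toIntLinearMap) := by
        obtain ⟨v, hv⟩ := exists_ne (0 : E₁)
        rw [Submodule.nontrivial_iff_ne_bot, Submodule.ne_bot_iff]
        refine ⟨(v : E), ?_, fun h0 => hv (Subtype.ext h0)⟩
        rw [LinearMap.mem_ker]
        exact (QuotientAddGroup.eq_zero_iff (v : E)).mpr v.2
      exact Module.finrank_pos
    omega
  have hD2 : Desc ι₂ σ ((d + 1) ^ r) d := by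
    refine ih K₁ K' (E ⧸ E₁) ι₂ x₂ c7 σ₁ σ M₂ c9 ?_ hrk d
    intro v
    obtain ⟨v, rfl⟩ := QuotientAddGroup.mk_surjective v
    obtain ⟨w, hw⟩ := hM3 v
    refine ⟨(w : E ⧸ E₁), ?_⟩
    rw [c5, hw]
    rfl
  have hM1 : ∀ v : E₁, ∃ w : E₁, M₁ v = v + 3 • w := by
    intro v
    obtain ⟨w, hw⟩ := hM3 v
    have h1 : 3 • w ∈ E₁ := by
      have h2 : 3 • w = M v - v := by rw [hw]; abel
      rw [h2]
      exact E₁.sub_mem ((hMinv v).mpr v.2) v.2
    refine ⟨⟨w, hiso 3 w (by norm_num) h1⟩, ?_⟩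
    apply Subtype.ext
    rw [c4, hw]
    rfl
  have hmin1 : ∀ F : AddSubgroup E₁, F ≠ ⊥ → (∀ v, M₁ v ∈ F ↔ v ∈ F) →
        (∀ (n : ℕ) (v : E₁), 0 < n → n • v ∈ F → v ∈ F) → F = ⊤ := by
    intro F hF hFM hFi
    have hmap : F.map E₁.subtype = E₁ := by
      apply hmin
      · rintro _ ⟨w, -, rfl⟩
        exact w.2
      · intro hbot
        apply hF
        rw [eq_bot_iff]
        intro w hw
        have h1 : (w : E) ∈ F.map E₁.subtype := ⟨w, hw, rfl⟩
        rw [hbot, AddSubgroup.mem_bot] at h1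
        exact Subtype.ext h1
      · intro v
        constructor
        · rintro ⟨w, hw, hwv⟩
          have hwv' : (w : E) = M v := hwv
          have h1 : v ∈ E₁ := by
            rw [← hMinv, ← hwv']
            exact w.2
          refine ⟨⟨v, h1⟩, ?_, rfl⟩
          show (⟨v, h1⟩ : E₁) ∈ F
          rw [← hFM]
          have h2 : M₁ ⟨v, h1⟩ = w := by
            apply Subtype.ext
            rw [c4]
            exact hwv'.symm
          rw [h2]
          exact hw
        · rintro ⟨w, hw, rfl⟩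
          refine ⟨M₁ w, (hFM w).mpr hw, ?_⟩
          exact c4 w
      · rintro n v hn ⟨w, hw, hwv⟩
        have hwv' : (w : E) = n • v := hwv
        have h1 : v ∈ E₁ := by
          apply hiso n v hn
          rw [← hwv']
          exact w.2
        refine ⟨⟨v, h1⟩, ?_, rfl⟩
        show (⟨v, h1⟩ : E₁) ∈ F
        apply hFi n _ hn
        have h2 : n • (⟨v, h1⟩ : E₁) = w := by
          apply Subtype.ext
          exact hwv'.symm
        rw [h2]
        exact hw
    rw [eq_top_iff]
    intro w _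
    have h1 : (w : E) ∈ F.map E₁.subtype := by
      rw [hmap]
      exact w.2
    obtain ⟨w', hw', hww⟩ := h1
    have h2 : w' = w := Subtype.ext hww
    rw [← h2]
    exact hw'
  have hD1 : Desc ι₁ σ₁ (d + 1) d := ch_E1 c6 c8 hM1 hmin1 d
  rw [pow_succ]
  exact desc_comp c1 c8.base c3 hD1 hD2

theorem chain (r : ℕ) : ∀ (K K' E : Type) [DivisionRing K] [DivisionRing K'] [AddCommGroup E]
    [Module.Finite ℤ E] [Module.Free ℤ E] (ι : K →+* K') (x : E → K'), Cross ι x →
    ∀ (τ : K ≃+* K) (σ : K' ≃+* K') (M : E ≃+ E), Compat ι x τ σ M →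
    (∀ v, ∃ w, M v = v + 3 • w) → finrank ℤ E ≤ r → ∀ d, Desc ι σ ((d + 1) ^ r) d := by
  induction r with
  | zero =>
    intro K K' E _ _ _ _ _ ι x h τ σ M hc hM hr d
    have h0 : finrank ℤ E = 0 := Nat.le_zero.mp hr
    haveI : Subsingleton E := Module.finrank_zero_iff.mp h0
    rw [pow_zero]
    exact ch_desc_triv h σ d
  | succ r ih =>
    intro K K' E _ _ _ _ _ ι x h τ σ M hc hM hr d
    rcases subsingleton_or_nontrivial E with hE | hE
    · exact ch_mono (Nat.one_le_pow _ _ (Nat.succ_pos d)) (ch_desc_triv h σ d)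
    · exact ch_step h hc hM r hr d ih

end Pool.Agent.Helper933.HC
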