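import Pool.Agent.Helper933.HC.Defs
import Pool.Agent.Helper933.HC.P_radi_le
import Pool.Agent.Helper933.HC.P_radi_map

set_option autoImplicit false

namespace Pool.Agent.Helper933.HC
open Module


section

variable {K' A : Type} [DivisionRing K'] [AddCommGroup A] [Module K' A]

/-- the automorphism induced on a quotient -/
theorem dl5_quot (σ : K' ≃+* K') (u : A ≃+ A) (hu : ∀ (κ : K') (ξ : A), u (κ • ξ) = σ κ • u ξ)
    (P : Submodule K' A) (hP : ∀ x, u x ∈ P ↔ x ∈ P) :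
    ∃ u₀ : (A ⧸ P) ≃+ (A ⧸ P), (∀ x, u₀ (Submodule.Quotient.mk x) = Submodule.Quotient.mk (u x)) ∧
      ∀ (κ : K') (ξ : A ⧸ P), u₀ (κ • ξ) = σ κ • u₀ ξ := by
  let f : A →ₛₗ[(σ : K' →+* K')] A :=
    { toFun := u
      map_add' := map_add u
      map_smul' := hu }
  have hsymm : ∀ (κ : K') (ξ : A), u.symm (κ • ξ) = σ.symm κ • u.symm ξ := by
    intro κ ξ
    apply u.injective
    rw [hu, u.apply_symm_apply, u.apply_symm_apply, RingEquiv.apply_symm_apply]
  let f' : A →ₛₗ[(σ.symm : K' →+* K')] A :=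
    { toFun := u.symm
      map_add' := map_add u.symm
      map_smul' := hsymm }
  have hf : P ≤ P.comap f := fun x hx => (hP x).2 hx
  have hf' : P ≤ P.comap f' := fun x hx => by
    show u.symm x ∈ P
    rw [← hP, u.apply_symm_apply]
    exact hx
  refine ⟨{ toFun := Submodule.mapQ P P f hf
            invFun := Submodule.mapQ P P f' hf'
            left_inv := ?_
            right_inv := ?_
            map_add' := map_add _ }, ?_, ?_⟩
  · intro y
    obtain ⟨x, rfl⟩ := Submodule.Quotient.mk_surjective P y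
    show Submodule.Quotient.mk (u.symm (u x)) = _
    rw [u.symm_apply_apply]
  · intro y
    obtain ⟨x, rfl⟩ := Submodule.Quotient.mk_surjective P y
    show Submodule.Quotient.mk (u (u.symm x)) = _
    rw [u.apply_symm_apply]
  · intro x
    rfl
  · intro κ ξ
    exact (Submodule.mapQ P P f hf).map_smulₛₗ κ ξ

/-- restriction to a stable subspace -/
theorem dl5_restr (σ : K' ≃+* K') (u : A ≃+ A) (hu : ∀ (κ : K') (ξ : A), u (κ • ξ) = σ κ • u ξ)
    (P : Submodule K' A) (hP : ∀ x, u x ∈ P ↔ x ∈ P) :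
    ∃ u₀ : P ≃+ P, (∀ x : P, ((u₀ x : P) : A) = u x) ∧
      ∀ (κ : K') (ξ : P), u₀ (κ • ξ) = σ κ • u₀ ξ := by
  refine ⟨{ toFun := fun x => ⟨u x, (hP x).2 x.2⟩
            invFun := fun x => ⟨u.symm x, by rw [← hP, u.apply_symm_apply]; exact x.2⟩
            left_inv := ?_
            right_inv := ?_
            map_add' := ?_ }, ?_, ?_⟩
  · intro x
    ext
    simp
  · intro x
    ext
    simp
  · intro x y
    ext
    simp
  · intro x
    rfl
  · intro κ ξ
    ext
    exact hu κ ξ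

end

theorem dl5_step {K K' : Type} [DivisionRing K] [DivisionRing K'] {ι : K →+* K'}
    {τ : K ≃+* K} {σ : K' ≃+* K'} (hστ : ∀ k, σ (ι k) = ι (τ k)) {l₂ d : ℕ}
    (hD : Desc ι σ l₂ d) (X : Type) [AddCommGroup X] [Module K' X] [Module K X]
    (hι : ∀ (k : K) (ξ : X), k • ξ = ι k • ξ)
    (u : X ≃+ X) (hu : ∀ (κ : K') (ξ : X), u (κ • ξ) = σ κ • u ξ)
    (Z : Submodule K' X) (hZf : FiniteDimensional K' Z) (hZs : Stable u Z)
    (V' : Submodule K' X) (hV'Z : V' ≤ Z) (hV's : Stable u V')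
    (hV'd : finrank K' Z ≤ finrank K' V' + d)
    (V : Submodule K X) (hVf : FiniteDimensional K V) (hVs : Stable u V)
    (hVZ : ∀ ξ ∈ V, ξ ∈ Z) : ∀ ξ ∈ (rad u d)^[l₂] V, ξ ∈ V' := by
  obtain ⟨uZ, huZ1, huZ2⟩ := dl5_restr σ u hu Z hZs
  set P : Submodule K' Z := V'.submoduleOf Z with hP
  have hPm : ∀ x : Z, x ∈ P ↔ (x : X) ∈ V' := fun x => Iff.rfl
  obtain ⟨u₀, hu₀1, hu₀2⟩ := dl5_quot σ uZ huZ2 P (fun x => by
    rw [hPm, hPm, huZ1]
    exact hV's x)
  obtain ⟨π, hπ⟩ := LinearMap.exists_leftInverse_of_injective Z.subtype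
    (LinearMap.ker_eq_bot.2 Z.injective_subtype)
  have hπ' : ∀ (x : X) (hx : x ∈ Z), π x = ⟨x, hx⟩ := fun x hx =>
    LinearMap.congr_fun hπ ⟨x, hx⟩
  letI : Module K (Z ⧸ P) := Module.compHom (Z ⧸ P) ι
  have hι₀ : ∀ (k : K) (ξ : Z ⧸ P), k • ξ = ι k • ξ := fun _ _ => rfl
  let φ : X →ₗ[K] (Z ⧸ P) :=
    { toFun := fun x => Submodule.Quotient.mk (π x)
      map_add' := fun x y => by rw [map_add, Submodule.Quotient.mk_add]
      map_smul' := fun k x => by
        rw [hι, map_smul, Submodule.Quotient.mk_smul, RingHom.id_apply, hι₀] }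
  have hφ : ∀ (x : X), φ x = Submodule.Quotient.mk (π x) := fun _ => rfl
  have hφu : ∀ x ∈ V, φ (u x) = u₀ (φ x) := by
    intro x hx
    have h1 := hVZ x hx
    have h2 : u x ∈ Z := (hZs x).2 h1
    rw [hφ, hφ, hπ' x h1, hπ' (u x) h2, hu₀1]
    congr 1
    ext
    rw [huZ1]
  have hfr : finrank K' (Z ⧸ P) ≤ d := by
    have h1 := Submodule.finrank_quotient_add_finrank P
    have h2 : finrank K' P = finrank K' V' := (Submodule.submoduleOfEquivOfLe hV'Z).finrank_eq
    omega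
  haveI : FiniteDimensional K V := hVf
  have hst : Stable u₀ (V.map φ) := by
    intro y
    constructor
    · intro hy
      obtain ⟨x, hx, hxy⟩ := Submodule.mem_map.1 hy
      have h1 : u.symm x ∈ V := by
        rw [← hVs, u.apply_symm_apply]
        exact hx
      have h2 := hφu _ h1
      rw [u.apply_symm_apply, hxy] at h2
      have h3 := u₀.injective h2
      rw [h3]
      exact Submodule.mem_map.2 ⟨_, h1, rfl⟩
    · intro hy
      obtain ⟨x, hx, rfl⟩ := Submodule.mem_map.1 hy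
      rw [← hφu x hx]
      exact Submodule.mem_map.2 ⟨_, (hVs x).2 hx, rfl⟩
  have hB : Bdd u₀ l₂ d (V.map φ) :=
    hD (Z ⧸ P) hι₀ inferInstance hfr u₀ hu₀2 (V.map φ) inferInstance hst
  intro x hx
  have h1 := radi_map (RingEquiv.refl K) (φ : X →+ (Z ⧸ P)) (u := u) (u₂ := u₀)
    (⟨τ, fun k ξ => by rw [hι₀, hι₀, hu₀2, hστ]⟩ : Semi K u₀) (W := V) hVs
    (fun k x _ => by
      show φ (k • x) = k • φ x
      rw [map_smul])
    (fun x hx => ⟨1, one_ne_zero, by
      show φ (u x) = (1 : K) • u₀ (φ x)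
      rw [one_smul]
      exact hφu x hx⟩)
    (V.map φ) (fun y => Submodule.mem_map) l₂ d x hx
  unfold Bdd at hB
  rw [hB] at h1
  have h2 : φ x = 0 := (Submodule.mem_bot K).1 h1
  rw [hφ, Submodule.Quotient.mk_eq_zero] at h2
  have hxV : x ∈ V := (radi_le l₂ d hVs).1 hx
  rw [hπ' x (hVZ x hxV), hPm] at h2
  exact h2

/-- descent of boundedness. -/
theorem desc_lift {K K' : Type} [DivisionRing K] [DivisionRing K'] {ι : K →+* K'}
    {τ : K ≃+* K} {σ : K' ≃+* K'} (hστ : ∀ k, σ (ι k) = ι (τ k)) {l₂ d : ℕ}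
    (hD : Desc ι σ l₂ d) (X : Type) [AddCommGroup X] [Module K' X] [Module K X]
    (hι : ∀ (k : K) (ξ : X), k • ξ = ι k • ξ)
    (u : X ≃+ X) (hu : ∀ (κ : K') (ξ : X), u (κ • ξ) = σ κ • u ξ)
    (W' : Submodule K' X) (hW'f : FiniteDimensional K' W') (hW's : Stable u W') (l : ℕ)
    (hb : Bdd u l d W') (W : Submodule K X) (hWf : FiniteDimensional K W) (hWs : Stable u W)
    (hWW' : ∀ ξ ∈ W, ξ ∈ W') : Bdd u (l * l₂) d W := by
  have key : ∀ i : ℕ, ∀ ξ ∈ (rad u d)^[i * l₂] W, ξ ∈ (rad u d)^[i] W' := by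
    intro i
    induction i with
    | zero =>
      intro ξ hξ
      rw [Nat.zero_mul] at hξ
      exact hWW' ξ hξ
    | succ i ih =>
      intro ξ hξ
      have e1 : (i + 1) * l₂ = l₂ + i * l₂ := by ring
      rw [e1, Function.iterate_add_apply] at hξ
      rw [Function.iterate_succ_apply', rad, Submodule.mem_sInf]
      rintro V' ⟨h1, h2, h3⟩
      haveI := hWf
      haveI := hW'f
      have hV := radi_le (i * l₂) d hWs
      have hZ := radi_le i d hW's
      exact dl5_step hστ hD X hι u hu ((rad u d)^[i] W') (Submodule.finiteDimensional_of_le hZ.1) hZ.2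
        V' h1 h2 h3 ((rad u d)^[i * l₂] W) (Submodule.finiteDimensional_of_le hV.1) hV.2 ih ξ hξ
  unfold Bdd at hb ⊢
  rw [eq_bot_iff]
  intro ξ hξ
  have h1 := key l ξ hξ
  rw [hb] at h1
  exact (Submodule.mem_bot K).2 ((Submodule.mem_bot K').1 h1)

end Pool.Agent.Helper933.HC
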