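import Pool.Agent.Helper933.HC.Defs

set_option autoImplicit false

namespace Pool.Agent.Helper933.HC
open Module


/-- the translates may be taken along a fixed choice of lifts. -/
theorem tr_eq {K G A Q : Type} [DivisionRing K] [Group G] [AddCommGroup A] [Module K A]
    [DistribMulAction G A] [Group Q] (ρ : G →* Q) {r : ℕ} (ε : Multiplicative (Fin r → ℤ) →* Q)
    (hsemi : ∀ g : G, Semi K (ac g : A ≃+ A))
    (hscal : ∀ g : G, ρ g = 1 → ∃ c : K, ∀ a : A, g • a = c • a)
    (Y : (Fin r → ℤ) → G) (hY : ∀ v, ρ (Y v) = ε (Multiplicative.ofAdd v))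
    (F : Set (Fin r → ℤ)) (w : A) :
    (tr ρ ε F w : Submodule K A) = Submodule.span K ((fun v => Y v • w) '' F) := by
  unfold tr
  apply le_antisymm
  · rw [Submodule.span_le]
    rintro y ⟨g, f, hf, hg, rfl⟩
    have h1 : ρ ((Y f)⁻¹ * g) = 1 := by
      rw [map_mul, map_inv, hY, hg, inv_mul_cancel]
    obtain ⟨c, hc⟩ := hscal _ h1
    obtain ⟨σ, hσ⟩ := hsemi (Y f)
    have h2 : g • w = σ c • (Y f • w) := by
      have h3 : g • w = Y f • (((Y f)⁻¹ * g) • w) := by
        rw [smul_smul, mul_inv_cancel_left]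
      rw [h3, hc w]
      exact hσ c w
    change g • w ∈ Submodule.span K ((fun v => Y v • w) '' F)
    rw [h2]
    exact Submodule.smul_mem _ _ (Submodule.subset_span ⟨f, hf, rfl⟩)
  · rw [Submodule.span_le]
    rintro y ⟨f, hf, rfl⟩
    exact Submodule.subset_span ⟨Y f, f, hf, hY f, rfl⟩

end Pool.Agent.Helper933.HC
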