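import Pool.Agent.Helper933.HC.Defs
import Pool.Agent.Helper933.HC.P_tr_eq

set_option autoImplicit false

namespace Pool.Agent.Helper933.HC
open Module


theorem tors_iff {K G A Q : Type} [DivisionRing K] [Group G] [AddCommGroup A] [Module K A]
    [DistribMulAction G A] [Group Q] (ρ : G →* Q) {r : ℕ} (ε : Multiplicative (Fin r → ℤ) →* Q)
    (hsemi : ∀ g : G, Semi K (ac g : A ≃+ A))
    (hscal : ∀ g : G, ρ g = 1 → ∃ c : K, ∀ a : A, g • a = c • a)
    (Y : (Fin r → ℤ) → G) (hY : ∀ v, ρ (Y v) = ε (Multiplicative.ofAdd v)) (w : A) :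
    Tors (K := K) ρ ε w ↔ ¬ LinearIndependent K (fun v => Y v • w) := by
  classical
  rw [linearIndependent_iff_notMem_span]
  push Not
  constructor
  · rintro ⟨F, v, hv, g, hg, hmem⟩
    rw [tr_eq ρ ε hsemi hscal Y hY] at hmem
    refine ⟨v, ?_⟩
    have h1 : ρ (Y v * g⁻¹) = 1 := by
      rw [map_mul, map_inv, hY, hg, mul_inv_cancel]
    obtain ⟨c, hc⟩ := hscal _ h1
    have h2 : Y v • w = c • (g • w) := by
      rw [← hc, smul_smul, inv_mul_cancel_right]
    rw [h2]
    refine Submodule.smul_mem _ _ (Submodule.span_mono ?_ hmem)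
    refine Set.image_mono ?_
    intro x hx
    refine ⟨Set.mem_univ _, ?_⟩
    rintro rfl
    exact hv hx
  · rintro ⟨v, hv⟩
    obtain ⟨T, hT, hvT⟩ := Submodule.mem_span_finite_of_mem_span hv
    rw [Finset.subset_set_image_iff] at hT
    obtain ⟨F, hF, rfl⟩ := hT
    refine ⟨F, v, ?_, Y v, hY v, ?_⟩
    · intro h
      exact (hF h).2 rfl
    · rw [tr_eq ρ ε hsemi hscal Y hY]
      simpa using hvT

end Pool.Agent.Helper933.HC
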