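import Pool.Agent.Helper933.HC.Defs
import Pool.Agent.Helper933.HC.P_conj_mat
import Pool.Agent.Helper933.HC.P_tors_iff

set_option autoImplicit false

namespace Pool.Agent.Helper933.HC
open Module


section drs
variable {K G A Q : Type} [DivisionRing K] [Group G] [AddCommGroup A] [Module K A]
    [DistribMulAction G A] [Group Q]

theorem dr_scal (ρ : G →* Q) (hscal : ∀ g : G, ρ g = 1 → ∃ c : K, ∀ a : A, g • a = c • a)
    (h h' : G) (e : ρ h = ρ h') : ∃ c : K, ∀ x : A, h • x = c • h' • x := by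
  obtain ⟨c, hc⟩ := hscal (h * h'⁻¹) (by rw [map_mul, map_inv, e, mul_inv_cancel])
  refine ⟨c, fun x => ?_⟩
  rw [← hc, smul_smul, inv_mul_cancel_right]

/-- `k • (g • ·)` -/
def dop (k : K) (g : G) : AddMonoid.End A :=
  Module.toAddMonoidEnd K A k * DistribMulAction.toAddMonoidEnd G A g

theorem dop_apply (k : K) (g : G) (x : A) : (dop k g : AddMonoid.End A) x = k • g • x := rfl

theorem dop_zero (g : G) : (dop (0 : K) g : AddMonoid.End A) = 0 := by
  unfold dop
  rw [map_zero, zero_mul]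

theorem dop_add (k k' : K) (g : G) :
    (dop (k + k') g : AddMonoid.End A) = dop k g + dop k' g := by
  unfold dop
  rw [map_add, add_mul]

theorem dop_neg (k : K) (g : G) :
    (dop (-k) g : AddMonoid.End A) = -dop k g := by
  unfold dop
  rw [map_neg, neg_mul]

theorem dend_ext {f g : AddMonoid.End A} (h : ∀ x, f x = g x) : f = g := DFunLike.ext _ _ h

/-- the monoid of the operators `k • (Y v • ·)` -/
def dMn {r : ℕ} (Y : (Fin r → ℤ) → G)
    (h1 : ∃ k : K, (1 : AddMonoid.End A) = dop k (Y 0))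
    (h2 : ∀ (k k' : K) (v w : Fin r → ℤ), ∃ k'' : K,
      (dop k (Y v) : AddMonoid.End A) * dop k' (Y w) = dop k'' (Y (v + w))) :
    Submonoid (AddMonoid.End A) where
  carrier := {f | ∃ (k : K) (v : Fin r → ℤ), f = dop k (Y v)}
  one_mem' := by
    obtain ⟨k, hk⟩ := h1
    exact ⟨k, 0, hk⟩
  mul_mem' := by
    rintro _ _ ⟨k, v, rfl⟩ ⟨k', w, rfl⟩
    obtain ⟨k'', hk⟩ := h2 k k' v w
    exact ⟨k'', v + w, hk⟩

theorem dmem_iff {r : ℕ} (Y : (Fin r → ℤ) → G)
    (h1 : ∃ k : K, (1 : AddMonoid.End A) = dop k (Y 0))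
    (h2 : ∀ (k k' : K) (v w : Fin r → ℤ), ∃ k'' : K,
      (dop k (Y v) : AddMonoid.End A) * dop k' (Y w) = dop k'' (Y (v + w)))
    (f : AddMonoid.End A) :
    f ∈ Subring.closure (dMn Y h1 h2 : Set (AddMonoid.End A)) ↔
      f ∈ AddSubgroup.closure (dMn Y h1 h2 : Set (AddMonoid.End A)) := by
  rw [Subring.mem_closure_iff, Submonoid.closure_eq]

theorem dnormal {r : ℕ} (Y : (Fin r → ℤ) → G)
    (h1 : ∃ k : K, (1 : AddMonoid.End A) = dop k (Y 0))
    (h2 : ∀ (k k' : K) (v w : Fin r → ℤ), ∃ k'' : K,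
      (dop k (Y v) : AddMonoid.End A) * dop k' (Y w) = dop k'' (Y (v + w)))
    (f : AddMonoid.End A) (hf : f ∈ Subring.closure (dMn Y h1 h2 : Set (AddMonoid.End A))) :
    ∃ a : (Fin r → ℤ) →₀ K, f = a.sum fun v k => dop k (Y v) := by
  rw [dmem_iff] at hf
  induction hf using AddSubgroup.closure_induction with
  | mem x hx =>
    obtain ⟨k, v, rfl⟩ := hx
    refine ⟨Finsupp.single v k, ?_⟩
    rw [Finsupp.sum_single_index]
    exact dop_zero (Y v)
  | zero => exact ⟨0, Finsupp.sum_zero_index.symm⟩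
  | add x y _ _ hx hy =>
    obtain ⟨a, ha⟩ := hx
    obtain ⟨b, hb⟩ := hy
    refine ⟨a + b, ?_⟩
    rw [Finsupp.sum_add_index' (fun v => dop_zero (Y v)) (fun v k k' => dop_add k k' (Y v)),
      ← ha, ← hb]
  | neg x _ hx =>
    obtain ⟨a, ha⟩ := hx
    refine ⟨-a, ?_⟩
    rw [Finsupp.sum_neg_index (fun v => dop_zero (Y v))]
    simp only [dop_neg]
    rw [Finsupp.sum_neg, ← ha]

theorem dsum_apply {r : ℕ} (Y : (Fin r → ℤ) → G) (a : (Fin r → ℤ) →₀ K) (x : A) :
    (a.sum fun v k => (dop k (Y v) : AddMonoid.End A)) x =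
      Finsupp.linearCombination K (fun v => Y v • x) a := by
  have h1 := map_finsuppSum (AddMonoidHom.eval x : (A →+ A) →+ A) a
    (fun v k => (dop k (Y v) : AddMonoid.End A))
  rw [Finsupp.linearCombination_apply]
  exact h1

theorem dconj_mem {r : ℕ} (Y : (Fin r → ℤ) → G)
    (h1 : ∃ k : K, (1 : AddMonoid.End A) = dop k (Y 0))
    (h2 : ∀ (k k' : K) (v w : Fin r → ℤ), ∃ k'' : K,
      (dop k (Y v) : AddMonoid.End A) * dop k' (Y w) = dop k'' (Y (v + w)))
    (u u' : AddMonoid.End A)
    (hu : ∀ (k : K) (v : Fin r → ℤ), ∃ (k' : K) (v' : Fin r → ℤ),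
      u * dop k (Y v) * u' = dop k' (Y v'))
    (f : AddMonoid.End A) (hf : f ∈ Subring.closure (dMn Y h1 h2 : Set (AddMonoid.End A))) :
    u * f * u' ∈ Subring.closure (dMn Y h1 h2 : Set (AddMonoid.End A)) := by
  rw [dmem_iff] at hf ⊢
  induction hf using AddSubgroup.closure_induction with
  | mem x hx =>
    obtain ⟨k, v, rfl⟩ := hx
    obtain ⟨k', v', h⟩ := hu k v
    rw [h]
    exact AddSubgroup.subset_closure ⟨k', v', rfl⟩
  | zero =>
    rw [mul_zero, zero_mul]
    exact AddSubgroup.zero_mem _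
  | add x y _ _ hx hy =>
    rw [mul_add, add_mul]
    exact AddSubgroup.add_mem _ hx hy
  | neg x _ hx =>
    rw [mul_neg, neg_mul]
    exact AddSubgroup.neg_mem _ hx

end drs

/-- the ring of operators generated by the scalars and the plinth. -/
theorem dring {K G A Q : Type} [DivisionRing K] [Group G] [AddCommGroup A] [Module K A]
    [DistribMulAction G A] [Group Q] (ρ : G →* Q) {r : ℕ}
    (ε : Multiplicative (Fin r → ℤ) →* Q) (hinj : Function.Injective ε)
    (hn : ε.range.Normal) (hsemi : ∀ g : G, Semi K (ac g : A ≃+ A))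
    (hscal : ∀ g : G, ρ g = 1 → ∃ c : K, ∀ a : A, g • a = c • a) [Nontrivial A]
    (hNT : ∀ a : A, a ≠ 0 → ¬ Tors (K := K) ρ ε a)
    (Y : (Fin r → ℤ) → G) (hY : ∀ v, ρ (Y v) = ε (Multiplicative.ofAdd v)) :
    ∃ (D : Type) (_ : Ring D) (_ : Module D A) (κ : K →+* D) (X : (Fin r → ℤ) → D),
      Nontrivial D ∧ NoZeroDivisors D ∧ (∀ (k : K) (a : A), κ k • a = k • a) ∧
      (∀ v (a : A), X v • a = Y v • a) ∧
      (∀ d : D, ∃ a : (Fin r → ℤ) →₀ K, d = a.sum fun v k => κ k * X v) ∧
      (∀ a : (Fin r → ℤ) →₀ K, (a.sum fun v k => κ k * X v) = 0 → a = 0) ∧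
      (∀ v, ∃ τ : K ≃+* K, ∀ k, X v * κ k = κ (τ k) * X v) ∧
      (∀ v w, ∃ c, X v * X w = κ c * X (v + w)) ∧
      (∀ (d : D) (a : A), d • a = 0 → d = 0 ∨ a = 0) ∧
      (∀ g : G, ∃ θ : D ≃+* D, ∀ (d : D) (a : A), g • (d • a) = θ d • (g • a)) := by
  have h2 : ∀ (k k' : K) (v w : Fin r → ℤ), ∃ k'' : K,
      (dop k (Y v) : AddMonoid.End A) * dop k' (Y w) = dop k'' (Y (v + w)) := by
    intro k k' v w
    obtain ⟨σ, hσ⟩ := hsemi (Y v)
    obtain ⟨c, hc⟩ := dr_scal (A := A) ρ hscal (Y v * Y w) (Y (v + w)) (by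
      rw [map_mul, hY, hY, hY, ← map_mul]
      rfl)
    refine ⟨k * σ k' * c, dend_ext fun x => ?_⟩
    change k • Y v • (k' • Y w • x) = (k * σ k' * c) • Y (v + w) • x
    have e1 : Y v • (k' • Y w • x) = σ k' • Y v • Y w • x := hσ k' _
    rw [e1, smul_smul (Y v), hc, smul_smul, smul_smul]
  have h1 : ∃ k : K, (1 : AddMonoid.End A) = dop k (Y 0) := by
    obtain ⟨c, hc⟩ := hscal (Y 0) (by rw [hY]; exact map_one ε)
    obtain ⟨a, ha⟩ := exists_ne (0 : A)
    have hc0 : c ≠ 0 := by
      intro h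
      have h3 := hc a
      rw [h, zero_smul] at h3
      exact ha ((smul_eq_zero_iff_eq (Y 0)).1 h3)
    refine ⟨c⁻¹, dend_ext fun x => ?_⟩
    change x = c⁻¹ • Y 0 • x
    rw [hc, smul_smul, inv_mul_cancel₀ hc0, one_smul]
  have hlin : ∀ x : A, x ≠ 0 → LinearIndependent K (fun v => Y v • x) := by
    intro x hx
    have h := hNT x hx
    rw [tors_iff ρ ε hsemi hscal Y hY, not_not] at h
    exact h
  obtain ⟨D, hD⟩ : ∃ D : Subring (AddMonoid.End A),
      D = Subring.closure (dMn Y h1 h2 : Set (AddMonoid.End A)) := ⟨_, rfl⟩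
  have hopD : ∀ (k : K) (v : Fin r → ℤ), (dop k (Y v) : AddMonoid.End A) ∈ D := by
    intro k v
    rw [hD]
    exact Subring.subset_closure ⟨k, v, rfl⟩
  have hkD : ∀ k : K, Module.toAddMonoidEnd K A k ∈ D := by
    intro k
    obtain ⟨c, hc⟩ := h1
    have e : Module.toAddMonoidEnd K A k = dop (k * c) (Y 0) := by
      refine dend_ext fun x => ?_
      have h3 : x = c • Y 0 • x := congrArg (fun f : AddMonoid.End A => f x) hc
      change k • x = (k * c) • Y 0 • x
      rw [mul_smul, ← h3]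
    rw [e]
    exact hopD _ _
  have hgD : ∀ v, DistribMulAction.toAddMonoidEnd G A (Y v) ∈ D := by
    intro v
    have e : DistribMulAction.toAddMonoidEnd G A (Y v) = dop (1 : K) (Y v) := by
      refine dend_ext fun x => ?_
      change Y v • x = (1 : K) • Y v • x
      rw [one_smul]
    rw [e]
    exact hopD _ _
  let κ : K →+* D := (Module.toAddMonoidEnd K A).codRestrict D hkD
  let X : (Fin r → ℤ) → D := fun v => ⟨DistribMulAction.toAddMonoidEnd G A (Y v), hgD v⟩
  have hκX : ∀ (v : Fin r → ℤ) (k : K), D.subtype (κ k * X v) = dop k (Y v) := fun v k => rfl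
  have hsumD : ∀ a : (Fin r → ℤ) →₀ K, D.subtype (a.sum fun v k => κ k * X v) =
      a.sum fun v k => dop k (Y v) := by
    intro a
    rw [map_finsuppSum]
    rfl
  have hnormal : ∀ d : D, ∃ a : (Fin r → ℤ) →₀ K, d = a.sum fun v k => κ k * X v := by
    intro d
    have hd : (d : AddMonoid.End A) ∈ Subring.closure (dMn Y h1 h2 : Set (AddMonoid.End A)) := by
      rw [← hD]
      exact d.2
    obtain ⟨a, ha⟩ := dnormal Y h1 h2 _ hd
    refine ⟨a, Subtype.ext ?_⟩
    rw [ha]
    exact (hsumD a).symm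
  have hfree : ∀ (a : (Fin r → ℤ) →₀ K) (x : A), x ≠ 0 →
      (a.sum fun v k => (dop k (Y v) : AddMonoid.End A)) x = 0 → a = 0 := by
    intro a x hx h
    rw [dsum_apply] at h
    exact (linearIndependent_iff.1 (hlin x hx)) a h
  have htf : ∀ (d : D) (x : A), (d : AddMonoid.End A) x = 0 → d = 0 ∨ x = 0 := by
    intro d x h
    by_cases hx : x = 0
    · exact Or.inr hx
    · left
      obtain ⟨a, ha⟩ := hnormal d
      have hda : (d : AddMonoid.End A) = a.sum fun v k => dop k (Y v) := by
        rw [← hsumD a, ← ha]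
        rfl
      rw [hda] at h
      have ha0 := hfree a x hx h
      rw [ha, ha0, Finsupp.sum_zero_index]
  obtain ⟨x0, hx0⟩ := exists_ne (0 : A)
  refine ⟨D, inferInstance, inferInstance, κ, X, ?_, ?_, fun k a => rfl, fun v a => rfl, hnormal,
    ?_, ?_, ?_, ?_, ?_⟩
  · refine ⟨⟨0, 1, fun h => hx0 ?_⟩⟩
    have h3 : ((0 : D) : AddMonoid.End A) x0 = ((1 : D) : AddMonoid.End A) x0 := by rw [h]
    exact h3.symm
  · refine ⟨fun {d d'} h => ?_⟩
    by_cases hd' : d' = 0
    · exact Or.inr hd'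
    · left
      have h3 : (d' : AddMonoid.End A) x0 ≠ 0 := by
        intro h4
        rcases htf d' x0 h4 with h5 | h5
        · exact hd' h5
        · exact hx0 h5
      have h4 : (d : AddMonoid.End A) ((d' : AddMonoid.End A) x0) = 0 := by
        have h5 : ((d * d' : D) : AddMonoid.End A) x0 = ((0 : D) : AddMonoid.End A) x0 := by rw [h]
        exact h5
      rcases htf d _ h4 with h5 | h5
      · exact h5
      · exact absurd h5 h3
  · intro a ha
    refine hfree a x0 hx0 ?_
    rw [← hsumD a, ha]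
    rfl
  · intro v
    obtain ⟨σ, hσ⟩ := hsemi (Y v)
    refine ⟨σ, fun k => Subtype.ext (dend_ext fun x => ?_)⟩
    exact hσ k x
  · intro v w
    obtain ⟨c, hc⟩ := dr_scal (A := A) ρ hscal (Y v * Y w) (Y (v + w)) (by
      rw [map_mul, hY, hY, hY, ← map_mul]
      rfl)
    refine ⟨c, Subtype.ext (dend_ext fun x => ?_)⟩
    change Y v • Y w • x = c • Y (v + w) • x
    rw [smul_smul, hc]
  · intro d a h
    exact htf d a h
  · intro g
    have hcj : ∀ g : G, ∀ (k : K) (v : Fin r → ℤ), ∃ (k' : K) (v' : Fin r → ℤ),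
        DistribMulAction.toAddMonoidEnd G A g * dop k (Y v) *
          DistribMulAction.toAddMonoidEnd G A g⁻¹ = dop k' (Y v') := by
      intro g k v
      obtain ⟨σ, hσ⟩ := hsemi g
      obtain ⟨M, hM⟩ := conj_mat ε hinj hn (ρ g)
      obtain ⟨c, hc⟩ := dr_scal (A := A) ρ hscal (g * Y v * g⁻¹) (Y (M v)) (by
        rw [map_mul, map_mul, map_inv, hY, hY, hM])
      refine ⟨σ k * c, M v, dend_ext fun x => ?_⟩
      change g • (k • Y v • g⁻¹ • x) = (σ k * c) • Y (M v) • x
      have e1 : g • (k • Y v • g⁻¹ • x) = σ k • g • Y v • g⁻¹ • x := hσ k _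
      rw [e1, mul_smul, ← hc, mul_smul, mul_smul]
    have hmem : ∀ g : G, ∀ f ∈ D, DistribMulAction.toAddMonoidEnd G A g * f *
        DistribMulAction.toAddMonoidEnd G A g⁻¹ ∈ D := by
      intro g f hf
      rw [hD] at hf ⊢
      exact dconj_mem Y h1 h2 _ _ (hcj g) f hf
    have hgg : ∀ g : G, DistribMulAction.toAddMonoidEnd G A g *
        DistribMulAction.toAddMonoidEnd G A g⁻¹ = 1 := by
      intro g
      rw [← map_mul, mul_inv_cancel, map_one]
    have hgg' : ∀ g : G, DistribMulAction.toAddMonoidEnd G A g⁻¹ *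
        DistribMulAction.toAddMonoidEnd G A g = 1 := by
      intro g
      rw [← map_mul, inv_mul_cancel, map_one]
    let θ : D ≃+* D :=
      { toFun := fun d => ⟨DistribMulAction.toAddMonoidEnd G A g * d *
          DistribMulAction.toAddMonoidEnd G A g⁻¹, hmem g d d.2⟩
        invFun := fun d => ⟨DistribMulAction.toAddMonoidEnd G A g⁻¹ * d *
          DistribMulAction.toAddMonoidEnd G A g, by
            have h := hmem g⁻¹ d d.2
            rw [inv_inv] at h
            exact h⟩
        left_inv := by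
          intro d
          apply Subtype.ext
          change DistribMulAction.toAddMonoidEnd G A g⁻¹ * (DistribMulAction.toAddMonoidEnd G A g *
            (d : AddMonoid.End A) * DistribMulAction.toAddMonoidEnd G A g⁻¹) *
            DistribMulAction.toAddMonoidEnd G A g = d
          simp only [mul_assoc]
          rw [hgg' g, mul_one, ← mul_assoc, hgg' g, one_mul]
        right_inv := by
          intro d
          apply Subtype.ext
          change DistribMulAction.toAddMonoidEnd G A g * (DistribMulAction.toAddMonoidEnd G A g⁻¹ *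
            (d : AddMonoid.End A) * DistribMulAction.toAddMonoidEnd G A g) *
            DistribMulAction.toAddMonoidEnd G A g⁻¹ = d
          simp only [mul_assoc]
          rw [hgg g, mul_one, ← mul_assoc, hgg g, one_mul]
        map_mul' := by
          intro d d'
          apply Subtype.ext
          change DistribMulAction.toAddMonoidEnd G A g * ((d : AddMonoid.End A) * d') *
            DistribMulAction.toAddMonoidEnd G A g⁻¹ =
            DistribMulAction.toAddMonoidEnd G A g * (d : AddMonoid.End A) *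
            DistribMulAction.toAddMonoidEnd G A g⁻¹ * (DistribMulAction.toAddMonoidEnd G A g *
            (d' : AddMonoid.End A) * DistribMulAction.toAddMonoidEnd G A g⁻¹)
          have e : DistribMulAction.toAddMonoidEnd G A g * (d : AddMonoid.End A) *
            DistribMulAction.toAddMonoidEnd G A g⁻¹ * (DistribMulAction.toAddMonoidEnd G A g *
            (d' : AddMonoid.End A) * DistribMulAction.toAddMonoidEnd G A g⁻¹) =
            DistribMulAction.toAddMonoidEnd G A g * (d : AddMonoid.End A) *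
            (DistribMulAction.toAddMonoidEnd G A g⁻¹ * DistribMulAction.toAddMonoidEnd G A g) *
            (d' : AddMonoid.End A) * DistribMulAction.toAddMonoidEnd G A g⁻¹ := by
            simp only [mul_assoc]
          rw [e, hgg' g, mul_one]
          simp only [mul_assoc]
        map_add' := by
          intro d d'
          apply Subtype.ext
          change DistribMulAction.toAddMonoidEnd G A g * ((d : AddMonoid.End A) + d') *
            DistribMulAction.toAddMonoidEnd G A g⁻¹ =
            DistribMulAction.toAddMonoidEnd G A g * (d : AddMonoid.End A) *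
            DistribMulAction.toAddMonoidEnd G A g⁻¹ + DistribMulAction.toAddMonoidEnd G A g *
            (d' : AddMonoid.End A) * DistribMulAction.toAddMonoidEnd G A g⁻¹
          rw [mul_add, add_mul] }
    refine ⟨θ, fun d a => ?_⟩
    change g • (d : AddMonoid.End A) a = g • (d : AddMonoid.End A) (g⁻¹ • g • a)
    rw [inv_smul_smul]

end Pool.Agent.Helper933.HC
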