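import Pool.Agent.Helper933.HC.Defs

set_option autoImplicit false

namespace Pool.Agent.Helper933.HC
open Module


theorem dring_ore_num (m r : ℕ) : ∃ n : ℕ, (n + 2 * m) ^ r < 2 * n ^ r := by
  have h1 : Filter.Tendsto (fun n : ℕ => (1 + ((2 * m : ℝ)) / (n : ℝ)) ^ r) Filter.atTop
      (nhds ((1 + 0) ^ r)) :=
    ((tendsto_const_div_atTop_nhds_zero_nat _).const_add 1).pow r
  rw [add_zero, one_pow] at h1
  have h2 := h1.eventually (gt_mem_nhds (show (1 : ℝ) < 2 by norm_num))
  obtain ⟨n, hn, hn1⟩ := (h2.and (Filter.eventually_ge_atTop 1)).exists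
  refine ⟨n, ?_⟩
  have hn0 : (0 : ℝ) < n := by exact_mod_cast hn1
  have h3 : ((n : ℝ) + 2 * m) ^ r < 2 * (n : ℝ) ^ r := by
    have h4 : (n : ℝ) + 2 * m = n * (1 + (2 * m : ℝ) / n) := by field_simp
    rw [h4, mul_pow, mul_comm]
    exact mul_lt_mul_of_pos_right hn (by positivity)
  exact_mod_cast h3

/-- the Ore condition from polynomial growth. -/
theorem dring_ore {D K : Type} [Ring D] [NoZeroDivisors D] [DivisionRing K] {r : ℕ}
    (κ : K →+* D) (X : (Fin r → ℤ) → D)
    (hspan : ∀ d : D, ∃ a : (Fin r → ℤ) →₀ K, d = a.sum fun v k => κ k * X v)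
    (hind : ∀ a : (Fin r → ℤ) →₀ K, (a.sum fun v k => κ k * X v) = 0 → a = 0)
    (hnorm : ∀ v k, ∃ k', X v * κ k = κ k' * X v)
    (hmul : ∀ v w, ∃ c, X v * X w = κ c * X (v + w)) :
    ∀ t s : D, s ≠ 0 → ∃ p q : D, p ≠ 0 ∧ p * t = q * s := by
  intro t s hs
  by_contra hcon
  push Not at hcon
  have ht : t ≠ 0 := by
    rintro rfl
    refine hcon 1 0 ?_ (by simp)
    intro h1; apply hs; rw [← mul_one s, h1, mul_zero]
  letI : Module K D := Module.compHom D κ
  have hsm : ∀ (k : K) (d : D), k • d = κ k * d := fun _ _ => rfl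
  have hX : LinearIndependent K X := by
    rw [linearIndependent_iff]
    intro l hl
    exact hind l hl
  obtain ⟨a, ha⟩ := hspan t
  obtain ⟨b, hb⟩ := hspan s
  obtain ⟨m, hma, hmb⟩ : ∃ m : ℕ, (∀ v ∈ a.support, ∀ i, -(m : ℤ) ≤ v i ∧ v i ≤ m) ∧
      (∀ v ∈ b.support, ∀ i, -(m : ℤ) ≤ v i ∧ v i ≤ m) := by
    refine ⟨(a.support ∪ b.support).sup (fun v => Finset.univ.sup fun i => (v i).natAbs), ?_, ?_⟩
    · intro v hv i
      have h1 : (v i).natAbs ≤ Finset.univ.sup fun i => (v i).natAbs :=
        Finset.le_sup (f := fun i => (v i).natAbs) (Finset.mem_univ i)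
      have h2 : (Finset.univ.sup fun i => (v i).natAbs) ≤
          (a.support ∪ b.support).sup (fun v => Finset.univ.sup fun i => (v i).natAbs) :=
        Finset.le_sup (f := fun v : Fin r → ℤ => Finset.univ.sup fun i => (v i).natAbs)
          (Finset.mem_union_left _ hv)
      omega
    · intro v hv i
      have h1 : (v i).natAbs ≤ Finset.univ.sup fun i => (v i).natAbs :=
        Finset.le_sup (f := fun i => (v i).natAbs) (Finset.mem_univ i)
      have h2 : (Finset.univ.sup fun i => (v i).natAbs) ≤
          (a.support ∪ b.support).sup (fun v => Finset.univ.sup fun i => (v i).natAbs) :=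
        Finset.le_sup (f := fun v : Fin r → ℤ => Finset.univ.sup fun i => (v i).natAbs)
          (Finset.mem_union_right _ hv)
      omega
  obtain ⟨n, hn⟩ := dring_ore_num m r
  let A : Finset (Fin r → ℤ) := Fintype.piFinset (fun _ => Finset.Ico (0 : ℤ) n)
  let C : Finset (Fin r → ℤ) := Fintype.piFinset (fun _ => Finset.Ico (-(m : ℤ)) (n + m))
  have hA : A.card = n ^ r := by
    simp [A]
  have hC : C.card = (n + 2 * m) ^ r := by
    simp only [C, Fintype.card_piFinset, Int.card_Ico, Finset.prod_const, Finset.card_univ,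
      Fintype.card_fin]
    congr 1
    omega
  have hindA : LinearIndependent K (fun v : A => X v) := hX.comp Subtype.val Subtype.val_injective
  have hindC : LinearIndependent K (fun v : C => X v) := hX.comp Subtype.val Subtype.val_injective
  let U : Submodule K D := Submodule.span K (Set.range (fun v : A => X v))
  let W : Submodule K D := Submodule.span K (Set.range (fun v : C => X v))
  have hfU : finrank K U = n ^ r := by
    rw [finrank_span_eq_card hindA, Fintype.card_coe, hA]
  have hfW : finrank K W = (n + 2 * m) ^ r := by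
    rw [finrank_span_eq_card hindC, Fintype.card_coe, hC]
  let Rm : D → D →ₗ[K] D := fun c =>
    { toFun := fun d => d * c
      map_add' := fun x y => add_mul x y c
      map_smul' := fun k x => by
        show (κ k * x) * c = κ k * (x * c)
        rw [mul_assoc] }
  have hterm : ∀ (l : (Fin r → ℤ) →₀ K), (∀ v ∈ l.support, ∀ i, -(m : ℤ) ≤ v i ∧ v i ≤ m) →
      ∀ v ∈ A, X v * (l.sum fun v k => κ k * X v) ∈ W := by
    intro l hl v hv
    unfold Finsupp.sum
    rw [Finset.mul_sum]
    apply Submodule.sum_mem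
    intro w hw
    obtain ⟨k', hk'⟩ := hnorm v (l w)
    obtain ⟨c, hc⟩ := hmul v w
    have h1 : X v * (κ (l w) * X w) = (k' * c) • X (v + w) := by
      rw [hsm, ← mul_assoc, hk', mul_assoc, hc, map_mul, mul_assoc]
    rw [h1]
    apply Submodule.smul_mem
    apply Submodule.subset_span
    refine ⟨⟨v + w, ?_⟩, rfl⟩
    have hv' : ∀ i, 0 ≤ v i ∧ v i < n := by
      intro i
      have := Fintype.mem_piFinset.mp hv i
      rwa [Finset.mem_Ico] at this
    apply Fintype.mem_piFinset.mpr
    intro i
    rw [Finset.mem_Ico, Pi.add_apply]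
    have g1 := hv' i
    have g2 := hl w hw i
    constructor <;> omega
  have hU : ∀ (l : (Fin r → ℤ) →₀ K), (∀ v ∈ l.support, ∀ i, -(m : ℤ) ≤ v i ∧ v i ≤ m) →
      ∀ p ∈ U, p * (l.sum fun v k => κ k * X v) ∈ W := by
    intro l hl
    have : U ≤ W.comap (Rm (l.sum fun v k => κ k * X v)) := by
      apply Submodule.span_le.mpr
      rintro _ ⟨⟨v, hv⟩, rfl⟩
      exact hterm l hl v hv
    intro p hp
    exact this hp
  let f : (U × U) →ₗ[K] D := ((Rm t).comp U.subtype).coprod (-((Rm s).comp U.subtype))
  have hf : ∀ x : U × U, f x = (x.1 : D) * t - (x.2 : D) * s := by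
    intro x
    show (x.1 : D) * t + -((x.2 : D) * s) = _
    rw [sub_eq_add_neg]
  have hfinj : Function.Injective f := by
    rw [← LinearMap.ker_eq_bot, LinearMap.ker_eq_bot']
    intro x hx
    rw [hf] at hx
    have h1 : (x.1 : D) * t = (x.2 : D) * s := sub_eq_zero.mp hx
    have h2 : (x.1 : D) = 0 := by
      by_contra h
      exact hcon _ _ h h1
    have h3 : (x.2 : D) = 0 := by
      rw [h2, zero_mul] at h1
      rcases mul_eq_zero.mp h1.symm with h | h
      · exact h
      · exact absurd h hs
    ext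
    · exact h2
    · exact h3
  have hfW' : ∀ x, f x ∈ W := by
    intro x
    rw [hf]
    apply Submodule.sub_mem
    · rw [ha]; exact hU a hma _ x.1.2
    · rw [hb]; exact hU b hmb _ x.2.2
  haveI : Module.Finite K W := by
    apply Module.Finite.span_of_finite
    exact Set.finite_range _
  haveI : Module.Finite K U := by
    apply Module.Finite.span_of_finite
    exact Set.finite_range _
  have hle := LinearMap.finrank_le_finrank_of_injective (f := f.codRestrict W hfW') (by
    intro x y hxy
    apply hfinj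
    exact congrArg Subtype.val hxy)
  rw [Module.finrank_prod, hfU, hfW] at hle
  omega

end Pool.Agent.Helper933.HC
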