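import Pool.Agent.Helper933.HC.Defs

set_option autoImplicit false

namespace Pool.Agent.Helper933.HC
open Module


theorem ore_base {D A : Type} [Ring D] [Nontrivial D] [NoZeroDivisors D] [AddCommGroup A]
    [Module D A] (hOre : ∀ t s : D, s ≠ 0 → ∃ p q : D, p ≠ 0 ∧ p * t = q * s)
    (htf : ∀ (d : D) (a : A), d • a = 0 → d = 0 ∨ a = 0) :
    ∃ (K' A' : Type) (_ : DivisionRing K') (_ : AddCommGroup A') (_ : Module K' A')
      (ι : D →+* K') (j : A →+ A'), Function.Injective ι ∧ Function.Injective j ∧
      (∀ d a, j (d • a) = ι d • j a) ∧ (∀ κ : K', ∃ s d : D, s ≠ 0 ∧ ι s * κ = ι d) ∧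
      (∀ ξ : A', ∃ s : D, s ≠ 0 ∧ ∃ a, ι s • ξ = j a) := by
  classical
  haveI hset : OreLocalization.OreSet (nonZeroDivisors D) := by
    refine Classical.choice (OreLocalization.nonempty_oreSet_iff_of_noZeroDivisors.mpr ?_)
    intro r s
    obtain ⟨p, q, hp, h⟩ := hOre r s (nonZeroDivisors.coe_ne_zero s)
    exact ⟨q, ⟨p, mem_nonZeroDivisors_of_ne_zero hp⟩, h⟩
  refine ⟨OreLocalization (nonZeroDivisors D) D, OreLocalization (nonZeroDivisors D) A,
    inferInstance, inferInstance, inferInstance, OreLocalization.numeratorRingHom,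
    { toFun := fun a => OreLocalization.oreDiv a 1
      map_zero' := OreLocalization.zero_oreDiv 1
      map_add' := fun _ _ => OreLocalization.add_oreDiv.symm }, ?_, ?_, ?_, ?_, ?_⟩
  · exact OreLocalization.numeratorHom_inj inf_le_left
  · intro a b h
    have h' : OreLocalization.oreDiv a (1 : nonZeroDivisors D) = OreLocalization.oreDiv b 1 := h
    rw [OreLocalization.oreDiv_eq_iff] at h'
    obtain ⟨u, v, h1, h2⟩ := h'
    simp only [OneMemClass.coe_one, mul_one] at h2
    rw [← h2] at h1
    have h3 : (u : D) • (b - a) = 0 := by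
      rw [smul_sub, sub_eq_zero]
      exact h1
    rcases htf _ _ h3 with h4 | h4
    · exact absurd h4 (nonZeroDivisors.coe_ne_zero u)
    · exact (sub_eq_zero.mp h4).symm
  · intro d a
    exact OreLocalization.smul_div_one.symm
  · intro κ
    induction κ using OreLocalization.ind with
    | _ r s =>
      exact ⟨s, r, nonZeroDivisors.coe_ne_zero s, OreLocalization.mul_cancel⟩
  · intro ξ
    induction ξ using OreLocalization.ind with
    | _ r s =>
      exact ⟨s, nonZeroDivisors.coe_ne_zero s, r, OreLocalization.smul_cancel⟩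

end Pool.Agent.Helper933.HC
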