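import Pool.Agent.Helper933.HC.Defs

set_option autoImplicit false

namespace Pool.Agent.Helper933.HC
open Module


theorem ore_aux {D M K' M' : Type} [Ring D] [Nontrivial D] [NoZeroDivisors D] [AddCommGroup M]
    [Module D M] [DivisionRing K'] [AddCommGroup M'] [Module K' M'] (ι : D →+* K') (j : M →+ M')
    (hι : Function.Injective ι) (hj : Function.Injective j)
    (hlin : ∀ d a, j (d • a) = ι d • j a) (hfrac : ∀ κ : K', ∃ s d : D, s ≠ 0 ∧ ι s * κ = ι d)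
    (hfracA : ∀ ξ : M', ∃ s : D, s ≠ 0 ∧ ∃ a, ι s • ξ = j a)
    (θ : D ≃+* D) (γ : M ≃+ M) (hγ : ∀ d a, γ (d • a) = θ d • γ a) :
    ∃ γ' : M' →+ M', ∀ s m ξ, s ≠ 0 → ι s • ξ = j m → ι (θ s) • γ' ξ = j (γ m) := by
  classical
  choose S hS A hA using hfracA
  have hne : ∀ s : D, s ≠ 0 → ι (θ s) ≠ 0 := fun s hs h => hs (by
    have h1 : ι (θ s) = ι 0 := by rw [h, map_zero]
    have h2 := hι h1
    simpa using h2)
  have hne' : ∀ s : D, s ≠ 0 → ι s ≠ 0 := fun s hs h => hs (by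
    have h1 : ι s = ι 0 := by rw [h, map_zero]
    exact hι h1)
  have ore : ∀ s s' : D, s' ≠ 0 → ∃ p q : D, p ≠ 0 ∧ p * s = q * s' := by
    intro s s' hs'
    obtain ⟨p, q, hp, h⟩ := hfrac (ι s * (ι s')⁻¹)
    refine ⟨p, q, hp, hι ?_⟩
    rw [map_mul, map_mul, ← h, mul_assoc, mul_assoc, inv_mul_cancel₀ (hne' s' hs'), mul_one]
  let g : M' → M' := fun ξ => (ι (θ (S ξ)))⁻¹ • j (γ (A ξ))
  have key : ∀ s m ξ, s ≠ 0 → ι s • ξ = j m → ι (θ s) • g ξ = j (γ m) := by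
    intro s m ξ hs h
    obtain ⟨p, q, hp, hpq⟩ := ore s (S ξ) (hS ξ)
    have h0 : ι (θ (S ξ)) • g ξ = j (γ (A ξ)) := by
      simp only [g]
      rw [smul_smul, mul_inv_cancel₀ (hne _ (hS ξ)), one_smul]
    have h1 : p • m = q • A ξ := by
      apply hj
      rw [hlin, hlin, ← h, ← hA ξ, smul_smul, smul_smul, ← map_mul, ← map_mul, hpq]
    have h2 : θ p * θ s = θ q * θ (S ξ) := by rw [← map_mul, ← map_mul, hpq]
    have h3 : θ p • γ m = θ q • γ (A ξ) := by rw [← hγ, ← hγ, h1]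
    have h4 : ι (θ p) • (ι (θ s) • g ξ) = ι (θ p) • j (γ m) := by
      rw [smul_smul, ← map_mul, h2, map_mul, mul_smul, h0, ← hlin, ← hlin, h3]
    have h5 := congrArg (fun z => (ι (θ p))⁻¹ • z) h4
    simpa only [inv_smul_smul₀ (hne p hp)] using h5
  refine ⟨⟨⟨g, ?_⟩, ?_⟩, key⟩
  · have := key 1 0 0 one_ne_zero (by simp)
    simpa using this
  · intro ξ η
    show g (ξ + η) = g ξ + g η
    obtain ⟨p, q, hp, hpq⟩ := ore (S ξ) (S η) (hS η)
    have hps : p * S ξ ≠ 0 := mul_ne_zero hp (hS ξ)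
    have e1 : ι (p * S ξ) • ξ = j (p • A ξ) := by
      rw [hlin, ← hA ξ, smul_smul, map_mul]
    have e2 : ι (p * S ξ) • η = j (q • A η) := by
      rw [hlin, ← hA η, smul_smul, hpq, map_mul]
    have e3 : ι (p * S ξ) • (ξ + η) = j (p • A ξ + q • A η) := by
      rw [smul_add, e1, e2, map_add]
    have f1 := key _ _ _ hps e1
    have f2 := key _ _ _ hps e2
    have f3 := key _ _ _ hps e3
    have h4 : ι (θ (p * S ξ)) • g (ξ + η) = ι (θ (p * S ξ)) • (g ξ + g η) := by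
      rw [f3, smul_add, f1, f2, ← map_add, ← map_add]
    have h5 := congrArg (fun z => (ι (θ (p * S ξ)))⁻¹ • z) h4
    simpa only [smul_smul, inv_mul_cancel₀ (hne _ hps), one_smul] using h5

theorem ore_ext {D A K' A' : Type} [Ring D] [Nontrivial D] [NoZeroDivisors D] [AddCommGroup A]
    [Module D A] [DivisionRing K'] [AddCommGroup A'] [Module K' A'] (ι : D →+* K') (j : A →+ A')
    (hι : Function.Injective ι) (hj : Function.Injective j)
    (hlin : ∀ d a, j (d • a) = ι d • j a) (hfrac : ∀ κ : K', ∃ s d : D, s ≠ 0 ∧ ι s * κ = ι d)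
    (hfracA : ∀ ξ : A', ∃ s : D, s ≠ 0 ∧ ∃ a, ι s • ξ = j a)
    (θ : D ≃+* D) (γ : A ≃+ A) (hγ : ∀ d a, γ (d • a) = θ d • γ a) :
    ∃ (σ : K' ≃+* K') (γ' : A' ≃+ A'), (∀ d, σ (ι d) = ι (θ d)) ∧
      (∀ a, γ' (j a) = j (γ a)) ∧ (∀ κ ξ, γ' (κ • ξ) = σ κ • γ' ξ) := by
  have hne : ∀ s : D, s ≠ 0 → ι (θ s) ≠ 0 := fun s hs h => hs (by
    have h1 : ι (θ s) = ι 0 := by rw [h, map_zero]
    have h2 := hι h1
    simpa using h2)
  have hne' : ∀ s : D, s ≠ 0 → ι s ≠ 0 := fun s hs h => hs (by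
    have h1 : ι s = ι 0 := by rw [h, map_zero]
    exact hι h1)
  have ore : ∀ s s' : D, s' ≠ 0 → ∃ p q : D, p ≠ 0 ∧ p * s = q * s' := by
    intro s s' hs'
    obtain ⟨p, q, hp, h⟩ := hfrac (ι s * (ι s')⁻¹)
    refine ⟨p, q, hp, hι ?_⟩
    rw [map_mul, map_mul, ← h, mul_assoc, mul_assoc, inv_mul_cancel₀ (hne' s' hs'), mul_one]
  -- cancellation
  have canc : ∀ {X : Type} [AddCommGroup X] [Module K' X] (c : K') (a b : X), c ≠ 0 →
      c • a = c • b → a = b := by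
    intro X _ _ c a b hc h
    have h5 := congrArg (fun z => c⁻¹ • z) h
    simpa only [smul_smul, inv_mul_cancel₀ hc, one_smul] using h5
  have hfK : ∀ κ : K', ∃ s : D, s ≠ 0 ∧ ∃ a : D, ι s • κ = ι.toAddMonoidHom a := by
    intro κ
    obtain ⟨s, d, hs, h⟩ := hfrac κ
    exact ⟨s, hs, d, h⟩
  obtain ⟨σ₀, hσ₀⟩ := ore_aux ι ι.toAddMonoidHom hι hι (fun d a => by simp) hfrac hfK θ
    θ.toAddEquiv (fun d a => by simp)
  obtain ⟨σ₁, hσ₁⟩ := ore_aux ι ι.toAddMonoidHom hι hι (fun d a => by simp) hfrac hfK θ.symm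
    θ.symm.toAddEquiv (fun d a => by simp)
  obtain ⟨γ₀, hγ₀⟩ := ore_aux ι j hι hj hlin hfrac hfracA θ γ hγ
  obtain ⟨γ₁, hγ₁⟩ := ore_aux ι j hι hj hlin hfrac hfracA θ.symm γ.symm (fun d a => by
    apply γ.injective
    rw [hγ]
    simp)
  have semi : ∀ κ ξ, γ₀ (κ • ξ) = σ₀ κ • γ₀ ξ := by
    intro κ ξ
    obtain ⟨s, d, hs, hκ⟩ := hfrac κ
    obtain ⟨t, ht, a, hξ⟩ := hfracA ξ
    obtain ⟨p, q, hp, hpq⟩ := ore d t ht
    have e1 : ι (p * s) • (κ • ξ) = j (q • a) := by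
      rw [smul_smul, map_mul, mul_assoc, hκ, ← map_mul, hpq, hlin, ← hξ, smul_smul, map_mul]
    have f1 := hγ₀ _ _ _ (mul_ne_zero hp hs) e1
    have f2 := hσ₀ s d κ hs hκ
    have f3 := hγ₀ t a ξ ht hξ
    apply canc (ι (θ (p * s))) _ _ (hne _ (mul_ne_zero hp hs))
    rw [f1, hγ, hlin, ← f3, smul_smul, smul_smul, ← map_mul, ← map_mul, ← hpq, map_mul, map_mul,
      map_mul, map_mul, mul_assoc]
    congr 2
    exact f2.symm
  have semiK : ∀ κ κ', σ₀ (κ * κ') = σ₀ κ * σ₀ κ' := by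
    intro κ κ'
    obtain ⟨s, d, hs, hκ⟩ := hfrac κ
    obtain ⟨t, a, ht, hξ⟩ := hfrac κ'
    obtain ⟨p, q, hp, hpq⟩ := ore d t ht
    have e1 : ι (p * s) • (κ * κ') = ι.toAddMonoidHom (q * a) := by
      show ι (p * s) * (κ * κ') = ι (q * a)
      rw [← mul_assoc, map_mul, mul_assoc (ι p), hκ, ← map_mul, hpq, map_mul, map_mul, ← hξ,
        mul_assoc]
    have f1 : ι (θ (p * s)) * σ₀ (κ * κ') = ι (θ (q * a)) := hσ₀ _ _ _ (mul_ne_zero hp hs) e1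
    have f2 : ι (θ s) * σ₀ κ = ι (θ d) := hσ₀ s d κ hs hκ
    have f3 : ι (θ t) * σ₀ κ' = ι (θ a) := hσ₀ t a κ' ht hξ
    apply mul_left_cancel₀ (hne _ (mul_ne_zero hp hs))
    rw [f1, map_mul, map_mul, ← f3, ← mul_assoc, ← map_mul, ← map_mul, ← hpq, map_mul, map_mul,
      map_mul, map_mul, ← f2]
    simp only [mul_assoc]
  have inv01 : ∀ ξ, γ₁ (γ₀ ξ) = ξ := by
    intro ξ
    obtain ⟨t, ht, a, hξ⟩ := hfracA ξ
    have f := hγ₀ t a ξ ht hξ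
    have g := hγ₁ _ _ _ (by simpa using ht : θ t ≠ 0) f
    simp only [RingEquiv.symm_apply_apply, AddEquiv.symm_apply_apply] at g
    exact canc _ _ _ (hne' t ht) (g.trans hξ.symm)
  have inv10 : ∀ ξ, γ₀ (γ₁ ξ) = ξ := by
    intro ξ
    obtain ⟨t, ht, a, hξ⟩ := hfracA ξ
    have f := hγ₁ t a ξ ht hξ
    have g := hγ₀ _ _ _ (by simpa using ht : θ.symm t ≠ 0) f
    simp only [RingEquiv.apply_symm_apply, AddEquiv.apply_symm_apply] at g
    exact canc _ _ _ (hne' t ht) (g.trans hξ.symm)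
  have kinv01 : ∀ ξ, σ₁ (σ₀ ξ) = ξ := by
    intro ξ
    obtain ⟨t, a, ht, hξ⟩ := hfrac ξ
    have f : ι (θ t) • σ₀ ξ = ι.toAddMonoidHom (θ a) := hσ₀ t a ξ ht hξ
    have g : ι (θ.symm (θ t)) * σ₁ (σ₀ ξ) = ι (θ.symm (θ a)) :=
      hσ₁ _ _ _ (by simpa using ht : θ t ≠ 0) f
    simp only [RingEquiv.symm_apply_apply] at g
    exact mul_left_cancel₀ (hne' t ht) (g.trans hξ.symm)
  have kinv10 : ∀ ξ, σ₀ (σ₁ ξ) = ξ := by
    intro ξ
    obtain ⟨t, a, ht, hξ⟩ := hfrac ξ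
    have f : ι (θ.symm t) • σ₁ ξ = ι.toAddMonoidHom (θ.symm a) := hσ₁ t a ξ ht hξ
    have g : ι (θ (θ.symm t)) * σ₀ (σ₁ ξ) = ι (θ (θ.symm a)) :=
      hσ₀ _ _ _ (by simpa using ht : θ.symm t ≠ 0) f
    simp only [RingEquiv.apply_symm_apply] at g
    exact mul_left_cancel₀ (hne' t ht) (g.trans hξ.symm)
  refine ⟨{ toFun := σ₀, invFun := σ₁, left_inv := kinv01, right_inv := kinv10,
            map_mul' := semiK, map_add' := σ₀.map_add },
    { toFun := γ₀, invFun := γ₁, left_inv := inv01, right_inv := inv10,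
      map_add' := γ₀.map_add }, ?_, ?_, ?_⟩
  · intro d
    show σ₀ (ι d) = ι (θ d)
    have h := hσ₀ 1 d (ι d) one_ne_zero (by simp)
    have h' : ι (θ 1) * σ₀ (ι d) = ι (θ d) := h
    simpa using h'
  · intro a
    show γ₀ (j a) = j (γ a)
    have h := hγ₀ 1 a (j a) one_ne_zero (by simp)
    simpa using h
  · intro κ ξ
    exact semi κ ξ

end Pool.Agent.Helper933.HC
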