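import Pool.Agent.Helper933.HC.Defs
import Pool.Agent.Helper933.HC.P_ore_ext

set_option autoImplicit false

namespace Pool.Agent.Helper933.HC
open Module


theorem ore_group {D A K' A' G : Type} [Ring D] [Nontrivial D] [NoZeroDivisors D]
    [AddCommGroup A] [Nontrivial A] [Group G] [DistribMulAction G A]
    [Module D A] [DivisionRing K'] [AddCommGroup A'] [Module K' A'] (ι : D →+* K') (j : A →+ A')
    (hι : Function.Injective ι) (hj : Function.Injective j)
    (hlin : ∀ d a, j (d • a) = ι d • j a) (hfrac : ∀ κ : K', ∃ s d : D, s ≠ 0 ∧ ι s * κ = ι d)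
    (hfracA : ∀ ξ : A', ∃ s : D, s ≠ 0 ∧ ∃ a, ι s • ξ = j a)
    (hG : ∀ g : G, ∃ θ : D ≃+* D, ∀ (d : D) (a : A), g • (d • a) = θ d • (g • a)) :
    ∃ (_ : DistribMulAction G A'), (∀ (g : G) (a : A), j (g • a) = g • j a) ∧
      ∀ g : G, Semi K' (ac g : A' ≃+ A') := by
  have tf : ∀ (d : D) (a : A), d • a = 0 → a ≠ 0 → d = 0 := by
    intro d a h ha
    have h1 : ι d • j a = 0 := by
      rw [← hlin, h, map_zero]
    rcases smul_eq_zero.mp h1 with h2 | h2
    · exact hι (by rw [h2, map_zero])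
    · exact absurd (hj (by rw [h2, map_zero])) ha
  choose θ hθ using hG
  have hE : ∀ g : G, ∃ (σ : K' ≃+* K') (γ' : A' ≃+ A'), (∀ d, σ (ι d) = ι (θ g d)) ∧
      (∀ a, γ' (j a) = j (g • a)) ∧ (∀ κ ξ, γ' (κ • ξ) = σ κ • γ' ξ) := fun g =>
    ore_ext ι j hι hj hlin hfrac hfracA (θ g) (DistribMulAction.toAddEquiv A g) (hθ g)
  choose σ γ h1 h2 h3 using hE
  obtain ⟨a0, ha0⟩ := exists_ne (0 : A)
  have huniq : ∀ (g : G) (d d' : D), d • (g • a0) = d' • (g • a0) → d = d' := by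
    intro g d d' h
    have h4 : (d - d') • (g • a0) = 0 := by rw [sub_smul, h, sub_self]
    have h5 : g • a0 ≠ 0 := by
      intro h6
      apply ha0
      have h7 : g⁻¹ • (g • a0) = 0 := by rw [h6, smul_zero]
      rwa [inv_smul_smul] at h7
    exact sub_eq_zero.mp (tf _ _ h4 h5)
  have hθm : ∀ (g h : G) (d : D), θ (g * h) d = θ g (θ h d) := by
    intro g h d
    apply huniq (g * h)
    rw [← hθ, mul_smul, hθ h, hθ g, ← mul_smul g h a0]
  have hθ1 : ∀ d : D, θ 1 d = d := by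
    intro d
    apply huniq 1
    rw [← hθ, one_smul, one_smul]
  have hcan : ∀ (s : D) (ξ ζ : A'), s ≠ 0 → ι s • ξ = ι s • ζ → ξ = ζ := by
    intro s ξ ζ hs h
    have h4 : ι s • (ξ - ζ) = 0 := by rw [smul_sub, h, sub_self]
    rcases smul_eq_zero.mp h4 with h5 | h5
    · exact absurd (hι (by rw [h5, map_zero])) hs
    · exact sub_eq_zero.mp h5
  have hm : ∀ (g h : G) (ξ : A'), γ (g * h) ξ = γ g (γ h ξ) := by
    intro g h ξ
    obtain ⟨s, hs, a, ha⟩ := hfracA ξ
    apply hcan (θ (g * h) s)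
    · intro h0
      exact hs ((map_eq_zero_iff _ (θ (g * h)).injective).mp h0)
    · have e1 : ι (θ (g * h) s) • γ (g * h) ξ = j ((g * h) • a) := by
        rw [← h1, ← h3, ha, h2]
      have e2 : ι (θ (g * h) s) • γ g (γ h ξ) = j ((g * h) • a) := by
        rw [hθm, ← h1, ← h3, ← h1, ← h3, ha, h2, h2, mul_smul]
      rw [e1, e2]
  have h1' : ∀ ξ : A', γ 1 ξ = ξ := by
    intro ξ
    obtain ⟨s, hs, a, ha⟩ := hfracA ξ
    apply hcan s _ _ hs
    have e1 : ι (θ 1 s) • γ 1 ξ = j ((1 : G) • a) := by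
      rw [← h1, ← h3, ha, h2]
    rw [hθ1, one_smul] at e1
    rw [e1, ha]
  let inst : DistribMulAction G A' :=
    { smul := fun g ξ => γ g ξ
      one_smul := h1'
      mul_smul := hm
      smul_zero := fun g => map_zero (γ g)
      smul_add := fun g => map_add (γ g) }
  refine ⟨inst, ?_, ?_⟩
  · intro g a
    exact (h2 g a).symm
  · intro g
    exact ⟨σ g, fun k x => h3 g k x⟩

end Pool.Agent.Helper933.HC
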