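import Pool.Agent.Helper933.HC.Defs
import Pool.Agent.Helper933.HC.P_ore_base
import Pool.Agent.Helper933.HC.P_ore_group
import Pool.Agent.Helper933.HC.P_dring_ore
import Pool.Agent.Helper933.HC.P_dring

set_option autoImplicit false

namespace Pool.Agent.Helper933.HC
open Module


theorem localise {K G A Q : Type} [DivisionRing K] [Group G] [AddCommGroup A] [Module K A]
    [DistribMulAction G A] [Group Q] (ρ : G →* Q) {r : ℕ}
    (ε : Multiplicative (Fin r → ℤ) →* Q) (hinj : Function.Injective ε)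
    (hn : ε.range.Normal) (hsemi : ∀ g : G, Semi K (ac g : A ≃+ A))
    (hscal : ∀ g : G, ρ g = 1 → ∃ c : K, ∀ a : A, g • a = c • a) [Nontrivial A]
    (hNT : ∀ a : A, a ≠ 0 → ¬ Tors (K := K) ρ ε a)
    (Y : (Fin r → ℤ) → G) (hY : ∀ v, ρ (Y v) = ε (Multiplicative.ofAdd v)) :
    ∃ (K' A' : Type) (_ : DivisionRing K') (_ : AddCommGroup A') (_ : Module K' A')
      (_ : DistribMulAction G A') (ι : K →+* K') (x : (Fin r → ℤ) → K') (j : A →+ A'),
      Cross ι x ∧ Function.Injective j ∧ (∀ (k : K) a, j (k • a) = ι k • j a) ∧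
      (∀ v a, j (Y v • a) = x v • j a) ∧ (∀ (g : G) a, j (g • a) = g • j a) ∧
      (∀ g : G, Semi K' (ac g : A' ≃+ A')) ∧ Submodule.span K' (Set.range j) = ⊤ := by
  classical
  obtain ⟨D, hR, hM, κ, X, hnt, hnz, hκ, hX, hspan, hind, hnorm, hmul, htf, hθ⟩ :=
    dring ρ ε hinj hn hsemi hscal hNT Y hY
  have hnorm' : ∀ v k, ∃ k', X v * κ k = κ k' * X v := by
    intro v k
    obtain ⟨τ, hτ⟩ := hnorm v
    exact ⟨τ k, hτ k⟩
  have hOre := dring_ore κ X hspan hind hnorm' hmul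
  obtain ⟨K', A', dK', gA', mA', ιD, j, hι, hj, hlin, hfrac, hfracA⟩ := ore_base hOre htf
  obtain ⟨act, hact, hsemi'⟩ := ore_group (G := G) ιD j hι hj hlin hfrac hfracA hθ
  have hX0 : ∀ v, X v ≠ 0 := by
    intro v hv
    have h1 := hind (Finsupp.single v 1) (by
      rw [Finsupp.sum_single_index]
      · rw [hv, mul_zero]
      · rw [map_zero, zero_mul])
    rw [Finsupp.single_eq_zero] at h1
    exact one_ne_zero h1
  have hcomb : ∀ a : (Fin r → ℤ) →₀ K, comb (ιD.comp κ) (fun v => ιD (X v)) a =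
      ιD (a.sum fun v k => κ k * X v) := by
    intro a
    unfold comb
    rw [Finsupp.sum, Finsupp.sum, map_sum]
    refine Finset.sum_congr rfl fun v _ => ?_
    rw [map_mul]
    rfl
  refine ⟨K', A', dK', gA', mA', act, ιD.comp κ, fun v => ιD (X v), j, ?_, hj, ?_, ?_, hact,
    hsemi', ?_⟩
  · refine ⟨?_, ?_, ?_, ?_, ?_⟩
    · intro v h
      exact hX0 v (hι (by rw [h, map_zero]))
    · intro v
      obtain ⟨τ, hτ⟩ := hnorm v
      refine ⟨τ, fun k => ?_⟩
      show ιD (X v) * ιD (κ k) = ιD (κ (τ k)) * ιD (X v)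
      rw [← map_mul, ← map_mul, hτ]
    · intro v w
      obtain ⟨c, hc⟩ := hmul v w
      refine ⟨c, ?_⟩
      show ιD (X v) * ιD (X w) = ιD (κ c) * ιD (X (v + w))
      rw [← map_mul, ← map_mul, hc]
    · intro a ha
      rw [hcomb] at ha
      exact hind a (hι (by rw [ha, map_zero]))
    · intro y
      obtain ⟨s, d, hs, hsd⟩ := hfrac y
      obtain ⟨a, ha⟩ := hspan s
      obtain ⟨b, hb⟩ := hspan d
      refine ⟨a, b, ?_, ?_⟩
      · rw [hcomb, ← ha]
        intro h
        exact hs (hι (by rw [h, map_zero]))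
      · rw [hcomb, hcomb, ← ha, ← hb]
        exact hsd
  · intro k a
    show j (k • a) = ιD (κ k) • j a
    rw [← hκ, hlin]
  · intro v a
    show j (Y v • a) = ιD (X v) • j a
    rw [← hX, hlin]
  · rw [eq_top_iff]
    intro ξ _
    obtain ⟨s, hs, a, ha⟩ := hfracA ξ
    have hs' : ιD s ≠ 0 := by
      intro h
      exact hs (hι (by rw [h, map_zero]))
    have h1 : ξ = (ιD s)⁻¹ • j a := by
      rw [← ha, smul_smul, inv_mul_cancel₀ hs', one_smul]
    rw [h1]
    exact Submodule.smul_mem _ _ (Submodule.subset_span ⟨a, rfl⟩)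

end Pool.Agent.Helper933.HC
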