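import Pool.Agent.Helper933.HC.Defs
import Pool.Agent.Helper933.HC.P_stable_pow
import Pool.Agent.Helper933.HC.P_bdd_of_maps
import Pool.Agent.Helper933.HC.P_bdd_pow
import Pool.Agent.Helper933.HC.P_conj_mat
import Pool.Agent.Helper933.HC.P_mod3
import Pool.Agent.Helper933.HC.P_desc_lift
import Pool.Agent.Helper933.HC.P_chain
import Pool.Agent.Helper933.HC.P_localise
import Pool.Agent.Helper933.HC.P_case1_scal
import Pool.Agent.Helper933.HC.P_case1_compat

set_option autoImplicit false

namespace Pool.Agent.Helper933.HC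
open Module


theorem case1_aux_iter {G A : Type} [Group G] [AddCommGroup A] [DistribMulAction G A] (g : G)
    (n : ℕ) (x : A) : (ac (g ^ n) : A ≃+ A) x = (⇑(ac g : A ≃+ A))^[n] x := by
  induction n generalizing x with
  | zero => simp
  | succ n ih =>
    rw [Function.iterate_succ_apply, ← ih]
    show g ^ (n + 1) • x = g ^ n • (g • x)
    rw [pow_succ, mul_smul]

theorem case1_aux_conj {Q : Type} [Group Q] {r : ℕ} (ε : Multiplicative (Fin r → ℤ) →* Q)
    (q : Q) (M : (Fin r → ℤ) ≃+ (Fin r → ℤ))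
    (hM : ∀ v, q * ε (Multiplicative.ofAdd v) * q⁻¹ = ε (Multiplicative.ofAdd (M v))) (n : ℕ)
    (v : Fin r → ℤ) :
    q ^ n * ε (Multiplicative.ofAdd v) * (q ^ n)⁻¹ = ε (Multiplicative.ofAdd ((⇑M)^[n] v)) := by
  induction n generalizing v with
  | zero => simp
  | succ n ih =>
    rw [Function.iterate_succ_apply, ← ih, ← hM, pow_succ]
    group

theorem case1_aux_span {K M : Type} [DivisionRing K] [AddCommGroup M] [Module K M]
    (u : M ≃+ M) (σ : K ≃+* K) (hu : ∀ (k : K) (x : M), u (k • x) = σ k • u x) (S : Set M)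
    (h1 : ∀ s ∈ S, u s ∈ S) (h2 : ∀ s, u s ∈ S → s ∈ S) :
    Stable u (Submodule.span K S) := by
  have hu2 : ∀ (k : K) (x : M), u.symm (k • x) = σ.symm k • u.symm x := by
    intro k x
    apply u.injective
    rw [hu]
    simp
  have a1 : ∀ x ∈ Submodule.span K S, u x ∈ Submodule.span K S := by
    intro x hx
    induction hx using Submodule.span_induction with
    | mem x hx => exact Submodule.subset_span (h1 x hx)
    | zero => simp
    | add x y _ _ h1 h2 => rw [map_add]; exact Submodule.add_mem _ h1 h2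
    | smul k x _ h1 => rw [hu]; exact Submodule.smul_mem _ _ h1
  have a2 : ∀ x ∈ Submodule.span K S, u.symm x ∈ Submodule.span K S := by
    intro x hx
    induction hx using Submodule.span_induction with
    | mem x hx => exact Submodule.subset_span (h2 _ (by simpa using hx))
    | zero => simp
    | add x y _ _ h1 h2 => rw [map_add]; exact Submodule.add_mem _ h1 h2
    | smul k x _ h1 => rw [hu2]; exact Submodule.smul_mem _ _ h1
  intro x
  constructor
  · intro h
    have := a2 _ h
    simpa using this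
  · exact a1 x

theorem case1 {Q : Type} [Group Q] {r : ℕ} (ε : Multiplicative (Fin r → ℤ) →* Q)
    (hinj : Function.Injective ε) (hn : ε.range.Normal) (hMain : MainFor (Q ⧸ ε.range))
    {K G A : Type} [DivisionRing K] [Group G] [AddCommGroup A] [Module K A]
    [DistribMulAction G A] (ρ : G →* Q) (hρ : Function.Surjective ρ) (hS : Sys K G A Q ρ)
    [Nontrivial A] (hNT : ∀ a : A, a ≠ 0 → ¬ Tors (K := K) ρ ε a) : TProp K G A := by
  classical
  choose Y hY using fun v : Fin r → ℤ => hρ (ε (Multiplicative.ofAdd v))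
  obtain ⟨K', A', iK, iA, iM, iG, ι, x, j, hx, hj, hjk, hjx, hjg, hsemi', hsp⟩ :=
    localise (K := K) (A := A) ρ ε hinj hn hS.semi hS.scal hNT Y hY
  have hSys : Sys K' G A' (Q ⧸ ε.range) ((QuotientGroup.mk' ε.range).comp ρ) := by
    refine ⟨hsemi', ?_, ?_⟩
    · intro g hg
      have hg' : ρ g ∈ ε.range := by
        have : ((ρ g : Q) : Q ⧸ ε.range) = 1 := hg
        exact (QuotientGroup.eq_one_iff _).1 this
      exact case1_scal (K := K) (A := A) ρ ε hS.semi hS.scal Y hY ι x j hx hj hjk hjx hjg hsemi'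
        hsp g hg'
    · obtain ⟨S, hSf⟩ := hS.fg
      refine ⟨S.image j, ?_⟩
      rw [eq_top_iff, ← hsp, Submodule.span_le]
      rintro _ ⟨a, rfl⟩
      have ha : a ∈ Submodule.span K {x : A | ∃ g : G, ∃ s ∈ S, x = g • s} := by
        rw [hSf]; trivial
      induction ha using Submodule.span_induction with
      | mem a ha =>
        obtain ⟨g, s, hs, rfl⟩ := ha
        rw [hjg]
        exact Submodule.subset_span ⟨g, j s, Finset.mem_image_of_mem _ hs, rfl⟩
      | zero => rw [map_zero]; exact Submodule.zero_mem _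
      | add a b _ _ h1 h2 => rw [map_add]; exact Submodule.add_mem _ h1 h2
      | smul k a _ h1 => rw [hjk]; exact Submodule.smul_mem _ _ h1
  obtain ⟨l, d, hT⟩ := hMain K' G A' _ hSys
  obtain ⟨N0, hN0, hmod⟩ : ∃ N0 : ℕ, 0 < N0 ∧ ∀ (M : (Fin r → ℤ) ≃+ (Fin r → ℤ)) (v : Fin r → ℤ),
      ∃ w, (⇑M)^[N0] v = v + 3 • w := ⟨(3 ^ r).factorial, Nat.factorial_pos _, mod3 r⟩
  refine ⟨l * (d + 1) ^ r, N0 * d, ?_⟩
  intro g W hWf hWs
  obtain ⟨τ, σ, M, hC, hσ, hτ, hM⟩ :=
    case1_compat (K := K) (A := A) ρ ε hinj hn hS.semi hS.scal Y hY ι x j hx hj hjk hjx hjg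
      hsemi' g
  obtain ⟨τ', σ', M', hC', hσ', hτ', hM'⟩ :=
    case1_compat (K := K) (A := A) ρ ε hinj hn hS.semi hS.scal Y hY ι x j hx hj hjk hjx hjg
      hsemi' (g ^ N0)
  have hMM : ∀ v, ∃ w, M' v = v + 3 • w := by
    intro v
    obtain ⟨w, hw⟩ := hmod M v
    refine ⟨w, ?_⟩
    rw [← hw]
    have e1 := hM' v
    rw [map_pow, case1_aux_conj ε (ρ g) M hM] at e1
    have e2 := hinj e1
    exact (Multiplicative.ofAdd.injective e2).symm
  have hD : Desc ι σ' ((d + 1) ^ r) d :=
    chain r K K' (Fin r → ℤ) ι x hx τ' σ' M' hC' hMM (by simp) d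
  letI : Module K A' := Module.compHom A' ι
  have hι : ∀ (k : K) (ξ : A'), k • ξ = ι k • ξ := fun _ _ => rfl
  have hWs' : Stable (ac (g ^ N0) : A ≃+ A) W :=
    stable_pow hWs N0 (case1_aux_iter g _)
  let jl : A →ₗ[K] A' :=
    { toFun := j
      map_add' := fun a b => map_add j a b
      map_smul' := fun k a => hjk k a }
  have hjl : ∀ a, jl a = j a := fun _ => rfl
  have hSt1 : ∀ s ∈ (j '' (W : Set A)), (ac (g ^ N0) : A' ≃+ A') s ∈
      (j '' (W : Set A)) := by
    rintro _ ⟨a, ha, rfl⟩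
    refine ⟨g ^ N0 • a, (hWs' a).2 ha, ?_⟩
    rw [hjg]
    rfl
  have hSt2 : ∀ s, (ac (g ^ N0) : A' ≃+ A') s ∈ (j '' (W : Set A)) → s ∈
      (j '' (W : Set A)) := by
    rintro s ⟨a, ha, has⟩
    refine ⟨(g ^ N0)⁻¹ • a, ?_, ?_⟩
    · refine (hWs' _).1 ?_
      show g ^ N0 • ((g ^ N0)⁻¹ • a) ∈ W
      rw [smul_inv_smul]
      exact ha
    · rw [hjg, has]
      exact inv_smul_smul _ _
  have hW's : Stable (ac (g ^ N0) : A' ≃+ A')
      (Submodule.span K' (j '' (W : Set A))) :=
    case1_aux_span _ σ' hσ' _ hSt1 hSt2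
  have hW'f : FiniteDimensional K' (Submodule.span K' (j '' (W : Set A))) := by
    have h1 : W.FG := Module.Finite.iff_fg.1 hWf
    obtain ⟨S, hSW⟩ := h1
    have h2 : Submodule.span K' (j '' (W : Set A)) = Submodule.span K' (j '' (S : Set A)) := by
      apply le_antisymm
      · rw [Submodule.span_le]
        rintro _ ⟨a, ha, rfl⟩
        have ha' : a ∈ Submodule.span K (S : Set A) := by rw [hSW]; exact ha
        clear ha
        induction ha' using Submodule.span_induction with
        | mem a ha => exact Submodule.subset_span ⟨a, ha, rfl⟩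
        | zero => rw [map_zero]; exact Submodule.zero_mem _
        | add a b _ _ h1 h2 => rw [map_add]; exact Submodule.add_mem _ h1 h2
        | smul k a _ h1 => rw [hjk]; exact Submodule.smul_mem _ _ h1
      · apply Submodule.span_mono
        apply Set.image_mono
        rw [← hSW]
        exact Submodule.subset_span
    rw [h2]
    exact FiniteDimensional.span_of_finite K' (S.finite_toSet.image j)
  have hb := hT (g ^ N0) _ hW'f hW's
  haveI := hWf
  have hWjf : FiniteDimensional K (W.map jl) := inferInstance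
  have hWjs : Stable (ac (g ^ N0) : A' ≃+ A') (W.map jl) := by
    intro s
    exact ⟨fun h => hSt2 s h, fun h => hSt1 s h⟩
  have hb2 : Bdd (ac (g ^ N0) : A' ≃+ A') (l * (d + 1) ^ r) d (W.map jl) :=
    desc_lift hC'.base hD A' hι (ac (g ^ N0) : A' ≃+ A') hσ' _ hW'f hW's l hb (W.map jl)
      hWjf hWjs (fun ξ hξ => Submodule.subset_span hξ)
  have hb3 : Bdd (ac (g ^ N0) : A ≃+ A) (l * (d + 1) ^ r) d W := by
    apply bdd_of_maps hWs'
    intro a ha ha0
    refine ⟨K, A', inferInstance, inferInstance, inferInstance, RingEquiv.refl K, j,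
      ac (g ^ N0), W.map jl, ⟨τ', fun k ξ => by
        have e1 : (ac (g ^ N0) : A' ≃+ A') (k • ξ) = g ^ N0 • (ι k • ξ) := by rw [hι]; rfl
        have e2 : τ' k • (ac (g ^ N0) : A' ≃+ A') ξ = ι (τ' k) • (g ^ N0 • ξ) := by rw [hι]; rfl
        rw [e1, e2, hσ', hC'.base]⟩, ?_, ?_, ?_, hb2, ?_⟩
    · intro k y _
      exact hjk k y
    · intro y _
      refine ⟨1, one_ne_zero, ?_⟩
      rw [one_smul]
      exact hjg _ _
    · intro y
      exact Iff.rfl
    · intro h0
      exact ha0 (hj (by rw [h0, map_zero]))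
  exact bdd_pow (hS.semi g) hWs hN0 (case1_aux_iter g _) hb3

end Pool.Agent.Helper933.HC
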