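import Pool.Agent.Helper933.HC.Defs

set_option autoImplicit false

namespace Pool.Agent.Helper933.HC
open Module


theorem cd_key {K G A : Type} [DivisionRing K] [Group G] [AddCommGroup A] [Module K A]
    [DistribMulAction G A] {N : Subgroup G} {U M : Submodule K A}
    (hUf : FiniteDimensional K U) {D T : Type} [DivisionRing D] [AddCommGroup T] [Module D T]
    {ev : T → U → A} (h : Cliff N U M D T ev) (T₁ T₂ : Submodule D T) (h12 : T₁ ≤ T₂)
    (hf : FiniteDimensional D T₂) :
    ∃ W : Submodule K A, FiniteDimensional K W ∧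
      finrank K W ≤ (finrank D T₂ - finrank D T₁) * finrank K U ∧
      (TU ev T₂ : Submodule K A) ≤ (TU ev T₁ : Submodule K A) ⊔ W := by
  classical
  obtain ⟨C, hC⟩ := Submodule.exists_isCompl (T₁.comap T₂.subtype)
  have hsum := Submodule.finrank_add_eq_of_isCompl hC
  have h1 : finrank D (T₁.comap T₂.subtype) = finrank D T₁ :=
    (Submodule.comapSubtypeEquivOfLe h12).finrank_eq
  have hCe : finrank D C = finrank D T₂ - finrank D T₁ := by omega
  let b := Module.finBasis D C
  let evl : T → (U →ₗ[K] A) := fun t =>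
    { toFun := ev t, map_add' := h.lin t, map_smul' := fun k u => h.smul t k u }
  let Φ : (Fin (finrank D C) → U) →ₗ[K] A :=
    ∑ i, (evl ((b i : T₂) : T)).comp (LinearMap.proj i)
  refine ⟨LinearMap.range Φ, inferInstance, ?_, ?_⟩
  · calc finrank K (LinearMap.range Φ) ≤ finrank K (Fin (finrank D C) → U) := LinearMap.finrank_range_le Φ
      _ = (finrank D T₂ - finrank D T₁) * finrank K U := by
          rw [Module.finrank_pi_fintype, Finset.sum_const, Finset.card_univ, Fintype.card_fin, hCe,
            smul_eq_mul]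
  · refine Submodule.span_le.2 ?_
    rintro y ⟨t, ht, u, rfl⟩
    have hmem : (⟨t, ht⟩ : T₂) ∈ T₁.comap T₂.subtype ⊔ C := by
      rw [hC.sup_eq_top]; trivial
    obtain ⟨a, ha, c, hc, hac⟩ := Submodule.mem_sup.1 hmem
    have hta : t = (a : T) + (c : T) := by
      have := congrArg (Subtype.val) hac
      simpa using this.symm
    have hcs : (c : T) = ∑ i, b.repr ⟨c, hc⟩ i • ((b i : T₂) : T) := by
      have h2 := b.sum_repr ⟨c, hc⟩
      have h3 := congrArg (fun z : C => ((z : T₂) : T)) h2
      simp only [AddSubmonoidClass.coe_finset_sum, SetLike.val_smul] at h3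
      exact h3.symm
    let eu : T →+ A :=
      { toFun := fun t => ev t u
        map_zero' := by
          have := h.add 0 0 u
          rw [add_zero] at this
          exact left_eq_add.1 this
        map_add' := fun t t' => h.add t t' u }
    have hbeta : ∀ i, ∃ β : U →ₗ[K] U, ev (b.repr ⟨c, hc⟩ i • ((b i : T₂) : T)) u
        = ev ((b i : T₂) : T) (β u) := by
      intro i
      obtain ⟨β, _, hβ⟩ := h.dsmul (b.repr ⟨c, hc⟩ i)
      exact ⟨β, hβ _ u⟩
    choose β hβ using hbeta
    have hev : ev t u = ev a u + Φ (fun i => β i u) := by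
      have e1 : ev t u = ev (a : T) u + ev (c : T) u := by rw [hta]; exact h.add _ _ _
      have e2 : ev (c : T) u = ∑ i, ev ((b i : T₂) : T) (β i u) := by
        have e3 : eu (c : T) = ∑ i, eu (b.repr ⟨c, hc⟩ i • ((b i : T₂) : T)) := by
          conv_lhs => rw [hcs]
          exact map_sum eu _ _
        calc ev (c : T) u = eu (c : T) := rfl
          _ = ∑ i, eu (b.repr ⟨c, hc⟩ i • ((b i : T₂) : T)) := e3
          _ = ∑ i, ev ((b i : T₂) : T) (β i u) := Finset.sum_congr rfl (fun i _ => hβ i)
      rw [e1, e2]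
      congr 1
      simp only [Φ, LinearMap.sum_apply, LinearMap.comp_apply, LinearMap.proj_apply]
      rfl
    rw [hev]
    exact Submodule.add_mem_sup (Submodule.subset_span ⟨a, ha, u, rfl⟩)
      (LinearMap.mem_range_self Φ _)

theorem cliff_dim {K G A : Type} [DivisionRing K] [Group G] [AddCommGroup A] [Module K A]
    [DistribMulAction G A] {N : Subgroup G} {U M : Submodule K A}
    (hUf : FiniteDimensional K U) {D T : Type} [DivisionRing D] [AddCommGroup T] [Module D T]
    {ev : T → U → A} (h : Cliff N U M D T ev) (T₁ T₂ : Submodule D T) (h12 : T₁ ≤ T₂)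
    (hf : FiniteDimensional D T₂) (d : ℕ) (hd : finrank D T₂ ≤ finrank D T₁ + d) :
    FiniteDimensional K (TU ev T₂ : Submodule K A) ∧
      finrank K (TU ev T₂ : Submodule K A) ≤
        finrank K (TU ev T₁ : Submodule K A) + finrank K U * d := by
  have hfin : FiniteDimensional K (TU ev T₂ : Submodule K A) := by
    obtain ⟨W, hW, _, hle⟩ := cd_key hUf h ⊥ T₂ bot_le hf
    have hbot : (TU ev (⊥ : Submodule D T) : Submodule K A) = ⊥ := by
      unfold TU
      rw [Submodule.span_eq_bot]
      rintro y ⟨t, ht, u, rfl⟩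
      rw [(Submodule.mem_bot D).1 ht]
      have := h.add 0 0 u
      rw [add_zero] at this
      exact left_eq_add.1 this
    rw [hbot, bot_sup_eq] at hle
    haveI := hW
    exact Submodule.finiteDimensional_of_le hle
  refine ⟨hfin, ?_⟩
  obtain ⟨W, hW, hWd, hle⟩ := cd_key hUf h T₁ T₂ h12 hf
  haveI := hfin
  haveI := hW
  have hT1 : (TU ev T₁ : Submodule K A) ≤ (TU ev T₂ : Submodule K A) :=
    Submodule.span_mono (by rintro y ⟨t, ht, u, rfl⟩; exact ⟨t, h12 ht, u, rfl⟩)
  haveI : FiniteDimensional K (TU ev T₁ : Submodule K A) := Submodule.finiteDimensional_of_le hT1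
  calc finrank K (TU ev T₂ : Submodule K A)
      ≤ finrank K ((TU ev T₁ : Submodule K A) ⊔ W : Submodule K A) := Submodule.finrank_mono hle
    _ ≤ finrank K (TU ev T₁ : Submodule K A) + finrank K W :=
        Submodule.finrank_add_le_finrank_add_finrank _ _
    _ ≤ finrank K (TU ev T₁ : Submodule K A) + finrank K U * d := by
        have : finrank D T₂ - finrank D T₁ ≤ d := by omega
        have h2 : (finrank D T₂ - finrank D T₁) * finrank K U ≤ d * finrank K U :=
          Nat.mul_le_mul_right _ this
        rw [mul_comm (finrank K U) d]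
        omega

end Pool.Agent.Helper933.HC
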