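import Pool.Agent.Helper933.HC.Defs

set_option autoImplicit false

namespace Pool.Agent.Helper933.HC
open Module


/-- the ring of equivariant endomorphisms -/
def EqR {K G A : Type} [DivisionRing K] [Group G] [AddCommGroup A] [Module K A]
    [DistribMulAction G A] (N : Subgroup G) (U : Submodule K A) : Subring (Module.End K U) where
  carrier := {β | EqE N U β}
  mul_mem' := by
    intro a b ha hb g hg x y hxy
    exact ha g hg (b x) (b y) (hb g hg x y hxy)
  one_mem' := by
    intro g hg x y hxy
    exact hxy
  add_mem' := by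
    intro a b ha hb g hg x y hxy
    have h1 := ha g hg x y hxy
    have h2 := hb g hg x y hxy
    show ((a y + b y : U) : A) = g • ((a x + b x : U) : A)
    rw [Submodule.coe_add, Submodule.coe_add, h1, h2, smul_add]
  zero_mem' := by
    intro g hg x y hxy
    show ((0 : U) : A) = g • ((0 : U) : A)
    rw [Submodule.coe_zero, smul_zero]
  neg_mem' := by
    intro a ha g hg x y hxy
    have h1 := ha g hg x y hxy
    show ((-(a y) : U) : A) = g • ((-(a x) : U) : A)
    rw [Submodule.coe_neg, Submodule.coe_neg, h1, smul_neg]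

theorem EqR_bij {K G A : Type} [DivisionRing K] [Group G] [AddCommGroup A] [Module K A]
    [DistribMulAction G A] (N : Subgroup G) (U : Submodule K A) (hU : St N U)
    (hUs : Simp N U) (β : U →ₗ[K] U) (hβ : EqE N U β) (h0 : β ≠ 0) :
    Function.Bijective β := by
  constructor
  · have hst : St N ((LinearMap.ker β).map U.subtype) := by
      intro g hg x hx
      obtain ⟨x', hx', rfl⟩ := Submodule.mem_map.mp hx
      have hy : g • (x' : A) ∈ U := hU g hg _ x'.2
      refine Submodule.mem_map.mpr ⟨⟨g • (x' : A), hy⟩, ?_, rfl⟩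
      have h1 := hβ g hg x' ⟨g • (x' : A), hy⟩ rfl
      rw [LinearMap.mem_ker] at hx' ⊢
      rw [hx', Submodule.coe_zero, smul_zero] at h1
      exact Subtype.ext h1
    rcases hUs _ (Submodule.map_subtype_le U _) hst with h | h
    · rw [← LinearMap.ker_eq_bot]
      exact Submodule.map_injective_of_injective U.injective_subtype (h.trans (Submodule.map_bot _).symm)
    · exfalso
      apply h0
      apply LinearMap.ext
      intro x
      have hx : (x : A) ∈ (LinearMap.ker β).map U.subtype := by rw [h]; exact x.2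
      obtain ⟨x', hx', hxx⟩ := Submodule.mem_map.mp hx
      have : x' = x := Subtype.ext hxx
      rw [← this]
      exact hx'
  · have hst : St N ((LinearMap.range β).map U.subtype) := by
      intro g hg x hx
      obtain ⟨x', ⟨z, rfl⟩, rfl⟩ := Submodule.mem_map.mp hx
      have hy : g • (z : A) ∈ U := hU g hg _ z.2
      refine Submodule.mem_map.mpr ⟨β ⟨g • (z : A), hy⟩, ⟨_, rfl⟩, ?_⟩
      exact hβ g hg z ⟨g • (z : A), hy⟩ rfl
    rcases hUs _ (Submodule.map_subtype_le U _) hst with h | h
    · exfalso
      apply h0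
      exact LinearMap.range_eq_bot.mp
        (Submodule.map_injective_of_injective U.injective_subtype (h.trans (Submodule.map_bot _).symm))
    · intro x
      have hx : (x : A) ∈ (LinearMap.range β).map U.subtype := by rw [h]; exact x.2
      obtain ⟨x', ⟨z, rfl⟩, hxx⟩ := Submodule.mem_map.mp hx
      exact ⟨z, Subtype.ext hxx⟩

theorem EqR_unit {K G A : Type} [DivisionRing K] [Group G] [AddCommGroup A] [Module K A]
    [DistribMulAction G A] (N : Subgroup G) (U : Submodule K A) (hU : St N U)
    (hUs : Simp N U) (β : EqR N U) : IsUnit β ∨ β = 0 := by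
  by_cases h0 : β = 0
  · exact Or.inr h0
  · left
    have hb0 : (β : U →ₗ[K] U) ≠ 0 := by
      intro h
      exact h0 (Subtype.ext h)
    have hbij := EqR_bij N U hU hUs (β : U →ₗ[K] U) β.2 hb0
    let e : U ≃ₗ[K] U := LinearEquiv.ofBijective (β : U →ₗ[K] U) hbij
    have he : ∀ x, e x = (β : U →ₗ[K] U) x := fun x => rfl
    have hinv : EqE N U (e.symm : U →ₗ[K] U) := by
      intro g hg x y hxy
      have hw : g • ((e.symm x : U) : A) ∈ U := hU g hg _ (e.symm x).2
      have h1 := β.2 g hg (e.symm x) ⟨g • ((e.symm x : U) : A), hw⟩ rfl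
      have h2 : (β : U →ₗ[K] U) (e.symm x) = x := by
        rw [← he]; exact e.apply_symm_apply x
      have h3 : (β : U →ₗ[K] U) ⟨g • ((e.symm x : U) : A), hw⟩ = y := by
        apply Subtype.ext
        rw [hxy]
        refine h1.trans ?_
        exact congrArg (fun z : U => g • (z : A)) h2
      have h4 : e.symm y = ⟨g • ((e.symm x : U) : A), hw⟩ := by
        rw [← h3, ← he]
        exact e.symm_apply_apply _
      show ((e.symm y : U) : A) = _
      rw [h4]
      rfl
    rw [isUnit_iff_exists]
    refine ⟨⟨(e.symm : U →ₗ[K] U), hinv⟩, ?_, ?_⟩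
    · apply Subtype.ext
      apply LinearMap.ext
      intro x
      exact e.apply_symm_apply x
    · apply Subtype.ext
      apply LinearMap.ext
      intro x
      exact e.symm_apply_apply x

/-- the space of equivariant maps -/
def TT {K G A : Type} [DivisionRing K] [Group G] [AddCommGroup A] [Module K A]
    [DistribMulAction G A] (N : Subgroup G) (U M : Submodule K A) : AddSubgroup (U →ₗ[K] A) where
  carrier := {f | Equi N f ∧ ∀ x, f x ∈ M}
  add_mem' := by
    intro a b ha hb
    refine ⟨?_, fun x => M.add_mem (ha.2 x) (hb.2 x)⟩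
    intro g hg x y hxy
    have h1 := ha.1 g hg x y hxy
    have h2 := hb.1 g hg x y hxy
    rw [LinearMap.add_apply, LinearMap.add_apply, h1, h2, smul_add]
  zero_mem' := by
    refine ⟨?_, fun x => M.zero_mem⟩
    intro g hg x y hxy
    rw [LinearMap.zero_apply, LinearMap.zero_apply, smul_zero]
  neg_mem' := by
    intro a ha
    refine ⟨?_, fun x => M.neg_mem (ha.2 x)⟩
    intro g hg x y hxy
    have h1 := ha.1 g hg x y hxy
    rw [LinearMap.neg_apply, LinearMap.neg_apply, h1, smul_neg]

/-- the module structure -/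
noncomputable abbrev TTmod {K G A : Type} [DivisionRing K] [Group G] [AddCommGroup A] [Module K A]
    [DistribMulAction G A] (N : Subgroup G) (U M : Submodule K A) :
    Module (EqR N U)ᵐᵒᵖ (TT N U M) where
  smul d f := ⟨(f : U →ₗ[K] A) ∘ₗ ((d.unop : EqR N U) : U →ₗ[K] U), by
    refine ⟨?_, fun x => f.2.2 _⟩
    intro g hg x y hxy
    exact f.2.1 g hg _ _ (d.unop.2 g hg x y hxy)⟩
  one_smul f := by
    apply Subtype.ext
    apply LinearMap.ext
    intro x
    rfl
  mul_smul a b f := by
    apply Subtype.ext
    apply LinearMap.ext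
    intro x
    rfl
  smul_zero a := by
    apply Subtype.ext
    apply LinearMap.ext
    intro x
    rfl
  smul_add a f f' := by
    apply Subtype.ext
    apply LinearMap.ext
    intro x
    rfl
  add_smul a b f := by
    apply Subtype.ext
    apply LinearMap.ext
    intro x
    exact map_add (f : U →ₗ[K] A) _ _
  zero_smul f := by
    apply Subtype.ext
    apply LinearMap.ext
    intro x
    exact map_zero (f : U →ₗ[K] A)

theorem cliff_exists {K G A : Type} [DivisionRing K] [Group G] [AddCommGroup A] [Module K A]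
    [DistribMulAction G A] (N : Subgroup G) (U M : Submodule K A) (hU0 : U ≠ ⊥) (hU : St N U)
    (hUs : Simp N U) (hM : St N M) :
    ∃ (D T : Type) (_ : DivisionRing D) (_ : AddCommGroup T) (_ : Module D T)
      (ev : T → U → A), Cliff N U M D T ev := by
  haveI : Nontrivial U := Submodule.nontrivial_iff_ne_bot.mpr hU0
  haveI : Nontrivial (EqR N U) := inferInstance
  have hun : ∀ a : (EqR N U)ᵐᵒᵖ, IsUnit a ∨ a = 0 := by
    intro a
    rcases EqR_unit N U hU hUs a.unop with h | h
    · left
      have := h.op
      rwa [MulOpposite.op_unop] at this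
    · right
      exact MulOpposite.unop_injective h
  let I1 : DivisionRing (EqR N U)ᵐᵒᵖ := DivisionRing.ofIsUnitOrEqZero hun
  let I2 : Module (EqR N U)ᵐᵒᵖ (TT N U M) := TTmod N U M
  refine ⟨(EqR N U)ᵐᵒᵖ, TT N U M, I1, inferInstance, I2, fun t u => (t : U →ₗ[K] A) u, ?_⟩
  refine { add := ?_, lin := ?_, smul := ?_, eqv := ?_, mem := ?_, inj := ?_, full := ?_,
           dsmul := ?_, dfull := ?_ }
  · intro t t' u
    rfl
  · intro t u u'
    exact map_add (t : U →ₗ[K] A) u u'
  · intro t k u
    exact map_smul (t : U →ₗ[K] A) k u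
  · intro t g hg x y hxy
    exact t.2.1 g hg x y hxy
  · intro t u
    exact t.2.2 u
  · intro t h
    exact Subtype.ext (LinearMap.ext h)
  · intro f hf hfM
    exact ⟨⟨f, hf, hfM⟩, fun u => rfl⟩
  · intro δ
    exact ⟨(δ.unop : EqR N U), δ.unop.2, fun t u => rfl⟩
  · intro β hβ
    exact ⟨MulOpposite.op ⟨β, hβ⟩, fun t u => rfl⟩

end Pool.Agent.Helper933.HC
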