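import Pool.Agent.Helper933.HC.Defs

set_option autoImplicit false

namespace Pool.Agent.Helper933.HC
open Module


/-- independent maps have independent images. -/
theorem cliff_ind {K G A : Type} [DivisionRing K] [Group G] [AddCommGroup A] [Module K A]
    [DistribMulAction G A] {N : Subgroup G} {U M : Submodule K A} (hU0 : U ≠ ⊥) (hU : St N U)
    (hUs : Simp N U) {D T : Type} [DivisionRing D] [AddCommGroup T] [Module D T]
    {ev : T → U → A} (h : Cliff N U M D T ev) (k : ℕ) (t : Fin k → T)
    (ht : LinearIndependent D t) (u : Fin k → U) (hu : ∑ i, ev (t i) (u i) = 0) :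
    ∀ i, u i = 0 := by
  classical
  obtain ⟨n, hn⟩ : ∃ n, n = (Finset.univ.filter (fun i => u i ≠ 0)).card := ⟨_, rfl⟩
  induction n using Nat.strong_induction_on generalizing u with
  | _ n ih =>
    by_contra hcon
    push Not at hcon
    obtain ⟨i0, hi0⟩ := hcon
    -- basic facts on ev
    have ev0 : ∀ s, ev s 0 = 0 := by
      intro s
      have h1 := h.smul s 0 0
      rw [zero_smul, zero_smul] at h1
      exact h1
    have evneg : ∀ s v, ev s (-v) = - ev s v := by
      intro s v
      have h1 := h.smul s (-1) v
      rw [neg_one_smul, neg_one_smul] at h1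
      exact h1
    have evT0 : ∀ v, ev 0 v = 0 := by
      intro v
      have h1 := h.add 0 0 v
      rw [add_zero] at h1
      exact left_eq_add.1 h1
    have evsum : ∀ (s : Fin k → T) (F : Finset (Fin k)) v,
        ev (∑ i ∈ F, s i) v = ∑ i ∈ F, ev (s i) v := by
      intro s F v
      induction F using Finset.induction_on with
      | empty => simp [evT0]
      | insert a F ha ihF => rw [Finset.sum_insert ha, Finset.sum_insert ha, h.add, ihF]
    -- uniqueness
    have huniq : ∀ z : Fin k → U, ∑ i, ev (t i) (z i) = 0 → (∀ i, u i = 0 → z i = 0) →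
        z i0 = 0 → ∀ i, z i = 0 := by
      intro z hz1 hz2 hz3
      have hlt : (Finset.univ.filter (fun i => z i ≠ 0)).card < n := by
        rw [hn]
        apply Finset.card_lt_card
        rw [Finset.ssubset_iff_of_subset]
        · refine ⟨i0, by simp [hi0], by simp [hz3]⟩
        · intro i hi
          simp only [Finset.mem_filter, Finset.mem_univ, true_and] at hi ⊢
          exact fun h0 => hi (hz2 i h0)
      exact ih _ hlt z hz1 rfl
    -- the projection
    let P : Submodule K A :=
      { carrier := {x | ∃ z : Fin k → U, ∑ i, ev (t i) (z i) = 0 ∧ (∀ i, u i = 0 → z i = 0) ∧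
          x = (z i0 : A)}
        add_mem' := by
          rintro x y ⟨z, hz1, hz2, hz3⟩ ⟨w, hw1, hw2, hw3⟩
          refine ⟨fun i => z i + w i, ?_, ?_, ?_⟩
          · simp only [h.lin]
            rw [Finset.sum_add_distrib, hz1, hw1, add_zero]
          · intro i hi
            show z i + w i = 0
            rw [hz2 i hi, hw2 i hi, add_zero]
          · rw [hz3, hw3]; rfl
        zero_mem' := by
          refine ⟨fun i => 0, ?_, ?_, ?_⟩
          · simp [ev0]
          · intro i hi; rfl
          · rfl
        smul_mem' := by
          rintro c x ⟨z, hz1, hz2, hz3⟩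
          refine ⟨fun i => c • z i, ?_, ?_, ?_⟩
          · simp only [h.smul]
            rw [← Finset.smul_sum, hz1, smul_zero]
          · intro i hi
            show c • z i = 0
            rw [hz2 i hi, smul_zero]
          · rw [hz3]; rfl }
    have hPU : P ≤ U := by
      rintro x ⟨z, -, -, hz⟩
      rw [hz]; exact (z i0).2
    have hPSt : St N P := by
      rintro g hg x ⟨z, hz1, hz2, hz3⟩
      refine ⟨fun i => ⟨g • (z i : A), hU g hg _ (z i).2⟩, ?_, ?_, ?_⟩
      · have : ∀ i, ev (t i) ⟨g • (z i : A), hU g hg _ (z i).2⟩ = g • ev (t i) (z i) := by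
          intro i
          exact h.eqv (t i) g hg _ _ rfl
        simp only [this]
        rw [← Finset.smul_sum, hz1, smul_zero]
      · intro i hi
        apply Subtype.ext
        show g • (z i : A) = 0
        rw [hz2 i hi]
        simp
      · rw [hz3]
    have hPne : P ≠ ⊥ := by
      intro hb
      have : (u i0 : A) ∈ P := ⟨u, hu, fun i hi => hi, rfl⟩
      rw [hb, Submodule.mem_bot] at this
      exact hi0 (Subtype.ext this)
    have hPeq : P = U := by
      rcases hUs P hPU hPSt with h1 | h1
      · exact absurd h1 hPne
      · exact h1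
    have hex : ∀ x : U, ∃ z : Fin k → U, ∑ i, ev (t i) (z i) = 0 ∧ (∀ i, u i = 0 → z i = 0) ∧
        z i0 = x := by
      intro x
      have hx : (x : A) ∈ P := by rw [hPeq]; exact x.2
      obtain ⟨z, h1, h2, h3⟩ := hx
      exact ⟨z, h1, h2, Subtype.ext h3.symm⟩
    choose z hz1 hz2 hz3 using hex
    have huniq2 : ∀ (x : U) (w : Fin k → U), ∑ i, ev (t i) (w i) = 0 → (∀ i, u i = 0 → w i = 0) →
        w i0 = x → ∀ i, w i = z x i := by
      intro x w hw1 hw2 hw3 i
      have := huniq (fun i => w i + -(z x i)) ?_ ?_ ?_ i
      · exact add_neg_eq_zero.1 this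
      · simp only [h.lin, evneg]
        rw [Finset.sum_add_distrib, hw1, zero_add, Finset.sum_neg_distrib, hz1, neg_zero]
      · intro i hi
        show w i + -(z x i) = 0
        rw [hw2 i hi, hz2 x i hi]; simp
      · show w i0 + -(z x i0) = 0
        rw [hw3, hz3]; simp
    let β : Fin k → (U →ₗ[K] U) := fun i =>
      { toFun := fun x => z x i
        map_add' := by
          intro x y
          refine (huniq2 (x + y) (fun i => z x i + z y i) ?_ ?_ ?_ i).symm
          · simp only [h.lin]
            rw [Finset.sum_add_distrib, hz1, hz1, add_zero]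
          · intro i hi
            show z x i + z y i = 0
            rw [hz2 x i hi, hz2 y i hi, add_zero]
          · show z x i0 + z y i0 = x + y
            rw [hz3, hz3]
        map_smul' := by
          intro c x
          refine (huniq2 (c • x) (fun i => c • z x i) ?_ ?_ ?_ i).symm
          · simp only [h.smul]
            rw [← Finset.smul_sum, hz1, smul_zero]
          · intro i hi
            show c • z x i = 0
            rw [hz2 x i hi, smul_zero]
          · show c • z x i0 = c • x
            rw [hz3] }
    have hβ : ∀ i x, β i x = z x i := fun i x => rfl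
    have hβeq : ∀ i, EqE N U (β i) := by
      intro i g hg x y hxy
      have := huniq2 y (fun i => ⟨g • (z x i : A), hU g hg _ (z x i).2⟩) ?_ ?_ ?_ i
      · rw [hβ, hβ, ← this]
      · have h5 : ∀ i, ev (t i) ⟨g • (z x i : A), hU g hg _ (z x i).2⟩ = g • ev (t i) (z x i) := by
          intro i
          exact h.eqv (t i) g hg _ _ rfl
        simp only [h5]
        rw [← Finset.smul_sum, hz1, smul_zero]
      · intro i hi
        apply Subtype.ext
        show g • (z x i : A) = 0
        rw [hz2 x i hi]
        simp
      · apply Subtype.ext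
        show g • (z x i0 : A) = y
        rw [hz3, hxy]
    choose δ hδ using fun i => h.dfull (β i) (hβeq i)
    have hsum : ∑ i, δ i • t i = 0 := by
      apply h.inj
      intro v
      rw [evsum (fun i => δ i • t i) Finset.univ v]
      simp only [hδ, hβ]
      exact hz1 v
    have hδ0 : δ i0 = 0 := by
      have := Fintype.linearIndependent_iff.1 ht δ hsum i0
      exact this
    have ht0 : t i0 = 0 := by
      apply h.inj
      intro v
      have h6 := hδ i0 (t i0) v
      rw [hβ, hz3, hδ0, zero_smul, evT0] at h6
      exact h6.symm
    exact ht.ne_zero i0 ht0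

end Pool.Agent.Helper933.HC
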