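import Pool.Agent.Helper933.HC.Defs
import Pool.Agent.Helper933.HC.P_cliff_ind

set_option autoImplicit false

namespace Pool.Agent.Helper933.HC
open Module


theorem cliff_fd {K G A : Type} [DivisionRing K] [Group G] [AddCommGroup A] [Module K A]
    [DistribMulAction G A] {N : Subgroup G} {U M : Submodule K A} (hU0 : U ≠ ⊥) (hU : St N U)
    (hUs : Simp N U) {D T : Type} [DivisionRing D] [AddCommGroup T] [Module D T]
    {ev : T → U → A} (h : Cliff N U M D T ev) (W : Submodule K A)
    (hW : FiniteDimensional K W) (T₁ : Submodule D T) (hT₁ : ∀ t ∈ T₁, ∀ u, ev t u ∈ W) :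
    FiniteDimensional D T₁ := by
  classical
  obtain ⟨u0, hu0, hne⟩ := (Submodule.ne_bot_iff U).1 hU0
  obtain ⟨u, hu⟩ : ∃ u : U, u ≠ 0 := ⟨⟨u0, hu0⟩, fun h => hne (congrArg Subtype.val h)⟩
  have hrank : Module.rank D T₁ ≤ (finrank K W : ℕ) := by
    apply rank_le
    intro s hs
    have ht : LinearIndependent D (fun i : Fin s.card => (((s.equivFin.symm i : s) : T₁) : T)) := by
      have h1 : LinearIndependent D (fun i : Fin s.card => ((s.equivFin.symm i : s) : T₁)) :=
        hs.comp _ s.equivFin.symm.injective
      exact h1.map' T₁.subtype (Submodule.ker_subtype T₁)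
    have hv : LinearIndependent K (fun i : Fin s.card =>
        (⟨ev (((s.equivFin.symm i : s) : T₁) : T) u, hT₁ _ (Subtype.coe_prop _) u⟩ : W)) := by
      rw [Fintype.linearIndependent_iff]
      intro g hg i
      have h2 := congrArg (fun w : W => (w : A)) hg
      simp only [Submodule.coe_sum, Submodule.coe_smul, Submodule.coe_zero, ← h.smul] at h2
      have h3 := cliff_ind hU0 hU hUs h s.card _ ht (fun i => g i • u) h2 i
      by_contra h4
      exact hu ((smul_eq_zero.1 h3).resolve_left h4)
    have := hv.fintype_card_le_finrank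
    simpa using this
  exact Module.rank_lt_aleph0_iff.1 (lt_of_le_of_lt hrank (Cardinal.natCast_lt_aleph0))

end Pool.Agent.Helper933.HC
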