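import Pool.Agent.Helper933.HC.Defs
import Pool.Agent.Helper933.HC.P_cliff_ind

set_option autoImplicit false

namespace Pool.Agent.Helper933.HC
open Module


theorem cliff_mem {K G A : Type} [DivisionRing K] [Group G] [AddCommGroup A] [Module K A]
    [DistribMulAction G A] {N : Subgroup G} {U M : Submodule K A} (hU0 : U ≠ ⊥) (hU : St N U)
    (hUs : Simp N U) {D T : Type} [DivisionRing D] [AddCommGroup T] [Module D T]
    {ev : T → U → A} (h : Cliff N U M D T ev) (T₁ : Submodule D T) (t : T)
    (ht : ∀ u, ev t u ∈ (TU ev T₁ : Submodule K A)) : t ∈ T₁ := by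
  classical
  by_contra hnt
  -- the maps as linear maps
  obtain ⟨E, hE⟩ : ∃ E : T → (U →ₗ[K] A), ∀ t u, E t u = ev t u :=
    ⟨fun t => { toFun := ev t, map_add' := h.lin t, map_smul' := h.smul t }, fun _ _ => rfl⟩
  obtain ⟨ι, ⟨B⟩⟩ : ∃ ι : Type, Nonempty (Module.Basis ι D T₁) :=
    ⟨_, ⟨Module.Basis.ofVectorSpace D T₁⟩⟩
  have hTU : (TU ev T₁ : Submodule K A) ≤
      LinearMap.range (Finsupp.lsum ℕ (fun i : ι => E (B i : T))) := by
    refine Submodule.span_le.2 ?_
    rintro y ⟨t', ht', u, rfl⟩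
    have e1 : t' = ∑ i ∈ (B.repr ⟨t', ht'⟩).support, (B.repr ⟨t', ht'⟩) i • (B i : T) := by
      have h1 := B.linearCombination_repr ⟨t', ht'⟩
      have h2 := congrArg (Submodule.subtype T₁) h1
      rw [Finsupp.linearCombination_apply, Finsupp.sum, map_sum] at h2
      simp only [Submodule.subtype_apply, Submodule.coe_smul] at h2
      exact h2.symm
    have e2 : ev t' u = ∑ i ∈ (B.repr ⟨t', ht'⟩).support, ev ((B.repr ⟨t', ht'⟩) i • (B i : T)) u := by
      have h3 := map_sum (AddMonoidHom.mk' (fun s : T => ev s u) (fun a b => h.add a b u))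
        (fun i => (B.repr ⟨t', ht'⟩) i • (B i : T)) (B.repr ⟨t', ht'⟩).support
      rw [← e1] at h3
      exact h3
    rw [SetLike.mem_coe, e2]
    refine Submodule.sum_mem _ fun i _ => ?_
    obtain ⟨β, -, hβ⟩ := h.dsmul ((B.repr ⟨t', ht'⟩) i)
    rw [hβ]
    refine ⟨Finsupp.single i (β u), ?_⟩
    rw [Finsupp.lsum_single, hE]
  obtain ⟨u0, hu0U, hu0⟩ := (Submodule.ne_bot_iff U).1 hU0
  obtain ⟨w, hw⟩ := hTU (ht ⟨u0, hu0U⟩)
  rw [Finsupp.lsum_apply, Finsupp.sum] at hw
  obtain ⟨n, hn⟩ : ∃ n, n = w.support.card := ⟨_, rfl⟩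
  have e : Fin w.support.card ≃ w.support := w.support.equivFin.symm
  have hli : LinearIndependent D (fun j => (B (e j : ι) : T)) := by
    have h1 : LinearIndependent D (fun i : ι => (B i : T)) :=
      B.linearIndependent.map' (Submodule.subtype T₁) (Submodule.ker_subtype T₁)
    exact h1.comp (fun j => (e j : ι)) (Subtype.val_injective.comp e.injective)
  have hspan : t ∉ Submodule.span D (Set.range (fun j => (B (e j : ι) : T))) := by
    intro hmem
    apply hnt
    have : Submodule.span D (Set.range (fun j => (B (e j : ι) : T))) ≤ T₁ := by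
      refine Submodule.span_le.2 ?_
      rintro x ⟨j, rfl⟩
      exact (B (e j : ι)).2
    exact this hmem
  have hlic := linearIndependent_finCons.2 ⟨hli, hspan⟩
  have hres := cliff_ind hU0 hU hUs h _ _ hlic
    (Fin.cons (⟨u0, hu0U⟩ : U) (fun j => - w (e j : ι)) : Fin (w.support.card + 1) → U) (by
      rw [Fin.sum_univ_succ]
      simp only [Fin.cons_zero, Fin.cons_succ]
      have e3 : ∑ j, ev (B (e j : ι) : T) (-w (e j : ι)) = - ∑ i ∈ w.support, E (B i : T) (w i) := by
        have h4 : ∀ j, ev (B (e j : ι) : T) (-w (e j : ι)) = - E (B (e j : ι) : T) (w (e j : ι)) := by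
          intro j
          rw [← hE, map_neg]
        simp only [h4, Finset.sum_neg_distrib]
        congr 1
        rw [← Finset.sum_coe_sort w.support (fun i => E (B i : T) (w i))]
        exact Equiv.sum_comp e (fun i : w.support => E (B (i : ι) : T) (w (i : ι)))
      rw [e3, hw]
      simp) 0
  rw [Fin.cons_zero] at hres
  exact hu0 (congrArg Subtype.val hres)

end Pool.Agent.Helper933.HC
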