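import Pool.Agent.Helper933.HC.Defs
import Pool.Agent.Helper933.HC.P_cliff_mem

set_option autoImplicit false

namespace Pool.Agent.Helper933.HC
open Module


theorem fg_supp {K A : Type} [DivisionRing K] [AddCommGroup A] [Module K A] {U : Submodule K A}
    {D T : Type} [DivisionRing D] [AddCommGroup T] [Module D T] (ev : T → U → A) (y : A)
    (hy : y ∈ (TU ev (⊤ : Submodule D T))) :
    ∃ F : Finset T, y ∈ Submodule.span K {y | ∃ t ∈ F, ∃ u, y = ev t u} := by
  classical
  unfold TU at hy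
  induction hy using Submodule.span_induction with
  | mem x hx =>
    obtain ⟨t, -, u, rfl⟩ := hx
    exact ⟨{t}, Submodule.subset_span ⟨t, Finset.mem_singleton_self t, u, rfl⟩⟩
  | zero => exact ⟨∅, Submodule.zero_mem _⟩
  | add x z _ _ hx hz =>
    obtain ⟨F, hF⟩ := hx
    obtain ⟨F', hF'⟩ := hz
    refine ⟨F ∪ F', Submodule.add_mem _ (Submodule.span_mono ?_ hF)
      (Submodule.span_mono ?_ hF')⟩
    · rintro _ ⟨t, ht, u, rfl⟩
      exact ⟨t, Finset.mem_union_left _ ht, u, rfl⟩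
    · rintro _ ⟨t, ht, u, rfl⟩
      exact ⟨t, Finset.mem_union_right _ ht, u, rfl⟩
  | smul k x _ hx =>
    obtain ⟨F, hF⟩ := hx
    exact ⟨F, Submodule.smul_mem _ k hF⟩

theorem cliff_fg {K G A : Type} [DivisionRing K] [Group G] [AddCommGroup A] [Module K A]
    [DistribMulAction G A] (hsemi : ∀ g : G, Semi K (ac g : A ≃+ A)) {N : Subgroup G}
    {U M : Submodule K A} (hU0 : U ≠ ⊥) (hU : St N U)
    (hUs : Simp N U) {D T : Type} [DivisionRing D] [AddCommGroup T] [Module D T]
    {ev : T → U → A} (h : Cliff N U M D T ev) (hM : M ≤ (TU ev (⊤ : Submodule D T)))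
    (L : Subgroup G) (S : Finset A)
    (hS : Submodule.span K {y : A | ∃ g ∈ L, ∃ s ∈ S, y = g • s} = M)
    (G' : Type) [Group G'] [DistribMulAction G' T] (π : G' →* L) (hπ : Function.Surjective π)
    (hsemi' : ∀ g' : G', Semi D (ac g' : T ≃+ T))
    (hα : ∀ g' : G', ∃ α : U ≃+ U, ∀ t u, ev (g' • t) (α u) = ((π g' : L) : G) • ev t u) :
    ∃ S' : Finset T, Submodule.span D {x : T | ∃ g' : G', ∃ s ∈ S', x = g' • s} = ⊤ := by
  classical
  have hSM : ∀ s ∈ S, s ∈ M := by
    intro s hs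
    rw [← hS]
    exact Submodule.subset_span ⟨1, L.one_mem, s, hs, (one_smul G s).symm⟩
  have hF : ∀ s : A, ∃ F : Finset T, s ∈ S →
      s ∈ Submodule.span K {y | ∃ t ∈ F, ∃ u, y = ev t u} := by
    intro s
    by_cases hs : s ∈ S
    · obtain ⟨F, hF⟩ := fg_supp (D := D) ev s (hM (hSM s hs))
      exact ⟨F, fun _ => hF⟩
    · exact ⟨∅, fun h => absurd h hs⟩
  choose F hF using hF
  obtain ⟨S', hS'⟩ : ∃ S' : Finset T, S' = S.biUnion F := ⟨_, rfl⟩
  have hSS' : ∀ s ∈ S, s ∈ Submodule.span K {y | ∃ t ∈ S', ∃ u, y = ev t u} := by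
    intro s hs
    refine Submodule.span_mono ?_ (hF s hs)
    rintro _ ⟨t, ht, u, rfl⟩
    refine ⟨t, ?_, u, rfl⟩
    rw [hS']
    exact Finset.mem_biUnion.2 ⟨s, hs, ht⟩
  refine ⟨S', ?_⟩
  obtain ⟨T', hT'⟩ : ∃ T' : Submodule D T,
      T' = Submodule.span D {x : T | ∃ g' : G', ∃ s ∈ S', x = g' • s} := ⟨_, rfl⟩
  rw [← hT']
  have hMT : M ≤ (TU ev T' : Submodule K A) := by
    rw [← hS, Submodule.span_le]
    rintro _ ⟨g, hg, s, hs, rfl⟩
    obtain ⟨g', hg'⟩ := hπ ⟨g, hg⟩
    have hgg : ((π g' : L) : G) = g := by rw [hg']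
    obtain ⟨σ, hσ⟩ := hsemi g
    obtain ⟨α, hα'⟩ := hα g'
    have key : ∀ y ∈ Submodule.span K {y | ∃ t ∈ S', ∃ u, y = ev t u},
        g • y ∈ (TU ev T' : Submodule K A) := by
      intro y hy
      induction hy using Submodule.span_induction with
      | mem x hx =>
        obtain ⟨t, ht, u, rfl⟩ := hx
        have h1 := hα' t u
        rw [hgg] at h1
        rw [← h1]
        refine Submodule.subset_span ⟨g' • t, ?_, α u, rfl⟩
        rw [hT']
        exact Submodule.subset_span ⟨g', t, ht, rfl⟩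
      | zero =>
        rw [smul_zero]
        exact Submodule.zero_mem _
      | add x z _ _ hx hz =>
        rw [smul_add]
        exact Submodule.add_mem _ hx hz
      | smul k x _ hx =>
        have h1 : g • (k • x) = σ k • (g • x) := hσ k x
        rw [h1]
        exact Submodule.smul_mem _ _ hx
    exact key s (hSS' s hs)
  rw [eq_top_iff]
  intro t _
  exact cliff_mem hU0 hU hUs h T' t fun u => hMT (h.mem t u)

end Pool.Agent.Helper933.HC
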