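import Pool.Agent.Helper933.HC.Defs
import Pool.Agent.Helper933.HC.P_cliff_ind

set_option autoImplicit false

namespace Pool.Agent.Helper933.HC
open Module


section CliffGenAux

variable {K G A : Type} [DivisionRing K] [Group G] [AddCommGroup A] [Module K A]
    [DistribMulAction G A] {N : Subgroup G} {U M : Submodule K A}
    {D T : Type} [DivisionRing D] [AddCommGroup T] [Module D T] {ev : T → U → A}

/-- evaluation as a linear map -/
def evLc (h : Cliff N U M D T ev) (t : T) : U →ₗ[K] A where
  toFun := ev t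
  map_add' := h.lin t
  map_smul' := by
    intro k u
    exact h.smul t k u

/-- sum of finitely many images -/
def RIc (h : Cliff N U M D T ev) (I : Finset T) : Submodule K A :=
  I.sup (fun t => LinearMap.range (evLc h t))

theorem St_sup_aux {B C : Submodule K A} (hB : St N B) (hC : St N C) : St N (B ⊔ C) := by
  intro g hg x hx
  obtain ⟨b, hb, c, hc, rfl⟩ := Submodule.mem_sup.1 hx
  rw [smul_add]
  exact Submodule.add_mem_sup (hB g hg b hb) (hC g hg c hc)

theorem St_range_aux (h : Cliff N U M D T ev) (hU : St N U) (t : T) :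
    St N (LinearMap.range (evLc h t)) := by
  rintro g hg x ⟨u, rfl⟩
  refine ⟨⟨g • (u : A), hU g hg u u.2⟩, ?_⟩
  exact h.eqv t g hg u ⟨g • (u : A), hU g hg u u.2⟩ rfl

theorem St_RI_aux (h : Cliff N U M D T ev) (hU : St N U) (I : Finset T) : St N (RIc h I) := by
  classical
  induction I using Finset.induction_on with
  | empty =>
    intro g hg x hx
    have hx0 : x = 0 := by
      simpa [RIc] using hx
    rw [hx0, smul_zero]
    exact Submodule.zero_mem _
  | insert t I _ ih =>
    have : RIc h (insert t I) = LinearMap.range (evLc h t) ⊔ RIc h I := by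
      unfold RIc
      rw [Finset.sup_insert]
    rw [this]
    exact St_sup_aux (St_range_aux h hU t) ih

theorem RI_mono_aux (h : Cliff N U M D T ev) {I J : Finset T} (hIJ : I ⊆ J) :
    RIc h I ≤ RIc h J := Finset.sup_mono hIJ

theorem mem_RI_aux (h : Cliff N U M D T ev) {I : Finset T} {t : T} (ht : t ∈ I) (u : U) :
    ev t u ∈ RIc h I := by
  have h1 : LinearMap.range (evLc h t) ≤ RIc h I :=
    Finset.le_sup (f := fun t => LinearMap.range (evLc h t)) ht
  exact h1 ⟨u, rfl⟩

theorem TU_finite_aux (h : Cliff N U M D T ev) {x : A}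
    (hx : x ∈ (TU ev (⊤ : Submodule D T) : Submodule K A)) : ∃ S : Finset T, x ∈ RIc h S := by
  classical
  unfold TU at hx
  induction hx using Submodule.span_induction with
  | mem x hx =>
    obtain ⟨t, _, u, rfl⟩ := hx
    exact ⟨{t}, mem_RI_aux h (Finset.mem_singleton_self t) u⟩
  | zero => exact ⟨∅, Submodule.zero_mem _⟩
  | add x y _ _ hx hy =>
    obtain ⟨S, hS⟩ := hx
    obtain ⟨S', hS'⟩ := hy
    exact ⟨S ∪ S', Submodule.add_mem _ (RI_mono_aux h Finset.subset_union_left hS)
      (RI_mono_aux h Finset.subset_union_right hS')⟩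
  | smul k x _ hx =>
    obtain ⟨S, hS⟩ := hx
    exact ⟨S, Submodule.smul_mem _ k hS⟩

theorem uniq_aux {B C : Submodule K A} (hBC : Disjoint B C) {x a a' : A} (ha : a ∈ B)
    (ha' : a' ∈ B) (h1 : x - a ∈ C) (h2 : x - a' ∈ C) : a = a' := by
  have h3 : a' - a ∈ C := by
    have := C.sub_mem h1 h2
    rwa [sub_sub_sub_cancel_left] at this
  have h4 : a' - a ∈ B := B.sub_mem ha' ha
  have h5 := Submodule.disjoint_def.1 hBC _ h4 h3
  exact (sub_eq_zero.1 h5).symm

end CliffGenAux

theorem cliff_gen {K G A : Type} [DivisionRing K] [Group G] [AddCommGroup A] [Module K A]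
    [DistribMulAction G A] {N : Subgroup G} {U M : Submodule K A} (hU0 : U ≠ ⊥) (hU : St N U)
    (hUs : Simp N U) {D T : Type} [DivisionRing D] [AddCommGroup T] [Module D T]
    {ev : T → U → A} (h : Cliff N U M D T ev) (hM : M ≤ (TU ev (⊤ : Submodule D T)))
    (M₁ : Submodule K A) (hM₁ : M₁ ≤ M) (hs : St N M₁) :
    ∃ T₁ : Submodule D T, (∀ t, t ∈ T₁ ↔ ∀ u, ev t u ∈ M₁) ∧ (TU ev T₁ : Submodule K A) = M₁ := by
  classical
  have hev0 : ∀ u, ev 0 u = 0 := by
    intro u
    have h1 := h.add 0 0 u
    rw [add_zero] at h1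
    have h2 : ev 0 u + 0 = ev 0 u + ev 0 u := by rw [add_zero]; exact h1
    exact (add_left_cancel h2).symm
  let T₁ : Submodule D T :=
    { carrier := {t | ∀ u, ev t u ∈ M₁}
      add_mem' := by
        intro a b ha hb u
        rw [h.add]
        exact M₁.add_mem (ha u) (hb u)
      zero_mem' := by
        intro u
        rw [hev0]
        exact M₁.zero_mem
      smul_mem' := by
        intro δ t ht u
        obtain ⟨β, _, hβ⟩ := h.dsmul δ
        rw [hβ]
        exact ht _ }
  have hT₁ : ∀ t, t ∈ T₁ ↔ ∀ u, ev t u ∈ M₁ := fun t => Iff.rfl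
  have hle : (TU ev T₁ : Submodule K A) ≤ M₁ := by
    unfold TU
    rw [Submodule.span_le]
    rintro _ ⟨t, ht, u, rfl⟩
    exact ht u
  refine ⟨T₁, hT₁, le_antisymm hle ?_⟩
  intro m hm
  obtain ⟨S, hS⟩ := TU_finite_aux h (hM (hM₁ hm))
  -- a maximal subfamily independent of `M₁`
  have hne : (S.powerset.filter (fun I => Disjoint M₁ (RIc h I))).Nonempty := by
    refine ⟨∅, Finset.mem_filter.2 ⟨Finset.empty_mem_powerset S, ?_⟩⟩
    have : RIc h ∅ = ⊥ := by simp [RIc]
    rw [this]
    exact disjoint_bot_right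
  obtain ⟨I, hI, hImax⟩ := Finset.exists_max_image _ Finset.card hne
  have hIS : I ⊆ S := Finset.mem_powerset.1 (Finset.mem_filter.1 hI).1
  have hId : Disjoint M₁ (RIc h I) := (Finset.mem_filter.1 hI).2
  have hstab : St N (M₁ ⊔ RIc h I) := St_sup_aux hs (St_RI_aux h hU I)
  have hcov : ∀ t ∈ S, ∀ u : U, ev t u ∈ M₁ ⊔ RIc h I := by
    intro t ht
    by_cases htI : t ∈ I
    · intro u
      exact Submodule.mem_sup_right (mem_RI_aux h htI u)
    · have hnd : ¬ Disjoint M₁ (RIc h (insert t I)) := by
        intro hd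
        have h1 := hImax (insert t I) (Finset.mem_filter.2
          ⟨Finset.mem_powerset.2 (Finset.insert_subset ht hIS), hd⟩)
        rw [Finset.card_insert_of_notMem htI] at h1
        omega
      rw [Submodule.disjoint_def] at hnd
      push Not at hnd
      obtain ⟨x, hx1, hx2, hx0⟩ := hnd
      have hins : RIc h (insert t I) = LinearMap.range (evLc h t) ⊔ RIc h I := by
        unfold RIc
        rw [Finset.sup_insert]
      rw [hins] at hx2
      obtain ⟨_, ⟨u, rfl⟩, r, hr, hur⟩ := Submodule.mem_sup.1 hx2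
      have hu0 : u ≠ 0 := by
        intro hu
        rw [hu, map_zero, zero_add] at hur
        rw [hur] at hr
        exact hx0 (Submodule.disjoint_def.1 hId x hx1 hr)
      let V : Submodule K A := (Submodule.comap (evLc h t) (M₁ ⊔ RIc h I)).map U.subtype
      have hVU : V ≤ U := Submodule.map_subtype_le _ _
      have hVst : St N V := by
        rintro g hg _ ⟨w, hw, rfl⟩
        refine ⟨⟨g • (w : A), hU g hg w w.2⟩, ?_, rfl⟩
        show ev t ⟨g • (w : A), hU g hg w w.2⟩ ∈ M₁ ⊔ RIc h I
        rw [h.eqv t g hg w ⟨g • (w : A), hU g hg w w.2⟩ rfl]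
        exact hstab g hg _ hw
      have huV : (u : A) ∈ V := by
        refine ⟨u, ?_, rfl⟩
        show evLc h t u ∈ M₁ ⊔ RIc h I
        have : evLc h t u = x - r := by rw [← hur]; abel
        rw [this]
        exact Submodule.sub_mem _ (Submodule.mem_sup_left hx1) (Submodule.mem_sup_right hr)
      rcases hUs V hVU hVst with hV | hV
      · rw [hV, Submodule.mem_bot] at huV
        exact absurd (Subtype.ext huV) hu0
      · intro w
        have hw : (w : A) ∈ V := by rw [hV]; exact w.2
        obtain ⟨w', hw', hww⟩ := hw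
        have : w' = w := Subtype.ext hww
        rw [← this]
        exact hw'
  -- the projections
  have hproj : ∀ t ∈ S, ∃ t' ∈ T₁, ∀ u, ev t u - ev t' u ∈ RIc h I := by
    intro t ht
    have hex : ∀ u : U, ∃ a ∈ M₁, ev t u - a ∈ RIc h I := by
      intro u
      obtain ⟨a, ha, b, hb, hab⟩ := Submodule.mem_sup.1 (hcov t ht u)
      refine ⟨a, ha, ?_⟩
      rw [← hab, add_sub_cancel_left]
      exact hb
    choose f hf1 hf2 using hex
    let fl : U →ₗ[K] A :=
      { toFun := f
        map_add' := by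
          intro u v
          refine uniq_aux hId (hf1 _) (M₁.add_mem (hf1 u) (hf1 v)) (hf2 _) ?_
          rw [h.lin, add_sub_add_comm]
          exact Submodule.add_mem _ (hf2 u) (hf2 v)
        map_smul' := by
          intro k u
          refine uniq_aux hId (hf1 _) (M₁.smul_mem k (hf1 u)) (hf2 _) ?_
          rw [h.smul, RingHom.id_apply, ← smul_sub]
          exact Submodule.smul_mem _ k (hf2 u) }
    have hfe : Equi N fl := by
      intro g hg u v huv
      show f v = g • f u
      refine uniq_aux hId (hf1 _) (hs g hg _ (hf1 u)) (hf2 _) ?_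
      rw [h.eqv t g hg u v huv, ← smul_sub]
      exact St_RI_aux h hU I g hg _ (hf2 u)
    obtain ⟨t', ht'⟩ := h.full fl hfe (fun u => hM₁ (hf1 u))
    refine ⟨t', ?_, ?_⟩
    · intro u
      rw [ht' u]
      exact hf1 u
    · intro u
      rw [ht' u]
      exact hf2 u
  have hRS : RIc h S ≤ (TU ev T₁ : Submodule K A) ⊔ RIc h I := by
    refine Finset.sup_le ?_
    rintro t ht _ ⟨u, rfl⟩
    obtain ⟨t', ht', hd⟩ := hproj t ht
    have : evLc h t u = ev t' u + (ev t u - ev t' u) := by
      show ev t u = _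
      abel
    rw [this]
    exact Submodule.add_mem_sup (Submodule.subset_span ⟨t', ht', u, rfl⟩) (hd u)
  obtain ⟨y, hy, r, hr, hyr⟩ := Submodule.mem_sup.1 (hRS hS)
  have hrM : r ∈ M₁ := by
    have : r = m - y := by rw [← hyr]; abel
    rw [this]
    exact M₁.sub_mem hm (hle hy)
  have hr0 : r = 0 := Submodule.disjoint_def.1 hId r hrM hr
  rw [hr0, add_zero] at hyr
  rw [← hyr]
  exact hy

end Pool.Agent.Helper933.HC
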