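import Pool.Agent.Helper933.HC.Defs

set_option autoImplicit false

namespace Pool.Agent.Helper933.HC
open Module


theorem mem_gm {K G A : Type} [DivisionRing K] [Group G] [AddCommGroup A] [Module K A]
    [DistribMulAction G A] (g : G) (hg : Semi K (ac g : A ≃+ A)) (V : Submodule K A) (x : A) :
    x ∈ (gm g V : Submodule K A) ↔ g⁻¹ • x ∈ V := by
  obtain ⟨σ, hσ⟩ := hg
  have hσ' : ∀ (k : K) (x : A), g • (k • x) = σ k • (g • x) := hσ
  have hinv : ∀ (k : K) (y : A), g⁻¹ • (k • y) = σ.symm k • (g⁻¹ • y) := by
    intro k y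
    have h1 : g • (σ.symm k • (g⁻¹ • y)) = k • y := by
      rw [hσ', RingEquiv.apply_symm_apply, smul_inv_smul]
    rw [← h1, inv_smul_smul]
  constructor
  · intro hx
    unfold gm at hx
    induction hx using Submodule.span_induction with
    | mem y hy =>
      obtain ⟨z, hz, rfl⟩ := hy
      rw [inv_smul_smul]
      exact hz
    | zero =>
      rw [smul_zero]
      exact V.zero_mem
    | add a b _ _ ha hb =>
      rw [smul_add]
      exact V.add_mem ha hb
    | smul k a _ ha =>
      rw [hinv]
      exact V.smul_mem _ ha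
  · intro hx
    exact Submodule.subset_span ⟨g⁻¹ • x, hx, (smul_inv_smul g x).symm⟩

end Pool.Agent.Helper933.HC
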