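import Pool.Agent.Helper933.HC.Defs
import Pool.Agent.Helper933.HC.P_mem_gm

set_option autoImplicit false

namespace Pool.Agent.Helper933.HC
open Module


def j19731_Q {K G A : Type} [DivisionRing K] [Group G] [AddCommGroup A] [Module K A]
    [DistribMulAction G A] (N : Subgroup G) (U : Submodule K A) (g : G) (α : Equiv.Perm U) : Prop :=
  (∀ k k' : K, (∀ a : A, g • (k • a) = k' • (g • a)) → ∀ u : U, α (k • u) = k' • α u) ∧
  (∀ n ∈ N, ∀ x y : U, (y : A) = n • (x : A) →
    ((α y : U) : A) = (g * n * g⁻¹) • ((α x : U) : A)) ∧ (∀ u v : U, α (u + v) = α u + α v)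

theorem j19731_symm3 {K G A : Type} [DivisionRing K] [Group G] [AddCommGroup A] [Module K A]
    [DistribMulAction G A] {N : Subgroup G} {U : Submodule K A} {g : G} {α : Equiv.Perm U}
    (hQ : j19731_Q N U g α) (u v : U) :
    α.symm (u + v) = α.symm u + α.symm v := by
  apply α.injective
  rw [hQ.2.2]
  simp

theorem j19731_symm1 {K G A : Type} [DivisionRing K] [Group G] [AddCommGroup A] [Module K A]
    [DistribMulAction G A] {N : Subgroup G} {U : Submodule K A} {g : G} {α : Equiv.Perm U}
    (hQ : j19731_Q N U g α) (k k' : K) (h : ∀ a : A, g • (k • a) = k' • (g • a)) (u : U) :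
    α.symm (k' • u) = k • α.symm u := by
  apply α.injective
  rw [hQ.1 k k' h]
  simp

theorem j19731_symm2 {K G A : Type} [DivisionRing K] [Group G] [AddCommGroup A] [Module K A]
    [DistribMulAction G A] {N : Subgroup G} (hN : N.Normal) {U : Submodule K A}
    (hU : St N U) {g : G} {α : Equiv.Perm U}
    (hQ : j19731_Q N U g α) (n : G) (hn : n ∈ N) (x y : U) (h : (y : A) = n • (x : A)) :
    ((α.symm y : U) : A) = (g⁻¹ * n * g) • ((α.symm x : U) : A) := by
  have hn' : g⁻¹ * n * g ∈ N := by
    have := hN.conj_mem n hn g⁻¹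
    simpa using this
  have hz := hU _ hn' _ (α.symm x).2
  set z : U := ⟨(g⁻¹ * n * g) • ((α.symm x : U) : A), hz⟩ with hzdef
  have h1 := hQ.2.1 _ hn' (α.symm x) z rfl
  have h2 : α z = y := by
    apply Subtype.ext
    rw [h1, h]
    have e : g * (g⁻¹ * n * g) * g⁻¹ = n := by group
    rw [e]
    simp
  have h3 : α.symm y = z := by rw [← h2]; simp
  rw [h3]

theorem j19731_one {K G A : Type} [DivisionRing K] [Group G] [AddCommGroup A] [Module K A]
    [DistribMulAction G A] (N : Subgroup G) {U : Submodule K A} (hU0 : U ≠ ⊥) :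
    j19731_Q N U 1 (1 : Equiv.Perm U) := by
  obtain ⟨a, ha, ha0⟩ := (Submodule.ne_bot_iff U).1 hU0
  refine ⟨?_, ?_⟩
  · intro k k' h u
    have h1 := h a
    simp only [one_smul] at h1
    have : k = k' := by
      by_contra hne
      have : (k - k') • a = 0 := by rw [sub_smul, h1, sub_self]
      rcases smul_eq_zero.1 this with h2 | h2
      · exact hne (sub_eq_zero.1 h2)
      · exact ha0 h2
    subst this
    rfl
  · refine ⟨?_, ?_⟩
    · intro n hn x y h
      simpa using h
    · intro u v
      rfl

theorem j19731_mul {K G A : Type} [DivisionRing K] [Group G] [AddCommGroup A] [Module K A]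
    [DistribMulAction G A] (hsemi : ∀ g : G, Semi K (ac g : A ≃+ A)) {N : Subgroup G}
    (hN : N.Normal) {U : Submodule K A} {g₁ g₂ : G} {α₁ α₂ : Equiv.Perm U}
    (h1 : j19731_Q N U g₁ α₁) (h2 : j19731_Q N U g₂ α₂) :
    j19731_Q N U (g₁ * g₂) (α₁ * α₂ : Equiv.Perm U) := by
  refine ⟨?_, ?_⟩
  · intro k k' h u
    obtain ⟨σ, hσ⟩ := hsemi g₂
    have e2 : ∀ a : A, g₂ • (k • a) = σ k • (g₂ • a) := fun a => hσ k a
    have e1 : ∀ a : A, g₁ • (σ k • a) = k' • (g₁ • a) := by
      intro a
      have h3 := h (g₂⁻¹ • a)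
      rw [mul_smul, e2, mul_smul, smul_inv_smul] at h3
      exact h3
    show α₁ (α₂ (k • u)) = k' • α₁ (α₂ u)
    rw [h2.1 k (σ k) e2, h1.1 (σ k) k' e1]
  · refine ⟨?_, fun u v => by
      show α₁ (α₂ (u + v)) = α₁ (α₂ u) + α₁ (α₂ v)
      rw [h2.2.2, h1.2.2]⟩
    intro n hn x y h
    show ((α₁ (α₂ y) : U) : A) = (g₁ * g₂ * n * (g₁ * g₂)⁻¹) • ((α₁ (α₂ x) : U) : A)
    have h3 := h2.2.1 n hn x y h
    have h4 := h1.2.1 _ (hN.conj_mem n hn g₂) _ _ h3
    rw [h4]
    congr 1
    group

theorem j19731_inv {K G A : Type} [DivisionRing K] [Group G] [AddCommGroup A] [Module K A]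
    [DistribMulAction G A] {N : Subgroup G}
    (hN : N.Normal) {U : Submodule K A} (hU : St N U) {g : G} {α : Equiv.Perm U}
    (h1 : j19731_Q N U g α) :
    j19731_Q N U g⁻¹ (α⁻¹ : Equiv.Perm U) := by
  refine ⟨?_, ?_⟩
  · intro k k' h u
    show α.symm (k • u) = k' • α.symm u
    refine j19731_symm1 h1 k' k ?_ u
    intro a
    have h3 := h (g • a)
    rw [inv_smul_smul] at h3
    rw [← h3, smul_inv_smul]
  · refine ⟨?_, fun u v => j19731_symm3 h1 u v⟩
    intro n hn x y h
    show ((α.symm y : U) : A) = (g⁻¹ * n * g⁻¹⁻¹) • ((α.symm x : U) : A)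
    rw [inv_inv]
    exact j19731_symm2 hN hU h1 n hn x y h

/-- the extended group -/
def j19731_G {K G A : Type} [DivisionRing K] [Group G] [AddCommGroup A] [Module K A]
    [DistribMulAction G A] (hsemi : ∀ g : G, Semi K (ac g : A ≃+ A)) {N : Subgroup G}
    (hN : N.Normal) {U : Submodule K A} (hU0 : U ≠ ⊥) (hU : St N U) (L : Subgroup G) :
    Subgroup (L × Equiv.Perm U) where
  carrier := {p | j19731_Q N U (p.1 : G) p.2}
  mul_mem' := by
    intro a b ha hb
    exact j19731_mul hsemi hN ha hb
  one_mem' := j19731_one N hU0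
  inv_mem' := by
    intro a ha
    exact j19731_inv hN hU ha

theorem j19731_exists {K G A : Type} [DivisionRing K] [Group G] [AddCommGroup A] [Module K A]
    [DistribMulAction G A] (hsemi : ∀ g : G, Semi K (ac g : A ≃+ A)) {N : Subgroup G}
    (hN : N.Normal) {U : Submodule K A} (hU : St N U)
    (hUs : Simp N U) (g : G) (hL : Sim N U (gm g U)) :
    ∃ α : Equiv.Perm U, j19731_Q N U g α := by
  obtain ⟨f, hfe, hf0, hfm⟩ : ∃ f : U →ₗ[K] A, Equi N f ∧ f ≠ 0 ∧ ∀ x, f x ∈ gm g U := by
    obtain ⟨U₁, hU1, hst, f, heq, hf0, hfm⟩ := hL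
    rcases hUs U₁ hU1 hst with rfl | rfl
    · exfalso
      apply hf0
      ext x
      have : x = 0 := Subsingleton.elim _ _
      rw [this]
      simp
    · exact ⟨f, heq, hf0, hfm⟩
  -- f injective
  have hinj : Function.Injective f := by
    have hV : (LinearMap.ker f).map U.subtype ≤ U := Submodule.map_subtype_le _ _
    have hst : St N ((LinearMap.ker f).map U.subtype) := by
      rintro n hn x ⟨z, hz, rfl⟩
      refine ⟨⟨n • (z : A), hU n hn _ z.2⟩, ?_, rfl⟩
      have := hfe n hn z ⟨n • (z : A), hU n hn _ z.2⟩ rfl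
      simp only [SetLike.mem_coe, LinearMap.mem_ker] at hz ⊢
      rw [this, hz, smul_zero]
    rcases hUs _ hV hst with h | h
    · rw [← LinearMap.ker_eq_bot, Submodule.eq_bot_iff]
      intro z hz
      have h1 : (z : A) ∈ (LinearMap.ker f).map U.subtype := ⟨z, hz, rfl⟩
      rw [h, Submodule.mem_bot] at h1
      exact Subtype.ext h1
    · exfalso
      apply hf0
      ext x
      have hx : (x : A) ∈ (LinearMap.ker f).map U.subtype := by rw [h]; exact x.2
      obtain ⟨z, hz, hzx⟩ := hx
      have : z = x := Subtype.ext hzx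
      rw [← this]
      simpa using hz
  -- the image of f is g U
  have hmem : ∀ (V : Submodule K A) (x : A), x ∈ (gm g V : Submodule K A) ↔ g⁻¹ • x ∈ V :=
    fun V x => mem_gm g (hsemi g) V x
  have hmem' : ∀ (V : Submodule K A) (x : A), x ∈ (gm g⁻¹ V : Submodule K A) ↔ g • x ∈ V := by
    intro V x
    rw [mem_gm g⁻¹ (hsemi g⁻¹) V x, inv_inv]
  have himg : ∀ u : U, ∃ z : U, f z = g • (u : A) := by
    set V : Submodule K A := gm g⁻¹ (LinearMap.range f) with hVdef
    have hVU : V ≤ U := by
      intro x hx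
      rw [hVdef, hmem'] at hx
      obtain ⟨z, hz⟩ := hx
      have h1 := hfm z
      rw [hmem, hz, inv_smul_smul] at h1
      exact h1
    have hst : St N V := by
      intro n hn x hx
      rw [hVdef, hmem'] at hx ⊢
      obtain ⟨z, hz⟩ := hx
      have hn' := hN.conj_mem n hn g
      refine ⟨⟨(g * n * g⁻¹) • (z : A), hU _ hn' _ z.2⟩, ?_⟩
      rw [hfe _ hn' z ⟨(g * n * g⁻¹) • (z : A), hU _ hn' _ z.2⟩ rfl, hz, ← mul_smul, ← mul_smul]
      congr 1
      group
    rcases hUs V hVU hst with h | h
    · exfalso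
      apply hf0
      ext z
      have h1 : g⁻¹ • f z ∈ V := by
        rw [hVdef, hmem', smul_inv_smul]
        exact ⟨z, rfl⟩
      rw [h, Submodule.mem_bot] at h1
      have : f z = g • (g⁻¹ • f z) := by rw [smul_inv_smul]
      rw [this, h1, smul_zero]
      rfl
    · intro u
      have h1 : (u : A) ∈ V := by rw [h]; exact u.2
      rw [hVdef, hmem'] at h1
      exact h1
  choose a ha using himg
  have hadd : ∀ u v : U, a (u + v) = a u + a v := by
    intro u v
    apply hinj
    rw [ha, map_add, ha, ha, Submodule.coe_add, smul_add]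
  have hainj : Function.Injective a := by
    intro u v h
    have h1 : g • (u : A) = g • (v : A) := by rw [← ha, ← ha, h]
    exact Subtype.ext (smul_left_cancel g h1)
  have hasurj : Function.Surjective a := by
    intro z
    have h1 := (hmem U (f z)).1 (hfm z)
    refine ⟨⟨g⁻¹ • f z, h1⟩, ?_⟩
    apply hinj
    rw [ha]
    show g • (g⁻¹ • f z) = f z
    rw [smul_inv_smul]
  let α : Equiv.Perm U := Equiv.ofBijective a ⟨hainj, hasurj⟩
  have hα : ∀ u : U, f (α u) = g • (u : A) := ha
  refine ⟨α, ?_, ?_, hadd⟩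
  · intro k k' h u
    apply hinj
    rw [hα, map_smul, hα, Submodule.coe_smul, h]
  · intro n hn x y h
    have hn' := hN.conj_mem n hn g
    have h1 : (α y) = (⟨(g * n * g⁻¹) • ((α x : U) : A), hU _ hn' _ (α x).2⟩ : U) := by
      apply hinj
      rw [hα, hfe _ hn' (α x) _ rfl, hα, h, ← mul_smul, ← mul_smul]
      congr 1
      group
    rw [h1]

theorem cliff_group {K G A : Type} [DivisionRing K] [Group G] [AddCommGroup A] [Module K A]
    [DistribMulAction G A] (hsemi : ∀ g : G, Semi K (ac g : A ≃+ A)) {N : Subgroup G}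
    (hN : N.Normal) {U M : Submodule K A} (hU0 : U ≠ ⊥) (hU : St N U)
    (hUs : Simp N U) (hUf : FiniteDimensional K U)
    {D T : Type} [DivisionRing D] [AddCommGroup T] [Module D T]
    {ev : T → U → A} (h : Cliff N U M D T ev) (L : Subgroup G) (hML : St L M)
    (hL : ∀ g ∈ L, Sim N U (gm g U)) :
    ∃ (G' : Type) (_ : Group G') (_ : DistribMulAction G' T) (π : G' →* L),
      Function.Surjective π ∧ (∀ g' : G', Semi D (ac g' : T ≃+ T)) ∧
      (∀ g' : G', ∃ α : U ≃+ U, ∀ t u, ev (g' • t) (α u) = ((π g' : L) : G) • ev t u) ∧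
      (∀ g' : G', ((π g' : L) : G) ∈ N → ∃ c : D, ∀ t : T, g' • t = c • t) := by
  have huniq : ∀ t t' : T, (∀ u, ev t u = ev t' u) → t = t' := by
    intro t t' hh
    have h0 : ∀ u, ev (t - t') u = 0 := by
      intro u
      have h1 := h.add (t - t') t' u
      rw [sub_add_cancel, hh u] at h1
      have h2 : ev (t - t') u + ev t' u = 0 + ev t' u := by rw [← h1, zero_add]
      exact add_right_cancel h2
    exact sub_eq_zero.1 (h.inj _ h0)
  have hact : ∀ (p : j19731_G hsemi hN hU0 hU L) (t : T),
      ∃ t' : T, ∀ u, ev t' u = ((p.1.1 : L) : G) • ev t ((p.1.2 : Equiv.Perm U).symm u) := by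
    rintro ⟨⟨g, α⟩, hp⟩ t
    have hQ : j19731_Q N U (g : G) α := hp
    obtain ⟨σ, hσ⟩ := hsemi (g : G)
    have hσ' : ∀ (k : K) (a : A), (g : G) • (k • a) = σ k • ((g : G) • a) := fun k a => hσ k a
    have hlin : ∀ (k : K) (u : U), (g : G) • ev t (α.symm (k • u)) = k • (g : G) • ev t (α.symm u) := by
      intro k u
      have h1 := j19731_symm1 hQ (σ.symm k) k (by
        intro a
        have := hσ' (σ.symm k) a
        rwa [RingEquiv.apply_symm_apply] at this) u
      rw [h1, h.smul, hσ', RingEquiv.apply_symm_apply]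
    let f : U →ₗ[K] A :=
      { toFun := fun u => (g : G) • ev t (α.symm u)
        map_add' := by
          intro u v
          show (g : G) • ev t (α.symm (u + v)) = _
          rw [j19731_symm3 hQ, h.lin, smul_add]
        map_smul' := by
          intro k u
          exact hlin k u }
    have hf : ∀ u, f u = (g : G) • ev t (α.symm u) := fun u => rfl
    obtain ⟨t', ht'⟩ := h.full f (by
      intro n hn x y hxy
      rw [hf, hf]
      have h1 := j19731_symm2 hN hU hQ n hn x y hxy
      have hn' : (g : G)⁻¹ * n * g ∈ N := by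
        have := hN.conj_mem n hn (g : G)⁻¹
        simpa using this
      have h2 := h.eqv t _ hn' _ _ h1
      rw [h2, ← mul_smul, ← mul_smul]
      congr 1
      group) (by
      intro x
      rw [hf]
      exact hML _ g.2 _ (h.mem _ _))
    exact ⟨t', fun u => (ht' u).trans (hf u)⟩
  choose act hact using hact
  let inst : DistribMulAction (j19731_G hsemi hN hU0 hU L) T :=
    { smul := act
      one_smul := by
        intro t
        apply huniq
        intro u
        show ev (act 1 t) u = _
        rw [hact]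
        show ((1 : L) : G) • ev t ((1 : Equiv.Perm U).symm u) = _
        rw [Subgroup.coe_one, one_smul]
        rfl
      mul_smul := by
        intro p q t
        apply huniq
        intro u
        show ev (act (p * q) t) u = ev (act p (act q t)) u
        rw [hact, hact, hact, ← mul_smul]
        rfl
      smul_zero := by
        intro p
        apply huniq
        intro u
        show ev (act p 0) u = ev 0 u
        have hz : ∀ v, ev 0 v = 0 := by
          intro v
          have h1 := h.add 0 0 v
          rw [add_zero] at h1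
          have h2 : ev 0 v + 0 = ev 0 v + ev 0 v := by rw [add_zero]; exact h1
          exact (add_left_cancel h2).symm
        rw [hact, hz, hz, smul_zero]
      smul_add := by
        intro p t t'
        apply huniq
        intro u
        show ev (act p (t + t')) u = ev (act p t + act p t') u
        rw [hact, h.add, h.add, hact, hact, smul_add] }
  have hsm : ∀ (p : j19731_G hsemi hN hU0 hU L) (t : T) (u : U),
      ev (p • t) u = ((p.1.1 : L) : G) • ev t ((p.1.2 : Equiv.Perm U).symm u) := fun p t u => hact p t u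
  have hconj : ∀ (p : j19731_G hsemi hN hU0 hU L) (δ : D), ∃ δ' : D, ∀ t : T,
      p • (δ • t) = δ' • (p • t) := by
    rintro ⟨⟨g, α⟩, hp⟩ δ
    have hQ : j19731_Q N U (g : G) α := hp
    obtain ⟨β, hβ, hβt⟩ := h.dsmul δ
    obtain ⟨σ, hσ⟩ := hsemi (g : G)
    have hσ' : ∀ (k : K) (a : A), (g : G) • (k • a) = σ k • ((g : G) • a) := fun k a => hσ k a
    have hs1 : ∀ (k : K) (u : U), α.symm (k • u) = σ.symm k • α.symm u := by
      intro k u
      exact j19731_symm1 hQ (σ.symm k) k (by
        intro a
        have := hσ' (σ.symm k) a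
        rwa [RingEquiv.apply_symm_apply] at this) u
    have hs2 : ∀ (k : K) (u : U), α (k • u) = σ k • α u := fun k u => hQ.1 k (σ k) (hσ' k) u
    let β' : U →ₗ[K] U :=
      { toFun := fun u => α (β (α.symm u))
        map_add' := by
          intro u v
          show α (β (α.symm (u + v))) = α (β (α.symm u)) + α (β (α.symm v))
          rw [j19731_symm3 hQ, map_add, hQ.2.2]
        map_smul' := by
          intro k u
          show α (β (α.symm (k • u))) = k • α (β (α.symm u))
          rw [hs1, map_smul, hs2, RingEquiv.apply_symm_apply] }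
    have hβ' : ∀ u, β' u = α (β (α.symm u)) := fun u => rfl
    obtain ⟨δ', hδ'⟩ := h.dfull β' (by
      intro n hn x y hxy
      rw [hβ', hβ']
      have h1 := j19731_symm2 hN hU hQ n hn x y hxy
      have hn' : (g : G)⁻¹ * n * g ∈ N := by
        have := hN.conj_mem n hn (g : G)⁻¹
        simpa using this
      have h2 := hβ _ hn' _ _ h1
      have h3 := hQ.2.1 _ hn' _ _ h2
      rw [h3]
      congr 1
      group)
    refine ⟨δ', fun t => ?_⟩
    apply huniq
    intro u
    rw [hsm, hδ', hsm, hβt, hβ']
    show (g : G) • ev t (β (α.symm u)) = (g : G) • ev t (α.symm (α (β (α.symm u))))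
    rw [Equiv.symm_apply_apply]
  refine ⟨j19731_G hsemi hN hU0 hU L, inferInstance, inst,
    (MonoidHom.fst L (Equiv.Perm U)).comp (Subgroup.subtype _), ?_, ?_, ?_, ?_⟩
  · intro g
    obtain ⟨α, hα⟩ := j19731_exists hsemi hN hU hUs (g : G) (hL _ g.2)
    exact ⟨⟨(g, α), hα⟩, rfl⟩
  · intro p
    by_cases hT : Subsingleton T
    · exact ⟨RingEquiv.refl D, fun k x => Subsingleton.elim _ _⟩
    · rw [not_subsingleton_iff_nontrivial] at hT
      obtain ⟨t₀, ht₀⟩ := exists_ne (0 : T)
      choose s hs using hconj p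
      have hpt : p • t₀ ≠ 0 := by
        intro h0
        apply ht₀
        have : p⁻¹ • (p • t₀) = p⁻¹ • (0 : T) := by rw [h0]
        rwa [inv_smul_smul, smul_zero] at this
      have hcan : ∀ δ δ' : D, δ • (p • t₀) = δ' • (p • t₀) → δ = δ' := by
        intro δ δ' hh
        have : (δ - δ') • (p • t₀) = 0 := by rw [sub_smul, hh, sub_self]
        rcases smul_eq_zero.1 this with h2 | h2
        · exact sub_eq_zero.1 h2
        · exact absurd h2 hpt
      let φ : D →+* D :=
        { toFun := s
          map_one' := by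
            apply hcan
            rw [← hs, one_smul, one_smul]
          map_mul' := by
            intro a b
            apply hcan
            rw [← hs, mul_smul, hs, mul_smul, hs]
          map_zero' := by
            apply hcan
            rw [← hs, zero_smul, zero_smul, smul_zero]
          map_add' := by
            intro a b
            apply hcan
            rw [← hs, add_smul, smul_add, hs, hs, add_smul] }
      have hφ : ∀ δ, φ δ = s δ := fun δ => rfl
      have hbij : Function.Bijective φ := by
        refine ⟨φ.injective, ?_⟩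
        intro δ
        obtain ⟨δ'', hδ''⟩ := hconj p⁻¹ δ
        refine ⟨δ'', ?_⟩
        rw [hφ]
        apply hcan
        rw [← hs]
        have h1 := hδ'' (p • t₀)
        rw [inv_smul_smul] at h1
        rw [← h1, smul_inv_smul]
      exact ⟨RingEquiv.ofBijective φ hbij, fun k x => hs k x⟩
  · rintro ⟨⟨g, α⟩, hp⟩
    have hQ : j19731_Q N U (g : G) α := hp
    refine ⟨{ α with map_add' := hQ.2.2 }, fun t u => ?_⟩
    rw [hsm]
    show (g : G) • ev t (α.symm (α u)) = (g : G) • ev t u
    rw [Equiv.symm_apply_apply]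
  · rintro ⟨⟨g, α⟩, hp⟩ hgN
    have hQ : j19731_Q N U (g : G) α := hp
    have hgN' : (g : G) ∈ N := hgN
    obtain ⟨σ, hσ⟩ := hsemi (g : G)
    have hσ' : ∀ (k : K) (a : A), (g : G) • (k • a) = σ k • ((g : G) • a) := fun k a => hσ k a
    have hs1 : ∀ (k : K) (u : U), α.symm (k • u) = σ.symm k • α.symm u := by
      intro k u
      exact j19731_symm1 hQ (σ.symm k) k (by
        intro a
        have := hσ' (σ.symm k) a
        rwa [RingEquiv.apply_symm_apply] at this) u
    let β : U →ₗ[K] U :=
      { toFun := fun u => ⟨(g : G) • ((α.symm u : U) : A), hU _ hgN' _ (α.symm u).2⟩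
        map_add' := by
          intro u v
          apply Subtype.ext
          show (g : G) • ((α.symm (u + v) : U) : A) = (g : G) • ((α.symm u : U) : A) + (g : G) • ((α.symm v : U) : A)
          rw [j19731_symm3 hQ, Submodule.coe_add, smul_add]
        map_smul' := by
          intro k u
          apply Subtype.ext
          show (g : G) • ((α.symm (k • u) : U) : A) = k • ((g : G) • ((α.symm u : U) : A))
          rw [hs1, Submodule.coe_smul, hσ', RingEquiv.apply_symm_apply] }
    have hβ : ∀ u, ((β u : U) : A) = (g : G) • ((α.symm u : U) : A) := fun u => rfl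
    obtain ⟨c, hc⟩ := h.dfull β (by
      intro n hn x y hxy
      rw [hβ, hβ]
      have h1 := j19731_symm2 hN hU hQ n hn x y hxy
      rw [h1, ← mul_smul, ← mul_smul]
      congr 1
      group)
    refine ⟨c, fun t => ?_⟩
    apply huniq
    intro u
    rw [hsm, hc]
    exact (h.eqv t _ hgN' _ _ (hβ u)).symm

end Pool.Agent.Helper933.HC
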