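import Pool.Agent.Helper933.HC.Defs
import Pool.Agent.Helper933.HC.P_rad_le
import Pool.Agent.Helper933.HC.P_rad_mono
import Pool.Agent.Helper933.HC.P_radi_le
import Pool.Agent.Helper933.HC.P_radi_mono
import Pool.Agent.Helper933.HC.P_cliff_mem
import Pool.Agent.Helper933.HC.P_cliff_gen
import Pool.Agent.Helper933.HC.P_cliff_dim

set_option autoImplicit false

namespace Pool.Agent.Helper933.HC
open Module


theorem TU_ind {K G A : Type} [DivisionRing K] [Group G] [AddCommGroup A] [Module K A]
    [DistribMulAction G A] {N : Subgroup G} {U M : Submodule K A}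
    {D T : Type} [DivisionRing D] [AddCommGroup T] [Module D T]
    {ev : T → U → A} (h : Cliff N U M D T ev) (T₁ : Submodule D T) {P : A → Prop} (h0 : P 0)
    (hadd : ∀ x y, P x → P y → P (x + y)) (hev : ∀ t ∈ T₁, ∀ u, P (ev t u)) :
    ∀ x ∈ (TU ev T₁ : Submodule K A), P x := by
  intro x hx
  unfold TU at hx
  refine Submodule.closure_induction (p := fun x _ => P x) h0 (fun x y _ _ => hadd x y) ?_ hx
  rintro k y ⟨t, ht, u, rfl⟩
  rw [← h.smul]
  exact hev t ht _

theorem TU_mem {K A : Type} [DivisionRing K] [AddCommGroup A] [Module K A] {U : Submodule K A}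
    {D T : Type} [DivisionRing D] [AddCommGroup T] [Module D T] {ev : T → U → A}
    {T₁ : Submodule D T} {t : T} (ht : t ∈ T₁) (u : U) : ev t u ∈ (TU ev T₁ : Submodule K A) :=
  Submodule.subset_span ⟨t, ht, u, rfl⟩

theorem TU_mono {K A : Type} [DivisionRing K] [AddCommGroup A] [Module K A] {U : Submodule K A}
    {D T : Type} [DivisionRing D] [AddCommGroup T] [Module D T] {ev : T → U → A}
    {T₁ T₂ : Submodule D T} (h : T₁ ≤ T₂) :
    (TU ev T₁ : Submodule K A) ≤ (TU ev T₂ : Submodule K A) := by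
  refine Submodule.span_mono ?_
  rintro y ⟨t, ht, u, rfl⟩
  exact ⟨t, h ht, u, rfl⟩

theorem TU_St {K G A : Type} [DivisionRing K] [Group G] [AddCommGroup A] [Module K A]
    [DistribMulAction G A] {N : Subgroup G} {U M : Submodule K A} (hU : St N U)
    {D T : Type} [DivisionRing D] [AddCommGroup T] [Module D T]
    {ev : T → U → A} (h : Cliff N U M D T ev) (T₁ : Submodule D T) :
    St N (TU ev T₁ : Submodule K A) := by
  intro n hn
  refine TU_ind h T₁ ?_ ?_ ?_
  · rw [smul_zero]; exact Submodule.zero_mem _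
  · intro x y hx hy
    rw [smul_add]
    exact Submodule.add_mem _ hx hy
  · intro t ht u
    rw [← h.eqv t n hn u ⟨n • (u : A), hU n hn u u.2⟩ rfl]
    exact TU_mem ht _

theorem TU_Stable {K G A : Type} [DivisionRing K] [Group G] [AddCommGroup A] [Module K A]
    [DistribMulAction G A] {N : Subgroup G} {U M : Submodule K A}
    {D T : Type} [DivisionRing D] [AddCommGroup T] [Module D T]
    {ev : T → U → A} (h : Cliff N U M D T ev) (g : G)
    (γ : T ≃+ T) (α : U ≃+ U) (hα : ∀ t u, ev (γ t) (α u) = g • ev t u)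
    (T₁ : Submodule D T) (hs : Stable γ T₁) :
    Stable (ac g : A ≃+ A) (TU ev T₁ : Submodule K A) := by
  intro x
  constructor
  · intro hx
    have key : ∀ y ∈ (TU ev T₁ : Submodule K A), g⁻¹ • y ∈ (TU ev T₁ : Submodule K A) := by
      refine TU_ind h T₁ ?_ ?_ ?_
      · rw [smul_zero]; exact Submodule.zero_mem _
      · intro x y hx hy
        rw [smul_add]
        exact Submodule.add_mem _ hx hy
      · intro t ht u
        obtain ⟨t', rfl⟩ := γ.surjective t
        obtain ⟨u', rfl⟩ := α.surjective u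
        rw [hα, inv_smul_smul]
        exact TU_mem ((hs t').1 ht) _
    have := key _ hx
    have h2 : (ac g : A ≃+ A) x = g • x := rfl
    rwa [h2, inv_smul_smul] at this
  · intro hx
    have key : ∀ y ∈ (TU ev T₁ : Submodule K A), g • y ∈ (TU ev T₁ : Submodule K A) := by
      refine TU_ind h T₁ ?_ ?_ ?_
      · rw [smul_zero]; exact Submodule.zero_mem _
      · intro x y hx hy
        rw [smul_add]
        exact Submodule.add_mem _ hx hy
      · intro t ht u
        rw [← hα]
        exact TU_mem ((hs t).2 ht) _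
    exact key x hx

theorem TU_fd {K G A : Type} [DivisionRing K] [Group G] [AddCommGroup A] [Module K A]
    [DistribMulAction G A] {N : Subgroup G} {U M : Submodule K A}
    (hUf : FiniteDimensional K U) {D T : Type} [DivisionRing D] [AddCommGroup T] [Module D T]
    {ev : T → U → A} (h : Cliff N U M D T ev) (T₂ : Submodule D T)
    (hf : FiniteDimensional D T₂) : FiniteDimensional K (TU ev T₂ : Submodule K A) :=
  (cliff_dim hUf h T₂ T₂ le_rfl hf 0 (le_of_eq (by rw [add_zero]))).1

theorem cliff_rad1 {K G A : Type} [DivisionRing K] [Group G] [AddCommGroup A] [Module K A]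
    [DistribMulAction G A] {N : Subgroup G} {U M : Submodule K A} (hU0 : U ≠ ⊥) (hU : St N U)
    (hUs : Simp N U) (hUf : FiniteDimensional K U)
    {D T : Type} [DivisionRing D] [AddCommGroup T] [Module D T]
    {ev : T → U → A} (h : Cliff N U M D T ev) (hM : M ≤ (TU ev (⊤ : Submodule D T)))
    (g : G)
    (γ : T ≃+ T) (α : U ≃+ U) (hα : ∀ t u, ev (γ t) (α u) = g • ev t u)
    (T₂ : Submodule D T) (hT₂ : FiniteDimensional D T₂) (hs : Stable γ T₂) (d : ℕ) :
    rad (ac g : A ≃+ A) (finrank K U * d) (TU ev T₂ : Submodule K A) ≤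
      TU ev (rad γ d T₂) := by
  set M1 : Submodule K A := sInf {X | ∃ V : Submodule D T, (V ≤ T₂ ∧ Stable γ V ∧
    finrank D T₂ ≤ finrank D V + d) ∧ X = (TU ev V : Submodule K A)} with hM1
  have hle : ∀ V : Submodule D T, V ≤ T₂ → Stable γ V → finrank D T₂ ≤ finrank D V + d →
      M1 ≤ (TU ev V : Submodule K A) := by
    intro V h1 h2 h3
    exact sInf_le ⟨V, ⟨h1, h2, h3⟩, rfl⟩
  have hM1M : M1 ≤ M := by
    refine (hle T₂ le_rfl hs (Nat.le_add_right _ _)).trans ?_
    refine TU_ind h T₂ (Submodule.zero_mem _) (fun x y hx hy => Submodule.add_mem _ hx hy) ?_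
    intro t _ u
    exact h.mem t u
  have hM1s : St N M1 := by
    intro n hn x hx
    rw [hM1, Submodule.mem_sInf] at hx ⊢
    rintro X ⟨V, hV, rfl⟩
    exact TU_St hU h V n hn x (hx _ ⟨V, hV, rfl⟩)
  obtain ⟨T1, hT1, hT1e⟩ := cliff_gen hU0 hU hUs h hM M1 hM1M hM1s
  have h1 : rad (ac g : A ≃+ A) (finrank K U * d) (TU ev T₂ : Submodule K A) ≤ M1 := by
    refine le_sInf ?_
    rintro X ⟨V, ⟨hV1, hV2, hV3⟩, rfl⟩
    refine sInf_le ⟨TU_mono hV1, TU_Stable h g γ α hα V hV2, ?_⟩
    exact (cliff_dim hUf h V T₂ hV1 hT₂ d hV3).2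
  have h2 : T1 ≤ rad γ d T₂ := by
    refine le_sInf ?_
    rintro V ⟨hV1, hV2, hV3⟩
    intro t ht
    refine cliff_mem hU0 hU hUs h V t ?_
    intro u
    exact hle V hV1 hV2 hV3 ((hT1 t).1 ht u)
  refine h1.trans ?_
  rw [← hT1e]
  exact TU_mono h2

theorem cliff_rad {K G A : Type} [DivisionRing K] [Group G] [AddCommGroup A] [Module K A]
    [DistribMulAction G A] {N : Subgroup G} {U M : Submodule K A} (hU0 : U ≠ ⊥) (hU : St N U)
    (hUs : Simp N U) (hUf : FiniteDimensional K U)
    {D T : Type} [DivisionRing D] [AddCommGroup T] [Module D T]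
    {ev : T → U → A} (h : Cliff N U M D T ev) (hM : M ≤ (TU ev (⊤ : Submodule D T)))
    (g : G) (hg : Semi K (ac g : A ≃+ A))
    (γ : T ≃+ T) (hγ : Semi D γ) (α : U ≃+ U) (hα : ∀ t u, ev (γ t) (α u) = g • ev t u)
    (T₂ : Submodule D T) (hT₂ : FiniteDimensional D T₂) (hs : Stable γ T₂) (l d : ℕ)
    (hb : Bdd γ l d T₂) : Bdd (ac g : A ≃+ A) l (finrank K U * d) (TU ev T₂ : Submodule K A) := by
  have key : ∀ (l : ℕ) (T' : Submodule D T), FiniteDimensional D T' → Stable γ T' →
      (rad (ac g : A ≃+ A) (finrank K U * d))^[l] (TU ev T' : Submodule K A) ≤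
        TU ev ((rad γ d)^[l] T') := by
    intro l
    induction l with
    | zero => intro T' _ _; exact le_rfl
    | succ l ih =>
      intro T' hf hs'
      rw [Function.iterate_succ_apply, Function.iterate_succ_apply]
      have hr := rad_le d hs'
      haveI hfr : FiniteDimensional D (rad γ d T') := Submodule.finiteDimensional_of_le hr.1
      refine le_trans ?_ (ih (rad γ d T') hfr hr.2)
      haveI := TU_fd hUf h (rad γ d T') hfr
      exact radi_mono le_rfl le_rfl (cliff_rad1 hU0 hU hUs hUf h hM g γ α hα T' hf hs' d)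
        (rad_le _ (TU_Stable h g γ α hα T' hs')).2 (TU_Stable h g γ α hα _ hr.2)
  have h1 := key l T₂ hT₂ hs
  unfold Bdd at hb ⊢
  rw [hb] at h1
  rw [eq_bot_iff]
  refine h1.trans ?_
  refine TU_ind h ⊥ (Submodule.zero_mem _) (fun x y hx hy => Submodule.add_mem _ hx hy) ?_
  intro t ht u
  rw [Submodule.mem_bot] at ht
  subst ht
  have h3 := h.add 0 0 u
  rw [add_zero] at h3
  have h4 : ev 0 u = 0 := by
    have := congrArg (fun z => z - ev 0 u) h3
    simpa using this.symm
  rw [h4]
  exact Submodule.zero_mem _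

end Pool.Agent.Helper933.HC
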