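import Pool.Agent.Helper933.HC.Defs
import Pool.Agent.Helper933.HC.P_bdd_mono
import Pool.Agent.Helper933.HC.P_cliff_exists
import Pool.Agent.Helper933.HC.P_cliff_mem
import Pool.Agent.Helper933.HC.P_cliff_gen
import Pool.Agent.Helper933.HC.P_cliff_dim
import Pool.Agent.Helper933.HC.P_cliff_fd
import Pool.Agent.Helper933.HC.P_cliff_rad
import Pool.Agent.Helper933.HC.P_cliff_group
import Pool.Agent.Helper933.HC.P_cliff_fg

set_option autoImplicit false

namespace Pool.Agent.Helper933.HC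
open Module


/-- preimage under a semilinear map -/
def cmp {K A : Type} [DivisionRing K] [AddCommGroup A] [Module K A] (u : A ≃+ A)
    (hu : Semi K u) (M : Submodule K A) : Submodule K A where
  carrier := {x | u x ∈ M}
  add_mem' := by
    intro a b ha hb
    show u (a + b) ∈ M
    rw [map_add]
    exact M.add_mem ha hb
  zero_mem' := by
    show u 0 ∈ M
    rw [map_zero]
    exact M.zero_mem
  smul_mem' := by
    intro c x hx
    obtain ⟨σ, hσ⟩ := hu
    show u (c • x) ∈ M
    rw [hσ]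
    exact M.smul_mem _ hx

theorem St_span {K G A : Type} [DivisionRing K] [Group G] [AddCommGroup A] [Module K A]
    [DistribMulAction G A] (hsemi : ∀ g : G, Semi K (ac g : A ≃+ A)) (g : G) (s : Set A)
    (M : Submodule K A) (h : ∀ x ∈ s, g • x ∈ M) : ∀ x ∈ Submodule.span K s, g • x ∈ M := by
  have : Submodule.span K s ≤ cmp (ac g : A ≃+ A) (hsemi g) M := by
    rw [Submodule.span_le]
    intro x hx
    exact h x hx
  intro x hx
  exact this hx

theorem St_MS {K G A : Type} [DivisionRing K] [Group G] [AddCommGroup A] [Module K A]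
    [DistribMulAction G A] (hsemi : ∀ g : G, Semi K (ac g : A ≃+ A)) (N : Subgroup G)
    (P : Submodule K A → Prop) (U : Submodule K A) : St N (MS N P U) := by
  intro g hg
  have : MS N P U ≤ cmp (ac g : A ≃+ A) (hsemi g) (MS N P U) := by
    unfold MS
    apply sSup_le
    intro V hV x hx
    have h1 : g • x ∈ V := hV.2.1.2.1 g hg x hx
    exact (le_sSup hV : V ≤ _) h1
  intro x hx
  exact this hx

theorem TU_mono_cl {K A : Type} [DivisionRing K] [AddCommGroup A] [Module K A] {U : Submodule K A}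
    {D T : Type} [DivisionRing D] [AddCommGroup T] [Module D T] (ev : T → U → A)
    {T₁ T₂ : Submodule D T} (h : T₁ ≤ T₂) : (TU ev T₁ : Submodule K A) ≤ TU ev T₂ := by
  unfold TU
  apply Submodule.span_mono
  rintro y ⟨t, ht, u, rfl⟩
  exact ⟨t, h ht, u, rfl⟩

theorem TU_fd_mem {K A : Type} [DivisionRing K] [AddCommGroup A] [Module K A]
    {U : Submodule K A}
    {D T : Type} [DivisionRing D] [AddCommGroup T] [Module D T] (ev : T → U → A)
    (w : A) (hw : w ∈ (TU ev (⊤ : Submodule D T) : Submodule K A)) :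
    ∃ T₃ : Submodule D T, FiniteDimensional D T₃ ∧ w ∈ (TU ev T₃ : Submodule K A) := by
  unfold TU at hw
  induction hw using Submodule.span_induction with
  | mem x h =>
    obtain ⟨t, _, u, rfl⟩ := h
    refine ⟨Submodule.span D {t}, inferInstance, ?_⟩
    exact Submodule.subset_span ⟨t, Submodule.mem_span_singleton_self t, u, rfl⟩
  | zero => exact ⟨⊥, inferInstance, Submodule.zero_mem _⟩
  | add x y _ _ hx hy =>
    obtain ⟨T1, h1, h2⟩ := hx
    obtain ⟨T2, h3, h4⟩ := hy
    refine ⟨T1 ⊔ T2, ?_, ?_⟩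
    · haveI := h1
      haveI := h3
      exact inferInstance
    · exact Submodule.add_mem _ (TU_mono_cl ev le_sup_left h2) (TU_mono_cl ev le_sup_right h4)
  | smul c x _ hx =>
    obtain ⟨T1, h1, h2⟩ := hx
    exact ⟨T1, h1, Submodule.smul_mem _ _ h2⟩

theorem TU_fd_le {K A : Type} [DivisionRing K] [AddCommGroup A] [Module K A]
    {U : Submodule K A}
    {D T : Type} [DivisionRing D] [AddCommGroup T] [Module D T] (ev : T → U → A)
    (W : Submodule K A) (hW : FiniteDimensional K W)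
    (hle : W ≤ (TU ev (⊤ : Submodule D T) : Submodule K A)) :
    ∃ T₃ : Submodule D T, FiniteDimensional D T₃ ∧ W ≤ (TU ev T₃ : Submodule K A) := by
  classical
  have hfg : W.FG := Module.Finite.iff_fg.1 hW
  obtain ⟨s, hs⟩ := hfg
  have key : ∀ s : Finset A, (∀ w ∈ s, w ∈ (TU ev (⊤ : Submodule D T) : Submodule K A)) →
      ∃ T₃ : Submodule D T, FiniteDimensional D T₃ ∧ ∀ w ∈ s, w ∈ (TU ev T₃ : Submodule K A) := by
    intro s
    induction s using Finset.induction_on with
    | empty =>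
      intro _
      exact ⟨⊥, inferInstance, fun w hw => absurd hw (Finset.notMem_empty w)⟩
    | insert a s _ ih =>
      intro h
      obtain ⟨T1, h1, h2⟩ := ih (fun w hw => h w (Finset.mem_insert_of_mem hw))
      obtain ⟨T2, h3, h4⟩ := TU_fd_mem (K := K) ev a (h a (Finset.mem_insert_self a s))
      refine ⟨T1 ⊔ T2, ?_, ?_⟩
      · haveI := h1
        haveI := h3
        exact inferInstance
      · intro w hw
        rcases Finset.mem_insert.1 hw with rfl | hw
        · exact TU_mono_cl ev le_sup_right h4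
        · exact TU_mono_cl ev le_sup_left (h2 w hw)
  obtain ⟨T3, h1, h2⟩ := key s (fun w hw => hle (by rw [← hs]; exact Submodule.subset_span hw))
  refine ⟨T3, h1, ?_⟩
  rw [← hs, Submodule.span_le]
  exact h2

theorem clifford {K G A : Type} [DivisionRing K] [Group G] [AddCommGroup A] [Module K A]
    [DistribMulAction G A] (hsemi : ∀ g : G, Semi K (ac g : A ≃+ A)) (N : Subgroup G)
    (hN : N.Normal) (U : Submodule K A) (hU : Crit N U) (hUs : Simp N U)
    (hUf : FiniteDimensional K U) (L : Subgroup G) (hL : ∀ g ∈ L, Sim N U (gm g U))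
    (hML : St L (MS N (Simp N) U)) (S : Finset A)
    (hS : Submodule.span K {y : A | ∃ g ∈ L, ∃ s ∈ S, y = g • s} = MS N (Simp N) U)
    {Q' : Type} [Group Q'] (ρ' : L →* Q') (hρ' : ∀ g : L, ρ' g = 1 → (g : G) ∈ N)
    (hMain : MainFor Q') : TOn L (MS N (Simp N) U) := by
  have hU0 : U ≠ ⊥ := hU.1
  have hUst : St N U := hU.2.1
  have hMst : St N (MS N (Simp N) U) := St_MS hsemi N _ U
  obtain ⟨D, T, iD, iT, iM, ev, hC⟩ := cliff_exists N U (MS N (Simp N) U) hU0 hUst hUs hMst
  have hM : MS N (Simp N) U ≤ (TU ev (⊤ : Submodule D T)) := by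
    unfold MS
    apply sSup_le
    rintro V ⟨hV1, hV2, U1, hU1, hU1s, f, hf, hf0, hfV⟩
    have hU1U : U1 = U := by
      rcases hUs U1 hU1 hU1s with h | h
      · exfalso
        apply hf0
        subst h
        ext x
        have hx : x = 0 := Subsingleton.elim _ _
        rw [hx, map_zero, map_zero]
      · exact h
    subst hU1U
    have hVM : V ≤ MS N (Simp N) U1 := by
      unfold MS
      exact le_sSup ⟨hV1, hV2, U1, hU1, hU1s, f, hf, hf0, hfV⟩
    obtain ⟨t, ht⟩ := hC.full f hf (fun x => hVM (hfV x))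
    have hrV : LinearMap.range f ≤ V := by
      rintro y ⟨x, rfl⟩
      exact hfV x
    have hrs : St N (LinearMap.range f) := by
      rintro g hg y ⟨x, rfl⟩
      exact ⟨⟨g • (x : A), hUst g hg x x.2⟩, hf g hg x _ rfl⟩
    have hr : LinearMap.range f = V := by
      rcases hV1 _ hrV hrs with h | h
      · exact absurd (LinearMap.range_eq_bot.1 h) hf0
      · exact h
    rw [← hr]
    rintro y ⟨x, rfl⟩
    exact Submodule.subset_span ⟨t, Submodule.mem_top, x, (ht x).symm⟩
  obtain ⟨G', iG, iA, π, hπ, hsemi', hα, hsc⟩ :=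
    cliff_group hsemi hN hU0 hUst hUs hUf hC L hML hL
  have sys : Sys D G' T Q' (ρ'.comp π) :=
    { semi := hsemi'
      scal := fun g' h => hsc g' (hρ' (π g') h)
      fg := cliff_fg hsemi hU0 hUst hUs hC hM L S hS G' π hπ hsemi' hα }
  obtain ⟨l, d, hT⟩ := hMain D G' T (ρ'.comp π) sys
  refine ⟨l, finrank K U * d, ?_⟩
  intro g hg W hWM hWf hWs
  obtain ⟨g', hg'⟩ := hπ ⟨g, hg⟩
  have hg'' : ((π g' : L) : G) = g := by rw [hg']
  obtain ⟨α, hα'⟩ := hα g'
  rw [hg''] at hα'
  obtain ⟨T3, hT3, hWT3⟩ := TU_fd_le ev W hWf (hWM.trans hM)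
  let s : Set A := {y | ∃ n ∈ N, ∃ w ∈ W, y = n • w}
  let M1 : Submodule K A := Submodule.span K s
  have hW1 : W ≤ M1 := by
    intro w hw
    exact Submodule.subset_span ⟨1, N.one_mem, w, hw, (one_smul _ _).symm⟩
  have hM1N : St N M1 := by
    intro n hn
    apply St_span hsemi n s M1
    rintro y ⟨n', hn', w, hw, rfl⟩
    rw [← mul_smul]
    exact Submodule.subset_span ⟨n * n', N.mul_mem hn hn', w, hw, rfl⟩
  have hWs1 : ∀ w ∈ W, g • w ∈ W := fun w hw => (hWs w).2 hw
  have hWs2 : ∀ w ∈ W, g⁻¹ • w ∈ W := fun w hw => by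
    apply (hWs (g⁻¹ • w)).1
    show g • g⁻¹ • w ∈ W
    rw [smul_inv_smul]
    exact hw
  have hM1g : ∀ x ∈ M1, g • x ∈ M1 := by
    apply St_span hsemi g s M1
    rintro y ⟨n', hn', w, hw, rfl⟩
    have : g • n' • w = (g * n' * g⁻¹) • (g • w) := by
      rw [smul_smul, smul_smul]; congr 1; group
    rw [this]
    exact Submodule.subset_span ⟨g * n' * g⁻¹, hN.conj_mem n' hn' g, g • w, hWs1 w hw, rfl⟩
  have hM1g' : ∀ x ∈ M1, g⁻¹ • x ∈ M1 := by
    apply St_span hsemi g⁻¹ s M1
    rintro y ⟨n', hn', w, hw, rfl⟩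
    have : g⁻¹ • n' • w = (g⁻¹ * n' * g⁻¹⁻¹) • (g⁻¹ • w) := by
      rw [smul_smul, smul_smul]; congr 1; group
    rw [this]
    exact Submodule.subset_span ⟨g⁻¹ * n' * g⁻¹⁻¹, hN.conj_mem n' hn' g⁻¹, g⁻¹ • w, hWs2 w hw, rfl⟩
  have hM1s : Stable (ac g : A ≃+ A) M1 := by
    intro x
    constructor
    · intro h
      have h1 : g • x ∈ M1 := h
      have h2 := hM1g' _ h1
      rwa [inv_smul_smul] at h2
    · intro h
      exact hM1g x h
  have hM1M : M1 ≤ MS N (Simp N) U := by
    rw [Submodule.span_le]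
    rintro y ⟨n', hn', w, hw, rfl⟩
    exact hMst n' hn' w (hWM hw)
  have hTUN : ∀ n ∈ N, ∀ x ∈ (TU ev T3 : Submodule K A), n • x ∈ (TU ev T3 : Submodule K A) := by
    intro n hn
    apply St_span hsemi n
    rintro y ⟨t, ht, u, rfl⟩
    have : n • ev t u = ev t ⟨n • (u : A), hUst n hn u u.2⟩ := (hC.eqv t n hn u _ rfl).symm
    rw [this]
    exact Submodule.subset_span ⟨t, ht, _, rfl⟩
  have hM1T3 : M1 ≤ (TU ev T3 : Submodule K A) := by
    rw [Submodule.span_le]
    rintro y ⟨n', hn', w, hw, rfl⟩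
    exact hTUN n' hn' w (hWT3 hw)
  have hT3f : FiniteDimensional K (TU ev T3 : Submodule K A) :=
    (cliff_dim hUf hC ⊥ T3 bot_le hT3 (finrank D T3) (Nat.le_add_left _ _)).1
  have hM1f : FiniteDimensional K M1 := Submodule.finiteDimensional_of_le hM1T3
  obtain ⟨T2, hT2, hTU⟩ := cliff_gen hU0 hUst hUs hC hM M1 hM1M hM1N
  have hT2f : FiniteDimensional D T2 := cliff_fd hU0 hUst hUs hC M1 hM1f T2
    (fun t ht => (hT2 t).1 ht)
  have hT2s : Stable (ac g' : T ≃+ T) T2 := by
    intro t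
    show g' • t ∈ T2 ↔ t ∈ T2
    rw [hT2, hT2]
    constructor
    · intro h u
      have h1 := h (α u)
      rw [hα'] at h1
      exact (hM1s (ev t u)).1 h1
    · intro h u
      obtain ⟨v, rfl⟩ := α.surjective u
      rw [hα']
      exact hM1g _ (h v)
  have hb := hT g' T2 hT2f hT2s
  have hb2 := cliff_rad hU0 hUst hUs hUf hC hM g (hsemi g) (ac g' : T ≃+ T) (hsemi' g') α hα'
    T2 hT2f hT2s l d hb
  rw [hTU] at hb2
  haveI := hM1f
  exact bdd_mono le_rfl le_rfl hW1 hWs hM1s hb2

end Pool.Agent.Helper933.HC
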