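import Pool.Agent.Helper933.HC.Defs

set_option autoImplicit false

namespace Pool.Agent.Helper933.HC
open Module


theorem crit_sub {K G A : Type} [DivisionRing K] [Group G] [AddCommGroup A] [Module K A]
    [DistribMulAction G A] (N : Subgroup G) {U V : Submodule K A} (hU : Crit N U) (hV : V ≤ U)
    (hV0 : V ≠ ⊥) (hSt : St N V) : Crit N V ∧ Sim N V U ∧ Sim N U V := by
  have he : Equi N V.subtype := fun g _ x y h => h
  have h0 : V.subtype ≠ 0 := by
    intro h
    apply hV0
    rw [Submodule.eq_bot_iff]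
    intro x hx
    exact LinearMap.congr_fun h ⟨x, hx⟩
  refine ⟨⟨hV0, hSt, fun V' hV' hst f hf hf0 => hU.2.2 V' (hV'.trans hV) hst f hf hf0⟩,
    ⟨V, le_rfl, hSt, V.subtype, he, h0, fun x => hV x.2⟩,
    ⟨V, hV, hSt, V.subtype, he, h0, fun x => x.2⟩⟩

end Pool.Agent.Helper933.HC
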