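import Pool.Agent.Helper933.HC.Defs
import Pool.Agent.Helper933.HC.P_mem_gm

set_option autoImplicit false

namespace Pool.Agent.Helper933.HC
open Module


theorem gm_basic {K G A : Type} [DivisionRing K] [Group G] [AddCommGroup A] [Module K A]
    [DistribMulAction G A] (hsemi : ∀ g : G, Semi K (ac g : A ≃+ A)) (V W : Submodule K A)
    (g h : G) :
    (gm (1 : G) V : Submodule K A) = V ∧ (gm (g * h) V : Submodule K A) = gm g (gm h V) ∧
      (V ≤ W ↔ (gm g V : Submodule K A) ≤ gm g W) ∧
      (V = ⊥ ↔ (gm g V : Submodule K A) = ⊥) := by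
  have h1 : (gm (1 : G) V : Submodule K A) = V := by
    ext x
    rw [mem_gm 1 (hsemi 1), inv_one, one_smul]
  have h3 : ∀ V W : Submodule K A, V ≤ W ↔ (gm g V : Submodule K A) ≤ gm g W := by
    intro V W
    constructor
    · intro hVW x hx
      rw [mem_gm g (hsemi g)] at hx ⊢
      exact hVW hx
    · intro hVW x hx
      have h4 : g • x ∈ (gm g V : Submodule K A) := by
        rw [mem_gm g (hsemi g), inv_smul_smul]
        exact hx
      have h5 := hVW h4
      rw [mem_gm g (hsemi g), inv_smul_smul] at h5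
      exact h5
  refine ⟨h1, ?_, h3 V W, ?_⟩
  · ext x
    rw [mem_gm _ (hsemi _), mem_gm _ (hsemi _), mem_gm _ (hsemi _), mul_inv_rev, mul_smul]
  · have hbot : (gm g (⊥ : Submodule K A) : Submodule K A) = ⊥ := by
      ext x
      rw [mem_gm g (hsemi g), Submodule.mem_bot, Submodule.mem_bot, smul_eq_zero_iff_eq]
    constructor
    · intro hV
      rw [hV, hbot]
    · intro hV
      rw [eq_bot_iff, h3 V ⊥, hV]
      exact bot_le

end Pool.Agent.Helper933.HC
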