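import Pool.Agent.Helper933.HC.Defs

set_option autoImplicit false

namespace Pool.Agent.Helper933.HC
open Module


theorem hb_conj {G : Type} [Group G] (T : Set G) (x : G) (hx : ∀ t, t ∈ T ↔ x * t * x⁻¹ ∈ T)
    (j : ℕ) (t : G) : (t ∈ T ↔ x ^ j * t * (x ^ j)⁻¹ ∈ T) := by
  induction j generalizing t with
  | zero => simp
  | succ j ih =>
    rw [ih t, hx (x ^ j * t * (x ^ j)⁻¹)]
    have : x * (x ^ j * t * (x ^ j)⁻¹) * x⁻¹ = x ^ (j + 1) * t * (x ^ (j + 1))⁻¹ := by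
      rw [pow_succ']; group
    rw [this]

theorem hb_conj' {G : Type} [Group G] (T : Set G) (x : G) (hx : ∀ t, t ∈ T ↔ x * t * x⁻¹ ∈ T)
    (j : ℕ) (t : G) (ht : t ∈ T) : (x ^ j)⁻¹ * t * x ^ j ∈ T := by
  rw [hb_conj T x hx j]
  have : x ^ j * ((x ^ j)⁻¹ * t * x ^ j) * (x ^ j)⁻¹ = t := by group
  rwa [this]

theorem hb_span {K G A : Type} [DivisionRing K] [Group G] [AddCommGroup A] [Module K A]
    [DistribMulAction G A] (hsemi : ∀ g : G, Semi K (ac g : A ≃+ A)) (g : G) (S : Set A)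
    (N : Submodule K A) (h : ∀ y ∈ S, g • y ∈ N) (y : A) (hy : y ∈ Submodule.span K S) :
    g • y ∈ N := by
  obtain ⟨σ, hσ⟩ := hsemi g
  induction hy using Submodule.span_induction with
  | mem y hy => exact h y hy
  | zero => rw [smul_zero]; exact N.zero_mem
  | add a b _ _ ha hb => rw [smul_add]; exact N.add_mem ha hb
  | smul k a _ ha =>
    have h1 : g • (k • a) = σ k • (g • a) := hσ k a
    rw [h1]; exact N.smul_mem _ ha

/-- the filtration -/
def hbM {K G A : Type} [DivisionRing K] [Group G] [AddCommGroup A] [Module K A]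
    [DistribMulAction G A] (x : G) (M₀ : Submodule K A) (i : ℕ) : Submodule K A :=
  Submodule.span K {y : A | ∃ j, j < i ∧ ∃ m ∈ M₀, y = x ^ j • m}

theorem hbM_mono {K G A : Type} [DivisionRing K] [Group G] [AddCommGroup A] [Module K A]
    [DistribMulAction G A] (x : G) (M₀ : Submodule K A) {i i' : ℕ} (h : i ≤ i') :
    hbM x M₀ i ≤ hbM x M₀ i' := by
  apply Submodule.span_mono
  rintro y ⟨j, hj, m, hm, rfl⟩
  exact ⟨j, lt_of_lt_of_le hj h, m, hm, rfl⟩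

theorem hbM_succ {K G A : Type} [DivisionRing K] [Group G] [AddCommGroup A] [Module K A]
    [DistribMulAction G A] (hsemi : ∀ g : G, Semi K (ac g : A ≃+ A)) (x : G) (M₀ : Submodule K A)
    (i : ℕ) (y : A) (hy : y ∈ hbM x M₀ (i + 1)) :
    ∃ u ∈ hbM x M₀ i, ∃ m ∈ M₀, y = u + x ^ i • m := by
  unfold hbM at hy
  induction hy using Submodule.span_induction with
  | mem y hy =>
    obtain ⟨j, hj, m, hm, rfl⟩ := hy
    rcases Nat.lt_succ_iff_lt_or_eq.1 hj with h | h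
    · exact ⟨x ^ j • m, Submodule.subset_span ⟨j, h, m, hm, rfl⟩, 0, M₀.zero_mem, by simp⟩
    · subst h
      exact ⟨0, Submodule.zero_mem _, m, hm, by simp⟩
  | zero => exact ⟨0, Submodule.zero_mem _, 0, M₀.zero_mem, by simp⟩
  | add a b _ _ ha hb =>
    obtain ⟨u, hu, m, hm, rfl⟩ := ha
    obtain ⟨u', hu', m', hm', rfl⟩ := hb
    refine ⟨u + u', Submodule.add_mem _ hu hu', m + m', M₀.add_mem hm hm', ?_⟩
    rw [smul_add]; abel
  | smul k a _ ha =>
    obtain ⟨u, hu, m, hm, rfl⟩ := ha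
    obtain ⟨σ, hσ⟩ := hsemi (x ^ i)
    refine ⟨k • u, Submodule.smul_mem _ _ hu, σ.symm k • m, M₀.smul_mem _ hm, ?_⟩
    have h1 : x ^ i • (σ.symm k • m) = σ (σ.symm k) • (x ^ i • m) := hσ (σ.symm k) m
    rw [h1, RingEquiv.apply_symm_apply, smul_add]

theorem hbM_T {K G A : Type} [DivisionRing K] [Group G] [AddCommGroup A] [Module K A]
    [DistribMulAction G A] (hsemi : ∀ g : G, Semi K (ac g : A ≃+ A)) (T : Set G) (x : G)
    (hx : ∀ t, t ∈ T ↔ x * t * x⁻¹ ∈ T) (M₀ : Submodule K A)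
    (hM₀ : ∀ g ∈ T, ∀ m ∈ M₀, g • m ∈ M₀) (i : ℕ) (g : G) (hg : g ∈ T) (y : A)
    (hy : y ∈ hbM x M₀ i) : g • y ∈ hbM x M₀ i := by
  refine hb_span hsemi g _ _ ?_ y hy
  rintro _ ⟨j, hj, m, hm, rfl⟩
  apply Submodule.subset_span
  refine ⟨j, hj, ((x ^ j)⁻¹ * g * x ^ j) • m, hM₀ _ (hb_conj' T x hx j g hg) m hm, ?_⟩
  rw [smul_smul, smul_smul]
  congr 1
  group

theorem hbM_x {K G A : Type} [DivisionRing K] [Group G] [AddCommGroup A] [Module K A]
    [DistribMulAction G A] (hsemi : ∀ g : G, Semi K (ac g : A ≃+ A)) (x : G)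
    (M₀ : Submodule K A) (i : ℕ) (y : A)
    (hy : y ∈ hbM x M₀ i) : x • y ∈ hbM x M₀ (i + 1) := by
  refine hb_span hsemi x _ _ ?_ y hy
  rintro _ ⟨j, hj, m, hm, rfl⟩
  apply Submodule.subset_span
  exact ⟨j + 1, by omega, m, hm, by rw [smul_smul, pow_succ']⟩

/-- the leading coefficients -/
def hbL {K G A : Type} [DivisionRing K] [Group G] [AddCommGroup A] [Module K A]
    [DistribMulAction G A] (hsemi : ∀ g : G, Semi K (ac g : A ≃+ A)) (x : G)
    (M₀ : Submodule K A) (i : ℕ) (V : Submodule K A) : Submodule K A where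
  carrier := {m | m ∈ M₀ ∧ ∃ v ∈ V, v - x ^ i • m ∈ hbM x M₀ i}
  zero_mem' := ⟨M₀.zero_mem, 0, V.zero_mem, by simp⟩
  add_mem' := by
    rintro a b ⟨ha, v, hv, h⟩ ⟨hb, v', hv', h'⟩
    refine ⟨M₀.add_mem ha hb, v + v', V.add_mem hv hv', ?_⟩
    have e : v + v' - x ^ i • (a + b) = (v - x ^ i • a) + (v' - x ^ i • b) := by
      rw [smul_add]; abel
    rw [e]
    exact Submodule.add_mem _ h h'
  smul_mem' := by
    rintro k a ⟨ha, v, hv, h⟩
    obtain ⟨σ, hσ⟩ := hsemi (x ^ i)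
    refine ⟨M₀.smul_mem _ ha, σ k • v, V.smul_mem _ hv, ?_⟩
    have h1 : x ^ i • (k • a) = σ k • (x ^ i • a) := hσ k a
    rw [h1, ← smul_sub]
    exact Submodule.smul_mem _ _ h

theorem hbL_mono {K G A : Type} [DivisionRing K] [Group G] [AddCommGroup A] [Module K A]
    [DistribMulAction G A] (hsemi : ∀ g : G, Semi K (ac g : A ≃+ A)) (x : G)
    (M₀ : Submodule K A) (i : ℕ) {V V' : Submodule K A} (h : V ≤ V') :
    hbL hsemi x M₀ i V ≤ hbL hsemi x M₀ i V' := by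
  rintro m ⟨hm, v, hv, hd⟩
  exact ⟨hm, v, h hv, hd⟩

theorem hbL_succ {K G A : Type} [DivisionRing K] [Group G] [AddCommGroup A] [Module K A]
    [DistribMulAction G A] (hsemi : ∀ g : G, Semi K (ac g : A ≃+ A)) (x : G)
    (M₀ : Submodule K A) (V : Submodule K A) (hV : ∀ v ∈ V, x • v ∈ V) {i i' : ℕ} (h : i ≤ i') :
    hbL hsemi x M₀ i V ≤ hbL hsemi x M₀ i' V := by
  induction h with
  | refl => exact le_rfl
  | step _ ih =>
    refine ih.trans ?_
    rintro m ⟨hm, v, hv, hd⟩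
    refine ⟨hm, x • v, hV v hv, ?_⟩
    have := hbM_x hsemi x M₀ _ _ hd
    rwa [smul_sub, smul_smul, ← pow_succ'] at this

theorem hbL_T {K G A : Type} [DivisionRing K] [Group G] [AddCommGroup A] [Module K A]
    [DistribMulAction G A] (hsemi : ∀ g : G, Semi K (ac g : A ≃+ A)) (T : Set G) (x : G)
    (hx : ∀ t, t ∈ T ↔ x * t * x⁻¹ ∈ T) (M₀ : Submodule K A)
    (hM₀ : ∀ g ∈ T, ∀ m ∈ M₀, g • m ∈ M₀) (i : ℕ) (V : Submodule K A)
    (hV : ∀ g ∈ T, ∀ v ∈ V, g • v ∈ V) (t : G) (ht : t ∈ T) (m : A)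
    (hm : m ∈ hbL hsemi x M₀ i V) : t • m ∈ hbL hsemi x M₀ i V := by
  obtain ⟨hm, v, hv, hd⟩ := hm
  have hg : x ^ i * t * (x ^ i)⁻¹ ∈ T := (hb_conj T x hx i t).1 ht
  refine ⟨hM₀ t ht m hm, (x ^ i * t * (x ^ i)⁻¹) • v, hV _ hg v hv, ?_⟩
  have h1 := hbM_T hsemi T x hx M₀ hM₀ i _ hg _ hd
  rw [smul_sub, smul_smul] at h1
  have h2 : x ^ i * t * (x ^ i)⁻¹ * x ^ i = x ^ i * t := by group
  rw [h2] at h1
  rwa [smul_smul]

theorem hb_eq {K G A : Type} [DivisionRing K] [Group G] [AddCommGroup A] [Module K A]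
    [DistribMulAction G A] (hsemi : ∀ g : G, Semi K (ac g : A ≃+ A)) (x : G)
    (M₀ : Submodule K A) (V V' : Submodule K A) (hle : V ≤ V')
    (hV' : V' ≤ Submodule.span K {y : A | ∃ i : ℕ, ∃ m ∈ M₀, y = x ^ i • m})
    (h : ∀ i, hbL hsemi x M₀ i V' ≤ hbL hsemi x M₀ i V) : V' = V := by
  have key : ∀ i : ℕ, ∀ v' ∈ V', v' ∈ hbM x M₀ i → v' ∈ V := by
    intro i
    induction i with
    | zero =>
      intro v' _ h0
      have h1 : hbM x M₀ 0 = ⊥ := by
        unfold hbM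
        rw [Submodule.span_eq_bot]
        rintro y ⟨j, hj, _⟩
        omega
      rw [h1, Submodule.mem_bot] at h0
      rw [h0]; exact V.zero_mem
    | succ i ih =>
      intro v' hv' hi
      obtain ⟨u, hu, m, hm, rfl⟩ := hbM_succ hsemi x M₀ i v' hi
      have hmL : m ∈ hbL hsemi x M₀ i V' := ⟨hm, _, hv', by
        rw [add_sub_cancel_right]; exact hu⟩
      obtain ⟨_, v, hv, hd⟩ := h i hmL
      have h1 : (u + x ^ i • m) - v ∈ V := by
        apply ih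
        · exact Submodule.sub_mem _ hv' (hle hv)
        · have e : (u + x ^ i • m) - v = u - (v - x ^ i • m) := by abel
          rw [e]
          exact Submodule.sub_mem _ hu hd
      have h2 := V.add_mem h1 hv
      rwa [sub_add_cancel] at h2
  have hex : ∀ y ∈ Submodule.span K {y : A | ∃ i : ℕ, ∃ m ∈ M₀, y = x ^ i • m},
      ∃ i, y ∈ hbM x M₀ i := by
    intro y hy
    induction hy using Submodule.span_induction with
    | mem y hy =>
      obtain ⟨i, m, hm, rfl⟩ := hy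
      exact ⟨i + 1, Submodule.subset_span ⟨i, by omega, m, hm, rfl⟩⟩
    | zero => exact ⟨0, Submodule.zero_mem _⟩
    | add a b _ _ ha hb =>
      obtain ⟨i, hi⟩ := ha
      obtain ⟨j, hj⟩ := hb
      exact ⟨max i j, Submodule.add_mem _ (hbM_mono x M₀ (le_max_left i j) hi)
        (hbM_mono x M₀ (le_max_right i j) hj)⟩
    | smul k a _ ha =>
      obtain ⟨i, hi⟩ := ha
      exact ⟨i, Submodule.smul_mem _ _ hi⟩
  apply le_antisymm _ hle
  intro v' hv'
  obtain ⟨i, hi⟩ := hex v' (hV' hv')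
  exact key i v' hv' hi

/-- Hilbert basis theorem, one-sided operator form. -/
theorem hb_step {K G A : Type} [DivisionRing K] [Group G] [AddCommGroup A] [Module K A]
    [DistribMulAction G A] (hsemi : ∀ g : G, Semi K (ac g : A ≃+ A)) (T : Set G) (x : G)
    (hx : ∀ t, t ∈ T ↔ x * t * x⁻¹ ∈ T) (M₀ : Submodule K A)
    (hM₀ : ∀ g ∈ T, ∀ m ∈ M₀, g • m ∈ M₀) (hN : NoethFor T M₀) :
    NoethFor (insert x T) (Submodule.span K {y : A | ∃ i : ℕ, ∃ m ∈ M₀, y = x ^ i • m}) := by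
  classical
  intro f hf hst
  have hT : ∀ n, ∀ g ∈ T, ∀ v ∈ f n, g • v ∈ f n := fun n g hg v hv =>
    (hst n).2 g (Set.mem_insert_of_mem _ hg) v hv
  have hX : ∀ n, ∀ v ∈ f n, x • v ∈ f n := fun n v hv => (hst n).2 x (Set.mem_insert _ _) v hv
  have hLM : ∀ i n, hbL hsemi x M₀ i (f n) ≤ M₀ := fun i n m hm => hm.1
  -- diagonal
  obtain ⟨n0, hn0⟩ := hN (fun n => hbL hsemi x M₀ n (f n))
    (fun a b hab => (hbL_succ hsemi x M₀ (f a) (hX a) hab).trans
      (hbL_mono hsemi x M₀ b (hf hab)))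
    (fun n => ⟨hLM n n, fun g hg v hv =>
      hbL_T hsemi T x hx M₀ hM₀ n (f n) (hT n) g hg v hv⟩)
  -- rows
  have hrow : ∀ i, ∃ Ni, ∀ m, Ni ≤ m → hbL hsemi x M₀ i (f m) = hbL hsemi x M₀ i (f Ni) := by
    intro i
    exact hN (fun n => hbL hsemi x M₀ i (f n)) (fun a b hab => hbL_mono hsemi x M₀ i (hf hab))
      (fun n => ⟨hLM i n, fun g hg v hv =>
        hbL_T hsemi T x hx M₀ hM₀ i (f n) (hT n) g hg v hv⟩)
  choose Ni hNi using hrow
  refine ⟨max n0 ((Finset.range n0).sup Ni), ?_⟩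
  set N := max n0 ((Finset.range n0).sup Ni) with hNdef
  intro n hn
  apply hb_eq hsemi x M₀ (f N) (f n) (hf hn) (hst n).1
  intro i
  by_cases hi : i < n0
  · have h1 : Ni i ≤ N := (Finset.le_sup (f := Ni) (Finset.mem_range.2 hi)).trans (le_max_right _ _)
    rw [hNi i n (h1.trans hn), hNi i N h1]
  · have hi' : n0 ≤ i := not_lt.1 hi
    have hN0 : n0 ≤ N := le_max_left _ _
    calc hbL hsemi x M₀ i (f n)
        ≤ hbL hsemi x M₀ (max i n) (f (max i n)) :=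
          (hbL_succ hsemi x M₀ (f n) (hX n) (le_max_left i n)).trans
            (hbL_mono hsemi x M₀ _ (hf (le_max_right i n)))
      _ = hbL hsemi x M₀ n0 (f n0) := hn0 (max i n) (hi'.trans (le_max_left _ _))
      _ ≤ hbL hsemi x M₀ i (f N) :=
          (hbL_succ hsemi x M₀ (f n0) (hX n0) hi').trans (hbL_mono hsemi x M₀ _ (hf hN0))

end Pool.Agent.Helper933.HC
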