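import Pool.Agent.Helper933.HC.Defs
import Pool.Agent.Helper933.HC.P_hb_step

set_option autoImplicit false

namespace Pool.Agent.Helper933.HC
open Module


theorem hb2_smul {K G A : Type} [DivisionRing K] [Group G] [AddCommGroup A] [Module K A]
    [DistribMulAction G A] (hsemi : ∀ g : G, Semi K (ac g : A ≃+ A)) (g : G) (k : K) (v : A)
    (P : Submodule K A) (h : g • v ∈ P) : g • (k • v) ∈ P := by
  obtain ⟨σ, hσ⟩ := hsemi g
  have h1 : g • (k • v) = σ k • (g • v) := hσ k v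
  rw [h1]
  exact P.smul_mem _ h

theorem hb2_span {K G A : Type} [DivisionRing K] [Group G] [AddCommGroup A] [Module K A]
    [DistribMulAction G A] (hsemi : ∀ g : G, Semi K (ac g : A ≃+ A)) (g : G) (S : Set A)
    (P : Submodule K A) (h : ∀ y ∈ S, g • y ∈ P) : ∀ v ∈ Submodule.span K S, g • v ∈ P := by
  intro v hv
  induction hv using Submodule.span_induction with
  | mem y hy => exact h y hy
  | zero => rw [smul_zero]; exact P.zero_mem
  | add a b _ _ ha hb => rw [smul_add]; exact P.add_mem ha hb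
  | smul k a _ ha => exact hb2_smul hsemi g k a P ha

theorem hb_two {K G A : Type} [DivisionRing K] [Group G] [AddCommGroup A] [Module K A]
    [DistribMulAction G A] (hsemi : ∀ g : G, Semi K (ac g : A ≃+ A)) (T : Set G) (x : G)
    (hx : ∀ t, t ∈ T ↔ x * t * x⁻¹ ∈ T) (M₀ : Submodule K A)
    (hM₀ : ∀ g ∈ T, ∀ m ∈ M₀, g • m ∈ M₀) (hN : NoethFor T M₀) :
    NoethFor (insert x (insert x⁻¹ T))
      (Submodule.span K {y : A | ∃ i : ℤ, ∃ m ∈ M₀, y = x ^ i • m}) := by
  intro f hmono hf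
  set Mp : Submodule K A := Submodule.span K {y : A | ∃ i : ℕ, ∃ m ∈ M₀, y = x ^ i • m} with hMp
  have hstep := hb_step hsemi T x hx M₀ hM₀ hN
  have hxMp : ∀ v ∈ Mp, x • v ∈ Mp := by
    refine hb2_span hsemi x _ Mp ?_
    rintro y ⟨i, m, hm, rfl⟩
    refine Submodule.subset_span ⟨i + 1, m, hm, ?_⟩
    rw [pow_succ', mul_smul]
  have hxNMp : ∀ (N : ℕ), ∀ v ∈ Mp, x ^ N • v ∈ Mp := by
    intro N
    induction N with
    | zero => intro v hv; simpa using hv
    | succ N ih =>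
      intro v hv
      rw [pow_succ', mul_smul]
      exact hxMp _ (ih v hv)
  have hTconj : ∀ (i : ℕ) (g : G), g ∈ T → (x ^ i)⁻¹ * g * x ^ i ∈ T := by
    intro i
    induction i with
    | zero => intro g hg; simpa using hg
    | succ i ih =>
      intro g hg
      have h1 := ih g hg
      rw [hx]
      have : x * ((x ^ (i + 1))⁻¹ * g * x ^ (i + 1)) * x⁻¹ = (x ^ i)⁻¹ * g * x ^ i := by
        rw [pow_succ]; group
      rw [this]
      exact h1
  have hTMp : ∀ g ∈ T, ∀ v ∈ Mp, g • v ∈ Mp := by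
    intro g hg
    refine hb2_span hsemi g _ Mp ?_
    rintro y ⟨i, m, hm, rfl⟩
    refine Submodule.subset_span ⟨i, ((x ^ i)⁻¹ * g * x ^ i) • m, hM₀ _ (hTconj i g hg) m hm, ?_⟩
    rw [← mul_smul, ← mul_smul]
    congr 1
    group
  obtain ⟨n, hn⟩ := hstep (fun k => f k ⊓ Mp)
    (fun a b hab => inf_le_inf_right Mp (hmono hab))
    (by
      intro k
      refine ⟨inf_le_right, ?_⟩
      intro g hg y hy
      obtain ⟨hy1, hy2⟩ := Submodule.mem_inf.mp hy
      rcases Set.mem_insert_iff.mp hg with rfl | hgT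
      · exact Submodule.mem_inf.mpr ⟨(hf k).2 _ (Set.mem_insert _ _) y hy1, hxMp y hy2⟩
      · exact Submodule.mem_inf.mpr
          ⟨(hf k).2 g (Set.mem_insert_of_mem _ (Set.mem_insert_of_mem _ hgT)) y hy1,
            hTMp g hgT y hy2⟩)
  refine ⟨n, fun m hm => le_antisymm ?_ (hmono hm)⟩
  intro v hv
  have hvM : v ∈ Submodule.span K {y : A | ∃ i : ℤ, ∃ m ∈ M₀, y = x ^ i • m} := (hf m).1 hv
  have hex : ∃ N : ℕ, x ^ N • v ∈ Mp := by
    clear hv
    induction hvM using Submodule.span_induction with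
    | mem y hy =>
      obtain ⟨i, m', hm', rfl⟩ := hy
      refine ⟨i.natAbs, Submodule.subset_span ⟨((i.natAbs : ℤ) + i).toNat, m', hm', ?_⟩⟩
      rw [← mul_smul, ← zpow_natCast, ← zpow_add, ← zpow_natCast, Int.toNat_of_nonneg (by omega)]
    | zero => exact ⟨0, by rw [smul_zero]; exact Mp.zero_mem⟩
    | add a b _ _ ha hb =>
      obtain ⟨N1, h1⟩ := ha
      obtain ⟨N2, h2⟩ := hb
      refine ⟨N1 + N2, ?_⟩
      rw [smul_add]
      refine Mp.add_mem ?_ ?_
      · rw [add_comm N1 N2, pow_add, mul_smul]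
        exact hxNMp N2 _ h1
      · rw [pow_add, mul_smul]
        exact hxNMp N1 _ h2
    | smul k a _ ha =>
      obtain ⟨N, hN'⟩ := ha
      exact ⟨N, hb2_smul hsemi (x ^ N) k a Mp hN'⟩
  obtain ⟨N, hNv⟩ := hex
  have hfx : ∀ (k N : ℕ), ∀ v ∈ f k, x ^ N • v ∈ f k := by
    intro k N
    induction N with
    | zero => intro v hv; simpa using hv
    | succ N ih =>
      intro v hv
      rw [pow_succ', mul_smul]
      exact (hf k).2 x (Set.mem_insert _ _) _ (ih v hv)
  have hfx' : ∀ (k N : ℕ), ∀ v ∈ f k, (x⁻¹) ^ N • v ∈ f k := by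
    intro k N
    induction N with
    | zero => intro v hv; simpa using hv
    | succ N ih =>
      intro v hv
      rw [pow_succ', mul_smul]
      exact (hf k).2 x⁻¹ (Set.mem_insert_of_mem _ (Set.mem_insert _ _)) _ (ih v hv)
  have h1 : x ^ N • v ∈ f m ⊓ Mp := Submodule.mem_inf.mpr ⟨hfx m N v hv, hNv⟩
  have h2 : f m ⊓ Mp = f n ⊓ Mp := hn m hm
  rw [h2] at h1
  have h3 := hfx' n N _ (Submodule.mem_inf.mp h1).1
  rw [← mul_smul, inv_pow, inv_mul_cancel, one_smul] at h3
  exact h3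

end Pool.Agent.Helper933.HC
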