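import Pool.Agent.Helper933.HC.Defs

set_option autoImplicit false

namespace Pool.Agent.Helper933.HC
open Module


section PcInd

/-- The maximal condition on subgroups. -/
abbrev MaxC (G : Type*) [Group G] : Prop := ∀ S : Subgroup G, S.FG

variable {G : Type*} [Group G]

theorem MaxC.fg (h : MaxC G) : Group.FG G := Group.fg_def.mpr (h ⊤)

theorem MaxC.sub (h : MaxC G) (S : Subgroup G) : Group.FG ↥S :=
  (Group.fg_iff_subgroup_fg S).mpr (h S)

theorem MaxC.of_injective {G' : Type*} [Group G'] (h : MaxC G) (f : G' →* G)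
    (hf : Function.Injective f) : MaxC G' := by
  intro S
  rw [← Group.fg_iff_subgroup_fg]
  have h1 : Group.FG ↥(S.map f) := h.sub _
  let e := (Subgroup.equivMapOfInjective S f hf).symm
  exact Group.fg_of_surjective (f := e.toMonoidHom) e.surjective

theorem MaxC.of_surjective {G' : Type*} [Group G'] (h : MaxC G) (f : G →* G')
    (hf : Function.Surjective f) : MaxC G' := by
  intro S
  rw [← Group.fg_iff_subgroup_fg]
  have h1 : Group.FG ↥(S.comap f) := h.sub _
  exact Group.fg_of_surjective (f := f.subgroupComap S)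
    (f.subgroupComap_surjective_of_surjective S hf)

theorem MaxC.wf (h : MaxC G) : WellFoundedGT (Subgroup G) := by
  rw [wellFoundedGT_iff_monotone_chain_condition]
  intro a
  obtain ⟨s, hs⟩ := h (⨆ n, a n)
  have hdir : Directed (· ≤ ·) a := a.monotone.directed_le
  have hmem : ∀ x ∈ s, ∃ n, x ∈ a n := by
    intro x hx
    have : x ∈ ⨆ n, a n := by rw [← hs]; exact Subgroup.subset_closure hx
    exact (Subgroup.mem_iSup_of_directed hdir).mp this
  choose! n hn using hmem
  refine ⟨s.sup n, fun m hm => le_antisymm (a.monotone hm) ?_⟩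
  refine (le_iSup a m).trans ?_
  rw [← hs, Subgroup.closure_le]
  intro x hx
  exact a.monotone (Finset.le_sup hx) (hn x hx)

theorem MaxC.exists_max (h : MaxC G) (𝒮 : Set (Subgroup G)) (hne : 𝒮.Nonempty) :
    ∃ M ∈ 𝒮, ∀ S ∈ 𝒮, M ≤ S → S ≤ M := by
  obtain ⟨M, hM, hmax⟩ := h.wf.wf.has_min 𝒮 hne
  refine ⟨M, hM, fun S hS hle => ?_⟩
  by_contra hc
  exact hmax S hS (lt_of_le_not_ge hle hc)

/-! ### Virtual covering -/

theorem zpow_conj_mem {S : Subgroup G} {t : G} (ht : t ∈ Subgroup.normalizer (S : Set G)) (k : ℤ)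
    {x : G} (hx : x ∈ S) : t ^ k * x * t ^ (-k) ∈ S := by
  have h := Subgroup.zpow_mem _ ht k
  have := (Subgroup.mem_normalizer_iff.mp h x).mp hx
  rwa [← zpow_neg] at this

theorem zpow_conj_mem' {S : Subgroup G} {t : G} (ht : t ∈ Subgroup.normalizer (S : Set G)) (k : ℤ)
    {x : G} (hx : x ∈ S) : t ^ (-k) * x * t ^ k ∈ S := by
  have := zpow_conj_mem ht (-k) hx
  rwa [neg_neg] at this

/-- The subgroup generated by `S` and an element normalising it. -/
def adj (S : Subgroup G) (t : G) (ht : t ∈ Subgroup.normalizer (S : Set G)) : Subgroup G where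
  carrier := {x | ∃ k : ℤ, t ^ (-k) * x ∈ S}
  one_mem' := ⟨0, by simp⟩
  mul_mem' := by
    rintro x y ⟨k, hk⟩ ⟨l, hl⟩
    refine ⟨k + l, ?_⟩
    have := S.mul_mem (zpow_conj_mem' ht l hk) hl
    convert this using 1
    rw [neg_add, add_comm, zpow_add]
    simp [mul_assoc]
  inv_mem' := by
    rintro x ⟨k, hk⟩
    refine ⟨-k, ?_⟩
    have := zpow_conj_mem ht k (S.inv_mem hk)
    convert this using 1
    simp [mul_assoc]

theorem mem_adj {S : Subgroup G} {t : G} {ht : t ∈ Subgroup.normalizer (S : Set G)} {x : G} :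
    x ∈ adj S t ht ↔ ∃ k : ℤ, t ^ (-k) * x ∈ S := Iff.rfl

theorem le_adj {S : Subgroup G} {t : G} {ht : t ∈ Subgroup.normalizer (S : Set G)} :
    S ≤ adj S t ht := fun x hx => ⟨0, by simpa using hx⟩

theorem self_mem_adj {S : Subgroup G} {t : G} {ht : t ∈ Subgroup.normalizer (S : Set G)} :
    t ∈ adj S t ht := ⟨1, by simp⟩

theorem polyInd (hG : MaxC G) (hs : Group.IsSolvable G) (Pr : Subgroup G → Prop) (h0 : Pr ⊥)
    (hstep : ∀ (R : Subgroup G) (t : G) (ht : t ∈ Subgroup.normalizer (R : Set G)),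
      Pr R → Pr (adj R t ht)) : Pr ⊤ := by
  obtain ⟨n, hn⟩ := hs.solvable
  have key : ∀ i ≤ n, Pr (derivedSeries G (n - i)) := by
    intro i
    induction i with
    | zero => intro _; rw [Nat.sub_zero, hn]; exact h0
    | succ i ih =>
      intro hi
      have ihi := ih (by omega)
      set j := n - (i + 1) with hj
      have hj1 : n - i = j + 1 := by omega
      rw [hj1] at ihi
      obtain ⟨M, ⟨hM1, hM2, hM3⟩, hmax⟩ := hG.exists_max
        {R | derivedSeries G (j + 1) ≤ R ∧ R ≤ derivedSeries G j ∧ Pr R}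
        ⟨_, le_rfl, derivedSeries_antitone G (Nat.le_succ j), ihi⟩
      by_contra hcon
      have hne : ∃ t ∈ derivedSeries G j, t ∉ M := by
        by_contra hc
        push Not at hc
        exact hcon (le_antisymm hM2 hc ▸ hM3)
      obtain ⟨t, htD, htM⟩ := hne
      have hcomm : ∀ x ∈ derivedSeries G j, ∀ y ∈ derivedSeries G j, x * y * x⁻¹ * y⁻¹ ∈ M := by
        intro x hx y hy
        apply hM1
        rw [derivedSeries_succ]
        exact Subgroup.commutator_mem_commutator hx hy
      have ht : t ∈ Subgroup.normalizer (M : Set G) := by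
        rw [Subgroup.mem_normalizer_iff]
        intro x
        constructor
        · intro hx
          have := M.mul_mem (hcomm t htD x (hM2 hx)) hx
          simpa using this
        · intro hx
          have h1 : x ∈ derivedSeries G j := by
            have := (derivedSeries G j).mul_mem ((derivedSeries G j).mul_mem
              ((derivedSeries G j).inv_mem htD) (hM2 hx)) htD
            simpa [mul_assoc] using this
          have := M.mul_mem (M.inv_mem (hcomm t htD x h1)) hx
          simpa [mul_assoc] using this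
      have h2 := hmax (adj M t ht) ⟨hM1.trans le_adj, ?_, hstep M t ht hM3⟩ le_adj
      · exact htM (h2 self_mem_adj)
      · rintro x ⟨k, hk⟩
        have := (derivedSeries G j).mul_mem ((derivedSeries G j).zpow_mem htD k) (hM2 hk)
        simpa using this
  have := key n le_rfl
  rwa [Nat.sub_self, derivedSeries_zero] at this

end PcInd

/-- polycyclic induction. -/
theorem poly_ind {Q : Type} [Group Q] (h : PC Q) (Pr : Subgroup Q → Prop) (h0 : Pr ⊥)
    (hstep : ∀ (R P : Subgroup Q) (t : Q), R ≤ P → t ∈ P → (∀ x, x ∈ R ↔ t * x * t⁻¹ ∈ R) →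
      (∀ x ∈ P, ∃ k : ℤ, t ^ (-k) * x ∈ R) → Pr R → Pr P) : Pr ⊤ := by
  apply polyInd h.2 h.1 Pr h0
  intro R t ht hR
  exact hstep R (adj R t ht) t le_adj self_mem_adj (Subgroup.mem_normalizer_iff.mp ht)
    (fun x hx => hx) hR

end Pool.Agent.Helper933.HC
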