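import Pool.Agent.Helper933.HC.Defs
import Pool.Agent.Helper933.HC.P_poly_ind
import Pool.Agent.Helper933.HC.P_hb_two

set_option autoImplicit false

namespace Pool.Agent.Helper933.HC
open Module


theorem hall_surj {K G A Q : Type} [DivisionRing K] [Group G] [AddCommGroup A] [Module K A]
    [DistribMulAction G A] [Group Q] (ρ : G →* Q) (hρ : Function.Surjective ρ) (hQ : PC Q)
    (hsemi : ∀ g : G, Semi K (ac g : A ≃+ A))
    (hscal : ∀ g : G, ρ g = 1 → ∃ c : K, ∀ a : A, g • a = c • a) (S : Finset A) :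
    NoethFor (Set.univ : Set G) (Submodule.span K {y : A | ∃ g : G, ∃ s ∈ S, y = g • s}) := by
  have key := poly_ind hQ (fun R => NoethFor {g : G | ρ g ∈ R}
    (Submodule.span K {y : A | ∃ g : G, ρ g ∈ R ∧ ∃ s ∈ S, y = g • s})) ?_ ?_
  · -- conclusion
    intro f hf hst
    refine key f hf (fun n => ⟨(hst n).1.trans (Submodule.span_mono ?_), fun g _ => (hst n).2 g
      (Set.mem_univ g)⟩)
    rintro y ⟨g, s, hs, rfl⟩
    exact ⟨g, Subgroup.mem_top _, s, hs, rfl⟩
  · -- base
    intro f hf hst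
    set M₀ : Submodule K A :=
      Submodule.span K {y : A | ∃ g : G, ρ g ∈ (⊥ : Subgroup Q) ∧ ∃ s ∈ S, y = g • s} with hM₀
    have hle : M₀ ≤ Submodule.span K (S : Set A) := by
      rw [hM₀, Submodule.span_le]
      rintro y ⟨g, hg, s, hs, rfl⟩
      obtain ⟨c, hc⟩ := hscal g (Subgroup.mem_bot.1 hg)
      rw [hc]
      exact Submodule.smul_mem _ c (Submodule.subset_span hs)
    haveI : FiniteDimensional K (Submodule.span K (S : Set A)) :=
      FiniteDimensional.span_of_finite K S.finite_toSet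
    haveI hfin : IsNoetherian K M₀ := isNoetherian_of_le hle
    obtain ⟨n, hn⟩ := monotone_stabilizes_iff_noetherian.2 hfin
      ⟨fun n => (f n).comap M₀.subtype, fun i j hij => Submodule.comap_mono (hf hij)⟩
    refine ⟨n, fun m hm => ?_⟩
    have h1 : (f n).comap M₀.subtype = (f m).comap M₀.subtype := hn m hm
    apply le_antisymm _ (hf hm)
    intro y hy
    have hyM : y ∈ M₀ := (hst m).1 hy
    have h2 : (⟨y, hyM⟩ : M₀) ∈ (f m).comap M₀.subtype := hy
    rw [← h1] at h2
    exact h2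
  · -- step
    intro R P t hRP htP htR hk hR
    obtain ⟨x, rfl⟩ := hρ t
    set M₀ : Submodule K A :=
      Submodule.span K {y : A | ∃ g : G, ρ g ∈ R ∧ ∃ s ∈ S, y = g • s} with hM₀
    have hx : ∀ g, g ∈ {g : G | ρ g ∈ R} ↔ x * g * x⁻¹ ∈ {g : G | ρ g ∈ R} := by
      intro g
      show ρ g ∈ R ↔ ρ (x * g * x⁻¹) ∈ R
      rw [map_mul, map_mul, map_inv]
      exact htR (ρ g)
    have hMst : ∀ g ∈ {g : G | ρ g ∈ R}, ∀ m ∈ M₀, g • m ∈ M₀ := by
      intro g hg m hm
      obtain ⟨σ, hσ⟩ := hsemi g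
      induction hm using Submodule.span_induction with
      | mem y hy =>
        obtain ⟨h, hh, s, hs, rfl⟩ := hy
        apply Submodule.subset_span
        refine ⟨g * h, ?_, s, hs, by rw [mul_smul]⟩
        rw [map_mul]
        exact R.mul_mem hg hh
      | zero => rw [smul_zero]; exact M₀.zero_mem
      | add y z _ _ hy hz => rw [smul_add]; exact M₀.add_mem hy hz
      | smul c y _ hy =>
        have h1 : g • (c • y) = σ c • (g • y) := hσ c y
        rw [h1]
        exact M₀.smul_mem _ hy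
    have h2 := hb_two hsemi {g : G | ρ g ∈ R} x hx M₀ hMst hR
    intro f hf hst
    refine h2 f hf (fun n => ⟨(hst n).1.trans ?_, ?_⟩)
    · rw [Submodule.span_le]
      rintro y ⟨g, hg, s, hs, rfl⟩
      obtain ⟨k, hkR⟩ := hk (ρ g) hg
      have h3 : ρ (x ^ (-k) * g) ∈ R := by
        rw [map_mul, map_zpow]; exact hkR
      apply Submodule.subset_span
      refine ⟨k, (x ^ (-k) * g) • s, Submodule.subset_span ⟨_, h3, s, hs, rfl⟩, ?_⟩
      rw [← mul_smul, ← mul_assoc, ← zpow_add, add_neg_cancel, zpow_zero, one_mul]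
    · intro g hg
      rcases hg with rfl | rfl | hg
      · exact (hst n).2 _ htP
      · refine (hst n).2 _ ?_
        show ρ x⁻¹ ∈ P
        rw [map_inv]
        exact P.inv_mem htP
      · exact (hst n).2 g (hRP hg)

end Pool.Agent.Helper933.HC
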