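import Pool.Agent.Helper933.HC.Defs

set_option autoImplicit false

namespace Pool.Agent.Helper933.HC
open Module


theorem pc_sub {Q : Type} [Group Q] (h : PC Q) (H : Subgroup Q) : PC H := by
  obtain ⟨h1, h2⟩ := h
  have : Group.IsSolvable Q := h1
  refine ⟨Group.isSolvable_of_isSolvable_injective (f := H.subtype) H.subtype_injective,
    fun K => ?_⟩
  have h3 : Group.FG (K.map H.subtype) := (Group.fg_iff_subgroup_fg _).2 (h2 _)
  rw [← Group.fg_iff_subgroup_fg]
  exact Group.fg_of_surjective (f := (K.equivMapOfInjective H.subtype
    H.subtype_injective).symm.toMonoidHom) (K.equivMapOfInjective H.subtype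
    H.subtype_injective).symm.surjective

end Pool.Agent.Helper933.HC
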