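import Pool.Agent.Helper933.HC.Defs
import Pool.Agent.Helper933.HC.P_pc_sub
import Pool.Agent.Helper933.HC.P_hall_surj

set_option autoImplicit false

namespace Pool.Agent.Helper933.HC
open Module


/-- P. Hall's theorem for subgroups of systems. -/
theorem hall_sub {K G A Q : Type} [DivisionRing K] [Group G] [AddCommGroup A] [Module K A]
    [DistribMulAction G A] [Group Q] (ρ : G →* Q) (hQ : PC Q)
    (hsemi : ∀ g : G, Semi K (ac g : A ≃+ A))
    (hscal : ∀ g : G, ρ g = 1 → ∃ c : K, ∀ a : A, g • a = c • a) (H : Subgroup G)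
    (S : Finset A) :
    NoethFor (H : Set G) (Submodule.span K {y : A | ∃ g ∈ H, ∃ s ∈ S, y = g • s}) := by
  have hρ' : Function.Surjective (ρ.subgroupMap H) := MonoidHom.subgroupMap_surjective ρ H
  have hsemi' : ∀ g : H, Semi K (ac g : A ≃+ A) := by
    intro g
    obtain ⟨σ, hσ⟩ := hsemi (g : G)
    exact ⟨σ, fun k x => hσ k x⟩
  have hscal' : ∀ g : H, (ρ.subgroupMap H) g = 1 → ∃ c : K, ∀ a : A, g • a = c • a := by
    intro g hg
    have h1 : ρ (g : G) = 1 := congrArg Subtype.val hg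
    obtain ⟨c, hc⟩ := hscal (g : G) h1
    exact ⟨c, fun a => hc a⟩
  have key := hall_surj (K := K) (G := H) (A := A) (Q := H.map ρ) (ρ.subgroupMap H) hρ'
    (pc_sub hQ _) hsemi' hscal' S
  have hset : {y : A | ∃ g : H, ∃ s ∈ S, y = g • s} = {y : A | ∃ g ∈ H, ∃ s ∈ S, y = g • s} := by
    ext y
    constructor
    · rintro ⟨g, s, hs, rfl⟩
      exact ⟨(g : G), g.2, s, hs, rfl⟩
    · rintro ⟨g, hg, s, hs, rfl⟩
      exact ⟨⟨g, hg⟩, s, hs, rfl⟩
  rw [hset] at key
  intro f hf hst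
  refine key f hf (fun n => ⟨(hst n).1, ?_⟩)
  intro g _ x hx
  exact (hst n).2 (g : G) g.2 x hx

end Pool.Agent.Helper933.HC
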