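import Pool.Agent.Helper933.HC.Defs

set_option autoImplicit false

namespace Pool.Agent.Helper933.HC
open Module


theorem hl_quot {Q : Type} [Group Q] {n : ℕ} (h : HL Q n) (E : Subgroup Q) [E.Normal]
    (hE : Infinite E) : ∃ m < n, HL (Q ⧸ E) m := by
  have key : ∀ K : ℕ → Subgroup (Q ⧸ E), Monotone K → ∀ s : Finset ℕ,
      (∀ i ∈ s, (K i).relIndex (K (i + 1)) = 0) → s.card + 1 ≤ n := by
    intro K hK s hs
    have hker : ∀ i, E ≤ (K i).comap (QuotientGroup.mk' E) := by
      intro i x hx
      rw [Subgroup.mem_comap]
      have : QuotientGroup.mk' E x = 1 := by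
        rw [← MonoidHom.mem_ker, QuotientGroup.ker_mk']
        exact hx
      rw [this]
      exact (K i).one_mem
    let H : ℕ → Subgroup Q := fun i => match i with
      | 0 => ⊥
      | (i + 1) => (K i).comap (QuotientGroup.mk' E)
    have hH : Monotone H := by
      apply monotone_nat_of_le_succ
      intro i
      rcases i with _ | i
      · exact bot_le
      · exact Subgroup.comap_mono (hK (Nat.le_succ i))
    have hj : ∀ i ∈ insert 0 (s.map ⟨Nat.succ, Nat.succ_injective⟩),
        (H i).relIndex (H (i + 1)) = 0 := by
      intro i hi
      rcases i with _ | i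
      · change (⊥ : Subgroup Q).relIndex ((K 0).comap (QuotientGroup.mk' E)) = 0
        rw [Subgroup.relIndex_bot_left]
        have : Infinite ((K 0).comap (QuotientGroup.mk' E)) :=
          Infinite.of_injective (Subgroup.inclusion (hker 0)) (Subgroup.inclusion_injective _)
        exact Nat.card_eq_zero_of_infinite
      · have hi' : i ∈ s := by
          simp only [Finset.mem_insert, Finset.mem_map, Function.Embedding.coeFn_mk] at hi
          rcases hi with hi | ⟨a, ha, hai⟩
          · omega
          · have : a = i := by simpa using hai
            rwa [← this]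
        change ((K i).comap (QuotientGroup.mk' E)).relIndex
          ((K (i + 1)).comap (QuotientGroup.mk' E)) = 0
        rw [Subgroup.relIndex_comap, Subgroup.map_comap_eq_self_of_surjective
          (QuotientGroup.mk'_surjective E)]
        exact hs i hi'
    have := h H hH _ hj
    rw [Finset.card_insert_of_notMem, Finset.card_map] at this
    · exact this
    · simp
  have hn : 1 ≤ n := by
    have := key (fun _ => ⊥) monotone_const ∅ (by simp)
    simpa using this
  refine ⟨n - 1, by omega, fun K hK s hs => ?_⟩
  have := key K hK s hs
  omega

end Pool.Agent.Helper933.HC
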