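import Pool.Agent.Helper933.HC.Defs

set_option autoImplicit false

namespace Pool.Agent.Helper933.HC
open Module


theorem hl_sub {Q : Type} [Group Q] {n : ℕ} (h : HL Q n) (H : Subgroup Q) : HL H n := by
  intro F hF s hs
  refine h (fun i => (F i).map H.subtype) (fun i j hij => Subgroup.map_mono (hF hij)) s ?_
  intro i hi
  show ((F i).map H.subtype).relIndex ((F (i + 1)).map H.subtype) = 0
  rw [Subgroup.relIndex_map_map_of_injective _ _ H.subtype_injective]
  exact hs i hi

end Pool.Agent.Helper933.HC
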