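import Pool.Agent.Helper933.HC.Defs
import Pool.Agent.Helper933.HC.P_mem_gm
import Pool.Agent.Helper933.HC.P_gm_basic

set_option autoImplicit false

namespace Pool.Agent.Helper933.HC
open Module


/-! helper -/

theorem ip_key {K G A : Type} [DivisionRing K] [Group G] [AddCommGroup A] [Module K A]
    [DistribMulAction G A] (hsemi : ∀ g : G, Semi K (ac g : A ≃+ A)) (L : Subgroup G)
    (M : Submodule K A) (hM : St L M) (g : G) (c : G ⧸ L) (x : A)
    (hx : x ∈ (gm c.out M : Submodule K A)) : g • x ∈ (gm (g • c).out M : Submodule K A) := by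
  rw [mem_gm _ (hsemi _)] at hx ⊢
  have h1 : (g • c).out⁻¹ * (g * c.out) ∈ L := by
    rw [← QuotientGroup.eq, QuotientGroup.out_eq']
    conv_lhs => rw [← QuotientGroup.out_eq' c]
    rfl
  have h2 := hM _ h1 _ hx
  have e : ((g • c).out⁻¹ * (g * c.out)) • c.out⁻¹ • x = (g • c).out⁻¹ • g • x := by
    rw [smul_smul, smul_smul]
    congr 1
    group
  rw [e] at h2
  exact h2

/-- projections for an induced family. -/
theorem induced_proj {K G A : Type} [DivisionRing K] [Group G] [AddCommGroup A] [Module K A]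
    [DistribMulAction G A] (hsemi : ∀ g : G, Semi K (ac g : A ≃+ A)) (L : Subgroup G)
    (M : Submodule K A) (hM : St L M)
    (hind : iSupIndep (fun c : G ⧸ L => (gm c.out M : Submodule K A))) :
    ∃ p : (G ⧸ L) → (↥(⨆ c : G ⧸ L, (gm c.out M : Submodule K A)) →ₗ[K] A),
      (∀ c b, p c b ∈ (gm c.out M : Submodule K A)) ∧
      (∀ b, (∀ c, p c b = 0) → b = 0) ∧ (∀ b, {c | p c b ≠ 0}.Finite) ∧
      (∀ (g : G) c (b b' : ↥(⨆ c : G ⧸ L, (gm c.out M : Submodule K A))),
        (b' : A) = g • (b : A) → p (g • c) b' = g • p c b) := by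
  classical
  set U : (G ⧸ L) → Submodule K A := fun c => gm c.out M with hU
  have hinj : Function.Injective (DFinsupp.lsum ℕ (fun i => (U i).subtype)) :=
    hind.dfinsupp_lsum_injective
  have hrange : LinearMap.range (DFinsupp.lsum ℕ (fun i => (U i).subtype)) = ⨆ c, U c :=
    (Submodule.iSup_eq_range_dfinsupp_lsum U).symm
  let e : (Π₀ c, U c) ≃ₗ[K] ↥(⨆ c, U c) :=
    (LinearEquiv.ofInjective _ hinj).trans (LinearEquiv.ofEq _ _ hrange)
  have he : ∀ d : (Π₀ c, U c), ((e d : ↥(⨆ c, U c)) : A) =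
      DFinsupp.lsum ℕ (fun i => (U i).subtype) d := fun d => rfl
  let p : (G ⧸ L) → (↥(⨆ c : G ⧸ L, U c) →ₗ[K] A) := fun c =>
    (U c).subtype ∘ₗ (DFinsupp.lapply c) ∘ₗ e.symm.toLinearMap
  have hp : ∀ c b, p c b = ((e.symm b) c : A) := fun c b => rfl
  have hsingle : ∀ (i : G ⧸ L) (b : ↥(⨆ c : G ⧸ L, U c)) (hb : (b : A) ∈ U i),
      e.symm b = DFinsupp.single i ⟨(b : A), hb⟩ := by
    intro i b hb
    rw [LinearEquiv.symm_apply_eq]
    apply Subtype.ext
    rw [he]
    simp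
  have hp1 : ∀ (i : G ⧸ L) (b : ↥(⨆ c : G ⧸ L, U c)), (b : A) ∈ U i → p i b = b := by
    intro i b hb
    rw [hp, hsingle i b hb, DFinsupp.single_eq_same]
  have hp2 : ∀ (i c : G ⧸ L) (b : ↥(⨆ c : G ⧸ L, U c)), (b : A) ∈ U i → c ≠ i → p c b = 0 := by
    intro i c b hb hc
    rw [hp, hsingle i b hb, DFinsupp.single_eq_of_ne hc]
    rfl
  have hkey : ∀ (g : G) (c : G ⧸ L) (x : A), x ∈ U c → g • x ∈ U (g • c) :=
    fun g c x hx => ip_key hsemi L M hM g c x hx
  have hsup : ∀ (g : G) (x : A), x ∈ (⨆ c, U c) → g • x ∈ (⨆ c, U c) := by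
    intro g x hx
    induction hx using Submodule.iSup_induction' with
    | mem i x hx => exact Submodule.mem_iSup_of_mem (g • i) (hkey g i x hx)
    | zero => rw [smul_zero]; exact Submodule.zero_mem _
    | add x y _ _ hx hy => rw [smul_add]; exact Submodule.add_mem _ hx hy
  refine ⟨p, fun c b => ?_, fun b hb => ?_, fun b => ?_, ?_⟩
  · rw [hp]; exact ((e.symm b) c).2
  · have h1 : e.symm b = 0 := by
      ext c
      rw [← hp, hb c]
      rfl
    rwa [LinearEquiv.map_eq_zero_iff] at h1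
  · refine (e.symm b).support.finite_toSet.subset fun c hc => ?_
    rw [Finset.mem_coe, DFinsupp.mem_support_iff]
    intro h0
    apply hc
    rw [hp, h0]
    rfl
  · intro g c b b' hbb'
    obtain ⟨x, hx⟩ := b
    have hall : ∀ (x : A) (hx : x ∈ (⨆ c, U c)), p (g • c) ⟨g • x, hsup g x hx⟩ =
        g • p c ⟨x, hx⟩ := by
      intro x hx
      induction hx using Submodule.iSup_induction' with
      | mem i x hx =>
        by_cases hci : c = i
        · subst hci
          rw [hp1 (g • c) ⟨g • x, _⟩ (hkey g c x hx), hp1 c ⟨x, _⟩ hx]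
        · have hgc : g • c ≠ g • i := fun h => hci (smul_left_cancel g h)
          rw [hp2 (g • i) (g • c) ⟨g • x, _⟩ (hkey g i x hx) hgc, hp2 i c ⟨x, _⟩ hx hci, smul_zero]
      | zero =>
        have h1 : (⟨g • (0 : A), hsup g 0 (Submodule.zero_mem _)⟩ : ↥(⨆ c, U c)) = 0 :=
          Subtype.ext (smul_zero g)
        rw [h1]
        have h2 : (⟨(0 : A), Submodule.zero_mem _⟩ : ↥(⨆ c, U c)) = 0 := rfl
        rw [h2, map_zero, map_zero, smul_zero]
      | add x y hx hy h1 h2 =>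
        have e1 : (⟨g • (x + y), hsup g _ (Submodule.add_mem _ hx hy)⟩ : ↥(⨆ c, U c)) =
            ⟨g • x, hsup g x hx⟩ + ⟨g • y, hsup g y hy⟩ := Subtype.ext (smul_add g x y)
        have e2 : (⟨x + y, Submodule.add_mem _ hx hy⟩ : ↥(⨆ c, U c)) = ⟨x, hx⟩ + ⟨y, hy⟩ := rfl
        rw [e1, e2, map_add, map_add, h1, h2, smul_add]
    have hb' : b' = ⟨g • x, hsup g x hx⟩ := Subtype.ext hbb'
    rw [hb']
    exact hall x hx

end Pool.Agent.Helper933.HC
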