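import Pool.Agent.Helper933.HC.Defs
import Pool.Agent.Helper933.HC.P_mink

set_option autoImplicit false

namespace Pool.Agent.Helper933.HC
open Module


theorem fix_exp_perm {A : Type} [Finite A] (f : A → A) (hf : Function.Injective f) (x : A) :
    f^[Nat.card (Equiv.Perm A)] x = x := by
  have hb : Function.Bijective f := Finite.injective_iff_bijective.1 hf
  have e : f = ⇑(Equiv.ofBijective f hb) := rfl
  rw [e, Equiv.Perm.iterate_eq_pow, pow_card_eq_one']
  rfl

/-- periodic points of automorphisms of a finitely generated abelian group have bounded period. -/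
theorem fix_exp (E : Type) [AddCommGroup E] [Module.Finite ℤ E] :
    ∃ k : ℕ, 0 < k ∧ ∀ (l : E ≃+ E) (x : E), (∃ n : ℕ, 0 < n ∧ (⇑l)^[n] x = x) →
      (⇑l)^[k] x = x := by
  classical
  let T : Submodule ℤ E := Submodule.torsion ℤ E
  have hTf : Finite T := Module.finite_of_fg_torsion T Submodule.torsion_isTorsion
  let P : Submodule ℤ (E ⧸ T) := LinearMap.range (LinearMap.lsmul ℤ (E ⧸ T) 3)
  have hPmem : ∀ v : E ⧸ T, v ∈ P ↔ ∃ w : E ⧸ T, (3:ℤ) • w = v := by
    intro v
    constructor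
    · rintro ⟨w, hw⟩
      exact ⟨w, hw⟩
    · rintro ⟨w, hw⟩
      exact ⟨w, hw⟩
  have hRtors : Module.IsTorsion ℤ ((E ⧸ T) ⧸ P) := by
    intro r
    obtain ⟨v, rfl⟩ := Submodule.Quotient.mk_surjective P r
    refine ⟨⟨3, mem_nonZeroDivisors_of_ne_zero (by norm_num)⟩, ?_⟩
    show (3:ℤ) • (Submodule.Quotient.mk v : (E ⧸ T) ⧸ P) = 0
    rw [← Submodule.Quotient.mk_smul, Submodule.Quotient.mk_eq_zero]
    exact (hPmem _).2 ⟨v, rfl⟩
  have hRf : Finite ((E ⧸ T) ⧸ P) := Module.finite_of_fg_torsion _ hRtors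
  set k1 : ℕ := Nat.card (Equiv.Perm ((E ⧸ T) ⧸ P)) with hk1
  set k2 : ℕ := Nat.card (Equiv.Perm T) with hk2
  have hk1p : 0 < k1 := Nat.card_pos
  have hk2p : 0 < k2 := Nat.card_pos
  refine ⟨k1 * k2, Nat.mul_pos hk1p hk2p, ?_⟩
  rintro l x ⟨n, hn, hx⟩
  let L : E →ₗ[ℤ] E := l.toAddMonoidHom.toIntLinearMap
  have hLapp : ∀ y, L y = l y := fun y => rfl
  have hT1 : ∀ y, y ∈ T → L y ∈ T := by
    intro y hy
    obtain ⟨a, ha⟩ := (Submodule.mem_torsion_iff _).1 hy
    refine (Submodule.mem_torsion_iff _).2 ⟨a, ?_⟩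
    have ha' : (a : ℤ) • y = 0 := ha
    show (a : ℤ) • L y = 0
    rw [← map_smul, ha', map_zero]
  have hT : T ≤ T.comap L := fun y hy => hT1 y hy
  let lQ : (E ⧸ T) →ₗ[ℤ] (E ⧸ T) := T.mapQ T L hT
  have hlQ : ∀ y : E, lQ (Submodule.Quotient.mk y) = Submodule.Quotient.mk (L y) :=
    fun y => Submodule.mapQ_apply _ _ _ _
  have hP1 : ∀ v, v ∈ P → lQ v ∈ P := by
    intro v hv
    obtain ⟨w, rfl⟩ := (hPmem _).1 hv
    rw [map_smul]
    exact (hPmem _).2 ⟨lQ w, rfl⟩
  have hP : P ≤ P.comap lQ := fun y hy => hP1 y hy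
  let f : ((E ⧸ T) ⧸ P) →ₗ[ℤ] ((E ⧸ T) ⧸ P) := P.mapQ P lQ hP
  have hf : ∀ v : E ⧸ T, f (Submodule.Quotient.mk v) = Submodule.Quotient.mk (lQ v) :=
    fun y => Submodule.mapQ_apply _ _ _ _
  have hfs : Function.Surjective f := by
    intro r
    obtain ⟨v, rfl⟩ := Submodule.Quotient.mk_surjective P r
    obtain ⟨y, rfl⟩ := Submodule.Quotient.mk_surjective T v
    refine ⟨Submodule.Quotient.mk (Submodule.Quotient.mk (l.symm y)), ?_⟩
    rw [hf, hlQ, hLapp, AddEquiv.apply_symm_apply]
  have hfi : Function.Injective f := Finite.injective_iff_surjective.2 hfs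
  have hfk : ∀ r, (⇑f)^[k1] r = r := fun r => fix_exp_perm f hfi r
  have hsemi : ∀ (m : ℕ) (y : E), (⇑lQ)^[m] (Submodule.Quotient.mk y) =
      Submodule.Quotient.mk ((⇑l)^[m] y) := by
    intro m
    induction m with
    | zero => intro y; rfl
    | succ m ih =>
      intro y
      rw [Function.iterate_succ_apply, Function.iterate_succ_apply, hlQ, ih]
      rfl
  have hsemi2 : ∀ (m : ℕ) (v : E ⧸ T), (⇑f)^[m] (Submodule.Quotient.mk v) =
      Submodule.Quotient.mk ((⇑lQ)^[m] v) := by
    intro m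
    induction m with
    | zero => intro y; rfl
    | succ m ih =>
      intro y
      rw [Function.iterate_succ_apply, Function.iterate_succ_apply, hf, ih]
  let M : (E ⧸ T) →+ (E ⧸ T) := (lQ ^ k1).toAddMonoidHom
  have hMapp : ∀ v, M v = (⇑lQ)^[k1] v := fun v => Module.End.pow_apply lQ k1 v
  have hMfun : ⇑M = (⇑lQ)^[k1] := funext hMapp
  have hM : ∀ v, ∃ w, M v = v + 3 • w := by
    intro v
    have h1 := hsemi2 k1 v
    rw [hfk, eq_comm, Submodule.Quotient.eq] at h1
    obtain ⟨w, hw⟩ := (hPmem _).1 h1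
    refine ⟨w, ?_⟩
    rw [hMapp, ← sub_eq_iff_eq_add', ← hw]
    exact (natCast_zsmul w 3).symm ▸ rfl
  have htf : ∀ (n : ℕ) (v : E ⧸ T), 0 < n → n • v = 0 → v = 0 := by
    intro m v hm hv
    have h1 : (m : ℤ) • v = 0 := by rw [natCast_zsmul]; exact hv
    rcases smul_eq_zero.1 h1 with h | h
    · exact absurd h (by exact_mod_cast hm.ne')
    · exact h
  have hres : ∀ v : E ⧸ T, (∀ k : ℕ, ∃ w : E ⧸ T, v = (3 ^ k : ℕ) • w) → v = 0 := by
    intro v hv
    have : Module.Free ℤ (E ⧸ T) := inferInstance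
    let b := Module.Free.chooseBasis ℤ (E ⧸ T)
    apply b.repr.injective
    rw [map_zero]
    ext i
    rw [Finsupp.zero_apply]
    set c : ℤ := b.repr v i with hc
    obtain ⟨w, hw⟩ := hv c.natAbs
    have h1 : c = (3 ^ c.natAbs : ℕ) * b.repr w i := by
      conv_lhs => rw [hc, hw]
      rw [map_nsmul, Finsupp.smul_apply, nsmul_eq_mul]
    apply Int.eq_zero_of_abs_lt_dvd (m := ((3 ^ c.natAbs : ℕ) : ℤ)) ⟨_, h1⟩
    rw [Int.abs_eq_natAbs]
    exact_mod_cast Nat.lt_pow_self (by norm_num)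
  have hfix : M (Submodule.Quotient.mk x) = Submodule.Quotient.mk x := by
    apply mink htf hres M hM n hn
    rw [hMfun, ← Function.iterate_mul, mul_comm, Function.iterate_mul]
    have h1 : (⇑lQ)^[n] (Submodule.Quotient.mk x) = Submodule.Quotient.mk x := by
      rw [hsemi, hx]
    exact Function.iterate_fixed h1 k1
  rw [hMapp, hsemi, Submodule.Quotient.eq] at hfix
  -- now the torsion part
  set a : E → E := (⇑l)^[k1] with ha
  have hainj : Function.Injective a := l.injective.iterate k1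
  have haadd : ∀ y z, a (y + z) = a y + a z := by
    intro y z
    rw [ha]
    clear_value k1
    clear * -
    induction k1 generalizing y z with
    | zero => rfl
    | succ m ih => rw [Function.iterate_succ_apply, Function.iterate_succ_apply,
        Function.iterate_succ_apply, map_add, ih]
  have haT : ∀ t ∈ T, a t ∈ T := by
    intro t ht
    rw [ha]
    clear_value k1
    clear * - ht hT1 hLapp
    induction k1 generalizing t with
    | zero => exact ht
    | succ m ih => rw [Function.iterate_succ_apply]; exact ih _ (hT1 t ht)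
  let φ : T → T := fun t => ⟨(a x - x) + a t, T.add_mem hfix (haT t t.2)⟩
  have hφi : Function.Injective φ := by
    intro s t hst
    have h1 : (a x - x) + a s = (a x - x) + a t := congrArg Subtype.val hst
    exact Subtype.ext (hainj (add_left_cancel h1))
  have hφ : ∀ (m : ℕ) (t : T), (((φ^[m] t : T) : E)) = a^[m] (x + t) - x := by
    intro m
    induction m with
    | zero => intro t; simp
    | succ m ih =>
      intro t
      rw [Function.iterate_succ_apply, Function.iterate_succ_apply, ih]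
      have : x + ((φ t : T) : E) = a (x + t) := by
        show x + ((a x - x) + a t) = a (x + t)
        rw [haadd]; abel
      rw [this]
  have h2 := hφ k2 0
  rw [fix_exp_perm φ hφi 0] at h2
  rw [Function.iterate_mul]
  have h3 : a^[k2] (x + ((0:T):E)) - x = 0 := by rw [← h2]; rfl
  rw [sub_eq_zero] at h3
  simpa using h3

end Pool.Agent.Helper933.HC
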