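import Pool.Agent.Helper933.HC.Defs
import Pool.Agent.Helper933.HC.P_fix_exp

set_option autoImplicit false

namespace Pool.Agent.Helper933.HC
open Module


theorem norm_exp_iter {E : Type} [AddCommGroup E] (l : E ≃+ E) (x : E) (a : ℕ)
    (h : (⇑l)^[a] x = x) (b : ℕ) : (⇑l)^[a * b] x = x := by
  induction b with
  | zero => simp
  | succ b ih => rw [Nat.mul_succ, Function.iterate_add_apply, h, ih]

theorem norm_exp_sum {E : Type} [AddCommGroup E] (l : E ≃+ E) (x : E) (a : ℕ)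
    (h : (⇑l)^[a] x = x) (b : ℕ) :
    ∑ i ∈ Finset.range (a * b), (⇑l)^[i] x = b • ∑ i ∈ Finset.range a, (⇑l)^[i] x := by
  induction b with
  | zero => simp
  | succ b ih =>
    rw [Nat.mul_succ, Finset.sum_range_add, ih, succ_nsmul]
    congr 1
    apply Finset.sum_congr rfl
    intro i _
    rw [add_comm (a * b) i, Function.iterate_add_apply, norm_exp_iter l x a h]

theorem norm_exp_tors (E : Type) [AddCommGroup E] [Module.Finite ℤ E] :
    ∃ t : ℕ, 0 < t ∧ ∀ (y : E) (n : ℕ), 0 < n → n • y = 0 → t • y = 0 := by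
  have hN : IsNoetherian ℤ E := isNoetherian_of_isNoetherianRing_of_finite ℤ E
  have hfin : Finite (Submodule.torsion ℤ E) :=
    Module.finite_of_fg_torsion _ (Submodule.torsion_isTorsion)
  refine ⟨Nat.card (Submodule.torsion ℤ E), Nat.card_pos, ?_⟩
  intro y n hn hy
  have hmem : y ∈ Submodule.torsion ℤ E := by
    rw [Submodule.mem_torsion_iff]
    refine ⟨⟨(n : ℤ), mem_nonZeroDivisors_of_ne_zero (by exact_mod_cast hn.ne')⟩, ?_⟩
    show (n : ℤ) • y = 0
    rw [natCast_zsmul, hy]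
  have h1 : Nat.card (Submodule.torsion ℤ E) • (⟨y, hmem⟩ : Submodule.torsion ℤ E) = 0 :=
    card_nsmul_eq_zero'
  exact congrArg Subtype.val h1

theorem norm_exp (E : Type) [AddCommGroup E] [Module.Finite ℤ E] :
    ∃ k : ℕ, 0 < k ∧ ∀ (l : E ≃+ E) (x : E),
      (∃ n : ℕ, 0 < n ∧ ∑ i ∈ Finset.range n, (⇑l)^[i] x = 0) →
      ∑ i ∈ Finset.range k, (⇑l)^[i] x = 0 := by
  obtain ⟨k0, hk0, hfix⟩ := fix_exp E
  obtain ⟨t, ht, htors⟩ := norm_exp_tors E
  refine ⟨k0 * t, Nat.mul_pos hk0 ht, ?_⟩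
  rintro l x ⟨n, hn, hsum⟩
  have h1 : (⇑l)^[n] x = x := by
    have e1 : ∑ i ∈ Finset.range n, (⇑l)^[i + 1] x = 0 := by
      have : ∀ i, (⇑l)^[i + 1] x = l ((⇑l)^[i] x) := fun i => Function.iterate_succ_apply' _ _ _
      simp only [this]
      rw [← map_sum, hsum, map_zero]
    have e2 := Finset.sum_range_succ (fun i => (⇑l)^[i] x) n
    have e3 := Finset.sum_range_succ' (fun i => (⇑l)^[i] x) n
    rw [e2, hsum, e1] at e3
    simpa using e3
  have h2 := hfix l x ⟨n, hn, h1⟩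
  have h3 := norm_exp_sum l x n h1 k0
  have h4 := norm_exp_sum l x k0 h2 n
  rw [hsum, smul_zero] at h3
  rw [mul_comm, h3] at h4
  rw [norm_exp_sum l x k0 h2 t]
  exact htors _ n hn h4.symm

end Pool.Agent.Helper933.HC
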