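import Pool.Agent.Helper933.HC.Defs

set_option autoImplicit false

namespace Pool.Agent.Helper933.HC
open Module


theorem pc_surj {Q Q' : Type} [Group Q] [Group Q'] (h : PC Q) (f : Q →* Q')
    (hf : Function.Surjective f) : PC Q' := by
  obtain ⟨h1, h2⟩ := h
  have h1' : Group.IsSolvable Q := h1
  have h3 : Group.IsSolvable Q' := Group.isSolvable_of_surjective hf
  refine ⟨h3, fun H => ?_⟩
  have e : (H.comap f).map f = H := Subgroup.map_comap_eq_self_of_surjective hf H
  rw [← e]
  obtain ⟨S, hS⟩ := h2 (H.comap f)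
  classical
  refine ⟨S.image f, ?_⟩
  rw [Finset.coe_image, ← MonoidHom.map_closure, hS]

end Pool.Agent.Helper933.HC
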