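import Pool.Agent.Helper933.HC.Defs
import Pool.Agent.Helper933.HC.P_pc_surj
import Pool.Agent.Helper933.HC.P_norm_exp

set_option autoImplicit false

namespace Pool.Agent.Helper933.HC
open Module


theorem iso_exp_aux (n : ℕ) : ∀ (Q : Type) [Group Q], PC Q → derivedSeries Q n = ⊥ →
    ∀ L : Subgroup Q, ∃ e : ℕ, 0 < e ∧ ∀ v : Q, (∃ n : ℕ, 0 < n ∧ v ^ n ∈ L) → v ^ e ∈ L := by
  induction n with
  | zero =>
    intro Q _ _ hd L
    refine ⟨1, one_pos, ?_⟩
    intro v _
    have hv : v ∈ (⊥ : Subgroup Q) := by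
      rw [← hd]; simp
    rw [Subgroup.mem_bot] at hv
    rw [hv]
    simp [L.one_mem]
  | succ n ih =>
    intro Q _ hPC hd L
    set A : Subgroup Q := derivedSeries Q n with hA
    have hAn : A.Normal := derivedSeries_normal Q n
    -- the quotient
    have hdq : derivedSeries (Q ⧸ A) n = ⊥ := by
      have h1 := map_derivedSeries_eq (f := QuotientGroup.mk' A) (QuotientGroup.mk'_surjective A) n
      rw [← h1, ← hA]
      exact QuotientGroup.map_mk'_self A
    obtain ⟨e₁, he₁, hE₁⟩ := ih (Q ⧸ A) (pc_surj hPC (QuotientGroup.mk' A)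
      (QuotientGroup.mk'_surjective A)) hdq (L.map (QuotientGroup.mk' A))
    -- commutativity of A
    have hcomm : ∀ x y : A, x * y = y * x := by
      intro x y
      have h1 := Subgroup.commutator_mem_commutator x.2 y.2
      have h2 : ⁅A, A⁆ = ⊥ := by
        rw [← hd]; rfl
      rw [h2, Subgroup.mem_bot, commutatorElement_eq_one_iff_mul_comm] at h1
      exact Subtype.ext h1
    letI iA : CommGroup A := { (inferInstance : Group A) with mul_comm := hcomm }
    set B : Subgroup A := L.subgroupOf A with hB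
    haveI hfgA : Group.FG A := (Group.fg_iff_subgroup_fg A).mpr (hPC.2 A)
    haveI : Group.FG (A ⧸ B) := QuotientGroup.fg B
    haveI : Module.Finite ℤ (Additive (A ⧸ B)) := by
      rw [Module.Finite.iff_addGroup_fg]
      exact GroupFG.iff_add_fg.mp inferInstance
    obtain ⟨k, hk, hK⟩ := norm_exp (Additive (A ⧸ B))
    refine ⟨e₁ * k, Nat.mul_pos he₁ hk, ?_⟩
    rintro v ⟨m, hm, hvm⟩
    have h3 : (QuotientGroup.mk' A v) ^ e₁ ∈ L.map (QuotientGroup.mk' A) := by
      apply hE₁
      refine ⟨m, hm, ?_⟩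
      rw [← map_pow]
      exact Subgroup.mem_map_of_mem _ hvm
    rw [← map_pow] at h3
    obtain ⟨l, hl, hlv⟩ := h3
    have h4 : l⁻¹ * v ^ e₁ ∈ A := by
      rw [← QuotientGroup.eq]
      exact hlv
    set a : A := ⟨l⁻¹ * v ^ e₁, h4⟩ with ha
    have hva : v ^ e₁ = l * a := by simp [ha]
    -- conjugation
    let cj : A ≃* A := MulAut.conjNormal l⁻¹
    have hcj : ∀ x : A, ((cj x : A) : Q) = l⁻¹ * x * l := by
      intro x
      simp [cj, MulAut.conjNormal_apply]
    have hcB : B.map cj.toMonoidHom = B := by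
      ext x
      constructor
      · rintro ⟨y, hy, rfl⟩
        rw [hB, Subgroup.mem_subgroupOf]
        have hy' : (y : Q) ∈ L := Subgroup.mem_subgroupOf.mp hy
        change ((cj y : A) : Q) ∈ L
        rw [hcj]
        exact L.mul_mem (L.mul_mem (L.inv_mem hl) hy') hl
      · intro hx
        have hx' : (x : Q) ∈ L := Subgroup.mem_subgroupOf.mp hx
        refine ⟨cj.symm x, ?_, ?_⟩
        · change cj.symm x ∈ L.subgroupOf A
          rw [Subgroup.mem_subgroupOf]
          have h5 := hcj (cj.symm x)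
          rw [MulEquiv.apply_symm_apply] at h5
          have h6 : ((cj.symm x : A) : Q) = l * x * l⁻¹ := by
            rw [h5]; group
          rw [h6]
          exact L.mul_mem (L.mul_mem hl hx') (L.inv_mem hl)
        · simp
    let c : (A ⧸ B) ≃* (A ⧸ B) := QuotientGroup.congr B B cj hcB
    let c' : Additive (A ⧸ B) ≃+ Additive (A ⧸ B) := MulEquiv.toAdditive c
    let P : ℕ → A := fun i => Nat.rec 1 (fun _ p => cj p * a) i
    have hP0 : P 0 = 1 := rfl
    have hPs : ∀ i, P (i + 1) = cj (P i) * a := fun i => rfl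
    have hpow : ∀ i : ℕ, (l * (a : Q)) ^ i = l ^ i * A.subtype (P i) := by
      intro i
      induction i with
      | zero => simp [hP0]
      | succ i ihi =>
        have h9 : A.subtype (cj (P i) * a) = l⁻¹ * A.subtype (P i) * l * (a : Q) := by
          rw [map_mul]
          have := hcj (P i)
          change ((cj (P i) : A) : Q) * (a : Q) = _
          rw [this]; rfl
        rw [pow_succ, ihi, hPs, h9, pow_succ]
        group
    let x₀ : Additive (A ⧸ B) := Additive.ofMul (QuotientGroup.mk (s := B) a)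
    have hsum : ∀ i : ℕ, Additive.ofMul (QuotientGroup.mk (s := B) (P i))
        = ∑ j ∈ Finset.range i, (⇑c')^[j] x₀ := by
      intro i
      induction i with
      | zero => simp [hP0]
      | succ i ihi =>
        rw [Finset.sum_range_succ', hPs]
        have h7 : ∀ j, (⇑c')^[j + 1] x₀ = c' ((⇑c')^[j] x₀) := by
          intro j
          exact Function.iterate_succ_apply' _ _ _
        simp only [h7]
        rw [← map_sum, ← ihi]
        rfl
    have hmem : ∀ i : ℕ, (l * (a : Q)) ^ i ∈ L ↔
        ∑ j ∈ Finset.range i, (⇑c')^[j] x₀ = 0 := by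
      intro i
      rw [← hsum, hpow]
      have h8 : (Additive.ofMul (QuotientGroup.mk (s := B) (P i)) = 0) ↔
          (QuotientGroup.mk (s := B) (P i)) = 1 := Iff.rfl
      rw [h8, QuotientGroup.eq_one_iff]
      rw [hB, Subgroup.mem_subgroupOf]
      exact L.mul_mem_cancel_left (L.pow_mem hl i)
    rw [pow_mul, hva, hmem]
    apply hK
    refine ⟨m, hm, ?_⟩
    rw [← hmem, ← hva, ← pow_mul, mul_comm, pow_mul]
    exact L.pow_mem hvm _

/-- isolator exponents in polycyclic groups. -/
theorem iso_exp {Q : Type} [Group Q] (h : PC Q) (L : Subgroup Q) :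
    ∃ e : ℕ, 0 < e ∧ ∀ v : Q, (∃ n : ℕ, 0 < n ∧ v ^ n ∈ L) → v ^ e ∈ L := by
  obtain ⟨n, hn⟩ := h.1.solvable
  exact iso_exp_aux n Q h hn L

end Pool.Agent.Helper933.HC

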