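import Pool.Agent.Helper933.HC.Defs
import Pool.Agent.Helper933.HC.P_stable_pow
import Pool.Agent.Helper933.HC.P_bdd_of_maps
import Pool.Agent.Helper933.HC.P_bdd_pow
import Pool.Agent.Helper933.HC.P_iso_exp
import Pool.Agent.Helper933.HC.P_mem_gm
import Pool.Agent.Helper933.HC.P_induced_proj

set_option autoImplicit false

namespace Pool.Agent.Helper933.HC
open Module


/-- the uniform bound for induced modules. -/
theorem induced {K G A Q : Type} [DivisionRing K] [Group G] [AddCommGroup A] [Module K A]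
    [DistribMulAction G A] [Group Q] (ρ : G →* Q) (hQ : PC Q)
    (hsemi : ∀ g : G, Semi K (ac g : A ≃+ A)) (L : Subgroup G)
    (hL : ∀ g : G, ρ g = 1 → g ∈ L) (M : Submodule K A) (hM : St L M)
    (hind : iSupIndep (fun c : G ⧸ L => (gm c.out M : Submodule K A)))
    (hT : TOn L M) : TOn (⊤ : Subgroup G) (⨆ c : G ⧸ L, (gm c.out M : Submodule K A)) := by
  classical
  obtain ⟨l, d, hT⟩ := hT
  obtain ⟨e, he, hiso⟩ := iso_exp hQ (L.map ρ)
  have hmemL : ∀ g : G, ρ g ∈ L.map ρ ↔ g ∈ L := by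
    intro g
    constructor
    · rintro ⟨a, ha, hag⟩
      have h1 : ρ (g * a⁻¹) = 1 := by rw [map_mul, map_inv, ← hag, mul_inv_cancel]
      have h2 := L.mul_mem (hL _ h1) ha
      rwa [inv_mul_cancel_right] at h2
    · intro h
      exact ⟨g, h, rfl⟩
  obtain ⟨p, hp1, hp2, hp3, hp4⟩ := induced_proj hsemi L M hM hind
  refine ⟨l, e * d, ?_⟩
  intro g _ W hWB hWfd hWs
  have hPex : ∃ P : (G ⧸ L) → (A →ₗ[K] A), ∀ c (x : A)
      (hx : x ∈ ⨆ c : G ⧸ L, (gm c.out M : Submodule K A)), P c x = p c ⟨x, hx⟩ := by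
    have h0 : ∀ c, ∃ P : A →ₗ[K] A, P.comp (Submodule.subtype _) = p c :=
      fun c => LinearMap.exists_extend (p c)
    choose P hP using h0
    refine ⟨P, fun c x hx => ?_⟩
    rw [← hP c]
    rfl
  obtain ⟨P, hP⟩ := hPex
  have hWg : ∀ (n : ℕ) (x : A), x ∈ W → g ^ n • x ∈ W := by
    intro n x hx
    induction n with
    | zero => simpa using hx
    | succ n ih =>
      rw [pow_succ', mul_smul]
      exact (hWs _).2 ih
  -- equivariance of `P`
  have hPeq : ∀ (n : ℕ) (c : G ⧸ L) (x : A), x ∈ W → P (g ^ n • c) (g ^ n • x) = g ^ n • P c x := by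
    intro n c x hx
    rw [hP _ _ (hWB (hWg n x hx)), hP _ _ (hWB hx)]
    exact hp4 (g ^ n) c ⟨x, hWB hx⟩ ⟨g ^ n • x, hWB (hWg n x hx)⟩ rfl
  -- finite support
  have hfin : {c : G ⧸ L | ∃ x ∈ W, P c x ≠ 0}.Finite := by
    obtain ⟨S, hS⟩ := (Submodule.fg_iff_finiteDimensional W).2 hWfd
    have hSW : ∀ s ∈ S, s ∈ W := fun s hs => hS ▸ Submodule.subset_span hs
    have h1 : (⋃ s ∈ S, {c : G ⧸ L | P c s ≠ 0}).Finite := by
      refine Set.Finite.biUnion S.finite_toSet fun s hs => ?_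
      have h2 := hp3 ⟨s, hWB (hSW s hs)⟩
      refine h2.subset fun c hc => ?_
      change P c s ≠ 0 at hc
      rw [hP c s (hWB (hSW s hs))] at hc
      exact hc
    refine h1.subset ?_
    rintro c ⟨x, hx, hx0⟩
    by_contra hc
    apply hx0
    have h2 : ∀ s ∈ S, P c s = 0 := by
      intro s hs
      by_contra h
      exact hc (Set.mem_iUnion₂.2 ⟨s, hs, h⟩)
    have h3 : W ≤ LinearMap.ker (P c) := by
      rw [← hS, Submodule.span_le]
      intro s hs
      exact LinearMap.mem_ker.2 (h2 s hs)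
    exact LinearMap.mem_ker.1 (h3 hx)
  -- periodicity
  have hper : ∀ c : G ⧸ L, (∃ x ∈ W, P c x ≠ 0) → c.out⁻¹ * g ^ e * c.out ∈ L := by
    rintro c ⟨x, hx, hx0⟩
    have h1 : ∀ n : ℕ, g ^ n • c ∈ {c : G ⧸ L | ∃ x ∈ W, P c x ≠ 0} := by
      intro n
      refine ⟨g ^ n • x, hWg n x hx, ?_⟩
      rw [hPeq n c x hx]
      exact fun h => hx0 ((smul_eq_zero_iff_eq (g ^ n)).1 h)
    obtain ⟨m, n, hmn, hmn'⟩ := hfin.exists_lt_map_eq_of_forall_mem h1
    have h2 : g ^ (n - m) • c = c := by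
      have h3 : g ^ n = g ^ m * g ^ (n - m) := by rw [← pow_add, Nat.add_sub_cancel' hmn.le]
      rw [h3, mul_smul] at hmn'
      exact (smul_left_cancel (g ^ m) hmn').symm
    have h4 : c.out⁻¹ * g ^ (n - m) * c.out ∈ L := by
      have h5 : ((c.out : G) : G ⧸ L) = ((g ^ (n - m) * c.out : G) : G ⧸ L) := by
        rw [QuotientGroup.out_eq']
        conv_lhs => rw [← h2]
        conv_lhs => rw [← QuotientGroup.out_eq' c]
        rfl
      rw [QuotientGroup.eq] at h5
      rwa [mul_assoc]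
    have hconj : ∀ k : ℕ, (c.out⁻¹ * g * c.out) ^ k = c.out⁻¹ * g ^ k * c.out := by
      intro k
      have := conj_pow (i := k) (a := c.out⁻¹) (b := g)
      simpa using this
    have h6 : ρ (c.out⁻¹ * g * c.out) ^ (n - m) ∈ L.map ρ := by
      rw [← map_pow, hconj]
      exact (hmemL _).2 h4
    have h7 := hiso _ ⟨n - m, Nat.sub_pos_of_lt hmn, h6⟩
    rw [← map_pow, hconj] at h7
    exact (hmemL _).1 h7
  have hge : ∀ x : A, (ac (g ^ e) : A ≃+ A) x = (⇑(ac g : A ≃+ A))^[e] x := by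
    intro x
    change g ^ e • x = (fun y => g • y)^[e] x
    rw [smul_iterate]
  have hWs' : Stable (ac (g ^ e) : A ≃+ A) W := stable_pow hWs e hge
  have hmain : Bdd (ac (g ^ e) : A ≃+ A) l d W := by
    refine bdd_of_maps hWs' l d ?_
    intro x hx hx0
    have hex : ∃ c, P c x ≠ 0 := by
      by_contra hcon
      push Not at hcon
      have h1 := hp2 ⟨x, hWB hx⟩ fun c => by rw [← hP c x (hWB hx)]; exact hcon c
      exact hx0 (congrArg Subtype.val h1)
    obtain ⟨c, hc⟩ := hex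
    have hhL := hper c ⟨x, hx, hc⟩
    obtain ⟨h, hh⟩ : ∃ h : G, h = c.out⁻¹ * g ^ e * c.out := ⟨_, rfl⟩
    rw [← hh] at hhL
    have hgec : g ^ e • c = c := by
      have h1 : ((g ^ e * c.out : G) : G ⧸ L) = ((c.out : G) : G ⧸ L) := by
        rw [eq_comm, QuotientGroup.eq, ← mul_assoc, ← hh]
        exact hhL
      rw [QuotientGroup.out_eq'] at h1
      conv_lhs => rw [← QuotientGroup.out_eq' c]
      exact h1
    obtain ⟨τ, hτ⟩ := hsemi c.out⁻¹
    have hτ' : ∀ (k : K) (y : A), c.out⁻¹ • (k • y) = τ k • (c.out⁻¹ • y) := hτ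
    have : RingHomSurjective (τ : K →+* K) := ⟨τ.surjective⟩
    let φ : A →ₛₗ[(τ : K →+* K)] A :=
      { toFun := fun y => c.out⁻¹ • P c y
        map_add' := fun y z => by rw [map_add, smul_add]
        map_smul' := fun k y => by
          rw [map_smul]
          exact hτ' k _ }
    have hφ : ∀ y, φ y = c.out⁻¹ • P c y := fun y => rfl
    have hφg : ∀ y ∈ W, φ (g ^ e • y) = h • φ y := by
      intro y hy
      have h1 := hPeq e c y hy
      rw [hgec] at h1
      rw [hφ, hφ, h1, hh, smul_smul, smul_smul]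
      congr 1
      group
    have hW2fg : (W.map φ).FG := ((Submodule.fg_iff_finiteDimensional W).2 hWfd).map φ
    have hW2M : W.map φ ≤ M := by
      rintro _ ⟨y, hy, rfl⟩
      have h1 : P c y ∈ (gm c.out M : Submodule K A) := by
        rw [hP c y (hWB hy)]
        exact hp1 _ _
      exact (mem_gm c.out (hsemi _) M _).1 h1
    have hW2s : Stable (ac h : A ≃+ A) (W.map φ) := by
      intro y
      change h • y ∈ W.map φ ↔ y ∈ W.map φ
      constructor
      · rintro ⟨z, hz, hzy⟩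
        have h1 : (g ^ e)⁻¹ • z ∈ W := by
          refine (hWs' _).1 ?_
          change g ^ e • (g ^ e)⁻¹ • z ∈ W
          rw [smul_inv_smul]
          exact hz
        refine ⟨(g ^ e)⁻¹ • z, h1, ?_⟩
        have h2 := hφg _ h1
        rw [smul_inv_smul] at h2
        rw [hzy] at h2
        exact (smul_left_cancel h h2).symm
      · rintro ⟨z, hz, rfl⟩
        exact ⟨g ^ e • z, hWg e z hz, hφg z hz⟩
    refine ⟨K, A, inferInstance, inferInstance, inferInstance, τ, φ.toAddMonoidHom, ac h,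
      W.map φ, hsemi h, ?_, ?_, ?_, ?_, ?_⟩
    · intro k y _
      exact φ.map_smulₛₗ k y
    · intro y hy
      refine ⟨1, one_ne_zero, ?_⟩
      rw [one_smul]
      exact hφg y hy
    · intro y
      exact Submodule.mem_map
    · exact hT h hhL _ hW2M ((Submodule.fg_iff_finiteDimensional _).1 hW2fg) hW2s
    · change c.out⁻¹ • P c x ≠ 0
      exact fun h0 => hc ((smul_eq_zero_iff_eq c.out⁻¹).1 h0)
  exact bdd_pow (hsemi g) hWs he hge hmain

end Pool.Agent.Helper933.HC
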