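import Pool.Agent.Helper933.HC.Defs
import Pool.Agent.Helper933.HC.P_mem_gm
import Pool.Agent.Helper933.HC.P_gm_basic

set_option autoImplicit false

namespace Pool.Agent.Helper933.HC
open Module


theorem ms_noeth {K G A : Type} [DivisionRing K] [Group G] [AddCommGroup A] [Module K A]
    [DistribMulAction G A] (hsemi : ∀ g : G, Semi K (ac g : A ≃+ A)) (L : Subgroup G)
    (M : Submodule K A) (hM : St L M)
    (hind : iSupIndep (fun c : G ⧸ L => (gm c.out M : Submodule K A)))
    (hA : NoethFor (Set.univ : Set G) (⊤ : Submodule K A)) : NoethFor (L : Set G) M := by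
  classical
  intro f hf hfs
  have hfL : ∀ n, ∀ g ∈ L, ∀ x ∈ f n, g • x ∈ f n := fun n g hg => (hfs n).2 g hg
  have hgmono : ∀ (g : G) (V W : Submodule K A), V ≤ W →
      (gm g V : Submodule K A) ≤ gm g W := fun g V W h =>
    ((gm_basic hsemi V W g g).2.2.1).1 h
  let B : ℕ → Submodule K A := fun n => ⨆ c : G ⧸ L, gm c.out (f n)
  have hBmono : Monotone B := fun i j hij => iSup_mono (fun c => hgmono _ _ _ (hf hij))
  have hBstab : ∀ n (g : G), ∀ x ∈ B n, g • x ∈ B n := by
    intro n g x hx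
    have hle : B n ≤ gm g⁻¹ (B n) := by
      refine iSup_le fun c => ?_
      intro y hy
      rw [mem_gm _ (hsemi _)] at hy ⊢
      rw [inv_inv]
      have h1 : g • y ∈ (gm ((g • c).out) (f n) : Submodule K A) := by
        rw [mem_gm _ (hsemi _)]
        have hl : (g • c).out⁻¹ * (g * c.out) ∈ L := by
          rw [← QuotientGroup.eq, QuotientGroup.out_eq']
          conv_lhs => rw [← QuotientGroup.out_eq' c]
          rfl
        have h2 := hfL n _ hl _ hy
        have e : ((g • c).out⁻¹ * (g * c.out)) • (c.out)⁻¹ • y = (g • c).out⁻¹ • g • y := by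
          rw [smul_smul, smul_smul]
          congr 1
          group
        rwa [e] at h2
      exact (le_iSup (fun c : G ⧸ L => (gm c.out (f n) : Submodule K A)) (g • c)) h1
    have h3 := hle hx
    rwa [mem_gm _ (hsemi _), inv_inv] at h3
  obtain ⟨n, hn⟩ := hA B hBmono (fun n => ⟨le_top, fun g _ => hBstab n g⟩)
  refine ⟨n, fun m hm => le_antisymm ?_ (hf hm)⟩
  let c0 : G ⧸ L := ((1 : G) : G ⧸ L)
  have hc0 : c0.out ∈ L := by
    have h1 : ((c0.out : G) : G ⧸ L) = ((1 : G) : G ⧸ L) := QuotientGroup.out_eq' c0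
    rw [QuotientGroup.eq, mul_one] at h1
    exact (inv_mem_iff).mp h1
  have hmemc0 : ∀ k, ∀ x, x ∈ (gm c0.out (f k) : Submodule K A) ↔ x ∈ f k := by
    intro k x
    rw [mem_gm _ (hsemi _)]
    constructor
    · intro h
      have h2 := hfL k _ hc0 _ h
      rwa [smul_inv_smul] at h2
    · intro h
      exact hfL k _ (L.inv_mem hc0) _ h
  intro x hx
  have hxM : x ∈ (gm c0.out M : Submodule K A) :=
    hgmono _ _ _ (hfs m).1 ((hmemc0 m x).2 hx)
  have hxB : x ∈ B n := by
    rw [← hn m hm]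
    exact (le_iSup (fun c : G ⧸ L => (gm c.out (f m) : Submodule K A)) c0) ((hmemc0 m x).2 hx)
  have hle : B n ≤ (gm c0.out (f n) : Submodule K A) ⊔
      ⨆ c : G ⧸ L, ⨆ _ : c ≠ c0, (gm c.out (f n) : Submodule K A) := by
    refine iSup_le fun c => ?_
    by_cases hc : c = c0
    · rw [hc]
      exact le_sup_left
    · refine le_trans ?_ le_sup_right
      exact le_iSup_of_le c (le_iSup_of_le hc le_rfl)
  obtain ⟨y, hy, z, hz, hyz⟩ := Submodule.mem_sup.mp (hle hxB)
  have hz2 : z ∈ ⨆ c : G ⧸ L, ⨆ _ : c ≠ c0, (gm c.out M : Submodule K A) := by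
    have h4 : (⨆ c : G ⧸ L, ⨆ _ : c ≠ c0, (gm c.out (f n) : Submodule K A)) ≤
        ⨆ c : G ⧸ L, ⨆ _ : c ≠ c0, (gm c.out M : Submodule K A) :=
      iSup_mono fun c => iSup_mono fun _ => hgmono _ _ _ (hfs n).1
    exact h4 hz
  have hz1 : z ∈ (gm c0.out M : Submodule K A) := by
    have h5 : z = x - y := by rw [← hyz]; abel
    rw [h5]
    exact Submodule.sub_mem _ hxM (hgmono _ _ _ (hfs n).1 hy)
  have hz0 : z = 0 := by
    have h6 := hind c0
    rw [Submodule.disjoint_def] at h6
    exact h6 z hz1 hz2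
  rw [hz0, add_zero] at hyz
  rw [← hyz]
  exact (hmemc0 n y).1 hy

end Pool.Agent.Helper933.HC
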