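import Pool.Agent.Helper933.HC.Defs
import Pool.Agent.Helper933.HC.P_mem_gm
import Pool.Agent.Helper933.HC.P_gm_basic

set_option autoImplicit false

namespace Pool.Agent.Helper933.HC
open Module


theorem simp_gm {K G A : Type} [DivisionRing K] [Group G] [AddCommGroup A] [Module K A]
    [DistribMulAction G A] (hsemi : ∀ g : G, Semi K (ac g : A ≃+ A)) (N : Subgroup G)
    (hN : N.Normal) (g : G) (V : Submodule K A) (h : Simp N V) : Simp N (gm g V) := by
  intro V' hV' hst
  have hc1 : (gm g⁻¹ (gm g V : Submodule K A) : Submodule K A) = V := by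
    rw [← (gm_basic hsemi V V g⁻¹ g).2.1, inv_mul_cancel]
    exact (gm_basic hsemi V V g g).1
  have hc2 : (gm g (gm g⁻¹ V' : Submodule K A) : Submodule K A) = V' := by
    rw [← (gm_basic hsemi V' V' g g⁻¹).2.1, mul_inv_cancel]
    exact (gm_basic hsemi V' V' g g).1
  have hW : (gm g⁻¹ V' : Submodule K A) ≤ V := by
    have h1 := (gm_basic hsemi V' (gm g V) g⁻¹ g).2.2.1.mp hV'
    rw [hc1] at h1
    exact h1
  have hs : St N (gm g⁻¹ V' : Submodule K A) := by
    intro n hn x hx
    rw [mem_gm g⁻¹ (hsemi g⁻¹), inv_inv] at hx ⊢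
    have h1 := hst (g * n * g⁻¹) (hN.conj_mem n hn g) _ hx
    rw [← mul_smul] at h1
    rw [← mul_smul]
    have h2 : g * n * g⁻¹ * g = g * n := by group
    rw [h2] at h1
    exact h1
  rcases h _ hW hs with h1 | h1
  · left
    exact (gm_basic hsemi V' V' g⁻¹ g).2.2.2.mpr h1
  · right
    rw [← hc2, h1]

end Pool.Agent.Helper933.HC
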