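import Pool.Agent.Helper933.HC.Defs
import Pool.Agent.Helper933.HC.P_mem_gm
import Pool.Agent.Helper933.HC.P_gm_basic

set_option autoImplicit false

namespace Pool.Agent.Helper933.HC
open Module


theorem cgm_semi {K G A : Type} [DivisionRing K] [Group G] [AddCommGroup A] [Module K A]
    [DistribMulAction G A] (g : G) (σ : K ≃+* K)
    (hσ : ∀ (k : K) (x : A), g • (k • x) = σ k • g • x) (k : K) (z : A) :
    g⁻¹ • (σ k • z) = k • (g⁻¹ • z) := by
  have h1 : σ k • z = g • (k • (g⁻¹ • z)) := by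
    rw [hσ, smul_inv_smul]
  rw [h1, inv_smul_smul]

/-- the conjugated map -/
def cgm_map {K G A : Type} [DivisionRing K] [Group G] [AddCommGroup A] [Module K A]
    [DistribMulAction G A] (g : G) (σ : K ≃+* K)
    (hσ : ∀ (k : K) (x : A), g • (k • x) = σ k • g • x) (V V' : Submodule K A)
    (hV' : ∀ x, x ∈ V' → g • x ∈ V) (f : V →ₗ[K] A) : V' →ₗ[K] A where
  toFun x := g⁻¹ • f ⟨g • (x : A), hV' x x.2⟩
  map_add' x y := by
    have h1 : (⟨g • ((x + y : V') : A), hV' _ (x + y).2⟩ : V) =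
        ⟨g • (x : A), hV' x x.2⟩ + ⟨g • (y : A), hV' y y.2⟩ := by
      apply Subtype.ext
      show g • ((x : A) + (y : A)) = g • (x : A) + g • (y : A)
      exact smul_add _ _ _
    rw [h1, map_add, smul_add]
  map_smul' k x := by
    have h1 : (⟨g • ((k • x : V') : A), hV' _ (k • x).2⟩ : V) =
        σ k • ⟨g • (x : A), hV' x x.2⟩ := by
      apply Subtype.ext
      show g • (k • (x : A)) = σ k • g • (x : A)
      exact hσ _ _
    rw [h1, map_smul, cgm_semi g σ hσ, RingHom.id_apply]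

theorem crit_gm {K G A : Type} [DivisionRing K] [Group G] [AddCommGroup A] [Module K A]
    [DistribMulAction G A] (hsemi : ∀ g : G, Semi K (ac g : A ≃+ A)) (N : Subgroup G)
    (hN : N.Normal) {U : Submodule K A} (g : G) (hU : Crit N U) : Crit N (gm g U) := by
  obtain ⟨hU0, hUs, hUc⟩ := hU
  refine ⟨?_, ?_, ?_⟩
  · intro h
    exact hU0 ((gm_basic hsemi U U g g).2.2.2.2 h)
  · intro n hn x hx
    rw [mem_gm g (hsemi g)] at hx ⊢
    have h1 : g⁻¹ • n • x = (g⁻¹ * n * g) • g⁻¹ • x := by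
      rw [smul_smul, smul_smul]; congr 1; group
    rw [h1]
    have h2 : g⁻¹ * n * g ∈ N := by
      have := hN.conj_mem n hn g⁻¹
      simpa using this
    exact hUs _ h2 _ hx
  · intro V hV hVs f hf hf0
    obtain ⟨σ, hσ'⟩ := hsemi g
    have hσ : ∀ (k : K) (x : A), g • (k • x) = σ k • g • x := fun k x => hσ' k x
    have hmem : ∀ x : A, x ∈ (gm g⁻¹ V : Submodule K A) ↔ g • x ∈ V := by
      intro x
      rw [mem_gm g⁻¹ (hsemi g⁻¹), inv_inv]
    have hle : (gm g⁻¹ V : Submodule K A) ≤ U := by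
      intro x hx
      have h1 := hV ((hmem x).1 hx)
      rw [mem_gm g (hsemi g), inv_smul_smul] at h1
      exact h1
    have hst : St N (gm g⁻¹ V : Submodule K A) := by
      intro n hn x hx
      rw [hmem] at hx ⊢
      have h1 : g • n • x = (g * n * g⁻¹) • g • x := by
        rw [smul_smul, smul_smul]; congr 1; group
      rw [h1]
      exact hVs _ (hN.conj_mem n hn g) _ hx
    have hV' : ∀ x, x ∈ (gm g⁻¹ V : Submodule K A) → g • x ∈ V := fun x hx => (hmem x).1 hx
    have hE : Equi N (cgm_map g σ hσ V (gm g⁻¹ V) hV' f) := by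
      intro n hn x y hxy
      show g⁻¹ • f ⟨g • (y : A), hV' y y.2⟩ = n • g⁻¹ • f ⟨g • (x : A), hV' x x.2⟩
      have h1 := hf (g * n * g⁻¹) (hN.conj_mem n hn g) ⟨g • (x : A), hV' x x.2⟩
        ⟨g • (y : A), hV' y y.2⟩ (by
          show g • (y : A) = (g * n * g⁻¹) • g • (x : A)
          rw [hxy, smul_smul, smul_smul]; congr 1; group)
      rw [h1, smul_smul, smul_smul]
      congr 1
      group
    have hback : ∀ v : V, ∃ x : (gm g⁻¹ V : Submodule K A), (x : A) = g⁻¹ • (v : A) ∧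
        cgm_map g σ hσ V (gm g⁻¹ V) hV' f x = g⁻¹ • f v := by
      intro v
      have h1 : g⁻¹ • (v : A) ∈ (gm g⁻¹ V : Submodule K A) := by
        rw [hmem, smul_inv_smul]; exact v.2
      refine ⟨⟨g⁻¹ • (v : A), h1⟩, rfl, ?_⟩
      show g⁻¹ • f ⟨g • (g⁻¹ • (v : A)), _⟩ = g⁻¹ • f v
      congr 2
      apply Subtype.ext
      exact smul_inv_smul _ _
    have hne : cgm_map g σ hσ V (gm g⁻¹ V) hV' f ≠ 0 := by
      intro h0
      apply hf0
      apply LinearMap.ext
      intro v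
      obtain ⟨x, _, hx⟩ := hback v
      rw [h0, LinearMap.zero_apply] at hx
      have h2 : g • (0 : A) = g • g⁻¹ • f v := by rw [← hx]
      rw [smul_zero, smul_inv_smul] at h2
      rw [LinearMap.zero_apply, ← h2]
    have hinj := hUc _ hle hst _ hE hne
    intro a b hab
    obtain ⟨x, hx1, hx2⟩ := hback a
    obtain ⟨y, hy1, hy2⟩ := hback b
    have h1 : x = y := hinj (by rw [hx2, hy2, hab])
    have h2 : g⁻¹ • (a : A) = g⁻¹ • (b : A) := by rw [← hx1, ← hy1, h1]
    exact Subtype.ext (smul_left_cancel _ h2)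

end Pool.Agent.Helper933.HC
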