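import Pool.Agent.Helper933.HC.Defs
import Pool.Agent.Helper933.HC.P_mem_gm
import Pool.Agent.Helper933.HC.P_gm_basic

set_option autoImplicit false

namespace Pool.Agent.Helper933.HC
open Module


theorem sim_gm {K G A : Type} [DivisionRing K] [Group G] [AddCommGroup A] [Module K A]
    [DistribMulAction G A] (hsemi : ∀ g : G, Semi K (ac g : A ≃+ A)) (N : Subgroup G)
    (hN : N.Normal) {U V : Submodule K A} (g : G) (h : Sim N U V) :
    Sim N (gm g U : Submodule K A) (gm g V) := by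
  obtain ⟨U₁, hU₁, hSt, f, hE, hf0, hfV⟩ := h
  obtain ⟨σ, hσ⟩ := hsemi g
  have hσ1 : ∀ (k : K) (x : A), g • (k • x) = σ k • (g • x) := hσ
  have hσ2 : ∀ (k : K) (x : A), g⁻¹ • (k • x) = σ.symm k • (g⁻¹ • x) := by
    intro k x
    rw [inv_smul_eq_iff, hσ1, RingEquiv.apply_symm_apply, smul_inv_smul]
  have hmem : ∀ (W : Submodule K A) (x : A), x ∈ (gm g W : Submodule K A) ↔ g⁻¹ • x ∈ W :=
    fun W x => mem_gm g (hsemi g) W x
  set f' : (gm g U₁ : Submodule K A) →ₗ[K] A :=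
    { toFun := fun x => g • f ⟨g⁻¹ • (x : A), (hmem U₁ x).1 x.2⟩
      map_add' := by
        intro x y
        have e : (⟨g⁻¹ • ((x + y : (gm g U₁ : Submodule K A)) : A), (hmem U₁ _).1 (x + y).2⟩ : U₁) =
            ⟨g⁻¹ • (x : A), (hmem U₁ x).1 x.2⟩ + ⟨g⁻¹ • (y : A), (hmem U₁ y).1 y.2⟩ := by
          apply Subtype.ext
          simp [smul_add]
        rw [e, map_add, smul_add]
      map_smul' := by
        intro k x
        have e : (⟨g⁻¹ • ((k • x : (gm g U₁ : Submodule K A)) : A), (hmem U₁ _).1 (k • x).2⟩ : U₁) =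
            σ.symm k • ⟨g⁻¹ • (x : A), (hmem U₁ x).1 x.2⟩ := by
          apply Subtype.ext
          show g⁻¹ • (k • (x : A)) = σ.symm k • (g⁻¹ • (x : A))
          exact hσ2 k x
        rw [e, map_smul, hσ1, RingEquiv.apply_symm_apply, RingHom.id_apply] } with hf'
  have hf'a : ∀ x : (gm g U₁ : Submodule K A),
      f' x = g • f ⟨g⁻¹ • (x : A), (hmem U₁ x).1 x.2⟩ := fun x => rfl
  refine ⟨gm g U₁, ((gm_basic hsemi U₁ U g g).2.2.1).1 hU₁, ?_, f', ?_, ?_, ?_⟩
  · intro n hn x hx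
    rw [hmem] at hx ⊢
    have hn' : g⁻¹ * n * g ∈ N := by
      have := hN.conj_mem n hn g⁻¹
      rwa [inv_inv] at this
    have h1 := hSt _ hn' _ hx
    have h2 : (g⁻¹ * n * g) • g⁻¹ • x = g⁻¹ • n • x := by
      simp only [smul_smul]
      congr 1
      group
    rwa [h2] at h1
  · intro n hn x y hxy
    have hn' : g⁻¹ * n * g ∈ N := by
      have := hN.conj_mem n hn g⁻¹
      rwa [inv_inv] at this
    rw [hf'a, hf'a]
    have h1 := hE _ hn' ⟨g⁻¹ • (x : A), (hmem U₁ x).1 x.2⟩ ⟨g⁻¹ • (y : A), (hmem U₁ y).1 y.2⟩ (by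
      show g⁻¹ • (y : A) = (g⁻¹ * n * g) • g⁻¹ • (x : A)
      rw [hxy]
      simp only [smul_smul]
      congr 1
      group)
    rw [h1]
    simp only [smul_smul]
    congr 1
    group
  · intro h0
    apply hf0
    ext u
    have hu : g • (u : A) ∈ (gm g U₁ : Submodule K A) := by
      rw [hmem, inv_smul_smul]
      exact u.2
    have h1 : f' ⟨g • (u : A), hu⟩ = 0 := by
      rw [h0]
      rfl
    rw [hf'a] at h1
    have h2 : (⟨g⁻¹ • (g • (u : A)), (hmem U₁ _).1 hu⟩ : U₁) = u := by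
      apply Subtype.ext
      exact inv_smul_smul _ _
    rw [h2, smul_eq_zero_iff_eq] at h1
    rw [h1]
    rfl
  · intro x
    rw [hmem, hf'a, inv_smul_smul]
    exact hfV _

end Pool.Agent.Helper933.HC
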