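import Pool.Agent.Helper933.HC.Defs

set_option autoImplicit false

namespace Pool.Agent.Helper933.HC
open Module


theorem sim_symm {K G A : Type} [DivisionRing K] [Group G] [AddCommGroup A] [Module K A]
    [DistribMulAction G A] (N : Subgroup G) {U V : Submodule K A} (hU : Crit N U)
    (hV : Crit N V) (h : Sim N U V) : Sim N V U := by
  obtain ⟨U₁, hU₁, hst, f, heq, hf0, hfV⟩ := h
  have hinj : Function.Injective f := hU.2.2 U₁ hU₁ hst f heq hf0
  let e := LinearEquiv.ofInjective f hinj
  have hfe : ∀ z : LinearMap.range f, f (e.symm z) = (z : A) := by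
    intro z
    have h1 : e (e.symm z) = z := e.apply_symm_apply z
    have h2 : ((e (e.symm z) : LinearMap.range f) : A) = f (e.symm z) := rfl
    rw [← h2, h1]
  refine ⟨LinearMap.range f, ?_, ?_, U₁.subtype ∘ₗ (e.symm : LinearMap.range f →ₗ[K] U₁), ?_, ?_, ?_⟩
  · rintro y ⟨x, rfl⟩
    exact hfV x
  · rintro g hg y ⟨x, rfl⟩
    exact ⟨⟨g • (x : A), hst g hg x x.2⟩, heq g hg x ⟨g • (x : A), hst g hg x x.2⟩ rfl⟩
  · intro g hg x y hxy
    show ((e.symm y : U₁) : A) = g • ((e.symm x : U₁) : A)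
    have h1 : f (e.symm y) = f ⟨g • ((e.symm x : U₁) : A), hst g hg _ (e.symm x).2⟩ := by
      rw [heq g hg (e.symm x) ⟨g • ((e.symm x : U₁) : A), hst g hg _ (e.symm x).2⟩ rfl, hfe, hfe, hxy]
    exact congrArg Subtype.val (hinj h1)
  · intro h0
    apply hf0
    ext u
    have h1 : ((e.symm (e u) : U₁) : A) = 0 := by
      have := LinearMap.congr_fun h0 (e u)
      exact this
    rw [e.symm_apply_apply] at h1
    have h2 : u = 0 := Subtype.ext h1
    rw [h2, map_zero, map_zero]
  · intro x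
    exact hU₁ (e.symm x).2

end Pool.Agent.Helper933.HC
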