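import Pool.Agent.Helper933.HC.Defs

set_option autoImplicit false

namespace Pool.Agent.Helper933.HC
open Module


theorem crit_uniform {K G A : Type} [DivisionRing K] [Group G] [AddCommGroup A] [Module K A]
    [DistribMulAction G A] (N : Subgroup G) {U Z₁ Z₂ : Submodule K A} (hU : Crit N U)
    (h1 : Z₁ ≤ U) (h2 : Z₂ ≤ U) (h10 : Z₁ ≠ ⊥) (h20 : Z₂ ≠ ⊥) (hs1 : St N Z₁) (hs2 : St N Z₂) :
    Z₁ ⊓ Z₂ ≠ ⊥ := by
  intro hbot
  have hd : Disjoint Z₂ Z₁ := (disjoint_iff.2 hbot).symm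
  obtain ⟨C, hC, hcomp⟩ := hd.exists_isCompl
  obtain ⟨π, hπ⟩ : ∃ π : A →ₗ[K] A, π = Z₁.projection C hcomp.symm := ⟨_, rfl⟩
  have hπ1 : ∀ x ∈ Z₁, π x = x := fun x hx => by
    rw [hπ]; exact Submodule.projection_apply_of_mem_left _ hx
  have hπ2 : ∀ x ∈ Z₂, π x = 0 := fun x hx => by
    rw [hπ]; exact (Submodule.projection_apply_eq_zero_iff _).2 (hC hx)
  have hSt : St N (Z₁ ⊔ Z₂) := by
    intro g hg x hx
    obtain ⟨a, ha, b, hb, rfl⟩ := Submodule.mem_sup.1 hx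
    rw [smul_add]
    exact Submodule.add_mem_sup (hs1 g hg a ha) (hs2 g hg b hb)
  have hE : Equi N (π ∘ₗ (Z₁ ⊔ Z₂).subtype) := by
    intro g hg x y hxy
    obtain ⟨a, ha, b, hb, hab⟩ := Submodule.mem_sup.1 x.2
    have hy : (y : A) = g • a + g • b := by rw [hxy, ← hab, smul_add]
    have e1 : (π ∘ₗ (Z₁ ⊔ Z₂).subtype) y = g • a := by
      show π (y : A) = _
      rw [hy, map_add, hπ1 _ (hs1 g hg a ha), hπ2 _ (hs2 g hg b hb), add_zero]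
    have e2 : (π ∘ₗ (Z₁ ⊔ Z₂).subtype) x = a := by
      show π (x : A) = _
      rw [← hab, map_add, hπ1 _ ha, hπ2 _ hb, add_zero]
    rw [e1, e2]
  obtain ⟨z1, hz1, hz1'⟩ := Submodule.exists_mem_ne_zero_of_ne_bot h10
  obtain ⟨z2, hz2, hz2'⟩ := Submodule.exists_mem_ne_zero_of_ne_bot h20
  have hf0 : (π ∘ₗ (Z₁ ⊔ Z₂).subtype) ≠ 0 := by
    intro h
    apply hz1'
    have h3 : (π ∘ₗ (Z₁ ⊔ Z₂).subtype) ⟨z1, Submodule.mem_sup_left hz1⟩ = z1 := hπ1 _ hz1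
    rw [h] at h3
    exact h3.symm
  have hinj := hU.2.2 (Z₁ ⊔ Z₂) (sup_le h1 h2) hSt _ hE hf0
  apply hz2'
  have h4 : (π ∘ₗ (Z₁ ⊔ Z₂).subtype) ⟨z2, Submodule.mem_sup_right hz2⟩ =
      (π ∘ₗ (Z₁ ⊔ Z₂).subtype) 0 := by
    rw [map_zero]
    exact hπ2 _ hz2
  exact congrArg Subtype.val (hinj h4)

end Pool.Agent.Helper933.HC
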