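import Pool.Agent.Helper933.HC.Defs
import Pool.Agent.Helper933.HC.P_crit_uniform

set_option autoImplicit false

namespace Pool.Agent.Helper933.HC
open Module


theorem sim_trans {K G A : Type} [DivisionRing K] [Group G] [AddCommGroup A] [Module K A]
    [DistribMulAction G A] (N : Subgroup G) {U V W : Submodule K A} (hU : Crit N U)
    (hV : Crit N V) (hW : Crit N W) (h1 : Sim N U V) (h2 : Sim N V W) : Sim N U W := by
  obtain ⟨U₁, hU₁, hsU₁, f, hf, hf0, hfV⟩ := h1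
  obtain ⟨V₁, hV₁, hsV₁, e, he, he0, heW⟩ := h2
  have hfi := hU.2.2 U₁ hU₁ hsU₁ f hf hf0
  have hei := hV.2.2 V₁ hV₁ hsV₁ e he he0
  have hrs : St N (LinearMap.range f) := by
    rintro g hg _ ⟨x, rfl⟩
    exact ⟨⟨g • (x : A), hsU₁ g hg _ x.2⟩, hf g hg x _ rfl⟩
  have hrle : LinearMap.range f ≤ V := by
    rintro _ ⟨x, rfl⟩
    exact hfV x
  have hr0 : LinearMap.range f ≠ ⊥ := by
    intro h
    exact hf0 (LinearMap.range_eq_bot.1 h)
  have hV₁0 : V₁ ≠ ⊥ := by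
    intro h
    apply he0
    subst h
    ext x
    have : x = 0 := Subsingleton.elim _ _
    rw [this, map_zero, map_zero]
  have hV₂ := crit_uniform N hV hrle hV₁ hr0 hV₁0 hrs hsV₁
  let U₂ : Submodule K A := (V₁.comap f).map U₁.subtype
  have hmem : ∀ x : A, x ∈ U₂ ↔ ∃ hx : x ∈ U₁, f ⟨x, hx⟩ ∈ V₁ := by
    intro x
    constructor
    · rintro ⟨y, hy, rfl⟩
      exact ⟨y.2, hy⟩
    · rintro ⟨hx, hx'⟩
      exact ⟨⟨x, hx⟩, hx', rfl⟩
  have hle : U₂ ≤ U₁ := fun x hx => ((hmem x).1 hx).1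
  have hcod : ∀ x : U₂, (f.comp (Submodule.inclusion hle)) x ∈ V₁ := fun x =>
    ((hmem x).1 x.2).2
  refine ⟨U₂, hle.trans hU₁, ?_,
    e.comp (LinearMap.codRestrict V₁ (f.comp (Submodule.inclusion hle)) hcod), ?_, ?_, ?_⟩
  · intro g hg x hx
    obtain ⟨hx1, hx2⟩ := (hmem x).1 hx
    refine (hmem _).2 ⟨hsU₁ g hg x hx1, ?_⟩
    have h3 : f ⟨g • x, hsU₁ g hg x hx1⟩ = g • f ⟨x, hx1⟩ := hf g hg ⟨x, hx1⟩ _ rfl
    rw [h3]
    exact hsV₁ g hg _ hx2
  · intro g hg x y hxy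
    apply he g hg
    exact hf g hg _ _ hxy
  · intro h0
    obtain ⟨v, hv, hv0⟩ := Submodule.exists_mem_ne_zero_of_ne_bot hV₂
    obtain ⟨⟨x, hx⟩, hv2⟩ := hv
    have h3 := LinearMap.congr_fun h0 (⟨(x : A), (hmem _).2 ⟨x.2, by
      have : (⟨(x : A), x.2⟩ : U₁) = x := rfl
      rw [this, hx]; exact hv2⟩⟩ : U₂)
    have h4 := hei (h3.trans (map_zero e).symm)
    apply hv0
    have h5 := congrArg Subtype.val h4
    have h6 : f x = 0 := h5
    rw [← hx, h6]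
  · intro x
    exact heW _

end Pool.Agent.Helper933.HC
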