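import Pool.Agent.Helper933.HC.Defs
import Pool.Agent.Helper933.HC.P_gm_basic
import Pool.Agent.Helper933.HC.P_crit_sub
import Pool.Agent.Helper933.HC.P_sim_symm
import Pool.Agent.Helper933.HC.P_sim_trans
import Pool.Agent.Helper933.HC.P_crit_gm
import Pool.Agent.Helper933.HC.P_sim_gm

set_option autoImplicit false

namespace Pool.Agent.Helper933.HC
open Module


theorem stab_group {K G A : Type} [DivisionRing K] [Group G] [AddCommGroup A] [Module K A]
    [DistribMulAction G A] (hsemi : ∀ g : G, Semi K (ac g : A ≃+ A)) (N : Subgroup G)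
    (hN : N.Normal) {U : Submodule K A} (hU : Crit N U) :
    ∃ L : Subgroup G, (∀ g, g ∈ L ↔ Sim N U (gm g U)) ∧ N ≤ L := by
  have hself : Sim N U U := (crit_sub N hU le_rfl hU.1 hU.2.1).2.1
  refine ⟨{ carrier := {g | Sim N U (gm g U)}, mul_mem' := ?_, one_mem' := ?_, inv_mem' := ?_ },
    fun g => Iff.rfl, ?_⟩
  · intro g h hg hh
    have hg' : Sim N U (gm g U) := hg
    have hh' : Sim N U (gm h U) := hh
    have h1 : Sim N (gm g U : Submodule K A) (gm g (gm h U)) := sim_gm hsemi N hN g hh'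
    have h2 := sim_trans N hU (crit_gm hsemi N hN g hU)
      (crit_gm hsemi N hN g (crit_gm hsemi N hN h hU)) hg' h1
    change Sim N U (gm (g * h) U)
    rw [(gm_basic hsemi U U g h).2.1]
    exact h2
  · change Sim N U (gm (1 : G) U)
    rw [(gm_basic hsemi U U 1 1).1]
    exact hself
  · intro g hg
    have hg' : Sim N U (gm g U) := hg
    have h1 : Sim N (gm g⁻¹ U : Submodule K A) (gm g⁻¹ (gm g U)) := sim_gm hsemi N hN g⁻¹ hg'
    rw [← (gm_basic hsemi U U g⁻¹ g).2.1, inv_mul_cancel, (gm_basic hsemi U U 1 1).1] at h1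
    exact sim_symm N (crit_gm hsemi N hN g⁻¹ hU) hU h1
  · intro n hn
    change Sim N U (gm n U)
    have hgU : (gm n U : Submodule K A) = U := by
      apply le_antisymm
      · rw [gm, Submodule.span_le]
        rintro y ⟨x, hx, rfl⟩
        exact hU.2.1 n hn x hx
      · intro x hx
        apply Submodule.subset_span
        exact ⟨n⁻¹ • x, hU.2.1 n⁻¹ (inv_mem hn) x hx, by rw [smul_inv_smul]⟩
    rw [hgU]
    exact hself

end Pool.Agent.Helper933.HC
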