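import Pool.Agent.Helper933.HC.Defs
import Pool.Agent.Helper933.HC.P_pc_sub
import Pool.Agent.Helper933.HC.P_pc_surj
import Pool.Agent.Helper933.HC.P_hl_sub
import Pool.Agent.Helper933.HC.P_hl_quot
import Pool.Agent.Helper933.HC.P_hall_sub
import Pool.Agent.Helper933.HC.P_acc_fg
import Pool.Agent.Helper933.HC.P_mem_gm
import Pool.Agent.Helper933.HC.P_gm_basic
import Pool.Agent.Helper933.HC.P_crit_sub
import Pool.Agent.Helper933.HC.P_stab_group
import Pool.Agent.Helper933.HC.P_ms_indep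
import Pool.Agent.Helper933.HC.P_ms_noeth
import Pool.Agent.Helper933.HC.P_induced
import Pool.Agent.Helper933.HC.P_clifford
import Pool.Agent.Helper933.HC.P_simp_gm

set_option autoImplicit false

namespace Pool.Agent.Helper933.HC
open Module


theorem gm_sup_stable_aux {K G A : Type} [DivisionRing K] [Group G] [AddCommGroup A] [Module K A]
    [DistribMulAction G A] (hsemi : ∀ g : G, Semi K (ac g : A ≃+ A)) (L : Subgroup G)
    (M : Submodule K A) (hM : St L M) :
    St (⊤ : Subgroup G) (⨆ c : G ⧸ L, (gm c.out M : Submodule K A)) := by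
  intro g _ x hx
  induction hx using Submodule.iSup_induction' with
  | mem c x hx =>
    have hx' := (mem_gm c.out (hsemi _) M x).1 hx
    let c' : G ⧸ L := QuotientGroup.mk (g * c.out)
    have hc' : (c'.out)⁻¹ * (g * c.out) ∈ L := by
      rw [← QuotientGroup.eq]
      exact QuotientGroup.out_eq' c'
    have hmem : g • x ∈ (gm c'.out M : Submodule K A) := by
      rw [mem_gm c'.out (hsemi _) M]
      have h1 : (c'.out)⁻¹ • (g • x) = ((c'.out)⁻¹ * (g * c.out)) • ((c.out)⁻¹ • x) := by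
        rw [smul_smul, smul_smul]
        congr 1
        group
      rw [h1]
      exact hM _ hc' _ hx'
    exact Submodule.mem_iSup_of_mem c' hmem
  | zero => rw [smul_zero]; exact Submodule.zero_mem _
  | add x y _ _ hx hy => rw [smul_add]; exact Submodule.add_mem _ hx hy

theorem case2a {Q : Type} [Group Q] (hQ : PC Q) {n : ℕ} (hn : HL Q n) {r : ℕ}
    (ε : Multiplicative (Fin r → ℤ) →* Q) (hP : Plinth Q r ε)
    (IH : ∀ (Q' : Type) [Group Q'], PC Q' → ∀ m < n, HL Q' m → MainFor Q')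
    {K G A : Type} [DivisionRing K] [Group G] [AddCommGroup A] [Module K A]
    [DistribMulAction G A] (ρ : G →* Q) (hρ : Function.Surjective ρ) (hS : Sys K G A Q ρ)
    (V : Submodule K A) (hV0 : V ≠ ⊥) (hVs : St (ε.range.comap ρ) V)
    (hVf : FiniteDimensional K V) :
    ∃ B : Submodule K A, B ≠ ⊥ ∧ St (⊤ : Subgroup G) B ∧ TOn (⊤ : Subgroup G) B := by
  classical
  have hsemi := hS.semi
  set N : Subgroup G := ε.range.comap ρ with hNdef
  have hεn : ε.range.Normal := hP.normal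
  have hN : N.Normal := hεn.comap ρ
  -- a minimal stable subspace
  have hexk : ∃ k : ℕ, ∃ U ≤ V, U ≠ ⊥ ∧ St N U ∧ finrank K U = k :=
    ⟨_, V, le_rfl, hV0, hVs, rfl⟩
  obtain ⟨U, hUV, hU0, hUst, hUk⟩ := Nat.find_spec hexk
  have hmin : ∀ W ≤ V, W ≠ ⊥ → St N W → finrank K U ≤ finrank K W := by
    intro W hW hW0 hWs
    rw [hUk]
    exact Nat.find_min' hexk ⟨W, hW, hW0, hWs, rfl⟩
  have hUf : FiniteDimensional K U := Submodule.finiteDimensional_of_le hUV
  have hUs : Simp N U := by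
    intro W hWU hWs
    by_cases hW0 : W = ⊥
    · exact Or.inl hW0
    · right
      exact Submodule.eq_of_le_of_finrank_le hWU (hmin W (hWU.trans hUV) hW0 hWs)
  have hU : Crit N U := by
    refine ⟨hU0, hUst, ?_⟩
    intro W hWU hWs f hf hf0
    have hst : St N ((LinearMap.ker f).map W.subtype) := by
      rintro g hg _ ⟨w, hw, rfl⟩
      refine ⟨⟨g • (w : A), hWs g hg w w.2⟩, ?_, rfl⟩
      have h1 := hf g hg w ⟨g • (w : A), hWs g hg w w.2⟩ rfl
      have h2 : f w = 0 := hw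
      show f ⟨g • (w : A), hWs g hg w w.2⟩ = 0
      rw [h1, h2, smul_zero]
    have hle : (LinearMap.ker f).map W.subtype ≤ W := Submodule.map_subtype_le _ _
    rcases hUs _ (hle.trans hWU) hst with h0 | h0
    · rw [← LinearMap.ker_eq_bot]
      rw [Submodule.eq_bot_iff] at h0 ⊢
      intro w hw
      exact Subtype.ext (h0 (w : A) ⟨w, hw, rfl⟩)
    · exfalso
      apply hf0
      ext w
      have hw : (w : A) ∈ (LinearMap.ker f).map W.subtype := by
        rw [h0]; exact hWU w.2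
      obtain ⟨w', hw', hww⟩ := hw
      have : w' = w := Subtype.ext hww
      rw [← this]
      exact hw'
  obtain ⟨L, hL, hNL⟩ := stab_group hsemi N hN hU
  set M : Submodule K A := MS N (Simp N) U with hMdef
  have hsim : Sim N U U := (crit_sub N hU le_rfl hU0 hUst).2.1
  have hUM : U ≤ M := le_sSup ⟨hUs, hU, hsim⟩
  have hM0 : M ≠ ⊥ := ne_bot_of_le_ne_bot hU0 hUM
  obtain ⟨hStM, hind⟩ := ms_indep hsemi N hN (Simp N) (fun g V h => simp_gm hsemi N hN g V h) hU L hL
  obtain ⟨S, hSfg⟩ := hS.fg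
  have hA : NoethFor (Set.univ : Set G) (⊤ : Submodule K A) := by
    have h1 := hall_sub ρ hQ hsemi hS.scal (⊤ : Subgroup G) S
    have h2 : {y : A | ∃ g ∈ (⊤ : Subgroup G), ∃ s ∈ S, y = g • s}
        = {x : A | ∃ g : G, ∃ s ∈ S, x = g • s} := by
      ext y
      simp
    rw [h2, hSfg, Subgroup.coe_top] at h1
    exact h1
  have hNM : NoethFor (L : Set G) M := ms_noeth hsemi L M hStM hind hA
  obtain ⟨S', hS'⟩ := acc_fg hsemi L M hNM M le_rfl hStM
  have hker : ∀ g : G, ρ g = 1 → g ∈ L := by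
    intro g hg
    apply hNL
    rw [hNdef, Subgroup.mem_comap, hg]
    exact Subgroup.one_mem _
  have hεL : ε.range ≤ L.map ρ := by
    rintro q hq
    obtain ⟨g, rfl⟩ := hρ q
    exact Subgroup.mem_map_of_mem ρ (hNL hq)
  have hinf : Infinite (ε.range.subgroupOf (L.map ρ)) := by
    haveI : Nonempty (Fin r) := ⟨⟨0, hP.pos⟩⟩
    haveI : Infinite (Fin r → ℤ) := inferInstance
    haveI : Infinite (Multiplicative (Fin r → ℤ)) := inferInstanceAs (Infinite (Fin r → ℤ))
    refine Infinite.of_injective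
      (fun v : Multiplicative (Fin r → ℤ) =>
        (⟨⟨ε v, hεL ⟨v, rfl⟩⟩, Subgroup.mem_subgroupOf.2 ⟨v, rfl⟩⟩ :
          ε.range.subgroupOf (L.map ρ))) ?_
    intro v v' hvv
    apply hP.inj
    have h1 := congrArg (fun z : ε.range.subgroupOf (L.map ρ) => ((z : L.map ρ) : Q)) hvv
    exact h1
  obtain ⟨m, hm, hHL⟩ := hl_quot (hl_sub hn (L.map ρ)) (ε.range.subgroupOf (L.map ρ)) hinf
  have hPC' : PC ((L.map ρ) ⧸ (ε.range.subgroupOf (L.map ρ))) :=
    pc_surj (pc_sub hQ (L.map ρ)) (QuotientGroup.mk' _) (QuotientGroup.mk'_surjective _)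
  have hMain := IH _ hPC' m hm hHL
  let ρ' : L →* ((L.map ρ) ⧸ (ε.range.subgroupOf (L.map ρ))) :=
    (QuotientGroup.mk' _).comp (ρ.subgroupMap L)
  have hρ' : ∀ g : L, ρ' g = 1 → (g : G) ∈ N := by
    intro g hg
    have h1 : (QuotientGroup.mk (ρ.subgroupMap L g) :
        (L.map ρ) ⧸ (ε.range.subgroupOf (L.map ρ))) = 1 := hg
    rw [QuotientGroup.eq_one_iff, Subgroup.mem_subgroupOf] at h1
    exact h1
  have hTL : TOn L M := clifford hsemi N hN U hU hUs hUf L (fun g hg => (hL g).1 hg) hStM S' hS'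
    ρ' hρ' hMain
  have hT := induced ρ hQ hsemi L hker M hStM hind hTL
  refine ⟨⨆ c : G ⧸ L, (gm c.out M : Submodule K A), ?_, gm_sup_stable_aux hsemi L M hStM, hT⟩
  have h1 : (gm ((1 : G) : G ⧸ L).out M : Submodule K A) ≠ ⊥ := by
    intro h2
    exact hM0 ((gm_basic hsemi M M ((1 : G) : G ⧸ L).out 1).2.2.2.2 h2)
  exact ne_bot_of_le_ne_bot h1
    (le_iSup (fun c : G ⧸ L => (gm c.out M : Submodule K A)) ((1 : G) : G ⧸ L))

end Pool.Agent.Helper933.HC
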