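import Pool.Agent.Helper933.HC.Defs
import Pool.Agent.Helper933.HC.P_acc_max

set_option autoImplicit false

namespace Pool.Agent.Helper933.HC
open Module


theorem crit_exists {K G A : Type} [DivisionRing K] [Group G] [AddCommGroup A] [Module K A]
    [DistribMulAction G A] (N : Subgroup G) (V₀ : Submodule K A) (hV₀ : V₀ ≠ ⊥)
    (hSt : St N V₀) (hN : NoethFor (N : Set G) V₀) :
    ∃ (V U : Submodule K A) (f : V →ₗ[K] A), V ≤ V₀ ∧ St N V ∧ Equi N f ∧
      (∀ y, y ∈ U ↔ ∃ x, f x = y) ∧ Crit N U := by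
  classical
  let 𝒞 : Set (Submodule K A) := {Kf | ∃ (V : Submodule K A) (f : V →ₗ[K] A), Kf ≤ V ∧ V ≤ V₀ ∧
    St N V ∧ Equi N f ∧ f ≠ 0 ∧ ∀ x : V, f x = 0 ↔ (x : A) ∈ Kf}
  have hne : 𝒞.Nonempty := by
    refine ⟨⊥, V₀, V₀.subtype, bot_le, le_rfl, hSt, ?_, ?_, ?_⟩
    · intro g _ x y hxy
      exact hxy
    · intro h0
      apply hV₀
      rw [eq_bot_iff]
      intro x hx
      have := DFunLike.congr_fun h0 ⟨x, hx⟩
      exact this
    · intro x
      rw [Submodule.mem_bot]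
      rfl
  have h𝒞 : ∀ V ∈ 𝒞, V ≤ V₀ ∧ ∀ g ∈ (N : Set G), ∀ x ∈ V, g • x ∈ V := by
    rintro Kf ⟨V, f, hKV, hVV, hStV, hEq, _, hker⟩
    refine ⟨hKV.trans hVV, ?_⟩
    intro g hg x hx
    have hxV := hKV hx
    have hgV := hStV g hg x hxV
    have h1 := hEq g hg ⟨x, hxV⟩ ⟨g • x, hgV⟩ rfl
    rw [(hker ⟨x, hxV⟩).2 hx, smul_zero] at h1
    exact (hker ⟨g • x, hgV⟩).1 h1
  obtain ⟨Kf, ⟨V, f, hKV, hVV, hStV, hEq, hf0, hker⟩, hmax⟩ := acc_max (N : Set G) V₀ hN 𝒞 hne h𝒞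
  refine ⟨V, LinearMap.range f, f, hVV, hStV, hEq, fun y => LinearMap.mem_range, ?_, ?_, ?_⟩
  · intro h
    exact hf0 (LinearMap.range_eq_bot.1 h)
  · rintro g hg _ ⟨x, rfl⟩
    exact ⟨⟨g • (x : A), hStV g hg x x.2⟩, hEq g hg x ⟨g • (x : A), hStV g hg x x.2⟩ rfl⟩
  · intro V2 hV2 hSt2 h hEqh hh0
    let V' : Submodule K A := (V2.comap f).map V.subtype
    have hV'V : V' ≤ V := by
      rintro _ ⟨x, _, rfl⟩
      exact x.2
    have hmem : ∀ x : V', f (Submodule.inclusion hV'V x) ∈ V2 := by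
      rintro ⟨_, ⟨x, hx, rfl⟩⟩
      exact hx
    have hmem' : ∀ x : V, f x ∈ V2 → (x : A) ∈ V' := fun x hx => ⟨x, hx, rfl⟩
    let f' : V' →ₗ[K] A := h.comp ((f.comp (Submodule.inclusion hV'V)).codRestrict V2 hmem)
    have hf' : ∀ x : V', f' x = h ⟨f (Submodule.inclusion hV'V x), hmem x⟩ := fun x => rfl
    have hStV' : St N V' := by
      intro g hg x hx
      have h1 := hStV g hg x (hV'V hx)
      have h2 := hEq g hg ⟨x, hV'V hx⟩ ⟨g • x, h1⟩ rfl
      apply hmem' ⟨g • x, h1⟩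
      rw [h2]
      exact hSt2 g hg _ (hmem ⟨x, hx⟩)
    have hEq' : Equi N f' := by
      intro g hg x y hxy
      rw [hf', hf']
      exact hEqh g hg _ _ (hEq g hg _ _ hxy)
    have hsurj : ∀ v : V2, ∃ x : V', f (Submodule.inclusion hV'V x) = v := by
      intro v
      obtain ⟨x, hx⟩ := hV2 v.2
      exact ⟨⟨x, hmem' x (by rw [hx]; exact v.2)⟩, hx⟩
    have hf'0 : f' ≠ 0 := by
      intro h0
      apply hh0
      ext v
      obtain ⟨x, hx⟩ := hsurj v
      have h1 : f' x = 0 := by rw [h0]; rfl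
      rw [hf'] at h1
      have h2 : (⟨f (Submodule.inclusion hV'V x), hmem x⟩ : V2) = v := Subtype.ext hx
      rw [h2] at h1
      rw [h1]
      rfl
    have hK' : ((LinearMap.ker f').map V'.subtype) ∈ 𝒞 := by
      refine ⟨V', f', ?_, hV'V.trans hVV, hStV', hEq', hf'0, ?_⟩
      · rintro _ ⟨x, _, rfl⟩
        exact x.2
      · intro x
        constructor
        · intro hx
          exact ⟨x, hx, rfl⟩
        · rintro ⟨y, hy, hyx⟩
          have : y = x := Subtype.ext hyx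
          rw [← this]
          exact hy
    have hle : Kf ≤ (LinearMap.ker f').map V'.subtype := by
      intro x hx
      have h1 : f ⟨x, hKV hx⟩ = 0 := (hker _).2 hx
      have hxV' : x ∈ V' := hmem' ⟨x, hKV hx⟩ (by rw [h1]; exact V2.zero_mem)
      refine ⟨⟨x, hxV'⟩, ?_, rfl⟩
      show f' ⟨x, hxV'⟩ = 0
      rw [hf']
      have h2 : (⟨f (Submodule.inclusion hV'V ⟨x, hxV'⟩), hmem ⟨x, hxV'⟩⟩ : V2) = 0 :=
        Subtype.ext h1
      rw [h2, map_zero]
    have heq := hmax _ hK' hle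
    rw [← LinearMap.ker_eq_bot, LinearMap.ker_eq_bot']
    intro v hv
    obtain ⟨x, hx⟩ := hsurj v
    have h2 : (⟨f (Submodule.inclusion hV'V x), hmem x⟩ : V2) = v := Subtype.ext hx
    have h1 : f' x = 0 := by rw [hf', h2, hv]
    have h3 : (x : A) ∈ Kf := by
      rw [← heq]
      exact ⟨x, h1, rfl⟩
    have h4 : f ⟨(x : A), hKV h3⟩ = 0 := (hker _).2 h3
    apply Subtype.ext
    rw [← hx]
    exact h4

end Pool.Agent.Helper933.HC
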