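import Pool.Agent.Helper933.HC.Defs

set_option autoImplicit false

namespace Pool.Agent.Helper933.HC
open Module


theorem hl_index {Q : Type} [Group Q] {n : ℕ} (h : HL Q n) (H : Subgroup Q) (hH : H.index = 0) :
    ∃ m < n, HL H m := by
  have key : ∀ K : ℕ → Subgroup H, Monotone K → ∀ s : Finset ℕ,
      (∀ i ∈ s, (K i).relIndex (K (i + 1)) = 0) → s.card + 1 ≤ n := by
    intro K hK s hs
    set N := s.sup id + 1 with hN
    have hsN : ∀ i ∈ s, i < N := fun i hi => Nat.lt_succ_of_le (Finset.le_sup (f := id) hi)
    have hNs : N ∉ s := fun hi => lt_irrefl _ (hsN N hi)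
    have hmono : Monotone (fun i => if i ≤ N then (K i).map H.subtype else (⊤ : Subgroup Q)) := by
      intro i j hij
      dsimp only
      by_cases hj : j ≤ N
      · rw [if_pos (hij.trans hj), if_pos hj]
        exact Subgroup.map_mono (hK hij)
      · rw [if_neg hj]
        exact le_top
    have := h (fun i => if i ≤ N then (K i).map H.subtype else (⊤ : Subgroup Q)) hmono
      (insert N s) (by
        intro i hi
        rw [Finset.mem_insert] at hi
        rcases hi with rfl | hi
        · rw [if_pos le_rfl, if_neg (by omega), Subgroup.relIndex_top_right]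
          have h1 : (K N).map H.subtype ≤ H := by
            rintro _ ⟨x, -, rfl⟩
            exact x.2
          have h2 := Subgroup.index_dvd_of_le h1
          rw [hH] at h2
          exact zero_dvd_iff.1 h2
        · have h1 := hsN i hi
          rw [if_pos h1.le, if_pos (Nat.succ_le_of_lt h1),
            Subgroup.relIndex_map_map_of_injective _ _ H.subtype_injective]
          exact hs i hi)
    rwa [Finset.card_insert_of_notMem hNs] at this
  have hn : 0 < n := by
    have := key (fun _ => ⊥) (fun _ _ _ => le_rfl) ∅ (by simp)
    omega
  refine ⟨n - 1, by omega, fun K hK s hs => ?_⟩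
  have := key K hK s hs
  omega

end Pool.Agent.Helper933.HC
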