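import Pool.Agent.Helper933.HC.Defs
import Pool.Agent.Helper933.HC.P_conj_mat

set_option autoImplicit false

namespace Pool.Agent.Helper933.HC
open Module


/-- rational extension of an additive map. -/
noncomputable def qext (r : ℕ) (f : (Fin r → ℤ) →+ (Fin r → ℤ)) :
    (Fin r → ℚ) →ₗ[ℚ] (Fin r → ℚ) :=
  Matrix.toLin' (Matrix.of fun i j => ((f (Pi.single j 1) i : ℤ) : ℚ))

theorem qext_apply (r : ℕ) (f : (Fin r → ℤ) →+ (Fin r → ℤ)) (v : Fin r → ℤ) :
    qext r f (fun i => (v i : ℚ)) = fun i => ((f v i : ℤ) : ℚ) := by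
  funext i
  have h1 : v = ∑ j, v j • (Pi.single j (1:ℤ) : Fin r → ℤ) := by
    funext k
    simp [Finset.sum_apply, Pi.single_apply]
  have h2 : f v i = ∑ j, v j * f (Pi.single j 1) i := by
    conv_lhs => rw [h1]
    rw [map_sum, Finset.sum_apply]
    refine Finset.sum_congr rfl fun j _ => ?_
    rw [map_zsmul]
    simp
  rw [h2]
  simp only [qext, Matrix.toLin'_apply, Matrix.mulVec, dotProduct, Matrix.of_apply]
  push_cast
  refine Finset.sum_congr rfl fun j _ => ?_
  ring

theorem qext_comp (r : ℕ) (f g : (Fin r → ℤ) →+ (Fin r → ℤ)) :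
    qext r (f.comp g) = (qext r f) ∘ₗ (qext r g) := by
  refine (Pi.basisFun ℚ (Fin r)).ext fun j => ?_
  have hb : (Pi.basisFun ℚ (Fin r)) j = fun i => (((Pi.single j (1:ℤ) : Fin r → ℤ) i : ℤ) : ℚ) := by
    funext i
    rw [Pi.basisFun_apply]
    by_cases h : i = j
    · subst h; simp
    · simp [h]
  rw [hb, LinearMap.comp_apply, qext_apply, qext_apply, qext_apply]
  rfl

theorem qext_id (r : ℕ) : qext r (AddMonoidHom.id _) = LinearMap.id := by
  refine (Pi.basisFun ℚ (Fin r)).ext fun j => ?_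
  have hb : (Pi.basisFun ℚ (Fin r)) j = fun i => (((Pi.single j (1:ℤ) : Fin r → ℤ) i : ℤ) : ℚ) := by
    funext i
    rw [Pi.basisFun_apply]
    by_cases h : i = j
    · subst h; simp
    · simp [h]
  rw [hb, qext_apply]
  rfl

/-- the rational conjugation representation. -/
theorem conj_hom {Q : Type} [Group Q] {r : ℕ} (ε : Multiplicative (Fin r → ℤ) →* Q)
    (hinj : Function.Injective ε) (hn : ε.range.Normal) :
    ∃ μ : Q →* ((Fin r → ℚ) ≃ₗ[ℚ] (Fin r → ℚ)), ∀ (q : Q) (v w : Fin r → ℤ),
      q * ε (Multiplicative.ofAdd v) * q⁻¹ = ε (Multiplicative.ofAdd w) →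
      μ q (fun i => (v i : ℚ)) = (fun i => (w i : ℚ)) := by
  choose M hM using fun g => conj_mat ε hinj hn g
  have hofe : ∀ a b : Fin r → ℤ, ε (Multiplicative.ofAdd a) = ε (Multiplicative.ofAdd b) → a = b :=
    fun a b h => Multiplicative.ofAdd.injective (hinj h)
  have h1 : (M 1 : (Fin r → ℤ) ≃+ (Fin r → ℤ)).toAddMonoidHom = AddMonoidHom.id _ := by
    refine AddMonoidHom.ext fun v => ?_
    apply hofe
    have := hM 1 v
    simp only [one_mul, inv_one, mul_one] at this
    exact this.symm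
  have h2 : ∀ p q, (M (p * q)).toAddMonoidHom = (M p).toAddMonoidHom.comp (M q).toAddMonoidHom := by
    intro p q
    refine AddMonoidHom.ext fun v => ?_
    apply hofe
    have e1 := hM (p * q) v
    have e2 := hM q v
    have e3 := hM p (M q v)
    rw [← e2] at e3
    have : p * q * ε (Multiplicative.ofAdd v) * (p * q)⁻¹ =
        p * (q * ε (Multiplicative.ofAdd v) * q⁻¹) * p⁻¹ := by group
    rw [this, e3] at e1
    exact e1.symm
  let μ₀ : Q →* Module.End ℚ (Fin r → ℚ) :=
    { toFun := fun q => qext r (M q).toAddMonoidHom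
      map_one' := by
        show qext r (M 1).toAddMonoidHom = _
        rw [h1, qext_id]; rfl
      map_mul' := by
        intro p q
        show qext r (M (p * q)).toAddMonoidHom = _
        rw [h2, qext_comp]; rfl }
  refine ⟨(LinearMap.GeneralLinearGroup.generalLinearEquiv ℚ (Fin r → ℚ)).toMonoidHom.comp
    μ₀.toHomUnits, fun q v w h => ?_⟩
  have hw : M q v = w := by
    apply hofe
    rw [← h]
    exact (hM q v).symm
  show qext r (M q).toAddMonoidHom (fun i => (v i : ℚ)) = _
  rw [qext_apply]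
  funext i
  rw [← hw]
  rfl

end Pool.Agent.Helper933.HC
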