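import Pool.Agent.Helper933.HC.Defs
import Pool.Agent.Helper933.HC.P_mem_gm

set_option autoImplicit false

namespace Pool.Agent.Helper933.HC
open Module


theorem good_gm {K G A Q : Type} [DivisionRing K] [Group G] [AddCommGroup A] [Module K A]
    [DistribMulAction G A] [Group Q] (ρ : G →* Q) {r : ℕ} (ε : Multiplicative (Fin r → ℤ) →* Q)
    (hsemi : ∀ g : G, Semi K (ac g : A ≃+ A)) (g : G) (M : (Fin r → ℤ) ≃+ (Fin r → ℤ))
    (hM : ∀ v, ρ g * ε (Multiplicative.ofAdd v) * (ρ g)⁻¹ = ε (Multiplicative.ofAdd (M v)))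
    (V : Submodule K A) (φ : (Fin r → ℤ) →+ ℝ)
    (h : Good ρ ε (φ.comp M.toAddMonoidHom) V) : Good ρ ε φ (gm g V : Submodule K A) := by
  classical
  intro y hy
  have hw : g⁻¹ • y ∈ V := (mem_gm g (hsemi g) V y).mp hy
  obtain ⟨F, hF, hwF⟩ := h (g⁻¹ • y) hw
  refine ⟨F.image M, ?_, ?_⟩
  · intro f hf
    obtain ⟨f', hf', rfl⟩ := Finset.mem_image.mp hf
    exact hF f' hf'
  · obtain ⟨σ, hσ⟩ := hsemi g
    have key : ∀ z ∈ (tr ρ ε (F : Set (Fin r → ℤ)) (g⁻¹ • y) : Submodule K A),
        g • z ∈ (tr ρ ε ((F.image M : Finset (Fin r → ℤ)) : Set (Fin r → ℤ)) y :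
          Submodule K A) := by
      intro z hz
      unfold tr at hz
      induction hz using Submodule.span_induction with
      | mem z hz =>
        obtain ⟨x, f, hf, hx, rfl⟩ := hz
        refine Submodule.subset_span ⟨g * x * g⁻¹, M f, ?_, ?_, ?_⟩
        · rw [Finset.coe_image]
          exact ⟨f, hf, rfl⟩
        · rw [map_mul, map_mul, map_inv, hx, hM]
        · rw [mul_smul, mul_smul]
      | zero =>
        rw [smul_zero]
        exact Submodule.zero_mem _
      | add a b _ _ ha hb =>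
        rw [smul_add]
        exact Submodule.add_mem _ ha hb
      | smul k a _ ha =>
        have h1 : g • (k • a) = σ k • (g • a) := hσ k a
        rw [h1]
        exact Submodule.smul_mem _ _ ha
    have h2 := key _ hwF
    rwa [smul_inv_smul] at h2

end Pool.Agent.Helper933.HC
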