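import Pool.Agent.Helper933.HC.Defs
import Pool.Agent.Helper933.HC.P_good_gm

set_option autoImplicit false

namespace Pool.Agent.Helper933.HC
open Module


theorem cov_gm {K G A Q : Type} [DivisionRing K] [Group G] [AddCommGroup A] [Module K A]
    [DistribMulAction G A] [Group Q] (ρ : G →* Q) {r : ℕ} (ε : Multiplicative (Fin r → ℤ) →* Q)
    (hsemi : ∀ g : G, Semi K (ac g : A ≃+ A)) (g : G) (M : (Fin r → ℤ) ≃+ (Fin r → ℤ))
    (hM : ∀ v, ρ g * ε (Multiplicative.ofAdd v) * (ρ g)⁻¹ = ε (Multiplicative.ofAdd (M v)))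
    (m : (Fin r → ℚ) ≃ₗ[ℚ] (Fin r → ℚ))
    (hm : ∀ v : Fin r → ℤ, m (fun i => (v i : ℚ)) = (fun i => ((M v) i : ℚ)))
    (𝓕 𝓗 : Finset (Submodule ℚ (Fin r → ℚ))) (V : Submodule K A) (h : Cov ρ ε 𝓕 V)
    (hR : ∀ R, R ∈ 𝓗 ↔ ∃ P ∈ 𝓕, R = P.map m.toLinearMap) :
    Cov ρ ε 𝓗 (gm g V : Submodule K A) := by
  intro φ hφ hbad
  have hbad' : ¬ Good ρ ε (φ.comp M.toAddMonoidHom) V := fun hg =>
    hbad (good_gm ρ ε hsemi g M hM V φ hg)
  have hne : φ.comp M.toAddMonoidHom ≠ 0 := by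
    intro h0
    apply hφ
    refine DFunLike.ext _ _ fun v => ?_
    have h1 := DFunLike.congr_fun h0 (M.symm v)
    simpa using h1
  obtain ⟨P, hP, hPv⟩ := h _ hne hbad'
  refine ⟨P.map m.toLinearMap, (hR _).2 ⟨P, hP, rfl⟩, ?_⟩
  intro v hv
  obtain ⟨p, hp, hpv⟩ := hv
  have h2 : m (fun i => ((M.symm v) i : ℚ)) = (fun i => (v i : ℚ)) := by
    rw [hm, AddEquiv.apply_symm_apply]
  have h3 : p = fun i => ((M.symm v) i : ℚ) := by
    apply m.injective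
    rw [h2]
    exact hpv
  have h4 := hPv (M.symm v) (by rw [← h3]; exact hp)
  simpa using h4

end Pool.Agent.Helper933.HC
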