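import Pool.Agent.Helper933.HC.Defs

set_option autoImplicit false

namespace Pool.Agent.Helper933.HC
open Module


theorem cov_join {K G A Q : Type} [DivisionRing K] [Group G] [AddCommGroup A] [Module K A]
    [DistribMulAction G A] [Group Q] (ρ : G →* Q) {r : ℕ} (ε : Multiplicative (Fin r → ℤ) →* Q)
    (𝓕 𝓖 𝓗 : Finset (Submodule ℚ (Fin r → ℚ))) (V₁ V₂ V : Submodule K A)
    (h1 : Cov ρ ε 𝓕 V₁) (h2 : Cov ρ ε 𝓖 V₂) (hV1 : V ≤ V₁) (hV2 : V ≤ V₂)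
    (hR : ∀ R, R ∈ 𝓗 ↔ ∃ P ∈ 𝓕, ∃ P' ∈ 𝓖, R = P ⊔ P') : Cov ρ ε 𝓗 V := by
  intro φ hφ hbad
  have hb1 : ¬ Good ρ ε φ V₁ := fun h => hbad fun w hw => h w (hV1 hw)
  have hb2 : ¬ Good ρ ε φ V₂ := fun h => hbad fun w hw => h w (hV2 hw)
  obtain ⟨P, hP, hPk⟩ := h1 φ hφ hb1
  obtain ⟨P', hP', hPk'⟩ := h2 φ hφ hb2
  refine ⟨P ⊔ P', (hR _).2 ⟨P, hP, P', hP', rfl⟩, ?_⟩
  intro v hv
  obtain ⟨p, hp, p', hp', hpp⟩ := Submodule.mem_sup.1 hv
  let N : ℕ := ∏ i, (p i).den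
  have hN : 0 < N := Finset.prod_pos fun i _ => (p i).den_pos
  have hint : ∀ i, ∃ z : ℤ, (z : ℚ) = (N : ℚ) * p i := by
    intro i
    obtain ⟨m, hm⟩ : (p i).den ∣ N := Finset.dvd_prod_of_mem (fun i => (p i).den) (Finset.mem_univ i)
    refine ⟨(m : ℤ) * (p i).num, ?_⟩
    have h := Rat.mul_den_eq_num (p i)
    rw [hm]
    push_cast
    rw [← h]
    ring
  choose a ha using hint
  have hv' : ∀ i, p i + p' i = (v i : ℚ) := fun i => congrFun hpp i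
  have haP : (fun i => (a i : ℚ)) ∈ P := by
    have : (fun i => (a i : ℚ)) = (N : ℚ) • p := by
      funext i; simp [ha i]
    rw [this]; exact P.smul_mem _ hp
  have haP' : (fun i => (((N : ℤ) * v i - a i : ℤ) : ℚ)) ∈ P' := by
    have : (fun i => (((N : ℤ) * v i - a i : ℤ) : ℚ)) = (N : ℚ) • p' := by
      funext i
      simp only [Pi.smul_apply, smul_eq_mul]
      push_cast
      rw [ha i, ← hv' i]; ring
    rw [this]; exact P'.smul_mem _ hp'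
  have e1 := hPk a haP
  have e2 := hPk' (fun i => (N : ℤ) * v i - a i) haP'
  have e3 : φ ((N : ℤ) • v) = 0 := by
    have : (N : ℤ) • v = a + (fun i => (N : ℤ) * v i - a i) := by
      funext i; simp
    rw [this, map_add, e1, e2, add_zero]
  rw [map_zsmul] at e3
  have hN' : (N : ℤ) ≠ 0 := by exact_mod_cast hN.ne'
  rcases smul_eq_zero.1 e3 with h | h
  · exact absurd h hN'
  · exact h

end Pool.Agent.Helper933.HC
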