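import Pool.Agent.Helper933.HC.Defs
import Pool.Agent.Helper933.HC.P_hb_step
import Pool.Agent.Helper933.HC.P_tr_eq

set_option autoImplicit false

namespace Pool.Agent.Helper933.HC
open Module


theorem mon_noeth_mono {K G A : Type} [DivisionRing K] [Group G] [AddCommGroup A] [Module K A]
    [DistribMulAction G A] {T T' : Set G} {M M' : Submodule K A} (h : NoethFor T M) (hT : T ⊆ T')
    (hM : M' ≤ M) : NoethFor T' M' :=
  fun f hf hs => h f hf fun n => ⟨(hs n).1.trans hM, fun g hg => (hs n).2 g (hT hg)⟩

theorem mon_noeth_fd {K G A : Type} [DivisionRing K] [Group G] [AddCommGroup A] [Module K A]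
    [DistribMulAction G A] (T : Set G) (M : Submodule K A) (hM : FiniteDimensional K M) :
    NoethFor T M := by
  intro f hf hs
  have hN : IsNoetherian K M := IsNoetherian.iff_fg.2 hM
  let g : ℕ →o Submodule K M :=
    ⟨fun n => (f n).comap M.subtype, fun a b hab => Submodule.comap_mono (hf hab)⟩
  obtain ⟨n, hn⟩ := monotone_stabilizes_iff_noetherian.2 hN g
  refine ⟨n, fun m hm => ?_⟩
  have h1 : ∀ k, f k = (g k).map M.subtype := by
    intro k
    show f k = ((f k).comap M.subtype).map M.subtype
    rw [Submodule.map_comap_subtype]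
    exact (inf_eq_right.2 (hs k).1).symm
  rw [h1 m, h1 n, hn m hm]

/-- Noetherianity for finitely generated monoids of exponents. -/
theorem mon_noeth {K G A Q : Type} [DivisionRing K] [Group G] [AddCommGroup A] [Module K A]
    [DistribMulAction G A] [Group Q] (ρ : G →* Q) {r : ℕ} (ε : Multiplicative (Fin r → ℤ) →* Q)
    (hsemi : ∀ g : G, Semi K (ac g : A ≃+ A))
    (hscal : ∀ g : G, ρ g = 1 → ∃ c : K, ∀ a : A, g • a = c • a)
    (Y : (Fin r → ℤ) → G) (hY : ∀ v, ρ (Y v) = ε (Multiplicative.ofAdd v))
    (F : Finset (Fin r → ℤ)) (w : A) :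
    NoethFor (Y '' (F : Set (Fin r → ℤ))) (Submodule.span K
      ((fun v => Y v • w) '' (AddSubmonoid.closure (F : Set (Fin r → ℤ)) : Set (Fin r → ℤ)))) := by
  classical
  have main : ∀ F : Finset (Fin r → ℤ),
      NoethFor {g : G | ∃ f ∈ F, ρ g = ε (Multiplicative.ofAdd f)}
        (tr ρ ε (AddSubmonoid.closure (F : Set (Fin r → ℤ)) : Set (Fin r → ℤ)) w :
          Submodule K A) := by
    intro F
    induction F using Finset.induction_on with
    | empty =>
      apply mon_noeth_fd
      rw [tr_eq ρ ε hsemi hscal Y hY]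
      have : ((fun v => Y v • w) '' (AddSubmonoid.closure
          ((∅ : Finset (Fin r → ℤ)) : Set (Fin r → ℤ)) : Set (Fin r → ℤ))) = {Y 0 • w} := by
        rw [Finset.coe_empty, AddSubmonoid.closure_empty, AddSubmonoid.coe_bot,
          Set.image_singleton]
      rw [this]
      exact FiniteDimensional.span_singleton K _
    | insert a F _ ih =>
      have hconj : ∀ t, t ∈ {g : G | ∃ f ∈ F, ρ g = ε (Multiplicative.ofAdd f)} ↔
          Y a * t * (Y a)⁻¹ ∈ {g : G | ∃ f ∈ F, ρ g = ε (Multiplicative.ofAdd f)} := by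
        intro t
        constructor
        · rintro ⟨f, hf, h⟩
          refine ⟨f, hf, ?_⟩
          rw [map_mul, map_mul, map_inv, hY, h, ← map_inv, ← map_mul, ← map_mul,
            mul_inv_cancel_comm]
        · rintro ⟨f, hf, h⟩
          refine ⟨f, hf, ?_⟩
          rw [map_mul, map_mul, map_inv, hY] at h
          have h2 : ρ t = (ε (Multiplicative.ofAdd a))⁻¹ * ε (Multiplicative.ofAdd f) *
              ε (Multiplicative.ofAdd a) := by
            rw [← h]; group
          rw [h2, ← map_inv, ← map_mul, ← map_mul, inv_mul_cancel_comm]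
      have hstab : ∀ g ∈ {g : G | ∃ f ∈ F, ρ g = ε (Multiplicative.ofAdd f)},
          ∀ m ∈ (tr ρ ε (AddSubmonoid.closure (F : Set (Fin r → ℤ)) : Set (Fin r → ℤ)) w :
          Submodule K A), g • m ∈
          (tr ρ ε (AddSubmonoid.closure (F : Set (Fin r → ℤ)) : Set (Fin r → ℤ)) w :
          Submodule K A) := by
        rintro g ⟨f, hf, hg⟩ m hm
        obtain ⟨σ, hσ⟩ := hsemi g
        have hσ' : ∀ (k : K) (x : A), g • (k • x) = σ k • (g • x) := hσ
        unfold tr at hm ⊢
        induction hm using Submodule.span_induction with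
        | mem x hx =>
          obtain ⟨h, f', hf', hh, rfl⟩ := hx
          apply Submodule.subset_span
          refine ⟨g * h, f + f', ?_, ?_, by rw [mul_smul]⟩
          · exact AddSubmonoid.add_mem _ (AddSubmonoid.subset_closure hf) hf'
          · rw [map_mul, hg, hh, ofAdd_add, map_mul]
        | zero => rw [smul_zero]; exact Submodule.zero_mem _
        | add x y _ _ hx hy => rw [smul_add]; exact Submodule.add_mem _ hx hy
        | smul k x _ hx => rw [hσ']; exact Submodule.smul_mem _ _ hx
      have key := hb_step hsemi {g : G | ∃ f ∈ F, ρ g = ε (Multiplicative.ofAdd f)} (Y a) hconj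
        _ hstab ih
      refine mon_noeth_mono key ?_ ?_
      · intro g hg
        rcases Set.mem_insert_iff.1 hg with rfl | ⟨f, hf, h⟩
        · exact ⟨a, Finset.mem_insert_self _ _, hY a⟩
        · exact ⟨f, Finset.mem_insert_of_mem hf, h⟩
      · unfold tr
        rw [Submodule.span_le]
        rintro _ ⟨g, v, hv, hg, rfl⟩
        have hv' : v ∈ AddSubmonoid.closure (insert a (F : Set (Fin r → ℤ))) := by
          rw [← Finset.coe_insert]; exact hv
        rw [Set.insert_eq, AddSubmonoid.closure_union, AddSubmonoid.mem_sup] at hv'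
        obtain ⟨u, hu, f', hf', rfl⟩ := hv'
        obtain ⟨i, rfl⟩ := AddSubmonoid.mem_closure_singleton.1 hu
        obtain ⟨c, hc⟩ := hscal (g * ((Y a) ^ i * Y f')⁻¹) (by
          rw [map_mul, map_inv, map_mul, map_pow, hY, hY, hg, ofAdd_add, ofAdd_nsmul, map_mul,
            map_pow, mul_inv_cancel])
        have e1 : g • w = c • ((Y a) ^ i • (Y f' • w)) := by
          rw [← hc, ← mul_smul, ← mul_smul]
          congr 1
          group
        show g • w ∈ _
        rw [e1]
        apply Submodule.smul_mem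
        apply Submodule.subset_span
        exact ⟨i, Y f' • w, Submodule.subset_span ⟨Y f', f', hf', hY f', rfl⟩, rfl⟩
  rw [← tr_eq ρ ε hsemi hscal Y hY]
  intro f hf hs
  refine main F f hf fun n => ⟨(hs n).1, ?_⟩
  rintro g ⟨v, hv, hg⟩ x hx
  obtain ⟨c, hc⟩ := hscal (g * (Y v)⁻¹) (by rw [map_mul, map_inv, hY, hg, mul_inv_cancel])
  have e1 : g • x = c • (Y v • x) := by
    rw [← hc, ← mul_smul]
    congr 1
    group
  rw [e1]
  exact Submodule.smul_mem _ _ ((hs n).2 (Y v) ⟨v, hv, rfl⟩ x hx)

end Pool.Agent.Helper933.HC
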