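import Pool.Agent.Helper933.HC.Defs
import Pool.Agent.Helper933.HC.P_tr_eq
import Pool.Agent.Helper933.HC.P_mon_noeth

set_option autoImplicit false

namespace Pool.Agent.Helper933.HC
open Module


section GGaux

open scoped Pointwise

variable {K G A Q : Type} [DivisionRing K] [Group G] [AddCommGroup A] [Module K A]
    [DistribMulAction G A] [Group Q] {ρ : G →* Q} {r : ℕ} {ε : Multiplicative (Fin r → ℤ) →* Q}

private theorem gg_semi (hsemi : ∀ g : G, Semi K (ac g : A ≃+ A)) (g : G) :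
    ∃ σ : K ≃+* K, ∀ (k : K) (x : A), g • (k • x) = σ k • (g • x) := hsemi g

private theorem gg_span (hsemi : ∀ g : G, Semi K (ac g : A ≃+ A)) (g : G) (S : Set A) (x : A)
    (hx : x ∈ Submodule.span K S) : g • x ∈ Submodule.span K ((fun a => g • a) '' S) := by
  obtain ⟨σ, hσ⟩ := gg_semi hsemi g
  refine Submodule.span_induction (p := fun x _ => g • x ∈ Submodule.span K ((fun a => g • a) '' S))
    ?_ ?_ ?_ ?_ hx
  · intro y hy
    exact Submodule.subset_span ⟨y, hy, rfl⟩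
  · rw [smul_zero]; exact Submodule.zero_mem _
  · intro a b _ _ ha hb
    rw [smul_add]; exact Submodule.add_mem _ ha hb
  · intro k a _ ha
    rw [hσ]; exact Submodule.smul_mem _ _ ha

private theorem gg_mul (hsemi : ∀ g : G, Semi K (ac g : A ≃+ A))
    (hscal : ∀ g : G, ρ g = 1 → ∃ c : K, ∀ a : A, g • a = c • a)
    (Y : (Fin r → ℤ) → G) (hY : ∀ v, ρ (Y v) = ε (Multiplicative.ofAdd v))
    (v u : Fin r → ℤ) (a : A) : ∃ c : K, Y v • Y u • a = c • Y (v + u) • a := by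
  have hρ : ρ ((Y (v + u))⁻¹ * (Y v * Y u)) = 1 := by
    rw [map_mul, map_inv, map_mul, hY, hY, hY, ofAdd_add, map_mul]
    group
  obtain ⟨c, hc⟩ := hscal _ hρ
  obtain ⟨σ, hσ⟩ := gg_semi hsemi (Y (v + u))
  refine ⟨σ c, ?_⟩
  rw [← hσ, ← hc, smul_smul, smul_smul]
  congr 1
  group

private theorem gg_mul' (hsemi : ∀ g : G, Semi K (ac g : A ≃+ A))
    (hscal : ∀ g : G, ρ g = 1 → ∃ c : K, ∀ a : A, g • a = c • a)
    (Y : (Fin r → ℤ) → G) (hY : ∀ v, ρ (Y v) = ε (Multiplicative.ofAdd v))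
    (v u : Fin r → ℤ) (a : A) : ∃ c : K, Y (v + u) • a = c • Y v • Y u • a := by
  have hρ : ρ ((Y v * Y u)⁻¹ * Y (v + u)) = 1 := by
    rw [map_mul, map_inv, map_mul, hY, hY, hY, ofAdd_add, map_mul]
    group
  obtain ⟨c, hc⟩ := hscal _ hρ
  obtain ⟨σ, hσ⟩ := gg_semi hsemi (Y v * Y u)
  refine ⟨σ c, ?_⟩
  rw [smul_smul (Y v) (Y u), ← hσ, ← hc, smul_smul]
  congr 1
  group

private theorem gg_zero (hsemi : ∀ g : G, Semi K (ac g : A ≃+ A))
    (hscal : ∀ g : G, ρ g = 1 → ∃ c : K, ∀ a : A, g • a = c • a)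
    (Y : (Fin r → ℤ) → G) (hY : ∀ v, ρ (Y v) = ε (Multiplicative.ofAdd v)) (a : A) :
    ∃ c : K, a = c • Y 0 • a := by
  have hρ : ρ ((Y 0)⁻¹) = 1 := by
    rw [map_inv, hY, ofAdd_zero, map_one, inv_one]
  obtain ⟨c, hc⟩ := hscal _ hρ
  obtain ⟨σ, hσ⟩ := gg_semi hsemi (Y 0)
  refine ⟨σ c, ?_⟩
  rw [← hσ, ← hc, smul_inv_smul]

private theorem gg_zero' 
    (hscal : ∀ g : G, ρ g = 1 → ∃ c : K, ∀ a : A, g • a = c • a)
    (Y : (Fin r → ℤ) → G) (hY : ∀ v, ρ (Y v) = ε (Multiplicative.ofAdd v)) (a : A) :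
    ∃ c : K, Y 0 • a = c • a := by
  have hρ : ρ (Y 0) = 1 := by
    rw [hY, ofAdd_zero, map_one]
  obtain ⟨c, hc⟩ := hscal _ hρ
  exact ⟨c, hc a⟩

private theorem gg_shift (hsemi : ∀ g : G, Semi K (ac g : A ≃+ A))
    (hscal : ∀ g : G, ρ g = 1 → ∃ c : K, ∀ a : A, g • a = c • a)
    (Y : (Fin r → ℤ) → G) (hY : ∀ v, ρ (Y v) = ε (Multiplicative.ofAdd v))
    (S : Set (Fin r → ℤ)) (a x : A) (v : Fin r → ℤ)
    (hx : x ∈ Submodule.span K ((fun v => Y v • a) '' S)) (T : Set (Fin r → ℤ))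
    (hT : ∀ s ∈ S, v + s ∈ T) :
    Y v • x ∈ Submodule.span K ((fun v => Y v • a) '' T) := by
  have h := gg_span hsemi (Y v) _ x hx
  refine (Submodule.span_le.mpr ?_) h
  rintro _ ⟨_, ⟨s, hs, rfl⟩, rfl⟩
  obtain ⟨c, hc⟩ := gg_mul hsemi hscal Y hY v s a
  simp only [SetLike.mem_coe]
  rw [hc]
  exact Submodule.smul_mem _ _ (Submodule.subset_span ⟨v + s, hT s hs, rfl⟩)

private theorem gg_comp (hsemi : ∀ g : G, Semi K (ac g : A ≃+ A))
    (hscal : ∀ g : G, ρ g = 1 → ∃ c : K, ∀ a : A, g • a = c • a)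
    (Y : (Fin r → ℤ) → G) (hY : ∀ v, ρ (Y v) = ε (Multiplicative.ofAdd v))
    (S T : Set (Fin r → ℤ)) (a b x : A)
    (hx : x ∈ Submodule.span K ((fun v => Y v • a) '' S))
    (ha : a ∈ Submodule.span K ((fun v => Y v • b) '' T)) :
    x ∈ Submodule.span K ((fun v => Y v • b) '' (S + T)) := by
  refine (Submodule.span_le.mpr ?_) hx
  rintro _ ⟨s, hs, rfl⟩
  exact gg_shift hsemi hscal Y hY T b a s ha (S + T) (fun t ht => Set.add_mem_add hs ht)

private theorem gg_iter (hsemi : ∀ g : G, Semi K (ac g : A ≃+ A))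
    (hscal : ∀ g : G, ρ g = 1 → ∃ c : K, ∀ a : A, g • a = c • a)
    (Y : (Fin r → ℤ) → G) (hY : ∀ v, ρ (Y v) = ε (Multiplicative.ofAdd v))
    (φ : (Fin r → ℤ) →+ ℝ) (w : A) (F : Finset (Fin r → ℤ)) (δ : ℝ)
    (hF : ∀ f ∈ F, δ ≤ φ f)
    (hw : w ∈ Submodule.span K ((fun v => Y v • w) '' (F : Set (Fin r → ℤ)))) (N : ℕ) :
    ∃ T : Finset (Fin r → ℤ), (∀ t ∈ T, (N : ℝ) * δ ≤ φ t) ∧
      w ∈ Submodule.span K ((fun v => Y v • w) '' (T : Set (Fin r → ℤ))) := by
  classical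
  induction N with
  | zero =>
    refine ⟨{0}, ?_, ?_⟩
    · intro t ht
      rw [Finset.mem_singleton] at ht
      subst ht
      simp
    · obtain ⟨c, hc⟩ := gg_zero hsemi hscal Y hY w
      have h1 : Y 0 • w ∈ Submodule.span K ((fun v => Y v • w) '' (({0} : Finset (Fin r → ℤ)) : Set (Fin r → ℤ))) :=
        Submodule.subset_span ⟨0, by simp, rfl⟩
      have h2 := Submodule.smul_mem _ c h1
      rw [← hc] at h2
      exact h2
  | succ N ih =>
    obtain ⟨T, hT, hwT⟩ := ih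
    refine ⟨T + F, ?_, ?_⟩
    · intro t ht
      obtain ⟨a, ha, b, hb, rfl⟩ := Finset.mem_add.mp ht
      rw [map_add]
      have h1 := hT a ha
      have h2 := hF b hb
      push_cast
      linarith
    · rw [Finset.coe_add]
      exact gg_comp hsemi hscal Y hY _ _ w w w hwT hw

end GGaux

/-- goodness at a generator gives goodness everywhere. -/
theorem good_gen {K G A Q : Type} [DivisionRing K] [Group G] [AddCommGroup A] [Module K A]
    [DistribMulAction G A] [Group Q] (ρ : G →* Q) {r : ℕ} (ε : Multiplicative (Fin r → ℤ) →* Q)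
    (hsemi : ∀ g : G, Semi K (ac g : A ≃+ A))
    (hscal : ∀ g : G, ρ g = 1 → ∃ c : K, ∀ a : A, g • a = c • a)
    (Y : (Fin r → ℤ) → G) (hY : ∀ v, ρ (Y v) = ε (Multiplicative.ofAdd v))
    (φ : (Fin r → ℤ) →+ ℝ) (w : A) (F : Finset (Fin r → ℤ)) (hF : ∀ f ∈ F, 0 < φ f)
    (hw : w ∈ (tr ρ ε (F : Set (Fin r → ℤ)) w : Submodule K A)) :
    Good ρ ε φ (tr ρ ε Set.univ w : Submodule K A) := by
  classical
  rw [tr_eq ρ ε hsemi hscal Y hY] at hw
  intro w' hw'
  rw [tr_eq ρ ε hsemi hscal Y hY] at hw'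
  rcases F.eq_empty_or_nonempty with hFe | hFne
  · subst hFe
    have hw0 : w = 0 := by simpa using hw
    subst hw0
    have hw'0 : w' = 0 := by
      have hle : Submodule.span K ((fun v => Y v • (0 : A)) '' (Set.univ : Set (Fin r → ℤ))) ≤ ⊥ := by
        rw [Submodule.span_le]
        rintro _ ⟨v, _, rfl⟩
        simp
      have := hle hw'
      simpa using this
    subst hw'0
    exact ⟨∅, by simp, Submodule.zero_mem _⟩
  obtain ⟨f₀, hf₀⟩ := hFne
  -- δ
  obtain ⟨δ, hδ, hFδ⟩ : ∃ δ : ℝ, 0 < δ ∧ ∀ f ∈ F, δ ≤ φ f := by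
    obtain ⟨m, hm, hmin⟩ := F.exists_min_image (fun f => φ f) ⟨f₀, hf₀⟩
    exact ⟨φ m, hF m hm, hmin⟩
  -- finite generating set
  obtain ⟨B, hB⟩ : ∃ B : Finset (Fin r → ℤ), AddSubmonoid.closure (B : Set (Fin r → ℤ)) = ⊤ := by
    have h1 : AddGroup.FG (Fin r → ℤ) := Module.Finite.iff_addGroup_fg.mp inferInstance
    have h2 : AddMonoid.FG (Fin r → ℤ) := AddGroup.fg_iff_addMonoid_fg.mp h1
    exact h2.1
  -- bound
  obtain ⟨M, hM⟩ : ∃ M : ℝ, ∀ b ∈ B, |φ b| < M := by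
    obtain ⟨M, hM⟩ := (B.image (fun b => |φ b|)).exists_le
    refine ⟨M + 1, fun b hb => ?_⟩
    have := hM (|φ b|) (Finset.mem_image_of_mem _ hb)
    linarith
  obtain ⟨N, hN⟩ := exists_nat_gt (M / δ)
  have hN' : M < N * δ := by
    rwa [div_lt_iff₀ hδ] at hN
  obtain ⟨T, hT, hwT⟩ := gg_iter hsemi hscal Y hY φ w F δ hFδ hw N
  open scoped Pointwise in
  set F' : Finset (Fin r → ℤ) := F ∪ (B + T) with hF'
  have hF'pos : ∀ f ∈ F', 0 < φ f := by
    intro f hf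
    rw [hF', Finset.mem_union] at hf
    rcases hf with hf | hf
    · exact hF f hf
    · obtain ⟨b, hb, t, ht, rfl⟩ := Finset.mem_add.mp hf
      rw [map_add]
      have h1 := hM b hb
      have h2 := hT t ht
      have h3 := neg_abs_le (φ b)
      linarith
  set C : AddSubmonoid (Fin r → ℤ) := AddSubmonoid.closure (F' : Set (Fin r → ℤ)) with hC
  have hF'C : ∀ f ∈ F', f ∈ C := fun f hf => AddSubmonoid.subset_closure hf
  have hCpos : ∀ c ∈ C, 0 ≤ φ c := by
    intro c hc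
    induction hc using AddSubmonoid.closure_induction with
    | mem x hx => exact (hF'pos x hx).le
    | zero => simp
    | add x y _ _ hx hy => rw [map_add]; linarith
  have hwC : w ∈ Submodule.span K ((fun v => Y v • w) '' (C : Set (Fin r → ℤ))) := by
    obtain ⟨c, hc⟩ := gg_zero hsemi hscal Y hY w
    have h1 : Y 0 • w ∈ Submodule.span K ((fun v => Y v • w) '' (C : Set (Fin r → ℤ))) :=
      Submodule.subset_span ⟨0, C.zero_mem, rfl⟩
    have h2 := Submodule.smul_mem _ c h1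
    rw [← hc] at h2
    exact h2
  -- stability
  have hstB : ∀ b ∈ B, ∀ x ∈ Submodule.span K ((fun v => Y v • w) '' (C : Set (Fin r → ℤ))),
      Y b • x ∈ Submodule.span K ((fun v => Y v • w) '' (C : Set (Fin r → ℤ))) := by
    intro b hb x hx
    have h1 := gg_span hsemi (Y b) _ x hx
    refine (Submodule.span_le.mpr ?_) h1
    rintro _ ⟨_, ⟨c, hc, rfl⟩, rfl⟩
    simp only [SetLike.mem_coe]
    obtain ⟨k, hk⟩ := gg_mul hsemi hscal Y hY b c w
    rw [hk, add_comm b c]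
    apply Submodule.smul_mem
    obtain ⟨k', hk'⟩ := gg_mul' hsemi hscal Y hY c b w
    rw [hk']
    apply Submodule.smul_mem
    have h2 : Y b • w ∈ Submodule.span K ((fun v => Y v • w) '' (F' : Set (Fin r → ℤ))) := by
      refine gg_shift hsemi hscal Y hY _ w w b hwT _ ?_
      intro t ht
      rw [hF']
      simp only [Finset.coe_union, Set.mem_union, Finset.mem_coe]
      right
      exact Finset.add_mem_add hb ht
    refine gg_shift hsemi hscal Y hY _ w _ c h2 _ ?_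
    intro f hf
    exact C.add_mem hc (hF'C f hf)
  have hst : ∀ v, ∀ x ∈ Submodule.span K ((fun v => Y v • w) '' (C : Set (Fin r → ℤ))),
      Y v • x ∈ Submodule.span K ((fun v => Y v • w) '' (C : Set (Fin r → ℤ))) := by
    intro v
    have hv : v ∈ AddSubmonoid.closure (B : Set (Fin r → ℤ)) := by rw [hB]; trivial
    induction hv using AddSubmonoid.closure_induction with
    | mem b hb => exact hstB b hb
    | zero =>
      intro x hx
      obtain ⟨k, hk⟩ := gg_zero' hscal Y hY x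
      rw [hk]
      exact Submodule.smul_mem _ _ hx
    | add u v _ _ hu hv =>
      intro x hx
      obtain ⟨k, hk⟩ := gg_mul' hsemi hscal Y hY u v x
      rw [hk]
      exact Submodule.smul_mem _ _ (hu _ (hv _ hx))
  have hw'C : w' ∈ Submodule.span K ((fun v => Y v • w) '' (C : Set (Fin r → ℤ))) := by
    refine (Submodule.span_le.mpr ?_) hw'
    rintro _ ⟨v, _, rfl⟩
    exact hst v w hwC
  -- the chain
  let V : ℕ → Submodule K A := fun n =>
    Submodule.span K ((fun v => Y v • w') '' {u | ∃ c ∈ C, u = c - n • f₀})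
  have hVmono : Monotone V := by
    refine monotone_nat_of_le_succ ?_
    intro n
    apply Submodule.span_mono
    apply Set.image_mono
    rintro _ ⟨c, hc, rfl⟩
    refine ⟨c + f₀, C.add_mem hc (hF'C f₀ ?_), ?_⟩
    · rw [hF']; exact Finset.mem_union_left _ hf₀
    · rw [succ_nsmul]; abel
  have hnoeth := mon_noeth ρ ε hsemi hscal Y hY F' w V hVmono
  obtain ⟨n, hn⟩ := hnoeth (by
    intro n
    refine ⟨?_, ?_⟩
    · refine Submodule.span_le.mpr ?_
      rintro _ ⟨u, _, rfl⟩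
      exact hst u w' hw'C
    · rintro _ ⟨f, hf, rfl⟩ x hx
      refine gg_shift hsemi hscal Y hY _ w' x f hx _ ?_
      rintro _ ⟨c, hc, rfl⟩
      exact ⟨f + c, C.add_mem (hF'C f hf) hc, by abel⟩)
  have hn1 := hn (n + 1) (Nat.le_succ n)
  have hy : Y (-((n + 1) • f₀)) • w' ∈ V n := by
    rw [← hn1]
    refine Submodule.subset_span ⟨-((n + 1) • f₀), ⟨0, C.zero_mem, ?_⟩, rfl⟩
    rw [zero_sub]
  have hy2 : Y ((n + 1) • f₀) • Y (-((n + 1) • f₀)) • w' ∈
      Submodule.span K ((fun v => Y v • w') '' {u | ∃ c ∈ C, u = c + f₀}) := by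
    refine gg_shift hsemi hscal Y hY _ w' _ _ hy _ ?_
    rintro _ ⟨c, hc, rfl⟩
    refine ⟨c, hc, ?_⟩
    rw [succ_nsmul]; abel
  have hfin : w' ∈ Submodule.span K ((fun v => Y v • w') '' {u | ∃ c ∈ C, u = c + f₀}) := by
    obtain ⟨k, hk⟩ := gg_zero hsemi hscal Y hY w'
    obtain ⟨k', hk'⟩ := gg_mul' hsemi hscal Y hY ((n + 1) • f₀) (-((n + 1) • f₀)) w'
    rw [add_neg_cancel] at hk'
    have h1 := Submodule.smul_mem _ k (Submodule.smul_mem _ k' hy2)
    rw [← hk', ← hk] at h1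
    exact h1
  obtain ⟨S, hS, hwS⟩ := Submodule.mem_span_finite_of_mem_span hfin
  obtain ⟨S', hS', hS'im⟩ := Finset.subset_set_image_iff.mp hS
  refine ⟨S', ?_, ?_⟩
  · intro f hf
    obtain ⟨c, hc, rfl⟩ := hS' hf
    rw [map_add]
    have h1 := hCpos c hc
    have h2 := hF f₀ hf₀
    linarith
  · rw [tr_eq ρ ε hsemi hscal Y hY]
    rw [← hS'im, Finset.coe_image] at hwS
    exact hwS

end Pool.Agent.Helper933.HC
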