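import Pool.Agent.Helper933.HC.Defs
import Pool.Agent.Helper933.HC.P_tr_eq
import Pool.Agent.Helper933.HC.P_tors_iff
import Pool.Agent.Helper933.HC.P_good_gen

set_option autoImplicit false

namespace Pool.Agent.Helper933.HC
open Module


theorem good_tors {K G A Q : Type} [DivisionRing K] [Group G] [AddCommGroup A] [Module K A]
    [DistribMulAction G A] [Group Q] (ρ : G →* Q) {r : ℕ} (ε : Multiplicative (Fin r → ℤ) →* Q)
    (hsemi : ∀ g : G, Semi K (ac g : A ≃+ A))
    (hscal : ∀ g : G, ρ g = 1 → ∃ c : K, ∀ a : A, g • a = c • a)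
    (Y : (Fin r → ℤ) → G) (hY : ∀ v, ρ (Y v) = ε (Multiplicative.ofAdd v))
    (w : A) (hw : Tors (K := K) ρ ε w) :
    ∃ S : Finset (Fin r → ℤ), (∀ e ∈ S, e ≠ 0) ∧ ∀ φ : (Fin r → ℤ) →+ ℝ,
      (∀ e ∈ S, φ e ≠ 0) → Good ρ ε φ (tr ρ ε Set.univ w : Submodule K A) := by
  classical
  rw [tors_iff ρ ε hsemi hscal Y hY w, not_linearIndependent_iff] at hw
  obtain ⟨s, g, hsum, i0, hi0, hgi0⟩ := hw
  obtain ⟨F', hF'⟩ : ∃ F', F' = s.filter (fun i => g i ≠ 0) := ⟨_, rfl⟩
  have hgF : ∀ i ∈ F', g i ≠ 0 := by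
    intro i hi
    rw [hF', Finset.mem_filter] at hi
    exact hi.2
  have hi0' : i0 ∈ F' := by
    rw [hF', Finset.mem_filter]
    exact ⟨hi0, hgi0⟩
  have hF'sum : ∑ i ∈ F', g i • Y i • w = 0 := by
    rw [← hsum, hF']
    apply Finset.sum_subset (Finset.filter_subset _ _)
    intro x hx hx2
    rw [Finset.mem_filter, not_and, not_not] at hx2
    rw [hx2 hx, zero_smul]
  refine ⟨((F' ×ˢ F').filter (fun p => p.1 ≠ p.2)).image (fun p => p.1 - p.2), ?_, ?_⟩
  · intro e he
    rw [Finset.mem_image] at he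
    obtain ⟨p, hp, rfl⟩ := he
    rw [Finset.mem_filter] at hp
    exact sub_ne_zero.2 hp.2
  · intro φ hφ
    have hinj : ∀ a ∈ F', ∀ b ∈ F', a ≠ b → φ a ≠ φ b := by
      intro a ha b hb hab h
      apply hφ (a - b)
      · rw [Finset.mem_image]
        exact ⟨(a, b), Finset.mem_filter.2 ⟨Finset.mem_product.2 ⟨ha, hb⟩, hab⟩, rfl⟩
      · rw [map_sub, h, sub_self]
    obtain ⟨e0, he0, hmin⟩ := Finset.exists_min_image F' φ ⟨i0, hi0'⟩
    refine good_gen ρ ε hsemi hscal Y hY φ w ((F'.erase e0).image (fun e => e - e0)) ?_ ?_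
    · intro f hf
      rw [Finset.mem_image] at hf
      obtain ⟨e, he, rfl⟩ := hf
      rw [Finset.mem_erase] at he
      rw [map_sub, sub_pos]
      exact lt_of_le_of_ne (hmin e he.2) (hinj e0 he0 e he.2 (Ne.symm he.1))
    · have h1 : Y e0 • w ∈ Submodule.span K ((fun e => Y e • w) '' (F'.erase e0 : Set _)) := by
        have h4 : g e0 • Y e0 • w = - ∑ e ∈ F'.erase e0, g e • Y e • w := by
          rw [← Finset.add_sum_erase F' _ he0] at hF'sum
          exact eq_neg_of_add_eq_zero_left hF'sum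
        have h2 : Y e0 • w = (g e0)⁻¹ • (- ∑ e ∈ F'.erase e0, g e • Y e • w) := by
          rw [← h4, inv_smul_smul₀ (hgF e0 he0)]
        rw [h2]
        refine Submodule.smul_mem _ _ (Submodule.neg_mem _ (Submodule.sum_mem _ ?_))
        intro e he
        exact Submodule.smul_mem _ _ (Submodule.subset_span ⟨e, he, rfl⟩)
      obtain ⟨σ, hσ⟩ := hsemi (Y e0)⁻¹
      have hσ' : ∀ (k : K) (x : A), (Y e0)⁻¹ • (k • x) = σ k • ((Y e0)⁻¹ • x) := hσ
      have h3 : ∀ x ∈ Submodule.span K ((fun e => Y e • w) '' (F'.erase e0 : Set _)),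
          (Y e0)⁻¹ • x ∈ (tr ρ ε (((F'.erase e0).image (fun e => e - e0) : Finset _) : Set _) w :
            Submodule K A) := by
        intro x hx
        induction hx using Submodule.span_induction with
        | mem x hx =>
          obtain ⟨e, he, rfl⟩ := hx
          apply Submodule.subset_span
          refine ⟨(Y e0)⁻¹ * Y e, e - e0, ?_, ?_, ?_⟩
          · rw [Finset.mem_coe, Finset.mem_image]
            exact ⟨e, he, rfl⟩
          · rw [map_mul, map_inv, hY, hY, ← map_inv, ← map_mul]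
            congr 1
            rw [← ofAdd_neg, ← ofAdd_add]
            congr 1
            abel
          · simp only
            rw [mul_smul]
        | zero =>
          rw [smul_zero]
          exact Submodule.zero_mem _
        | add x y _ _ hx hy =>
          rw [smul_add]
          exact Submodule.add_mem _ hx hy
        | smul k x _ hx =>
          rw [hσ']
          exact Submodule.smul_mem _ _ hx
      have h5 := h3 _ h1
      rwa [inv_smul_smul] at h5

end Pool.Agent.Helper933.HC
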