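import Pool.Agent.Helper933.HC.Defs
import Pool.Agent.Helper933.HC.P_good_tors

set_option autoImplicit false

namespace Pool.Agent.Helper933.HC
open Module


theorem cov_start {K G A Q : Type} [DivisionRing K] [Group G] [AddCommGroup A] [Module K A]
    [DistribMulAction G A] [Group Q] (ρ : G →* Q) {r : ℕ} (ε : Multiplicative (Fin r → ℤ) →* Q)
    (hsemi : ∀ g : G, Semi K (ac g : A ≃+ A))
    (hscal : ∀ g : G, ρ g = 1 → ∃ c : K, ∀ a : A, g • a = c • a)
    (Y : (Fin r → ℤ) → G) (hY : ∀ v, ρ (Y v) = ε (Multiplicative.ofAdd v))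
    (w : A) (hw : Tors (K := K) ρ ε w) :
    ∃ 𝓕 : Finset (Submodule ℚ (Fin r → ℚ)), (∀ P ∈ 𝓕, P ≠ ⊥) ∧
      Cov ρ ε 𝓕 (tr ρ ε Set.univ w : Submodule K A) := by
  classical
  obtain ⟨S, hS0, hS⟩ := good_tors (K := K) ρ ε hsemi hscal Y hY w hw
  refine ⟨S.image (fun e => Submodule.span ℚ {(fun i => (e i : ℚ))}), ?_, ?_⟩
  · intro P hP
    obtain ⟨e, he, rfl⟩ := Finset.mem_image.mp hP
    intro hbot
    rw [Submodule.span_singleton_eq_bot] at hbot
    apply hS0 e he
    funext i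
    have h0 : ((e i : ℤ) : ℚ) = 0 := congrFun hbot i
    show e i = 0
    exact_mod_cast h0
  · intro φ _ hbad
    have hex : ∃ e ∈ S, φ e = 0 := by
      by_contra hcon
      push Not at hcon
      exact hbad (hS φ hcon)
    obtain ⟨e, he, he0⟩ := hex
    refine ⟨_, Finset.mem_image.mpr ⟨e, he, rfl⟩, ?_⟩
    intro v hv
    obtain ⟨q, hq⟩ := Submodule.mem_span_singleton.mp hv
    have h1 : ((q.den : ℤ)) • v = q.num • e := by
      funext i
      have h2 := congrFun hq i
      simp only [Pi.smul_apply, smul_eq_mul] at h2 ⊢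
      have h3 : ((q.den : ℚ)) * (v i : ℚ) = (q.num : ℚ) * (e i : ℚ) := by
        rw [← h2, ← mul_assoc, Rat.den_mul_eq_num]
      exact_mod_cast h3
    have h2 : ((q.den : ℤ)) • φ v = 0 := by
      rw [← map_zsmul, h1, map_zsmul, he0, smul_zero]
    rw [zsmul_eq_mul, mul_eq_zero] at h2
    rcases h2 with h2 | h2
    · exfalso
      have : (q.den : ℤ) ≠ 0 := by exact_mod_cast q.den_nz
      exact this (by exact_mod_cast h2)
    · exact h2

end Pool.Agent.Helper933.HC
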