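import Pool.Agent.Helper933.HC.Defs

set_option autoImplicit false

namespace Pool.Agent.Helper933.HC
open Module


/-- the minimal cover argument. -/
theorem cover_abs {r : ℕ} {H : Type} [Group H] (μ : H →* ((Fin r → ℚ) ≃ₗ[ℚ] (Fin r → ℚ)))
    (C : Finset (Submodule ℚ (Fin r → ℚ)) → Prop)
    (c1 : ∃ 𝓕, C 𝓕 ∧ ∀ P ∈ 𝓕, P ≠ ⊥)
    (c2 : ∀ 𝓕 𝓖 𝓗, C 𝓕 → C 𝓖 → (∀ R, R ∈ 𝓗 ↔ ∃ P ∈ 𝓕, ∃ P' ∈ 𝓖, R = P ⊔ P') → C 𝓗)
    (c3 : ∀ (h : H) 𝓕 𝓗, C 𝓕 → (∀ R, R ∈ 𝓗 ↔ ∃ P ∈ 𝓕, R = P.map (μ h).toLinearMap) → C 𝓗)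
    (c4 : ∀ 𝓕, C 𝓕 → ∃ P ∈ 𝓕, P ≠ ⊤)
    (c5 : ∀ H₁ : Subgroup H, H₁.index ≠ 0 → ∀ P : Submodule ℚ (Fin r → ℚ), P ≠ ⊥ →
      (∀ h ∈ H₁, P.map (μ h).toLinearMap = P) → P = ⊤) : False := by
  classical
  set PK : ℕ → Prop := fun k => ∃ 𝓕, C 𝓕 ∧ ∀ P ∈ 𝓕, k ≤ finrank ℚ P with hPK
  have hV : finrank ℚ (Fin r → ℚ) = r := by simp
  have hlt : ∀ k, PK k → k < r := by
    rintro k ⟨𝓕, h1, h2⟩
    obtain ⟨P, hP, hPt⟩ := c4 𝓕 h1
    have := Submodule.finrank_lt hPt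
    rw [hV] at this
    exact lt_of_le_of_lt (h2 P hP) this
  have hPK1 : PK 1 := by
    obtain ⟨𝓕, h1, h2⟩ := c1
    refine ⟨𝓕, h1, fun P hP => ?_⟩
    rw [Nat.one_le_iff_ne_zero]
    intro h0
    exact h2 P hP (Submodule.finrank_eq_zero.1 h0)
  set k := Nat.findGreatest PK r with hk
  have hk1 : 1 ≤ k := Nat.le_findGreatest (hlt 1 hPK1).le hPK1
  have hPKk : PK k := Nat.findGreatest_spec (hlt 1 hPK1).le hPK1
  have hnk : ¬ PK (k + 1) := by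
    intro h
    have := Nat.le_findGreatest (hlt _ h).le h
    omega
  have hkr : k < r := hlt k hPKk
  set fil : Finset (Submodule ℚ (Fin r → ℚ)) → Finset (Submodule ℚ (Fin r → ℚ)) :=
    fun 𝓕 => 𝓕.filter (fun P => finrank ℚ P = k) with hfil
  set QN : ℕ → Prop := fun n => ∃ 𝓕, C 𝓕 ∧ (∀ P ∈ 𝓕, k ≤ finrank ℚ P) ∧ (fil 𝓕).card = n with hQN
  have hex : ∃ n, QN n := by
    obtain ⟨𝓕, h1, h2⟩ := hPKk
    exact ⟨_, 𝓕, h1, h2, rfl⟩
  obtain ⟨𝓕, hC, hge, hcard⟩ := Nat.find_spec hex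
  have hmin : ∀ 𝓖, C 𝓖 → (∀ P ∈ 𝓖, k ≤ finrank ℚ P) → (fil 𝓕).card ≤ (fil 𝓖).card := by
    intro 𝓖 h1 h2
    rw [hcard]
    exact Nat.find_min' hex ⟨𝓖, h1, h2, rfl⟩
  have hfr : ∀ (h : H) (P : Submodule ℚ (Fin r → ℚ)),
      finrank ℚ (P.map (μ h).toLinearMap) = finrank ℚ P := fun h P =>
    LinearEquiv.finrank_map_eq (μ h) P
  have hsub : ∀ h : H, ∀ P ∈ fil 𝓕, ∃ P' ∈ fil 𝓕, P = P'.map (μ h).toLinearMap := by
    intro h
    set 𝓖 := 𝓕.image (fun P => P.map (μ h).toLinearMap) with h𝓖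
    have hC𝓖 : C 𝓖 := by
      apply c3 h 𝓕 𝓖 hC
      intro R
      rw [h𝓖, Finset.mem_image]
      constructor
      · rintro ⟨P, hP, rfl⟩; exact ⟨P, hP, rfl⟩
      · rintro ⟨P, hP, rfl⟩; exact ⟨P, hP, rfl⟩
    set 𝓗 := (𝓕 ×ˢ 𝓖).image (fun q => q.1 ⊔ q.2) with h𝓗
    have hC𝓗 : C 𝓗 := by
      apply c2 𝓕 𝓖 𝓗 hC hC𝓖
      intro R
      rw [h𝓗, Finset.mem_image]
      constructor
      · rintro ⟨⟨P, P'⟩, hq, rfl⟩
        rw [Finset.mem_product] at hq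
        exact ⟨P, hq.1, P', hq.2, rfl⟩
      · rintro ⟨P, hP, P', hP', rfl⟩
        exact ⟨(P, P'), Finset.mem_product.2 ⟨hP, hP'⟩, rfl⟩
    have hge𝓖 : ∀ P ∈ 𝓖, k ≤ finrank ℚ P := by
      intro P hP
      rw [h𝓖, Finset.mem_image] at hP
      obtain ⟨P', hP', rfl⟩ := hP
      rw [hfr]
      exact hge P' hP'
    have hle := hmin 𝓗 hC𝓗 (by
      intro R hR
      rw [h𝓗, Finset.mem_image] at hR
      obtain ⟨⟨P, P'⟩, hq, rfl⟩ := hR
      rw [Finset.mem_product] at hq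
      exact (hge P hq.1).trans (Submodule.finrank_mono le_sup_left))
    have hss : fil 𝓗 ⊆ fil 𝓕 ∩ fil 𝓖 := by
      intro R hR
      obtain ⟨hR1, hR2⟩ := Finset.mem_filter.1 hR
      rw [h𝓗, Finset.mem_image] at hR1
      obtain ⟨⟨P, P'⟩, hq, rfl⟩ := hR1
      rw [Finset.mem_product] at hq
      have e1 : P = P ⊔ P' := Submodule.eq_of_le_of_finrank_le le_sup_left
        (hR2.le.trans (hge P hq.1))
      have e2 : P' = P ⊔ P' := Submodule.eq_of_le_of_finrank_le le_sup_right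
        (hR2.le.trans (hge𝓖 P' hq.2))
      rw [Finset.mem_inter]
      refine ⟨Finset.mem_filter.2 ⟨?_, hR2⟩, Finset.mem_filter.2 ⟨?_, hR2⟩⟩
      · change P ⊔ P' ∈ 𝓕
        rw [← e1]; exact hq.1
      · change P ⊔ P' ∈ 𝓖
        rw [← e2]; exact hq.2
    have heq : fil 𝓕 ∩ fil 𝓖 = fil 𝓕 :=
      Finset.eq_of_subset_of_card_le Finset.inter_subset_left
        (hle.trans (Finset.card_le_card hss))
    intro P hP
    rw [← heq, Finset.mem_inter] at hP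
    obtain ⟨hP1, hP2⟩ := Finset.mem_filter.1 hP.2
    rw [h𝓖, Finset.mem_image] at hP1
    obtain ⟨P', hP', rfl⟩ := hP1
    refine ⟨P', Finset.mem_filter.2 ⟨hP', ?_⟩, rfl⟩
    rw [hfr] at hP2
    exact hP2
  letI act : MulAction H (Submodule ℚ (Fin r → ℚ)) :=
    { smul := fun h P => P.map (μ h).toLinearMap
      one_smul := by
        intro P
        change P.map (μ 1).toLinearMap = P
        rw [map_one]
        exact Submodule.map_id P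
      mul_smul := by
        intro g h P
        change P.map (μ (g * h)).toLinearMap = (P.map (μ h).toLinearMap).map (μ g).toLinearMap
        rw [map_mul, ← Submodule.map_comp]
        rfl }
  have hsmul : ∀ (h : H) (P : Submodule ℚ (Fin r → ℚ)), h • P = P.map (μ h).toLinearMap :=
    fun _ _ => rfl
  have hinv : ∀ h : H, ∀ P ∈ fil 𝓕, h • P ∈ fil 𝓕 := by
    intro h P hP
    obtain ⟨P', hP', hPP⟩ := hsub h⁻¹ P hP
    rw [← hsmul] at hPP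
    rw [hPP, smul_inv_smul]
    exact hP'
  have hne : (fil 𝓕).Nonempty := by
    rw [Finset.nonempty_iff_ne_empty]
    intro h0
    apply hnk
    refine ⟨𝓕, hC, fun P hP => ?_⟩
    have h1 := hge P hP
    have h2 : finrank ℚ P ≠ k := by
      intro h2
      have : P ∈ fil 𝓕 := Finset.mem_filter.2 ⟨hP, h2⟩
      rw [h0] at this
      exact absurd this (Finset.notMem_empty _)
    omega
  obtain ⟨P, hP⟩ := hne
  have hPk : finrank ℚ P = k := (Finset.mem_filter.1 hP).2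
  have horb : (MulAction.orbit H P).Finite := by
    apply (fil 𝓕).finite_toSet.subset
    rintro _ ⟨h, rfl⟩
    exact hinv h P hP
  have hidx : (MulAction.stabilizer H P).index ≠ 0 := by
    rw [MulAction.index_stabilizer]
    exact Set.ncard_ne_zero_of_mem (MulAction.mem_orbit_self P) horb
  have htop := c5 (MulAction.stabilizer H P) hidx P (by
    rintro rfl
    rw [finrank_bot] at hPk
    omega) (fun h hh => hh)
  rw [htop, finrank_top, hV] at hPk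
  omega

end Pool.Agent.Helper933.HC
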