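import Pool.Agent.Helper933.HC.Defs
import Pool.Agent.Helper933.HC.P_tr_eq

set_option autoImplicit false

namespace Pool.Agent.Helper933.HC
open Module


theorem goodall_step {K G A Q : Type} [DivisionRing K] [Group G] [AddCommGroup A] [Module K A]
    [DistribMulAction G A] [Group Q] (ρ : G →* Q) {r : ℕ} (ε : Multiplicative (Fin r → ℤ) →* Q)
    (hsemi : ∀ g : G, Semi K (ac g : A ≃+ A))
    (Y : (Fin r → ℤ) → G) (hY : ∀ v, ρ (Y v) = ε (Multiplicative.ofAdd v)) (w : A)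
    (e : Fin r → ℤ) (F : Set (Fin r → ℤ)) (x : A) (hx : x ∈ (tr ρ ε F w : Submodule K A)) :
    Y e • x ∈ (tr ρ ε ((fun f => e + f) '' F) w : Submodule K A) := by
  unfold tr at hx
  induction hx using Submodule.span_induction with
  | mem x hx =>
    obtain ⟨g, f, hf, hg, rfl⟩ := hx
    refine Submodule.subset_span ⟨Y e * g, e + f, ⟨f, hf, rfl⟩, ?_, ?_⟩
    · rw [map_mul, hY, hg, ← map_mul]; rfl
    · rw [mul_smul]
  | zero => rw [smul_zero]; exact Submodule.zero_mem _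
  | add x y _ _ hx hy => rw [smul_add]; exact Submodule.add_mem _ hx hy
  | smul a x _ hx =>
    obtain ⟨σ, hσ⟩ := hsemi (Y e)
    have h1 : Y e • (a • x) = σ a • Y e • x := hσ a x
    rw [h1]
    exact Submodule.smul_mem _ _ hx

/-- the character given by a real vector -/
noncomputable def goodall_phi {r : ℕ} (c : Fin r → ℝ) : (Fin r → ℤ) →+ ℝ where
  toFun v := ∑ i, c i * (v i : ℝ)
  map_zero' := by simp
  map_add' v w := by
    rw [← Finset.sum_add_distrib]
    exact Finset.sum_congr rfl fun i _ => by rw [Pi.add_apply]; push_cast; ring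

theorem goodall_phi_apply {r : ℕ} (c : Fin r → ℝ) (v : Fin r → ℤ) :
    goodall_phi c v = ∑ i, c i * (v i : ℝ) := rfl

theorem goodall_min {ι : Type} (t : Finset ι) (g : ι → ℝ) (hg : ∀ p ∈ t, 0 < g p) :
    ∃ δ : ℝ, 0 < δ ∧ ∀ p ∈ t, δ < g p := by
  classical
  induction t using Finset.induction_on with
  | empty => exact ⟨1, one_pos, fun p hp => absurd hp (Finset.notMem_empty p)⟩
  | insert a s ha ih =>
    obtain ⟨δ, hδ, h⟩ := ih (fun p hp => hg p (Finset.mem_insert_of_mem hp))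
    have ha' := hg a (Finset.mem_insert_self a s)
    refine ⟨min δ (g a / 2), lt_min hδ (by linarith), fun p hp => ?_⟩
    rcases Finset.mem_insert.1 hp with rfl | hp
    · exact lt_of_le_of_lt (min_le_right _ _) (by linarith)
    · exact lt_of_le_of_lt (min_le_left _ _) (h p hp)

theorem goodall_compact {r : ℕ} (P : Finset (Fin r → ℤ) → Prop)
    (h : ∀ φ : (Fin r → ℤ) →+ ℝ, φ ≠ 0 → ∃ F : Finset (Fin r → ℤ), (∀ f ∈ F, 0 < φ f) ∧ P F) :
    ∃ δ : ℝ, 0 < δ ∧ ∃ 𝓕 : Finset (Finset (Fin r → ℤ)), (∀ F ∈ 𝓕, P F) ∧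
      ∀ c : Fin r → ℝ, ∑ i, c i ^ 2 = 1 → ∃ F ∈ 𝓕, ∀ f ∈ F, δ < goodall_phi c f := by
  classical
  have hcomp : IsCompact {c : Fin r → ℝ | ∑ i, c i ^ 2 = 1} := by
    apply Metric.isCompact_of_isClosed_isBounded
    · exact isClosed_eq (by fun_prop) continuous_const
    · refine (Metric.isBounded_closedBall (x := (0 : Fin r → ℝ)) (r := 1)).subset ?_
      intro c hc
      have hc' : ∑ i, c i ^ 2 = 1 := hc
      rw [mem_closedBall_zero_iff, pi_norm_le_iff_of_nonneg zero_le_one]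
      intro i
      have h1 : c i ^ 2 ≤ ∑ i, c i ^ 2 :=
        Finset.single_le_sum (f := fun i => c i ^ 2) (fun j _ => sq_nonneg (c j))
          (Finset.mem_univ i)
      rw [hc'] at h1
      rw [Real.norm_eq_abs]
      exact abs_le_of_sq_le_sq (by linarith) zero_le_one
  obtain ⟨t, ht⟩ := hcomp.elim_finite_subcover
    (fun p : {p : Finset (Fin r → ℤ) × ℝ // P p.1 ∧ 0 < p.2} =>
      ⋂ f ∈ p.1.1, {c : Fin r → ℝ | p.1.2 < goodall_phi c f})
    (by
      intro p
      refine isOpen_biInter_finset fun f _ => ?_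
      refine isOpen_lt continuous_const ?_
      simp only [goodall_phi_apply]
      fun_prop)
    (by
      intro c hc
      have hc' : ∑ i, c i ^ 2 = 1 := hc
      have hne : goodall_phi c ≠ 0 := by
        intro h0
        have h1 : ∀ i, c i = 0 := by
          intro i
          have h2 : goodall_phi c (Pi.single i 1) = 0 := by rw [h0]; rfl
          rw [goodall_phi_apply, Finset.sum_eq_single i] at h2
          · simpa using h2
          · intro j _ hj
            rw [Pi.single_apply, if_neg hj]; simp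
          · intro hi; exact absurd (Finset.mem_univ i) hi
        rw [Finset.sum_eq_zero (fun i _ => by rw [h1 i]; norm_num)] at hc'
        exact zero_ne_one hc'
      obtain ⟨F, hF, hP⟩ := h _ hne
      obtain ⟨δ, hδ, hδF⟩ := goodall_min F (fun f => goodall_phi c f) hF
      refine Set.mem_iUnion.2 ⟨⟨(F, δ), hP, hδ⟩, ?_⟩
      exact Set.mem_iInter₂.2 fun f hf => hδF f hf)
  obtain ⟨δ, hδ, hδt⟩ := goodall_min t (fun p => p.1.2) (fun p _ => p.2.2)
  refine ⟨δ, hδ, t.image (fun p => p.1.1), ?_, ?_⟩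
  · intro F hF
    obtain ⟨p, _, rfl⟩ := Finset.mem_image.1 hF
    exact p.2.1
  · intro c hc
    obtain ⟨p, hp, hcp⟩ := Set.mem_iUnion₂.1 (ht hc)
    refine ⟨p.1.1, Finset.mem_image.2 ⟨p, hp, rfl⟩, ?_⟩
    intro f hf
    exact (hδt p hp).trans (Set.mem_iInter₂.1 hcp f hf)

/-- squared norm -/
def goodall_n2 {r : ℕ} (e : Fin r → ℤ) : ℕ := ∑ i, (e i).natAbs ^ 2

theorem goodall_n2_cast {r : ℕ} (e : Fin r → ℤ) :
    (goodall_n2 e : ℝ) = ∑ i, (e i : ℝ) ^ 2 := by
  unfold goodall_n2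
  push_cast
  exact Finset.sum_congr rfl fun i _ => by rw [Nat.cast_natAbs, Int.cast_abs, sq_abs]

theorem goodall_descent {r : ℕ} (δ : ℝ) (hδ : 0 < δ) (𝓕 : Finset (Finset (Fin r → ℤ)))
    (h : ∀ c : Fin r → ℝ, ∑ i, c i ^ 2 = 1 → ∃ F ∈ 𝓕, ∀ f ∈ F, δ < goodall_phi c f) :
    ∃ R : ℕ, ∀ e : Fin r → ℤ, R < goodall_n2 e →
      ∃ F ∈ 𝓕, ∀ f ∈ F, goodall_n2 (e + f) < goodall_n2 e := by
  classical
  set L : ℕ := ∑ F ∈ 𝓕, ∑ f ∈ F, goodall_n2 f with hL
  have hLF : ∀ F ∈ 𝓕, ∀ f ∈ F, goodall_n2 f ≤ L := by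
    intro F hF f hf
    have h1 : goodall_n2 f ≤ ∑ f ∈ F, goodall_n2 f :=
      Finset.single_le_sum (f := fun f => goodall_n2 f) (fun _ _ => Nat.zero_le _) hf
    have h2 : ∑ f ∈ F, goodall_n2 f ≤ L :=
      Finset.single_le_sum (f := fun F : Finset (Fin r → ℤ) => ∑ f ∈ F, goodall_n2 f)
        (fun _ _ => Nat.zero_le _) hF
    exact h1.trans h2
  obtain ⟨R, hR⟩ := exists_nat_ge (((L : ℝ) / (2 * δ)) ^ 2)
  refine ⟨R, fun e he => ?_⟩
  have hN : (0 : ℝ) < goodall_n2 e := by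
    have : 0 < goodall_n2 e := by omega
    exact_mod_cast this
  set s : ℝ := Real.sqrt (goodall_n2 e) with hs
  have hspos : 0 < s := Real.sqrt_pos.2 hN
  have hs2 : s ^ 2 = goodall_n2 e := Real.sq_sqrt hN.le
  have hsL : (L : ℝ) ≤ 2 * δ * s := by
    have h1 : (L : ℝ) / (2 * δ) ≤ s := by
      apply Real.le_sqrt_of_sq_le
      refine hR.trans ?_
      exact_mod_cast he.le
    rw [div_le_iff₀ (by positivity)] at h1
    linarith
  obtain ⟨F, hF, hFf⟩ := h (fun i => -(e i : ℝ) / s) (by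
    have h1 : ∀ i, (-(e i : ℝ) / s) ^ 2 = (e i : ℝ) ^ 2 * (s ^ 2)⁻¹ := by
      intro i
      rw [div_pow, neg_sq, div_eq_mul_inv]
    rw [Finset.sum_congr rfl (fun i _ => h1 i), ← Finset.sum_mul, ← goodall_n2_cast, hs2]
    exact mul_inv_cancel₀ hN.ne')
  refine ⟨F, hF, fun f hf => ?_⟩
  have h1 := hFf f hf
  rw [goodall_phi_apply] at h1
  have h2 : ∑ i, -(e i : ℝ) / s * (f i : ℝ) = -(∑ i, (e i : ℝ) * (f i : ℝ)) / s := by
    rw [← Finset.sum_neg_distrib, Finset.sum_div]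
    exact Finset.sum_congr rfl fun i _ => by ring
  rw [h2, lt_div_iff₀ hspos] at h1
  have h3 : (goodall_n2 (e + f) : ℝ) =
      goodall_n2 e + 2 * (∑ i, (e i : ℝ) * (f i : ℝ)) + goodall_n2 f := by
    rw [goodall_n2_cast, goodall_n2_cast, goodall_n2_cast, Finset.mul_sum,
      ← Finset.sum_add_distrib, ← Finset.sum_add_distrib]
    exact Finset.sum_congr rfl fun i _ => by rw [Pi.add_apply]; push_cast; ring
  have h4 : (goodall_n2 f : ℝ) ≤ L := by exact_mod_cast hLF F hF f hf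
  have h5 : (goodall_n2 (e + f) : ℝ) < goodall_n2 e := by
    rw [h3]; nlinarith
  exact_mod_cast h5

theorem goodall_finite {r : ℕ} (R : ℕ) : {e : Fin r → ℤ | goodall_n2 e ≤ R}.Finite := by
  refine (Set.finite_Icc (fun _ : Fin r => -(R : ℤ)) (fun _ : Fin r => (R : ℤ))).subset ?_
  intro e he
  have he' : goodall_n2 e ≤ R := he
  have h1 : ∀ i, (e i).natAbs ≤ R := by
    intro i
    have h2 : (e i).natAbs ^ 2 ≤ goodall_n2 e :=
      Finset.single_le_sum (f := fun i => (e i).natAbs ^ 2) (fun _ _ => Nat.zero_le _)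
        (Finset.mem_univ i)
    have h3 : (e i).natAbs ≤ (e i).natAbs ^ 2 := Nat.le_self_pow (by norm_num) _
    omega
  constructor
  · intro i
    have := h1 i
    show -(R : ℤ) ≤ e i
    omega
  · intro i
    have := h1 i
    show e i ≤ (R : ℤ)
    omega

/-- if all nonzero characters are good the module is finite dimensional. -/
theorem good_all {K G A Q : Type} [DivisionRing K] [Group G] [AddCommGroup A] [Module K A]
    [DistribMulAction G A] [Group Q] (ρ : G →* Q) {r : ℕ} (ε : Multiplicative (Fin r → ℤ) →* Q)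
    (hsemi : ∀ g : G, Semi K (ac g : A ≃+ A))
    (hscal : ∀ g : G, ρ g = 1 → ∃ c : K, ∀ a : A, g • a = c • a)
    (Y : (Fin r → ℤ) → G) (hY : ∀ v, ρ (Y v) = ε (Multiplicative.ofAdd v)) (w : A)
    (h : ∀ φ : (Fin r → ℤ) →+ ℝ, φ ≠ 0 → ∃ F : Finset (Fin r → ℤ), (∀ f ∈ F, 0 < φ f) ∧
      w ∈ (tr ρ ε (F : Set (Fin r → ℤ)) w : Submodule K A)) :
    FiniteDimensional K (tr ρ ε Set.univ w : Submodule K A) := by
  classical
  obtain ⟨δ, hδ, 𝓕, hP, hc⟩ := goodall_compact (r := r)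
    (fun F : Finset (Fin r → ℤ) => w ∈ (tr ρ ε (F : Set (Fin r → ℤ)) w : Submodule K A)) h
  obtain ⟨R, hR⟩ := goodall_descent δ hδ 𝓕 hc
  set B : Submodule K A :=
    Submodule.span K ((fun v => Y v • w) '' {e : Fin r → ℤ | goodall_n2 e ≤ R}) with hB
  have hfin : FiniteDimensional K B :=
    FiniteDimensional.span_of_finite K ((goodall_finite R).image _)
  have key : ∀ n : ℕ, ∀ e : Fin r → ℤ, goodall_n2 e = n → Y e • w ∈ B := by
    intro n
    induction n using Nat.strong_induction_on with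
    | _ n ih =>
      intro e he
      by_cases hle : goodall_n2 e ≤ R
      · exact Submodule.subset_span ⟨e, hle, rfl⟩
      · obtain ⟨F, hF, hFf⟩ := hR e (not_le.1 hle)
        have h1 := goodall_step ρ ε hsemi Y hY w e (F : Set (Fin r → ℤ)) w (hP F hF)
        rw [tr_eq ρ ε hsemi hscal Y hY] at h1
        refine Submodule.span_le.2 ?_ h1
        rintro _ ⟨v, ⟨f, hf, rfl⟩, rfl⟩
        exact ih (goodall_n2 (e + f)) (by rw [← he]; exact hFf f hf) (e + f) rfl
  have hle : (tr ρ ε Set.univ w : Submodule K A) ≤ B := by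
    rw [tr_eq ρ ε hsemi hscal Y hY]
    refine Submodule.span_le.2 ?_
    rintro _ ⟨v, _, rfl⟩
    exact key _ v rfl
  exact Submodule.finiteDimensional_of_le hle

end Pool.Agent.Helper933.HC
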