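import Pool.Agent.Helper933.HC.Defs

set_option autoImplicit false

namespace Pool.Agent.Helper933.HC
open Module


theorem gm845_tr {K G A Q : Type} [DivisionRing K] [Group G] [AddCommGroup A] [Module K A]
    [DistribMulAction G A] [Group Q] (ρ : G →* Q) {r : ℕ} (ε : Multiplicative (Fin r → ℤ) →* Q)
    (V : Submodule K A) (hV : St (ε.range.comap ρ) V) (f : V →ₗ[K] A)
    (hf : Equi (ε.range.comap ρ) f) (hinj : Function.Injective f) (F : Set (Fin r → ℤ)) (x : V) :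
    (x : A) ∈ (tr ρ ε F (x : A) : Submodule K A) ↔ f x ∈ (tr ρ ε F (f x) : Submodule K A) := by
  set S : Set V := {v : V | ∃ g : G, ∃ k ∈ F, ρ g = ε (Multiplicative.ofAdd k) ∧
    (v : A) = g • (x : A)} with hS
  have hmem : ∀ g : G, ∀ k : Fin r → ℤ, ρ g = ε (Multiplicative.ofAdd k) →
      g ∈ ε.range.comap ρ := by
    intro g k hg
    rw [Subgroup.mem_comap, hg]
    exact ⟨_, rfl⟩
  have e1 : (tr ρ ε F (x : A) : Submodule K A) = (Submodule.span K S).map V.subtype := by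
    unfold tr
    rw [Submodule.map_span]
    congr 1
    ext y
    constructor
    · rintro ⟨g, k, hk, hg, rfl⟩
      exact ⟨⟨g • (x : A), hV g (hmem g k hg) _ x.2⟩, ⟨g, k, hk, hg, rfl⟩, rfl⟩
    · rintro ⟨v, ⟨g, k, hk, hg, hv⟩, rfl⟩
      exact ⟨g, k, hk, hg, hv⟩
  have e2 : (tr ρ ε F (f x) : Submodule K A) = (Submodule.span K S).map f := by
    unfold tr
    rw [Submodule.map_span]
    congr 1
    ext y
    constructor
    · rintro ⟨g, k, hk, hg, rfl⟩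
      refine ⟨⟨g • (x : A), hV g (hmem g k hg) _ x.2⟩, ⟨g, k, hk, hg, rfl⟩, ?_⟩
      exact hf g (hmem g k hg) x _ rfl
    · rintro ⟨v, ⟨g, k, hk, hg, hv⟩, rfl⟩
      exact ⟨g, k, hk, hg, hf g (hmem g k hg) x v hv⟩
  rw [e1, e2]
  constructor
  · rintro ⟨v, hv, hvx⟩
    have : v = x := Subtype.ext hvx
    rw [this] at hv
    exact ⟨x, hv, rfl⟩
  · rintro ⟨v, hv, hvx⟩
    have : v = x := hinj hvx
    rw [this] at hv
    exact ⟨x, hv, rfl⟩

/-- goodness is invariant under injective equivariant maps. -/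
theorem good_map {K G A Q : Type} [DivisionRing K] [Group G] [AddCommGroup A] [Module K A]
    [DistribMulAction G A] [Group Q] (ρ : G →* Q) {r : ℕ} (ε : Multiplicative (Fin r → ℤ) →* Q)
    (V : Submodule K A) (hV : St (ε.range.comap ρ) V) (f : V →ₗ[K] A)
    (hf : Equi (ε.range.comap ρ) f) (hinj : Function.Injective f) (V₁ V₂ : Submodule K A)
    (h1 : V₁ ≤ V) (h2 : ∀ y, y ∈ V₂ ↔ ∃ x : V, (x : A) ∈ V₁ ∧ f x = y)
    (φ : (Fin r → ℤ) →+ ℝ) : Good ρ ε φ V₁ ↔ Good ρ ε φ V₂ := by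
  constructor
  · intro h w hw
    obtain ⟨x, hx, rfl⟩ := (h2 w).1 hw
    obtain ⟨F, hF, hxF⟩ := h _ hx
    exact ⟨F, hF, (gm845_tr ρ ε V hV f hf hinj _ x).1 hxF⟩
  · intro h w hw
    have hwV : w ∈ V := h1 hw
    obtain ⟨F, hF, hxF⟩ := h (f ⟨w, hwV⟩) ((h2 _).2 ⟨⟨w, hwV⟩, hw, rfl⟩)
    exact ⟨F, hF, (gm845_tr ρ ε V hV f hf hinj _ ⟨w, hwV⟩).2 hxF⟩

end Pool.Agent.Helper933.HC
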