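import Pool.Agent.Helper933.HC.Defs
import Pool.Agent.Helper933.HC.P_conj_mat
import Pool.Agent.Helper933.HC.P_crit_uniform
import Pool.Agent.Helper933.HC.P_crit_gm
import Pool.Agent.Helper933.HC.P_good_map
import Pool.Agent.Helper933.HC.P_good_all
import Pool.Agent.Helper933.HC.P_cover_abs
import Pool.Agent.Helper933.HC.P_conj_hom
import Pool.Agent.Helper933.HC.P_cov_start
import Pool.Agent.Helper933.HC.P_cov_join
import Pool.Agent.Helper933.HC.P_cov_gm

set_option autoImplicit false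

namespace Pool.Agent.Helper933.HC
open Module


theorem h395_st_tr {K G A Q : Type} [DivisionRing K] [Group G] [AddCommGroup A] [Module K A]
    [DistribMulAction G A] [Group Q] (ρ : G →* Q) {r : ℕ} (ε : Multiplicative (Fin r → ℤ) →* Q)
    (hsemi : ∀ g : G, Semi K (ac g : A ≃+ A)) (w : A) :
    St (ε.range.comap ρ) (tr ρ ε Set.univ w : Submodule K A) := by
  rintro g ⟨a, ha⟩ x hx
  obtain ⟨σ, hσ⟩ := hsemi g
  unfold tr at hx ⊢
  induction hx using Submodule.span_induction with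
  | mem x hx =>
    obtain ⟨g', f, -, hf, rfl⟩ := hx
    apply Submodule.subset_span
    refine ⟨g * g', Multiplicative.toAdd a + f, trivial, ?_, (mul_smul ..).symm⟩
    rw [map_mul, hf, ← ha, ofAdd_add, map_mul]; rfl
  | zero => rw [smul_zero]; exact zero_mem _
  | add x y _ _ hx hy => rw [smul_add]; exact add_mem hx hy
  | smul k x _ hx =>
    have h1 : g • (k • x) = σ k • (g • x) := hσ k x
    rw [h1]; exact Submodule.smul_mem _ _ hx

theorem h395_tr_le {K G A Q : Type} [DivisionRing K] [Group G] [AddCommGroup A] [Module K A]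
    [DistribMulAction G A] [Group Q] (ρ : G →* Q) {r : ℕ} (ε : Multiplicative (Fin r → ℤ) →* Q)
    (V : Submodule K A) (hV : St (ε.range.comap ρ) V) (w : A) (hw : w ∈ V) :
    (tr ρ ε Set.univ w : Submodule K A) ≤ V := by
  unfold tr
  rw [Submodule.span_le]
  rintro y ⟨g, f, -, hf, rfl⟩
  exact hV g ⟨Multiplicative.ofAdd f, hf.symm⟩ w hw

theorem h395_mem_tr {K G A Q : Type} [DivisionRing K] [Group G] [AddCommGroup A] [Module K A]
    [DistribMulAction G A] [Group Q] (ρ : G →* Q) {r : ℕ} (ε : Multiplicative (Fin r → ℤ) →* Q)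
    (w : A) : w ∈ (tr ρ ε Set.univ w : Submodule K A) := by
  unfold tr
  apply Submodule.subset_span
  exact ⟨1, 0, trivial, by rw [map_one, ofAdd_zero, map_one], (one_smul G w).symm⟩

theorem h395_st_gm {K G A : Type} [DivisionRing K] [Group G] [AddCommGroup A] [Module K A]
    [DistribMulAction G A] (hsemi : ∀ g : G, Semi K (ac g : A ≃+ A)) (N : Subgroup G)
    (hN : N.Normal) {V : Submodule K A} (hV : St N V) (g : G) : St N (gm g V : Submodule K A) := by
  intro n hn x hx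
  obtain ⟨σ, hσ⟩ := hsemi n
  unfold gm at hx ⊢
  induction hx using Submodule.span_induction with
  | mem x hx =>
    obtain ⟨y, hy, rfl⟩ := hx
    apply Submodule.subset_span
    have h1 : g⁻¹ * n * g ∈ N := by
      have := hN.conj_mem n hn g⁻¹
      simpa using this
    refine ⟨(g⁻¹ * n * g) • y, hV _ h1 y hy, ?_⟩
    rw [← mul_smul, ← mul_smul]
    congr 1
    group
  | zero => rw [smul_zero]; exact zero_mem _
  | add x y _ _ hx hy => rw [smul_add]; exact add_mem hx hy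
  | smul k x _ hx =>
    have h1 : n • (k • x) = σ k • (n • x) := hσ k x
    rw [h1]; exact Submodule.smul_mem _ _ hx

theorem h395_clear {r : ℕ} (p : Fin r → ℚ) :
    ∃ n : ℕ, 0 < n ∧ ∃ v : Fin r → ℤ, (fun i => (v i : ℚ)) = (n : ℚ) • p := by
  classical
  refine ⟨∏ i, (p i).den, Finset.prod_pos fun i _ => (p i).den_pos,
    fun i => (p i).num * ((∏ j ∈ Finset.univ.erase i, ((p j).den : ℕ) : ℕ) : ℤ), ?_⟩
  funext i
  have h1 : (∏ j, (p j).den) = (p i).den * ∏ j ∈ Finset.univ.erase i, (p j).den :=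
    (Finset.mul_prod_erase Finset.univ (fun j => (p j).den) (Finset.mem_univ i)).symm
  simp only [Pi.smul_apply, smul_eq_mul]
  rw [h1]
  push_cast
  have h2 : ((p i).den : ℚ) * p i = (p i).num := by
    rw [mul_comm]; exact Rat.mul_den_eq_num (p i)
  rw [← h2]; ring

/-- the stabiliser of the similarity class of a torsion critical subspace without nonzero finite
dimensional subspaces has infinite index. -/
theorem stab_infinite {K G A Q : Type} [DivisionRing K] [Group G] [AddCommGroup A] [Module K A]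
    [DistribMulAction G A] [Group Q] (ρ : G →* Q) (hρ : Function.Surjective ρ) (hQ : PC Q)
    {r : ℕ} (ε : Multiplicative (Fin r → ℤ) →* Q) (hP : Plinth Q r ε)
    (hsemi : ∀ g : G, Semi K (ac g : A ≃+ A))
    (hscal : ∀ g : G, ρ g = 1 → ∃ c : K, ∀ a : A, g • a = c • a)
    (U : Submodule K A) (hU : Crit (ε.range.comap ρ) U)
    (hUt : ∀ w ∈ U, Tors (K := K) ρ ε w)
    (hUf : ∀ V ≤ U, St (ε.range.comap ρ) V → FiniteDimensional K V → V = ⊥)
    (L : Subgroup G) (hL : ∀ g, g ∈ L ↔ Sim (ε.range.comap ρ) U (gm g U)) :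
    (L.map ρ).index = 0 := by
  classical
  by_contra hidx
  have hNn : (ε.range.comap ρ).Normal := hP.normal.comap ρ
  choose Y hY using fun v : Fin r → ℤ => hρ (ε (Multiplicative.ofAdd v))
  obtain ⟨μ0, hμ0⟩ := conj_hom ε hP.inj hP.normal
  refine cover_abs ((μ0.comp ρ).comp L.subtype)
    (fun 𝓕 => ∃ V ≤ U, V ≠ ⊥ ∧ St (ε.range.comap ρ) V ∧ Cov ρ ε 𝓕 V) ?_ ?_ ?_ ?_ ?_
  · -- c1
    obtain ⟨w, hwU, hw0⟩ := (Submodule.ne_bot_iff U).1 hU.1
    obtain ⟨𝓕, h1, h2⟩ := cov_start ρ ε hsemi hscal Y hY w (hUt w hwU)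
    refine ⟨𝓕, ⟨tr ρ ε Set.univ w, h395_tr_le ρ ε U hU.2.1 w hwU, ?_, h395_st_tr ρ ε hsemi w, h2⟩,
      h1⟩
    exact (Submodule.ne_bot_iff _).2 ⟨w, h395_mem_tr ρ ε w, hw0⟩
  · -- c2
    rintro 𝓕 𝓖 𝓗 ⟨V₁, hV1U, hV10, hV1s, hV1c⟩ ⟨V₂, hV2U, hV20, hV2s, hV2c⟩ hR
    refine ⟨V₁ ⊓ V₂, inf_le_left.trans hV1U,
      crit_uniform (ε.range.comap ρ) hU hV1U hV2U hV10 hV20 hV1s hV2s, ?_,
      cov_join ρ ε 𝓕 𝓖 𝓗 V₁ V₂ (V₁ ⊓ V₂) hV1c hV2c inf_le_left inf_le_right hR⟩
    intro g hg x hx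
    exact ⟨hV1s g hg x hx.1, hV2s g hg x hx.2⟩
  · -- c3
    rintro ⟨h, hh⟩ 𝓕 𝓗 ⟨V, hVU, hV0, hVs, hVc⟩ hR
    obtain ⟨M, hM⟩ := conj_mat ε hP.inj hP.normal (ρ h)
    have hgm : Cov ρ ε 𝓗 (gm h V : Submodule K A) :=
      cov_gm ρ ε hsemi h M hM (μ0 (ρ h)) (fun v => hμ0 (ρ h) v (M v) (hM v)) 𝓕 𝓗 V hVc hR
    obtain ⟨U₁, hU1, hU1s, f, hfe, hf0, hfm⟩ := (hL h).1 hh
    have hfi : Function.Injective f := hU.2.2 U₁ hU1 hU1s f hfe hf0
    have hZ2 : (gm h V : Submodule K A) ≤ gm h U := by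
      unfold gm
      apply Submodule.span_mono
      rintro y ⟨x, hx, rfl⟩
      exact ⟨x, hVU hx, rfl⟩
    have hZ1 : LinearMap.range f ≤ gm h U := by
      rintro y ⟨x, rfl⟩
      exact hfm x
    have hZ10 : LinearMap.range f ≠ ⊥ := by
      intro h0
      exact hf0 (LinearMap.range_eq_bot.1 h0)
    have hZ20 : (gm h V : Submodule K A) ≠ ⊥ := by
      obtain ⟨x, hx, hx0⟩ := (Submodule.ne_bot_iff V).1 hV0
      refine (Submodule.ne_bot_iff _).2 ⟨h • x, Submodule.subset_span ⟨x, hx, rfl⟩, ?_⟩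
      intro h0
      exact hx0 ((smul_eq_zero_iff_eq h).1 h0)
    have hZ1s : St (ε.range.comap ρ) (LinearMap.range f) := by
      rintro n hn y ⟨x, rfl⟩
      exact ⟨⟨n • (x : A), hU1s n hn x x.2⟩, hfe n hn x ⟨n • (x : A), hU1s n hn x x.2⟩ rfl⟩
    have hZ2s : St (ε.range.comap ρ) (gm h V : Submodule K A) :=
      h395_st_gm hsemi _ hNn hVs h
    have hZ := crit_uniform (ε.range.comap ρ) (crit_gm hsemi (ε.range.comap ρ) hNn h hU)
      hZ1 hZ2 hZ10 hZ20 hZ1s hZ2s
    refine ⟨((gm h V : Submodule K A).comap f).map U₁.subtype, ?_, ?_, ?_, ?_⟩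
    · rintro _ ⟨x, -, rfl⟩
      exact hU1 x.2
    · obtain ⟨z, ⟨⟨x, rfl⟩, hz2⟩, hz0⟩ := (Submodule.ne_bot_iff _).1 hZ
      refine (Submodule.ne_bot_iff _).2 ⟨(x : A), ⟨x, hz2, rfl⟩, ?_⟩
      intro h0
      apply hz0
      have : x = 0 := Subtype.ext h0
      rw [this, map_zero]
    · rintro n hn _ ⟨x, hx, rfl⟩
      refine ⟨⟨n • (x : A), hU1s n hn x x.2⟩, ?_, rfl⟩
      have h1 := hfe n hn x ⟨n • (x : A), hU1s n hn x x.2⟩ rfl
      show f _ ∈ (gm h V : Submodule K A)
      rw [h1]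
      exact hZ2s n hn _ hx
    · intro φ hφ hbad
      apply hgm φ hφ
      intro hgood
      apply hbad
      refine (good_map ρ ε U₁ hU1s f hfe hfi
        (((gm h V : Submodule K A).comap f).map U₁.subtype)
        (((gm h V : Submodule K A).comap f).map f) ?_ ?_ φ).2 ?_
      · rintro _ ⟨x, -, rfl⟩
        exact x.2
      · intro y
        constructor
        · rintro ⟨x, hx, rfl⟩
          exact ⟨x, ⟨x, hx, rfl⟩, rfl⟩
        · rintro ⟨x, ⟨x', hx', hxx⟩, rfl⟩
          have : x' = x := Subtype.ext hxx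
          exact ⟨x, this ▸ hx', rfl⟩
      · rintro y ⟨x, hx, rfl⟩
        exact hgood _ hx
  · -- c4
    rintro 𝓕 ⟨V, hVU, hV0, hVs, hVc⟩
    by_contra hcon
    push Not at hcon
    obtain ⟨w, hw, hw0⟩ := (Submodule.ne_bot_iff V).1 hV0
    have hfd : FiniteDimensional K (tr ρ ε Set.univ w : Submodule K A) := by
      apply good_all ρ ε hsemi hscal Y hY w
      intro φ hφ
      by_contra hno
      obtain ⟨P, hPF, hPv⟩ := hVc φ hφ (fun hg => hno (hg w hw))
      apply hφ
      ext v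
      have h1 := hcon P hPF
      have h2 := hPv (Pi.single v 1) (by rw [h1]; trivial)
      simpa using h2
    have hb := hUf _ ((h395_tr_le ρ ε V hVs w hw).trans hVU) (h395_st_tr ρ ε hsemi w) hfd
    have hm := h395_mem_tr (K := K) ρ ε w
    rw [hb] at hm
    exact hw0 ((Submodule.mem_bot K).1 hm)
  · -- c5
    intro H₁ hH1 P hP0 hPinv
    let f : L →* Q := ρ.comp L.subtype
    have hfr : f.range = L.map ρ := by
      ext q
      constructor
      · rintro ⟨x, rfl⟩
        exact ⟨x, x.2, rfl⟩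
      · rintro ⟨x, hx, rfl⟩
        exact ⟨⟨x, hx⟩, rfl⟩
    have hHi : (H₁.map f).index ≠ 0 := by
      rw [Subgroup.index_map, hfr]
      refine mul_ne_zero ?_ hidx
      intro h0
      have := Subgroup.index_dvd_of_le (le_sup_left : H₁ ≤ H₁ ⊔ f.ker)
      rw [h0] at this
      exact hH1 (Nat.eq_zero_of_zero_dvd this)
    let F : AddSubgroup (Fin r → ℤ) :=
      { carrier := {v | (fun i => (v i : ℚ)) ∈ P}
        add_mem' := by
          intro a b ha hb
          have h1 := P.add_mem ha hb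
          have h2 : (fun i => (((a + b) i : ℤ) : ℚ)) = (fun i => (a i : ℚ)) + fun i => (b i : ℚ) := by
            funext i
            simp
          show (fun i => (((a + b) i : ℤ) : ℚ)) ∈ P
          rw [h2]
          exact h1
        zero_mem' := by
          have h2 : (fun i => (((0 : Fin r → ℤ) i : ℤ) : ℚ)) = 0 := by
            funext i
            simp
          show (fun i => (((0 : Fin r → ℤ) i : ℤ) : ℚ)) ∈ P
          rw [h2]
          exact P.zero_mem
        neg_mem' := by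
          intro a ha
          have h1 := P.neg_mem ha
          have h2 : (fun i => (((-a) i : ℤ) : ℚ)) = -(fun i => (a i : ℚ)) := by
            funext i
            simp
          show (fun i => (((-a) i : ℤ) : ℚ)) ∈ P
          rw [h2]
          exact h1 }
    have hFmem : ∀ v : Fin r → ℤ, v ∈ F ↔ (fun i => (v i : ℚ)) ∈ P := fun v => Iff.rfl
    have hF0 : F ≠ ⊥ := by
      obtain ⟨p, hp, hp0⟩ := (Submodule.ne_bot_iff P).1 hP0
      obtain ⟨n, hn, v, hv⟩ := h395_clear p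
      intro hb
      have h1 : v ∈ F := by
        rw [hFmem, hv]
        exact P.smul_mem _ hp
      rw [hb] at h1
      have h2 : v = 0 := h1
      apply hp0
      have h3 : (n : ℚ) • p = 0 := by
        rw [← hv, h2]
        funext i
        simp
      rcases smul_eq_zero.1 h3 with h4 | h4
      · exact absurd (by exact_mod_cast h4) hn.ne'
      · exact h4
    have hirr := hP.irr (H₁.map f) hHi F hF0 (by
      rintro _ ⟨h, hh, rfl⟩ v hv
      obtain ⟨M, hM⟩ := conj_mat ε hP.inj hP.normal (f h)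
      refine ⟨M v, ?_, hM v⟩
      rw [hFmem, ← hμ0 (f h) v (M v) (hM v)]
      have h1 := hPinv h hh
      rw [← h1]
      exact ⟨_, (hFmem v).1 hv, rfl⟩)
    rw [eq_top_iff]
    rintro q -
    obtain ⟨n, hn, v, hv⟩ := h395_clear q
    obtain ⟨m, hm, hmv⟩ := hirr v
    have h1 : (fun i => (((m • v) i : ℤ) : ℚ)) = ((m : ℚ) * (n : ℚ)) • q := by
      rw [mul_smul, ← hv]
      funext i
      simp
    have h2 : ((m : ℚ) * (n : ℚ)) • q ∈ P := by
      rw [← h1]
      exact (hFmem _).1 hmv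
    have h3 : ((m : ℚ) * (n : ℚ)) ≠ 0 := by positivity
    exact (Submodule.smul_mem_iff P h3).1 h2

end Pool.Agent.Helper933.HC
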