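import Pool.Agent.Helper933.HC.Defs
import Pool.Agent.Helper933.HC.P_bdd_of_maps

set_option autoImplicit false

namespace Pool.Agent.Helper933.HC
open Module


theorem ton_sub {K G A : Type} [DivisionRing K] [Group G] [AddCommGroup A] [Module K A]
    [DistribMulAction G A] (hsemi : ∀ g : G, Semi K (ac g : A ≃+ A)) (L : Subgroup G)
    (M : Submodule K A) (hM : St L M) (S : Finset A)
    (hS : Submodule.span K {y : A | ∃ g ∈ L, ∃ s ∈ S, y = g • s} = M)
    {Q' : Type} [Group Q'] (ρ' : L →* Q')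
    (hρ' : ∀ g : L, ρ' g = 1 → ∃ c : K, ∀ a ∈ M, (g : G) • a = c • a) (hMain : MainFor Q') :
    TOn L M := by
  classical
  letI act : DistribMulAction L M :=
    { smul := fun g m => ⟨(g : G) • (m : A), hM g g.2 m m.2⟩
      one_smul := fun m => Subtype.ext (one_smul G (m : A))
      mul_smul := fun g h m => Subtype.ext (mul_smul (g : G) (h : G) (m : A))
      smul_zero := fun g => Subtype.ext (smul_zero (g : G))
      smul_add := fun g m n => Subtype.ext (smul_add (g : G) (m : A) (n : A)) }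
  have hact : ∀ (g : L) (m : M), ((g • m : M) : A) = (g : G) • (m : A) := fun _ _ => rfl
  have hSM : ∀ s ∈ S, s ∈ M := by
    intro s hs
    rw [← hS]
    exact Submodule.subset_span ⟨1, L.one_mem, s, hs, (one_smul G s).symm⟩
  have hsys : Sys K L M Q' ρ' := by
    refine ⟨?_, ?_, ?_⟩
    · intro g
      obtain ⟨σ, hσ⟩ := hsemi (g : G)
      exact ⟨σ, fun k x => Subtype.ext (hσ k (x : A))⟩
    · intro g hg
      obtain ⟨c, hc⟩ := hρ' g hg
      exact ⟨c, fun a => Subtype.ext (hc a a.2)⟩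
    · refine ⟨S.subtype (fun a => a ∈ M), ?_⟩
      apply Submodule.map_injective_of_injective (f := M.subtype) M.injective_subtype
      rw [Submodule.map_top, Submodule.range_subtype, Submodule.map_span]
      conv_rhs => rw [← hS]
      congr 1
      ext y
      constructor
      · rintro ⟨x, ⟨g, s, hs, rfl⟩, rfl⟩
        exact ⟨(g : G), g.2, (s : A), Finset.mem_subtype.1 hs, rfl⟩
      · rintro ⟨g, hg, s, hs, rfl⟩
        exact ⟨(⟨g, hg⟩ : L) • (⟨s, hSM s hs⟩ : M), ⟨⟨g, hg⟩, ⟨s, hSM s hs⟩,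
          Finset.mem_subtype.2 hs, rfl⟩, rfl⟩
  obtain ⟨l, d, hld⟩ := hMain K L M ρ' hsys
  refine ⟨l, d, fun g hg W hWM hfd hst => ?_⟩
  have hfd' : FiniteDimensional K (W.comap M.subtype : Submodule K M) :=
    LinearEquiv.finiteDimensional (Submodule.comapSubtypeEquivOfLe hWM).symm
  have hB := hld ⟨g, hg⟩ (W.comap M.subtype) hfd' (fun x => hst (x : A))
  obtain ⟨p, hp⟩ := M.subtype.exists_leftInverse_of_injective
    (LinearMap.ker_eq_bot.2 M.injective_subtype)
  have hp' : ∀ x : A, ∀ hx : x ∈ M, p x = ⟨x, hx⟩ := fun x hx =>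
    LinearMap.congr_fun hp (⟨x, hx⟩ : M)
  refine bdd_of_maps hst l d (fun x hx hx0 => ⟨K, M, inferInstance, inferInstance, inferInstance,
    RingEquiv.refl K, p.toAddMonoidHom, ac (⟨g, hg⟩ : L), W.comap M.subtype, hsys.semi ⟨g, hg⟩, ?_, ?_, ?_, hB, ?_⟩)
  · intro k y _
    exact p.map_smul k y
  · intro y hy
    refine ⟨1, one_ne_zero, ?_⟩
    have h1 : y ∈ M := hWM hy
    have h2 : g • y ∈ M := hM g hg y h1
    have e1 : p.toAddMonoidHom ((ac g : A ≃+ A) y) = ⟨g • y, h2⟩ := hp' (g • y) h2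
    have e2 : p.toAddMonoidHom y = ⟨y, h1⟩ := hp' y h1
    rw [e1, e2, one_smul]
    rfl
  · intro y
    constructor
    · intro hy
      exact ⟨(y : A), hy, hp' y y.2⟩
    · rintro ⟨z, hz, rfl⟩
      have e2 : p.toAddMonoidHom z = ⟨z, hWM hz⟩ := hp' z (hWM hz)
      rw [e2]
      exact hz
  · have e2 : p.toAddMonoidHom x = ⟨x, hWM hx⟩ := hp' x (hWM hx)
    rw [e2]
    intro h
    exact hx0 (congrArg Subtype.val h)

end Pool.Agent.Helper933.HC
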