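import Pool.Agent.Helper933.HC.Defs

set_option autoImplicit false

namespace Pool.Agent.Helper933.HC
open Module


theorem tors_map {K G A Q : Type} [DivisionRing K] [Group G] [AddCommGroup A] [Module K A]
    [DistribMulAction G A] [Group Q] (ρ : G →* Q) {r : ℕ} (ε : Multiplicative (Fin r → ℤ) →* Q)
    (V : Submodule K A) (hV : St (ε.range.comap ρ) V) (f : V →ₗ[K] A)
    (hf : Equi (ε.range.comap ρ) f) (x : V) (hx : Tors (K := K) ρ ε (x : A)) :
    Tors (K := K) ρ ε (f x) := by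
  obtain ⟨F, v, hv, g, hg, hmem⟩ := hx
  refine ⟨F, v, hv, g, hg, ?_⟩
  have hH : ∀ (h : G) (w : Fin r → ℤ), ρ h = ε (Multiplicative.ofAdd w) →
      h ∈ ε.range.comap ρ := by
    intro h w hw
    rw [Subgroup.mem_comap, hw]
    exact ⟨_, rfl⟩
  have key : ∀ y : A, y ∈ (tr ρ ε (F : Set (Fin r → ℤ)) (x : A) : Submodule K A) →
      ∃ hy : y ∈ V, f ⟨y, hy⟩ ∈ (tr ρ ε (F : Set (Fin r → ℤ)) (f x) : Submodule K A) := by
    intro y hy
    unfold tr at hy
    induction hy using Submodule.span_induction with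
    | mem y hy =>
      obtain ⟨h, w, hw, hhw, rfl⟩ := hy
      have h1 : h • (x : A) ∈ V := hV h (hH h w hhw) x x.2
      refine ⟨h1, ?_⟩
      rw [hf h (hH h w hhw) x ⟨h • (x : A), h1⟩ rfl]
      exact Submodule.subset_span ⟨h, w, hw, hhw, rfl⟩
    | zero =>
      refine ⟨V.zero_mem, ?_⟩
      have h1 : (⟨0, V.zero_mem⟩ : V) = 0 := rfl
      rw [h1, map_zero]
      exact Submodule.zero_mem _
    | add a b _ _ iha ihb =>
      obtain ⟨ha, hfa⟩ := iha
      obtain ⟨hb, hfb⟩ := ihb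
      refine ⟨V.add_mem ha hb, ?_⟩
      have h1 : (⟨a + b, V.add_mem ha hb⟩ : V) = ⟨a, ha⟩ + ⟨b, hb⟩ := rfl
      rw [h1, map_add]
      exact Submodule.add_mem _ hfa hfb
    | smul c a _ iha =>
      obtain ⟨ha, hfa⟩ := iha
      refine ⟨V.smul_mem c ha, ?_⟩
      have h1 : (⟨c • a, V.smul_mem c ha⟩ : V) = c • ⟨a, ha⟩ := rfl
      rw [h1, map_smul]
      exact Submodule.smul_mem _ c hfa
  obtain ⟨hgx, hfgx⟩ := key _ hmem
  rw [hf g (hH g v hg) x ⟨g • (x : A), hgx⟩ rfl] at hfgx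
  exact hfgx

end Pool.Agent.Helper933.HC
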