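import Pool.Agent.Helper933.HC.Defs
import Pool.Agent.Helper933.HC.P_tors_iff

set_option autoImplicit false

namespace Pool.Agent.Helper933.HC
open Module


/-- torsion elements have small growth. -/
theorem growth {K G A Q : Type} [DivisionRing K] [Group G] [AddCommGroup A] [Module K A]
    [DistribMulAction G A] [Group Q] (ρ : G →* Q) {r : ℕ} (ε : Multiplicative (Fin r → ℤ) →* Q)
    (hsemi : ∀ g : G, Semi K (ac g : A ≃+ A))
    (hscal : ∀ g : G, ρ g = 1 → ∃ c : K, ∀ a : A, g • a = c • a)
    (Y : (Fin r → ℤ) → G) (hY : ∀ v, ρ (Y v) = ε (Multiplicative.ofAdd v)) (hr : 0 < r) (w : A)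
    (hw : Tors (K := K) ρ ε w) :
    ∃ C : ℕ, ∀ n : ℕ, 0 < n →
      finrank K (Submodule.span K ((fun v => Y v • w) '' box r n)) ≤ C * n ^ (r - 1) := by
  classical
  by_cases hw0 : w = 0
  · refine ⟨0, fun n hn => ?_⟩
    have h0 : Submodule.span K ((fun v => Y v • w) '' box r n) = ⊥ := by
      rw [Submodule.span_eq_bot]
      rintro x ⟨v, hv, rfl⟩
      simp [hw0]
    rw [h0]
    simp
  have hnl := (tors_iff (K := K) ρ ε hsemi hscal Y hY w).1 hw
  rw [linearIndependent_iff] at hnl
  push Not at hnl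
  obtain ⟨l, hl0, hlne⟩ := hnl
  have htr : ∀ a b : Fin r → ℤ, ∃ c : K, c ≠ 0 ∧ Y a • (Y b • w) = c • (Y (a + b) • w) := by
    intro a b
    have h1 : ρ ((Y (a + b))⁻¹ * (Y a * Y b)) = 1 := by
      rw [map_mul, map_inv, map_mul, hY, hY, hY, ofAdd_add, map_mul]
      simp
    obtain ⟨c, hc⟩ := hscal _ h1
    obtain ⟨σ, hσ⟩ := hsemi (Y (a + b))
    refine ⟨σ c, ?_, ?_⟩
    · intro h0
      have h3 : c = 0 := by simpa using h0
      have h2 := hc w
      rw [h3, zero_smul] at h2
      exact hw0 ((smul_eq_zero_iff_eq _).1 h2)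
    · have h2 : Y a • (Y b • w) = Y (a + b) • (((Y (a + b))⁻¹ * (Y a * Y b)) • w) := by
        rw [smul_smul, smul_smul]
        congr 1
        group
      rw [h2, hc]
      exact hσ c w
  obtain ⟨e0, he0, hmax⟩ := Finset.exists_max_image l.support (fun v => toLex v)
    (Finsupp.support_nonempty_iff.2 hlne)
  obtain ⟨m, hm⟩ : ∃ m : ℕ, ∀ e ∈ l.support, ∀ i, |e i - e0 i| ≤ (m : ℤ) := by
    refine ⟨∑ e ∈ l.support, ∑ i, (e i - e0 i).natAbs, fun e he i => ?_⟩
    rw [Int.abs_eq_natAbs]
    have h1 : (e i - e0 i).natAbs ≤ ∑ i, (e i - e0 i).natAbs :=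
      Finset.single_le_sum (f := fun i => (e i - e0 i).natAbs) (fun _ _ => Nat.zero_le _)
        (Finset.mem_univ i)
    have h2 : ∑ i, (e i - e0 i).natAbs ≤ ∑ e ∈ l.support, ∑ i, (e i - e0 i).natAbs :=
      Finset.single_le_sum (f := fun e : Fin r → ℤ => ∑ i, (e i - e0 i).natAbs)
        (fun _ _ => Nat.zero_le _) he
    exact_mod_cast h1.trans h2
  have hkey : ∀ v : Fin r → ℤ, ∀ P : Submodule K A,
      (∀ e ∈ l.support, e ≠ e0 → Y (v + (e - e0)) • w ∈ P) → Y v • w ∈ P := by
    intro v P hP
    obtain ⟨σ, hσ⟩ := hsemi (Y (v - e0))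
    have hσ' : ∀ (k : K) (x : A), Y (v - e0) • (k • x) = σ k • (Y (v - e0) • x) :=
      fun k x => hσ k x
    rw [Finsupp.linearCombination_apply, Finsupp.sum] at hl0
    have hsum : ∑ e ∈ l.support, σ (l e) • (Y (v - e0) • (Y e • w)) = 0 := by
      have h1 := congrArg (fun a => Y (v - e0) • a) hl0
      simp only [Finset.smul_sum, smul_zero] at h1
      rw [← h1]
      exact Finset.sum_congr rfl fun e _ => (hσ' _ _).symm
    rw [← Finset.add_sum_erase _ _ he0] at hsum
    have h2 : σ (l e0) • (Y (v - e0) • (Y e0 • w)) ∈ P := by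
      rw [eq_neg_of_add_eq_zero_left hsum]
      refine P.neg_mem (P.sum_mem fun e he => P.smul_mem _ ?_)
      obtain ⟨c, hc, hc'⟩ := htr (v - e0) e
      rw [hc']
      refine P.smul_mem _ ?_
      have h3 : v - e0 + e = v + (e - e0) := by abel
      rw [h3]
      exact hP e (Finset.mem_of_mem_erase he) (Finset.ne_of_mem_erase he)
    have h4 : σ (l e0) ≠ 0 := by
      intro h
      have h5 : l e0 = 0 := by simpa using h
      exact (Finsupp.mem_support_iff.1 he0) h5
    rw [P.smul_mem_iff h4] at h2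
    obtain ⟨c, hc, hc'⟩ := htr (v - e0) e0
    rw [hc', P.smul_mem_iff hc, sub_add_cancel] at h2
    exact h2
  refine ⟨r * (2 * m), fun n hn => ?_⟩
  obtain ⟨Bnd, hBnd⟩ : ∃ B : Finset (Fin r → ℤ), B = Finset.univ.biUnion (fun i : Fin r =>
      Fintype.piFinset (fun j : Fin r => if j = i then
        (Finset.Ico (0 : ℤ) m ∪ Finset.Ico ((n : ℤ) - m) n) else Finset.Ico (0 : ℤ) n)) := ⟨_, rfl⟩
  have hcard : Bnd.card ≤ r * (2 * m) * n ^ (r - 1) := by
    rw [hBnd]
    refine Finset.card_biUnion_le.trans ?_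
    have h1 : ∀ i ∈ (Finset.univ : Finset (Fin r)), (Fintype.piFinset (fun j : Fin r =>
        if j = i then (Finset.Ico (0 : ℤ) m ∪ Finset.Ico ((n : ℤ) - m) n)
          else Finset.Ico (0 : ℤ) n)).card ≤ (2 * m) * n ^ (r - 1) := by
      intro i _
      rw [Fintype.card_piFinset, ← Finset.mul_prod_erase _ _ (Finset.mem_univ i), if_pos rfl]
      refine Nat.mul_le_mul ?_ ?_
      · refine (Finset.card_union_le _ _).trans ?_
        simp only [Int.card_Ico]
        omega
      · rw [Finset.prod_congr rfl (g := fun _ => n)]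
        · simp
        · intro j hj
          rw [if_neg (Finset.ne_of_mem_erase hj)]
          simp
    refine (Finset.sum_le_card_nsmul _ _ _ h1).trans ?_
    simp [mul_assoc]
  have hsub : Submodule.span K ((fun v => Y v • w) '' box r n) ≤
      Submodule.span K ((Bnd.image (fun v => Y v • w) : Finset A) : Set A) := by
    rw [Submodule.span_le]
    rintro x ⟨v, hv, rfl⟩
    by_contra hcon
    obtain ⟨P, hP⟩ : ∃ P : Submodule K A,
        P = Submodule.span K ((Bnd.image (fun v => Y v • w) : Finset A) : Set A) := ⟨_, rfl⟩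
    rw [← hP] at hcon
    have hbm : ∀ u : Fin r → ℤ,
        u ∈ Fintype.piFinset (fun _ : Fin r => Finset.Ico (0 : ℤ) n) ↔ u ∈ box r n := by
      intro u
      simp [box, Fintype.mem_piFinset]
    obtain ⟨u, hu, humin⟩ := Finset.exists_min_image
      ((Fintype.piFinset (fun _ : Fin r => Finset.Ico (0 : ℤ) n)).filter
        (fun u => Y u • w ∉ P)) (fun v => toLex v)
      ⟨v, Finset.mem_filter.2 ⟨(hbm v).2 hv, hcon⟩⟩
    rw [Finset.mem_filter, hbm] at hu
    obtain ⟨hubox, huP⟩ := hu
    have hunb : u ∉ Bnd := by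
      intro h
      apply huP
      rw [hP]
      exact Submodule.subset_span (by
        rw [Finset.mem_coe]
        exact Finset.mem_image_of_mem _ h)
    have hui : ∀ i, (m : ℤ) ≤ u i ∧ u i < n - m := by
      intro i
      by_contra hi
      apply hunb
      rw [hBnd, Finset.mem_biUnion]
      refine ⟨i, Finset.mem_univ i, ?_⟩
      rw [Fintype.mem_piFinset]
      intro j
      by_cases hji : j = i
      · rw [if_pos hji, Finset.mem_union, Finset.mem_Ico, Finset.mem_Ico, hji]
        have := hubox i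
        omega
      · rw [if_neg hji, Finset.mem_Ico]
        exact hubox j
    apply huP
    apply hkey u P
    intro e he hne
    by_contra hcon2
    have hbox2 : u + (e - e0) ∈ box r n := by
      intro i
      have h1 := hui i
      have h2 := abs_le.1 (hm e he i)
      simp only [Pi.add_apply, Pi.sub_apply]
      constructor
      · linarith [h1.1, h2.1]
      · linarith [h1.2, h2.2]
    have h5 := humin _ (Finset.mem_filter.2 ⟨(hbm _).2 hbox2, hcon2⟩)
    have h6 : toLex e < toLex e0 := lt_of_le_of_ne (hmax e he) (fun h => hne (toLex.injective h))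
    have h7 : toLex (u + (e - e0)) < toLex u := by
      have h8 : toLex (u + (e - e0)) = toLex u + (toLex e - toLex e0) := rfl
      rw [h8]
      have h9 : toLex e - toLex e0 < 0 := sub_neg.2 h6
      calc toLex u + (toLex e - toLex e0) < toLex u + 0 := by gcongr
        _ = toLex u := add_zero _
    exact absurd h5 (not_le.2 h7)
  refine (Submodule.finrank_mono hsub).trans ?_
  refine (finrank_span_finset_le_card _).trans ?_
  exact Finset.card_image_le.trans hcard

end Pool.Agent.Helper933.HC
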