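import Pool.Agent.Helper933.HC.Defs
import Pool.Agent.Helper933.HC.P_conj_mat
import Pool.Agent.Helper933.HC.P_tors_iff
import Pool.Agent.Helper933.HC.P_growth
import Pool.Agent.Helper933.HC.P_box_card

set_option autoImplicit false

namespace Pool.Agent.Helper933.HC
open Module


theorem tors_sub_li {K A ι : Type} [DivisionRing K] [AddCommGroup A] [Module K A] (u : A ≃+ A)
    (σ : K ≃+* K) (hu : ∀ (k : K) (z : A), u (k • z) = σ k • u z) (x : ι → A)
    (h : LinearIndependent K (fun i => u (x i))) : LinearIndependent K x := by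
  rw [linearIndependent_iff'] at h ⊢
  intro s c hc i hi
  have h1 := h s (fun i => σ (c i)) (by
    have h2 : ∑ i ∈ s, σ (c i) • u (x i) = u (∑ i ∈ s, c i • x i) := by
      rw [map_sum]
      exact Finset.sum_congr rfl fun i _ => (hu _ _).symm
    rw [h2, hc, map_zero]) i hi
  exact (map_eq_zero_iff σ σ.injective).1 h1

theorem tors_sub_li2 {K A ι : Type} [DivisionRing K] [AddCommGroup A] [Module K A]
    (k : ι → K) (hk : ∀ i, k i ≠ 0) (x : ι → A)
    (h : LinearIndependent K (fun i => k i • x i)) : LinearIndependent K x := by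
  rw [linearIndependent_iff'] at h ⊢
  intro s c hc i hi
  have h1 := h s (fun i => c i * (k i)⁻¹) (by
    rw [← hc]
    refine Finset.sum_congr rfl fun i _ => ?_
    show (c i * (k i)⁻¹) • k i • x i = c i • x i
    rw [smul_smul, mul_assoc, inv_mul_cancel₀ (hk i), mul_one]) i hi
  rcases mul_eq_zero.1 h1 with h2 | h2
  · exact h2
  · exact absurd (inv_eq_zero.1 h2) (hk i)

/-- torsion elements form a stable subspace. -/
theorem tors_sub {K G A Q : Type} [DivisionRing K] [Group G] [AddCommGroup A] [Module K A]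
    [DistribMulAction G A] [Group Q] (ρ : G →* Q) (hρ : Function.Surjective ρ) {r : ℕ}
    (hr : 0 < r) (ε : Multiplicative (Fin r → ℤ) →* Q) (hinj : Function.Injective ε)
    (hn : ε.range.Normal) (hsemi : ∀ g : G, Semi K (ac g : A ≃+ A))
    (hscal : ∀ g : G, ρ g = 1 → ∃ c : K, ∀ a : A, g • a = c • a) :
    ∃ t : Submodule K A, (∀ a, a ∈ t ↔ Tors (K := K) ρ ε a) ∧ St (⊤ : Subgroup G) t := by
  classical
  obtain ⟨Y, hY⟩ : ∃ Y : (Fin r → ℤ) → G, ∀ v, ρ (Y v) = ε (Multiplicative.ofAdd v) :=
    ⟨fun v => Function.surjInv hρ (ε (Multiplicative.ofAdd v)),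
      fun v => Function.surjInv_eq hρ _⟩
  have hiff := fun w => tors_iff (K := K) (A := A) ρ ε hsemi hscal Y hY w
  have hadd : ∀ a b : A, Tors (K := K) ρ ε a → Tors (K := K) ρ ε b →
      Tors (K := K) ρ ε (a + b) := by
    intro a b ha hb
    obtain ⟨C1, h1⟩ := growth (K := K) ρ ε hsemi hscal Y hY hr a ha
    obtain ⟨C2, h2⟩ := growth (K := K) ρ ε hsemi hscal Y hY hr b hb
    rw [hiff]
    intro hli
    set n : ℕ := C1 + C2 + 1 with hn'
    have hn0 : 0 < n := by omega
    obtain ⟨hfin, hcard⟩ := box_card r n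
    have hft : Fintype (box r n) := hfin.fintype
    have h3 : finrank K (Submodule.span K ((fun v => Y v • (a + b)) '' box r n)) = n ^ r := by
      have h4 : LinearIndependent K (fun v : box r n => Y v • (a + b)) :=
        hli.comp Subtype.val Subtype.val_injective
      have h5 := finrank_span_eq_card h4
      rw [Set.image_eq_range, h5, ← hcard, Set.ncard_eq_toFinset_card', Set.toFinset_card]
    have hfa : FiniteDimensional K (Submodule.span K ((fun v => Y v • a) '' box r n)) :=
      FiniteDimensional.span_of_finite K (hfin.image _)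
    have hfb : FiniteDimensional K (Submodule.span K ((fun v => Y v • b) '' box r n)) :=
      FiniteDimensional.span_of_finite K (hfin.image _)
    have hle : Submodule.span K ((fun v => Y v • (a + b)) '' box r n) ≤
        Submodule.span K ((fun v => Y v • a) '' box r n) ⊔
          Submodule.span K ((fun v => Y v • b) '' box r n) := by
      rw [Submodule.span_le]
      rintro _ ⟨v, hv, rfl⟩
      show Y v • (a + b) ∈ _
      rw [smul_add]
      exact Submodule.add_mem_sup (Submodule.subset_span ⟨v, hv, rfl⟩)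
        (Submodule.subset_span ⟨v, hv, rfl⟩)
    have h6 := Submodule.finrank_mono hle
    have h7 := Submodule.finrank_add_le_finrank_add_finrank
      (Submodule.span K ((fun v => Y v • a) '' box r n))
      (Submodule.span K ((fun v => Y v • b) '' box r n))
    have h8 := h1 n hn0
    have h9 := h2 n hn0
    rw [h3] at h6
    have h10 : n ^ r = n * n ^ (r - 1) := by
      rw [← pow_succ', Nat.sub_add_cancel hr]
    have h11 : n * n ^ (r - 1) ≤ (C1 + C2) * n ^ (r - 1) := by
      rw [← h10, add_mul]
      omega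
    have h12 : 0 < n ^ (r - 1) := pow_pos hn0 _
    have h13 := Nat.le_of_mul_le_mul_right h11 h12
    omega
  have hzero : Tors (K := K) ρ ε (0 : A) := by
    rw [hiff]
    intro hli
    have := hli.ne_zero (0 : Fin r → ℤ)
    simp at this
  have hsmul : ∀ (k : K) (a : A), Tors (K := K) ρ ε a → Tors (K := K) ρ ε (k • a) := by
    intro k a ha
    by_cases hk : k = 0
    · rw [hk, zero_smul]
      exact hzero
    · rw [hiff] at ha ⊢
      intro hli
      apply ha
      choose σ hσ using fun v => hsemi (Y v)
      apply tors_sub_li2 (fun v => σ v k)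
        (fun v => (map_ne_zero_iff (σ v) (σ v).injective).2 hk)
      have h1 : (fun v => Y v • (k • a)) = fun v => σ v k • (Y v • a) := by
        funext v
        exact hσ v k a
      rw [h1] at hli
      exact hli
  refine ⟨{ carrier := {a | Tors (K := K) ρ ε a}
            add_mem' := fun {a b} ha hb => hadd a b ha hb
            zero_mem' := hzero
            smul_mem' := fun k a ha => hsmul k a ha }, fun a => Iff.rfl, ?_⟩
  intro g _ a ha
  have ha' : Tors (K := K) ρ ε a := ha
  show Tors (K := K) ρ ε (g • a)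
  obtain ⟨M, hM⟩ := conj_mat ε hinj hn (ρ g)⁻¹
  have hY' : ∀ v, ρ (g⁻¹ * Y (M.symm v) * g) = ε (Multiplicative.ofAdd v) := by
    intro v
    have h1 := hM (M.symm v)
    rw [inv_inv, AddEquiv.apply_symm_apply] at h1
    rw [map_mul, map_mul, map_inv, hY, h1]
  rw [tors_iff (K := K) (A := A) ρ ε hsemi hscal (fun v => g⁻¹ * Y (M.symm v) * g) hY'] at ha'
  rw [hiff]
  intro hli
  apply ha'
  obtain ⟨σ, hσ⟩ := hsemi g
  apply tors_sub_li (ac g) σ hσ
  have h1 : (fun v => (ac g : A ≃+ A) ((g⁻¹ * Y (M.symm v) * g) • a)) =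
      (fun v => Y v • g • a) ∘ M.symm := by
    funext v
    show g • ((g⁻¹ * Y (M.symm v) * g) • a) = Y (M.symm v) • g • a
    rw [smul_smul, smul_smul]
    congr 1
    group
  rw [h1]
  exact hli.comp M.symm M.symm.injective

end Pool.Agent.Helper933.HC
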