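import Pool.Agent.Helper933.HC.Defs
import Pool.Agent.Helper933.HC.P_pc_sub
import Pool.Agent.Helper933.HC.P_hl_index
import Pool.Agent.Helper933.HC.P_hall_sub
import Pool.Agent.Helper933.HC.P_acc_fg
import Pool.Agent.Helper933.HC.P_ton_sub
import Pool.Agent.Helper933.HC.P_mem_gm
import Pool.Agent.Helper933.HC.P_gm_basic
import Pool.Agent.Helper933.HC.P_crit_exists
import Pool.Agent.Helper933.HC.P_crit_sub
import Pool.Agent.Helper933.HC.P_stab_group
import Pool.Agent.Helper933.HC.P_ms_indep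
import Pool.Agent.Helper933.HC.P_ms_noeth
import Pool.Agent.Helper933.HC.P_induced
import Pool.Agent.Helper933.HC.P_tors_sub
import Pool.Agent.Helper933.HC.P_stab_infinite
import Pool.Agent.Helper933.HC.P_tors_map

set_option autoImplicit false

namespace Pool.Agent.Helper933.HC
open Module


theorem c2b_span_st {K G A : Type} [DivisionRing K] [Group G] [AddCommGroup A] [Module K A]
    [DistribMulAction G A] (hs : ∀ g : G, Semi K (ac g : A ≃+ A)) (L : Subgroup G)
    (S : Finset A) : St L (Submodule.span K {y : A | ∃ g ∈ L, ∃ s ∈ S, y = g • s}) := by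
  intro h hh x hx
  obtain ⟨σ, hσ⟩ := hs h
  induction hx using Submodule.span_induction with
  | mem y hy =>
    obtain ⟨g, hg, s, hsS, rfl⟩ := hy
    rw [← mul_smul]
    exact Submodule.subset_span ⟨h * g, L.mul_mem hh hg, s, hsS, rfl⟩
  | zero => rw [smul_zero]; exact Submodule.zero_mem _
  | add y z _ _ hy hz => rw [smul_add]; exact Submodule.add_mem _ hy hz
  | smul c y _ hy =>
    have : h • (c • y) = σ c • (h • y) := hσ c y
    rw [this]; exact Submodule.smul_mem _ _ hy

theorem c2b_gm_le {K G A : Type} [DivisionRing K] [Group G] [AddCommGroup A] [Module K A]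
    [DistribMulAction G A] (hs : ∀ g : G, Semi K (ac g : A ≃+ A)) (L : Subgroup G)
    (M : Submodule K A) (hM : St L M) (g : G) :
    (gm g M : Submodule K A) ≤ ⨆ c : G ⧸ L, (gm c.out M : Submodule K A) := by
  refine le_trans ?_ (le_iSup (fun c : G ⧸ L => (gm c.out M : Submodule K A)) (g : G ⧸ L))
  obtain ⟨l, hl⟩ := QuotientGroup.mk_out_eq_mul L g
  intro x hx
  have hx1 := (mem_gm g (hs g) M x).1 hx
  show x ∈ (gm ((g : G ⧸ L)).out M : Submodule K A)
  rw [hl]
  refine (mem_gm _ (hs _) M x).2 ?_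
  rw [mul_inv_rev, mul_smul]
  exact hM _ (L.inv_mem l.2) _ hx1

theorem c2b_st {K G A : Type} [DivisionRing K] [Group G] [AddCommGroup A] [Module K A]
    [DistribMulAction G A] (hs : ∀ g : G, Semi K (ac g : A ≃+ A)) (L : Subgroup G)
    (M : Submodule K A) (hM : St L M) :
    St (⊤ : Subgroup G) (⨆ c : G ⧸ L, (gm c.out M : Submodule K A)) := by
  intro g _ x hx
  induction hx using Submodule.iSup_induction' with
  | mem c y hy =>
    have hy1 := (mem_gm _ (hs _) M y).1 hy
    apply c2b_gm_le hs L M hM (g * c.out)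
    refine (mem_gm _ (hs _) M _).2 ?_
    rw [← mul_smul, mul_inv_rev, inv_mul_cancel_right]
    exact hy1
  | zero => rw [smul_zero]; exact Submodule.zero_mem _
  | add y z _ _ hy hz => rw [smul_add]; exact Submodule.add_mem _ hy hz

theorem case2b {Q : Type} [Group Q] (hQ : PC Q) {n : ℕ} (hn : HL Q n) {r : ℕ}
    (ε : Multiplicative (Fin r → ℤ) →* Q) (hP : Plinth Q r ε)
    (IH : ∀ (Q' : Type) [Group Q'], PC Q' → ∀ m < n, HL Q' m → MainFor Q')
    {K G A : Type} [DivisionRing K] [Group G] [AddCommGroup A] [Module K A]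
    [DistribMulAction G A] (ρ : G →* Q) (hρ : Function.Surjective ρ) (hS : Sys K G A Q ρ)
    (a : A) (ha0 : a ≠ 0) (ha : Tors (K := K) ρ ε a)
    (hno : ∀ V : Submodule K A, St (ε.range.comap ρ) V → FiniteDimensional K V → V = ⊥) :
    ∃ B : Submodule K A, B ≠ ⊥ ∧ St (⊤ : Subgroup G) B ∧ TOn (⊤ : Subgroup G) B := by
  classical
  have hNn : (ε.range.comap ρ).Normal := hP.normal.comap ρ
  obtain ⟨t, ht, htst⟩ := tors_sub (K := K) (A := A) ρ hρ hP.pos ε hP.inj hP.normal hS.semi hS.scal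
  set N := ε.range.comap ρ with hNdef
  set V0 : Submodule K A := Submodule.span K {y : A | ∃ g ∈ N, ∃ s ∈ ({a} : Finset A), y = g • s}
    with hV0def
  have hV0st : St N V0 := c2b_span_st hS.semi N {a}
  have haV0 : a ∈ V0 := Submodule.subset_span ⟨1, N.one_mem, a, by simp, (one_smul G a).symm⟩
  have hV0ne : V0 ≠ ⊥ := by
    intro h
    rw [h, Submodule.mem_bot] at haV0
    exact ha0 haV0
  have hV0t : V0 ≤ t := by
    refine Submodule.span_le.2 ?_
    rintro y ⟨g, _, s, hs, rfl⟩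
    rw [Finset.mem_singleton] at hs
    subst hs
    exact htst g trivial _ ((ht _).2 ha)
  have hNV0 : NoethFor (N : Set G) V0 := hall_sub ρ hQ hS.semi hS.scal N {a}
  obtain ⟨V, U, f, hVle, hVst, hf, hU, hCrit⟩ := crit_exists N V0 hV0ne hV0st hNV0
  have hUt : ∀ w ∈ U, Tors (K := K) ρ ε w := by
    intro w hw
    obtain ⟨x, rfl⟩ := (hU w).1 hw
    exact tors_map ρ ε V hVst f hf x ((ht _).1 (hV0t (hVle x.2)))
  obtain ⟨L, hL, hNL⟩ := stab_group hS.semi N hNn hCrit
  have hidx := stab_infinite ρ hρ hQ ε hP hS.semi hS.scal U hCrit hUt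
    (fun W _ hW hWf => hno W hW hWf) L hL
  obtain ⟨m, hm, hHL⟩ := hl_index hn (L.map ρ) hidx
  have hMain : MainFor (L.map ρ) := IH (L.map ρ) (pc_sub hQ _) m hm hHL
  obtain ⟨hMst, hind⟩ := ms_indep hS.semi N hNn (fun _ => True) (fun _ _ _ => trivial) hCrit L hL
  set M : Submodule K A := MS N (fun _ => True) U with hMdef
  have hUM : U ≤ M := by
    have h1 := (crit_sub N hCrit le_rfl hCrit.1 hCrit.2.1).2.1
    exact le_sSup ⟨trivial, hCrit, h1⟩
  have hA : NoethFor (Set.univ : Set G) (⊤ : Submodule K A) := by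
    obtain ⟨S, hSS⟩ := hS.fg
    have h1 := hall_sub (K := K) ρ hQ hS.semi hS.scal (⊤ : Subgroup G) S
    have h2 : {y : A | ∃ g ∈ (⊤ : Subgroup G), ∃ s ∈ S, y = g • s} =
        {x : A | ∃ g : G, ∃ s ∈ S, x = g • s} := by
      ext y; simp
    rw [h2, hSS] at h1
    simpa using h1
  have hNM := ms_noeth hS.semi L M hMst hind hA
  obtain ⟨S, hSM⟩ := acc_fg hS.semi L M hNM M le_rfl hMst
  have hT : TOn L M := ton_sub hS.semi L M hMst S hSM (ρ.subgroupMap L) (by
    intro g hg
    have h1 : ρ (g : G) = 1 := congrArg Subtype.val hg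
    obtain ⟨c, hc⟩ := hS.scal g h1
    exact ⟨c, fun a _ => hc a⟩) hMain
  have hTB := induced ρ hQ hS.semi L (fun g hg => hNL (by
    show ρ g ∈ ε.range
    rw [hg]; exact ε.range.one_mem)) M hMst hind hT
  refine ⟨_, ?_, c2b_st hS.semi L M hMst, hTB⟩
  intro hbot
  have h1 : (gm (1 : G) M : Submodule K A) ≤ ⊥ := by
    rw [← hbot]; exact c2b_gm_le hS.semi L M hMst 1
  rw [(gm_basic hS.semi M M 1 1).1] at h1
  exact hCrit.1 (le_bot_iff.1 (hUM.trans h1))

end Pool.Agent.Helper933.HC
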