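import Pool.Agent.Helper933.HC.Defs

set_option autoImplicit false

namespace Pool.Agent.Helper933.HC
open Module


theorem cnt_anti {Q : Type} [Group Q] (n : ℕ) (K : ℕ → Subgroup Q)
    (hK : ∀ i < n, K (i + 1) ≤ K i) (i j : ℕ) (hij : i ≤ j) (hjn : j ≤ n) : K j ≤ K i := by
  induction j, hij using Nat.le_induction with
  | base => exact le_rfl
  | succ j hij ih => exact (hK j (by omega)).trans (ih (by omega))

theorem cnt_inf {Q : Type} [Group Q] {h : ℕ} (hl : HL Q h) (n : ℕ) (K : ℕ → Subgroup Q)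
    (hK : ∀ i < n, K (i + 1) ≤ K i) (I : Finset ℕ)
    (hI : ∀ i ∈ I, i < n ∧ (K (i + 1)).relIndex (K i) = 0) : I.card ≤ h := by
  classical
  have hmono : Monotone (fun j => K (n - j)) := by
    intro a b hab
    exact cnt_anti n K hK (n - b) (n - a) (by omega) (by omega)
  have h1 := hl (fun j => K (n - j)) hmono (I.image (fun i => n - 1 - i)) (by
    intro j hj
    obtain ⟨i, hi, rfl⟩ := Finset.mem_image.mp hj
    obtain ⟨hin, h0⟩ := hI i hi
    have e1 : n - (n - 1 - i) = i + 1 := by omega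
    have e2 : n - (n - 1 - i + 1) = i := by omega
    simp only [e1, e2]
    exact h0)
  rwa [Finset.card_image_of_injOn] at h1
  intro a ha b hb hab
  have := (hI a ha).1
  have := (hI b hb).1
  simp only at hab
  omega

theorem cnt_two {Q : Type} [Group Q] {H L : Subgroup Q} (hle : H ≤ L) (hne : H ≠ L)
    (h0 : H.relIndex L ≠ 0) : 2 ≤ H.relIndex L := by
  have h1 : H.relIndex L ≠ 1 := by
    intro h
    rw [Subgroup.relIndex_eq_one] at h
    exact hne (le_antisymm hle h)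
  omega

theorem cnt_step {Q : Type} [Group Q] {N e : ℕ}
    (hN : ∀ Y X : Subgroup Q, Y ≤ X → (∀ x ∈ X, x ^ e ∈ Y) →
      Y.relIndex X ≠ 0 ∧ Y.relIndex X ≤ N)
    (n : ℕ) (K : ℕ → Subgroup Q) (hK : ∀ i < n, K (i + 1) ≤ K i) (B : Finset ℕ)
    (hB : ∀ i j, i ≤ j → j ≤ n → (∀ b ∈ B, ¬ (i ≤ b ∧ b < j)) → (K j).relIndex (K i) ≠ 0 →
      ∀ x ∈ K i, x ^ e ∈ K j) (m : ℕ) (hm : m ≤ n) :
    ∃ s ≤ m, (∀ b ∈ B, ¬ (s ≤ b ∧ b < m)) ∧ (K m).relIndex (K s) ≠ 0 ∧ ∃ c : ℕ,
      2 ^ c ≤ (K m).relIndex (K s) ∧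
      {i : ℕ | i < m ∧ i ∉ B ∧ K (i + 1) ≠ K i}.ncard ≤
        {i : ℕ | i < m ∧ (i ∈ B ∨ (K (i + 1)).relIndex (K i) = 0)}.ncard * (N + 1) + c := by
  induction m with
  | zero =>
    refine ⟨0, le_rfl, fun b _ h => by omega, ?_, 0, ?_, ?_⟩
    · simp
    · simp
    · simp
  | succ m ih =>
    obtain ⟨s, hs, hsB, h0, c, hc, hcard⟩ := ih (by omega)
    have hcN : c ≤ N := by
      have h1 := hB s m hs (by omega) hsB h0
      have h2 := (hN (K m) (K s) (cnt_anti n K hK s m hs (by omega)) h1).2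
      have h3 : c < 2 ^ c := Nat.lt_two_pow_self
      omega
    have hfinJ : {i : ℕ | i < m ∧ i ∉ B ∧ K (i + 1) ≠ K i}.Finite :=
      (Set.finite_lt_nat m).subset (fun i hi => hi.1)
    have hfinI : {i : ℕ | i < m ∧ (i ∈ B ∨ (K (i + 1)).relIndex (K i) = 0)}.Finite :=
      (Set.finite_lt_nat m).subset (fun i hi => hi.1)
    have hJsub : {i : ℕ | i < m + 1 ∧ i ∉ B ∧ K (i + 1) ≠ K i} ⊆
        insert m {i : ℕ | i < m ∧ i ∉ B ∧ K (i + 1) ≠ K i} := by
      intro i hi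
      rcases Nat.lt_succ_iff_lt_or_eq.mp hi.1 with h | h
      · exact Or.inr ⟨h, hi.2⟩
      · exact Or.inl h
    have hJ1 : {i : ℕ | i < m + 1 ∧ i ∉ B ∧ K (i + 1) ≠ K i}.ncard ≤
        {i : ℕ | i < m ∧ i ∉ B ∧ K (i + 1) ≠ K i}.ncard + 1 :=
      (Set.ncard_le_ncard hJsub (hfinJ.insert m)).trans (Set.ncard_insert_le _ _)
    have hIsub : {i : ℕ | i < m ∧ (i ∈ B ∨ (K (i + 1)).relIndex (K i) = 0)} ⊆
        {i : ℕ | i < m + 1 ∧ (i ∈ B ∨ (K (i + 1)).relIndex (K i) = 0)} :=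
      fun i hi => ⟨Nat.lt_succ_of_lt hi.1, hi.2⟩
    have hfinI' : {i : ℕ | i < m + 1 ∧ (i ∈ B ∨ (K (i + 1)).relIndex (K i) = 0)}.Finite :=
      (Set.finite_lt_nat (m+1)).subset (fun i hi => hi.1)
    by_cases hbr : m ∈ B ∨ (K (m + 1)).relIndex (K m) = 0
    · refine ⟨m + 1, le_rfl, fun b _ h => by omega, ?_, 0, ?_, ?_⟩
      · simp
      · simp
      · have hI1 : {i : ℕ | i < m ∧ (i ∈ B ∨ (K (i + 1)).relIndex (K i) = 0)}.ncard + 1 ≤
            {i : ℕ | i < m + 1 ∧ (i ∈ B ∨ (K (i + 1)).relIndex (K i) = 0)}.ncard := by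
          rw [← Set.ncard_insert_of_notMem (a := m) _ hfinI]
          · apply Set.ncard_le_ncard _ hfinI'
            intro i hi
            rcases hi with h | h
            · subst h; exact ⟨Nat.lt_succ_self _, hbr⟩
            · exact hIsub h
          · intro h; exact absurd h.1 (lt_irrefl _)
        have h5 := Nat.mul_le_mul_right (N + 1) hI1
        have h6 : ({i : ℕ | i < m ∧ (i ∈ B ∨ (K (i + 1)).relIndex (K i) = 0)}.ncard + 1) * (N + 1)
          = {i : ℕ | i < m ∧ (i ∈ B ∨ (K (i + 1)).relIndex (K i) = 0)}.ncard * (N + 1) + (N + 1) := by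
          ring
        omega
    · push Not at hbr
      obtain ⟨hmB, hm0⟩ := hbr
      have hmul : (K (m + 1)).relIndex (K m) * (K m).relIndex (K s) = (K (m + 1)).relIndex (K s) :=
        Subgroup.relIndex_mul_relIndex _ _ _ (hK m (by omega))
          (cnt_anti n K hK s m hs (by omega))
      have hI1 : {i : ℕ | i < m ∧ (i ∈ B ∨ (K (i + 1)).relIndex (K i) = 0)}.ncard ≤
            {i : ℕ | i < m + 1 ∧ (i ∈ B ∨ (K (i + 1)).relIndex (K i) = 0)}.ncard :=
          Set.ncard_le_ncard hIsub hfinI'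
      have h5 := Nat.mul_le_mul_right (N + 1) hI1
      have hsB' : ∀ b ∈ B, ¬ (s ≤ b ∧ b < m + 1) := by
        intro b hb h
        rcases Nat.lt_succ_iff_lt_or_eq.mp h.2 with h' | h'
        · exact hsB b hb ⟨h.1, h'⟩
        · exact hmB (h' ▸ hb)
      by_cases heq : K (m + 1) = K m
      · refine ⟨s, by omega, hsB', ?_, c, ?_, ?_⟩
        · rw [← hmul]; exact Nat.mul_ne_zero hm0 h0
        · rw [heq]; exact hc
        · have : {i : ℕ | i < m + 1 ∧ i ∉ B ∧ K (i + 1) ≠ K i} ⊆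
              {i : ℕ | i < m ∧ i ∉ B ∧ K (i + 1) ≠ K i} := by
            intro i hi
            rcases Nat.lt_succ_iff_lt_or_eq.mp hi.1 with h | h
            · exact ⟨h, hi.2⟩
            · subst h; exact absurd heq hi.2.2
          have := Set.ncard_le_ncard this hfinJ
          omega
      · refine ⟨s, by omega, hsB', ?_, c + 1, ?_, ?_⟩
        · rw [← hmul]; exact Nat.mul_ne_zero hm0 h0
        · rw [← hmul, pow_succ, mul_comm]
          exact Nat.mul_le_mul (cnt_two (hK m (by omega)) heq hm0) hc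
        · omega

/-- counting the jumps of a decreasing chain with breaks `B`. -/
theorem cnt {Q : Type} [Group Q] {h N e : ℕ} (hl : HL Q h)
    (hN : ∀ Y X : Subgroup Q, Y ≤ X → (∀ x ∈ X, x ^ e ∈ Y) →
      Y.relIndex X ≠ 0 ∧ Y.relIndex X ≤ N)
    (n : ℕ) (K : ℕ → Subgroup Q) (hK : ∀ i < n, K (i + 1) ≤ K i) (B : Finset ℕ)
    (hB : ∀ i j, i ≤ j → j ≤ n → (∀ b ∈ B, ¬ (i ≤ b ∧ b < j)) → (K j).relIndex (K i) ≠ 0 →
      ∀ x ∈ K i, x ^ e ∈ K j) :
    {i : ℕ | i < n ∧ i ∉ B ∧ K (i + 1) ≠ K i}.ncard ≤ (B.card + h + 1) * (N + 1) := by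
  classical
  obtain ⟨s, hs, hsB, h0, c, hc, hcard⟩ := cnt_step hN n K hK B hB n le_rfl
  have hcN : c ≤ N := by
    have h1 := hB s n hs le_rfl hsB h0
    have h2 := (hN (K n) (K s) (cnt_anti n K hK s n hs le_rfl) h1).2
    have h3 : c < 2 ^ c := Nat.lt_two_pow_self
    omega
  set I : Finset ℕ := (Finset.range n).filter (fun i => (K (i + 1)).relIndex (K i) = 0) with hI
  have hIc : I.card ≤ h := cnt_inf hl n K hK I (by
    intro i hi
    rw [hI, Finset.mem_filter, Finset.mem_range] at hi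
    exact hi)
  have hsub : {i : ℕ | i < n ∧ (i ∈ B ∨ (K (i + 1)).relIndex (K i) = 0)} ⊆ ↑(B ∪ I) := by
    intro i hi
    rw [Finset.coe_union]
    rcases hi.2 with h | h
    · exact Or.inl h
    · right
      rw [hI, Finset.coe_filter]
      exact ⟨Finset.mem_range.mpr hi.1, h⟩
  have h1 : {i : ℕ | i < n ∧ (i ∈ B ∨ (K (i + 1)).relIndex (K i) = 0)}.ncard ≤ B.card + h := by
    refine (Set.ncard_le_ncard hsub (Finset.finite_toSet _)).trans ?_
    rw [Set.ncard_coe_finset]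
    exact (Finset.card_union_le _ _).trans (by omega)
  have h2 := Nat.mul_le_mul_right (N + 1) h1
  have h3 : (B.card + h + 1) * (N + 1) = (B.card + h) * (N + 1) + (N + 1) := by ring
  omega

end Pool.Agent.Helper933.HC
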