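import Pool.Agent.Helper933.HC.Defs
import Pool.Agent.Helper933.HC.P_desc_lift

set_option autoImplicit false

namespace Pool.Agent.Helper933.HC
open Module


theorem desc_comp {K K₁ K' : Type} [DivisionRing K] [DivisionRing K₁] [DivisionRing K']
    {ι₁ : K →+* K₁} {ι₂ : K₁ →+* K'} {ι : K →+* K'} (hι : ∀ k, ι₂ (ι₁ k) = ι k)
    {τ : K ≃+* K} {σ₁ : K₁ ≃+* K₁} {σ : K' ≃+* K'} (h1 : ∀ k, σ₁ (ι₁ k) = ι₁ (τ k))
    (h2 : ∀ κ, σ (ι₂ κ) = ι₂ (σ₁ κ)) {l₁ l₂ d : ℕ} (hD1 : Desc ι₁ σ₁ l₁ d)
    (hD2 : Desc ι₂ σ l₂ d) : Desc ι σ (l₂ * l₁) d := by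
  intro X iX iK' iK hk hf hfr u hu W hWf hWs
  letI iK1 : Module K₁ X := Module.compHom X ι₂
  have hs1 : ∀ (κ : K₁) (ξ : X), κ • ξ = ι₂ κ • ξ := fun κ ξ => rfl
  have hk1 : ∀ (k : K) (ξ : X), k • ξ = ι₁ k • ξ := fun k ξ => by
    rw [hs1, hι, hk]
  have hu1 : ∀ (κ : K₁) (ξ : X), u (κ • ξ) = σ₁ κ • u ξ := fun κ ξ => by
    rw [hs1, hu, h2, hs1]
  have hu1s : ∀ (κ : K₁) (ξ : X), u.symm (κ • ξ) = σ₁.symm κ • u.symm ξ := fun κ ξ => by
    apply u.injective
    rw [hu1, AddEquiv.apply_symm_apply, AddEquiv.apply_symm_apply, RingEquiv.apply_symm_apply]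
  set W1 : Submodule K₁ X := Submodule.span K₁ (W : Set X) with hW1
  have hWW1 : ∀ ξ ∈ W, ξ ∈ W1 := fun ξ hξ => Submodule.subset_span hξ
  have hW1f : FiniteDimensional K₁ W1 := by
    have hfg : W.FG := (Submodule.fg_iff_finiteDimensional W).mpr hWf
    obtain ⟨S, hS⟩ := hfg
    rw [← Submodule.fg_iff_finiteDimensional]
    refine ⟨S, ?_⟩
    apply le_antisymm
    · apply Submodule.span_mono
      intro x hx
      rw [← hS]
      exact Submodule.subset_span hx
    · rw [hW1, Submodule.span_le]
      intro x hx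
      have hx' : x ∈ Submodule.span K (S : Set X) := by rw [hS]; exact hx
      induction hx' using Submodule.span_induction with
      | mem x h => exact Submodule.subset_span h
      | zero => exact Submodule.zero_mem _
      | add x y hx1 hy1 hx2 hy2 =>
        exact Submodule.add_mem _ (hx2 (by rw [← hS]; exact hx1)) (hy2 (by rw [← hS]; exact hy1))
      | smul k x hx1 hx2 =>
        rw [hk1]
        exact Submodule.smul_mem _ _ (hx2 (by rw [← hS]; exact hx1))
  have hW1s : Stable u W1 := by
    intro x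
    constructor
    · intro hx
      have key : ∀ y ∈ W1, u.symm y ∈ W1 := by
        intro y hy
        induction hy using Submodule.span_induction with
        | mem y h =>
          apply Submodule.subset_span
          have := hWs (u.symm y)
          rw [AddEquiv.apply_symm_apply] at this
          exact this.mp h
        | zero => rw [map_zero]; exact Submodule.zero_mem _
        | add a b _ _ ha hb => rw [map_add]; exact Submodule.add_mem _ ha hb
        | smul k a _ ha => rw [hu1s]; exact Submodule.smul_mem _ _ ha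
      have := key _ hx
      rwa [AddEquiv.symm_apply_apply] at this
    · intro hy
      induction hy using Submodule.span_induction with
      | mem y h => exact Submodule.subset_span ((hWs y).mpr h)
      | zero => rw [map_zero]; exact Submodule.zero_mem _
      | add a b _ _ ha hb => rw [map_add]; exact Submodule.add_mem _ ha hb
      | smul k a _ ha => rw [hu1]; exact Submodule.smul_mem _ _ ha
  have hb : Bdd u l₂ d W1 := hD2 X hs1 hf hfr u hu W1 hW1f hW1s
  exact desc_lift h1 hD1 X hk1 u hu1 W1 hW1f hW1s l₂ hb W hWf hWs hWW1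

end Pool.Agent.Helper933.HC
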