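import Pool.Agent.Helper933.HC.Defs
import Pool.Agent.Helper933.HC.P_iso_exp

set_option autoImplicit false

namespace Pool.Agent.Helper933.HC
open Module


theorem erem_pc_prod {Q : Type} [Group Q] (h : PC Q) : PC (Q × Q) := by
  classical
  have hs : Group.IsSolvable Q := h.1
  have hsol : Group.IsSolvable (Q × Q) := inferInstance
  refine ⟨hsol, fun K => ?_⟩
  obtain ⟨S, hS⟩ := h.2 (K.map (MonoidHom.snd Q Q))
  obtain ⟨T, hT⟩ := h.2 (K.comap (MonoidHom.inl Q Q))
  have hch : ∀ s : Q, ∃ k : Q × Q, s ∈ S → k ∈ K ∧ k.2 = s := by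
    intro s
    by_cases hs : s ∈ S
    · have h1 : s ∈ K.map (MonoidHom.snd Q Q) := by
        rw [← hS]
        exact Subgroup.subset_closure hs
      obtain ⟨k, hk, hks⟩ := h1
      exact ⟨k, fun _ => ⟨hk, hks⟩⟩
    · exact ⟨1, fun h => absurd h hs⟩
  choose k hk using hch
  refine ⟨S.image k ∪ T.image (fun t => (t, 1)), ?_⟩
  apply le_antisymm
  · rw [Subgroup.closure_le]
    intro x hx
    rw [Finset.coe_union, Finset.coe_image, Finset.coe_image] at hx
    rcases hx with ⟨s, hs, rfl⟩ | ⟨t, ht, rfl⟩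
    · exact (hk s hs).1
    · have h1 : t ∈ K.comap (MonoidHom.inl Q Q) := by
        rw [← hT]
        exact Subgroup.subset_closure ht
      exact h1
  · obtain ⟨K', hK'⟩ : ∃ K' : Subgroup (Q × Q), K' = Subgroup.closure
        ((S.image k ∪ T.image (fun t => (t, (1 : Q))) : Finset (Q × Q)) : Set (Q × Q)) := ⟨_, rfl⟩
    rw [← hK']
    have hA : K.map (MonoidHom.snd Q Q) ≤ K'.map (MonoidHom.snd Q Q) := by
      rw [← hS, Subgroup.closure_le]
      intro s hs
      refine ⟨k s, ?_, (hk s hs).2⟩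
      rw [hK']
      apply Subgroup.subset_closure
      rw [Finset.coe_union, Finset.coe_image]
      exact Or.inl ⟨s, hs, rfl⟩
    have hB : K.comap (MonoidHom.inl Q Q) ≤ K'.comap (MonoidHom.inl Q Q) := by
      rw [← hT, Subgroup.closure_le]
      intro t ht
      change (t, (1 : Q)) ∈ K'
      rw [hK']
      apply Subgroup.subset_closure
      rw [Finset.coe_union, Finset.coe_image (f := fun t => (t, (1 : Q)))]
      exact Or.inr ⟨t, ht, rfl⟩
    have hle : K' ≤ K := by
      rw [hK', Subgroup.closure_le]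
      intro x hx
      rw [Finset.coe_union, Finset.coe_image, Finset.coe_image] at hx
      rcases hx with ⟨s, hs, rfl⟩ | ⟨t, ht, rfl⟩
      · exact (hk s hs).1
      · have h1 : t ∈ K.comap (MonoidHom.inl Q Q) := by
          rw [← hT]
          exact Subgroup.subset_closure ht
        exact h1
    intro x hx
    obtain ⟨y, hy, hyx⟩ := hA ⟨x, hx, rfl⟩
    change y.2 = x.2 at hyx
    have h2 : (x.1 * y.1⁻¹, (1 : Q)) ∈ K := by
      have h3 := K.mul_mem hx (K.inv_mem (hle hy))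
      have h4 : x * y⁻¹ = (x.1 * y.1⁻¹, (1 : Q)) := by
        ext
        · rfl
        · change x.2 * y.2⁻¹ = 1
          rw [hyx, mul_inv_cancel]
      rwa [h4] at h3
    have h5 : (x.1 * y.1⁻¹, (1 : Q)) ∈ K' := hB h2
    have h6 := K'.mul_mem h5 hy
    have h7 : (x.1 * y.1⁻¹, (1 : Q)) * y = x := by
      ext
      · change x.1 * y.1⁻¹ * y.1 = x.1
        rw [inv_mul_cancel_right]
      · change 1 * y.2 = x.2
        rw [one_mul, hyx]
    rwa [h7] at h6

/-- polycyclic groups are eremitic. -/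
theorem erem_pc {Q : Type} [Group Q] (h : PC Q) :
    ∃ e : ℕ, 0 < e ∧ ∀ (x g : Q) (n : ℕ), 0 < n → x ^ n * g = g * x ^ n →
      x ^ e * g = g * x ^ e := by
  obtain ⟨e, he, H⟩ := iso_exp (erem_pc_prod h)
    ((MonoidHom.id Q).prod (MonoidHom.id Q)).range
  refine ⟨e, he, ?_⟩
  intro x g n hn hx
  have hpow : ∀ m : ℕ, ((x, g * x * g⁻¹) : Q × Q) ^ m = (x ^ m, g * x ^ m * g⁻¹) := by
    intro m
    rw [Prod.pow_mk, conj_pow]
  have h1 := H (x, g * x * g⁻¹) ⟨n, hn, ?_⟩
  · rw [hpow] at h1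
    obtain ⟨y, hy⟩ := h1
    have h2 : y = x ^ e := congrArg Prod.fst hy
    have h3 : y = g * x ^ e * g⁻¹ := congrArg Prod.snd hy
    rw [h2] at h3
    calc x ^ e * g = g * x ^ e * g⁻¹ * g := by rw [← h3]
      _ = g * x ^ e := by rw [inv_mul_cancel_right]
  · rw [hpow]
    refine ⟨x ^ n, ?_⟩
    change (x ^ n, x ^ n) = _
    rw [← hx, mul_inv_cancel_right]

end Pool.Agent.Helper933.HC
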