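import Pool.Agent.Helper933.HC.Defs

set_option autoImplicit false

namespace Pool.Agent.Helper933.HC
open Module


theorem hbz_conj {G : Type} [Group G] (T : Set G) (x : G) (hx : ∀ t, t ∈ T ↔ x * t * x⁻¹ ∈ T)
    (j : ℕ) (t : G) : (t ∈ T ↔ x ^ j * t * (x ^ j)⁻¹ ∈ T) := by
  induction j generalizing t with
  | zero => simp
  | succ j ih =>
    rw [ih t, hx (x ^ j * t * (x ^ j)⁻¹)]
    have : x * (x ^ j * t * (x ^ j)⁻¹) * x⁻¹ = x ^ (j + 1) * t * (x ^ (j + 1))⁻¹ := by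
      rw [pow_succ']; group
    rw [this]

theorem hbz_conj' {G : Type} [Group G] (T : Set G) (x : G) (hx : ∀ t, t ∈ T ↔ x * t * x⁻¹ ∈ T)
    (j : ℕ) (t : G) (ht : t ∈ T) : (x ^ j)⁻¹ * t * x ^ j ∈ T := by
  rw [hbz_conj T x hx j]
  have : x ^ j * ((x ^ j)⁻¹ * t * x ^ j) * (x ^ j)⁻¹ = t := by group
  rwa [this]

theorem hbz_span {G A : Type} [Group G] [AddCommGroup A]
    [DistribMulAction G A] (g : G) (S : Set A)
    (N : AddSubgroup A) (h : ∀ y ∈ S, g • y ∈ N) (y : A) (hy : y ∈ AddSubgroup.closure S) :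
    g • y ∈ N := by
  induction hy using AddSubgroup.closure_induction with
  | mem y hy => exact h y hy
  | zero => rw [smul_zero]; exact N.zero_mem
  | add a b _ _ ha hb => rw [smul_add]; exact N.add_mem ha hb
  | neg a _ ha => rw [smul_neg]; exact N.neg_mem ha

/-- the filtration -/
def hbzM {G A : Type} [Group G] [AddCommGroup A]
    [DistribMulAction G A] (x : G) (M₀ : AddSubgroup A) (i : ℕ) : AddSubgroup A :=
  AddSubgroup.closure {y : A | ∃ j, j < i ∧ ∃ m ∈ M₀, y = x ^ j • m}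

theorem hbzM_mono {G A : Type} [Group G] [AddCommGroup A]
    [DistribMulAction G A] (x : G) (M₀ : AddSubgroup A) {i i' : ℕ} (h : i ≤ i') :
    hbzM x M₀ i ≤ hbzM x M₀ i' := by
  apply AddSubgroup.closure_mono
  rintro y ⟨j, hj, m, hm, rfl⟩
  exact ⟨j, lt_of_lt_of_le hj h, m, hm, rfl⟩

theorem hbzM_succ {G A : Type} [Group G] [AddCommGroup A]
    [DistribMulAction G A] (x : G) (M₀ : AddSubgroup A)
    (i : ℕ) (y : A) (hy : y ∈ hbzM x M₀ (i + 1)) :
    ∃ u ∈ hbzM x M₀ i, ∃ m ∈ M₀, y = u + x ^ i • m := by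
  unfold hbzM at hy
  induction hy using AddSubgroup.closure_induction with
  | mem y hy =>
    obtain ⟨j, hj, m, hm, rfl⟩ := hy
    rcases Nat.lt_succ_iff_lt_or_eq.1 hj with h | h
    · exact ⟨x ^ j • m, AddSubgroup.subset_closure ⟨j, h, m, hm, rfl⟩, 0, M₀.zero_mem, by simp⟩
    · subst h
      exact ⟨0, AddSubgroup.zero_mem _, m, hm, by simp⟩
  | zero => exact ⟨0, AddSubgroup.zero_mem _, 0, M₀.zero_mem, by simp⟩
  | add a b _ _ ha hb =>
    obtain ⟨u, hu, m, hm, rfl⟩ := ha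
    obtain ⟨u', hu', m', hm', rfl⟩ := hb
    refine ⟨u + u', AddSubgroup.add_mem _ hu hu', m + m', M₀.add_mem hm hm', ?_⟩
    rw [smul_add]; abel
  | neg a _ ha =>
    obtain ⟨u, hu, m, hm, rfl⟩ := ha
    refine ⟨-u, AddSubgroup.neg_mem _ hu, -m, M₀.neg_mem hm, ?_⟩
    rw [smul_neg]; abel

theorem hbzM_T {G A : Type} [Group G] [AddCommGroup A]
    [DistribMulAction G A] (T : Set G) (x : G)
    (hx : ∀ t, t ∈ T ↔ x * t * x⁻¹ ∈ T) (M₀ : AddSubgroup A)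
    (hM₀ : ∀ g ∈ T, ∀ m ∈ M₀, g • m ∈ M₀) (i : ℕ) (g : G) (hg : g ∈ T) (y : A)
    (hy : y ∈ hbzM x M₀ i) : g • y ∈ hbzM x M₀ i := by
  refine hbz_span g _ _ ?_ y hy
  rintro _ ⟨j, hj, m, hm, rfl⟩
  apply AddSubgroup.subset_closure
  refine ⟨j, hj, ((x ^ j)⁻¹ * g * x ^ j) • m, hM₀ _ (hbz_conj' T x hx j g hg) m hm, ?_⟩
  rw [smul_smul, smul_smul]
  congr 1
  group

theorem hbzM_x {G A : Type} [Group G] [AddCommGroup A]
    [DistribMulAction G A] (x : G)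
    (M₀ : AddSubgroup A) (i : ℕ) (y : A)
    (hy : y ∈ hbzM x M₀ i) : x • y ∈ hbzM x M₀ (i + 1) := by
  refine hbz_span x _ _ ?_ y hy
  rintro _ ⟨j, hj, m, hm, rfl⟩
  apply AddSubgroup.subset_closure
  exact ⟨j + 1, by omega, m, hm, by rw [smul_smul, pow_succ']⟩

/-- the leading coefficients -/
def hbzL {G A : Type} [Group G] [AddCommGroup A]
    [DistribMulAction G A] (x : G)
    (M₀ : AddSubgroup A) (i : ℕ) (V : AddSubgroup A) : AddSubgroup A where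
  carrier := {m | m ∈ M₀ ∧ ∃ v ∈ V, v - x ^ i • m ∈ hbzM x M₀ i}
  zero_mem' := ⟨M₀.zero_mem, 0, V.zero_mem, by
    rw [smul_zero, sub_zero]; exact AddSubgroup.zero_mem _⟩
  add_mem' := by
    rintro a b ⟨ha, v, hv, h⟩ ⟨hb, v', hv', h'⟩
    refine ⟨M₀.add_mem ha hb, v + v', V.add_mem hv hv', ?_⟩
    have e : v + v' - x ^ i • (a + b) = (v - x ^ i • a) + (v' - x ^ i • b) := by
      rw [smul_add]; abel
    rw [e]
    exact AddSubgroup.add_mem _ h h'
  neg_mem' := by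
    rintro a ⟨ha, v, hv, h⟩
    refine ⟨M₀.neg_mem ha, -v, V.neg_mem hv, ?_⟩
    have e : -v - x ^ i • (-a) = -(v - x ^ i • a) := by
      rw [smul_neg]; abel
    rw [e]
    exact AddSubgroup.neg_mem _ h

theorem hbzL_mono {G A : Type} [Group G] [AddCommGroup A]
    [DistribMulAction G A] (x : G)
    (M₀ : AddSubgroup A) (i : ℕ) {V V' : AddSubgroup A} (h : V ≤ V') :
    hbzL x M₀ i V ≤ hbzL x M₀ i V' := by
  rintro m ⟨hm, v, hv, hd⟩
  exact ⟨hm, v, h hv, hd⟩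

theorem hbzL_succ {G A : Type} [Group G] [AddCommGroup A]
    [DistribMulAction G A] (x : G)
    (M₀ : AddSubgroup A) (V : AddSubgroup A) (hV : ∀ v ∈ V, x • v ∈ V) {i i' : ℕ} (h : i ≤ i') :
    hbzL x M₀ i V ≤ hbzL x M₀ i' V := by
  induction h with
  | refl => exact le_rfl
  | step _ ih =>
    refine ih.trans ?_
    rintro m ⟨hm, v, hv, hd⟩
    refine ⟨hm, x • v, hV v hv, ?_⟩
    have := hbzM_x x M₀ _ _ hd
    rwa [smul_sub, smul_smul, ← pow_succ'] at this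

theorem hbzL_T {G A : Type} [Group G] [AddCommGroup A]
    [DistribMulAction G A] (T : Set G) (x : G)
    (hx : ∀ t, t ∈ T ↔ x * t * x⁻¹ ∈ T) (M₀ : AddSubgroup A)
    (hM₀ : ∀ g ∈ T, ∀ m ∈ M₀, g • m ∈ M₀) (i : ℕ) (V : AddSubgroup A)
    (hV : ∀ g ∈ T, ∀ v ∈ V, g • v ∈ V) (t : G) (ht : t ∈ T) (m : A)
    (hm : m ∈ hbzL x M₀ i V) : t • m ∈ hbzL x M₀ i V := by
  obtain ⟨hm, v, hv, hd⟩ := hm
  have hg : x ^ i * t * (x ^ i)⁻¹ ∈ T := (hbz_conj T x hx i t).1 ht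
  refine ⟨hM₀ t ht m hm, (x ^ i * t * (x ^ i)⁻¹) • v, hV _ hg v hv, ?_⟩
  have h1 := hbzM_T T x hx M₀ hM₀ i _ hg _ hd
  rw [smul_sub, smul_smul] at h1
  have h2 : x ^ i * t * (x ^ i)⁻¹ * x ^ i = x ^ i * t := by group
  rw [h2] at h1
  rwa [smul_smul]

theorem hbz_eq {G A : Type} [Group G] [AddCommGroup A]
    [DistribMulAction G A] (x : G)
    (M₀ : AddSubgroup A) (V V' : AddSubgroup A) (hle : V ≤ V')
    (hV' : V' ≤ AddSubgroup.closure {y : A | ∃ i : ℕ, ∃ m ∈ M₀, y = x ^ i • m})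
    (h : ∀ i, hbzL x M₀ i V' ≤ hbzL x M₀ i V) : V' = V := by
  have key : ∀ i : ℕ, ∀ v' ∈ V', v' ∈ hbzM x M₀ i → v' ∈ V := by
    intro i
    induction i with
    | zero =>
      intro v' _ h0
      have h1 : hbzM x M₀ 0 = ⊥ := by
        unfold hbzM
        rw [eq_bot_iff, AddSubgroup.closure_le]
        rintro y ⟨j, hj, _⟩
        omega
      rw [h1, AddSubgroup.mem_bot] at h0
      rw [h0]; exact V.zero_mem
    | succ i ih =>
      intro v' hv' hi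
      obtain ⟨u, hu, m, hm, rfl⟩ := hbzM_succ x M₀ i v' hi
      have hmL : m ∈ hbzL x M₀ i V' := ⟨hm, _, hv', by
        rw [add_sub_cancel_right]; exact hu⟩
      obtain ⟨_, v, hv, hd⟩ := h i hmL
      have h1 : (u + x ^ i • m) - v ∈ V := by
        apply ih
        · exact AddSubgroup.sub_mem _ hv' (hle hv)
        · have e : (u + x ^ i • m) - v = u - (v - x ^ i • m) := by abel
          rw [e]
          exact AddSubgroup.sub_mem _ hu hd
      have h2 := V.add_mem h1 hv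
      rwa [sub_add_cancel] at h2
  have hex : ∀ y ∈ AddSubgroup.closure {y : A | ∃ i : ℕ, ∃ m ∈ M₀, y = x ^ i • m},
      ∃ i, y ∈ hbzM x M₀ i := by
    intro y hy
    induction hy using AddSubgroup.closure_induction with
    | mem y hy =>
      obtain ⟨i, m, hm, rfl⟩ := hy
      exact ⟨i + 1, AddSubgroup.subset_closure ⟨i, by omega, m, hm, rfl⟩⟩
    | zero => exact ⟨0, AddSubgroup.zero_mem _⟩
    | add a b _ _ ha hb =>
      obtain ⟨i, hi⟩ := ha
      obtain ⟨j, hj⟩ := hb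
      exact ⟨max i j, AddSubgroup.add_mem _ (hbzM_mono x M₀ (le_max_left i j) hi)
        (hbzM_mono x M₀ (le_max_right i j) hj)⟩
    | neg a _ ha =>
      obtain ⟨i, hi⟩ := ha
      exact ⟨i, AddSubgroup.neg_mem _ hi⟩
  apply le_antisymm _ hle
  intro v' hv'
  obtain ⟨i, hi⟩ := hex v' (hV' hv')
  exact key i v' hv' hi

/-- Hilbert basis theorem, one-sided operator form, for abelian groups. -/
theorem hbz_step {G A : Type} [Group G] [AddCommGroup A] [DistribMulAction G A] (T : Set G)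
    (x : G) (hx : ∀ t, t ∈ T ↔ x * t * x⁻¹ ∈ T) (M₀ : AddSubgroup A)
    (hM₀ : ∀ g ∈ T, ∀ m ∈ M₀, g • m ∈ M₀) (hN : NoethZ T M₀) :
    NoethZ (insert x T) (AddSubgroup.closure {y : A | ∃ i : ℕ, ∃ m ∈ M₀, y = x ^ i • m}) := by
  classical
  intro f hf hst
  have hT : ∀ n, ∀ g ∈ T, ∀ v ∈ f n, g • v ∈ f n := fun n g hg v hv =>
    (hst n).2 g (Set.mem_insert_of_mem _ hg) v hv
  have hX : ∀ n, ∀ v ∈ f n, x • v ∈ f n := fun n v hv => (hst n).2 x (Set.mem_insert _ _) v hv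
  have hLM : ∀ i n, hbzL x M₀ i (f n) ≤ M₀ := fun i n m hm => hm.1
  -- diagonal
  obtain ⟨n0, hn0⟩ := hN (fun n => hbzL x M₀ n (f n))
    (fun a b hab => (hbzL_succ x M₀ (f a) (hX a) hab).trans
      (hbzL_mono x M₀ b (hf hab)))
    (fun n => ⟨hLM n n, fun g hg v hv =>
      hbzL_T T x hx M₀ hM₀ n (f n) (hT n) g hg v hv⟩)
  -- rows
  have hrow : ∀ i, ∃ Ni, ∀ m, Ni ≤ m → hbzL x M₀ i (f m) = hbzL x M₀ i (f Ni) := by
    intro i
    exact hN (fun n => hbzL x M₀ i (f n)) (fun a b hab => hbzL_mono x M₀ i (hf hab))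
      (fun n => ⟨hLM i n, fun g hg v hv =>
        hbzL_T T x hx M₀ hM₀ i (f n) (hT n) g hg v hv⟩)
  choose Ni hNi using hrow
  refine ⟨max n0 ((Finset.range n0).sup Ni), ?_⟩
  set N := max n0 ((Finset.range n0).sup Ni) with hNdef
  intro n hn
  apply hbz_eq x M₀ (f N) (f n) (hf hn) (hst n).1
  intro i
  by_cases hi : i < n0
  · have h1 : Ni i ≤ N := (Finset.le_sup (f := Ni) (Finset.mem_range.2 hi)).trans (le_max_right _ _)
    rw [hNi i n (h1.trans hn), hNi i N h1]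
  · have hi' : n0 ≤ i := not_lt.1 hi
    have hN0 : n0 ≤ N := le_max_left _ _
    calc hbzL x M₀ i (f n)
        ≤ hbzL x M₀ (max i n) (f (max i n)) :=
          (hbzL_succ x M₀ (f n) (hX n) (le_max_left i n)).trans
            (hbzL_mono x M₀ _ (hf (le_max_right i n)))
      _ = hbzL x M₀ n0 (f n0) := hn0 (max i n) (hi'.trans (le_max_left _ _))
      _ ≤ hbzL x M₀ i (f N) :=
          (hbzL_succ x M₀ (f n0) (hX n0) hi').trans (hbzL_mono x M₀ _ (hf hN0))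

end Pool.Agent.Helper933.HC
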