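import Pool.Agent.Helper933.HC.Defs
import Pool.Agent.Helper933.HC.P_hbz_step

set_option autoImplicit false

namespace Pool.Agent.Helper933.HC
open Module


theorem hbz_two {G A : Type} [Group G] [AddCommGroup A] [DistribMulAction G A] (T : Set G)
    (x : G) (hx : ∀ t, t ∈ T ↔ x * t * x⁻¹ ∈ T) (M₀ : AddSubgroup A)
    (hM₀ : ∀ g ∈ T, ∀ m ∈ M₀, g • m ∈ M₀) (hN : NoethZ T M₀) :
    NoethZ (insert x (insert x⁻¹ T))
      (AddSubgroup.closure {y : A | ∃ i : ℤ, ∃ m ∈ M₀, y = x ^ i • m}) := by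
  intro f hf hfs
  set Mp := AddSubgroup.closure {y : A | ∃ i : ℕ, ∃ m ∈ M₀, y = x ^ i • m} with hMp
  have hx' : ∀ i : ℕ, ∀ t ∈ T, x⁻¹ ^ i * t * x ^ i ∈ T := by
    intro i
    induction i with
    | zero => intro t ht; simpa using ht
    | succ i ih =>
      intro t ht
      have h1 := ih t ht
      rw [hx]
      have : x * (x⁻¹ ^ (i+1) * t * x ^ (i+1)) * x⁻¹ = x⁻¹ ^ i * t * x ^ i := by
        rw [pow_succ' x⁻¹, pow_succ x]; group
      rw [this]; exact h1
  have hMpx : ∀ y ∈ Mp, x • y ∈ Mp := by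
    intro y hy
    refine AddSubgroup.closure_induction (p := fun y _ => x • y ∈ Mp) ?_ ?_ ?_ ?_ hy
    · rintro _ ⟨i, m, hm, rfl⟩
      apply AddSubgroup.subset_closure
      exact ⟨i + 1, m, hm, by rw [smul_smul, pow_succ']⟩
    · rw [smul_zero]; exact zero_mem _
    · intro a b _ _ ha hb
      rw [smul_add]; exact add_mem ha hb
    · intro a _ ha
      rw [smul_neg]; exact neg_mem ha
  have hMpT : ∀ t ∈ T, ∀ y ∈ Mp, t • y ∈ Mp := by
    intro t ht y hy
    refine AddSubgroup.closure_induction (p := fun y _ => t • y ∈ Mp) ?_ ?_ ?_ ?_ hy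
    · rintro _ ⟨i, m, hm, rfl⟩
      apply AddSubgroup.subset_closure
      refine ⟨i, (x⁻¹ ^ i * t * x ^ i) • m, hM₀ _ (hx' i t ht) m hm, ?_⟩
      rw [smul_smul, smul_smul]
      congr 1
      group
    · rw [smul_zero]; exact zero_mem _
    · intro a b _ _ ha hb
      rw [smul_add]; exact add_mem ha hb
    · intro a _ ha
      rw [smul_neg]; exact neg_mem ha
  have hpx : ∀ N : ℕ, ∀ y ∈ Mp, x ^ N • y ∈ Mp := by
    intro N
    induction N with
    | zero => intro y hy; simpa using hy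
    | succ N ih =>
      intro y hy
      rw [pow_succ', mul_smul]
      exact hMpx _ (ih y hy)
  have hev : ∀ v ∈ AddSubgroup.closure {y : A | ∃ i : ℤ, ∃ m ∈ M₀, y = x ^ i • m},
      ∃ N : ℕ, x ^ N • v ∈ Mp := by
    intro v hv
    refine AddSubgroup.closure_induction (p := fun v _ => ∃ N : ℕ, x ^ N • v ∈ Mp) ?_ ?_ ?_ ?_ hv
    · rintro _ ⟨i, m, hm, rfl⟩
      refine ⟨i.natAbs, ?_⟩
      apply AddSubgroup.subset_closure
      refine ⟨(i.natAbs + i).toNat, m, hm, ?_⟩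
      rw [smul_smul, ← zpow_natCast, ← zpow_add, ← zpow_natCast]
      congr 2
      rw [Int.toNat_of_nonneg]
      omega
    · exact ⟨0, by rw [smul_zero]; exact zero_mem _⟩
    · rintro a b _ _ ⟨N, hN1⟩ ⟨N', hN2⟩
      refine ⟨N + N', ?_⟩
      rw [smul_add]
      apply add_mem
      · rw [add_comm, pow_add, mul_smul]; exact hpx _ _ hN1
      · rw [pow_add, mul_smul]; exact hpx _ _ hN2
    · rintro a _ ⟨N, hN1⟩
      exact ⟨N, by rw [smul_neg]; exact neg_mem hN1⟩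
  have hfx : ∀ n, ∀ N : ℕ, ∀ y ∈ f n, x ^ N • y ∈ f n := by
    intro n N
    induction N with
    | zero => intro y hy; simpa using hy
    | succ N ih =>
      intro y hy
      rw [pow_succ', mul_smul]
      exact (hfs n).2 x (Set.mem_insert _ _) _ (ih y hy)
  have hfx' : ∀ n, ∀ N : ℕ, ∀ y ∈ f n, x⁻¹ ^ N • y ∈ f n := by
    intro n N
    induction N with
    | zero => intro y hy; simpa using hy
    | succ N ih =>
      intro y hy
      rw [pow_succ', mul_smul]
      exact (hfs n).2 x⁻¹ (Set.mem_insert_of_mem _ (Set.mem_insert _ _)) _ (ih y hy)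
  obtain ⟨n, hn⟩ := hbz_step T x hx M₀ hM₀ hN (fun n => f n ⊓ Mp)
    (fun a b hab => inf_le_inf_right _ (hf hab)) (by
      intro n
      refine ⟨inf_le_right, ?_⟩
      rintro g (rfl | hg) y ⟨hy1, hy2⟩
      · exact ⟨(hfs n).2 g (Set.mem_insert _ _) _ hy1, hMpx y hy2⟩
      · exact ⟨(hfs n).2 g (Set.mem_insert_of_mem _ (Set.mem_insert_of_mem _ hg)) _ hy1,
          hMpT g hg y hy2⟩)
  refine ⟨n, fun m hm => le_antisymm ?_ (hf hm)⟩
  intro v hv
  obtain ⟨N, hN1⟩ := hev v ((hfs m).1 hv)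
  have h1 : x ^ N • v ∈ f m ⊓ Mp := ⟨hfx m N v hv, hN1⟩
  have h2 : f m ⊓ Mp = f n ⊓ Mp := hn m hm
  rw [h2] at h1
  have h3 := hfx' n N _ h1.1
  rw [smul_smul, inv_pow, inv_mul_cancel, one_smul] at h3
  exact h3

end Pool.Agent.Helper933.HC
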