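import Pool.Agent.Helper933.HC.Defs
import Pool.Agent.Helper933.HC.P_poly_ind
import Pool.Agent.Helper933.HC.P_hbz_two

set_option autoImplicit false

namespace Pool.Agent.Helper933.HC
open Module


theorem hallz_bot {A : Type} [AddCommGroup A] (S : Finset A) (f : ℕ → AddSubgroup A)
    (hf : Monotone f) (hle : ∀ n, f n ≤ AddSubgroup.closure (S : Set A)) :
    ∃ n, ∀ m, n ≤ m → f m = f n := by
  set M : AddSubgroup A := AddSubgroup.closure (S : Set A) with hM
  let M' : Submodule ℤ A := AddSubgroup.toIntSubmodule M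
  have hfg : M'.FG := by
    refine ⟨S, ?_⟩
    apply le_antisymm
    · rw [Submodule.span_le]
      intro x hx
      exact AddSubgroup.subset_closure hx
    · intro x hx
      have hx' : x ∈ AddSubgroup.closure (S : Set A) := hx
      clear hx
      induction hx' using AddSubgroup.closure_induction with
      | mem x hx => exact Submodule.subset_span hx
      | zero => exact Submodule.zero_mem _
      | add x y hx hy h1 h2 => exact Submodule.add_mem _ h1 h2
      | neg x hx h1 => exact Submodule.neg_mem _ h1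
  have : IsNoetherian ℤ M' := isNoetherian_of_fg_of_noetherian M' hfg
  let F : ℕ →o Submodule ℤ M' :=
    { toFun := fun n => (AddSubgroup.toIntSubmodule (f n)).comap M'.subtype
      monotone' := by
        intro a b hab
        apply Submodule.comap_mono
        exact AddSubgroup.toIntSubmodule.monotone (hf hab) }
  obtain ⟨n, hn⟩ := monotone_stabilizes_iff_noetherian.mpr ‹IsNoetherian ℤ M'› F
  refine ⟨n, fun m hm => ?_⟩
  apply le_antisymm
  · intro x hx
    have hxM : x ∈ M' := hle m hx
    have h1 : (⟨x, hxM⟩ : M') ∈ F m := hx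
    rw [← hn m hm] at h1
    exact h1
  · exact hf hm

theorem hallz {Γ A : Type} [Group Γ] [AddCommGroup A] [DistribMulAction Γ A] (hΓ : PC Γ)
    (hA : FGm Γ A) : NoethZ (Set.univ : Set Γ) (⊤ : AddSubgroup A) := by
  classical
  have key := poly_ind hΓ (fun R : Subgroup Γ => ∀ S : Finset A, NoethZ (R : Set Γ)
    (AddSubgroup.closure {a : A | ∃ g ∈ R, ∃ s ∈ S, a = g • s})) ?_ ?_
  · obtain ⟨S, hS⟩ := hA
    have h1 := key S
    have h2 : AddSubgroup.closure {a : A | ∃ g ∈ (⊤ : Subgroup Γ), ∃ s ∈ S, a = g • s} = ⊤ := by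
      rw [← hS]
      congr 1
      ext a
      simp
    rw [h2] at h1
    intro f hf h
    exact h1 f hf (fun n => ⟨(h n).1, fun g _ x hx => (h n).2 g (Set.mem_univ g) x hx⟩)
  · intro S f hf h
    have h2 : {a : A | ∃ g ∈ (⊥ : Subgroup Γ), ∃ s ∈ S, a = g • s} = (S : Set A) := by
      ext a
      simp only [Subgroup.mem_bot, Set.mem_ofPred_eq, exists_eq_left, one_smul, Finset.mem_coe]
      constructor
      · rintro ⟨s, hs, rfl⟩; exact hs
      · intro ha; exact ⟨a, ha, rfl⟩
    rw [h2] at h
    exact hallz_bot S f hf (fun n => (h n).1)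
  · intro R P t hRP ht hx hk ih S
    have hstab : ∀ g ∈ (R : Set Γ), ∀ m ∈ AddSubgroup.closure {a : A | ∃ g ∈ R, ∃ s ∈ S, a = g • s},
        g • m ∈ AddSubgroup.closure {a : A | ∃ g ∈ R, ∃ s ∈ S, a = g • s} := by
      intro g hg m hm
      induction hm using AddSubgroup.closure_induction with
      | mem x hx =>
        obtain ⟨g', hg', s, hs, rfl⟩ := hx
        apply AddSubgroup.subset_closure
        exact ⟨g * g', R.mul_mem hg hg', s, hs, (mul_smul g g' s).symm⟩
      | zero => rw [smul_zero]; exact AddSubgroup.zero_mem _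
      | add x y _ _ h1 h2 => rw [smul_add]; exact AddSubgroup.add_mem _ h1 h2
      | neg x _ h1 => rw [smul_neg]; exact AddSubgroup.neg_mem _ h1
    have h1 := hbz_two (R : Set Γ) t (fun x => hx x) _ hstab (ih S)
    intro f hf h
    apply h1 f hf
    intro n
    refine ⟨(h n).1.trans ?_, ?_⟩
    · rw [AddSubgroup.closure_le]
      rintro a ⟨g, hg, s, hs, rfl⟩
      obtain ⟨k, hk'⟩ := hk g hg
      apply AddSubgroup.subset_closure
      refine ⟨k, (t ^ (-k) * g) • s, AddSubgroup.subset_closure ⟨_, hk', s, hs, rfl⟩, ?_⟩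
      rw [← mul_smul, ← mul_assoc, ← zpow_add, add_neg_cancel, zpow_zero, one_mul]
    · intro g hg x hx
      apply (h n).2 g _ x hx
      rcases hg with rfl | rfl | hg
      · exact ht
      · exact P.inv_mem ht
      · exact hRP hg

end Pool.Agent.Helper933.HC
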