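import Pool.Agent.Helper933.HC.Defs

set_option autoImplicit false

namespace Pool.Agent.Helper933.HC
open Module


theorem hl_ext_key {Q : Type} [Group Q] (E : Subgroup Q) [E.Normal] (A B : Subgroup Q) (hAB : A ≤ B)
    (h1 : (A.subgroupOf E).relIndex (B.subgroupOf E) ≠ 0)
    (h2 : (A.map (QuotientGroup.mk' E)).relIndex (B.map (QuotientGroup.mk' E)) ≠ 0) :
    A.relIndex B ≠ 0 := by
  have h1' : A.relIndex (B ⊓ E) ≠ 0 := by
    rw [← Subgroup.inf_subgroupOf_right B E, Subgroup.relIndex_subgroupOf inf_le_right] at h1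
    exact h1
  rw [Subgroup.relIndex_map_map, QuotientGroup.ker_mk'] at h2
  have h3 : (A ⊔ E).relIndex B ≠ 0 := fun h0 => h2 (Subgroup.relIndex_eq_zero_of_le_right le_sup_left h0)
  have h4 : (B ⊓ (A ⊔ E)).relIndex B ≠ 0 := by
    rw [Subgroup.inf_relIndex_left]; exact h3
  have hle : B ⊓ E ≤ B ⊓ (A ⊔ E) := inf_le_inf_left B le_sup_right
  have h5 : A.relIndex (B ⊓ (A ⊔ E)) ≠ 0 := by
    haveI hf : Finite (↥(B ⊓ E) ⧸ A.subgroupOf (B ⊓ E)) := by
      have : (A.subgroupOf (B ⊓ E)).index ≠ 0 := h1'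
      exact Nat.finite_of_card_ne_zero this
    have hsurj : Function.Surjective (Subgroup.quotientSubgroupOfEmbeddingOfLE A hle) := by
      intro y
      induction y using QuotientGroup.induction_on with
      | H x =>
        obtain ⟨x, hx⟩ := x
        have hx2 : x ∈ E ⊔ A := by rw [sup_comm]; exact hx.2
        obtain ⟨e, he, a, ha, rfl⟩ := Subgroup.mem_sup_of_normal_left.1 hx2
        have heB : e ∈ B := by
          have := B.mul_mem hx.1 (B.inv_mem (hAB ha))
          simpa using this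
        refine ⟨QuotientGroup.mk (⟨e, heB, he⟩ : ↥(B ⊓ E)), ?_⟩
        rw [Subgroup.quotientSubgroupOfEmbeddingOfLE_apply_mk]
        rw [QuotientGroup.eq]
        rw [Subgroup.mem_subgroupOf]
        show (e)⁻¹ * (e * a) ∈ A
        simpa using ha
    have hf2 : Finite (↥(B ⊓ (A ⊔ E)) ⧸ A.subgroupOf (B ⊓ (A ⊔ E))) := Finite.of_surjective _ hsurj
    have : (A.subgroupOf (B ⊓ (A ⊔ E))).index ≠ 0 := by
      exact Nat.card_pos.ne'
    exact this
  exact Subgroup.relIndex_ne_zero_trans h5 h4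

theorem hl_ext {Q : Type} [Group Q] {a b : ℕ} (E : Subgroup Q) [E.Normal] (h1 : HL E a)
    (h2 : HL (Q ⧸ E) b) : HL Q (a + b) := by
  classical
  intro H hH s hs
  have e1 := h1 (fun i => (H i).subgroupOf E) (fun i j hij => Subgroup.comap_mono (hH hij))
    (s.filter (fun i => ((H i).subgroupOf E).relIndex ((H (i + 1)).subgroupOf E) = 0))
    (fun i hi => (Finset.mem_filter.1 hi).2)
  have e2 := h2 (fun i => (H i).map (QuotientGroup.mk' E)) (fun i j hij => Subgroup.map_mono (hH hij))
    (s.filter (fun i => ((H i).map (QuotientGroup.mk' E)).relIndex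
      ((H (i + 1)).map (QuotientGroup.mk' E)) = 0))
    (fun i hi => (Finset.mem_filter.1 hi).2)
  have hsub : s ⊆ s.filter (fun i => ((H i).subgroupOf E).relIndex ((H (i + 1)).subgroupOf E) = 0) ∪
      s.filter (fun i => ((H i).map (QuotientGroup.mk' E)).relIndex
      ((H (i + 1)).map (QuotientGroup.mk' E)) = 0) := by
    intro i hi
    rw [Finset.mem_union, Finset.mem_filter, Finset.mem_filter]
    by_contra hc
    push Not at hc
    exact hl_ext_key E (H i) (H (i + 1)) (hH (Nat.le_succ i)) (hc.1 hi) (hc.2 hi) (hs i hi)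
  calc s.card ≤ _ := Finset.card_le_card hsub
    _ ≤ _ := Finset.card_union_le _ _
    _ ≤ a + b := add_le_add e1 e2

end Pool.Agent.Helper933.HC
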