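import Pool.Agent.Helper933.HC.Defs
import Pool.Agent.Helper933.HC.P_hl_ext
import Pool.Agent.Helper933.HC.P_poly_ind

set_option autoImplicit false

namespace Pool.Agent.Helper933.HC
open Module


theorem hl_aux_index {C : Type} [Group C] (c : C) (hc : ∀ x : C, ∃ k : ℤ, x = c ^ k)
    (H : Subgroup C) (hH : H ≠ ⊥) : H.index ≠ 0 := by
  obtain ⟨x, hx, hx1⟩ : ∃ x, x ∈ H ∧ x ≠ 1 := by
    obtain ⟨a, ha⟩ := Subgroup.ne_bot_iff_exists_ne_one.mp hH
    exact ⟨a.1, a.2, fun h => ha (Subtype.ext h)⟩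
  obtain ⟨k, rfl⟩ := hc x
  have hk : k ≠ 0 := by
    rintro rfl
    simp at hx1
  have hfin : Finite (C ⧸ H) := by
    haveI : NeZero k.natAbs := ⟨by simpa using hk⟩
    refine Finite.of_surjective (fun r : Fin k.natAbs => (QuotientGroup.mk (c ^ (r : ℕ)) : C ⧸ H)) ?_
    intro q
    obtain ⟨y, rfl⟩ := QuotientGroup.mk_surjective q
    obtain ⟨m, rfl⟩ := hc y
    have h1 : 0 ≤ m % k := Int.emod_nonneg _ hk
    have h2 : m % k < |k| := Int.emod_lt_abs _ hk
    refine ⟨⟨(m % k).toNat, ?_⟩, ?_⟩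
    · zify
      rw [Int.toNat_of_nonneg h1]
      exact h2
    · simp only
      rw [QuotientGroup.eq]
      have h3 : (c ^ (m % k).toNat : C) = c ^ (m % k) := by
        rw [← zpow_natCast, Int.toNat_of_nonneg h1]
      rw [h3, ← zpow_neg, ← zpow_add]
      have h4 : -(m % k) + m = k * (m / k) := by
        have := Int.emod_add_mul_ediv m k
        linarith
      rw [h4, zpow_mul]
      exact H.zpow_mem hx _
  exact Subgroup.index_ne_zero_of_finite

theorem hl_aux_cyc {C : Type} [Group C] (c : C) (hc : ∀ x : C, ∃ k : ℤ, x = c ^ k) : HL C 1 := by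
  intro H hH s hs
  rw [Finset.card_le_one]
  by_contra hcon
  push Not at hcon
  obtain ⟨a, ha, b, hb, hab⟩ := hcon
  have key : ∀ i j : ℕ, i ∈ s → j ∈ s → i < j → False := by
    intro i j hi hj hij
    have h1 : H (i + 1) ≠ ⊥ := by
      intro h
      have h0 := hs i hi
      rw [h] at h0
      have : H i = ⊥ := le_bot_iff.mp (h ▸ hH (Nat.le_succ i))
      rw [this] at h0
      simp at h0
    have h2 : H j ≠ ⊥ := by
      intro h
      exact h1 (le_bot_iff.mp (h ▸ hH (Nat.succ_le_of_lt hij)))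
    have h3 := hl_aux_index c hc (H j) h2
    have h4 := hs j hj
    have h5 : (H j).relIndex (H (j + 1)) ∣ (H j).index := Subgroup.relIndex_dvd_index_of_le (hH (Nat.le_succ j))
    rw [h4] at h5
    exact h3 (Nat.eq_zero_of_zero_dvd h5)
  rcases lt_or_gt_of_ne hab with h | h
  · exact key a b ha hb h
  · exact key b a hb ha h

theorem hl_aux_equiv {C D : Type} [Group C] [Group D] (e : C ≃* D) {n : ℕ} (h : HL D n) :
    HL C n := by
  intro H hH s hs
  refine h (fun i => (H i).map (e : C →* D)) (fun i j hij => Subgroup.map_mono (hH hij)) s ?_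
  intro i hi
  have := hs i hi
  rw [Subgroup.relIndex_map_map_of_injective]
  · exact this
  · exact e.injective

theorem hl_exists {Q : Type} [Group Q] (h : PC Q) : ∃ n, HL Q n := by
  have main : ∃ n, HL (⊤ : Subgroup Q) n := by
    refine poly_ind h (fun R => ∃ n, HL R n) ?_ ?_
    · refine ⟨0, ?_⟩
      intro H hH s hs
      rw [Nat.le_zero, Finset.card_eq_zero]
      by_contra hne
      obtain ⟨i, hi⟩ := Finset.nonempty_iff_ne_empty.mpr hne
      have h1 := hs i hi
      have h2 : H i = H (i + 1) := Subsingleton.elim _ _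
      rw [h2] at h1
      simp at h1
    · rintro R P t hRP ht hconj hgen ⟨n, hn⟩
      refine ⟨n + 1, ?_⟩
      have hz : ∀ (k : ℤ) (x : Q), x ∈ R ↔ t ^ k * x * (t ^ k)⁻¹ ∈ R := by
        intro k
        induction k using Int.induction_on with
        | zero => intro x; simp
        | succ m ih =>
          intro x
          rw [hconj x, ih (t * x * t⁻¹)]
          have : t ^ (m : ℤ) * (t * x * t⁻¹) * (t ^ (m : ℤ))⁻¹
              = t ^ ((m : ℤ) + 1) * x * (t ^ ((m : ℤ) + 1))⁻¹ := by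
            rw [zpow_add_one]; group
          rw [this]
        | pred m ih =>
          intro x
          rw [hconj (t ^ (-(m : ℤ) - 1) * x * (t ^ (-(m : ℤ) - 1))⁻¹)]
          rw [ih x]
          have : t * (t ^ (-(m : ℤ) - 1) * x * (t ^ (-(m : ℤ) - 1))⁻¹) * t⁻¹
              = t ^ (-(m : ℤ)) * x * (t ^ (-(m : ℤ)))⁻¹ := by
            rw [zpow_sub_one]; group
          rw [this]
      haveI hE : (R.subgroupOf P).Normal := by
        refine ⟨?_⟩
        rintro ⟨x, hx⟩ hxR ⟨g, hg⟩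
        rw [Subgroup.mem_subgroupOf] at hxR ⊢
        simp only [Subgroup.coe_mul, Subgroup.coe_inv] at hxR ⊢
        obtain ⟨k, hk⟩ := hgen g hg
        have h1 : (t ^ (-k) * g) * x * (t ^ (-k) * g)⁻¹ ∈ R :=
          R.mul_mem (R.mul_mem hk hxR) (R.inv_mem hk)
        have h2 := (hz k _).mp h1
        have h3 : t ^ k * (t ^ (-k) * g * x * (t ^ (-k) * g)⁻¹) * (t ^ k)⁻¹ = g * x * g⁻¹ := by
          rw [zpow_neg]; group
        rwa [h3] at h2
      refine hl_ext (R.subgroupOf P) (hl_aux_equiv (Subgroup.subgroupOfEquivOfLe hRP) hn) ?_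
      refine hl_aux_cyc ((QuotientGroup.mk (⟨t, ht⟩ : P)) : P ⧸ R.subgroupOf P) ?_
      intro q
      obtain ⟨⟨y, hy⟩, rfl⟩ := QuotientGroup.mk_surjective q
      obtain ⟨k, hk⟩ := hgen y hy
      refine ⟨k, ?_⟩
      rw [← QuotientGroup.mk_zpow, eq_comm, QuotientGroup.eq, Subgroup.mem_subgroupOf]
      simpa [zpow_neg] using hk
  obtain ⟨n, hn⟩ := main
  exact ⟨n, hl_aux_equiv Subgroup.topEquiv.symm hn⟩

end Pool.Agent.Helper933.HC
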