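import Pool.Agent.Helper933.HC.Defs

set_option autoImplicit false

namespace Pool.Agent.Helper933.HC
open Module


theorem fgz {Γ A : Type} [Group Γ] [AddCommGroup A] [DistribMulAction Γ A]
    (hA : NoethZ (Set.univ : Set Γ) (⊤ : AddSubgroup A)) (B : AddSubgroup A)
    (hB : ∀ (g : Γ), ∀ b ∈ B, g • b ∈ B) :
    ∃ S : Finset A, AddSubgroup.closure {a : A | ∃ g : Γ, ∃ s ∈ S, a = g • s} = B := by
  classical
  by_contra hcon
  push Not at hcon
  set cl : Finset A → AddSubgroup A :=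
    fun S => AddSubgroup.closure {a : A | ∃ g : Γ, ∃ s ∈ S, a = g • s} with hcl
  have hle : ∀ S : Finset A, (∀ s ∈ S, s ∈ B) → cl S ≤ B := by
    intro S hS
    rw [hcl]
    simp only [AddSubgroup.closure_le]
    rintro a ⟨g, s, hs, rfl⟩
    exact hB g s (hS s hs)
  have hex : ∀ S : {S : Finset A // ∀ s ∈ S, s ∈ B}, ∃ x ∈ B, x ∉ cl S.1 := by
    intro S
    by_contra h
    push Not at h
    exact hcon S.1 (le_antisymm (hle S.1 S.2) h)
  choose x hxB hxS using hex
  let nx : {S : Finset A // ∀ s ∈ S, s ∈ B} → {S : Finset A // ∀ s ∈ S, s ∈ B} := fun S =>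
    ⟨insert (x S) S.1, by
      intro s hs
      rcases Finset.mem_insert.mp hs with h | h
      · rw [h]; exact hxB S
      · exact S.2 s h⟩
  let sq : ℕ → {S : Finset A // ∀ s ∈ S, s ∈ B} := fun n =>
    Nat.rec ⟨∅, by simp⟩ (fun _ S => nx S) n
  have hsq : ∀ n, sq (n + 1) = nx (sq n) := fun n => rfl
  have hmono : ∀ S T : Finset A, S ⊆ T → cl S ≤ cl T := by
    intro S T hST
    apply AddSubgroup.closure_mono
    rintro a ⟨g, s, hs, rfl⟩
    exact ⟨g, s, hST hs, rfl⟩
  have hstab : ∀ (S : Finset A) (g : Γ), ∀ a ∈ cl S, g • a ∈ cl S := by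
    intro S g a ha
    refine AddSubgroup.closure_induction (p := fun a _ => g • a ∈ cl S) ?_ ?_ ?_ ?_ ha
    · rintro b ⟨g', s, hs, rfl⟩
      apply AddSubgroup.subset_closure
      exact ⟨g * g', s, hs, by rw [mul_smul]⟩
    · rw [smul_zero]; exact (cl S).zero_mem
    · intro b c _ _ hb hc
      rw [smul_add]; exact (cl S).add_mem hb hc
    · intro b _ hb
      rw [smul_neg]; exact (cl S).neg_mem hb
  obtain ⟨n, hn⟩ := hA (fun n => cl (sq n).1)
    (monotone_nat_of_le_succ (fun n => by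
      show cl (sq n).1 ≤ cl (sq (n + 1)).1
      rw [hsq]
      exact hmono _ _ (Finset.subset_insert _ _)))
    (fun n => ⟨le_top, fun g _ a ha => hstab _ g a ha⟩)
  have h1 : cl (sq (n + 1)).1 = cl (sq n).1 := hn (n + 1) (Nat.le_succ n)
  apply hxS (sq n)
  rw [← h1, hsq]
  apply AddSubgroup.subset_closure
  exact ⟨1, x (sq n), Finset.mem_insert_self _ _, by rw [one_smul]⟩

end Pool.Agent.Helper933.HC
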