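import Pool.Agent.Helper933.HC.Defs
import Pool.Agent.Helper933.HC.P_bdd_unip
import Pool.Agent.Helper933.HC.P_bdd_perQ

set_option autoImplicit false

namespace Pool.Agent.Helper933.HC
open Module


theorem se_q_stable {M : Type} [AddCommGroup M] [Module ℚ M] (u : M ≃+ M) (W : Submodule ℚ M)
    [FiniteDimensional ℚ W] (h : ∀ x ∈ W, u x ∈ W) : Stable u W := by
  intro x
  refine ⟨fun hx => ?_, h x⟩
  let f : W →ₗ[ℚ] W :=
    { toFun := fun w => ⟨u w, h w w.2⟩
      map_add' := fun a b => by ext; simp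
      map_smul' := fun c a => by
        ext
        exact map_rat_smul u c (a : M) }
  have hinj : Function.Injective f := by
    intro a b hab
    have h1 : u a = u b := congrArg Subtype.val hab
    exact Subtype.ext (u.injective h1)
  obtain ⟨y, hy⟩ := (LinearMap.injective_iff_surjective.1 hinj) ⟨u x, hx⟩
  have h1 : u y = u x := congrArg Subtype.val hy
  rw [← u.injective h1]
  exact y.2

theorem se_q_inv {A : Type} [AddCommGroup A] [Module ℚ A] (T : A →ₗ[ℚ] A) (a : A) (n : ℕ)
    (h : (⇑T)^[n] a ∈ Submodule.span ℚ (Set.range fun i : Fin n => (⇑T)^[(i : ℕ)] a)) :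
    ∀ y ∈ Submodule.span ℚ (Set.range fun i : Fin n => (⇑T)^[(i : ℕ)] a),
      T y ∈ Submodule.span ℚ (Set.range fun i : Fin n => (⇑T)^[(i : ℕ)] a) := by
  intro y hy
  induction hy using Submodule.span_induction with
  | mem y hy =>
    obtain ⟨i, rfl⟩ := hy
    by_cases hi : (i : ℕ) + 1 < n
    · refine Submodule.subset_span ⟨⟨i + 1, hi⟩, ?_⟩
      exact Function.iterate_succ_apply' _ _ _
    · have h1 : (i : ℕ) + 1 = n := by have := i.2; omega
      have h2 : T ((⇑T)^[(i : ℕ)] a) = (⇑T)^[n] a := by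
        have h3 := Function.iterate_succ_apply' (⇑T) (i : ℕ) a
        rw [← h3]
        exact congrArg (fun k => (⇑T)^[k] a) h1
      show T ((⇑T)^[(i : ℕ)] a) ∈ _
      rw [h2]
      exact h
  | zero => rw [map_zero]; exact Submodule.zero_mem _
  | add x y _ _ hx hy => rw [map_add]; exact Submodule.add_mem _ hx hy
  | smul c x _ hx => rw [map_smul]; exact Submodule.smul_mem _ _ hx

/-- the linear map given by a group element -/
noncomputable def se_q_lin {Γ A : Type} [Group Γ] [AddCommGroup A] [Module ℚ A]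
    [DistribMulAction Γ A] (x : Γ) : A →ₗ[ℚ] A where
  toFun := fun y => x • y
  map_add' := fun a b => smul_add x a b
  map_smul' := fun c a => map_rat_smul (ac x : A ≃+ A) c a

theorem se_q {Γ A : Type} [Group Γ] [AddCommGroup A] [Module ℚ A] [DistribMulAction Γ A]
    (hM : MainFor Γ)
    (hA : ∃ S : Finset A, Submodule.span ℚ {a : A | ∃ g : Γ, ∃ s ∈ S, a = g • s} = ⊤) :
    SEt Γ A := by
  have hlin : ∀ (x : Γ) (k : ℚ) (a : A), (ac x : A ≃+ A) (k • a) = k • (ac x : A ≃+ A) a :=
    fun x k a => map_rat_smul (ac x : A ≃+ A) k a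
  have hsys : Sys ℚ Γ A Γ (MonoidHom.id Γ) :=
    { semi := fun g => ⟨RingEquiv.refl ℚ, fun k x => hlin g k x⟩
      scal := fun g hg => ⟨1, fun a => by
        have h1 : g = 1 := hg
        rw [h1, one_smul, one_smul]⟩
      fg := hA }
  obtain ⟨l, d, hld⟩ := hM ℚ Γ A (MonoidHom.id Γ) hsys
  refine ⟨⟨d * l, ?_⟩, (3 ^ d).factorial, Nat.factorial_pos _, ?_⟩
  · intro x a n hn
    let T : A →ₗ[ℚ] A := se_q_lin x - LinearMap.id
    have hT : (⇑T) = fun y : A => x • y - y := rfl
    rcases Nat.eq_zero_or_pos n with h0 | hn0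
    · subst h0
      have h1 : a = 0 := hn
      rw [h1, ← hT]
      exact iterate_map_zero T _
    have hn' : (⇑T)^[n] a = 0 := hn
    let W : Submodule ℚ A := Submodule.span ℚ (Set.range fun i : Fin n => (⇑T)^[(i : ℕ)] a)
    have : FiniteDimensional ℚ W := FiniteDimensional.span_of_finite ℚ (Set.finite_range _)
    have hTW : ∀ y ∈ W, T y ∈ W := se_q_inv T a n (by rw [hn']; exact Submodule.zero_mem _)
    have hxW : ∀ y ∈ W, (ac x : A ≃+ A) y ∈ W := by
      intro y hy
      have h1 : (ac x : A ≃+ A) y = T y + y := by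
        show x • y = (x • y - y) + y
        rw [sub_add_cancel]
      rw [h1]
      exact W.add_mem (hTW y hy) hy
    have hst := se_q_stable (ac x : A ≃+ A) W hxW
    have hW0 : ∀ y ∈ W, (⇑T)^[n] y = 0 := by
      intro y hy
      have hle : W ≤ LinearMap.ker (T ^ n) := by
        refine Submodule.span_le.2 ?_
        rintro _ ⟨i, rfl⟩
        show (T ^ n) ((⇑T)^[(i : ℕ)] a) = 0
        rw [Module.End.pow_apply, ← Function.iterate_add_apply, add_comm,
          Function.iterate_add_apply, hn', iterate_map_zero]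
      have := hle hy
      rwa [LinearMap.mem_ker, Module.End.pow_apply] at this
    have ha : a ∈ W := Submodule.subset_span ⟨⟨0, hn0⟩, rfl⟩
    exact bdd_unip (hlin x) hst (hld x W inferInstance hst) n hW0 a ha
  · intro x n a hn0 hn
    let T : A →ₗ[ℚ] A := se_q_lin x
    have hT : (⇑T) = fun y : A => x • y := rfl
    have hit : ∀ (k : ℕ) (y : A), (⇑T)^[k] y = x ^ k • y := by
      intro k y
      rw [hT]
      exact congrFun (smul_iterate x k) y
    let W : Submodule ℚ A := Submodule.span ℚ (Set.range fun i : Fin n => (⇑T)^[(i : ℕ)] a)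
    have : FiniteDimensional ℚ W := FiniteDimensional.span_of_finite ℚ (Set.finite_range _)
    have ha : a ∈ W := Submodule.subset_span ⟨⟨0, hn0⟩, rfl⟩
    have hn' : (⇑T)^[n] a = a := by rw [hit, hn]
    have hTW : ∀ y ∈ W, T y ∈ W := se_q_inv T a n (by rw [hn']; exact ha)
    have hst := se_q_stable (ac x : A ≃+ A) W hTW
    have hW0 : ∀ y ∈ W, (⇑(ac x : A ≃+ A))^[n] y = y := by
      intro y hy
      have hle : W ≤ LinearMap.ker (T ^ n - LinearMap.id) := by
        refine Submodule.span_le.2 ?_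
        rintro _ ⟨i, rfl⟩
        show (T ^ n) ((⇑T)^[(i : ℕ)] a) - (⇑T)^[(i : ℕ)] a = 0
        rw [Module.End.pow_apply, ← Function.iterate_add_apply, add_comm,
          Function.iterate_add_apply, hn', sub_self]
      have h1 := hle hy
      rw [LinearMap.mem_ker, LinearMap.sub_apply, Module.End.pow_apply, LinearMap.id_apply,
        sub_eq_zero] at h1
      exact h1
    have h2 := bdd_perQ hst (hld x W inferInstance hst) n hn0 hW0 a ha
    have h3 := hit ((3 ^ d).factorial) a
    rw [← h3]
    exact h2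
end Pool.Agent.Helper933.HC
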