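import Pool.Agent.Helper933.HC.Defs
import Pool.Agent.Helper933.HC.P_se_q

set_option autoImplicit false

namespace Pool.Agent.Helper933.HC
open Module


theorem se_0 {Γ A : Type} [Group Γ] [AddCommGroup A] [DistribMulAction Γ A]
    (hM : MainFor Γ) (hA : FGm Γ A) (htf : ∀ (n : ℕ) (a : A), 0 < n → n • a = 0 → a = 0) :
    SEt Γ A := by
  classical
  let T : Γ → (TensorProduct ℤ ℚ A →ₗ[ℤ] TensorProduct ℤ ℚ A) := fun g =>
    LinearMap.lTensor ℚ (DistribSMul.toAddMonoidHom A g).toIntLinearMap
  have hT1 : T 1 = LinearMap.id := by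
    have e : (DistribSMul.toAddMonoidHom A (1 : Γ)).toIntLinearMap = LinearMap.id := by
      ext a; simp
    show LinearMap.lTensor ℚ (DistribSMul.toAddMonoidHom A (1 : Γ)).toIntLinearMap = _
    rw [e, LinearMap.lTensor_id]
    rfl
  have hTm : ∀ g h, T (g * h) = (T g).comp (T h) := by
    intro g h
    have e : (DistribSMul.toAddMonoidHom A (g * h)).toIntLinearMap =
        (DistribSMul.toAddMonoidHom A g).toIntLinearMap.comp
          (DistribSMul.toAddMonoidHom A h).toIntLinearMap := by
      ext a; simp [mul_smul]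
    show LinearMap.lTensor ℚ (DistribSMul.toAddMonoidHom A (g * h)).toIntLinearMap = _
    rw [e, LinearMap.lTensor_comp]
    rfl
  letI act : DistribMulAction Γ (TensorProduct ℤ ℚ A) :=
    { smul := fun g x => T g x
      one_smul := fun x => by
        show T 1 x = x
        rw [hT1]; rfl
      mul_smul := fun g h x => by
        show T (g * h) x = T g (T h x)
        rw [hTm]; rfl
      smul_zero := fun g => map_zero (T g)
      smul_add := fun g x y => map_add (T g) x y }
  have hsm : ∀ (g : Γ) (x : TensorProduct ℤ ℚ A), g • x = T g x := fun g x => rfl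
  let j : A →ₗ[ℤ] TensorProduct ℤ ℚ A := TensorProduct.mk ℤ ℚ A 1
  have hjinj : ∀ a, j a = 0 → a = 0 := by
    intro a ha
    have hloc : IsLocalizedModule (nonZeroDivisors ℤ) j :=
      (isLocalizedModule_iff_isBaseChange (nonZeroDivisors ℤ) ℚ j).mpr
        (TensorProduct.isBaseChange ℤ A ℚ)
    obtain ⟨c, hc⟩ := (IsLocalizedModule.eq_zero_iff (nonZeroDivisors ℤ) j).mp ha
    have hc0 : (c : ℤ) ≠ 0 := nonZeroDivisors.coe_ne_zero c
    have hc' : (c : ℤ) • a = 0 := hc
    apply htf (c : ℤ).natAbs a (Int.natAbs_pos.mpr hc0)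
    rcases Int.natAbs_eq (c : ℤ) with h | h
    · rw [h, natCast_zsmul] at hc'
      exact hc'
    · rw [h, neg_smul, natCast_zsmul, neg_eq_zero] at hc'
      exact hc'
  have hjeq : ∀ (g : Γ) a, j (g • a) = g • j a := by
    intro g a
    rw [hsm]
    show TensorProduct.mk ℤ ℚ A 1 (g • a) =
      LinearMap.lTensor ℚ (DistribSMul.toAddMonoidHom A g).toIntLinearMap
        (TensorProduct.mk ℤ ℚ A 1 a)
    simp
  obtain ⟨S, hS⟩ := hA
  have hjS : ∀ a, j a ∈ Submodule.span ℚ
      {a : TensorProduct ℤ ℚ A | ∃ g : Γ, ∃ s ∈ S.image j, a = g • s} := by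
    intro a
    have ha : a ∈ AddSubgroup.closure {a : A | ∃ g : Γ, ∃ s ∈ S, a = g • s} := by
      rw [hS]; trivial
    induction ha using AddSubgroup.closure_induction with
    | mem y hy =>
      obtain ⟨g, s, hs, rfl⟩ := hy
      rw [hjeq]
      exact Submodule.subset_span ⟨g, j s, Finset.mem_image_of_mem _ hs, rfl⟩
    | zero => rw [map_zero]; exact Submodule.zero_mem _
    | add y z _ _ hy hz =>
      rw [map_add]
      exact Submodule.add_mem _ hy hz
    | neg y _ hy =>
      rw [map_neg]
      exact Submodule.neg_mem _ hy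
  have hspan : Submodule.span ℚ {a : TensorProduct ℤ ℚ A | ∃ g : Γ, ∃ s ∈ S.image j, a = g • s}
      = ⊤ := by
    rw [eq_top_iff]
    intro x _
    induction x using TensorProduct.induction_on with
    | zero => exact Submodule.zero_mem _
    | add x y hx hy => exact Submodule.add_mem _ (hx trivial) (hy trivial)
    | tmul q a =>
      have e : q ⊗ₜ[ℤ] a = q • j a := by
        show q ⊗ₜ[ℤ] a = q • ((1 : ℚ) ⊗ₜ[ℤ] a)
        rw [TensorProduct.smul_tmul']
        simp
      rw [e]
      exact Submodule.smul_mem _ _ (hjS a)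
  obtain ⟨⟨h, hh⟩, e, he0, he⟩ := se_q (A := TensorProduct ℤ ℚ A) hM ⟨S.image j, hspan⟩
  have hiter : ∀ (x : Γ) (n : ℕ) (a : A),
      j ((fun y : A => x • y - y)^[n] a) =
        (fun y : TensorProduct ℤ ℚ A => x • y - y)^[n] (j a) := by
    intro x n
    have hsemi : Function.Semiconj j (fun y : A => x • y - y)
        (fun y : TensorProduct ℤ ℚ A => x • y - y) := by
      intro y
      show j (x • y - y) = x • j y - j y
      rw [map_sub, hjeq]
    intro a
    exact (hsemi.iterate_right n) a
  refine ⟨⟨h, fun x a n hn => ?_⟩, e, he0, fun x n a hn0 hn => ?_⟩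
  · apply hjinj
    rw [hiter]
    apply hh x (j a) n
    rw [← hiter, hn, map_zero]
  · have h1 := he x n (j a) hn0 (by rw [← hjeq, hn])
    rw [← hjeq] at h1
    have h2 : j (x ^ e • a - a) = 0 := by rw [map_sub, h1, sub_self]
    exact sub_eq_zero.mp (hjinj _ h2)

end Pool.Agent.Helper933.HC
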