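import Pool.Agent.Helper933.HC.Defs

set_option autoImplicit false

namespace Pool.Agent.Helper933.HC
open Module


theorem se_ext {Γ A₁ A A₂ : Type} [Group Γ] [AddCommGroup A₁] [AddCommGroup A] [AddCommGroup A₂]
    [DistribMulAction Γ A₁] [DistribMulAction Γ A] [DistribMulAction Γ A₂] (i : A₁ →+ A)
    (hi : Function.Injective i) (hie : ∀ (g : Γ) a, i (g • a) = g • i a) (q : A →+ A₂)
    (hqe : ∀ (g : Γ) a, q (g • a) = g • q a) (hex : ∀ a, q a = 0 → ∃ b, i b = a)
    (t : ℕ) (ht0 : 0 < t) (ht : ∀ b : A₁, (∃ n : ℕ, 0 < n ∧ n • b = 0) → t • b = 0)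
    (h1 : SEt Γ A₁) (h2 : SEt Γ A₂) : SEt Γ A := by
  obtain ⟨⟨k1, hk1⟩, e1, he1, hp1⟩ := h1
  obtain ⟨⟨k2, hk2⟩, e2, he2, hp2⟩ := h2
  refine ⟨⟨k1 + k2, ?_⟩, e2 * e1 * t, by positivity, ?_⟩
  · intro x a n hn
    have hq : ∀ (m : ℕ) (y : A), q ((fun y : A => x • y - y)^[m] y) =
        (fun y : A₂ => x • y - y)^[m] (q y) := by
      intro m y
      have hs : Function.Semiconj q (fun y : A => x • y - y) (fun y : A₂ => x • y - y) := by
        intro y
        simp only [map_sub, hqe]
      exact (hs.iterate_right m) y
    have hii : ∀ (m : ℕ) (y : A₁), i ((fun y : A₁ => x • y - y)^[m] y) =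
        (fun y : A => x • y - y)^[m] (i y) := by
      intro m y
      have hs : Function.Semiconj i (fun y : A₁ => x • y - y) (fun y : A => x • y - y) := by
        intro y
        simp only [map_sub, hie]
      exact (hs.iterate_right m) y
    have hz : ∀ m : ℕ, (fun y : A => x • y - y)^[m] 0 = 0 := by
      intro m
      apply Function.iterate_fixed
      simp
    have e0 : (fun y : A₂ => x • y - y)^[n] (q a) = 0 := by
      rw [← hq, hn, map_zero]
    have e3 := hk2 x (q a) n e0
    rw [← hq] at e3
    obtain ⟨b, hb⟩ := hex _ e3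
    have e4 : (fun y : A₁ => x • y - y)^[n] b = 0 := by
      apply hi
      rw [hii, hb, map_zero, ← Function.iterate_add_apply, add_comm, Function.iterate_add_apply,
        hn, hz]
    have e5 := hk1 x b n e4
    rw [Function.iterate_add_apply, ← hb, ← hii, e5, map_zero]
  · intro x n a hn hxa
    -- powers
    have hpow : ∀ {B : Type} [AddCommGroup B] [DistribMulAction Γ B] (g : Γ) (c : B) (m : ℕ),
        g • c = c → g ^ m • c = c := by
      intro B _ _ g c m hc
      induction m with
      | zero => simp
      | succ m ih => rw [pow_succ, mul_smul, hc, ih]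
    have e0 : x ^ n • q a = q a := by rw [← hqe, hxa]
    have e3 := hp2 x n (q a) hn e0
    set v : Γ := x ^ e2 with hv
    have e4 : q (v • a - a) = 0 := by rw [map_sub, hqe, e3, sub_self]
    obtain ⟨b, hb⟩ := hex _ e4
    have hva : v • a = a + i b := by rw [hb]; abel
    have hN : ∀ m : ℕ, v ^ m • a = a + i (∑ j ∈ Finset.range m, v ^ j • b) := by
      intro m
      induction m with
      | zero => simp
      | succ m ih =>
        rw [pow_succ, mul_smul, hva, smul_add, ih, Finset.sum_range_succ, map_add, hie]
        abel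
    have hvn : v ^ n • a = a := by
      rw [hv, ← pow_mul, mul_comm, pow_mul]
      exact hpow _ _ _ hxa
    have hNn : ∑ j ∈ Finset.range n, v ^ j • b = 0 := by
      apply hi
      have := hN n
      rw [hvn] at this
      rw [map_zero]
      exact (add_eq_left.mp this.symm)
    have hvb : v ^ n • b = b := by
      have h3 : ∑ j ∈ Finset.range (n + 1), v ^ j • b = v ^ n • b := by
        rw [Finset.sum_range_succ, hNn, zero_add]
      have h4 : ∑ j ∈ Finset.range (n + 1), v ^ j • b = b := by
        rw [Finset.sum_range_succ']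
        have : ∑ j ∈ Finset.range n, v ^ (j + 1) • b = v • ∑ j ∈ Finset.range n, v ^ j • b := by
          rw [Finset.smul_sum]
          apply Finset.sum_congr rfl
          intro j _
          rw [pow_succ', mul_smul]
        rw [this, hNn, smul_zero, zero_add, pow_zero, one_smul]
      rw [← h3, h4]
    have hxb : x ^ e1 • b = b := by
      apply hp1 x (e2 * n) b (by positivity)
      rw [pow_mul]; exact hvb
    have hwb : v ^ e1 • b = b := by
      rw [hv, ← pow_mul, mul_comm, pow_mul]
      exact hpow _ _ _ hxb
    set w : Γ := v ^ e1 with hw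
    set b' : A₁ := ∑ j ∈ Finset.range e1, v ^ j • b with hb'
    have hwa : w • a = a + i b' := hN e1
    have hwb' : w • b' = b' := by
      rw [hb', Finset.smul_sum]
      apply Finset.sum_congr rfl
      intro j _
      rw [← mul_smul, hw, ← pow_add, add_comm, pow_add, mul_smul, ← hw, hwb]
    have hwk : ∀ m : ℕ, w ^ m • a = a + m • i b' := by
      intro m
      induction m with
      | zero => simp
      | succ m ih =>
        rw [pow_succ, mul_smul, hwa, smul_add, ih, ← hie, hpow w b' m hwb', succ_nsmul]
        abel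
    have hwn : w ^ n • a = a := by
      rw [hw, ← pow_mul, mul_comm, pow_mul]
      exact hpow _ _ _ hvn
    have hnb : n • b' = 0 := by
      apply hi
      have := hwk n
      rw [hwn] at this
      rw [map_zero, map_nsmul]
      exact (add_eq_left.mp this.symm)
    have htb : t • b' = 0 := ht b' ⟨n, hn, hnb⟩
    have hfin := hwk t
    rw [← map_nsmul, htb, map_zero, add_zero] at hfin
    rw [pow_mul, pow_mul]
    exact hfin

end Pool.Agent.Helper933.HC
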