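import Pool.Agent.Helper933.HC.Defs
import Pool.Agent.Helper933.HC.P_bdd_unip
import Pool.Agent.Helper933.HC.P_bdd_perP

set_option autoImplicit false

namespace Pool.Agent.Helper933.HC
open Module


theorem se_p_stable {K M : Type} [DivisionRing K] [AddCommGroup M] [Module K M] (u : M ≃+ M)
    (hlin : ∀ (k : K) (x : M), u (k • x) = k • u x) (W : Submodule K M)
    [FiniteDimensional K W] (h : ∀ x ∈ W, u x ∈ W) : Stable u W := by
  intro x
  constructor
  · intro hx
    let f : W →ₗ[K] W :=
      { toFun := fun w => ⟨u w, h w w.2⟩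
        map_add' := by
          intro a b
          apply Subtype.ext
          simp
        map_smul' := by
          intro k a
          apply Subtype.ext
          simp [hlin] }
    have hinj : Function.Injective f := by
      intro a b hab
      have := congrArg Subtype.val hab
      exact Subtype.ext (u.injective this)
    have hsurj : Function.Surjective f := LinearMap.injective_iff_surjective.1 hinj
    obtain ⟨w, hw⟩ := hsurj ⟨u x, hx⟩
    have hw' : u w = u x := congrArg Subtype.val hw
    rw [← u.injective hw']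
    exact w.2
  · exact h x

theorem se_p_A {K M : Type} [DivisionRing K] [AddCommGroup M] [Module K M] (u : M ≃+ M)
    (hlin : ∀ (k : K) (x : M), u (k • x) = k • u x) (a : M) (n : ℕ)
    (hn : (fun y : M => u y - y)^[n] a = 0) :
    ∃ W : Submodule K M, a ∈ W ∧ FiniteDimensional K W ∧ Stable u W ∧
      ∀ y ∈ W, (fun y : M => u y - y)^[n] y = 0 := by
  let N : M →ₗ[K] M :=
    { toFun := fun y => u y - y
      map_add' := by
        intro b c
        simp only [map_add]
        abel
      map_smul' := by
        intro k b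
        simp only [RingHom.id_apply]
        rw [hlin k b, smul_sub] }
  have hNf : ∀ y, N y = u y - y := fun y => rfl
  have hNit : ∀ (i : ℕ) (y : M), (fun y : M => u y - y)^[i] y = (N ^ i) y := by
    intro i y
    rw [Module.End.pow_apply]
    rfl
  have hn' : (N ^ n) a = 0 := by
    rw [← hNit]; exact hn
  let W : Submodule K M := Submodule.span K (Set.range fun i : ℕ => (N ^ i) a)
  have haW : a ∈ W := Submodule.subset_span ⟨0, by simp⟩
  have hfin : (Set.range fun i : ℕ => (N ^ i) a).Finite := by
    have hsub : (Set.range fun i : ℕ => (N ^ i) a) ⊆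
        ((fun i : ℕ => (N ^ i) a) '' (Finset.range n : Set ℕ)) ∪ {0} := by
      rintro y ⟨i, rfl⟩
      by_cases hi : i < n
      · left
        exact ⟨i, by simpa using hi, rfl⟩
      · right
        push Not at hi
        obtain ⟨k, rfl⟩ := Nat.exists_eq_add_of_le hi
        have : (N ^ (n + k)) a = 0 := by
          rw [add_comm, pow_add, Module.End.mul_apply, hn', map_zero]
        simpa using this
    exact ((Finset.finite_toSet _).image _ |>.union (Set.finite_singleton _)).subset hsub
  have hWfd : FiniteDimensional K W := FiniteDimensional.span_of_finite _ hfin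
  have hNW : ∀ y ∈ W, N y ∈ W := by
    intro y hy
    have : W ≤ W.comap N := by
      refine Submodule.span_le.2 ?_
      rintro z ⟨i, rfl⟩
      refine Submodule.subset_span ⟨i + 1, ?_⟩
      simp only [pow_succ', Module.End.mul_apply]
    exact this hy
  have huW : ∀ y ∈ W, u y ∈ W := by
    intro y hy
    have : u y = N y + y := by rw [hNf]; abel
    rw [this]
    exact W.add_mem (hNW y hy) hy
  refine ⟨W, haW, hWfd, se_p_stable u hlin W huW, ?_⟩
  intro y hy
  have : W ≤ LinearMap.ker (N ^ n) := by
    refine Submodule.span_le.2 ?_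
    rintro z ⟨i, rfl⟩
    show (N ^ n) ((N ^ i) a) = 0
    rw [← Module.End.mul_apply, ← pow_add, add_comm, pow_add, Module.End.mul_apply, hn',
      map_zero]
  rw [hNit]
  exact this hy

theorem se_p_B {K M : Type} [DivisionRing K] [AddCommGroup M] [Module K M] (u : M ≃+ M)
    (hlin : ∀ (k : K) (x : M), u (k • x) = k • u x) (a : M) (n : ℕ) (hn0 : 0 < n)
    (hn : (⇑u)^[n] a = a) :
    ∃ W : Submodule K M, a ∈ W ∧ FiniteDimensional K W ∧ Stable u W ∧
      ∀ y ∈ W, (⇑u)^[n] y = y := by
  let U : M →ₗ[K] M :=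
    { toFun := fun y => u y
      map_add' := fun b c => map_add u b c
      map_smul' := fun k b => hlin k b }
  have hNit : ∀ (i : ℕ) (y : M), (⇑u)^[i] y = (U ^ i) y := by
    intro i y
    rw [Module.End.pow_apply]
    rfl
  have hn' : (U ^ n) a = a := by
    rw [← hNit]; exact hn
  let W : Submodule K M := Submodule.span K (Set.range fun i : ℕ => (U ^ i) a)
  have haW : a ∈ W := Submodule.subset_span ⟨0, by simp⟩
  have hmul : ∀ k : ℕ, (U ^ (n * k)) a = a := by
    intro k
    induction k with
    | zero => simp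
    | succ k ih => rw [Nat.mul_succ, pow_add, Module.End.mul_apply, hn', ih]
  have hfin : (Set.range fun i : ℕ => (U ^ i) a).Finite := by
    have hsub : (Set.range fun i : ℕ => (U ^ i) a) ⊆
        ((fun i : ℕ => (U ^ i) a) '' (Finset.range n : Set ℕ)) := by
      rintro y ⟨i, rfl⟩
      refine ⟨i % n, by simpa using Nat.mod_lt _ hn0, ?_⟩
      have h1 : i = i % n + n * (i / n) := (Nat.mod_add_div i n).symm
      show (U ^ (i % n)) a = (U ^ i) a
      conv_rhs => rw [h1, pow_add, Module.End.mul_apply, hmul]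
    exact ((Finset.finite_toSet _).image _).subset hsub
  have hWfd : FiniteDimensional K W := FiniteDimensional.span_of_finite _ hfin
  have huW : ∀ y ∈ W, u y ∈ W := by
    intro y hy
    have : W ≤ W.comap U := by
      refine Submodule.span_le.2 ?_
      rintro z ⟨i, rfl⟩
      refine Submodule.subset_span ⟨i + 1, ?_⟩
      simp only [pow_succ', Module.End.mul_apply]
    exact this hy
  refine ⟨W, haW, hWfd, se_p_stable u hlin W huW, ?_⟩
  intro y hy
  have : W ≤ LinearMap.ker (U ^ n - 1) := by
    refine Submodule.span_le.2 ?_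
    rintro z ⟨i, rfl⟩
    show (U ^ n) ((U ^ i) a) - (U ^ i) a = 0
    rw [← Module.End.mul_apply, ← pow_add, add_comm, pow_add, Module.End.mul_apply, hn',
      sub_self]
  have h2 : (U ^ n) y - y = 0 := this hy
  rw [hNit]
  exact sub_eq_zero.1 h2

theorem se_p_fg {K Γ A : Type} [DivisionRing K] [Group Γ] [AddCommGroup A] [Module K A]
    [DistribMulAction Γ A] (hA : FGm Γ A) :
    ∃ S : Finset A, Submodule.span K {x : A | ∃ g : Γ, ∃ s ∈ S, x = g • s} = ⊤ := by
  obtain ⟨S, hS⟩ := hA
  refine ⟨S, ?_⟩
  rw [eq_top_iff]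
  intro y _
  have hy : y ∈ AddSubgroup.closure {a : A | ∃ g : Γ, ∃ s ∈ S, a = g • s} := by
    rw [hS]; trivial
  have hle : AddSubgroup.closure {a : A | ∃ g : Γ, ∃ s ∈ S, a = g • s} ≤
      (Submodule.span K {x : A | ∃ g : Γ, ∃ s ∈ S, x = g • s}).toAddSubgroup := by
    rw [AddSubgroup.closure_le]
    exact Submodule.subset_span
  exact hle hy

theorem se_p_main {Γ A : Type} [Group Γ] [AddCommGroup A] [DistribMulAction Γ A]
    (hM : MainFor Γ) (hA : FGm Γ A) (p : ℕ) [Fact p.Prime] [Module (ZMod p) A] :
    SEt Γ A := by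
  have hlin : ∀ (g : Γ) (k : ZMod p) (x : A), (ac g : A ≃+ A) (k • x) = k • (ac g : A ≃+ A) x :=
    fun g k x => ZMod.map_smul (ac g : A ≃+ A) k x
  have hsys : Sys (ZMod p) Γ A Γ (MonoidHom.id Γ) := by
    refine ⟨fun g => ⟨RingEquiv.refl _, fun k x => hlin g k x⟩, ?_, se_p_fg hA⟩
    intro g hg
    refine ⟨1, fun a => ?_⟩
    have : g = 1 := hg
    rw [this, one_smul, one_smul]
  obtain ⟨l, d, hT⟩ := hM (ZMod p) Γ A (MonoidHom.id Γ) hsys
  have hpp : 0 < p := (Fact.out : p.Prime).pos
  refine ⟨⟨d * l, ?_⟩, (p ^ d).factorial * p ^ l,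
    Nat.mul_pos (Nat.factorial_pos _) (pow_pos hpp _), ?_⟩
  · intro x a n hn
    obtain ⟨W, haW, hfd, hst, hk⟩ := se_p_A (K := ZMod p) (ac x : A ≃+ A) (hlin x) a n hn
    have hb := hT x W hfd hst
    exact bdd_unip (hlin x) hst hb n hk a haW
  · intro x n a hn hna
    have huit : ∀ (i : ℕ) (y : A), (⇑(ac x : A ≃+ A))^[i] y = x ^ i • y := by
      intro i y
      have : (⇑(ac x : A ≃+ A)) = fun y : A => x • y := rfl
      rw [this, smul_iterate]
    obtain ⟨W, haW, hfd, hst, hk⟩ := se_p_B (K := ZMod p) (ac x : A ≃+ A) (hlin x) a n hn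
      (by rw [huit]; exact hna)
    have hb := hT x W hfd hst
    have := bdd_perP hst hb n hn hk a haW
    rw [huit] at this
    exact this

theorem se_p {Γ A : Type} [Group Γ] [AddCommGroup A] [DistribMulAction Γ A]
    (hM : MainFor Γ) (hA : FGm Γ A) (p : ℕ) (hp : p.Prime) (hpA : ∀ a : A, p • a = 0) :
    SEt Γ A := by
  haveI : Fact p.Prime := ⟨hp⟩
  letI : Module (ZMod p) A := AddCommGroup.zmodModule hpA
  exact se_p_main hM hA p

end Pool.Agent.Helper933.HC
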