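import Pool.Agent.Helper933.HC.Defs
import Pool.Agent.Helper933.HC.P_se_ext
import Pool.Agent.Helper933.HC.P_hallz
import Pool.Agent.Helper933.HC.P_fgz
import Pool.Agent.Helper933.HC.P_se_p

set_option autoImplicit false

namespace Pool.Agent.Helper933.HC
open Module


/-- action on a stable subgroup -/
@[reducible] def seTorsSub {Γ A : Type} [Group Γ] [AddCommGroup A] [DistribMulAction Γ A]
    (B : AddSubgroup A) (hB : ∀ (g : Γ), ∀ b ∈ B, g • b ∈ B) : DistribMulAction Γ B where
  smul g b := ⟨g • (b : A), hB g b b.2⟩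
  one_smul b := Subtype.ext (one_smul Γ (b : A))
  mul_smul g h b := Subtype.ext (mul_smul g h (b : A))
  smul_zero g := Subtype.ext (smul_zero g)
  smul_add g a b := Subtype.ext (smul_add g (a : A) (b : A))

/-- action on the quotient by a stable subgroup -/
@[reducible] def seTorsQuo {Γ A : Type} [Group Γ] [AddCommGroup A] [DistribMulAction Γ A]
    (B : AddSubgroup A) (hB : ∀ (g : Γ), ∀ b ∈ B, g • b ∈ B) : DistribMulAction Γ (A ⧸ B) where
  smul g x := QuotientAddGroup.map B B (DistribMulAction.toAddMonoidHom A g)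
    (fun b hb => hB g b hb) x
  one_smul x := by
    induction x using QuotientAddGroup.induction_on with
    | _ a =>
      show ((((1 : Γ) • a : A)) : A ⧸ B) = (a : A ⧸ B)
      rw [one_smul]
  mul_smul g h x := by
    induction x using QuotientAddGroup.induction_on with
    | _ a =>
      show ((((g * h) • a : A)) : A ⧸ B) = ((g • (h • a) : A) : A ⧸ B)
      rw [mul_smul]
  smul_zero g := map_zero _
  smul_add g a b := map_add _ a b

theorem seTors_fgSub {Γ A : Type} [Group Γ] [AddCommGroup A] [DistribMulAction Γ A]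
    (B : AddSubgroup A) (hB : ∀ (g : Γ), ∀ b ∈ B, g • b ∈ B)
    (h : ∃ S : Finset A, AddSubgroup.closure {a : A | ∃ g : Γ, ∃ s ∈ S, a = g • s} = B) :
    @FGm Γ B _ _ (seTorsSub B hB) := by
  classical
  letI := seTorsSub B hB
  obtain ⟨S, hS⟩ := h
  have hSB : ∀ s ∈ S, s ∈ B := by
    intro s hs
    rw [← hS]
    exact AddSubgroup.subset_closure ⟨1, s, hs, (one_smul Γ s).symm⟩
  refine ⟨S.subtype (fun a => a ∈ B), ?_⟩
  rw [eq_top_iff]
  rintro ⟨b, hb⟩ -
  have key : ∀ a ∈ AddSubgroup.closure {a : A | ∃ g : Γ, ∃ s ∈ S, a = g • s},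
      ∃ h : a ∈ B, (⟨a, h⟩ : B) ∈ AddSubgroup.closure
        {a : B | ∃ g : Γ, ∃ s ∈ S.subtype (fun a => a ∈ B), a = g • s} := by
    intro a ha
    induction ha using AddSubgroup.closure_induction with
    | mem x hx =>
      obtain ⟨g, s, hs, rfl⟩ := hx
      refine ⟨hB g s (hSB s hs), AddSubgroup.subset_closure
        ⟨g, ⟨s, hSB s hs⟩, Finset.mem_subtype.2 hs, rfl⟩⟩
    | zero => exact ⟨B.zero_mem, AddSubgroup.zero_mem _⟩
    | add x y _ _ ihx ihy =>
      obtain ⟨hx, px⟩ := ihx
      obtain ⟨hy, py⟩ := ihy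
      exact ⟨B.add_mem hx hy, AddSubgroup.add_mem _ px py⟩
    | neg x _ ihx =>
      obtain ⟨hx, px⟩ := ihx
      exact ⟨B.neg_mem hx, AddSubgroup.neg_mem _ px⟩
  obtain ⟨_, h2⟩ := key b (by rw [hS]; exact hb)
  exact h2

theorem seTors_fgQuo {Γ A : Type} [Group Γ] [AddCommGroup A] [DistribMulAction Γ A]
    (B : AddSubgroup A) (hB : ∀ (g : Γ), ∀ b ∈ B, g • b ∈ B) (h : FGm Γ A) :
    @FGm Γ (A ⧸ B) _ _ (seTorsQuo B hB) := by
  classical
  letI := seTorsQuo B hB
  obtain ⟨S, hS⟩ := h
  refine ⟨S.image (QuotientAddGroup.mk : A → A ⧸ B), ?_⟩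
  rw [eq_top_iff]
  rintro x -
  induction x using QuotientAddGroup.induction_on with
  | _ b =>
    have hb : b ∈ AddSubgroup.closure {a : A | ∃ g : Γ, ∃ s ∈ S, a = g • s} := by
      rw [hS]
      exact AddSubgroup.mem_top b
    induction hb using AddSubgroup.closure_induction with
    | mem x hx =>
      obtain ⟨g, s, hs, rfl⟩ := hx
      exact AddSubgroup.subset_closure ⟨g, (s : A ⧸ B), Finset.mem_image_of_mem _ hs, rfl⟩
    | zero => exact AddSubgroup.zero_mem _
    | add x y _ _ ihx ihy => exact AddSubgroup.add_mem _ ihx ihy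
    | neg x _ ihx => exact AddSubgroup.neg_mem _ ihx

theorem se_tors {Γ : Type} [Group Γ] (hΓ : PC Γ) (hM : MainFor Γ) (t : ℕ) (ht : 0 < t) :
    ∀ (A : Type) [AddCommGroup A] [DistribMulAction Γ A], FGm Γ A →
      (∀ a : A, t • a = 0) → SEt Γ A := by
  induction t using Nat.strong_induction_on with
  | _ t ih =>
    intro A _ _ hA hto
    by_cases h1 : t = 1
    · subst h1
      have h0 : ∀ a : A, a = 0 := fun a => by
        have := hto a
        rwa [one_smul] at this
      refine ⟨⟨0, fun x a n _ => h0 _⟩, ⟨1, one_pos, fun x n a _ _ => ?_⟩⟩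
      rw [h0 (x ^ 1 • a), ← h0 a]
    · have hp : t.minFac.Prime := Nat.minFac_prime h1
      obtain ⟨t', ht'⟩ := Nat.minFac_dvd t
      obtain ⟨p, hpe⟩ : ∃ p, p = t.minFac := ⟨_, rfl⟩
      rw [← hpe] at hp ht'
      have ht'0 : 0 < t' := by
        rcases Nat.eq_zero_or_pos t' with h | h
        · rw [h, mul_zero] at ht'
          omega
        · exact h
      have ht'lt : t' < t := by
        have := hp.two_le
        rw [ht']
        nlinarith
      obtain ⟨B, hBd⟩ : ∃ B : AddSubgroup A, ∀ b, b ∈ B ↔ ∃ a, p • a = b :=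
        ⟨(nsmulAddMonoidHom (α := A) p).range, fun b => Iff.rfl⟩
      have hB : ∀ (g : Γ), ∀ b ∈ B, g • b ∈ B := by
        intro g b hb
        obtain ⟨a, rfl⟩ := (hBd b).1 hb
        exact (hBd _).2 ⟨g • a, (map_nsmul (DistribMulAction.toAddMonoidHom A g) p a).symm⟩
      have hBt : ∀ b : B, t' • b = 0 := by
        rintro ⟨b, hb⟩
        obtain ⟨a, rfl⟩ := (hBd b).1 hb
        apply Subtype.ext
        show t' • (p • a) = 0
        rw [← mul_smul, mul_comm, ← ht']
        exact hto a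
      letI i1 := seTorsSub B hB
      letI i2 := seTorsQuo B hB
      have hS1 : SEt Γ B := ih t' ht'lt ht'0 B
        (seTors_fgSub B hB (fgz (hallz hΓ hA) B hB)) hBt
      have hS2 : SEt Γ (A ⧸ B) := by
        refine se_p hM (seTors_fgQuo B hB hA) p hp ?_
        intro x
        induction x using QuotientAddGroup.induction_on with
        | _ a =>
          show ((p • a : A) : A ⧸ B) = 0
          exact (QuotientAddGroup.eq_zero_iff _).2 ((hBd _).2 ⟨a, rfl⟩)
      refine se_ext (i := B.subtype) B.subtype_injective (fun g a => rfl)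
        (QuotientAddGroup.mk' B) (fun g a => rfl) ?_ t' ht'0 (fun b _ => hBt b) hS1 hS2
      intro a ha
      have ha' : a ∈ B := (QuotientAddGroup.eq_zero_iff a).1 ha
      exact ⟨⟨a, ha'⟩, rfl⟩

end Pool.Agent.Helper933.HC
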