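import Pool.Agent.Helper933.HC.Defs

set_option autoImplicit false

namespace Pool.Agent.Helper933.HC
open Module


theorem tors_exp {Γ A : Type} [Group Γ] [AddCommGroup A] [DistribMulAction Γ A]
    (hA : NoethZ (Set.univ : Set Γ) (⊤ : AddSubgroup A)) :
    ∃ t : ℕ, 0 < t ∧ ∀ a : A, (∃ n : ℕ, 0 < n ∧ n • a = 0) → t • a = 0 := by
  obtain ⟨n, hn⟩ := hA (fun n => (nsmulAddMonoidHom n.factorial : A →+ A).ker) (by
    intro a b hab x hx
    rw [AddMonoidHom.mem_ker] at hx ⊢
    obtain ⟨c, hc⟩ := Nat.factorial_dvd_factorial hab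
    change b.factorial • x = 0
    change a.factorial • x = 0 at hx
    rw [hc, mul_comm, mul_nsmul', hx, nsmul_zero]) (by
    intro n
    refine ⟨le_top, fun g _ x hx => ?_⟩
    rw [AddMonoidHom.mem_ker] at hx ⊢
    change n.factorial • (g • x) = 0
    change n.factorial • x = 0 at hx
    rw [smul_comm, hx, smul_zero])
  refine ⟨n.factorial, Nat.factorial_pos n, fun a ⟨m, hm, ha⟩ => ?_⟩
  have h1 : a ∈ (nsmulAddMonoidHom (max n m).factorial : A →+ A).ker := by
    rw [AddMonoidHom.mem_ker]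
    change (max n m).factorial • a = 0
    obtain ⟨c, hc⟩ := Nat.dvd_factorial hm (le_max_right n m)
    rw [hc, mul_comm, mul_nsmul', ha, nsmul_zero]
  rw [hn (max n m) (le_max_left n m)] at h1
  exact h1

end Pool.Agent.Helper933.HC
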