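import Pool.Agent.Helper933.HC.Defs
import Pool.Agent.Helper933.HC.P_se_ext
import Pool.Agent.Helper933.HC.P_hallz
import Pool.Agent.Helper933.HC.P_fgz
import Pool.Agent.Helper933.HC.P_tors_exp
import Pool.Agent.Helper933.HC.P_se_0
import Pool.Agent.Helper933.HC.P_se_tors

set_option autoImplicit false

namespace Pool.Agent.Helper933.HC
open Module


theorem se_all {Γ A : Type} [Group Γ] [AddCommGroup A] [DistribMulAction Γ A] (hΓ : PC Γ)
    (hM : MainFor Γ) (hA : FGm Γ A) : SEt Γ A := by
  have hN := hallz hΓ hA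
  obtain ⟨t, ht0, ht⟩ := tors_exp hN
  let B : AddSubgroup A :=
    { carrier := {a | t • a = 0}
      zero_mem' := smul_zero t
      add_mem' := by
        intro a b ha hb
        simp only [Set.mem_setOf_eq] at ha hb ⊢
        rw [smul_add, ha, hb, add_zero]
      neg_mem' := by
        intro a ha
        simp only [Set.mem_setOf_eq] at ha ⊢
        rw [smul_neg, ha, neg_zero] }
  have hBm : ∀ a : A, a ∈ B ↔ t • a = 0 := fun a => Iff.rfl
  have hsn : ∀ (g : Γ) (n : ℕ) (a : A), g • (n • a) = n • (g • a) := fun g n a =>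
    map_nsmul (DistribSMul.toAddMonoidHom A g) n a
  have hB : ∀ (g : Γ), ∀ b ∈ B, g • b ∈ B := by
    intro g b hb
    rw [hBm] at hb ⊢
    rw [← hsn, hb, smul_zero]
  let iB : DistribMulAction Γ B :=
    { smul := fun g b => ⟨g • (b : A), hB g b b.2⟩
      one_smul := fun b => Subtype.ext (one_smul Γ (b : A))
      mul_smul := fun g h b => Subtype.ext (mul_smul g h (b : A))
      smul_zero := fun g => Subtype.ext (smul_zero g)
      smul_add := fun g b c => Subtype.ext (smul_add g (b : A) (c : A)) }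
  have hcB : ∀ (g : Γ) (b : B), ((g • b : B) : A) = g • (b : A) := fun g b => rfl
  let iQ : DistribMulAction Γ (A ⧸ B) :=
    { smul := fun g => QuotientAddGroup.map B B (DistribSMul.toAddMonoidHom A g)
        (fun b hb => hB g b hb)
      one_smul := by
        intro x
        induction x using QuotientAddGroup.induction_on with
        | H a => exact congrArg (QuotientAddGroup.mk (s := B)) (one_smul Γ a)
      mul_smul := by
        intro g h x
        induction x using QuotientAddGroup.induction_on with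
        | H a => exact congrArg (QuotientAddGroup.mk (s := B)) (mul_smul g h a)
      smul_zero := by
        intro g
        exact map_zero (QuotientAddGroup.map B B (DistribSMul.toAddMonoidHom A g)
          (fun b hb => hB g b hb))
      smul_add := by
        intro g x y
        exact map_add (QuotientAddGroup.map B B (DistribSMul.toAddMonoidHom A g)
          (fun b hb => hB g b hb)) x y }
  have hcQ : ∀ (g : Γ) (a : A), ((g • a : A) : A ⧸ B) = g • (a : A ⧸ B) := fun g a => rfl
  have hFB : FGm Γ B := by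
    obtain ⟨S, hS⟩ := fgz hN B hB
    have hSB : ∀ s ∈ S, s ∈ B := by
      intro s hs
      have : s ∈ AddSubgroup.closure {a : A | ∃ g : Γ, ∃ s ∈ S, a = g • s} :=
        AddSubgroup.subset_closure ⟨1, s, hs, (one_smul Γ s).symm⟩
      rwa [hS] at this
    classical
    refine ⟨S.preimage (Subtype.val : B → A) Subtype.val_injective.injOn, ?_⟩
    apply AddSubgroup.map_injective (f := B.subtype) Subtype.val_injective
    rw [AddMonoidHom.map_closure]
    have h1 : (B.subtype : B → A) '' {a : B | ∃ g : Γ, ∃ s ∈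
        S.preimage (Subtype.val : B → A) Subtype.val_injective.injOn, a = g • s} =
        {a : A | ∃ g : Γ, ∃ s ∈ S, a = g • s} := by
      ext a
      constructor
      · rintro ⟨b, ⟨g, s, hs, rfl⟩, rfl⟩
        exact ⟨g, (s : A), Finset.mem_preimage.mp hs, rfl⟩
      · rintro ⟨g, s, hs, rfl⟩
        exact ⟨g • (⟨s, hSB s hs⟩ : B), ⟨g, ⟨s, hSB s hs⟩, Finset.mem_preimage.mpr hs, rfl⟩, rfl⟩
    rw [h1, hS]
    ext a
    constructor
    · intro ha
      exact ⟨⟨a, ha⟩, AddSubgroup.mem_top _, rfl⟩
    · rintro ⟨b, -, rfl⟩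
      exact b.2
  have hFQ : FGm Γ (A ⧸ B) := by
    obtain ⟨S, hS⟩ := hA
    classical
    refine ⟨S.image (QuotientAddGroup.mk' B), ?_⟩
    have h1 : {a : A ⧸ B | ∃ g : Γ, ∃ s ∈ S.image (QuotientAddGroup.mk' B), a = g • s} =
        (QuotientAddGroup.mk' B) '' {a : A | ∃ g : Γ, ∃ s ∈ S, a = g • s} := by
      ext a
      constructor
      · rintro ⟨g, s, hs, rfl⟩
        obtain ⟨s', hs', rfl⟩ := Finset.mem_image.mp hs
        exact ⟨g • s', ⟨g, s', hs', rfl⟩, rfl⟩
      · rintro ⟨b, ⟨g, s, hs, rfl⟩, rfl⟩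
        exact ⟨g, QuotientAddGroup.mk' B s, Finset.mem_image_of_mem _ hs, rfl⟩
    rw [h1, ← AddMonoidHom.map_closure, hS]
    rw [← AddMonoidHom.range_eq_map]
    exact AddMonoidHom.range_eq_top.mpr (QuotientAddGroup.mk'_surjective B)
  have hSB : SEt Γ B := se_tors hΓ hM t ht0 B hFB (fun b => Subtype.ext ((hBm b).mp b.2))
  have hSQ : SEt Γ (A ⧸ B) := by
    refine se_0 hM hFQ ?_
    intro n x hn hx
    induction x using QuotientAddGroup.induction_on with
    | H a =>
      have h1 : ((n • a : A) : A ⧸ B) = 0 := hx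
      rw [QuotientAddGroup.eq_zero_iff] at h1
      rw [hBm] at h1
      rw [QuotientAddGroup.eq_zero_iff, hBm]
      refine ht a ⟨t * n, Nat.mul_pos ht0 hn, ?_⟩
      rw [mul_smul, h1]
  refine se_ext (Γ := Γ) (A₁ := B) (A := A) (A₂ := A ⧸ B) B.subtype Subtype.val_injective
    (fun g a => hcB g a) (QuotientAddGroup.mk' B) (fun g a => hcQ g a) ?_ t ht0 ?_ hSB hSQ
  · intro a ha
    have : a ∈ B := (QuotientAddGroup.eq_zero_iff a).mp ha
    exact ⟨⟨a, this⟩, rfl⟩
  · intro b _
    exact Subtype.ext ((hBm b).mp b.2)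

end Pool.Agent.Helper933.HC
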