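import Pool.Agent.Helper933.HC.Defs
import Pool.Agent.Helper933.HC.P_hl_exists
import Pool.Agent.Helper933.HC.P_hallz
import Pool.Agent.Helper933.HC.P_tors_exp
import Pool.Agent.Helper933.HC.P_se_all
import Pool.Agent.Helper933.HC.P_ab_module
import Pool.Agent.Helper933.HC.P_erem_pc

set_option autoImplicit false

namespace Pool.Agent.Helper933.HC
open Module


/-- the recursion `N_{k+1} = q N_k + a` -/
def Nk {Q M : Type} [Group Q] [AddCommGroup M] [DistribMulAction Q M] (q : Q) (a : M) : ℕ → M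
  | 0 => 0
  | k + 1 => q • Nk q a k + a

theorem Nk_succ' {Q M : Type} [Group Q] [AddCommGroup M] [DistribMulAction Q M] (q : Q) (a : M)
    (k : ℕ) : Nk q a (k + 1) = Nk q a k + q ^ k • a := by
  induction k with
  | zero => simp [Nk]
  | succ k ih =>
    have h : Nk q a (k + 1 + 1) = q • Nk q a (k + 1) + a := rfl
    rw [h]
    nth_rw 1 [ih]
    have h2 : Nk q a (k + 1) = q • Nk q a k + a := rfl
    rw [h2, smul_add, pow_succ', mul_smul]
    abel

theorem Nk_inv {Q M : Type} [Group Q] [AddCommGroup M] [DistribMulAction Q M] (q : Q) (a : M)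
    (e : ℕ) (h : q ^ e • a = a) (k : ℕ) : q ^ e • Nk q a k = Nk q a k := by
  induction k with
  | zero => simp [Nk]
  | succ k ih =>
    have h2 : Nk q a (k + 1) = q • Nk q a k + a := rfl
    rw [h2, smul_add, h, ← mul_smul, ← pow_succ, pow_succ', mul_smul, ih]

theorem Nk_fix {Q M : Type} [Group Q] [AddCommGroup M] [DistribMulAction Q M] (q : Q) (b : M)
    (h : q • b = b) (k : ℕ) : Nk q b k = k • b := by
  induction k with
  | zero => simp [Nk]
  | succ k ih =>
    have h2 : Nk q b (k + 1) = q • Nk q b k + b := rfl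
    have h3 : q • (k • b) = k • (q • b) := by
      exact map_nsmul (DistribMulAction.toAddMonoidHom M q) k b
    rw [h2, ih, succ_nsmul, h3, h]

theorem conj_pow_Nk {G Q M : Type} [Group G] [Group Q] [AddCommGroup M] [DistribMulAction Q M]
    (f : G →* Q) (j : M → G) (hj0 : j 0 = 1) (hadd : ∀ a b, j (a + b) = j a * j b)
    (hact : ∀ g m, j (f g • m) = g * j m * g⁻¹) (u g : G) (a : M)
    (h : u * g * u⁻¹ = j a * g) (k : ℕ) :
    u ^ k * g * (u ^ k)⁻¹ = j (Nk (f u) a k) * g := by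
  induction k with
  | zero => simp [Nk, hj0]
  | succ k ih =>
    have h2 : Nk (f u) a (k + 1) = f u • Nk (f u) a k + a := rfl
    rw [h2, hadd, hact]
    have h3 : u ^ (k + 1) * g * (u ^ (k + 1))⁻¹ = u * (u ^ k * g * (u ^ k)⁻¹) * u⁻¹ := by
      rw [pow_succ']
      group
    rw [h3, ih]
    have h4 : u * (j (Nk (f u) a k) * g) * u⁻¹ =
      (u * j (Nk (f u) a k) * u⁻¹) * (u * g * u⁻¹) := by group
    rw [h4, h]
    group

/-- finitely generated abelian-by-polycyclic groups are eremitic. -/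
theorem erem_grp (hmain : ∀ (n : ℕ) (Q : Type) [Group Q], PC Q → HL Q n → MainFor Q)
    {G Q : Type} [Group G] [Group Q] (hG : Group.FG G) (f : G →* Q)
    (hf : Function.Surjective f) (hQ : PC Q) (hab : ∀ x ∈ f.ker, ∀ y ∈ f.ker, x * y = y * x) :
    ∃ e : ℕ, 0 < e ∧ ∀ (x g : G) (n : ℕ), 0 < n → x ^ n * g = g * x ^ n →
      x ^ e * g = g * x ^ e := by
  obtain ⟨M, iM, iD, j, hinj, hker, hadd, hact, hFG⟩ := ab_module hG f hf hQ hab
  obtain ⟨hl, hHL⟩ := hl_exists hQ
  obtain ⟨-, e2, he2, hper⟩ := se_all hQ (hmain hl Q hQ hHL) hFG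
  obtain ⟨t, ht, htor⟩ := tors_exp (hallz hQ hFG)
  obtain ⟨e1, he1, hpc⟩ := erem_pc hQ
  have hj0 : j 0 = 1 := by
    have := hadd 0 0
    rw [add_zero] at this
    exact (left_eq_mul.mp this)
  refine ⟨e1 * e2 * t, by positivity, fun x g n hn hxg => ?_⟩
  have hcm : ∀ k : ℕ, x ^ (n * k) * g = g * x ^ (n * k) := by
    intro k
    have : Commute (x ^ n) g := hxg
    have h2 := this.pow_left k
    rw [← pow_mul] at h2
    exact h2
  have hq : f x ^ e1 * f g = f g * f x ^ e1 := by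
    apply hpc (f x) (f g) n hn
    have := congrArg f hxg
    simpa using this
  have hyk : x ^ e1 * g * (x ^ e1)⁻¹ * g⁻¹ ∈ f.ker := by
    rw [MonoidHom.mem_ker]
    simp only [map_mul, map_pow, map_inv]
    rw [hq]
    group
  obtain ⟨a, ha⟩ := (hker _).mp hyk
  have hya : x ^ e1 * g * (x ^ e1)⁻¹ = j a * g := by
    rw [ha]
    group
  have hc1 := conj_pow_Nk f j hj0 hadd hact (x ^ e1) g a hya
  have hNn : Nk (f (x ^ e1)) a n = 0 := by
    have h1 := hc1 n
    have h2 : (x ^ e1) ^ n * g = g * (x ^ e1) ^ n := by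
      rw [← pow_mul, mul_comm e1 n]
      exact hcm e1
    rw [h2, mul_inv_cancel_right] at h1
    apply hinj
    rw [hj0]
    exact (right_eq_mul.mp h1)
  have hfn : f (x ^ e1) ^ n • a = a := by
    have h1 := Nk_succ' (f (x ^ e1)) a n
    have h2 : Nk (f (x ^ e1)) a (n + 1) = f (x ^ e1) • Nk (f (x ^ e1)) a n + a := rfl
    rw [h2, hNn, smul_zero, zero_add, zero_add] at h1
    exact h1.symm
  have hfe := hper (f (x ^ e1)) n a hn hfn
  have hz := hc1 e2
  set b := Nk (f (x ^ e1)) a e2 with hb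
  have hfb : f ((x ^ e1) ^ e2) • b = b := by
    rw [map_pow]
    exact Nk_inv _ _ _ hfe _
  have hc2 := conj_pow_Nk f j hj0 hadd hact ((x ^ e1) ^ e2) g b hz
  have hnb : n • b = 0 := by
    have h1 := hc2 n
    rw [Nk_fix _ _ hfb] at h1
    have h2 : ((x ^ e1) ^ e2) ^ n * g = g * ((x ^ e1) ^ e2) ^ n := by
      rw [← pow_mul, ← pow_mul, show e1 * (e2 * n) = n * (e1 * e2) by ring]
      exact hcm _
    rw [h2, mul_inv_cancel_right] at h1
    apply hinj
    rw [hj0]
    exact (right_eq_mul.mp h1)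
  have htb : t • b = 0 := htor b ⟨n, hn, hnb⟩
  have h1 := hc2 t
  rw [Nk_fix _ _ hfb, htb, hj0, one_mul, ← pow_mul, ← pow_mul] at h1
  rw [← mul_assoc] at h1
  exact mul_inv_eq_iff_eq_mul.mp h1

end Pool.Agent.Helper933.HC
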