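import Pool.Agent.Helper933.HC.Defs
import Pool.Agent.Helper933.HC.P_pc_sub
import Pool.Agent.Helper933.HC.P_pc_surj

set_option autoImplicit false

namespace Pool.Agent.Helper933.HC
open Module


/-- abelian case with conjugation -/
theorem plinth_pre_ab {Q : Type} [Group Q] (Z : Subgroup Q) (hZn : Z.Normal)
    (hcomm : ∀ a ∈ Z, ∀ b ∈ Z, a * b = b * a) (hfg : Z.FG) (hinf : Infinite Z) :
    ∃ (r : ℕ) (ε : Multiplicative (Fin r → ℤ) →* Q), 0 < r ∧ Function.Injective ε ∧
      ε.range.Normal := by
  classical
  letI : CommGroup Z := { (inferInstance : Group Z) with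
    mul_comm := fun a b => Subtype.ext (hcomm a.1 a.2 b.1 b.2) }
  haveI : Group.FG Z := (Group.fg_iff_subgroup_fg Z).2 hfg
  haveI : AddGroup.FG (Additive Z) := inferInstance
  obtain ⟨r, ι, _, p, hp, e, ⟨f⟩⟩ := AddCommGroup.equiv_free_prod_directSum_zmod (Additive Z)
  set m : ℕ := ∏ i, p i ^ e i with hm
  have hm0 : 0 < m := Finset.prod_pos (fun i _ => pow_pos (hp i).pos _)
  have hkill : ∀ d : DirectSum ι (fun i => ZMod (p i ^ e i)), m • d = 0 := by
    intro d
    refine DFinsupp.ext (fun i => ?_)
    have h1 : (m • d) i = m • (d i) := rfl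
    rw [h1, nsmul_eq_mul]
    have h2 : ((m : ℕ) : ZMod (p i ^ e i)) = 0 := by
      rw [ZMod.natCast_eq_zero_iff]
      exact Finset.dvd_prod_of_mem _ (Finset.mem_univ i)
    rw [h2, zero_mul]
    rfl
  let g : (Fin r → ℤ) →+ Additive Z :=
    { toFun := fun v => m • f.symm (Finsupp.equivFunOnFinite.symm v, 0)
      map_zero' := by
        have : (Finsupp.equivFunOnFinite.symm (0 : Fin r → ℤ), (0 : DirectSum ι (fun i => ZMod (p i ^ e i))))
            = 0 := by
          ext <;> rfl
        rw [this, map_zero, nsmul_zero]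
      map_add' := by
        intro u v
        rw [← nsmul_add, ← map_add]
        congr 2
        ext <;> simp }
  have hginj : Function.Injective g := by
    rw [injective_iff_map_eq_zero]
    intro v hv
    have h1 : m • f.symm (Finsupp.equivFunOnFinite.symm v, 0) = 0 := hv
    rw [← map_nsmul] at h1
    have h2 := (EmbeddingLike.map_eq_zero_iff).1 h1
    have h3 := congrArg Prod.fst h2
    funext i
    have h4 := DFunLike.congr_fun h3 i
    have h5 : (m : ℤ) * v i = 0 := by
      simpa using h4
    rcases mul_eq_zero.1 h5 with h | h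
    · exfalso; have : m = 0 := by exact_mod_cast h
      omega
    · exact h
  have hgrange : ∀ z : Additive Z, ∃ v, g v = m • z := by
    intro z
    refine ⟨Finsupp.equivFunOnFinite (f z).1, ?_⟩
    show m • f.symm (Finsupp.equivFunOnFinite.symm (Finsupp.equivFunOnFinite (f z).1), 0) = m • z
    rw [Equiv.symm_apply_apply]
    apply f.injective
    rw [map_nsmul, map_nsmul, AddEquiv.apply_symm_apply]
    refine Prod.ext rfl ?_
    show m • (0 : DirectSum ι (fun i => ZMod (p i ^ e i))) = m • (f z).2
    rw [hkill, hkill]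
  let ε : Multiplicative (Fin r → ℤ) →* Q := Z.subtype.comp
    { toFun := fun v => Additive.toMul (g (Multiplicative.toAdd v))
      map_one' := by
        show Additive.toMul (g 0) = 1
        rw [map_zero]; rfl
      map_mul' := fun u v => by
        show Additive.toMul (g (Multiplicative.toAdd u + Multiplicative.toAdd v)) = _
        rw [map_add]; rfl }
  have hε : ∀ v, ε v = ((Additive.toMul (g (Multiplicative.toAdd v)) : Z) : Q) := fun v => rfl
  have hεr : ∀ q : Q, q ∈ ε.range ↔ ∃ z : Z, q = (z : Q) ^ m := by
    intro q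
    constructor
    · rintro ⟨v, rfl⟩
      refine ⟨Additive.toMul (f.symm (Finsupp.equivFunOnFinite.symm (Multiplicative.toAdd v), 0)), ?_⟩
      rw [hε]
      rfl
    · rintro ⟨z, rfl⟩
      obtain ⟨v, hv⟩ := hgrange (Additive.ofMul z)
      refine ⟨Multiplicative.ofAdd v, ?_⟩
      rw [hε]
      show ((Additive.toMul (g v) : Z) : Q) = _
      rw [hv]
      rfl
  refine ⟨r, ε, ?_, ?_, ?_⟩
  · rw [Nat.pos_iff_ne_zero]
    rintro rfl
    have htor : Monoid.IsTorsion Z := by
      intro z
      rw [isOfFinOrder_iff_pow_eq_one]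
      refine ⟨m, hm0, ?_⟩
      obtain ⟨v, hv⟩ := hgrange (Additive.ofMul z)
      have hv0 : v = 0 := Subsingleton.elim _ _
      rw [hv0, map_zero] at hv
      exact hv.symm
    have := CommGroup.finite_of_fg_torsion Z htor
    exact not_finite Z
  · intro u v huv
    rw [hε, hε] at huv
    have h1 := hginj (Additive.toMul.injective (Subtype.ext huv))
    exact Multiplicative.toAdd.injective h1
  · constructor
    intro q hq x
    rw [hεr] at hq ⊢
    obtain ⟨z, rfl⟩ := hq
    refine ⟨⟨x * z * x⁻¹, hZn.conj_mem z z.2 x⟩, ?_⟩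
    show x * (z : Q) ^ m * x⁻¹ = (x * z * x⁻¹) ^ m
    rw [conj_pow]

/-- an infinite polycyclic group has a nontrivial free abelian normal subgroup. -/
theorem plinth_pre {Q : Type} [Group Q] (h : PC Q) (hinf : Infinite Q) :
    ∃ (r : ℕ) (ε : Multiplicative (Fin r → ℤ) →* Q), 0 < r ∧ Function.Injective ε ∧
      ε.range.Normal := by
  classical
  obtain ⟨hsol, hfg⟩ := h
  obtain ⟨n, hn⟩ := hsol
  have hex : ∃ k, Infinite (derivedSeries Q k) ∧ Finite (derivedSeries Q (k + 1)) := by
    by_contra hcon
    push Not at hcon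
    have hall : ∀ k, Infinite (derivedSeries Q k) := by
      intro k
      induction k with
      | zero =>
        rw [derivedSeries_zero]
        exact Infinite.of_injective (fun q : Q => (⟨q, Subgroup.mem_top q⟩ : (⊤ : Subgroup Q)))
          (fun a b hab => congrArg Subtype.val hab)
      | succ k ih =>
        exact hcon k ih
    have := hall n
    rw [hn] at this
    exact not_finite (⊥ : Subgroup Q)
  obtain ⟨k, hk, hk1⟩ := hex
  set N := derivedSeries Q k with hN
  have hNn : N.Normal := derivedSeries_normal Q k
  haveI : Group.FG N := (Group.fg_iff_subgroup_fg N).2 (hfg N)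
  haveI : Finite (commutatorSet N) := by
    have hsub : ∀ x : commutatorSet N, ((x : N) : Q) ∈ derivedSeries Q (k + 1) := by
      rintro ⟨x, a, b, rfl⟩
      rw [derivedSeries_succ]
      exact Subgroup.commutator_mem_commutator a.2 b.2
    exact Finite.of_injective (fun x : commutatorSet N =>
      (⟨((x : N) : Q), hsub x⟩ : derivedSeries Q (k + 1))) (by
        intro a b hab
        have := congrArg Subtype.val hab
        exact Subtype.ext (Subtype.ext this))
  have hfi : (Subgroup.center N).FiniteIndex := inferInstance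
  have hZinf : Infinite (Subgroup.center N) := by
    rw [← not_finite_iff_infinite]
    intro hfin
    have : Finite N := by
      apply Nat.finite_of_card_ne_zero
      rw [← Subgroup.card_mul_index (Subgroup.center N)]
      exact mul_ne_zero Nat.card_pos.ne' hfi.index_ne_zero
    exact not_finite N
  have hZnormal : ((Subgroup.center N).map N.subtype).Normal :=
    ConjAct.normal_of_characteristic_of_normal
  refine plinth_pre_ab ((Subgroup.center N).map N.subtype) hZnormal ?_ (hfg _) ?_
  · rintro a ⟨a', ha', rfl⟩ b ⟨b', hb', rfl⟩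
    rw [← map_mul, ← map_mul]
    congr 1
    exact ((Subgroup.mem_center_iff.1 ha') b').symm
  · exact Infinite.of_injective (fun z : Subgroup.center N =>
      (⟨((z : N) : Q), ⟨z.1, z.2, rfl⟩⟩ : (Subgroup.center N).map N.subtype))
      (fun a b hab => by
        have := congrArg Subtype.val hab
        exact Subtype.ext (Subtype.ext this))

end Pool.Agent.Helper933.HC
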