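import Pool.Agent.Helper933.HC.Defs

set_option autoImplicit false

namespace Pool.Agent.Helper933.HC
open Module


/-- a subgroup of `ℤ^r` is free of rank at most `r`, with equality only for torsion quotient. -/
theorem sub_rank {r : ℕ} (F : AddSubgroup (Fin r → ℤ)) :
    ∃ (s : ℕ) (δ : (Fin s → ℤ) →+ (Fin r → ℤ)), s ≤ r ∧ Function.Injective δ ∧
      (∀ v, v ∈ F ↔ ∃ w, δ w = v) ∧ (s = r → ∀ v, ∃ n : ℕ, 0 < n ∧ n • v ∈ F) ∧
      (F ≠ ⊥ → 0 < s) := by
  let M : Submodule ℤ (Fin r → ℤ) := AddSubgroup.toIntSubmodule F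
  have hM : ∀ v, v ∈ M ↔ v ∈ F := fun v => Iff.rfl
  let b := Module.finBasis ℤ M
  let e := b.equivFun
  refine ⟨finrank ℤ M, (M.subtype ∘ₗ e.symm.toLinearMap).toAddMonoidHom, ?_, ?_, ?_, ?_, ?_⟩
  · have h1 := Submodule.finrank_le M
    rwa [Module.finrank_fin_fun] at h1
  · intro x y h
    have h1 : M.subtype (e.symm x) = M.subtype (e.symm y) := h
    exact e.symm.injective (Subtype.ext h1)
  · intro v
    constructor
    · intro hv
      refine ⟨e ⟨v, (hM v).2 hv⟩, ?_⟩
      change M.subtype (e.symm (e ⟨v, (hM v).2 hv⟩)) = v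
      rw [LinearEquiv.symm_apply_apply]
      rfl
    · rintro ⟨w, rfl⟩
      exact (e.symm w).2
  · intro hs v
    have h1 := Submodule.finrank_quotient_add_finrank M
    rw [Module.finrank_fin_fun, hs] at h1
    have h2 : finrank ℤ ((Fin r → ℤ) ⧸ M) = 0 := by omega
    rw [Module.finrank_eq_zero_iff_isTorsion] at h2
    obtain ⟨a, ha⟩ := h2 (x := Submodule.Quotient.mk v)
    have ha0 : (a : ℤ) ≠ 0 := nonZeroDivisors.coe_ne_zero a
    have h3 : (a : ℤ) • v ∈ M := by
      rw [← Submodule.Quotient.mk_eq_zero, Submodule.Quotient.mk_smul]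
      exact ha
    refine ⟨(a : ℤ).natAbs, Int.natAbs_pos.2 ha0, ?_⟩
    rcases Int.natAbs_eq (a : ℤ) with h | h
    · have : ((a : ℤ).natAbs : ℤ) • v ∈ M := by rw [← h]; exact h3
      rw [natCast_zsmul] at this
      exact this
    · have : ((a : ℤ).natAbs : ℤ) • v ∈ M := by
        have h5 : ((a : ℤ).natAbs : ℤ) = - (a : ℤ) := by omega
        rw [h5, neg_smul]
        exact M.neg_mem h3
      rw [natCast_zsmul] at this
      exact this
  · intro hF
    rw [Module.finrank_pos_iff]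
    by_contra hcon
    rw [not_nontrivial_iff_subsingleton] at hcon
    apply hF
    rw [eq_bot_iff]
    intro x hx
    have := Subsingleton.elim (⟨x, (hM x).2 hx⟩ : M) 0
    have h2 := congrArg Subtype.val this
    simpa using h2

end Pool.Agent.Helper933.HC
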