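import Pool.Agent.Helper933.HC.Defs
import Pool.Agent.Helper933.HC.P_plinth_pre
import Pool.Agent.Helper933.HC.P_sub_rank

set_option autoImplicit false

namespace Pool.Agent.Helper933.HC
open Module


theorem exists_plinth {Q : Type} [Group Q] (h : PC Q) (hinf : Infinite Q) :
    ∃ Q₁ : Subgroup Q, Q₁.index ≠ 0 ∧ ∃ (r : ℕ) (ε : Multiplicative (Fin r → ℤ) →* Q₁),
      Plinth Q₁ r ε := by
  classical
  let P : ℕ → Prop := fun r => 0 < r ∧ ∃ Q₁ : Subgroup Q, Q₁.index ≠ 0 ∧
    ∃ ε : Multiplicative (Fin r → ℤ) →* Q, Function.Injective ε ∧ (∀ v, ε v ∈ Q₁) ∧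
      ∀ g ∈ Q₁, ∀ v, ∃ w, ε w = g * ε v * g⁻¹
  have hP : ∃ r, P r := by
    obtain ⟨r, ε, hr, hinj, hn⟩ := plinth_pre h hinf
    refine ⟨r, hr, ⊤, by simp, ε, hinj, fun v => trivial, ?_⟩
    intro g _ v
    exact hn.conj_mem (ε v) ⟨v, rfl⟩ g
  obtain ⟨hr, Q₁, hQ₁, ε, hinj, hmem, hnorm⟩ := Nat.find_spec hP
  have hmin : ∀ s, P s → Nat.find hP ≤ s := fun s hs => Nat.find_min' hP hs
  generalize Nat.find hP = r at *
  refine ⟨Q₁, hQ₁, r, ε.codRestrict Q₁ hmem, hr, ?_, ?_, ?_⟩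
  · intro a b hab
    exact hinj (congrArg Subtype.val hab)
  · constructor
    rintro _ ⟨v, rfl⟩ g
    obtain ⟨w, hw⟩ := hnorm g g.2 v
    exact ⟨w, Subtype.ext hw⟩
  · intro H hH F hF hinv
    obtain ⟨s, δ, hsr, hδ, hFδ, hs1, hs2⟩ := sub_rank F
    rcases hsr.lt_or_eq with hlt | heq
    · exfalso
      -- the subgroup `ε F`
      let EF : Subgroup Q := (AddSubgroup.toSubgroup F).map ε
      have hEF : ∀ q : Q, q ∈ EF ↔ ∃ v ∈ F, ε (Multiplicative.ofAdd v) = q := by
        intro q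
        constructor
        · rintro ⟨v, hv, rfl⟩
          exact ⟨Multiplicative.toAdd v, hv, rfl⟩
        · rintro ⟨v, hv, rfl⟩
          exact ⟨Multiplicative.ofAdd v, hv, rfl⟩
      let Q₂ : Subgroup Q := Q₁ ⊓ Subgroup.normalizer (EF : Set Q)
      have hHQ : H.map Q₁.subtype ≤ Q₂ := by
        rintro _ ⟨g, hg, rfl⟩
        refine ⟨g.2, ?_⟩
        have key : ∀ g ∈ H, ∀ q ∈ EF, (g : Q) * q * (g : Q)⁻¹ ∈ EF := by
          intro g hg q hq
          obtain ⟨v, hv, rfl⟩ := (hEF q).1 hq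
          obtain ⟨w, hw, he⟩ := hinv g hg v hv
          rw [hEF]
          exact ⟨w, hw, (congrArg Subtype.val he).symm⟩
        show (g : Q) ∈ Subgroup.normalizer (EF : Set Q)
        rw [Subgroup.mem_normalizer_iff]
        intro q
        constructor
        · exact key g hg q
        · intro hq
          have := key g⁻¹ (H.inv_mem hg) _ hq
          have e : ((g⁻¹ : Q₁) : Q) * ((g : Q) * q * (g : Q)⁻¹) * ((g⁻¹ : Q₁) : Q)⁻¹ = q := by
            rw [Subgroup.coe_inv]; group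
          rwa [e] at this
      have hQ₂ : Q₂.index ≠ 0 := by
        intro h0
        have h1 := Subgroup.index_dvd_of_le hHQ
        rw [h0, Subgroup.index_map_subtype] at h1
        exact (mul_ne_zero hH hQ₁) (zero_dvd_iff.1 h1)
      have hle : EF ≤ Q₂ := by
        intro q hq
        refine ⟨?_, Subgroup.le_normalizer hq⟩
        obtain ⟨v, hv, rfl⟩ := (hEF q).1 hq
        exact hmem _
      let ε' : Multiplicative (Fin s → ℤ) →* Q := ε.comp (AddMonoidHom.toMultiplicative δ)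
      have hε' : ∀ v : Fin s → ℤ, ε' (Multiplicative.ofAdd v) = ε (Multiplicative.ofAdd (δ v)) :=
        fun v => rfl
      have hPs : P s := by
        refine ⟨hs2 hF, Q₂, hQ₂, ε', ?_, ?_, ?_⟩
        · intro a b hab
          have h1 := hinj hab
          exact hδ h1
        · intro v
          apply hle
          rw [hEF]
          exact ⟨δ (Multiplicative.toAdd v), (hFδ _).2 ⟨_, rfl⟩, rfl⟩
        · intro g hg v
          have hv : ε' v ∈ EF := by
            rw [hEF]
            exact ⟨δ (Multiplicative.toAdd v), (hFδ _).2 ⟨_, rfl⟩, rfl⟩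
          have h2 := (Subgroup.mem_normalizer_iff.1 hg.2 (ε' v)).1 hv
          obtain ⟨w, hw, he⟩ := (hEF _).1 h2
          obtain ⟨w', rfl⟩ := (hFδ w).1 hw
          exact ⟨Multiplicative.ofAdd w', he⟩
      exact absurd (hmin s hPs) (not_le.2 hlt)
    · exact hs1 heq

end Pool.Agent.Helper933.HC
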