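import Pool.Agent.Helper933.HC.Defs

set_option autoImplicit false

namespace Pool.Agent.Helper933.HC
open Module


theorem fg_index {K G A : Type} [DivisionRing K] [Group G] [AddCommGroup A] [Module K A]
    [DistribMulAction G A] (H : Subgroup G) (hH : H.index ≠ 0) (S : Finset A)
    (hS : Submodule.span K {y : A | ∃ g : G, ∃ s ∈ S, y = g • s} = ⊤) :
    ∃ S' : Finset A, Submodule.span K {y : A | ∃ g : H, ∃ s ∈ S', y = (g : G) • s} = ⊤ := by
  classical
  haveI : H.FiniteIndex := ⟨hH⟩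
  haveI : Finite (G ⧸ H) := inferInstance
  haveI : Fintype (G ⧸ H) := Fintype.ofFinite _
  refine ⟨(Finset.univ ×ˢ S).image (fun q : (G ⧸ H) × A => (q.1.out)⁻¹ • q.2), ?_⟩
  rw [eq_top_iff, ← hS]
  apply Submodule.span_mono
  rintro y ⟨g, s, hs, rfl⟩
  obtain ⟨h, hh⟩ := QuotientGroup.mk_out_eq_mul H g⁻¹
  refine ⟨h, ((QuotientGroup.mk g⁻¹ : G ⧸ H).out)⁻¹ • s, ?_, ?_⟩
  · rw [Finset.mem_image]
    exact ⟨(QuotientGroup.mk g⁻¹, s), Finset.mem_product.mpr ⟨Finset.mem_univ _, hs⟩, rfl⟩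
  · rw [hh, smul_smul]
    congr 1
    group

end Pool.Agent.Helper933.HC
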