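import Pool.Agent.Helper933.HC.Defs
import Pool.Agent.Helper933.HC.P_stable_pow
import Pool.Agent.Helper933.HC.P_bdd_pow
import Pool.Agent.Helper933.HC.P_fg_index

set_option autoImplicit false

namespace Pool.Agent.Helper933.HC
open Module


theorem fin_indexS {Q : Type} [Group Q] (Q₁ : Subgroup Q) (hQ₁ : Q₁.index ≠ 0)
    (hMain : MainS Q₁) : MainS Q := by
  intro K G A _ _ _ _ _ ρ hρ hS
  set G1 : Subgroup G := Q₁.comap ρ with hG1
  have hidx : G1.index ≠ 0 := by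
    rw [hG1, Subgroup.index_comap_of_surjective Q₁ hρ]
    exact hQ₁
  let ρ1 : G1 →* Q₁ := ρ.subgroupComap Q₁
  have hρ1 : Function.Surjective ρ1 := by
    rintro ⟨q, hq⟩
    obtain ⟨g, rfl⟩ := hρ q
    exact ⟨⟨g, hq⟩, rfl⟩
  have hS1 : Sys K G1 A Q₁ ρ1 := by
    refine ⟨fun g => ?_, fun g hg => ?_, ?_⟩
    · obtain ⟨σ, hσ⟩ := hS.semi (g : G)
      exact ⟨σ, fun k x => hσ k x⟩
    · have h1 : ρ (g : G) = 1 := congrArg Subtype.val hg
      obtain ⟨c, hc⟩ := hS.scal (g : G) h1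
      exact ⟨c, fun a => hc a⟩
    · obtain ⟨S, hS0⟩ := hS.fg
      obtain ⟨S', hS'⟩ := fg_index G1 hidx S hS0
      exact ⟨S', hS'⟩
  obtain ⟨l, d, hld⟩ := hMain K G1 A ρ1 hρ1 hS1
  refine ⟨l, G1.index.factorial * d, fun g W hW hst => ?_⟩
  have hg : g ^ G1.index.factorial ∈ G1 :=
    Subgroup.pow_mem_of_index_ne_zero_of_dvd hidx g (fun m hm hm' => Nat.dvd_factorial hm hm')
  have hu' : ∀ x : A, (ac (⟨g ^ G1.index.factorial, hg⟩ : G1) : A ≃+ A) x
      = (⇑(ac g : A ≃+ A))^[G1.index.factorial] x := by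
    intro x
    have h1 : (⇑(ac g : A ≃+ A))^[G1.index.factorial] = (g ^ G1.index.factorial • · ) :=
      smul_iterate g G1.index.factorial
    rw [h1]
    rfl
  have hst' : Stable (ac (⟨g ^ G1.index.factorial, hg⟩ : G1) : A ≃+ A) W :=
    stable_pow hst _ hu'
  exact bdd_pow (hS.semi g) hst (Nat.factorial_pos _) hu' (hld _ W hW hst')

end Pool.Agent.Helper933.HC
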