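import Pool.Agent.Helper933.HC.Defs
import Pool.Agent.Helper933.HC.P_poly_ind

set_option autoImplicit false

namespace Pool.Agent.Helper933.HC
open Module


theorem pow_bound_cyc {Q : Type} [Group Q] (R P : Subgroup Q) (t : Q) (ht : t ∈ P)
    (hR : R ≤ P) (hn : ∀ x ∈ P, ∀ r ∈ R, x * r * x⁻¹ ∈ R)
    (hc : ∀ x ∈ P, ∃ k : ℤ, t ^ (-k) * x ∈ R) (X : Subgroup Q) (hX : X ≤ P) :
    ∃ x1 ∈ X, ∀ x ∈ X, ∃ j : ℤ, (x1 ^ j)⁻¹ * x ∈ R := by
  haveI hN : (R.subgroupOf P).Normal := by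
    constructor
    intro n hnR g
    exact hn g.1 g.2 n.1 hnR
  haveI : IsCyclic (P ⧸ R.subgroupOf P) := by
    refine ⟨⟨QuotientGroup.mk' _ ⟨t, ht⟩, ?_⟩⟩
    intro q
    obtain ⟨x, rfl⟩ := QuotientGroup.mk'_surjective _ q
    obtain ⟨k, hk⟩ := hc x.1 x.2
    refine ⟨k, ?_⟩
    show (QuotientGroup.mk' (R.subgroupOf P) ⟨t, ht⟩) ^ k = _
    rw [← map_zpow, QuotientGroup.mk'_apply, QuotientGroup.mk'_apply, QuotientGroup.eq]
    rw [Subgroup.mem_subgroupOf]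
    simpa [zpow_neg] using hk
  obtain ⟨g, hg⟩ := IsCyclic.exists_generator
    (α := (X.subgroupOf P).map (QuotientGroup.mk' (R.subgroupOf P)))
  obtain ⟨x1, hx1, hx1g⟩ := g.2
  refine ⟨x1.1, hx1, ?_⟩
  intro x hx
  have hmem : QuotientGroup.mk' (R.subgroupOf P) ⟨x, hX hx⟩ ∈
      (X.subgroupOf P).map (QuotientGroup.mk' (R.subgroupOf P)) := ⟨⟨x, hX hx⟩, hx, rfl⟩
  obtain ⟨j, hj⟩ := hg ⟨_, hmem⟩
  refine ⟨j, ?_⟩
  have hj' := congrArg Subtype.val hj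
  simp only [Subgroup.coe_zpow] at hj'
  rw [← hx1g, ← map_zpow, QuotientGroup.mk'_apply, QuotientGroup.mk'_apply,
    QuotientGroup.eq, Subgroup.mem_subgroupOf] at hj'
  simpa using hj'

theorem pow_bound_step {Q : Type} [Group Q] (e : ℕ) (he : 0 < e) (R P : Subgroup Q) (t : Q)
    (hRP : R ≤ P) (ht : t ∈ P) (hR : ∀ x, x ∈ R ↔ t * x * t⁻¹ ∈ R)
    (hc : ∀ x ∈ P, ∃ k : ℤ, t ^ (-k) * x ∈ R) (N : ℕ)
    (hN : ∀ Y X : Subgroup Q, Y ≤ X → X ≤ R → (∀ x ∈ X, x ^ e ∈ Y) →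
      Y.relIndex X ≠ 0 ∧ Y.relIndex X ≤ N) :
    ∀ Y X : Subgroup Q, Y ≤ X → X ≤ P → (∀ x ∈ X, x ^ e ∈ Y) →
      Y.relIndex X ≠ 0 ∧ Y.relIndex X ≤ e * N := by
  have hn : ∀ x ∈ P, ∀ r ∈ R, x * r * x⁻¹ ∈ R := by
    have h1 : ∀ k : ℕ, ∀ r, r ∈ R ↔ t ^ k * r * (t ^ k)⁻¹ ∈ R := by
      intro k
      induction k with
      | zero => intro r; simp
      | succ k ih =>
        intro r
        rw [ih r, hR]
        have : t * (t ^ k * r * (t ^ k)⁻¹) * t⁻¹ = t ^ (k + 1) * r * (t ^ (k + 1))⁻¹ := by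
          rw [pow_succ']
          group
        rw [this]
    have h2 : ∀ k : ℤ, ∀ r ∈ R, t ^ k * r * (t ^ k)⁻¹ ∈ R := by
      intro k r hr
      obtain ⟨n, rfl | rfl⟩ := k.eq_nat_or_neg
      · rw [zpow_natCast]
        exact (h1 n r).1 hr
      · rw [zpow_neg, zpow_natCast, inv_inv]
        rw [h1 n]
        have : t ^ n * ((t ^ n)⁻¹ * r * t ^ n) * (t ^ n)⁻¹ = r := by group
        rw [this]
        exact hr
    intro x hx r hr
    obtain ⟨k, hk⟩ := hc x hx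
    have h3 := h2 k _ (R.mul_mem (R.mul_mem hk hr) (R.inv_mem hk))
    have : t ^ k * (t ^ (-k) * x * r * (t ^ (-k) * x)⁻¹) * (t ^ k)⁻¹ = x * r * x⁻¹ := by group
    rwa [this] at h3
  intro Y X hYX hX hpow
  obtain ⟨x1, hx1, hgen⟩ := pow_bound_cyc R P t ht hRP hn hc X hX
  obtain ⟨g0, g1⟩ := hN (Y ⊓ R) (X ⊓ R) (inf_le_inf_right R hYX) inf_le_right
    (fun x hx => ⟨hpow x hx.1, R.pow_mem hx.2 e⟩)
  let A : Type := ↥(X ⊓ R) ⧸ (Y ⊓ R).subgroupOf (X ⊓ R)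
  let F : Fin e × A → ↥X ⧸ Y.subgroupOf X := fun p =>
    QuotientGroup.mk ⟨x1 ^ (p.1 : ℕ) * (Quotient.out p.2 : ↥(X ⊓ R)).1,
      X.mul_mem (X.pow_mem hx1 _) (Quotient.out p.2 : ↥(X ⊓ R)).2.1⟩
  have hsurj : Function.Surjective F := by
    intro q
    obtain ⟨x, rfl⟩ := QuotientGroup.mk_surjective q
    obtain ⟨j, hj⟩ := hgen x.1 x.2
    have he' : (0 : ℤ) < e := by exact_mod_cast he
    have hj1 : 0 ≤ j % e := Int.emod_nonneg _ he'.ne'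
    have hj2 : j % e < e := Int.emod_lt_of_pos _ he'
    have hyY : (x1 ^ e) ^ (j / e) ∈ Y := Y.zpow_mem (hpow x1 hx1) _
    have hxr : x1 ^ j = x1 ^ (j % e).toNat * (x1 ^ e) ^ (j / e) := by
      rw [← zpow_natCast x1 (j % e).toNat, Int.toNat_of_nonneg hj1, ← zpow_natCast x1 e,
        ← zpow_mul, ← zpow_add]
      congr 1
      have := Int.emod_add_mul_ediv j e
      linarith
    set y := (x1 ^ e) ^ (j / e) with hy
    set r := (x1 ^ j)⁻¹ * x.1 with hr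
    have hrX : r ∈ X := X.mul_mem (X.inv_mem (X.zpow_mem hx1 _)) x.2
    have hr'R : y * r * y⁻¹ ∈ R := hn y (hX (hYX hyY)) r hj
    have hr'X : y * r * y⁻¹ ∈ X := X.mul_mem (X.mul_mem (hYX hyY) hrX) (X.inv_mem (hYX hyY))
    let r' : ↥(X ⊓ R) := ⟨y * r * y⁻¹, hr'X, hr'R⟩
    obtain ⟨h, hh⟩ := QuotientGroup.mk_out_eq_mul ((Y ⊓ R).subgroupOf (X ⊓ R)) r'
    have hhY : (h : ↥(X ⊓ R)).1 ∈ Y := by
      have := h.2
      rw [Subgroup.mem_subgroupOf] at this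
      exact this.1
    refine ⟨(⟨(j % e).toNat, by omega⟩, QuotientGroup.mk r'), ?_⟩
    show (QuotientGroup.mk _ : ↥X ⧸ Y.subgroupOf X) = QuotientGroup.mk x
    rw [QuotientGroup.eq, Subgroup.mem_subgroupOf]
    have hx : x.1 = x1 ^ (j % e).toNat * (y * r * y⁻¹) * y := by
      have : x.1 = x1 ^ j * r := by rw [hr]; group
      rw [this, hxr]
      group
    have hout : (Quotient.out (QuotientGroup.mk r' : A) : ↥(X ⊓ R)).1 =
        (y * r * y⁻¹) * (h : ↥(X ⊓ R)).1 := congrArg Subtype.val hh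
    have hgoal : (x1 ^ (j % e).toNat * (Quotient.out (QuotientGroup.mk r' : A) : ↥(X ⊓ R)).1)⁻¹ *
        x.1 ∈ Y := by
      rw [hout, hx]
      have : (x1 ^ (j % e).toNat * (y * r * y⁻¹ * (h : ↥(X ⊓ R)).1))⁻¹ *
          (x1 ^ (j % e).toNat * (y * r * y⁻¹) * y) = ((h : ↥(X ⊓ R)).1)⁻¹ * y := by group
      rw [this]
      exact Y.mul_mem (Y.inv_mem hhY) hyY
    exact hgoal
  have hA : Nat.card A = (Y ⊓ R).relIndex (X ⊓ R) := rfl
  haveI : Finite A := Nat.finite_of_card_ne_zero (by rw [hA]; exact g0)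
  haveI : Finite (↥X ⧸ Y.subgroupOf X) := Finite.of_surjective F hsurj
  have hcard : Nat.card (↥X ⧸ Y.subgroupOf X) = Y.relIndex X := rfl
  refine ⟨?_, ?_⟩
  · rw [← hcard]
    exact Nat.card_pos.ne'
  · rw [← hcard]
    refine (Nat.card_le_card_of_surjective F hsurj).trans ?_
    rw [Nat.card_prod, Nat.card_fin, hA]
    exact Nat.mul_le_mul_left e g1

/-- subgroups containing all `e`-th powers have bounded index. -/
theorem pow_bound {Q : Type} [Group Q] (h : PC Q) (e : ℕ) (he : 0 < e) :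
    ∃ N : ℕ, ∀ Y X : Subgroup Q, Y ≤ X → (∀ x ∈ X, x ^ e ∈ Y) →
      Y.relIndex X ≠ 0 ∧ Y.relIndex X ≤ N := by
  have key := poly_ind h (fun R => ∃ N : ℕ, ∀ Y X : Subgroup Q, Y ≤ X → X ≤ R →
    (∀ x ∈ X, x ^ e ∈ Y) → Y.relIndex X ≠ 0 ∧ Y.relIndex X ≤ N) ?_ ?_
  · obtain ⟨N, hN⟩ := key
    exact ⟨N, fun Y X h1 h2 => hN Y X h1 le_top h2⟩
  · refine ⟨1, ?_⟩
    intro Y X hYX hX _
    have hX' : X = ⊥ := le_bot_iff.1 hX
    have hY' : Y = ⊥ := le_bot_iff.1 (hYX.trans hX)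
    rw [hX', hY', Subgroup.relIndex_self]
    exact ⟨one_ne_zero, le_refl _⟩
  · rintro R P t hRP ht hR hc ⟨N, hN⟩
    exact ⟨e * N, pow_bound_step e he R P t hRP ht hR hc N hN⟩

end Pool.Agent.Helper933.HC
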