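import Pool.Agent.Helper933.HC.Defs
import Pool.Agent.Helper933.HC.P_hl_exists
import Pool.Agent.Helper933.HC.P_pow_bound
import Pool.Agent.Helper933.HC.P_cnt

set_option autoImplicit false

namespace Pool.Agent.Helper933.HC
open Module


/-- chains of fixed point subgroups in an eremitic module have bounded length. -/
theorem fix_chain {Q M : Type} [Group Q] [AddCommGroup M] [DistribMulAction Q M] (hQ : PC Q)
    (e : ℕ) (he : 0 < e)
    (hE : ∀ (x : Q) (n : ℕ) (a : M), 0 < n → x ^ n • a = a → x ^ e • a = a) :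
    ∃ m : ℕ, ∀ (n : ℕ) (X : ℕ → Set Q),
      (∀ i < n, ∀ a : M, (∀ x ∈ X i, x • a = a) → ∀ x ∈ X (i + 1), x • a = a) →
      {i : ℕ | i < n ∧ ∃ a : M, (∀ x ∈ X (i + 1), x • a = a) ∧ ¬ ∀ x ∈ X i, x • a = a}.ncard
        ≤ m := by
  obtain ⟨h, hl⟩ := hl_exists hQ
  obtain ⟨N, hN⟩ := pow_bound hQ e he
  refine ⟨((∅ : Finset ℕ).card + h + 1) * (N + 1), ?_⟩
  intro n X hX
  let K : ℕ → Subgroup Q := fun i =>
    { carrier := {q | ∀ a : M, (∀ x ∈ X i, x • a = a) → q • a = a}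
      mul_mem' := by
        intro p q hp hq a ha
        rw [mul_smul, hq a ha, hp a ha]
      one_mem' := by
        intro a _
        exact one_smul Q a
      inv_mem' := by
        intro q hq a ha
        have := hq a ha
        rw [inv_smul_eq_iff]
        exact this.symm }
  have hmem : ∀ i q, q ∈ K i ↔ ∀ a : M, (∀ x ∈ X i, x • a = a) → q • a = a := fun i q => Iff.rfl
  have hXK : ∀ i, ∀ x ∈ X i, x ∈ K i := by
    intro i x hx
    rw [hmem]
    intro a ha
    exact ha x hx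
  have hK : ∀ i < n, K (i + 1) ≤ K i := by
    intro i hi q hq
    rw [hmem] at hq ⊢
    intro a ha
    exact hq a (hX i hi a ha)
  have hB : ∀ i j, i ≤ j → j ≤ n → (∀ b ∈ (∅ : Finset ℕ), ¬ (i ≤ b ∧ b < j)) →
      (K j).relIndex (K i) ≠ 0 → ∀ x ∈ K i, x ^ e ∈ K j := by
    intro i j _ _ _ hrel x hx
    obtain ⟨k, hk, -, hxk⟩ := Subgroup.exists_pow_mem_of_relIndex_ne_zero hrel hx
    have hxk' : x ^ k ∈ K j := hxk.1
    rw [hmem] at hxk' ⊢
    intro a ha
    exact hE x k a hk (hxk' a ha)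
  have hc := cnt hl hN n K hK ∅ hB
  refine le_trans (Set.ncard_le_ncard ?_ ?_) hc
  · rintro i ⟨hi, a, ha1, ha2⟩
    refine ⟨hi, by simp, ?_⟩
    intro hKK
    apply ha2
    intro x hx
    have hx1 : x ∈ K (i + 1) := by
      rw [hKK]
      exact hXK i x hx
    exact (hmem (i + 1) x).1 hx1 a ha1
  · exact (Set.finite_lt_nat n).subset (fun i hi => hi.1)

end Pool.Agent.Helper933.HC
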