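import Pool.Agent.Helper933.HC.Defs
import Pool.Agent.Helper933.HC.P_mem_gm
import Pool.Agent.Helper933.HC.P_gm_basic

set_option autoImplicit false

namespace Pool.Agent.Helper933.HC
open Module


theorem gm_sSup {K G A : Type} [DivisionRing K] [Group G] [AddCommGroup A] [Module K A]
    [DistribMulAction G A] (hsemi : ∀ g : G, Semi K (ac g : A ≃+ A)) (𝒞 : Set (Submodule K A))
    (g : G) : (gm g (sSup 𝒞) : Submodule K A) = sSup {V | ∃ W ∈ 𝒞, V = gm g W} := by
  have hmono : ∀ (h : G) (V W : Submodule K A), V ≤ W →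
      (gm h V : Submodule K A) ≤ gm h W := fun h V W hVW =>
    (gm_basic hsemi V W h 1).2.2.1.1 hVW
  have hinv : ∀ (h : G) (V : Submodule K A), (gm h⁻¹ (gm h V) : Submodule K A) = V := by
    intro h V
    have h1 := (gm_basic hsemi V V h⁻¹ h).2.1
    have h2 := (gm_basic hsemi V V 1 1).1
    rw [← h1, inv_mul_cancel, h2]
  have hinv' : ∀ (h : G) (V : Submodule K A), (gm h (gm h⁻¹ V) : Submodule K A) = V := by
    intro h V
    have h1 := (gm_basic hsemi V V h h⁻¹).2.1
    have h2 := (gm_basic hsemi V V 1 1).1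
    rw [← h1, mul_inv_cancel, h2]
  apply le_antisymm
  · have h1 : sSup 𝒞 ≤ gm g⁻¹ (sSup {V | ∃ W ∈ 𝒞, V = gm g W}) := by
      refine sSup_le (fun W hW => ?_)
      rw [← hinv g W]
      exact hmono g⁻¹ _ _ (le_sSup ⟨W, hW, rfl⟩)
    have h2 := hmono g _ _ h1
    rwa [hinv'] at h2
  · refine sSup_le ?_
    rintro V ⟨W, hW, rfl⟩
    exact hmono g _ _ (le_sSup hW)

end Pool.Agent.Helper933.HC
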