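import Pool.Agent.Helper933.HC.Defs
import Pool.Agent.Helper933.HC.P_crit_sub
import Pool.Agent.Helper933.HC.P_sim_symm

set_option autoImplicit false

namespace Pool.Agent.Helper933.HC
open Module


theorem st_sup_18908 {K G A : Type} [DivisionRing K] [Group G] [AddCommGroup A] [Module K A]
    [DistribMulAction G A] {N : Subgroup G} {B C : Submodule K A} (hB : St N B) (hC : St N C) :
    St N (B ⊔ C) := by
  intro g hg x hx
  obtain ⟨b, hb, c, hc, rfl⟩ := Submodule.mem_sup.1 hx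
  rw [smul_add]
  exact Submodule.add_mem_sup (hB g hg b hb) (hC g hg c hc)

theorem st_inf_18908 {K G A : Type} [DivisionRing K] [Group G] [AddCommGroup A] [Module K A]
    [DistribMulAction G A] {N : Subgroup G} {B C : Submodule K A} (hB : St N B) (hC : St N C) :
    St N (B ⊓ C) := fun g hg x hx => ⟨hB g hg x hx.1, hC g hg x hx.2⟩

theorem st_fsup_18908 {K G A : Type} [DivisionRing K] [Group G] [AddCommGroup A] [Module K A]
    [DistribMulAction G A] {N : Subgroup G} (F : Finset (Submodule K A)) (h : ∀ V ∈ F, St N V) :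
    St N (F.sup id) := by
  classical
  induction F using Finset.induction_on with
  | empty =>
    intro g _ x hx
    rw [Finset.sup_empty, Submodule.mem_bot] at hx ⊢
    rw [hx, smul_zero]
  | insert V F _ ih =>
    rw [Finset.sup_insert]
    exact st_sup_18908 (h V (Finset.mem_insert_self _ _))
      (ih fun W hW => h W (Finset.mem_insert_of_mem hW))

/-- projection to `P` along `S` -/
theorem proj_18908 {K G A : Type} [DivisionRing K] [Group G] [AddCommGroup A] [Module K A]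
    [DistribMulAction G A] (N : Subgroup G) (P Q S : Submodule K A) (hPS : P ⊓ S = ⊥)
    (hQ : Q ≤ P ⊔ S) (hP : St N P) (hS : St N S) :
    ∃ π : Q →ₗ[K] A, (∀ q : Q, π q ∈ P ∧ (q : A) - π q ∈ S) ∧ Equi N π := by
  have hex : ∀ q : Q, ∃ p : A, p ∈ P ∧ (q : A) - p ∈ S := by
    intro q
    obtain ⟨p, hp, s, hs, h⟩ := Submodule.mem_sup.1 (hQ q.2)
    refine ⟨p, hp, ?_⟩
    rw [← h, add_sub_cancel_left]
    exact hs
  choose φ hφP hφS using hex
  have uniq : ∀ (q : Q) (p : A), p ∈ P → (q : A) - p ∈ S → φ q = p := by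
    intro q p hp hs
    have h1 : φ q - p ∈ P ⊓ S := by
      refine ⟨P.sub_mem (hφP q) hp, ?_⟩
      have : φ q - p = ((q : A) - p) - ((q : A) - φ q) := by abel
      rw [this]
      exact S.sub_mem hs (hφS q)
    rw [hPS, Submodule.mem_bot] at h1
    exact sub_eq_zero.1 h1
  refine ⟨{ toFun := φ, map_add' := ?_, map_smul' := ?_ }, fun q => ⟨hφP q, hφS q⟩, ?_⟩
  · intro a b
    refine uniq _ _ (P.add_mem (hφP a) (hφP b)) ?_
    have : ((a + b : Q) : A) - (φ a + φ b) = ((a : A) - φ a) + ((b : A) - φ b) := by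
      rw [Submodule.coe_add]; abel
    rw [this]
    exact S.add_mem (hφS a) (hφS b)
  · intro c a
    refine uniq _ _ (P.smul_mem c (hφP a)) ?_
    have : ((c • a : Q) : A) - c • φ a = c • ((a : A) - φ a) := by
      rw [Submodule.coe_smul, smul_sub]
    show ((c • a : Q) : A) - c • φ a ∈ S
    rw [this]
    exact S.smul_mem c (hφS a)
  · intro g hg x y hxy
    refine uniq _ _ (hP g hg _ (hφP x)) ?_
    show (y : A) - g • φ x ∈ S
    rw [hxy, ← smul_sub]
    exact hS g hg _ (hφS x)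

theorem crit_tr_18908 {K G A : Type} [DivisionRing K] [Group G] [AddCommGroup A] [Module K A]
    [DistribMulAction G A] (N : Subgroup G) {V Z : Submodule K A} (hV : Crit N V) (hZ0 : Z ≠ ⊥)
    (hZs : St N Z) (ψ : Z →ₗ[K] A) (hψ : Equi N ψ) (hinj : Function.Injective ψ)
    (hval : ∀ z, ψ z ∈ V) : Crit N Z := by
  refine ⟨hZ0, hZs, fun W hW hWs f hf hf0 => ?_⟩
  have hcinj : Function.Injective (ψ.comp (Submodule.inclusion hW)) := by
    rw [LinearMap.coe_comp]
    exact hinj.comp (Submodule.inclusion_injective hW)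
  set e := LinearEquiv.ofInjective (ψ.comp (Submodule.inclusion hW)) hcinj with he
  have he1 : ∀ w : W, ((e w : LinearMap.range (ψ.comp (Submodule.inclusion hW))) : A) =
      ψ (Submodule.inclusion hW w) := fun w => rfl
  have he2 : ∀ x : LinearMap.range (ψ.comp (Submodule.inclusion hW)),
      ψ (Submodule.inclusion hW (e.symm x)) = (x : A) := fun x => by
    rw [← he1, LinearEquiv.apply_symm_apply]
  -- acting on W
  have hact : ∀ g ∈ N, ∀ w : W, ∃ w' : W, (w' : A) = g • (w : A) :=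
    fun g hg w => ⟨⟨g • (w : A), hWs g hg _ w.2⟩, rfl⟩
  have hψact : ∀ g ∈ N, ∀ w w' : W, (w' : A) = g • (w : A) →
      ψ (Submodule.inclusion hW w') = g • ψ (Submodule.inclusion hW w) := fun g hg w w' h =>
    hψ g hg (Submodule.inclusion hW w) (Submodule.inclusion hW w') h
  have hle : LinearMap.range (ψ.comp (Submodule.inclusion hW)) ≤ V := by
    rintro _ ⟨w, rfl⟩
    exact hval _
  have hst : St N (LinearMap.range (ψ.comp (Submodule.inclusion hW))) := by
    rintro g hg _ ⟨w, rfl⟩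
    obtain ⟨w', hw'⟩ := hact g hg w
    exact ⟨w', hψact g hg w w' hw'⟩
  have hequi : Equi N (f.comp e.symm.toLinearMap) := by
    intro g hg x y hxy
    show f (e.symm y) = g • f (e.symm x)
    apply hf g hg
    obtain ⟨w', hw'⟩ := hact g hg (e.symm x)
    have h1 := hψact g hg _ _ hw'
    rw [he2, ← hxy, ← he2 y] at h1
    have h2 := Submodule.inclusion_injective hW (hinj h1)
    rw [← h2]
    exact hw'
  have hne : f.comp e.symm.toLinearMap ≠ 0 := by
    intro h
    apply hf0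
    ext w
    have := LinearMap.congr_fun h (e w)
    simpa using this
  have hfin := hV.2.2 _ hle hst _ hequi hne
  intro a b hab
  have : (f.comp e.symm.toLinearMap) (e a) = (f.comp e.symm.toLinearMap) (e b) := by
    simpa using hab
  exact e.injective (hfin this)

theorem step_18908 {K G A : Type} [DivisionRing K] [Group G] [AddCommGroup A] [Module K A]
    [DistribMulAction G A] (N : Subgroup G) {V S Z : Submodule K A} (hV : Crit N V) (hS : St N S)
    (hZ0 : Z ≠ ⊥) (hZs : St N Z) (hZ : Z ≤ V ⊔ S) (hZS : Z ⊓ S = ⊥) : Crit N Z ∧ Sim N Z V := by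
  have hVS : V ⊓ S = ⊥ := by
    obtain ⟨Φ, hΦ, hΦe⟩ := proj_18908 N Z (V ⊓ (Z ⊔ S)) S hZS inf_le_right hZs hS
    have hne : Φ ≠ 0 := by
      obtain ⟨z, hz, hz0⟩ := (Submodule.ne_bot_iff _).1 hZ0
      obtain ⟨v, hv, s, hs, h⟩ := Submodule.mem_sup.1 (hZ hz)
      have hv2 : v ∈ V ⊓ (Z ⊔ S) := by
        refine ⟨hv, ?_⟩
        have : v = z + -s := by rw [← h]; abel
        rw [this]
        exact Submodule.add_mem_sup hz (S.neg_mem hs)
      intro h0
      have h1 := hΦ ⟨v, hv2⟩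
      rw [h0, LinearMap.zero_apply, sub_zero] at h1
      have h2 : z ∈ Z ⊓ S := ⟨hz, by rw [← h]; exact S.add_mem h1.2 hs⟩
      rw [hZS, Submodule.mem_bot] at h2
      exact hz0 h2
    have hinj := hV.2.2 _ inf_le_left (st_inf_18908 hV.2.1 (st_sup_18908 hZs hS)) Φ hΦe hne
    rw [eq_bot_iff]
    intro v hv
    have hv2 : v ∈ V ⊓ (Z ⊔ S) := ⟨hv.1, (le_sup_right : S ≤ Z ⊔ S) hv.2⟩
    have h1 := hΦ ⟨v, hv2⟩
    have h2 : Φ ⟨v, hv2⟩ ∈ Z ⊓ S := by
      refine ⟨h1.1, ?_⟩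
      have : Φ ⟨v, hv2⟩ = v - (v - Φ ⟨v, hv2⟩) := by abel
      rw [this]
      exact S.sub_mem hv.2 h1.2
    rw [hZS, Submodule.mem_bot] at h2
    have h3 : (⟨v, hv2⟩ : (V ⊓ (Z ⊔ S) : Submodule K A)) = 0 := hinj (by rw [h2, map_zero])
    rw [Submodule.mem_bot]
    exact congrArg Subtype.val h3
  obtain ⟨π, hπ, hπe⟩ := proj_18908 N V Z S hVS hZ hV.2.1 hS
  have hinj : Function.Injective π := by
    rw [← LinearMap.ker_eq_bot, LinearMap.ker_eq_bot']
    intro z hz
    have h1 := (hπ z).2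
    rw [hz, sub_zero] at h1
    have h2 : (z : A) ∈ Z ⊓ S := ⟨z.2, h1⟩
    rw [hZS, Submodule.mem_bot] at h2
    exact Subtype.ext h2
  refine ⟨crit_tr_18908 N hV hZ0 hZs π hπe hinj fun z => (hπ z).1, Z, le_rfl, hZs, π, hπe, ?_,
    fun z => (hπ z).1⟩
  intro h0
  obtain ⟨z, hz, hz0⟩ := (Submodule.ne_bot_iff _).1 hZ0
  apply hz0
  have : (⟨z, hz⟩ : Z) = 0 := hinj (by rw [h0]; simp)
  exact congrArg Subtype.val this

theorem fin_18908 {K G A : Type} [DivisionRing K] [Group G] [AddCommGroup A] [Module K A]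
    [DistribMulAction G A] (N : Subgroup G) (F : Finset (Submodule K A)) (hF : ∀ V ∈ F, Crit N V) :
    ∀ Z : Submodule K A, Z ≠ ⊥ → St N Z → Z ≤ F.sup id →
      ∃ V ∈ F, ∃ Z₁ ≤ Z, Crit N Z₁ ∧ Sim N Z₁ V := by
  classical
  induction F using Finset.induction_on with
  | empty =>
    intro Z hZ0 _ hZ
    rw [Finset.sup_empty] at hZ
    exact absurd (le_bot_iff.1 hZ) hZ0
  | insert V F _ ih =>
    intro Z hZ0 hZs hZ
    rw [Finset.sup_insert] at hZ
    have hS : St N (F.sup id) := st_fsup_18908 F fun W hW => (hF W (Finset.mem_insert_of_mem hW)).2.1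
    by_cases h : Z ⊓ F.sup id = ⊥
    · obtain ⟨h1, h2⟩ := step_18908 N (hF V (Finset.mem_insert_self _ _)) hS hZ0 hZs hZ h
      exact ⟨V, Finset.mem_insert_self _ _, Z, le_rfl, h1, h2⟩
    · obtain ⟨W, hW, Z₁, hZ1, h1, h2⟩ := ih (fun W hW => hF W (Finset.mem_insert_of_mem hW))
        (Z ⊓ F.sup id) h (st_inf_18908 hZs hS) inf_le_right
      exact ⟨W, Finset.mem_insert_of_mem hW, Z₁, hZ1.trans inf_le_left, h1, h2⟩

theorem sum_embed {K G A : Type} [DivisionRing K] [Group G] [AddCommGroup A] [Module K A]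
    [DistribMulAction G A] (N : Subgroup G) (𝒞 : Set (Submodule K A)) (h𝒞 : ∀ V ∈ 𝒞, Crit N V)
    (Z : Submodule K A) (hZ0 : Z ≠ ⊥) (hZs : St N Z) (hZ : Z ≤ sSup 𝒞) :
    ∃ V ∈ 𝒞, ∃ Z₁ ≤ Z, Crit N Z₁ ∧ Sim N Z₁ V := by
  obtain ⟨z, hz, hz0⟩ := (Submodule.ne_bot_iff _).1 hZ0
  obtain ⟨F, hF, hzF⟩ := Submodule.mem_sSup_iff_exists_finset.1 (hZ hz)
  have hFc : ∀ V ∈ F, Crit N V := fun V hV => h𝒞 V (hF hV)
  have hzF' : z ∈ F.sup id := by
    rw [Finset.sup_eq_iSup]
    exact hzF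
  obtain ⟨V, hV, Z₁, hZ1, h1, h2⟩ := fin_18908 N F hFc (Z ⊓ F.sup id)
    ((Submodule.ne_bot_iff _).2 ⟨z, ⟨hz, hzF'⟩, hz0⟩)
    (st_inf_18908 hZs (st_fsup_18908 F fun W hW => (hFc W hW).2.1)) inf_le_right
  exact ⟨V, hF hV, Z₁, hZ1.trans inf_le_left, h1, h2⟩

end Pool.Agent.Helper933.HC
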