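import Pool.Agent.Helper933.HC.Defs
import Pool.Agent.Helper933.HC.P_crit_sub
import Pool.Agent.Helper933.HC.P_sim_symm
import Pool.Agent.Helper933.HC.P_sim_trans
import Pool.Agent.Helper933.HC.P_sum_embed

set_option autoImplicit false

namespace Pool.Agent.Helper933.HC
open Module


theorem St_sSup849 {K G A : Type} [DivisionRing K] [Group G] [AddCommGroup A] [Module K A]
    [DistribMulAction G A] (N : Subgroup G) (𝒞 : Set (Submodule K A))
    (h : ∀ V ∈ 𝒞, St N V) : St N (sSup 𝒞) := by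
  intro g hg x hx
  rw [sSup_eq_iSup'] at hx
  refine Submodule.iSup_induction (fun V : 𝒞 => (V : Submodule K A))
    (motive := fun x => g • x ∈ sSup 𝒞) hx ?_ ?_ ?_
  · intro V y hy
    exact (le_sSup V.2) (h V V.2 g hg y hy)
  · rw [smul_zero]
    exact Submodule.zero_mem _
  · intro y z hy hz
    rw [smul_add]
    exact Submodule.add_mem _ hy hz

theorem indep_classes {K G A : Type} [DivisionRing K] [Group G] [AddCommGroup A] [Module K A]
    [DistribMulAction G A] (N : Subgroup G) (P : Submodule K A → Prop) {U : Submodule K A}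
    (hU : Crit N U) : MS N P U ⊓ sSup {V | Crit N V ∧ ¬ Sim N U V} = ⊥ := by
  by_contra hne
  have hS1 : St N (MS N P U) := St_sSup849 N _ fun V hV => hV.2.1.2.1
  have hS2 : St N (sSup {V | Crit N V ∧ ¬ Sim N U V}) := St_sSup849 N _ fun V hV => hV.1.2.1
  have hSt : St N (MS N P U ⊓ sSup {V | Crit N V ∧ ¬ Sim N U V}) := fun g hg x hx =>
    ⟨hS1 g hg x hx.1, hS2 g hg x hx.2⟩
  obtain ⟨V, hV, Z₁, hZ₁, hcZ₁, hs1⟩ := sum_embed N {V | P V ∧ Crit N V ∧ Sim N U V}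
    (fun V hV => hV.2.1) _ hne hSt inf_le_left
  have hs2 : Sim N U Z₁ := sim_trans N hU hV.2.1 hcZ₁ hV.2.2 (sim_symm N hcZ₁ hV.2.1 hs1)
  obtain ⟨V', hV', Z₂, hZ₂, hcZ₂, hs3⟩ := sum_embed N {V | Crit N V ∧ ¬ Sim N U V}
    (fun V hV => hV.1) Z₁ hcZ₁.1 hcZ₁.2.1 (hZ₁.trans inf_le_right)
  obtain ⟨_, _, hs4⟩ := crit_sub N hcZ₁ hZ₂ hcZ₂.1 hcZ₂.2.1
  have hs5 : Sim N U Z₂ := sim_trans N hU hcZ₁ hcZ₂ hs2 hs4
  exact hV'.2 (sim_trans N hU hcZ₂ hV'.1 hs5 hs3)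

end Pool.Agent.Helper933.HC
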