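import Pool.Agent.Helper933.HC.Defs
import Pool.Agent.Helper933.HC.P_bdd_mono
import Pool.Agent.Helper933.HC.P_bdd_ext
import Pool.Agent.Helper933.HC.P_hall_sub
import Pool.Agent.Helper933.HC.P_acc_max

set_option autoImplicit false

namespace Pool.Agent.Helper933.HC
open Module


/-- the induced action on the quotient by a stable subspace. -/
@[reducible] def loc_main_act {K G A : Type} [DivisionRing K] [Group G] [AddCommGroup A] [Module K A]
    [DistribMulAction G A] (B : Submodule K A) (hB : St (⊤ : Subgroup G) B) :
    DistribMulAction G (A ⧸ B) where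
  smul g := Quotient.map' (fun x => g • x) (by
    intro a b hab
    rw [Submodule.quotientRel_def] at hab ⊢
    rw [← smul_sub]
    exact hB g trivial _ hab)
  one_smul q := by
    induction q using Submodule.Quotient.induction_on with
    | H x => exact congrArg (Submodule.Quotient.mk (p := B)) (one_smul G x)
  mul_smul g g' q := by
    induction q using Submodule.Quotient.induction_on with
    | H x => exact congrArg (Submodule.Quotient.mk (p := B)) (mul_smul g g' x)
  smul_zero g := congrArg (Submodule.Quotient.mk (p := B)) (smul_zero g)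
  smul_add g q q' := by
    induction q using Submodule.Quotient.induction_on with
    | H x =>
      induction q' using Submodule.Quotient.induction_on with
      | H y => exact congrArg (Submodule.Quotient.mk (p := B)) (smul_add g x y)

/-- Noetherian induction. -/
theorem loc_main {Q : Type} [Group Q] (hQ : PC Q) (h : LocS Q) : MainS Q := by
  intro K G A _ _ _ _ _ ρ hsurj hs
  classical
  obtain ⟨S, hS⟩ := hs.fg
  have hN := hall_sub ρ hQ hs.semi hs.scal ⊤ S
  have htop : (Submodule.span K {y : A | ∃ g ∈ (⊤ : Subgroup G), ∃ s ∈ S, y = g • s}) = ⊤ := by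
    rw [← hS]
    congr 1
    ext x
    simp
  rw [htop] at hN
  obtain ⟨B, ⟨hBst, hBT⟩, hmax⟩ := acc_max (K := K) (((⊤ : Subgroup G) : Set G)) ⊤ hN
    {B : Submodule K A | St (⊤ : Subgroup G) B ∧ TOn (⊤ : Subgroup G) B}
    ⟨⊥, by
      intro g _ x hx
      rw [Submodule.mem_bot] at hx ⊢
      rw [hx, smul_zero], ⟨0, 0, fun g _ W hW _ _ => by
      have : W = ⊥ := le_bot_iff.1 hW
      rw [this]; rfl⟩⟩
    (fun V hV => ⟨le_top, fun g hg x hx => hV.1 g hg x hx⟩)
  by_cases hB : B = ⊤
  · obtain ⟨l, d, hld⟩ := hBT
    refine ⟨l, d, fun g W hW hWs => hld g trivial W ?_ hW hWs⟩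
    rw [hB]; exact le_top
  · exfalso
    letI : DistribMulAction G (A ⧸ B) := loc_main_act B hBst
    have hmk : ∀ (g : G) (x : A), g • (Submodule.Quotient.mk (p := B) x) =
        Submodule.Quotient.mk (p := B) (g • x) := fun g x => rfl
    have hnt : Nontrivial (A ⧸ B) := Submodule.Quotient.nontrivial_iff.2 hB
    have hsys : Sys K G (A ⧸ B) Q ρ := by
      refine ⟨?_, ?_, ?_⟩
      · intro g
        obtain ⟨σ, hσ⟩ := hs.semi g
        refine ⟨σ, ?_⟩
        intro k q
        induction q using Submodule.Quotient.induction_on with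
        | H x =>
          exact congrArg (Submodule.Quotient.mk (p := B)) (hσ k x)
      · intro g hg
        obtain ⟨c, hc⟩ := hs.scal g hg
        refine ⟨c, ?_⟩
        intro q
        induction q using Submodule.Quotient.induction_on with
        | H x => exact congrArg (Submodule.Quotient.mk (p := B)) (hc x)
      · refine ⟨S.image (Submodule.Quotient.mk (p := B)), ?_⟩
        have h1 := congrArg (Submodule.map B.mkQ) hS
        rw [Submodule.map_span, Submodule.map_top, Submodule.range_mkQ] at h1
        rw [← h1]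
        congr 1
        ext q
        constructor
        · rintro ⟨g, s, hs', rfl⟩
          obtain ⟨s', hs'', rfl⟩ := Finset.mem_image.1 hs'
          exact ⟨g • s', ⟨g, s', hs'', rfl⟩, rfl⟩
        · rintro ⟨_, ⟨g, s, hs', rfl⟩, rfl⟩
          exact ⟨g, Submodule.Quotient.mk s, Finset.mem_image.2 ⟨s, hs', rfl⟩, rfl⟩
    obtain ⟨C', hC'0, hC'st, l₂, d₂, hC'⟩ := h K G (A ⧸ B) ρ hsurj hsys hnt
    obtain ⟨l₁, d₁, hBT'⟩ := hBT
    have hBle : B ≤ C'.comap B.mkQ := by
      intro x hx
      rw [Submodule.mem_comap, Submodule.mkQ_apply, (Submodule.Quotient.mk_eq_zero B).2 hx]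
      exact C'.zero_mem
    have hne : C'.comap B.mkQ ≠ B := by
      intro heq
      apply hC'0
      rw [Submodule.eq_bot_iff]
      intro q hq
      induction q using Submodule.Quotient.induction_on with
      | H x =>
        have : x ∈ C'.comap B.mkQ := hq
        rw [heq] at this
        exact (Submodule.Quotient.mk_eq_zero B).2 this
    apply hne
    refine hmax _ ⟨?_, ?_⟩ hBle
    · intro g hg x hx
      exact hC'st g hg _ hx
    · refine ⟨l₂ + l₁, max d₁ d₂, ?_⟩
      intro g hg W hWC hWf hWs
      have hst2 : Stable (ac g : (A ⧸ B) ≃+ (A ⧸ B)) (W.map B.mkQ) := by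
        intro q
        constructor
        · rintro ⟨x, hx, hxq⟩
          refine ⟨g⁻¹ • x, ?_, ?_⟩
          · have h1 := (hWs (g⁻¹ • x)).1
            apply h1
            show g • (g⁻¹ • x) ∈ W
            rw [smul_inv_smul]; exact hx
          · have h2 : g • q = B.mkQ x := hxq.symm
            have h3 : q = g⁻¹ • B.mkQ x := by rw [← h2, inv_smul_smul]
            rw [h3]; rfl
        · rintro ⟨x, hx, rfl⟩
          exact ⟨g • x, (hWs x).2 hx, rfl⟩
      have hW2le : W.map B.mkQ ≤ C' := by
        rintro _ ⟨x, hx, rfl⟩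
        exact hWC hx
      have hst1 : Stable (ac g : A ≃+ A) (W ⊓ B) := by
        intro x
        have hBiff : (ac g : A ≃+ A) x ∈ B ↔ x ∈ B := by
          constructor
          · intro hx
            have h1 := hBst g⁻¹ trivial _ hx
            have h2 : g⁻¹ • ((ac g : A ≃+ A) x) = x := inv_smul_smul g x
            rwa [h2] at h1
          · intro hx
            exact hBst g trivial _ hx
        rw [Submodule.mem_inf, Submodule.mem_inf, hWs x, hBiff]
      have hf1 : FiniteDimensional K (W ⊓ B : Submodule K A) := Submodule.finiteDimensional_inf_left W B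
      have hb2 := hC' g hg (W.map B.mkQ) hW2le inferInstance hst2
      have hb1 := hBT' g hg (W ⊓ B) inf_le_right hf1 hst1
      have hb2' := bdd_mono (le_refl l₂) (le_max_right d₁ d₂) le_rfl hst2 hst2 hb2
      have hb1' := bdd_mono (le_refl l₁) (le_max_left d₁ d₂) le_rfl hst1 hst1 hb1
      refine bdd_ext (RingEquiv.refl K) B.mkQ.toAddMonoidHom (hsys.semi g) hWs (fun k x _ => by
          show B.mkQ (k • x) = k • B.mkQ x
          exact map_smul _ _ _) (fun x _ => ⟨1, one_ne_zero, by rw [one_smul]; rfl⟩)
        (W.map B.mkQ) (fun y => Iff.rfl) l₂ (max d₁ d₂) hb2' (W ⊓ B) (fun x => ?_) l₁ hb1'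
      rw [Submodule.mem_inf]
      refine and_congr_right fun _ => ?_
      exact (Submodule.Quotient.mk_eq_zero B).symm

end Pool.Agent.Helper933.HC
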