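import Pool.Agent.Helper933.HC.Defs
import Pool.Agent.Helper933.HC.P_pc_surj
import Pool.Agent.Helper933.HC.P_hl_quot
import Pool.Agent.Helper933.HC.P_case1
import Pool.Agent.Helper933.HC.P_case2a
import Pool.Agent.Helper933.HC.P_case2b

set_option autoImplicit false

namespace Pool.Agent.Helper933.HC
open Module


theorem loc_of_plinth {Q : Type} [Group Q] (hQ : PC Q) {n : ℕ} (hn : HL Q n) {r : ℕ}
    (ε : Multiplicative (Fin r → ℤ) →* Q) (hP : Plinth Q r ε)
    (IH : ∀ (Q' : Type) [Group Q'], PC Q' → ∀ m < n, HL Q' m → MainFor Q') : LocS Q := by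
  intro K G A _ _ _ _ _ ρ hρ hS hA
  by_cases hT : ∃ a : A, a ≠ 0 ∧ Tors (K := K) ρ ε a
  · obtain ⟨a, ha0, ha⟩ := hT
    by_cases hV : ∃ V : Submodule K A, V ≠ ⊥ ∧ St (ε.range.comap ρ) V ∧ FiniteDimensional K V
    · obtain ⟨V, hV0, hVs, hVf⟩ := hV
      exact case2a hQ hn ε hP IH ρ hρ hS V hV0 hVs hVf
    · refine case2b hQ hn ε hP IH ρ hρ hS a ha0 ha ?_
      intro V hVs hVf
      by_contra hV0
      exact hV ⟨V, hV0, hVs, hVf⟩
  · have hNT : ∀ a : A, a ≠ 0 → ¬ Tors (K := K) ρ ε a := by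
      intro a ha0 ha
      exact hT ⟨a, ha0, ha⟩
    haveI := hP.normal
    have hinf : Infinite ε.range := by
      haveI : Nonempty (Fin r) := ⟨⟨0, hP.pos⟩⟩
      haveI : Infinite (Multiplicative (Fin r → ℤ)) := by
        haveI : Infinite (Fin r → ℤ) := inferInstance
        exact Infinite.of_injective (Multiplicative.ofAdd : (Fin r → ℤ) → _)
          Multiplicative.ofAdd.injective
      exact Infinite.of_injective ε.rangeRestrict
        (fun x y hxy => hP.inj (by simpa using congrArg Subtype.val hxy))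
    obtain ⟨m, hm, hmQ⟩ := hl_quot hn ε.range hinf
    have hPC' : PC (Q ⧸ ε.range) :=
      pc_surj hQ (QuotientGroup.mk' ε.range) (QuotientGroup.mk'_surjective _)
    have hMain := IH (Q ⧸ ε.range) hPC' m hm hmQ
    obtain ⟨l, d, h⟩ := case1 ε hP.inj hP.normal hMain ρ hρ hS hNT
    refine ⟨⊤, ?_, ?_, l, d, ?_⟩
    · intro h0
      exact bot_ne_top h0.symm
    · intro g _ x _
      trivial
    · intro g _ W _ hW hs
      exact h g W hW hs

end Pool.Agent.Helper933.HC
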