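import Pool.Agent.Helper933.HC.Defs
import Pool.Agent.Helper933.HC.P_bdd_small

set_option autoImplicit false

namespace Pool.Agent.Helper933.HC
open Module


/-- the base case: finite quotient group. -/
theorem main_zero {Q : Type} [Group Q] [Finite Q] : MainS Q := by
  intro K G A _ _ _ _ _ ρ hsurj hs
  obtain ⟨S, hS⟩ := hs.fg
  choose r hr using hsurj
  have hfin : Set.Finite (⋃ q : Q, (fun s => r q • s) '' (S : Set A)) :=
    Set.finite_iUnion fun q => S.finite_toSet.image _
  have hspan : Submodule.span K (⋃ q : Q, (fun s => r q • s) '' (S : Set A)) = ⊤ := by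
    rw [eq_top_iff, ← hS, Submodule.span_le]
    rintro x ⟨g, s, hs', rfl⟩
    have h1 : ρ ((r (ρ g))⁻¹ * g) = 1 := by
      rw [map_mul, map_inv, hr, inv_mul_cancel]
    obtain ⟨c, hc⟩ := hs.scal _ h1
    obtain ⟨σ, hσ⟩ := hs.semi (r (ρ g))
    have h2 : g • s = σ c • (r (ρ g) • s) := by
      have h3 : g • s = r (ρ g) • (((r (ρ g))⁻¹ * g) • s) := by
        rw [← mul_smul, mul_inv_cancel_left]
      rw [h3, hc]
      exact hσ c s
    rw [h2]
    exact Submodule.smul_mem _ _ (Submodule.subset_span (Set.mem_iUnion.2 ⟨ρ g, s, hs', rfl⟩))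
  have hfd : FiniteDimensional K A := by
    refine Module.finite_def.2 ⟨hfin.toFinset, ?_⟩
    rw [Set.Finite.coe_toFinset]
    exact hspan
  refine ⟨1, finrank K A, fun g W _ _ => bdd_small (Submodule.finrank_le W)⟩

end Pool.Agent.Helper933.HC
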