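import Pool.Agent.Helper933.HC.Defs

set_option autoImplicit false

namespace Pool.Agent.Helper933.HC
open Module


theorem mains_main {Q : Type} [Group Q] (h : ∀ R : Subgroup Q, MainS R) : MainFor Q := by
  intro K G A _ _ _ _ _ ρ hs
  refine h ρ.range K G A ρ.rangeRestrict ρ.rangeRestrict_surjective ⟨hs.semi, fun g hg => hs.scal g ?_, hs.fg⟩
  have h2 := congrArg Subtype.val hg
  simpa using h2

end Pool.Agent.Helper933.HC
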