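import Pool.Agent.Helper933.HC.Defs
import Pool.Agent.Helper933.HC.P_pc_sub
import Pool.Agent.Helper933.HC.P_hl_sub
import Pool.Agent.Helper933.HC.P_exists_plinth
import Pool.Agent.Helper933.HC.P_loc_main
import Pool.Agent.Helper933.HC.P_mains_main
import Pool.Agent.Helper933.HC.P_main_zero
import Pool.Agent.Helper933.HC.P_loc_of_plinth
import Pool.Agent.Helper933.HC.P_fin_indexS

set_option autoImplicit false

namespace Pool.Agent.Helper933.HC
open Module


theorem main_all : ∀ (n : ℕ) (Q : Type) [Group Q], PC Q → HL Q n → MainFor Q := by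
  intro n
  induction n using Nat.strong_induction_on with
  | _ n IH =>
    intro Q _ hPC hHL
    refine mains_main fun R => ?_
    have hR := pc_sub hPC R
    have hRn := hl_sub hHL R
    rcases finite_or_infinite R with hf | hi
    · exact main_zero
    · obtain ⟨R₁, hR₁, r, ε, hε⟩ := exists_plinth hR hi
      refine fin_indexS R₁ hR₁ ?_
      refine loc_main (pc_sub hR R₁) ?_
      exact loc_of_plinth (pc_sub hR R₁) (hl_sub hRn R₁) ε hε
        (fun Q' _ hQ' m hm hl => IH m hm Q' hQ' hl)

end Pool.Agent.Helper933.HC
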