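import Pool.Agent.Helper933.HC.Defs
import Pool.Agent.Helper933.HC.P_pc_sub
import Pool.Agent.Helper933.HC.P_pc_surj
import Pool.Agent.Helper933.HC.P_hl_exists
import Pool.Agent.Helper933.HC.P_plinth_pre

set_option autoImplicit false

namespace Pool.Agent.Helper933.HC
open Module


/-- the pointwise stabiliser of the fixed points of a set. -/
def mcH {Q M : Type} [Group Q] [AddCommGroup M] [DistribMulAction Q M] (X : Set Q) :
    Subgroup Q where
  carrier := {q | ∀ a : M, (∀ x ∈ X, x • a = a) → q • a = a}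
  mul_mem' := by
    intro p q hp hq a ha
    rw [mul_smul, hq a ha, hp a ha]
  one_mem' := by
    intro a _
    exact one_smul _ _
  inv_mem' := by
    intro q hq a ha
    have := hq a ha
    rw [inv_smul_eq_iff]
    exact this.symm

/-- the number of infinite jumps of a decreasing chain is bounded. -/
theorem mc_jumps {Q : Type} [Group Q] (m : ℕ) (hm : HL Q m) (H : ℕ → Subgroup Q)
    (hH : Antitone H) (s : Finset ℕ) (hs : ∀ i ∈ s, (H (i + 1)).relIndex (H i) = 0) :
    s.card ≤ m := by
  classical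
  obtain ⟨L, hL⟩ : ∃ L, ∀ i ∈ s, i < L := ⟨s.sup id + 1, fun i hi =>
    Nat.lt_succ_of_le (Finset.le_sup (f := id) hi)⟩
  have h1 : (s.image (fun n => L - (n + 1))).card = s.card := by
    apply Finset.card_image_of_injOn
    intro a ha b hb hab
    have h1 := hL a ha
    have h2 := hL b hb
    simp only at hab
    omega
  rw [← h1]
  refine hm (fun i => H (L - i)) (fun i j hij => hH (by omega)) _ ?_
  intro i hi
  obtain ⟨n, hn, rfl⟩ := Finset.mem_image.1 hi
  have h2 := hL n hn
  have e1 : L - (L - (n + 1)) = n + 1 := by omega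
  have e2 : L - (L - (n + 1) + 1) = n := by omega
  simp only [e1, e2]
  exact hs n hn

theorem mc_eventually {Q : Type} [Group Q] (m : ℕ) (hm : HL Q m) (H : ℕ → Subgroup Q)
    (hH : Antitone H) : ∃ n0, ∀ n, n0 ≤ n → (H n).relIndex (H n0) ≠ 0 := by
  classical
  have hfin : {i | (H (i + 1)).relIndex (H i) = 0}.Finite := by
    by_contra hinf
    obtain ⟨t, ht, htc⟩ := (Set.not_finite.1 hinf).exists_subset_card_eq (m + 1)
    have := mc_jumps m hm H hH t (fun i hi => ht hi)
    omega
  obtain ⟨n0, hn0⟩ := hfin.bddAbove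
  refine ⟨n0 + 1, fun n hn => ?_⟩
  induction n, hn using Nat.le_induction with
  | base => rw [Subgroup.relIndex_self]; exact one_ne_zero
  | succ n hn ih =>
    refine Subgroup.relIndex_ne_zero_trans (K := H n) ?_ ih
    intro h0
    have := hn0 (show n ∈ {i | (H (i + 1)).relIndex (H i) = 0} from h0)
    omega

/-- a polycyclic group of finite exponent is finite. -/
theorem mc_finite {Q : Type} [Group Q] (h : PC Q) (e : ℕ) (he : 0 < e) (hx : ∀ x : Q, x ^ e = 1) :
    Finite Q := by
  by_contra hinf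
  rw [not_finite_iff_infinite] at hinf
  obtain ⟨r, ε, hr, hε, -⟩ := plinth_pre h hinf
  have h1 := hx (ε (Multiplicative.ofAdd (Pi.single ⟨0, hr⟩ 1)))
  rw [← map_pow, ← map_one ε] at h1
  have h2 := hε h1
  have h3 : e • (Pi.single (⟨0, hr⟩ : Fin r) (1 : ℤ) : Fin r → ℤ) = 0 := by
    have := congrArg Multiplicative.toAdd h2
    simpa using this
  have h4 := congrFun h3 ⟨0, hr⟩
  simp at h4
  omega

/-- ascending chains of fixed point subgroups stabilise. -/
theorem max_c_mod {Q M : Type} [Group Q] [AddCommGroup M] [DistribMulAction Q M] (hQ : PC Q)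
    (e : ℕ) (he : 0 < e)
    (hE : ∀ (x : Q) (n : ℕ) (a : M), 0 < n → x ^ n • a = a → x ^ e • a = a)
    (X : ℕ → Set Q) (hX : ∀ n (a : M), (∀ x ∈ X n, x • a = a) → ∀ x ∈ X (n + 1), x • a = a) :
    ∃ N, ∀ n, N ≤ n → ∀ a : M, (∀ x ∈ X n, x • a = a) → ∀ x ∈ X N, x • a = a := by
  classical
  obtain ⟨m, hm⟩ := hl_exists hQ
  have hanti : Antitone (fun n => mcH (M := M) (X n)) := by
    apply antitone_nat_of_succ_le
    intro n q hq a ha
    exact hq a (hX n a ha)
  obtain ⟨n0, hn0⟩ := mc_eventually m hm (fun n => mcH (M := M) (X n)) hanti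
  let G : Subgroup Q := mcH (M := M) (X n0)
  let K : Subgroup G := Subgroup.normalClosure {y : G | ∃ x : G, y = x ^ e}
  have hPK : PC (G ⧸ K) := pc_surj (pc_sub hQ G) (QuotientGroup.mk' K)
    (QuotientGroup.mk'_surjective K)
  have hfin : Finite (G ⧸ K) := by
    apply mc_finite hPK e he
    intro y
    obtain ⟨x, rfl⟩ := QuotientGroup.mk'_surjective K y
    rw [← map_pow]
    exact (QuotientGroup.eq_one_iff (x ^ e)).2 (Subgroup.subset_normalClosure ⟨x, rfl⟩)
  have hKle : ∀ n, n0 ≤ n → K ≤ (mcH (M := M) (X n)).subgroupOf G := by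
    intro n hn
    have hpow : ∀ x : G, x ^ e ∈ (mcH (M := M) (X n)).subgroupOf G := by
      intro x
      rw [Subgroup.mem_subgroupOf]
      intro a ha
      obtain ⟨k, hk, -, hxk⟩ := Subgroup.exists_pow_mem_of_relIndex_ne_zero (hn0 n hn) x.2
      have h1 : (x : Q) ^ k • a = a := hxk.1 a ha
      have h2 := hE (x : Q) k a hk h1
      simpa using h2
    change Subgroup.closure _ ≤ _
    rw [Subgroup.closure_le]
    intro y hy
    obtain ⟨z, ⟨x, rfl⟩, hc⟩ := Group.mem_conjugatesOfSet_iff.1 hy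
    obtain ⟨c, hc⟩ := isConj_iff.1 hc
    rw [← hc, ← conj_pow]
    exact hpow _
  let u : ℕ → Subgroup (G ⧸ K) := fun n =>
    ((mcH (M := M) (X (n0 + n))).subgroupOf G).map (QuotientGroup.mk' K)
  have hu : Antitone u := by
    intro i j hij
    apply Subgroup.map_mono
    intro x hx
    rw [Subgroup.mem_subgroupOf] at hx ⊢
    exact hanti (show n0 + i ≤ n0 + j by omega) hx
  obtain ⟨n1, hn1⟩ := (WellFoundedGT.monotone_chain_condition
    (α := (Subgroup (G ⧸ K))ᵒᵈ)) ⟨fun n => OrderDual.toDual (u n), fun i j hij => hu hij⟩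
  refine ⟨n0 + n1, fun n hn a ha x hx => ?_⟩
  have h1 : u n1 = u (n - n0) := hn1 (n - n0) (by omega)
  have h2 : (mcH (M := M) (X (n0 + n1))).subgroupOf G = (mcH (M := M) (X n)).subgroupOf G := by
    have e1 : n0 + (n - n0) = n := by omega
    have h3 := congrArg (Subgroup.comap (QuotientGroup.mk' K)) h1
    simp only [u] at h3
    rw [Subgroup.comap_map_eq_self, Subgroup.comap_map_eq_self, e1] at h3
    · exact h3
    · rw [QuotientGroup.ker_mk', e1]; exact hKle n (by omega)
    · rw [QuotientGroup.ker_mk']; exact hKle _ (by omega)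
  have h3 : x ∈ mcH (M := M) (X (n0 + n1)) := fun b hb => hb x hx
  have h4 : x ∈ G := hanti (show n0 ≤ n0 + n1 by omega) h3
  have h5 : (⟨x, h4⟩ : G) ∈ (mcH (M := M) (X n)).subgroupOf G := by
    rw [← h2, Subgroup.mem_subgroupOf]
    exact h3
  rw [Subgroup.mem_subgroupOf] at h5
  exact h5 a ha

end Pool.Agent.Helper933.HC
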