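import Pool.Agent.Helper933.HC.Defs
import Pool.Agent.Helper933.HC.P_gm_basic
import Pool.Agent.Helper933.HC.P_gm_sSup
import Pool.Agent.Helper933.HC.P_crit_gm
import Pool.Agent.Helper933.HC.P_sim_gm

set_option autoImplicit false

namespace Pool.Agent.Helper933.HC
open Module


theorem ms_gm {K G A : Type} [DivisionRing K] [Group G] [AddCommGroup A] [Module K A]
    [DistribMulAction G A] (hsemi : ∀ g : G, Semi K (ac g : A ≃+ A)) (N : Subgroup G)
    (hN : N.Normal) (P : Submodule K A → Prop) (hP : ∀ (g : G) V, P V → P (gm g V))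
    {U : Submodule K A} (hU : Crit N U) (g : G) :
    (gm g (MS N P U) : Submodule K A) = MS N P (gm g U) := by
  have e1 : ∀ (h : G) (V : Submodule K A), (gm h⁻¹ (gm h V) : Submodule K A) = V := by
    intro h V
    rw [← (gm_basic hsemi V V h⁻¹ h).2.1, inv_mul_cancel]
    exact (gm_basic hsemi V V 1 1).1
  have e2 : ∀ (h : G) (V : Submodule K A), (gm h (gm h⁻¹ V) : Submodule K A) = V := by
    intro h V
    rw [← (gm_basic hsemi V V h h⁻¹).2.1, mul_inv_cancel]
    exact (gm_basic hsemi V V 1 1).1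
  unfold MS
  rw [gm_sSup hsemi]
  congr 1
  ext V
  simp only [Set.mem_setOf_eq]
  constructor
  · rintro ⟨W, ⟨h1, h2, h3⟩, rfl⟩
    exact ⟨hP g W h1, crit_gm hsemi N hN g h2, sim_gm hsemi N hN g h3⟩
  · rintro ⟨h1, h2, h3⟩
    refine ⟨gm g⁻¹ V, ⟨hP _ _ h1, crit_gm hsemi N hN g⁻¹ h2, ?_⟩, (e2 g V).symm⟩
    have := sim_gm hsemi N hN g⁻¹ h3
    rwa [e1] at this

end Pool.Agent.Helper933.HC
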