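import Pool.Agent.Helper933.HC.Defs
import Pool.Agent.Helper933.HC.P_gm_basic
import Pool.Agent.Helper933.HC.P_sim_symm
import Pool.Agent.Helper933.HC.P_sim_trans
import Pool.Agent.Helper933.HC.P_crit_gm
import Pool.Agent.Helper933.HC.P_sim_gm
import Pool.Agent.Helper933.HC.P_indep_classes
import Pool.Agent.Helper933.HC.P_ms_gm

set_option autoImplicit false

namespace Pool.Agent.Helper933.HC
open Module


theorem ms_indep {K G A : Type} [DivisionRing K] [Group G] [AddCommGroup A] [Module K A]
    [DistribMulAction G A] (hsemi : ∀ g : G, Semi K (ac g : A ≃+ A)) (N : Subgroup G)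
    (hN : N.Normal) (P : Submodule K A → Prop) (hP : ∀ (g : G) V, P V → P (gm g V))
    {U : Submodule K A} (hU : Crit N U) (L : Subgroup G)
    (hL : ∀ g, g ∈ L ↔ Sim N U (gm g U)) :
    St L (MS N P U) ∧ iSupIndep (fun c : G ⧸ L => (gm c.out (MS N P U) : Submodule K A)) := by
  have hcr : ∀ g : G, Crit N (gm g U : Submodule K A) := fun g => crit_gm hsemi N hN g hU
  have hcongr : ∀ U' : Submodule K A, Crit N U' → Sim N U U' → MS N P U = MS N P U' := by
    intro U' hU' hs
    have hs' := sim_symm N hU hU' hs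
    unfold MS
    congr 1
    ext V
    constructor
    · rintro ⟨h1, h2, h3⟩
      exact ⟨h1, h2, sim_trans N hU' hU h2 hs' h3⟩
    · rintro ⟨h1, h2, h3⟩
      exact ⟨h1, h2, sim_trans N hU hU' h2 hs h3⟩
  refine ⟨?_, ?_⟩
  · intro g hg x hx
    have h1 : g • x ∈ (gm g (MS N P U) : Submodule K A) := Submodule.subset_span ⟨x, hx, rfl⟩
    rw [ms_gm hsemi N hN P hP hU g, ← hcongr _ (hcr g) ((hL g).1 hg)] at h1
    exact h1
  · intro c
    rw [disjoint_iff, eq_bot_iff, ← indep_classes N P (hcr c.out)]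
    refine inf_le_inf ?_ ?_
    · change (gm c.out (MS N P U) : Submodule K A) ≤ _
      rw [ms_gm hsemi N hN P hP hU c.out]
    · refine iSup_le fun j => iSup_le fun hj => ?_
      change (gm j.out (MS N P U) : Submodule K A) ≤ _
      rw [ms_gm hsemi N hN P hP hU j.out]
      refine sSup_le ?_
      rintro V ⟨_, h2, h3⟩
      refine le_sSup ⟨h2, fun h4 => hj ?_⟩
      have h5 : Sim N (gm c.out U : Submodule K A) (gm j.out U) :=
        sim_trans N (hcr _) h2 (hcr _) h4 (sim_symm N (hcr _) h2 h3)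
      have h6 := sim_gm hsemi N hN c.out⁻¹ h5
      rw [← (gm_basic hsemi U U c.out⁻¹ c.out).2.1, ← (gm_basic hsemi U U c.out⁻¹ j.out).2.1,
        inv_mul_cancel, (gm_basic hsemi U U 1 1).1] at h6
      have h7 := (hL _).2 h6
      have h8 := QuotientGroup.eq.2 h7
      rw [QuotientGroup.out_eq', QuotientGroup.out_eq'] at h8
      exact h8.symm

end Pool.Agent.Helper933.HC
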