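import Pool.Agent.Helper933.HC.Defs
import Pool.Agent.Helper933.HC.P_hl_exists
import Pool.Agent.Helper933.HC.P_se_all
import Pool.Agent.Helper933.HC.P_ab_module
import Pool.Agent.Helper933.HC.P_max_c_mod

set_option autoImplicit false

namespace Pool.Agent.Helper933.HC
open Module


theorem s1169 (hmain : ∀ (n : ℕ) (Q : Type) [Group Q], PC Q → HL Q n → MainFor Q) :
    ∀ (G : Type) [Group G], Group.FG G →
      (∃ (Q : Type) (_ : Group Q) (f : G →* Q), Function.Surjective f ∧ IsSolvable Q ∧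
        (∀ H : Subgroup Q, H.FG) ∧ ∀ x ∈ f.ker, ∀ y ∈ f.ker, x * y = y * x) →
      ∀ s : ℕ → Set G,
        (∀ n, Subgroup.centralizer (s n) ≤ Subgroup.centralizer (s (n + 1))) →
        ∃ N : ℕ, ∀ n, N ≤ n → Subgroup.centralizer (s n) = Subgroup.centralizer (s N) := by
  intro G _ hFG ⟨Q, _, f, hf, hsol, hfg, hab⟩ s hs
  have hPC : PC Q := ⟨hsol, hfg⟩
  obtain ⟨n0, hn0⟩ := hl_exists hPC
  have hM : MainFor Q := hmain n0 Q hPC hn0
  obtain ⟨M, _, _, j, hinj, hker, hadd, hconj, hFGm⟩ := ab_module hFG f hf hPC hab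
  obtain ⟨_, e, he, hE⟩ := se_all hPC hM hFGm
  have hmono : Monotone (fun n => Subgroup.centralizer (s n)) := monotone_nat_of_le_succ hs
  have hiff : ∀ (S : Set G) (a : M), j a ∈ Subgroup.centralizer S ↔ ∀ x ∈ f '' S, x • a = a := by
    intro S a
    rw [Subgroup.mem_centralizer_iff]
    constructor
    · rintro h _ ⟨g, hg, rfl⟩
      apply hinj
      rw [hconj, h g hg]
      group
    · intro h g hg
      have h1 := h (f g) ⟨g, hg, rfl⟩
      have h2 := hconj g a
      rw [h1] at h2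
      calc g * j a = (g * j a * g⁻¹) * g := by group
        _ = j a * g := by rw [← h2]
  obtain ⟨N1, hN1⟩ := max_c_mod hPC e he hE (fun n => f '' (s n)) (by
    intro n a h
    rw [← hiff] at h ⊢
    exact hs n h)
  obtain ⟨S, hS⟩ := hfg (⨆ n, (Subgroup.centralizer (s n)).map f)
  have hmap : Monotone (fun n => (Subgroup.centralizer (s n)).map f) := fun a b hab =>
    Subgroup.map_mono (hmono hab)
  have hdir : Directed (· ≤ ·) (fun n => (Subgroup.centralizer (s n)).map f) := hmap.directed_le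
  have hN2 : ∃ N2, ∀ x ∈ S, x ∈ (Subgroup.centralizer (s N2)).map f := by
    have h1 : ∀ x ∈ S, ∃ n, x ∈ (Subgroup.centralizer (s n)).map f := by
      intro x hx
      have h2 : x ∈ ⨆ n, (Subgroup.centralizer (s n)).map f := by
        rw [← hS]
        exact Subgroup.subset_closure hx
      exact (Subgroup.mem_iSup_of_directed hdir).1 h2
    choose! k hk using h1
    refine ⟨S.sup k, fun x hx => hmap (Finset.le_sup hx) (hk x hx)⟩
  obtain ⟨N2, hN2⟩ := hN2
  have hle : (⨆ n, (Subgroup.centralizer (s n)).map f) ≤ (Subgroup.centralizer (s N2)).map f := by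
    rw [← hS, Subgroup.closure_le]
    exact hN2
  refine ⟨max N1 N2, fun n hn => le_antisymm ?_ (hmono hn)⟩
  intro x hx
  have hfx : f x ∈ (Subgroup.centralizer (s N2)).map f :=
    hle (le_iSup (fun n => (Subgroup.centralizer (s n)).map f) n ⟨x, hx, rfl⟩)
  obtain ⟨y, hy, hyx⟩ := hmap (le_max_right N1 N2) hfx
  have hyn : y ∈ Subgroup.centralizer (s n) := hmono hn hy
  have hk : y⁻¹ * x ∈ f.ker := by
    rw [MonoidHom.mem_ker, map_mul, map_inv, hyx]
    group
  obtain ⟨a, ha⟩ := (hker _).1 hk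
  have h1 : j a ∈ Subgroup.centralizer (s n) := by
    rw [ha]
    exact mul_mem (inv_mem hyn) hx
  have h2 := hN1 n ((le_max_left _ _).trans hn) a ((hiff _ _).1 h1)
  have h3 : j a ∈ Subgroup.centralizer (s N1) := (hiff _ _).2 h2
  have h4 : j a ∈ Subgroup.centralizer (s (max N1 N2)) := hmono (le_max_left _ _) h3
  have h5 : x = y * j a := by rw [ha]; group
  rw [h5]
  exact mul_mem hy h4

end Pool.Agent.Helper933.HC
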