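import Pool.Agent.Helper933.HC.Defs
import Pool.Agent.Helper933.HC.P_poly_ind

set_option autoImplicit false

namespace Pool.Agent.Helper933.HC
open Module


section sa
variable {Γ A : Type} [Group Γ] [AddCommGroup A] [DistribMulAction Γ A]

/-- iterated commutator -/
def sa_fl (l : List Γ) (b : A) : A := l.foldl (fun (b : A) (x : Γ) => x • b - b) b

theorem sa_fl_nil (b : A) : sa_fl ([] : List Γ) b = b := rfl

theorem sa_fl_cons (x : Γ) (l : List Γ) (b : A) : sa_fl (x :: l) b = sa_fl l (x • b - b) := rfl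

theorem sa_fl_append (l l' : List Γ) (b : A) : sa_fl (l ++ l') b = sa_fl l' (sa_fl l b) :=
  List.foldl_append ..

theorem sa_fl_add (l : List Γ) (a b : A) : sa_fl l (a + b) = sa_fl l a + sa_fl l b := by
  induction l generalizing a b with
  | nil => rfl
  | cons x l ih =>
    rw [sa_fl_cons, sa_fl_cons, sa_fl_cons, ← ih]
    congr 1
    rw [smul_add]; abel

theorem sa_fl_zero (l : List Γ) : sa_fl l (0 : A) = 0 := by
  induction l with
  | nil => rfl
  | cons x l ih => rw [sa_fl_cons, smul_zero, sub_zero, ih]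

theorem sa_fl_neg (l : List Γ) (a : A) : sa_fl l (-a) = -sa_fl l a := by
  have h := sa_fl_add l a (-a)
  rw [add_neg_cancel, sa_fl_zero] at h
  exact (neg_eq_of_add_eq_zero_right h.symm).symm

theorem sa_fl_conj (g : Γ) (l : List Γ) (b : A) :
    g • sa_fl l b = sa_fl (l.map (fun x => g * x * g⁻¹)) (g • b) := by
  induction l generalizing b with
  | nil => rfl
  | cons x l ih =>
    rw [List.map_cons, sa_fl_cons, sa_fl_cons, ih]
    congr 1
    rw [smul_sub, smul_smul, smul_smul, mul_assoc, mul_assoc, inv_mul_cancel, mul_one]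

theorem sa_iter (u : Γ) (n : ℕ) (b : A) :
    sa_fl (List.replicate n u) b = (fun y : A => u • y - y)^[n] b := by
  induction n generalizing b with
  | zero => rfl
  | succ n ih => rw [List.replicate_succ, sa_fl_cons, ih, Function.iterate_succ_apply]

/-- all `n`-fold commutators with entries in `H` vanish -/
def sa_N (H : Subgroup Γ) (n : ℕ) (y : A) : Prop :=
  ∀ l : List Γ, l.length = n → (∀ x ∈ l, x ∈ H) → sa_fl l y = 0

theorem sa_N_mono (H : Subgroup Γ) {n n' : ℕ} (h : n ≤ n') {y : A} (hy : sa_N H n y) :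
    sa_N H n' y := by
  intro l hl hx
  rw [← List.take_append_drop n l, sa_fl_append,
    hy _ (by rw [List.length_take]; omega) (fun x hxm => hx x (List.mem_of_mem_take hxm)), sa_fl_zero]

theorem sa_N_add (H : Subgroup Γ) {n : ℕ} {y z : A} (hy : sa_N H n y) (hz : sa_N H n z) :
    sa_N H n (y + z) := by
  intro l hl hx
  rw [sa_fl_add, hy l hl hx, hz l hl hx, add_zero]

theorem sa_N_neg (H : Subgroup Γ) {n : ℕ} {y : A} (hy : sa_N H n y) : sa_N H n (-y) := by
  intro l hl hx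
  rw [sa_fl_neg, hy l hl hx, neg_zero]

theorem sa_N_zero (H : Subgroup Γ) (n : ℕ) : sa_N H n (0 : A) := by
  intro l hl hx
  rw [sa_fl_zero]

theorem sa_N_smul (H : Subgroup Γ) {n : ℕ} {y : A} (hy : sa_N H n y) (g : Γ)
    (hg : ∀ x ∈ H, g⁻¹ * x * g ∈ H) : sa_N H n (g • y) := by
  intro l hl hx
  have h1 := sa_fl_conj g (l.map (fun x => g⁻¹ * x * g)) y
  have h2 : (l.map (fun x => g⁻¹ * x * g)).map (fun x => g * x * g⁻¹) = l := by
    rw [List.map_map]
    conv_rhs => rw [← List.map_id l]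
    refine List.map_congr_left fun x _ => ?_
    simp only [Function.comp, id]
    group
  rw [h2, hy _ (by rw [List.length_map]; exact hl), smul_zero] at h1
  · exact h1.symm
  · intro x hxm
    obtain ⟨z, hz, rfl⟩ := List.mem_map.mp hxm
    exact hg z (hx z hz)

/-- the elements annihilated by all long commutators -/
def sa_Nil (H : Subgroup Γ) : AddSubgroup A where
  carrier := {y | ∃ n, sa_N H n y}
  add_mem' := by
    rintro y z ⟨n, hn⟩ ⟨n', hn'⟩
    exact ⟨max n n', sa_N_add H (sa_N_mono H (le_max_left _ _) hn) (sa_N_mono H (le_max_right _ _) hn')⟩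
  zero_mem' := ⟨0, sa_N_zero H 0⟩
  neg_mem' := by
    rintro y ⟨n, hn⟩
    exact ⟨n, sa_N_neg H hn⟩

/-- the upper series -/
def sa_Z (H H₀ : Subgroup Γ) (i : ℕ) : AddSubgroup A where
  carrier := {y | y ∈ (sa_Nil H : AddSubgroup A) ∧ sa_N H₀ i y}
  add_mem' := by
    rintro y z ⟨hy, hn⟩ ⟨hz, hn'⟩
    exact ⟨add_mem hy hz, sa_N_add H₀ hn hn'⟩
  zero_mem' := ⟨zero_mem _, sa_N_zero H₀ i⟩
  neg_mem' := by
    rintro y ⟨hy, hn⟩
    exact ⟨neg_mem hy, sa_N_neg H₀ hn⟩

theorem sa_block (H : Subgroup Γ) (Z1 Z0 : AddSubgroup A) (h10 : Z0 ≤ Z1)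
    (s1 : ∀ g ∈ H, ∀ b ∈ Z1, g • b ∈ Z1) (s0 : ∀ g ∈ H, ∀ b ∈ Z0, g • b ∈ Z0)
    (u : Γ) (hu : u ∈ H)
    (hH : ∀ x ∈ H, ∃ (k : ℤ) (x₀ : Γ), x = u ^ k * x₀ ∧ ∀ b ∈ Z1, x₀ • b - b ∈ Z0)
    (p : ℕ) : ∀ l : List Γ, l.length = p → (∀ x ∈ l, x ∈ H) → ∀ b ∈ Z1,
      (fun y : A => u • y - y)^[p] b ∈ Z0 → sa_fl l b ∈ Z0 := by
  induction p with
  | zero =>
    intro l hl _ b _ hb
    rw [List.eq_nil_of_length_eq_zero hl]
    exact hb
  | succ p ih =>
    intro l hl hx b hb1 hb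
    obtain ⟨x, l', rfl⟩ := List.exists_of_length_succ l hl
    rw [sa_fl_cons]
    have hxH : x ∈ H := hx x List.mem_cons_self
    obtain ⟨φ, hφ⟩ : ∃ φ : A →+ A, (φ : A → A) = (fun y : A => u • y - y) :=
      ⟨DistribMulAction.toAddMonoidHom A u - AddMonoidHom.id A, rfl⟩
    rw [← hφ] at hb ih
    have hφa : ∀ y, φ y = u • y - y := fun y => by rw [hφ]
    -- the subgroup V
    let V : AddSubgroup A :=
      { carrier := {y | y ∈ Z1 ∧ (φ : A → A)^[p] y ∈ Z0}
        add_mem' := by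
          rintro y z ⟨h1, h2⟩ ⟨h3, h4⟩
          exact ⟨add_mem h1 h3, by rw [iterate_map_add]; exact add_mem h2 h4⟩
        zero_mem' := ⟨zero_mem _, by rw [iterate_map_zero]; exact zero_mem _⟩
        neg_mem' := by
          rintro y ⟨h1, h2⟩
          exact ⟨neg_mem h1, by rw [iterate_map_neg]; exact neg_mem h2⟩ }
    have hVdef : ∀ y, y ∈ V ↔ (y ∈ Z1 ∧ (φ : A → A)^[p] y ∈ Z0) := fun y => Iff.rfl
    have hcomm : ∀ (k : ℤ) (q : ℕ) (y : A), (φ : A → A)^[q] (u ^ k • y) = u ^ k • (φ : A → A)^[q] y := by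
      intro k q
      induction q with
      | zero => intro y; rfl
      | succ q ihq =>
        intro y
        rw [Function.iterate_succ_apply, Function.iterate_succ_apply, ← ihq]
        congr 1
        rw [hφa, hφa, smul_sub, smul_smul, smul_smul, (Commute.refl u).zpow_right k |>.eq]
    have huk : ∀ k : ℤ, u ^ k ∈ H := fun k => H.zpow_mem hu k
    have hVs : ∀ (k : ℤ) (y : A), y ∈ V → u ^ k • y ∈ V := by
      intro k y hy
      exact ⟨s1 _ (huk k) _ hy.1, by rw [hcomm]; exact s0 _ (huk k) _ hy.2⟩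
    have hV0 : ∀ y ∈ Z0, y ∈ V := by
      intro y hy
      refine ⟨h10 hy, ?_⟩
      have : ∀ q : ℕ, (φ : A → A)^[q] y ∈ Z0 := by
        intro q
        induction q with
        | zero => exact hy
        | succ q ihq =>
          rw [Function.iterate_succ_apply', hφa]
          exact sub_mem (s0 u hu _ ihq) ihq
      exact this p
    have hφb : u • b - b ∈ V := by
      refine ⟨sub_mem (s1 u hu b hb1) hb1, ?_⟩
      rw [← hφa, ← Function.iterate_succ_apply]
      exact hb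
    have hkb : ∀ k : ℤ, u ^ k • b - b ∈ V := by
      intro k
      induction k using Int.induction_on with
      | zero => rw [zpow_zero, one_smul, sub_self]; exact zero_mem _
      | succ k ihk =>
        have e : u ^ ((k : ℤ) + 1) • b - b = u ^ (k : ℤ) • (u • b - b) + (u ^ (k : ℤ) • b - b) := by
          rw [zpow_add_one, mul_smul, smul_sub]; abel
        rw [e]
        exact add_mem (hVs _ _ hφb) ihk
      | pred k ihk =>
        have e : u ^ (-(k : ℤ) - 1) • b - b =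
            -(u ^ (-(k : ℤ) - 1) • (u • b - b)) + (u ^ (-(k : ℤ)) • b - b) := by
          have e1 : u ^ (-(k : ℤ)) = u ^ (-(k : ℤ) - 1) * u := by
            rw [← zpow_add_one]; congr 1; ring
          rw [e1, smul_sub, mul_smul]; abel
        rw [e]
        exact add_mem (neg_mem (hVs _ _ hφb)) ihk
    obtain ⟨k, x₀, hxk, hx₀⟩ := hH x hxH
    have hxb : x • b - b ∈ V := by
      have e : x • b - b = u ^ k • (x₀ • b - b) + (u ^ k • b - b) := by
        rw [hxk, smul_sub, mul_smul]; abel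
      rw [e]
      exact add_mem (hVs _ _ (hV0 _ (hx₀ b hb1))) (hkb k)
    exact ih l' (by simpa using hl) (fun y hy => hx y (List.mem_cons_of_mem _ hy)) _ hxb.1 hxb.2

/-- structure of subgroups of `P` -/
theorem sa_sub (R P H : Subgroup Γ) (t : Γ) (hR : ∀ x, x ∈ R ↔ t * x * t⁻¹ ∈ R)
    (hP : ∀ x ∈ P, ∃ k : ℤ, t ^ (-k) * x ∈ R) (hH : H ≤ P) :
    (∀ g ∈ H, ∀ x ∈ H ⊓ R, g⁻¹ * x * g ∈ H ⊓ R) ∧
      ∃ u ∈ H, ∀ x ∈ H, ∃ (k : ℤ) (x₀ : Γ), x = u ^ k * x₀ ∧ x₀ ∈ H ⊓ R := by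
  have hn : ∀ (k : ℤ) (x : Γ), x ∈ R → t ^ k * x * (t ^ k)⁻¹ ∈ R := by
    intro k x hx
    have h1 : t ∈ Subgroup.normalizer (R : Set Γ) := Subgroup.mem_normalizer_iff.mpr hR
    have h2 : t ^ k ∈ Subgroup.normalizer (R : Set Γ) := Subgroup.zpow_mem _ h1 k
    exact (Subgroup.mem_normalizer_iff.mp h2 x).mp hx
  have hmul : ∀ (k l : ℤ) (x y : Γ), t ^ (-k) * x ∈ R → t ^ (-l) * y ∈ R →
      t ^ (-(k + l)) * (x * y) ∈ R := by
    intro k l x y hx hy
    have e : t ^ (-(k + l)) * (x * y) =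
        (t ^ (-l) * (t ^ (-k) * x) * (t ^ (-l))⁻¹) * (t ^ (-l) * y) := by
      rw [neg_add, add_comm, zpow_add]; group
    rw [e]
    exact mul_mem (hn _ _ hx) hy
  have hinv : ∀ (k : ℤ) (x : Γ), t ^ (-k) * x ∈ R → t ^ (-(-k)) * x⁻¹ ∈ R := by
    intro k x hx
    have e : t ^ (-(-k)) * x⁻¹ = (t ^ k * (t ^ (-k) * x) * (t ^ k)⁻¹)⁻¹ := by
      rw [neg_neg]; group
    rw [e]
    exact inv_mem (hn _ _ hx)
  have hzero : ∀ x : Γ, t ^ (-(0:ℤ)) * x ∈ R ↔ x ∈ R := by
    intro x; simp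
  have hzpow : ∀ (k : ℤ) (x : Γ), t ^ (-k) * x ∈ R → ∀ q : ℤ, t ^ (-(q * k)) * x ^ q ∈ R := by
    intro k x hx q
    induction q using Int.induction_on with
    | zero => simp
    | succ q ih =>
      have := hmul _ _ _ _ ih hx
      rw [zpow_add_one]
      have e : ((q : ℤ) + 1) * k = q * k + k := by ring
      rw [e]; exact this
    | pred q ih =>
      have := hmul _ _ _ _ ih (hinv _ _ hx)
      rw [zpow_sub_one]
      have e : (-(q : ℤ) - 1) * k = -q * k + -k := by ring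
      rw [e]; exact this
  constructor
  · rintro g hg x ⟨hxH, hxR⟩
    refine ⟨H.mul_mem (H.mul_mem (H.inv_mem hg) hxH) hg, ?_⟩
    obtain ⟨k, hk⟩ := hP g (hH hg)
    have h1 := hmul _ _ _ _ (hmul _ _ _ _ (hinv _ _ hk) ((hzero x).mpr hxR)) hk
    have e : -k + 0 + k = 0 := by ring
    rw [e, hzero] at h1
    exact h1
  · let K : AddSubgroup ℤ :=
      { carrier := {k | ∃ x ∈ H, t ^ (-k) * x ∈ R}
        add_mem' := by
          rintro k l ⟨x, hx, hxr⟩ ⟨y, hy, hyr⟩
          exact ⟨x * y, mul_mem hx hy, hmul _ _ _ _ hxr hyr⟩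
        zero_mem' := ⟨1, one_mem _, by simp⟩
        neg_mem' := by
          rintro k ⟨x, hx, hxr⟩
          exact ⟨x⁻¹, inv_mem hx, hinv _ _ hxr⟩ }
    have hK : ∀ k, k ∈ K ↔ ∃ x ∈ H, t ^ (-k) * x ∈ R := fun k => Iff.rfl
    obtain ⟨d, hd⟩ := Int.subgroup_cyclic K
    have hdK : d ∈ K := by
      rw [hd]; exact AddSubgroup.mem_closure_singleton_self d
    obtain ⟨u, hu, hur⟩ := (hK d).mp hdK
    refine ⟨u, hu, fun x hx => ?_⟩
    obtain ⟨k, hk⟩ := hP x (hH hx)
    have hkK : k ∈ K := (hK k).mpr ⟨x, hx, hk⟩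
    rw [hd, AddSubgroup.mem_closure_singleton] at hkK
    obtain ⟨q, hq⟩ := hkK
    refine ⟨q, (u ^ q)⁻¹ * x, by group, H.mul_mem (H.inv_mem (H.zpow_mem hu q)) hx, ?_⟩
    have h1 := hmul _ _ _ _ (hinv _ _ (hzpow d u hur q)) hk
    have e : -(q * d) + k = 0 := by
      rw [← hq, smul_eq_mul]; ring
    rw [e, hzero] at h1
    exact h1

end sa

/-- from single elements to subgroups. -/
theorem stunted_all {Γ A : Type} [Group Γ] [AddCommGroup A] [DistribMulAction Γ A] (hΓ : PC Γ)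
    (h₁ : ℕ) (hS : ∀ (x : Γ) (a : A) (n : ℕ), (fun y : A => x • y - y)^[n] a = 0 →
      (fun y : A => x • y - y)^[h₁] a = 0) :
    ∃ h : ℕ, ∀ H : Subgroup Γ, ∀ y : A,
      (∃ n : ℕ, ∀ l : List Γ, l.length = n → (∀ x ∈ l, x ∈ H) →
        l.foldl (fun (b : A) (x : Γ) => x • b - b) y = 0) →
      ∀ l : List Γ, l.length = h → (∀ x ∈ l, x ∈ H) →
        l.foldl (fun (b : A) (x : Γ) => x • b - b) y = 0 := by
  have key := poly_ind hΓ (fun R : Subgroup Γ => ∃ m : ℕ, ∀ H : Subgroup Γ, H ≤ R → ∀ y : A,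
    (∃ n, sa_N H n y) → sa_N H m y) ?_ ?_
  · obtain ⟨m, hm⟩ := key
    exact ⟨m, fun H y hy => hm H le_top y hy⟩
  · refine ⟨1, fun H hH y _ l hl hx => ?_⟩
    obtain ⟨x, l', rfl⟩ := List.exists_of_length_succ l hl
    have h1 : x = 1 := Subgroup.mem_bot.mp (hH (hx x List.mem_cons_self))
    rw [sa_fl_cons, h1, one_smul, sub_self, sa_fl_zero]
  · rintro R P t hRP ht hR hP ⟨m, hm⟩
    refine ⟨h₁ * m, fun H hH y hy => ?_⟩
    obtain ⟨hnorm, u, hu, hdec⟩ := sa_sub R P H t hR hP hH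
    have hnilS : ∀ g ∈ H, ∀ b ∈ (sa_Nil H : AddSubgroup A), g • b ∈ (sa_Nil H : AddSubgroup A) := by
      rintro g hg b ⟨n, hn⟩
      exact ⟨n, sa_N_smul H hn g fun x hx => H.mul_mem (H.mul_mem (H.inv_mem hg) hx) hg⟩
    have hZs : ∀ i, ∀ g ∈ H, ∀ b ∈ (sa_Z H (H ⊓ R) i : AddSubgroup A),
        g • b ∈ (sa_Z H (H ⊓ R) i : AddSubgroup A) := by
      rintro i g hg b ⟨hb1, hb2⟩
      exact ⟨hnilS g hg b hb1, sa_N_smul _ hb2 g fun x hx => hnorm g hg x hx⟩
    have hstep : ∀ i, ∀ l : List Γ, l.length = h₁ → (∀ x ∈ l, x ∈ H) →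
        ∀ b ∈ (sa_Z H (H ⊓ R) (i+1) : AddSubgroup A), sa_fl l b ∈ (sa_Z H (H ⊓ R) i : AddSubgroup A) := by
      intro i l hl hx b hb
      refine sa_block H _ _ ?_ (hZs (i+1)) (hZs i) u hu ?_ h₁ l hl hx b hb ?_
      · rintro z ⟨hz1, hz2⟩
        exact ⟨hz1, sa_N_mono _ (Nat.le_succ i) hz2⟩
      · intro x hx
        obtain ⟨k, x₀, hxk, hx₀⟩ := hdec x hx
        refine ⟨k, x₀, hxk, ?_⟩
        rintro z ⟨hz1, hz2⟩
        refine ⟨sub_mem (hnilS x₀ hx₀.1 z hz1) hz1, ?_⟩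
        intro l' hl' hx'
        have := hz2 (x₀ :: l') (by simp [hl']) (by
          intro w hw
          rcases List.mem_cons.mp hw with h | h
          · rw [h]; exact hx₀
          · exact hx' w h)
        exact this
      · obtain ⟨⟨n, hn⟩, _⟩ := hb
        have h1 := hn (List.replicate n u) (List.length_replicate ..) (fun w hw => by
          rw [List.eq_of_mem_replicate hw]; exact hu)
        rw [sa_iter] at h1
        rw [hS u b n h1]
        exact zero_mem _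
    have hchain : ∀ j, j ≤ m → ∀ l : List Γ, l.length = h₁ * j → (∀ x ∈ l, x ∈ H) →
        sa_fl l y ∈ (sa_Z H (H ⊓ R) (m - j) : AddSubgroup A) := by
      intro j
      induction j with
      | zero =>
        intro _ l hl hx
        have : l = [] := List.eq_nil_of_length_eq_zero (by rw [hl]; simp)
        rw [this, sa_fl_nil]
        refine ⟨hy, ?_⟩
        obtain ⟨n, hn⟩ := hy
        exact hm (H ⊓ R) inf_le_right y ⟨n, fun l hl hx => hn l hl fun x hxl => (hx x hxl).1⟩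
      | succ j ih =>
        intro hj l hl hx
        have e1 : l = l.take (h₁ * j) ++ l.drop (h₁ * j) := (List.take_append_drop _ l).symm
        rw [e1, sa_fl_append]
        have e2 : m - j = (m - (j+1)) + 1 := by omega
        have h1 := ih (by omega) (l.take (h₁ * j))
          (by rw [List.length_take, hl]; exact min_eq_left (Nat.mul_le_mul_left _ (Nat.le_succ j)))
          (fun x hxm => hx x (List.mem_of_mem_take hxm))
        rw [e2] at h1
        refine hstep _ _ ?_ (fun x hxm => hx x (List.mem_of_mem_drop hxm)) _ h1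
        rw [List.length_drop, hl, Nat.mul_succ]; omega
    intro l hl hx
    have h1 := hchain m le_rfl l hl hx
    rw [Nat.sub_self] at h1
    exact h1.2 [] rfl (by simp)

end Pool.Agent.Helper933.HC
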