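import Pool.Agent.Helper933.HC.Defs
import Pool.Agent.Helper933.HC.P_hl_exists
import Pool.Agent.Helper933.HC.P_se_all
import Pool.Agent.Helper933.HC.P_stunted_all

set_option autoImplicit false

namespace Pool.Agent.Helper933.HC
open Module


theorem s1619 (hmain : ∀ (n : ℕ) (Q : Type) [Group Q], PC Q → HL Q n → MainFor Q) :
    ∀ (Γ : Type) [Group Γ], IsSolvable Γ → (∀ H : Subgroup Γ, H.FG) →
      ∀ (A : Type) [AddCommGroup A] [DistribMulAction Γ A],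
        (∃ S : Finset A, AddSubgroup.closure {a : A | ∃ g : Γ, ∃ s ∈ S, a = g • s} = ⊤) →
        Nontrivial A →
        ∃ Y : AddSubgroup A, Y ≠ ⊥ ∧ (∀ g : Γ, ∀ y ∈ Y, g • y ∈ Y) ∧
          (∃ h : ℕ, ∀ H : Subgroup Γ, ∀ y ∈ Y,
            (∃ n : ℕ, ∀ l : List Γ, l.length = n → (∀ x ∈ l, x ∈ H) →
                l.foldl (fun (b : A) (x : Γ) => x • b - b) y = 0) →
            ∀ l : List Γ, l.length = h → (∀ x ∈ l, x ∈ H) →
                l.foldl (fun (b : A) (x : Γ) => x • b - b) y = 0) ∧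
          (∃ e : ℕ, 0 < e ∧ ∀ x : Γ, ∀ n : ℕ, 0 < n → ∀ y ∈ Y,
            x ^ n • y = y → x ^ e • y = y) := by
  intro Γ _ hsol hfg A _ _ hA hnt
  have hΓ : PC Γ := ⟨hsol, hfg⟩
  obtain ⟨n, hn⟩ := hl_exists hΓ
  have hM : MainFor Γ := hmain n Γ hΓ hn
  have hSE : SEt Γ A := se_all hΓ hM hA
  obtain ⟨⟨h₁, hh₁⟩, e, he, hper⟩ := hSE
  obtain ⟨h, hh⟩ := stunted_all hΓ h₁ hh₁
  refine ⟨⊤, top_ne_bot, fun g y _ => AddSubgroup.mem_top _, ⟨h, fun H y _ => hh H y⟩, e, he, ?_⟩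
  intro x n hn y _ hy
  exact hper x n y hn hy

end Pool.Agent.Helper933.HC
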