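import Pool.Agent.Helper933.HC.Defs
import Pool.Agent.Helper933.HC.P_hl_exists
import Pool.Agent.Helper933.HC.P_se_all
import Pool.Agent.Helper933.HC.P_ab_module
import Pool.Agent.Helper933.HC.P_pow_bound
import Pool.Agent.Helper933.HC.P_cnt
import Pool.Agent.Helper933.HC.P_fix_chain
import Pool.Agent.Helper933.HC.P_erem_grp

set_option autoImplicit false

namespace Pool.Agent.Helper933.HC
open Module


theorem s1971 (hmain : ∀ (n : ℕ) (Q : Type) [Group Q], PC Q → HL Q n → MainFor Q) :
    ∀ (G : Type) [Group G], Group.FG G →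
      ∀ (A : Subgroup G) [A.Normal],
        (∀ a ∈ A, ∀ b ∈ A, a * b = b * a) →
        IsSolvable (G ⧸ A) →
        (∀ K : Subgroup (G ⧸ A), K.FG) →
        ∃ m : ℕ, ∀ (n : ℕ) (H : ℕ → Subgroup G),
          (∀ i ≤ n, ∃ k : ℕ, ∃ K : ℕ → Subgroup G,
              K 0 = H i ∧ K k = ⊤ ∧
              ∀ j < k, K j ≤ K (j + 1) ∧ ((K j).subgroupOf (K (j + 1))).Normal) →
          (∀ i < n, Subgroup.centralizer ((H i : Set G)) ≤
              Subgroup.centralizer ((H (i + 1) : Set G))) →
          {i : ℕ | i < n ∧ Subgroup.centralizer ((H i : Set G)) <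
              Subgroup.centralizer ((H (i + 1) : Set G))}.ncard ≤ m := by
  classical
  intro G _ hG A _ hab hs hfg
  set f : G →* G ⧸ A := QuotientGroup.mk' A with hf
  have hQ : PC (G ⧸ A) := ⟨hs, hfg⟩
  have hker : f.ker = A := QuotientGroup.ker_mk' A
  have hsurj : Function.Surjective f := QuotientGroup.mk'_surjective A
  have hab' : ∀ x ∈ f.ker, ∀ y ∈ f.ker, x * y = y * x := by rw [hker]; exact hab
  obtain ⟨M, _, _, j, hj1, hj2, hj3, hj4, hj5⟩ := ab_module hG f hsurj hQ hab'
  obtain ⟨h, hh⟩ := hl_exists hQ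
  obtain ⟨-, e2, he2, he2'⟩ := se_all hQ (hmain h _ hQ hh) hj5
  obtain ⟨e1, he1, he1'⟩ := erem_grp hmain hG f hsurj hQ hab'
  obtain ⟨N, hN⟩ := pow_bound hQ e1 he1
  obtain ⟨m1, hm1⟩ := fix_chain (M := M) hQ e2 he2 he2'
  refine ⟨m1 + (m1 + h + 1) * (N + 1), ?_⟩
  intro n H _ hH
  set C : ℕ → Subgroup G := fun i => Subgroup.centralizer (H i : Set G) with hC
  set X : ℕ → Subgroup G := fun i => Subgroup.centralizer (C i : Set G) with hX
  have hXle : ∀ i < n, X (i + 1) ≤ X i := fun i hi => Subgroup.centralizer_le (hH i hi)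
  have hCX : ∀ i, C i = Subgroup.centralizer (X i : Set G) := by
    intro i
    apply le_antisymm
    · intro c hc
      rw [Subgroup.mem_centralizer_iff]
      intro x hx
      exact ((Subgroup.mem_centralizer_iff.mp hx) c hc).symm
    · refine Subgroup.centralizer_le ?_
      intro x hx
      have : x ∈ Subgroup.centralizer (C i : Set G) := by
        rw [Subgroup.mem_centralizer_iff]
        intro c hc
        exact ((Subgroup.mem_centralizer_iff.mp hc) x hx).symm
      exact this
  have hfix : ∀ i a, j a ∈ X i ↔ ∀ x ∈ f '' (C i : Set G), x • a = a := by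
    intro i a
    have h0 : j a ∈ X i ↔ ∀ c ∈ (C i : Set G), c * j a = j a * c :=
      Subgroup.mem_centralizer_iff
    rw [h0]
    constructor
    · rintro h1 _ ⟨c, hc, rfl⟩
      apply hj1
      rw [hj4, h1 c hc, mul_inv_cancel_right]
    · intro h1 c hc
      have h2 := h1 (f c) ⟨c, hc, rfl⟩
      have h3 := hj4 c a
      rw [h2, eq_mul_inv_iff_mul_eq] at h3
      exact h3.symm
  set B : Finset ℕ := (Finset.range n).filter (fun i => X (i + 1) ⊓ A ≠ X i ⊓ A) with hB
  have hBcard : B.card ≤ m1 := by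
    have h1 := hm1 n (fun i => f '' (C (n - i) : Set G)) (by
      rintro i hi a ha _ ⟨c, hc, rfl⟩
      refine ha _ ⟨c, ?_, rfl⟩
      have h2 := hH (n - (i + 1)) (by omega)
      have h3 : n - (i + 1) + 1 = n - i := by omega
      rw [h3] at h2
      exact h2 hc)
    refine le_trans ?_ h1
    rw [← Set.ncard_coe_finset B]
    refine Set.ncard_le_ncard_of_injOn (fun i => n - 1 - i) ?_ ?_
      ((Set.finite_lt_nat n).subset (fun i hi => hi.1))
    · intro i hi
      have hi' : i ∈ B := hi
      rw [hB, Finset.mem_filter, Finset.mem_range] at hi'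
      obtain ⟨hin, hne⟩ := hi'
      have hex : ∃ g ∈ X i ⊓ A, g ∉ X (i + 1) ⊓ A := by
        by_contra hcon
        push Not at hcon
        exact hne (le_antisymm (inf_le_inf_right A (hXle i hin)) hcon)
      obtain ⟨g, ⟨hg1, hg2⟩, hg3⟩ := hex
      have hgA : g ∈ f.ker := by rw [hker]; exact hg2
      obtain ⟨a, rfl⟩ := (hj2 g).mp hgA
      have e1' : n - (n - 1 - i + 1) = i := by omega
      have e2' : n - (n - 1 - i) = i + 1 := by omega
      refine ⟨by omega, a, ?_, ?_⟩
      · have := (hfix i a).mp hg1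
        simpa only [e1'] using this
      · intro hcon
        have hcon' : ∀ x ∈ f '' (C (i + 1) : Set G), x • a = a := by
          simpa only [e2'] using hcon
        exact hg3 ⟨(hfix (i + 1) a).mpr hcon', hg2⟩
    · intro i hi i' hi' hii
      have h2 : i < n := Finset.mem_range.mp (Finset.mem_filter.mp (hi : i ∈ B)).1
      have h3 : i' < n := Finset.mem_range.mp (Finset.mem_filter.mp (hi' : i' ∈ B)).1
      have h4 : n - 1 - i = n - 1 - i' := hii
      omega
  set K : ℕ → Subgroup (G ⧸ A) := fun i => (X i).map f with hK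
  have hKle : ∀ i < n, K (i + 1) ≤ K i := fun i hi => Subgroup.map_mono (hXle i hi)
  have hXanti : ∀ i k, i + k ≤ n → X (i + k) ≤ X i := by
    intro i k
    induction k with
    | zero => intro _; exact le_rfl
    | succ k ih =>
      intro hk
      exact (hXle (i + k) (by omega)).trans (ih (by omega))
  have hcnt := cnt hh hN n K hKle B (by
    intro i j' hij hjn hbr hrel x hx
    have hXA : ∀ k, i + k ≤ j' → X (i + k) ⊓ A = X i ⊓ A := by
      intro k
      induction k with
      | zero => intro _; rfl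
      | succ k ih =>
        intro hk
        rw [← ih (by omega)]
        by_contra hne
        refine hbr (i + k) ?_ ⟨by omega, by omega⟩
        rw [hB, Finset.mem_filter, Finset.mem_range]
        exact ⟨by omega, hne⟩
    obtain ⟨d, rfl⟩ : ∃ d, j' = i + d := ⟨j' - i, by omega⟩
    have hXd := hXA d le_rfl
    obtain ⟨y, hy, rfl⟩ := hx
    obtain ⟨k, hk0, -, hk⟩ := Subgroup.exists_pow_mem_of_relIndex_ne_zero hrel
      (show f y ∈ K i from ⟨y, hy, rfl⟩)
    obtain ⟨z, hz, hzy⟩ := hk.1
    have hzy' : f z = f (y ^ k) := by rw [hzy, map_pow]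
    have hA1 : z⁻¹ * y ^ k ∈ A := by
      rw [← hker, MonoidHom.mem_ker, map_mul, map_inv, hzy']
      simp
    have hX1 : z⁻¹ * y ^ k ∈ X i :=
      mul_mem (inv_mem (hXanti i d hjn hz)) (pow_mem hy k)
    have hX2 : z⁻¹ * y ^ k ∈ X (i + d) ⊓ A := by
      rw [hXd]
      exact ⟨hX1, hA1⟩
    have hX3 : y ^ k ∈ X (i + d) := by
      have := mul_mem (show z ∈ X (i + d) from hz) hX2.1
      rwa [mul_inv_cancel_left] at this
    have hX4 : y ^ e1 ∈ X (i + d) := by
      have h5 : ∀ c ∈ (C (i + d) : Set G), c * y ^ k = y ^ k * c :=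
        Subgroup.mem_centralizer_iff.mp hX3
      have h6 : ∀ c ∈ (C (i + d) : Set G), c * y ^ e1 = y ^ e1 * c := fun c hc =>
        (he1' y c k hk0 (h5 c hc).symm).symm
      exact Subgroup.mem_centralizer_iff.mpr h6
    rw [← map_pow]
    exact ⟨y ^ e1, hX4, rfl⟩)
  have hsub : {i : ℕ | i < n ∧ Subgroup.centralizer ((H i : Set G)) <
      Subgroup.centralizer ((H (i + 1) : Set G))} ⊆
      (B : Set ℕ) ∪ {i : ℕ | i < n ∧ i ∉ B ∧ K (i + 1) ≠ K i} := by
    rintro i ⟨hin, hlt⟩
    by_cases hiB : i ∈ B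
    · exact Or.inl hiB
    · refine Or.inr ⟨hin, hiB, ?_⟩
      intro hKeq
      have hXA : X (i + 1) ⊓ A = X i ⊓ A := by
        by_contra hne
        exact hiB (by rw [hB, Finset.mem_filter, Finset.mem_range]; exact ⟨hin, hne⟩)
      have hXeq : X (i + 1) = X i := by
        apply le_antisymm (hXle i hin)
        intro x hx
        have h7 : f x ∈ K (i + 1) := by
          rw [hKeq]
          exact ⟨x, hx, rfl⟩
        obtain ⟨y, hy, hyx⟩ := h7
        have hA1 : y⁻¹ * x ∈ A := by
          rw [← hker, MonoidHom.mem_ker, map_mul, map_inv, hyx]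
          simp
        have hX1 : y⁻¹ * x ∈ X i := mul_mem (inv_mem (hXle i hin hy)) hx
        have hX2 : y⁻¹ * x ∈ X (i + 1) ⊓ A := by
          rw [hXA]
          exact ⟨hX1, hA1⟩
        have := mul_mem (show y ∈ X (i + 1) from hy) hX2.1
        rwa [mul_inv_cancel_left] at this
      have hCeq : C i = C (i + 1) := by
        rw [hCX i, hCX (i + 1), hXeq]
      exact hlt.ne hCeq
  have hfin1 : {i : ℕ | i < n ∧ i ∉ B ∧ K (i + 1) ≠ K i}.Finite :=
    (Set.finite_lt_nat n).subset (fun i hi => hi.1)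
  calc _ ≤ ((B : Set ℕ) ∪ {i : ℕ | i < n ∧ i ∉ B ∧ K (i + 1) ≠ K i}).ncard :=
        Set.ncard_le_ncard hsub (B.finite_toSet.union hfin1)
    _ ≤ (B : Set ℕ).ncard + {i : ℕ | i < n ∧ i ∉ B ∧ K (i + 1) ≠ K i}.ncard :=
        Set.ncard_union_le _ _
    _ ≤ m1 + (m1 + h + 1) * (N + 1) := by
        rw [Set.ncard_coe_finset]
        refine Nat.add_le_add hBcard (hcnt.trans ?_)
        exact Nat.mul_le_mul_right _ (by omega)

end Pool.Agent.Helper933.HC
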