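import Pool.Agent.Helper933.HC.Defs
import Pool.Agent.Helper933.HC.P_hl_exists
import Pool.Agent.Helper933.HC.P_se_all
import Pool.Agent.Helper933.HC.P_stunted_all
import Pool.Agent.Helper933.HC.P_ab_module

set_option autoImplicit false

namespace Pool.Agent.Helper933.HC
open Module


open scoped commutatorElement in
theorem s647_fold {G Q M : Type} [Group G] [Group Q] [AddCommGroup M] [DistribMulAction Q M]
    (f : G →* Q) (j : M → G) (hj : Function.Injective j) (hadd : ∀ a b, j (a + b) = j a * j b)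
    (hact : ∀ g m, j (f g • m) = g * j m * g⁻¹) (H : Subgroup G) (n : ℕ) :
    ∀ (a : M) (z : H), (z : G) = j a →
      (z ∈ Subgroup.upperCentralSeries H n ↔
        ∀ l : List Q, l.length = n → (∀ x ∈ l, x ∈ H.map f) →
          l.foldl (fun (b : M) (x : Q) => x • b - b) a = 0) := by
  have hj0 : j 0 = 1 := by
    have := hadd 0 0
    rw [add_zero] at this
    exact (mul_eq_left.mp this.symm)
  have hjneg : ∀ a, j (-a) = (j a)⁻¹ := by
    intro a
    have := hadd a (-a)
    rw [add_neg_cancel, hj0] at this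
    exact eq_inv_of_mul_eq_one_right this.symm
  induction n with
  | zero =>
    intro a z hz
    rw [Subgroup.upperCentralSeries_zero, Subgroup.mem_bot]
    constructor
    · intro h l hl _
      rw [List.length_eq_zero_iff] at hl
      subst hl
      show a = 0
      apply hj
      rw [hj0, ← hz, h]; rfl
    · intro h
      have h1 : a = 0 := h [] rfl (by simp)
      ext; rw [hz, h1, hj0]; rfl
  | succ n ih =>
    intro a z hz
    rw [Subgroup.mem_upperCentralSeries_succ_iff]
    have hcomm : ∀ y : H, ((⁅z, y⁆⁻¹ : H) : G) = j (f y • a - a) := by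
      intro y
      rw [sub_eq_add_neg, hadd, hjneg, hact, commutatorElement_def]
      push_cast
      rw [hz]; group
    constructor
    · intro h l hl hmem
      cases l with
      | nil => simp at hl
      | cons x l =>
        rw [List.foldl_cons]
        obtain ⟨y, hy, rfl⟩ := hmem x (by simp)
        have h1 := (ih (f y • a - a) (⁅z, ⟨y, hy⟩⁆⁻¹) (hcomm ⟨y, hy⟩)).1 (inv_mem (h ⟨y, hy⟩))
        exact h1 l (by simpa using hl) (fun x hx => hmem x (by simp [hx]))
    · intro h y
      rw [← inv_mem_iff]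
      apply (ih _ _ (hcomm y)).2
      intro l hl hmem
      have := h (f y :: l) (by simp [hl]) (by
        intro x hx
        rcases List.mem_cons.mp hx with rfl | hx
        · exact ⟨y, y.2, rfl⟩
        · exact hmem x hx)
      exact this

theorem s647 (hmain : ∀ (n : ℕ) (Q : Type) [Group Q], PC Q → HL Q n → MainFor Q) :
    ∀ (G : Type) [Group G], Group.FG G →
      (∃ (Q : Type) (_ : Group Q) (f : G →* Q),
          Function.Surjective f ∧ IsSolvable Q ∧ (∀ K : Subgroup Q, K.FG) ∧
            ∀ x ∈ f.ker, ∀ y ∈ f.ker, x * y = y * x) →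
      ∀ H : Subgroup G, ∃ n : ℕ,
        upperCentralSeries (↥H) n = upperCentralSeries (↥H) (n + 1) := by
  intro G _ hG ⟨Q, _, f, hf, hsol, hfgs, hab⟩ H
  have hQ : PC Q := ⟨hsol, hfgs⟩
  obtain ⟨n₀, hn₀⟩ := hl_exists hQ
  have hM : MainFor Q := hmain n₀ Q hQ hn₀
  obtain ⟨M, _, _, j, hj, hker, hadd, hact, hfg⟩ := ab_module hG f hf hQ hab
  obtain ⟨⟨h₁, hh₁⟩, _⟩ := se_all hQ hM hfg
  obtain ⟨h, hh⟩ := stunted_all hQ h₁ hh₁
  let Z : ℕ → Subgroup H := fun n => Subgroup.upperCentralSeries H n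
  have hZmono : Monotone Z := Subgroup.upperCentralSeries_mono H
  let P : ℕ → Subgroup Q := fun n => (Z n).map (f.comp H.subtype)
  have hPmono : Monotone P := fun a b hab => Subgroup.map_mono (hZmono hab)
  obtain ⟨N0, hN0⟩ : ∃ N0, ∀ n, P n ≤ P N0 := by
    obtain ⟨S, hS⟩ := hQ.2 (⨆ n, P n)
    have h1 : ∀ s ∈ S, ∃ n, s ∈ P n := by
      intro s hs
      have h2 : s ∈ ⨆ n, P n := by rw [← hS]; exact Subgroup.subset_closure hs
      exact (Subgroup.mem_iSup_of_directed hPmono.directed_le).1 h2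
    choose! k hk using h1
    refine ⟨S.sup k, fun n => ?_⟩
    calc P n ≤ ⨆ n, P n := le_iSup P n
      _ = Subgroup.closure S := hS.symm
      _ ≤ P (S.sup k) := by
        rw [Subgroup.closure_le]
        intro s hs
        exact hPmono (Finset.le_sup hs) (hk s hs)
  have hall : ∀ n, Z n ≤ Z (max N0 h) := by
    intro n x hx
    have hx1 : f (x : G) ∈ P n := ⟨x, hx, rfl⟩
    obtain ⟨y, hy, hyx⟩ := hN0 n hx1
    have hyx' : f (y : G) = f (x : G) := hyx
    have hz1 : y⁻¹ * x ∈ Z (max n N0) :=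
      mul_mem (inv_mem (hZmono (le_max_right _ _) hy)) (hZmono (le_max_left _ _) hx)
    have hz2 : ((y⁻¹ * x : H) : G) ∈ f.ker := by
      rw [MonoidHom.mem_ker]
      push_cast
      rw [map_mul, map_inv, hyx', inv_mul_cancel]
    obtain ⟨m, hm⟩ := (hker _).1 hz2
    have hz3 := (s647_fold f j hj hadd hact H (max n N0) m (y⁻¹ * x) hm.symm).1 hz1
    have hz4 := hh (H.map f) m ⟨_, hz3⟩
    have hz5 : y⁻¹ * x ∈ Z h := (s647_fold f j hj hadd hact H h m (y⁻¹ * x) hm.symm).2 hz4
    have hz6 : x = y * (y⁻¹ * x) := by group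
    rw [hz6]
    exact mul_mem (hZmono (le_max_left _ _) hy) (hZmono (le_max_right _ _) hz5)
  refine ⟨max N0 h, ?_⟩
  exact le_antisymm (hZmono (Nat.le_succ _)) (hall _)

end Pool.Agent.Helper933.HC
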